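import Pool.Agent.Lib.MP_629a14_nt.Th.Fejer

/-! The Fourier representation of `RR - RM`. -/

set_option autoImplicit false

namespace Pool.Agent.Lib.MP_629a14_nt.Th

open Finset Pool.Agent.Lib.MP_629a14_nt

theorem cq_neg (q : ℕ) (k : ℤ) : cq q (-k) = cq q k := by
  unfold cq
  rcases Nat.eq_zero_or_pos q with hq | hq
  · subst hq; simp
  have hinv : ∀ a ∈ (range q).filter (fun a => a.Coprime q),
      (q - a) % q ∈ (range q).filter (fun a => a.Coprime q) ∧ (q - (q - a) % q) % q = a := by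
    intro a ha
    rw [Finset.mem_filter, Finset.mem_range] at ha
    rcases Nat.eq_zero_or_pos a with h0 | h0
    · subst h0
      refine ⟨?_, by simp⟩
      rw [Nat.sub_zero, Nat.mod_self, Finset.mem_filter, Finset.mem_range]
      exact ha
    · have h1 : (q - a) % q = q - a := Nat.mod_eq_of_lt (by omega)
      rw [h1, Finset.mem_filter, Finset.mem_range]
      refine ⟨⟨by omega, (Nat.coprime_self_sub_left ha.1.le).2 ha.2⟩, ?_⟩
      rw [Nat.sub_sub_self ha.1.le]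
      exact Nat.mod_eq_of_lt ha.1
  refine Finset.sum_nbij' (fun a => (q - a) % q) (fun a => (q - a) % q)
    (fun a ha => (hinv a ha).1) (fun a ha => (hinv a ha).1)
    (fun a ha => (hinv a ha).2) (fun a ha => (hinv a ha).2) ?_
  intro a ha
  rw [Finset.mem_filter, Finset.mem_range] at ha
  have hq0 : (q : ℝ) ≠ 0 := by exact_mod_cast hq.ne'
  rcases Nat.eq_zero_or_pos a with h0 | h0
  · subst h0; simp
  · have h1 : (q - a) % q = q - a := Nat.mod_eq_of_lt (by omega)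
    rw [h1, Nat.cast_sub ha.1.le]
    have : ((q : ℝ) - a) * (k : ℝ) / q = (k : ℤ) + (a : ℝ) * ((-k : ℤ) : ℝ) / q := by
      push_cast
      field_simp
      ring
    rw [this, ee_add, ee_int, one_mul]

/-- `Psi P H α = ∑_{|k| < H} fej(k) e(kα) ∑_{q ≤ P} c_q(k)` (`FH_eq`). -/
theorem Psi_eq (P H : ℕ) (hH : 1 ≤ H) (α : ℝ) :
    (Psi P H α : ℂ) = ∑ k ∈ Ioo (-(H : ℤ)) H, (fej H (k : ℝ) : ℂ) * ee (k * α) * ∑ q ∈ Icc 1 P, cq q k := by
  unfold Psi
  rw [Complex.ofReal_sum]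
  have h1 : ∀ q ∈ Icc 1 P, ((∑ a ∈ (range q).filter (fun a => a.Coprime q), FH H (α - a / q) : ℝ) : ℂ) =
      ∑ k ∈ Ioo (-(H : ℤ)) H, (fej H (k : ℝ) : ℂ) * ee (k * α) * cq q k := by
    intro q _
    rw [Complex.ofReal_sum]
    rw [Finset.sum_congr rfl fun (a : ℕ) _ => FH_eq H hH (α - (a : ℝ) / q)]
    rw [Finset.sum_comm]
    refine Finset.sum_congr rfl fun k _ => ?_
    rw [← cq_neg]
    unfold cq
    rw [Finset.mul_sum]
    refine Finset.sum_congr rfl fun a _ => ?_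
    have : (k : ℝ) * (α - a / q) = k * α + a * ((-k : ℤ) : ℝ) / q := by
      push_cast
      ring
    rw [this, ee_add]
    ring
  rw [Finset.sum_congr rfl h1, Finset.sum_comm]
  refine Finset.sum_congr rfl fun k _ => ?_
  rw [Finset.mul_sum]

private lemma SSsq (P N n : ℕ) (α : ℝ) : SS P N α ^ 2 * ee (-(n * α)) =
    ∑ m₁ ∈ Icc 1 (2 * N), ∑ m₂ ∈ Icc 1 (2 * N), ((aP P m₁ : ℂ) * aP P m₂) *
      ee ((((m₁ : ℤ) + m₂ - n : ℤ) : ℝ) * α) := by
  unfold SS
  rw [sq, Finset.sum_mul_sum, Finset.sum_mul]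
  refine Finset.sum_congr rfl fun m₁ _ => ?_
  rw [Finset.sum_mul]
  refine Finset.sum_congr rfl fun m₂ _ => ?_
  have : (((m₁ : ℤ) + m₂ - n : ℤ) : ℝ) * α = m₁ * α + (m₂ * α + -(n * α)) := by
    push_cast
    ring
  rw [this, ee_add, ee_add]
  ring

private lemma orth (Q : ℕ) (hQ : 1 ≤ Q) (j : ℤ) (hj : |j| < Q) :
    (1 / (Q : ℂ)) * ∑ h ∈ range Q, ee ((j : ℝ) * ((h : ℝ) / Q)) = if j = 0 then 1 else 0 := by
  have h1 : ∑ h ∈ range Q, ee ((j : ℝ) * ((h : ℝ) / Q)) = ∑ h ∈ range Q, ee ((h : ℝ) * ((j : ℝ) / Q)) := by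
    refine Finset.sum_congr rfl fun h _ => ?_
    congr 1
    ring
  have hQ0 : (Q : ℂ) ≠ 0 := by exact_mod_cast (show Q ≠ 0 by omega)
  rw [h1, sum_ee_range Q hQ j]
  by_cases h0 : j = 0
  · subst h0
    simp [hQ0]
  · have h2 : ¬ ((Q : ℤ) ∣ j) := fun hd => h0 (Int.eq_zero_of_abs_lt_dvd hd hj)
    rw [if_neg h2, if_neg h0, mul_zero]

/-- Orthogonality modulo `8N`: in `SS² (1 - Psi) e(-nα)` all frequencies `m₁ + m₂ + k - n` have absolute value
less than `8N`, so only frequency 0 survives. -/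
theorem ident (P N H n : ℕ) (hH : 1 ≤ H) (hHN : H ≤ N) (hn : 1 ≤ n) (hnN : n ≤ N) :
    ((RR P n : ℝ) : ℂ) - RM P N H n =
      (1 / ((8 * N : ℕ) : ℂ)) * ∑ h ∈ range (8 * N),
        (SS P N ((h : ℝ) / (8 * N : ℕ)) ^ 2 * (1 - (Psi P H ((h : ℝ) / (8 * N : ℕ)) : ℂ))) *
          ee (-(n * ((h : ℝ) / (8 * N : ℕ)))) := by
  set Q := 8 * N with hQ
  have hQ1 : 1 ≤ Q := by omega
  -- part A
  have hA : (1 / (Q : ℂ)) * ∑ h ∈ range Q, SS P N ((h : ℝ) / Q) ^ 2 * ee (-(n * ((h : ℝ) / Q))) =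
      ((RR P n : ℝ) : ℂ) := by
    rw [Finset.sum_congr rfl fun (h : ℕ) _ => SSsq P N n ((h : ℝ) / Q)]
    rw [Finset.sum_comm, Finset.mul_sum]
    have h1 : ∀ m₁ ∈ Icc 1 (2 * N), (1 / (Q : ℂ)) * ∑ h ∈ range Q, ∑ m₂ ∈ Icc 1 (2 * N),
        ((aP P m₁ : ℂ) * aP P m₂) * ee ((((m₁ : ℤ) + m₂ - n : ℤ) : ℝ) * ((h : ℝ) / Q)) =
        if m₁ ∈ Ico 1 n then ((aP P m₁ : ℂ) * aP P (n - m₁)) else 0 := by
      intro m₁ hm₁
      rw [Finset.mem_Icc] at hm₁
      rw [Finset.sum_comm, Finset.mul_sum]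
      have h2 : ∀ m₂ ∈ Icc 1 (2 * N), (1 / (Q : ℂ)) * ∑ h ∈ range Q,
          ((aP P m₁ : ℂ) * aP P m₂) * ee ((((m₁ : ℤ) + m₂ - n : ℤ) : ℝ) * ((h : ℝ) / Q)) =
          if (m₁ : ℤ) + m₂ - n = 0 then ((aP P m₁ : ℂ) * aP P m₂) else 0 := by
        intro m₂ hm₂
        rw [Finset.mem_Icc] at hm₂
        rw [← Finset.mul_sum, mul_left_comm, orth Q hQ1]
        · split_ifs <;> simp
        · rw [abs_lt]; constructor <;> push_cast [hQ] <;> omega
      rw [Finset.sum_congr rfl h2]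
      split_ifs with h3
      · rw [Finset.mem_Ico] at h3
        rw [Finset.sum_eq_single (n - m₁)]
        · rw [if_pos (by omega)]
        · intro b _ hb
          rw [if_neg (by omega)]
        · intro hb
          exfalso
          apply hb
          rw [Finset.mem_Icc]
          omega
      · refine Finset.sum_eq_zero fun m₂ hm₂ => ?_
        rw [Finset.mem_Icc] at hm₂
        rw [Finset.mem_Ico] at h3
        rw [if_neg (by omega)]
    rw [Finset.sum_congr rfl h1]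
    rw [← Finset.sum_filter]
    unfold RR
    rw [Complex.ofReal_sum]
    have h4 : (Icc 1 (2 * N)).filter (fun m => m ∈ Ico 1 n) = Ico 1 n := by
      ext m
      simp only [Finset.mem_filter, Finset.mem_Icc, Finset.mem_Ico]
      omega
    rw [h4]
    refine Finset.sum_congr rfl fun m _ => ?_
    push_cast
    rfl
  -- part B
  have hB : (1 / (Q : ℂ)) * ∑ h ∈ range Q, SS P N ((h : ℝ) / Q) ^ 2 * ee (-(n * ((h : ℝ) / Q))) *
      (Psi P H ((h : ℝ) / Q) : ℂ) = RM P N H n := by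
    have h0 : ∀ h ∈ range Q, SS P N ((h : ℝ) / Q) ^ 2 * ee (-(n * ((h : ℝ) / Q))) *
        (Psi P H ((h : ℝ) / Q) : ℂ) = ∑ m₁ ∈ Icc 1 (2 * N), ∑ m₂ ∈ Icc 1 (2 * N), ∑ k ∈ Ioo (-(H : ℤ)) H,
          ((aP P m₁ : ℂ) * aP P m₂ * ((fej H (k : ℝ) : ℂ) * ∑ q ∈ Icc 1 P, cq q k)) *
            ee ((((m₁ : ℤ) + m₂ - n + k : ℤ) : ℝ) * ((h : ℝ) / Q)) := by
      intro h _
      rw [SSsq, Psi_eq P H hH, Finset.sum_mul]
      refine Finset.sum_congr rfl fun m₁ _ => ?_
      rw [Finset.sum_mul]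
      refine Finset.sum_congr rfl fun m₂ _ => ?_
      rw [Finset.mul_sum]
      refine Finset.sum_congr rfl fun k _ => ?_
      have : (((m₁ : ℤ) + m₂ - n + k : ℤ) : ℝ) * ((h : ℝ) / Q) =
          (((m₁ : ℤ) + m₂ - n : ℤ) : ℝ) * ((h : ℝ) / Q) + k * ((h : ℝ) / Q) := by
        push_cast
        ring
      rw [this, ee_add]
      ring
    rw [Finset.sum_congr rfl h0]
    unfold RM
    rw [Finset.sum_comm, Finset.mul_sum]
    refine Finset.sum_congr rfl fun m₁ hm₁ => ?_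
    rw [Finset.mem_Icc] at hm₁
    rw [Finset.sum_comm, Finset.mul_sum]
    refine Finset.sum_congr rfl fun m₂ hm₂ => ?_
    rw [Finset.mem_Icc] at hm₂
    rw [Finset.sum_comm, Finset.mul_sum]
    have h2 : ∀ k ∈ Ioo (-(H : ℤ)) H, (1 / (Q : ℂ)) * ∑ h ∈ range Q,
          ((aP P m₁ : ℂ) * aP P m₂ * ((fej H (k : ℝ) : ℂ) * ∑ q ∈ Icc 1 P, cq q k)) *
            ee ((((m₁ : ℤ) + m₂ - n + k : ℤ) : ℝ) * ((h : ℝ) / Q)) =
          if (m₁ : ℤ) + m₂ - n + k = 0 then
            ((aP P m₁ : ℂ) * aP P m₂ * ((fej H (k : ℝ) : ℂ) * ∑ q ∈ Icc 1 P, cq q k)) else 0 := by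
      intro k hk
      rw [Finset.mem_Ioo] at hk
      rw [← Finset.mul_sum, mul_left_comm, orth Q hQ1]
      · split_ifs <;> simp
      · rw [abs_lt]; constructor <;> push_cast [hQ] <;> omega
    rw [Finset.sum_congr rfl h2]
    by_cases hk : -((m₁ : ℤ) + m₂ - n) ∈ Ioo (-(H : ℤ)) H
    · rw [Finset.sum_eq_single (-((m₁ : ℤ) + m₂ - n))]
      · rw [if_pos (by ring)]
        have h5 : ∀ q, cq q (-((m₁ : ℤ) + m₂ - n)) = cq q ((m₁ : ℤ) + m₂ - n) := fun q => cq_neg q _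
        simp only [h5]
        have h6 : fej H ((-((m₁ : ℤ) + m₂ - n) : ℤ) : ℝ) = fej H ((m₁ : ℝ) + m₂ - n) := by
          unfold fej
          push_cast
          rw [abs_neg]
        rw [h6]
        ring
      · intro b _ hb
        rw [if_neg]
        intro h7
        exact hb (by linarith)
      · intro h7
        exact absurd hk h7
    · have h8 : fej H ((m₁ : ℝ) + m₂ - n) = 0 := by
        have h9 : (H : ℝ) ≤ |(m₁ : ℝ) + m₂ - n| := by
          have h10 : (H : ℤ) ≤ |(m₁ : ℤ) + m₂ - n| := by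
            rw [Finset.mem_Ioo] at hk
            by_contra h11
            push Not at h11
            rw [abs_lt] at h11
            apply hk
            constructor <;> omega
          exact_mod_cast h10
        unfold fej
        rw [max_eq_left (by linarith), zero_div]
      rw [h8]
      rw [Finset.sum_eq_zero]
      · simp
      · intro k hk'
        rw [if_neg]
        intro h7
        apply hk
        have : k = -((m₁ : ℤ) + m₂ - n) := by linarith
        rw [← this]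
        exact hk'
  rw [← hA, ← hB, ← mul_sub, ← Finset.sum_sub_distrib]
  congr 1
  refine Finset.sum_congr rfl fun h _ => ?_
  ring

end Pool.Agent.Lib.MP_629a14_nt.Th
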