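import Pool.Agent.Lib.MP_629a14_nt.Th.MainS
import Pool.Agent.Lib.MP_629a14_nt.En.Sing
import Pool.Agent.Lib.MP_629a14_nt.En.WLog

/-! Arithmetic functions. -/

set_option autoImplicit false

namespace Pool.Agent.Lib.MP_629a14_nt.Th

open Finset Pool.Agent.Lib.MP_629a14_nt

/-- `σ(n)/n ≤ n/φ(n)`. -/
theorem sgm_le (n : ℕ) (hn : 1 ≤ n) : sgm n ≤ n * ((n : ℝ) / n.totient) := by
  have h := sdiv_le_rt n (by omega)
  unfold rt at h
  have h2 : sgm n = n * Pool.Agent.Lib.MP_60b32f_nt.sdiv n := by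
    unfold sgm Pool.Agent.Lib.MP_60b32f_nt.sdiv
    rw [mul_sum, ← Nat.sum_div_divisors n (fun f => (f : ℝ))]
    refine sum_congr rfl fun d hd => ?_
    have hdn := Nat.dvd_of_mem_divisors hd
    have hd0 : (d : ℝ) ≠ 0 := by exact_mod_cast (Nat.pos_of_mem_divisors hd).ne'
    rw [Nat.cast_div hdn hd0]
    ring
  rw [h2]
  gcongr

/-- `n/φ(n) ≤ C log log n`. (Primes `> log n`: at most `log n / log log n` of them divide `n`; primes up to `log n`:
Mertens, see `En/WLog.lean: wlog`.) -/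
theorem tot_low : ∃ C : ℝ, 1 ≤ C ∧ ∀ n : ℕ, 1 ≤ n →
    (n : ℝ) / n.totient ≤ C * (1 + Real.log (1 + Real.log n)) := by
  obtain ⟨C, hC, hw⟩ := En.wlog
  refine ⟨Real.exp 3 * (C * 4) + 1, by
    have : 0 ≤ Real.exp 3 * (C * 4) := by positivity
    linarith, fun n hn => ?_⟩
  have hlogn : 0 ≤ Real.log (n : ℝ) := Real.log_natCast_nonneg n
  set Y := ⌈Real.log (n : ℝ)⌉₊ + 2 with hY
  have hY2 : 2 ≤ Y := by omega
  have hYn : Real.log (n : ℝ) ≤ Y := by
    have := Nat.le_ceil (Real.log (n : ℝ))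
    rw [hY]; push_cast; linarith
  have h1 := rt_le_exp n (by omega) Y (by omega) hYn
  have h2 : Real.exp (∑ p ∈ (Icc 0 Y).filter (fun p => p.Prime ∧ p ∣ n), (1 : ℝ) / p) ≤ C * Real.log Y := by
    refine le_trans ?_ (hw Y hY2)
    rw [Rob.SigLow.ratio_eq _ (primorial_pos Y), Real.exp_sum]
    have hsub : (Icc 0 Y).filter (fun p => p.Prime ∧ p ∣ n) ⊆ (primorial Y).primeFactors := by
      intro p hp
      rw [mem_filter, mem_Icc] at hp
      rw [Nat.mem_primeFactors_of_ne_zero (primorial_pos Y).ne']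
      exact ⟨hp.2.1, hp.2.1.dvd_primorial_iff.mpr hp.1.2⟩
    rw [← prod_sdiff hsub]
    have h3 : ∏ p ∈ (Icc 0 Y).filter (fun p => p.Prime ∧ p ∣ n), Real.exp (1 / (p : ℝ)) ≤
        ∏ p ∈ (Icc 0 Y).filter (fun p => p.Prime ∧ p ∣ n), ((p : ℝ) / ((p : ℝ) - 1)) := by
      refine prod_le_prod (fun _ _ => (Real.exp_pos _).le) fun p hp => ?_
      rw [mem_filter] at hp
      have h2p : (2 : ℝ) ≤ p := by exact_mod_cast hp.2.1.two_le
      have h4 := Real.add_one_le_exp (-(1 / (p : ℝ)))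
      have h5 : Real.exp (1 / (p : ℝ)) * Real.exp (-(1 / (p : ℝ))) = 1 := by
        rw [← Real.exp_add]; simp
      have h6 : 0 < 1 - 1 / (p : ℝ) := by
        have : 1 / (p : ℝ) ≤ 1 / 2 := one_div_le_one_div_of_le (by norm_num) h2p
        linarith
      have h7 : Real.exp (1 / (p : ℝ)) * (1 - 1 / (p : ℝ)) ≤ 1 := by
        calc Real.exp (1 / (p : ℝ)) * (1 - 1 / (p : ℝ)) ≤ Real.exp (1 / (p : ℝ)) * Real.exp (-(1 / (p : ℝ))) := by
              gcongr; linarith
          _ = 1 := h5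
      have h8 : (p : ℝ) / ((p : ℝ) - 1) = 1 / (1 - 1 / (p : ℝ)) := by
        have : (p : ℝ) - 1 ≠ 0 := by linarith
        have : (p : ℝ) ≠ 0 := by linarith
        field_simp
      rw [h8, le_div_iff₀ h6]
      exact h7
    have h9 : 1 ≤ ∏ p ∈ (primorial Y).primeFactors \ (Icc 0 Y).filter (fun p => p.Prime ∧ p ∣ n),
        ((p : ℝ) / ((p : ℝ) - 1)) := by
      refine le_trans (le_of_eq (Finset.prod_const_one (s := (primorial Y).primeFactors \
        (Icc 0 Y).filter (fun p => p.Prime ∧ p ∣ n))).symm) ?_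
      refine prod_le_prod (fun _ _ => zero_le_one) fun p hp => ?_
      have hpp := Nat.prime_of_mem_primeFactors (mem_sdiff.1 hp).1
      have h2p : (2 : ℝ) ≤ p := by exact_mod_cast hpp.two_le
      rw [le_div_iff₀ (by linarith)]
      linarith
    have h10 : 0 ≤ ∏ p ∈ (Icc 0 Y).filter (fun p => p.Prime ∧ p ∣ n), ((p : ℝ) / ((p : ℝ) - 1)) :=
      (prod_nonneg fun _ _ => (Real.exp_pos _).le).trans h3
    calc _ ≤ ∏ p ∈ (Icc 0 Y).filter (fun p => p.Prime ∧ p ∣ n), ((p : ℝ) / ((p : ℝ) - 1)) := h3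
      _ = 1 * ∏ p ∈ (Icc 0 Y).filter (fun p => p.Prime ∧ p ∣ n), ((p : ℝ) / ((p : ℝ) - 1)) := (one_mul _).symm
      _ ≤ _ := by gcongr
  have h3 : Real.log Y ≤ 4 * (1 + Real.log (1 + Real.log n)) := by
    have h4 : (Y : ℝ) ≤ 3 * (1 + Real.log n) := by
      have := (Nat.ceil_lt_add_one hlogn).le
      rw [hY]; push_cast; linarith
    have h5 : Real.log Y ≤ Real.log 3 + Real.log (1 + Real.log n) := by
      rw [← Real.log_mul (by norm_num) (by linarith)]
      exact Real.log_le_log (by positivity) h4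
    have h6 : Real.log 3 ≤ 2 := by
      have := Real.log_le_sub_one_of_pos (show (0 : ℝ) < 3 by norm_num)
      linarith
    have h7 : 0 ≤ Real.log (1 + Real.log n) := Real.log_nonneg (by linarith)
    linarith
  have h8 : 0 ≤ Real.log (1 + Real.log (n : ℝ)) := Real.log_nonneg (by linarith)
  calc (n : ℝ) / n.totient = rt n := rfl
    _ ≤ Real.exp (3 + ∑ p ∈ (Icc 0 Y).filter (fun p => p.Prime ∧ p ∣ n), (1 : ℝ) / p) := h1
    _ = Real.exp 3 * Real.exp (∑ p ∈ (Icc 0 Y).filter (fun p => p.Prime ∧ p ∣ n), (1 : ℝ) / p) := Real.exp_add _ _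
    _ ≤ Real.exp 3 * (C * Real.log Y) := by gcongr
    _ ≤ Real.exp 3 * (C * (4 * (1 + Real.log (1 + Real.log n)))) := by gcongr
    _ = Real.exp 3 * (C * 4) * (1 + Real.log (1 + Real.log n)) := by ring
    _ ≤ (Real.exp 3 * (C * 4) + 1) * (1 + Real.log (1 + Real.log n)) := by
      gcongr
      linarith

/-- For even `n`: `sing n = 2 C₂ ∏_{p ∣ n, p > 2} (p-1)/(p-2) ≥ c n/φ(n)`. -/
theorem sing_low : ∃ c : ℝ, 0 < c ∧ ∀ n : ℕ, 1 ≤ n → Even n → c * ((n : ℝ) / n.totient) ≤ En.sing n := by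
  refine ⟨En.tw, En.tw_pos, fun n hn he => ?_⟩
  rw [Rob.SigLow.ratio_eq n hn]
  unfold En.sing
  have h2 : 2 ∈ n.primeFactors := by
    rw [Nat.mem_primeFactors_of_ne_zero (by omega)]
    exact ⟨Nat.prime_two, he.two_dvd⟩
  have h3 : n.primeFactors.filter (fun p => 2 < p) = n.primeFactors.erase 2 := by
    ext p
    rw [mem_filter, mem_erase]
    constructor
    · rintro ⟨hp, h⟩
      exact ⟨by omega, hp⟩
    · rintro ⟨h, hp⟩
      have := (Nat.prime_of_mem_primeFactors hp).two_le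
      exact ⟨hp, by omega⟩
  rw [h3, ← mul_prod_erase _ _ h2]
  have h4 : ∏ p ∈ n.primeFactors.erase 2, ((p : ℝ) / ((p : ℝ) - 1)) ≤
      ∏ p ∈ n.primeFactors.erase 2, (((p : ℝ) - 1) / ((p : ℝ) - 2)) := by
    refine prod_le_prod (fun p hp => ?_) fun p hp => ?_
    · have := (Nat.prime_of_mem_primeFactors (mem_erase.1 hp).2).two_le
      have h2p : (2 : ℝ) ≤ p := by exact_mod_cast this
      exact div_nonneg (by linarith) (by linarith)
    · have h5 := (Nat.prime_of_mem_primeFactors (mem_erase.1 hp).2).two_le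
      have h6 := (mem_erase.1 hp).1
      have h2p : (3 : ℝ) ≤ p := by exact_mod_cast (by omega : 3 ≤ p)
      rw [div_le_div_iff₀ (by linarith) (by linarith)]
      nlinarith
  have h5 := En.tw_pos
  calc En.tw * (((2 : ℕ) : ℝ) / (((2 : ℕ) : ℝ) - 1) * ∏ p ∈ n.primeFactors.erase 2, ((p : ℝ) / ((p : ℝ) - 1)))
      = 2 * En.tw * ∏ p ∈ n.primeFactors.erase 2, ((p : ℝ) / ((p : ℝ) - 1)) := by
        push_cast; ring
    _ ≤ _ := by gcongr

/-- A real primitive character has conductor not divisible by 16: `1 + q/2 ≡ (1 + q/4)² mod q`, so `χ(1+q/2) = 1` and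
`χ` factors through `q/2`. -/
theorem not_sixteen_dvd (q : ℕ) [NeZero q] (χ : DirichletCharacter ℂ q) (h : χ.IsPrimitive) (h2 : χ ^ 2 = 1) :
    ¬ 16 ∣ q := by
  rintro ⟨m, hm⟩
  have hm0 : 0 < m := by
    have := NeZero.pos q
    rw [hm] at this
    omega
  have hd : 8 * m ∣ q := ⟨2, by rw [hm]; ring⟩
  have hfac : χ.FactorsThrough (8 * m) := by
    rw [DirichletCharacter.factorsThrough_iff_ker_unitsMap hd]
    intro u hu
    rw [MonoidHom.mem_ker] at hu ⊢
    -- u ≡ 1 mod 8m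
    have h3 : ((u : ZMod q).val : ZMod (8 * m)) = 1 := by
      have := congrArg (fun z : (ZMod (8 * m))ˣ => (z : ZMod (8 * m))) hu
      simp only [ZMod.unitsMap_def, Units.coe_map, Units.val_one] at this
      rw [← this]
      simp [ZMod.castHom_apply, ZMod.natCast_val]
    set a := (u : ZMod q).val with ha
    have hau : (a : ZMod q) = u := ZMod.natCast_zmod_val _
    have haq : a < q := ZMod.val_lt _
    have h4 : a ≡ 1 [MOD 8 * m] := by
      rw [← ZMod.natCast_eq_natCast_iff]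
      simpa using h3
    have h5 : a = 1 ∨ a = 1 + 8 * m := by
      have h6 : a % (8 * m) = 1 % (8 * m) := h4
      have h7 : 1 % (8 * m) = 1 := Nat.mod_eq_of_lt (by omega)
      rw [h7] at h6
      have h8 := Nat.div_add_mod a (8 * m)
      rw [h6] at h8
      have h9 : a / (8 * m) < 2 := by
        rw [Nat.div_lt_iff_lt_mul (by omega)]
        omega
      interval_cases hk : a / (8 * m)
      · left; omega
      · right; omega
    have h6 : χ (u : ZMod q) = 1 := by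
      rw [← hau]
      rcases h5 with h5 | h5
      · rw [h5]; simp
      · have h7 : ((1 + 4 * m : ℕ) : ZMod q) * ((1 + 4 * m : ℕ) : ZMod q) = ((1 + 8 * m : ℕ) : ZMod q) := by
          rw [← Nat.cast_mul, ZMod.natCast_eq_natCast_iff]
          have h8 : (1 + 4 * m) * (1 + 4 * m) = (1 + 8 * m) + q * m := by rw [hm]; ring
          rw [h8]
          exact (Nat.modEq_iff_dvd' (by omega)).2 (by simp) |>.symm
        rw [h5, ← h7, map_mul, ← pow_two]
        have h9 : IsUnit ((1 + 4 * m : ℕ) : ZMod q) := by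
          rw [ZMod.isUnit_iff_coprime, hm]
          have : Nat.Coprime (1 + 4 * m) m := by
            rw [Nat.coprime_add_mul_right_left]; exact Nat.coprime_one_left m
          refine Nat.Coprime.mul_right ?_ this
          have h10 : Odd (1 + 4 * m) := ⟨2 * m, by ring⟩
          exact Nat.Coprime.pow_right 4 (Nat.coprime_two_right.2 h10)
        have h11 := congrArg (fun ψ : DirichletCharacter ℂ q => ψ ((1 + 4 * m : ℕ) : ZMod q)) h2
        simp only [MulChar.pow_apply' _ two_ne_zero, MulChar.one_apply h9] at h11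
        exact h11
    ext
    simpa using h6
  have h7 := DirichletCharacter.conductor_dvd_of_mem_conductorSet (χ := χ) (d := 8 * m) hfac
  have h8 : χ.conductor = q := h
  rw [h8] at h7
  have h9 := Nat.le_of_dvd (by omega) h7
  omega

/-- `h(f) = f/φ(f)²` as an arithmetic function -/
private noncomputable def Arith_h : ArithmeticFunction ℝ :=
  ⟨fun f => (f : ℝ) / (f.totient : ℝ) ^ 2, by simp⟩

private theorem Arith_h_apply (f : ℕ) : Arith_h f = (f : ℝ) / (f.totient : ℝ) ^ 2 := rfl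

private theorem Arith_h_mult : Arith_h.IsMultiplicative := by
  refine ⟨by simp [Arith_h_apply], fun {m n} h => ?_⟩
  rw [Arith_h_apply, Arith_h_apply, Arith_h_apply, Nat.totient_mul h]
  push_cast
  rw [mul_pow, mul_div_mul_comm]

private theorem Arith_pp (p k : ℕ) (hp : p.Prime) :
    (Arith_h * (ArithmeticFunction.zeta : ArithmeticFunction ℝ)) (p ^ k) ≤
      (1 + 2 / ((p : ℝ) - 1) ^ 2) * ((p : ℝ) / ((p : ℝ) - 1)) := by
  have h2 : (2 : ℝ) ≤ p := by exact_mod_cast hp.two_le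
  have hp1 : (0 : ℝ) < (p : ℝ) - 1 := by linarith
  have hp0 : (0 : ℝ) < p := by linarith
  have h1 : ∀ k : ℕ, (Arith_h * (ArithmeticFunction.zeta : ArithmeticFunction ℝ)) (p ^ k) =
      1 + (p : ℝ) ^ 2 / ((p : ℝ) - 1) ^ 3 * (1 - 1 / (p : ℝ) ^ k) := by
    intro k
    rw [ArithmeticFunction.coe_mul_zeta_apply, Nat.sum_divisors_prime_pow hp]
    induction k with
    | zero => simp [Arith_h_apply]
    | succ k ih =>
      rw [sum_range_succ, ih, Arith_h_apply, Nat.totient_prime_pow_succ hp]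
      push_cast
      rw [Nat.cast_sub hp.one_le]
      push_cast
      have : (p : ℝ) ^ k ≠ 0 := by positivity
      field_simp
      ring
  rw [h1 k]
  have h3 : (p : ℝ) ^ 2 / ((p : ℝ) - 1) ^ 3 * (1 - 1 / (p : ℝ) ^ k) ≤ (p : ℝ) ^ 2 / ((p : ℝ) - 1) ^ 3 := by
    have : 0 ≤ 1 / (p : ℝ) ^ k := by positivity
    have h4 : 0 ≤ (p : ℝ) ^ 2 / ((p : ℝ) - 1) ^ 3 := by positivity
    nlinarith
  have h5 : (1 + 2 / ((p : ℝ) - 1) ^ 2) * ((p : ℝ) / ((p : ℝ) - 1)) =
      1 + (p : ℝ) ^ 2 / ((p : ℝ) - 1) ^ 3 + 1 / ((p : ℝ) - 1) ^ 3 := by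
    field_simp
    ring
  rw [h5]
  have : 0 ≤ 1 / ((p : ℝ) - 1) ^ 3 := by positivity
  linarith

private theorem Arith_sumsq : ∃ C : ℝ, 0 < C ∧ ∀ s : Finset ℕ, (∀ p ∈ s, p.Prime) →
    ∑ p ∈ s, 1 / ((p : ℝ) - 1) ^ 2 ≤ C := by
  have hs : Summable fun n : ℕ => 4 * (1 / (n : ℝ) ^ 2) :=
    (Real.summable_one_div_nat_pow.mpr (by norm_num)).mul_left 4
  refine ⟨∑' n : ℕ, 4 * (1 / (n : ℝ) ^ 2) + 1, ?_, fun s h => ?_⟩
  · have : 0 ≤ ∑' n : ℕ, 4 * (1 / (n : ℝ) ^ 2) := tsum_nonneg fun n => by positivity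
    linarith
  · have h1 : ∑ p ∈ s, 1 / ((p : ℝ) - 1) ^ 2 ≤ ∑ p ∈ s, 4 * (1 / (p : ℝ) ^ 2) := by
      refine sum_le_sum fun p hp => ?_
      have h2 : (2 : ℝ) ≤ p := by exact_mod_cast (h p hp).two_le
      rw [mul_one_div, div_le_div_iff₀ (by nlinarith) (by positivity)]
      nlinarith
    have h2 := hs.sum_le_tsum s (fun n _ => by positivity)
    linarith

private theorem Arith_F : ∃ C : ℝ, 0 < C ∧ ∀ n : ℕ, 1 ≤ n →
    ∑ f ∈ n.divisors, (f : ℝ) / (f.totient : ℝ) ^ 2 ≤ C * ((n : ℝ) / n.totient) := by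
  obtain ⟨C, hC, hs⟩ := Arith_sumsq
  refine ⟨Real.exp (2 * C), Real.exp_pos _, fun n hn => ?_⟩
  have h1 : ∑ f ∈ n.divisors, (f : ℝ) / (f.totient : ℝ) ^ 2 =
      (Arith_h * (ArithmeticFunction.zeta : ArithmeticFunction ℝ)) n := by
    rw [ArithmeticFunction.coe_mul_zeta_apply]
    rfl
  have hmul : (Arith_h * (ArithmeticFunction.zeta : ArithmeticFunction ℝ)).IsMultiplicative :=
    Arith_h_mult.mul (ArithmeticFunction.isMultiplicative_zeta.natCast)
  rw [h1, hmul.multiplicative_factorization _ (by omega), Finsupp.prod, Nat.support_factorization,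
    Rob.SigLow.ratio_eq n hn]
  have h2 : ∀ p ∈ n.primeFactors, 0 ≤ (Arith_h * (ArithmeticFunction.zeta : ArithmeticFunction ℝ))
      (p ^ n.factorization p) := by
    intro p _
    rw [ArithmeticFunction.coe_mul_zeta_apply]
    exact sum_nonneg fun f _ => by rw [Arith_h_apply]; positivity
  calc _ ≤ ∏ p ∈ n.primeFactors, (1 + 2 / ((p : ℝ) - 1) ^ 2) * ((p : ℝ) / ((p : ℝ) - 1)) :=
        prod_le_prod h2 fun p hp => Arith_pp p _ (Nat.prime_of_mem_primeFactors hp)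
    _ = (∏ p ∈ n.primeFactors, (1 + 2 / ((p : ℝ) - 1) ^ 2)) *
        ∏ p ∈ n.primeFactors, ((p : ℝ) / ((p : ℝ) - 1)) := prod_mul_distrib
    _ ≤ Real.exp (2 * C) * ∏ p ∈ n.primeFactors, ((p : ℝ) / ((p : ℝ) - 1)) := by
        have h3 : 0 ≤ ∏ p ∈ n.primeFactors, ((p : ℝ) / ((p : ℝ) - 1)) := by
          refine prod_nonneg fun p hp => ?_
          have h2 : (2 : ℝ) ≤ p := by exact_mod_cast (Nat.prime_of_mem_primeFactors hp).two_le
          exact div_nonneg (by linarith) (by linarith)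
        refine mul_le_mul_of_nonneg_right ?_ h3
        calc ∏ p ∈ n.primeFactors, (1 + 2 / ((p : ℝ) - 1) ^ 2)
            ≤ ∏ p ∈ n.primeFactors, Real.exp (2 / ((p : ℝ) - 1) ^ 2) := by
              refine prod_le_prod (fun p _ => by positivity) fun p _ => ?_
              have := Real.add_one_le_exp (2 / ((p : ℝ) - 1) ^ 2)
              linarith
          _ = Real.exp (2 * ∑ p ∈ n.primeFactors, 1 / ((p : ℝ) - 1) ^ 2) := by
              rw [← Real.exp_sum, mul_sum]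
              congr 1
              exact sum_congr rfl fun p _ => by ring
          _ ≤ Real.exp (2 * C) := by
              apply Real.exp_le_exp.2
              have := hs n.primeFactors (fun p hp => Nat.prime_of_mem_primeFactors hp)
              linarith

private theorem Arith_phi : ∃ C : ℝ, 0 < C ∧ ∀ P : ℕ, ∑ l ∈ Icc 1 P, 1 / (l.totient : ℝ) ^ 2 ≤ C := by
  obtain ⟨C, hC1, hC⟩ := tot_low
  have hs : Summable fun n : ℕ => (25 * C ^ 2) * (1 / (n : ℝ) ^ (3 / 2 : ℝ)) :=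
    (Real.summable_one_div_nat_rpow.mpr (by norm_num)).mul_left _
  refine ⟨∑' n : ℕ, (25 * C ^ 2) * (1 / (n : ℝ) ^ (3 / 2 : ℝ)) + 1, ?_, fun P => ?_⟩
  · have : 0 ≤ ∑' n : ℕ, (25 * C ^ 2) * (1 / (n : ℝ) ^ (3 / 2 : ℝ)) := tsum_nonneg fun n => by positivity
    linarith
  · have h1 : ∑ l ∈ Icc 1 P, 1 / (l.totient : ℝ) ^ 2 ≤
        ∑ l ∈ Icc 1 P, (25 * C ^ 2) * (1 / (l : ℝ) ^ (3 / 2 : ℝ)) := by
      refine sum_le_sum fun l hl => ?_
      have hl1 : 1 ≤ l := (mem_Icc.1 hl).1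
      have hlr : (1 : ℝ) ≤ l := by exact_mod_cast hl1
      have hl0 : (0 : ℝ) < l := by linarith
      have ht : (0 : ℝ) < l.totient := by exact_mod_cast Nat.totient_pos.2 hl1
      have hlog : 0 ≤ Real.log (l : ℝ) := Real.log_nonneg hlr
      have h2 : Real.log (1 + Real.log (l : ℝ)) ≤ Real.log l := by
        have := Real.log_le_sub_one_of_pos (show 0 < 1 + Real.log (l : ℝ) by linarith)
        linarith
      have h3 : Real.log (l : ℝ) ≤ 4 * (l : ℝ) ^ (1 / 4 : ℝ) := by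
        have := Real.log_le_rpow_div hl0.le (show (0 : ℝ) < 1 / 4 by norm_num)
        calc Real.log (l : ℝ) ≤ (l : ℝ) ^ (1 / 4 : ℝ) / (1 / 4) := this
          _ = 4 * (l : ℝ) ^ (1 / 4 : ℝ) := by ring
      have h4 : 1 ≤ (l : ℝ) ^ (1 / 4 : ℝ) := Real.one_le_rpow hlr (by norm_num)
      have h5 : (l : ℝ) / l.totient ≤ 5 * C * (l : ℝ) ^ (1 / 4 : ℝ) := by
        calc (l : ℝ) / l.totient ≤ C * (1 + Real.log (1 + Real.log l)) := hC l hl1
          _ ≤ C * (5 * (l : ℝ) ^ (1 / 4 : ℝ)) := by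
            have : 1 + Real.log (1 + Real.log (l : ℝ)) ≤ 5 * (l : ℝ) ^ (1 / 4 : ℝ) := by linarith
            gcongr
          _ = 5 * C * (l : ℝ) ^ (1 / 4 : ℝ) := by ring
      have h6 : ((l : ℝ) / l.totient) ^ 2 ≤ (5 * C * (l : ℝ) ^ (1 / 4 : ℝ)) ^ 2 := by
        gcongr
      have h7 : ((l : ℝ) ^ (1 / 4 : ℝ)) ^ 2 = (l : ℝ) ^ (1 / 2 : ℝ) := by
        rw [← Real.rpow_natCast, ← Real.rpow_mul hl0.le]
        norm_num
      have h8 : (l : ℝ) ^ (3 / 2 : ℝ) * (l : ℝ) ^ (1 / 2 : ℝ) = (l : ℝ) ^ 2 := by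
        rw [← Real.rpow_add hl0, ← Real.rpow_natCast]
        norm_num
      have h9 : 0 < (l : ℝ) ^ (3 / 2 : ℝ) := by positivity
      rw [mul_one_div, div_le_div_iff₀ (by positivity) h9, one_mul]
      have h10 : ((l : ℝ) / l.totient) ^ 2 ≤ 25 * C ^ 2 * (l : ℝ) ^ (1 / 2 : ℝ) := by
        calc _ ≤ (5 * C * (l : ℝ) ^ (1 / 4 : ℝ)) ^ 2 := h6
          _ = 25 * C ^ 2 * ((l : ℝ) ^ (1 / 4 : ℝ)) ^ 2 := by ring
          _ = _ := by rw [h7]
      rw [div_pow, div_le_iff₀ (by positivity), ← h8] at h10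
      have h11 : 0 < (l : ℝ) ^ (1 / 2 : ℝ) := by positivity
      have h12 : (l : ℝ) ^ (3 / 2 : ℝ) * (l : ℝ) ^ (1 / 2 : ℝ) ≤
          (25 * C ^ 2 * (l.totient : ℝ) ^ 2) * (l : ℝ) ^ (1 / 2 : ℝ) := by
        calc _ ≤ 25 * C ^ 2 * (l : ℝ) ^ (1 / 2 : ℝ) * (l.totient : ℝ) ^ 2 := h10
          _ = _ := by ring
      exact le_of_mul_le_mul_right h12 h11
    have h2 := hs.sum_le_tsum (Icc 1 P) (fun n _ => by positivity)
    linarith

/-- Proof. `σ((m,n)) = ∑_{f ∣ m, f ∣ n} f`, so `KK ≤ ∑_{f ∣ n} f ∑_{l} 1/φ(fl)² ≤ (∑_l 1/φ(l)²) ∑_{f ∣ n} f/φ(f)²`, and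
`∑_{f ∣ n} f/φ(f)² ≤ ∏_{p ∣ n} (1 + p²/(p-1)³) ≤ C ∏_{p ∣ n} (1-1/p)⁻¹` (the product of
`(1 + p²/(p-1)³)(1-1/p)` over all primes converges). -/
theorem KK_le : ∃ C : ℝ, 1 ≤ C ∧ ∀ P n : ℕ, 1 ≤ n → KK P n ≤ C * ((n : ℝ) / n.totient) := by
  obtain ⟨C₁, hC₁, h1⟩ := Arith_F
  obtain ⟨C₂, hC₂, h2⟩ := Arith_phi
  refine ⟨C₁ * C₂ + 1, by
    have : 0 < C₁ * C₂ := by positivity
    linarith, fun P n hn => ?_⟩
  have hstep : KK P n = ∑ f ∈ n.divisors, ∑ m ∈ (Icc 1 P).filter (fun m => f ∣ m),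
      (f : ℝ) / (m.totient : ℝ) ^ 2 := by
    unfold KK sgm
    have h3 : ∀ m ∈ Icc 1 P, (∑ f ∈ (Nat.gcd m n).divisors, (f : ℝ)) / (m.totient : ℝ) ^ 2 =
        ∑ f ∈ n.divisors, if f ∣ m then (f : ℝ) / (m.totient : ℝ) ^ 2 else 0 := by
      intro m hm
      rw [← sum_filter, sum_div]
      refine sum_congr ?_ fun _ _ => rfl
      ext f
      rw [Nat.mem_divisors, mem_filter, Nat.mem_divisors, Nat.dvd_gcd_iff]
      have hm1 := (mem_Icc.1 hm).1
      constructor
      · rintro ⟨⟨h4, h5⟩, _⟩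
        exact ⟨⟨h5, by omega⟩, h4⟩
      · rintro ⟨⟨h5, _⟩, h4⟩
        exact ⟨⟨h4, h5⟩, (Nat.gcd_pos_of_pos_left _ hm1).ne'⟩
    rw [sum_congr rfl h3, sum_comm]
    refine sum_congr rfl fun f _ => ?_
    rw [sum_filter]
  have hinner : ∀ f ∈ n.divisors, ∑ m ∈ (Icc 1 P).filter (fun m => f ∣ m),
      (f : ℝ) / (m.totient : ℝ) ^ 2 ≤ ((f : ℝ) / (f.totient : ℝ) ^ 2) * C₂ := by
    intro f hf
    have hf0 : 0 < f := Nat.pos_of_mem_divisors hf
    have h3 : (Icc 1 P).filter (fun m => f ∣ m) ⊆ (Icc 1 P).image (fun l => f * l) := by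
      intro m hm
      rw [mem_filter, mem_Icc] at hm
      obtain ⟨⟨hm1, hmP⟩, l, rfl⟩ := hm
      rw [mem_image]
      have hl0 : 0 < l := Nat.pos_of_mul_pos_left hm1
      refine ⟨l, mem_Icc.2 ⟨hl0, ?_⟩, rfl⟩
      calc l ≤ f * l := Nat.le_mul_of_pos_left _ hf0
        _ ≤ P := hmP
    calc ∑ m ∈ (Icc 1 P).filter (fun m => f ∣ m), (f : ℝ) / (m.totient : ℝ) ^ 2
        ≤ ∑ m ∈ (Icc 1 P).image (fun l => f * l), (f : ℝ) / (m.totient : ℝ) ^ 2 :=
          sum_le_sum_of_subset_of_nonneg h3 fun _ _ _ => by positivity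
      _ = ∑ l ∈ Icc 1 P, (f : ℝ) / ((f * l).totient : ℝ) ^ 2 :=
          sum_image (fun a _ b _ h => Nat.eq_of_mul_eq_mul_left hf0 h)
      _ ≤ ∑ l ∈ Icc 1 P, ((f : ℝ) / (f.totient : ℝ) ^ 2) * (1 / (l.totient : ℝ) ^ 2) := by
          refine sum_le_sum fun l hl => ?_
          have hl1 := (mem_Icc.1 hl).1
          have h4 : f.totient * l.totient ≤ (f * l).totient := Nat.totient_super_multiplicative f l
          have h5 : (f.totient : ℝ) * l.totient ≤ ((f * l).totient : ℝ) := by exact_mod_cast h4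
          have h6 : (0 : ℝ) < f.totient := by exact_mod_cast Nat.totient_pos.2 hf0
          have h7 : (0 : ℝ) < l.totient := by exact_mod_cast Nat.totient_pos.2 hl1
          rw [div_mul_div_comm, mul_one, ← mul_pow]
          gcongr
      _ = ((f : ℝ) / (f.totient : ℝ) ^ 2) * ∑ l ∈ Icc 1 P, (1 / (l.totient : ℝ) ^ 2) := by rw [mul_sum]
      _ ≤ ((f : ℝ) / (f.totient : ℝ) ^ 2) * C₂ := by
          have := h2 P
          gcongr
  rw [hstep]
  calc _ ≤ ∑ f ∈ n.divisors, ((f : ℝ) / (f.totient : ℝ) ^ 2) * C₂ := sum_le_sum hinner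
    _ = (∑ f ∈ n.divisors, ((f : ℝ) / (f.totient : ℝ) ^ 2)) * C₂ := by rw [sum_mul]
    _ ≤ (C₁ * ((n : ℝ) / n.totient)) * C₂ := by
      have := h1 n hn
      gcongr
    _ ≤ (C₁ * C₂ + 1) * ((n : ℝ) / n.totient) := by
      have : 0 ≤ (n : ℝ) / n.totient := by positivity
      nlinarith

/-! ### Ramanujan sums -/

private theorem Arith_multiples (q d : ℕ) (k : ℤ) (hq : 0 < q) (hd : d ∣ q) :
    ∑ a ∈ (range q).filter (fun a => d ∣ a), ee ((a : ℝ) * k / q) =
      if ((q / d : ℕ) : ℤ) ∣ k then ((q / d : ℕ) : ℂ) else 0 := by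
  obtain ⟨m, rfl⟩ := hd
  have hd0 : 0 < d := Nat.pos_of_mul_pos_right hq
  have hm0 : 0 < m := Nat.pos_of_mul_pos_left hq
  rw [Nat.mul_div_cancel_left _ hd0]
  have h1 : (range (d * m)).filter (fun a => d ∣ a) = (range m).image (fun k => d * k) := by
    ext a
    rw [mem_filter, mem_range, mem_image]
    constructor
    · rintro ⟨h1, k, rfl⟩
      exact ⟨k, mem_range.2 (Nat.lt_of_mul_lt_mul_left h1), rfl⟩
    · rintro ⟨k, hk, rfl⟩
      exact ⟨Nat.mul_lt_mul_of_pos_left (mem_range.1 hk) hd0, dvd_mul_right _ _⟩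
  rw [h1, sum_image (fun a _ b _ h => Nat.eq_of_mul_eq_mul_left hd0 h)]
  have h2 := sum_ee_range m hm0 k
  rw [← h2]
  refine sum_congr rfl fun a _ => ?_
  congr 1
  have hd' : (d : ℝ) ≠ 0 := by exact_mod_cast hd0.ne'
  have hm' : (m : ℝ) ≠ 0 := by exact_mod_cast hm0.ne'
  push_cast
  field_simp

private noncomputable def Arith_hk (k : ℤ) : ArithmeticFunction ℤ :=
  ⟨fun f => if (f : ℤ) ∣ k then (f : ℤ) else 0, by simp⟩

private theorem Arith_hk_apply (k : ℤ) (f : ℕ) : Arith_hk k f = if (f : ℤ) ∣ k then (f : ℤ) else 0 := rfl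

private theorem Arith_hk_mult (k : ℤ) : (Arith_hk k).IsMultiplicative := by
  refine ⟨by simp [Arith_hk_apply], fun {m n} h => ?_⟩
  rw [Arith_hk_apply, Arith_hk_apply, Arith_hk_apply]
  have h1 : ((m * n : ℕ) : ℤ) ∣ k ↔ (m : ℤ) ∣ k ∧ (n : ℤ) ∣ k := by
    push_cast
    constructor
    · intro h2
      exact ⟨(dvd_mul_right _ _).trans h2, (dvd_mul_left _ _).trans h2⟩
    · rintro ⟨h2, h3⟩
      exact (Nat.isCoprime_iff_coprime.2 h).mul_dvd h2 h3
  by_cases ha : (m : ℤ) ∣ k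
  · by_cases hb : (n : ℤ) ∣ k
    · rw [if_pos (h1.2 ⟨ha, hb⟩), if_pos ha, if_pos hb]
      push_cast
      ring
    · rw [if_neg (fun h2 => hb (h1.1 h2).2), if_neg hb, mul_zero]
  · rw [if_neg (fun h2 => ha (h1.1 h2).1), if_neg ha, zero_mul]

private theorem Arith_cq (q : ℕ) (k : ℤ) (hq : 1 ≤ q) :
    cq q k = (((ArithmeticFunction.moebius * Arith_hk k) q : ℤ) : ℂ) := by
  have h1 : ∀ a ∈ range q, (if Nat.Coprime a q then ee ((a : ℝ) * k / q) else 0) =
      ∑ d ∈ q.divisors, (if d ∣ a then ((ArithmeticFunction.moebius d : ℤ) : ℂ) *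
        ee ((a : ℝ) * k / q) else 0) := by
    intro a _
    have h2 : ∑ d ∈ q.divisors, (if d ∣ a then ((ArithmeticFunction.moebius d : ℤ) : ℂ) *
        ee ((a : ℝ) * k / q) else 0) =
        (∑ d ∈ (Nat.gcd a q).divisors, ((ArithmeticFunction.moebius d : ℤ) : ℂ)) *
          ee ((a : ℝ) * k / q) := by
      rw [sum_mul, ← sum_filter]
      refine sum_congr ?_ (fun _ _ => rfl)
      ext d
      rw [mem_filter, Nat.mem_divisors, Nat.mem_divisors]
      constructor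
      · rintro ⟨⟨h3, _⟩, h4⟩
        exact ⟨Nat.dvd_gcd h4 h3, (Nat.gcd_pos_of_pos_right _ hq).ne'⟩
      · rintro ⟨h3, _⟩
        exact ⟨⟨h3.trans (Nat.gcd_dvd_right _ _), by omega⟩, h3.trans (Nat.gcd_dvd_left _ _)⟩
    rw [h2]
    have h3 : (∑ d ∈ (Nat.gcd a q).divisors, ((ArithmeticFunction.moebius d : ℤ) : ℂ)) =
        if Nat.gcd a q = 1 then 1 else 0 := by
      have h4 := congrArg (fun f : ArithmeticFunction ℤ => f (Nat.gcd a q))
        ArithmeticFunction.moebius_mul_coe_zeta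
      simp only [ArithmeticFunction.coe_mul_zeta_apply, ArithmeticFunction.one_apply] at h4
      have h5 := congrArg (fun z : ℤ => (z : ℂ)) h4
      push_cast at h5
      exact h5
    rw [h3]
    by_cases h : Nat.Coprime a q
    · rw [if_pos h, if_pos h, one_mul]
    · rw [if_neg h, if_neg h, zero_mul]
  unfold cq
  rw [sum_filter, sum_congr rfl h1, sum_comm]
  have h4 : ∀ d ∈ q.divisors, ∑ a ∈ range q, (if d ∣ a then
      ((ArithmeticFunction.moebius d : ℤ) : ℂ) * ee ((a : ℝ) * k / q) else 0) =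
      ((ArithmeticFunction.moebius d * Arith_hk k (q / d) : ℤ) : ℂ) := by
    intro d hd
    have hdq := Nat.dvd_of_mem_divisors hd
    rw [← sum_filter, ← mul_sum, Arith_multiples q d k hq hdq, Arith_hk_apply]
    push_cast
    congr 1
  rw [sum_congr rfl h4, ArithmeticFunction.mul_apply,
    Nat.sum_divisorsAntidiagonal (fun a b => ArithmeticFunction.moebius a * Arith_hk k b)]
  push_cast
  rfl

/-- The local factor of the singular series. -/
private noncomputable def Arith_g (n p : ℕ) : ℝ := if p ∣ n then 1 / ((p : ℝ) - 1) else -1 / ((p : ℝ) - 1) ^ 2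

private theorem Arith_term (q n : ℕ) (hq : Squarefree q) :
    ((ArithmeticFunction.moebius q : ℂ) ^ 2 / (q.totient : ℂ) ^ 2) * cq q (-(n : ℤ)) =
      ((∏ p ∈ q.primeFactors, Arith_g n p : ℝ) : ℂ) := by
  have hq1 : 1 ≤ q := Nat.pos_of_ne_zero hq.ne_zero
  have h1 : (ArithmeticFunction.moebius q : ℂ) ^ 2 = 1 := by
    have := ArithmeticFunction.moebius_sq_eq_one_of_squarefree hq
    exact_mod_cast this
  have h2 : (q.totient : ℝ) = ∏ p ∈ q.primeFactors, ((p : ℝ) - 1) := by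
    have h := Nat.totient_mul_prod_primeFactors q
    rw [Nat.prod_primeFactors_of_squarefree hq, mul_comm] at h
    have h3 := Nat.eq_of_mul_eq_mul_left hq1 h
    rw [h3]
    push_cast
    refine prod_congr rfl fun p hp => ?_
    rw [Nat.cast_sub (Nat.prime_of_mem_primeFactors hp).one_le]
    simp
  have hmul : (ArithmeticFunction.moebius * Arith_hk (-(n : ℤ))).IsMultiplicative :=
    ArithmeticFunction.isMultiplicative_moebius.mul (Arith_hk_mult _)
  have h3 : (((ArithmeticFunction.moebius * Arith_hk (-(n : ℤ))) q : ℤ) : ℝ) =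
      ∏ p ∈ q.primeFactors, (if p ∣ n then (p : ℝ) - 1 else -1) := by
    rw [← hmul.prod_primeFactors hq]
    push_cast
    refine prod_congr rfl fun p hp => ?_
    have hpp := Nat.prime_of_mem_primeFactors hp
    rw [ArithmeticFunction.mul_apply,
      Nat.sum_divisorsAntidiagonal (fun a b => ArithmeticFunction.moebius a * Arith_hk (-(n : ℤ)) b),
      Nat.Prime.sum_divisors hpp, Nat.div_self hpp.pos, Nat.div_one, Arith_hk_apply, Arith_hk_apply,
      ArithmeticFunction.moebius_apply_prime hpp]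
    simp only [ArithmeticFunction.moebius_apply_one, Nat.cast_one, one_dvd, if_true, dvd_neg,
      Int.natCast_dvd_natCast]
    split_ifs <;> push_cast <;> ring
  rw [Arith_cq q _ hq1, h1]
  have h4 : (((ArithmeticFunction.moebius * Arith_hk (-(n : ℤ))) q : ℤ) : ℂ) =
      ((((ArithmeticFunction.moebius * Arith_hk (-(n : ℤ))) q : ℤ) : ℝ) : ℂ) := by push_cast; rfl
  have h5 : (q.totient : ℂ) = ((q.totient : ℝ) : ℂ) := by push_cast; rfl
  rw [h4, h5, h3, h2, ← Complex.ofReal_one, ← Complex.ofReal_pow, ← Complex.ofReal_div, ← Complex.ofReal_mul,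
    ← prod_pow, one_div, ← prod_inv_distrib, ← prod_mul_distrib]
  congr 1
  refine prod_congr rfl fun p hp => ?_
  have h6 : (2 : ℝ) ≤ p := by exact_mod_cast (Nat.prime_of_mem_primeFactors hp).two_le
  have h7 : (p : ℝ) - 1 ≠ 0 := by linarith
  unfold Arith_g
  split_ifs
  · field_simp
  · field_simp

private theorem Arith_SG (P n : ℕ) :
    SG P n = ((∑ q ∈ (Icc 1 P).filter Squarefree, ∏ p ∈ q.primeFactors, Arith_g n p : ℝ) : ℂ) := by
  unfold SG
  rw [Complex.ofReal_sum, sum_filter]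
  refine sum_congr rfl fun q hq => ?_
  split_ifs with h
  · exact Arith_term q n h
  · rw [ArithmeticFunction.moebius_eq_zero_of_not_squarefree h]
    simp

/-- squarefree numbers composed of primes up to `v` -/
private noncomputable def Arith_D (v : ℕ) : Finset ℕ :=
  ((Icc 1 v).filter Nat.Prime).powerset.image (fun S => ∏ p ∈ S, p)

private theorem Arith_sumD (v : ℕ) (F : Finset ℕ → ℝ) :
    ∑ q ∈ Arith_D v, F q.primeFactors = ∑ S ∈ ((Icc 1 v).filter Nat.Prime).powerset, F S := by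
  have hp : ∀ S ∈ ((Icc 1 v).filter Nat.Prime).powerset, (∏ p ∈ S, p).primeFactors = S := by
    intro S hS
    exact Nat.primeFactors_prod fun p hp => (mem_filter.1 (mem_powerset.1 hS hp)).2
  unfold Arith_D
  rw [sum_image]
  · exact sum_congr rfl fun S hS => by rw [hp S hS]
  · intro S hS T hT h
    have h1 := hp S hS
    have h2 := hp T hT
    simp only at h
    rw [← h1, ← h2, h]

private theorem Arith_D_sq (v q : ℕ) (hq : q ∈ Arith_D v) : Squarefree q := by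
  unfold Arith_D at hq
  rw [mem_image] at hq
  obtain ⟨S, hS, rfl⟩ := hq
  have h1 : ∀ p ∈ S, p.Prime := fun p hp => (mem_filter.1 (mem_powerset.1 hS hp)).2
  exact Finset.squarefree_prod_of_pairwise_isCoprime
    (fun a ha b hb hab => by
      simp only [Function.onFun, ← Nat.coprime_iff_isRelPrime]
      exact (Nat.coprime_primes (h1 a ha) (h1 b hb)).2 hab)
    (fun p hp => (h1 p hp).squarefree)

private theorem Arith_sub (P v : ℕ) (h : P ≤ v) : (Icc 1 P).filter Squarefree ⊆ Arith_D v := by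
  intro q hq
  rw [mem_filter, mem_Icc] at hq
  unfold Arith_D
  rw [mem_image]
  refine ⟨q.primeFactors, ?_, Nat.prod_primeFactors_of_squarefree hq.2⟩
  rw [mem_powerset]
  intro p hp
  rw [mem_filter, mem_Icc]
  have h1 := Nat.prime_of_mem_primeFactors hp
  have h2 := Nat.le_of_mem_primeFactors hp
  exact ⟨⟨h1.one_le, by omega⟩, h1⟩

private theorem Arith_tail (P v n : ℕ) (hP : 1 ≤ P) (h : P ≤ v) :
    |∏ p ∈ (Icc 1 v).filter Nat.Prime, (1 + Arith_g n p) -
      ∑ q ∈ (Icc 1 P).filter Squarefree, ∏ p ∈ q.primeFactors, Arith_g n p| ≤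
      (Real.sqrt P)⁻¹ * ∏ p ∈ (Icc 1 v).filter Nat.Prime, (1 + Real.sqrt p * |Arith_g n p|) := by
  have h1 : ∏ p ∈ (Icc 1 v).filter Nat.Prime, (1 + Arith_g n p) =
      ∑ q ∈ Arith_D v, ∏ p ∈ q.primeFactors, Arith_g n p := by
    rw [prod_one_add, Arith_sumD v (fun S => ∏ p ∈ S, Arith_g n p)]
  have h2 : ∏ p ∈ (Icc 1 v).filter Nat.Prime, (1 + Real.sqrt p * |Arith_g n p|) =
      ∑ q ∈ Arith_D v, ∏ p ∈ q.primeFactors, (Real.sqrt p * |Arith_g n p|) := by
    rw [prod_one_add, Arith_sumD v (fun S => ∏ p ∈ S, (Real.sqrt p * |Arith_g n p|))]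
  rw [h1, h2, ← sum_sdiff (Arith_sub P v h), add_sub_cancel_right, mul_sum]
  refine (abs_sum_le_sum_abs _ _).trans ?_
  refine (sum_le_sum ?_).trans (sum_le_sum_of_subset_of_nonneg sdiff_subset ?_)
  · intro q hq
    rw [mem_sdiff, mem_filter, mem_Icc] at hq
    obtain ⟨hqD, hq2⟩ := hq
    have hsq := Arith_D_sq v q hqD
    have hq0 : 1 ≤ q := Nat.pos_of_ne_zero hsq.ne_zero
    have hqP : P < q := by
      by_contra hcon
      exact hq2 ⟨⟨hq0, by omega⟩, hsq⟩
    rw [abs_prod, prod_mul_distrib, ← Real.sqrt_prod _ (fun p _ => Nat.cast_nonneg p)]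
    have h3 : ∏ p ∈ q.primeFactors, (p : ℝ) = q := by
      have := congrArg (fun m : ℕ => (m : ℝ)) (Nat.prod_primeFactors_of_squarefree hsq)
      push_cast at this
      exact this
    rw [h3]
    have h4 : 0 ≤ ∏ p ∈ q.primeFactors, |Arith_g n p| := prod_nonneg fun _ _ => abs_nonneg _
    have h5 : 1 ≤ (Real.sqrt P)⁻¹ * Real.sqrt q := by
      have hPpos : 0 < Real.sqrt P := Real.sqrt_pos.2 (by exact_mod_cast hP)
      rw [← div_eq_inv_mul, one_le_div hPpos]
      exact Real.sqrt_le_sqrt (by exact_mod_cast hqP.le)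
    calc ∏ p ∈ q.primeFactors, |Arith_g n p| = 1 * ∏ p ∈ q.primeFactors, |Arith_g n p| := (one_mul _).symm
      _ ≤ ((Real.sqrt P)⁻¹ * Real.sqrt q) * ∏ p ∈ q.primeFactors, |Arith_g n p| := by gcongr
      _ = _ := by ring
  · intro q _ _
    have : 0 ≤ ∏ p ∈ q.primeFactors, (Real.sqrt p * |Arith_g n p|) := prod_nonneg fun _ _ => by positivity
    positivity

private theorem Arith_sig (v n : ℕ) (hv : 2 ≤ v) (hn : Even n) :
    ∏ p ∈ (Icc 1 v).filter Nat.Prime, (1 + Arith_g n p) = Rob.sig v n := by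
  rw [Rob.SigLow.sig_eq v n hv]
  have h1 : (Icc 1 v).filter Nat.Prime = insert 2 (Rob.SigLow.od v) := by
    ext p
    rw [mem_filter, mem_Icc, mem_insert, Rob.SigLow.od, mem_filter, mem_Icc]
    constructor
    · rintro ⟨⟨h2, h3⟩, h4⟩
      have := h4.two_le
      rcases Nat.lt_or_ge p 3 with h | h
      · left; omega
      · right; exact ⟨⟨h, h3⟩, h4⟩
    · rintro (h | ⟨⟨h2, h3⟩, h4⟩)
      · subst h; exact ⟨⟨by omega, hv⟩, Nat.prime_two⟩
      · exact ⟨⟨by omega, h3⟩, h4⟩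
  rw [h1, prod_insert (Rob.SigLow.two_not_mem v), ← prod_filter_mul_prod_filter_not (Rob.SigLow.od v) (fun p => p ∣ n)]
  have h2 : 1 + Arith_g n 2 = 2 := by
    unfold Arith_g
    rw [if_pos hn.two_dvd]
    norm_num
  have h3 : ∏ p ∈ (Rob.SigLow.od v).filter (fun p => p ∣ n), (1 + Arith_g n p) = Rob.SigLow.RR v n := by
    unfold Rob.SigLow.RR
    refine prod_congr rfl fun p hp => ?_
    rw [mem_filter, Rob.SigLow.od, mem_filter, mem_Icc] at hp
    have h4 : (3 : ℝ) ≤ p := by exact_mod_cast hp.1.1.1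
    have h5 : (p : ℝ) - 1 ≠ 0 := by linarith
    unfold Arith_g
    rw [if_pos hp.2]
    field_simp
    ring
  have h4 : ∏ p ∈ (Rob.SigLow.od v).filter (fun p => ¬ p ∣ n), (1 + Arith_g n p) = Rob.SigLow.QQ v n := by
    unfold Rob.SigLow.QQ
    refine prod_congr rfl fun p hp => ?_
    rw [mem_filter, Rob.SigLow.od, mem_filter, mem_Icc] at hp
    have h4 : (3 : ℝ) ≤ p := by exact_mod_cast hp.1.1.1
    have h5 : (p : ℝ) - 1 ≠ 0 := by linarith
    unfold Arith_g
    rw [if_neg hp.2]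
    field_simp
    ring
  rw [h2, h3, h4]
  ring

private theorem Arith_sigsing (n : ℕ) (hn : 1 ≤ n) (ε : ℝ) (hε : 0 < ε) :
    ∃ v₁ : ℕ, ∀ v : ℕ, v₁ ≤ v → |Rob.sig v n - En.sing n| ≤ ε := by
  have hs : 0 < En.sing n := by
    have := En.sing_ge n
    have h2 := En.tw_pos
    linarith
  obtain ⟨τ, hτ, v₀, hv⟩ := En.sig_sing (ε / En.sing n) (by positivity)
  refine ⟨max v₀ n, fun v hvv => ?_⟩
  have h1 := hv v ((le_max_left _ _).trans hvv) n hn ?_
  · calc _ ≤ ε / En.sing n * En.sing n := h1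
      _ = ε := by field_simp
  · have : n.primeFactors.filter (fun p => v < p) = ∅ := by
      rw [filter_eq_empty_iff]
      intro p hp
      have h2 := Nat.le_of_mem_primeFactors hp
      have h3 := (le_max_right v₀ n).trans hvv
      omega
    rw [this, sum_empty]
    exact hτ.le

private theorem Arith_isqrt (x : ℕ) : ∑ d ∈ Icc 1 x, (Real.sqrt d)⁻¹ ≤ 2 * Real.sqrt x := by
  induction x with
  | zero => simp
  | succ x ih =>
    rw [sum_Icc_succ_top (by omega)]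
    have h0 : 0 ≤ Real.sqrt x := Real.sqrt_nonneg _
    have h1 : 0 < Real.sqrt ((x + 1 : ℕ) : ℝ) := Real.sqrt_pos.2 (by positivity)
    have h2 : Real.sqrt ((x + 1 : ℕ) : ℝ) * Real.sqrt ((x + 1 : ℕ) : ℝ) = x + 1 := by
      rw [Real.mul_self_sqrt (by positivity)]; push_cast; ring
    have h3 : Real.sqrt x * Real.sqrt x = x := Real.mul_self_sqrt (by positivity)
    have h4 : (Real.sqrt ((x + 1 : ℕ) : ℝ))⁻¹ ≤
        2 * (Real.sqrt ((x + 1 : ℕ) : ℝ) - Real.sqrt x) := by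
      rw [inv_le_iff_one_le_mul₀ h1]
      nlinarith [sq_nonneg (Real.sqrt ((x + 1 : ℕ) : ℝ) - Real.sqrt x)]
    linarith

private theorem Arith_sumsqrt (n : ℕ) (hn : 1 ≤ n) :
    ∑ p ∈ n.primeFactors, (Real.sqrt p)⁻¹ ≤ 4 * Real.sqrt (Real.log n + 2) := by
  have hlogn : 0 ≤ Real.log (n : ℝ) := Real.log_natCast_nonneg n
  set z := ⌈Real.log (n : ℝ)⌉₊ + 1 with hz
  have hz1 : 1 ≤ z := by omega
  have hzn : Real.log (n : ℝ) ≤ z := by
    have := Nat.le_ceil (Real.log (n : ℝ))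
    rw [hz]; push_cast; linarith
  have hzn2 : (z : ℝ) ≤ Real.log n + 2 := by
    have := (Nat.ceil_lt_add_one hlogn).le
    rw [hz]; push_cast; linarith
  have hcard : (n.primeFactors.card : ℝ) ≤ 2 * Real.log n := by
    have h1 : 2 ^ n.primeFactors.card ≤ n := by
      calc 2 ^ n.primeFactors.card = ∏ p ∈ n.primeFactors, 2 := by rw [prod_const]
        _ ≤ ∏ p ∈ n.primeFactors, p := prod_le_prod' fun p hp => (Nat.prime_of_mem_primeFactors hp).two_le
        _ ≤ n := Nat.le_of_dvd hn (Nat.prod_primeFactors_dvd n)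
    have h2 : ((2 : ℝ)) ^ n.primeFactors.card ≤ n := by exact_mod_cast h1
    have h3 := Real.log_le_log (by positivity) h2
    rw [Real.log_pow] at h3
    have h4 : (1 : ℝ) / 2 ≤ Real.log 2 := by
      have := Real.log_two_gt_d9
      linarith
    have h5 : (n.primeFactors.card : ℝ) * (1 / 2) ≤ n.primeFactors.card * Real.log 2 := by gcongr
    linarith
  rw [← sum_filter_add_sum_filter_not n.primeFactors (fun p => p ≤ z)]
  have h1 : ∑ p ∈ n.primeFactors.filter (fun p => p ≤ z), (Real.sqrt p)⁻¹ ≤ 2 * Real.sqrt z := by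
    refine le_trans ?_ (Arith_isqrt z)
    have h2 : n.primeFactors.filter (fun p => p ≤ z) ⊆ Icc 1 z := by
      intro p hp
      rw [mem_filter] at hp
      exact mem_Icc.2 ⟨(Nat.prime_of_mem_primeFactors hp.1).one_le, hp.2⟩
    exact sum_le_sum_of_subset_of_nonneg h2 fun _ _ _ => by positivity
  have h2 : ∑ p ∈ n.primeFactors.filter (fun p => ¬ p ≤ z), (Real.sqrt p)⁻¹ ≤ 2 * Real.sqrt z := by
    have hz0 : (0 : ℝ) < z := by exact_mod_cast hz1
    have hs0 : 0 < Real.sqrt z := Real.sqrt_pos.2 hz0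
    calc _ ≤ ∑ p ∈ n.primeFactors.filter (fun p => ¬ p ≤ z), (Real.sqrt z)⁻¹ := by
          refine sum_le_sum fun p hp => ?_
          rw [mem_filter] at hp
          have : (z : ℝ) ≤ p := by exact_mod_cast (by omega : z ≤ p)
          gcongr
      _ = ((n.primeFactors.filter (fun p => ¬ p ≤ z)).card : ℝ) * (Real.sqrt z)⁻¹ := by
          rw [sum_const, nsmul_eq_mul]
      _ ≤ (2 * z) * (Real.sqrt z)⁻¹ := by
          have h3 : ((n.primeFactors.filter (fun p => ¬ p ≤ z)).card : ℝ) ≤ n.primeFactors.card := by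
            exact_mod_cast card_filter_le _ _
          have h4 : ((n.primeFactors.filter (fun p => ¬ p ≤ z)).card : ℝ) ≤ 2 * z := by linarith
          gcongr
      _ = 2 * Real.sqrt z := by
          rw [mul_assoc, ← div_eq_mul_inv, Real.div_sqrt]
  have h3 : Real.sqrt z ≤ Real.sqrt (Real.log n + 2) := Real.sqrt_le_sqrt hzn2
  linarith

private theorem Arith_prod : ∃ C : ℝ, 0 < C ∧ ∀ n v : ℕ, 1 ≤ n →
    ∏ p ∈ (Icc 1 v).filter Nat.Prime, (1 + Real.sqrt p * |Arith_g n p|) ≤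
      Real.exp (C + 8 * Real.sqrt (Real.log n + 2)) := by
  have hs : Summable fun n : ℕ => 4 * (1 / (n : ℝ) ^ (3 / 2 : ℝ)) :=
    (Real.summable_one_div_nat_rpow.mpr (by norm_num)).mul_left _
  refine ⟨∑' n : ℕ, 4 * (1 / (n : ℝ) ^ (3 / 2 : ℝ)) + 1, ?_, fun n v hn => ?_⟩
  · have : 0 ≤ ∑' n : ℕ, 4 * (1 / (n : ℝ) ^ (3 / 2 : ℝ)) := tsum_nonneg fun n => by positivity
    linarith
  calc _ ≤ ∏ p ∈ (Icc 1 v).filter Nat.Prime, Real.exp (Real.sqrt p * |Arith_g n p|) := by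
        refine prod_le_prod (fun p _ => by positivity) fun p _ => ?_
        have := Real.add_one_le_exp (Real.sqrt p * |Arith_g n p|)
        linarith
    _ = Real.exp (∑ p ∈ (Icc 1 v).filter Nat.Prime, Real.sqrt p * |Arith_g n p|) := by rw [Real.exp_sum]
    _ ≤ _ := by
      apply Real.exp_le_exp.2
      rw [← sum_filter_add_sum_filter_not ((Icc 1 v).filter Nat.Prime) (fun p => p ∣ n)]
      have h1 : ∑ p ∈ ((Icc 1 v).filter Nat.Prime).filter (fun p => p ∣ n), Real.sqrt p * |Arith_g n p| ≤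
          2 * ∑ p ∈ n.primeFactors, (Real.sqrt p)⁻¹ := by
        rw [mul_sum]
        have hsub : ((Icc 1 v).filter Nat.Prime).filter (fun p => p ∣ n) ⊆ n.primeFactors := by
          intro p hp
          rw [mem_filter, mem_filter] at hp
          rw [Nat.mem_primeFactors_of_ne_zero (by omega)]
          exact ⟨hp.1.2, hp.2⟩
        refine le_trans (sum_le_sum ?_) (sum_le_sum_of_subset_of_nonneg hsub fun _ _ _ => by positivity)
        intro p hp
        rw [mem_filter, mem_filter] at hp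
        have h2 : (2 : ℝ) ≤ p := by exact_mod_cast hp.1.2.two_le
        have h3 : 0 < Real.sqrt p := Real.sqrt_pos.2 (by linarith)
        have h4 : Real.sqrt p * Real.sqrt p = p := Real.mul_self_sqrt (by linarith)
        unfold Arith_g
        rw [if_pos hp.2, abs_of_nonneg (by
          have : (0 : ℝ) < (p : ℝ) - 1 := by linarith
          positivity), mul_one_div, ← div_eq_mul_inv, div_le_div_iff₀ (by linarith) h3, h4]
        linarith
      have h2 : ∑ p ∈ ((Icc 1 v).filter Nat.Prime).filter (fun p => ¬ p ∣ n), Real.sqrt p * |Arith_g n p| ≤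
          ∑' n : ℕ, 4 * (1 / (n : ℝ) ^ (3 / 2 : ℝ)) := by
        refine le_trans (sum_le_sum ?_) (hs.sum_le_tsum (((Icc 1 v).filter Nat.Prime).filter (fun p => ¬ p ∣ n))
          (fun n _ => by positivity))
        intro p hp
        rw [mem_filter, mem_filter] at hp
        have h2 : (2 : ℝ) ≤ p := by exact_mod_cast hp.1.2.two_le
        have h3 : 0 < Real.sqrt p := Real.sqrt_pos.2 (by linarith)
        have h5 : Real.sqrt p * (p : ℝ) ^ (3 / 2 : ℝ) = (p : ℝ) ^ 2 := by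
          rw [Real.sqrt_eq_rpow, ← Real.rpow_add (by linarith), ← Real.rpow_natCast]
          norm_num
        have h6 : 0 < (p : ℝ) ^ (3 / 2 : ℝ) := by positivity
        have h7 : (0 : ℝ) < ((p : ℝ) - 1) ^ 2 := by
          have : (0 : ℝ) < (p : ℝ) - 1 := by linarith
          positivity
        unfold Arith_g
        rw [if_neg hp.2, abs_div, abs_neg, abs_one, abs_of_pos h7, mul_one_div, mul_one_div,
          div_le_div_iff₀ h7 h6, h5]
        nlinarith
      have h3 := Arith_sumsqrt n hn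
      linarith

/-- Proof. The function `q ↦ μ(q)² c_q(n)/φ(q)²` is multiplicative; `c_p(n) = p-1` if `p ∣ n`, else `-1`. So for even
`n` the full sum over `q` is `∏_{p ∣ n} (1 + 1/(p-1)) ∏_{p ∤ n} (1 - 1/(p-1)²) = sing n`. The tail `q > P` is at most
`P^{-1/2} ∑_q q^{1/2} μ(q)² |c_q(n)|/φ(q)² = P^{-1/2} ∏_p (1 + p^{1/2} |c_p(n)|/(p-1)²)
≤ C P^{-1/2} ∏_{p ∣ n} (1 + 4 p^{-1/2}) ≤ C P^{-1/2} exp(8 √ω(n))`, `ω(n) ≤ 2 log N`, and
`P ≥ exp((log N)^{3/4})`. -/
theorem SG_tail (ε : ℝ) (hε : 0 < ε) : ∃ N₀ : ℕ, ∀ N P n : ℕ, N₀ ≤ N →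
    Real.exp ((Real.log N) ^ (3 / 4 : ℝ)) ≤ P → 1 ≤ n → n ≤ N → Even n →
      ‖SG P n - (En.sing n : ℂ)‖ ≤ ε := by
  obtain ⟨C, hC, hprod⟩ := Arith_prod
  -- the choice of N₀
  have hev : ∀ᶠ x : ℝ in Filter.atTop, C + 8 * Real.sqrt (x + 2) - x ^ (3 / 4 : ℝ) / 2 ≤ Real.log (ε / 2) := by
    have h1 : Filter.Tendsto (fun x : ℝ => x ^ (1 / 4 : ℝ)) Filter.atTop Filter.atTop :=
      tendsto_rpow_atTop (by norm_num)
    have h2 : Filter.Tendsto (fun x : ℝ => x ^ (1 / 2 : ℝ)) Filter.atTop Filter.atTop :=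
      tendsto_rpow_atTop (by norm_num)
    filter_upwards [h1.eventually_ge_atTop 34, h2.eventually_ge_atTop (C - Real.log (ε / 2)),
      Filter.eventually_ge_atTop 2] with x hx1 hx2 hx3
    have hx0 : 0 < x := by linarith
    have h3 : Real.sqrt (x + 2) ≤ 2 * x ^ (1 / 2 : ℝ) := by
      rw [← Real.sqrt_eq_rpow]
      have h4 : x + 2 ≤ 4 * x := by linarith
      calc Real.sqrt (x + 2) ≤ Real.sqrt (4 * x) := Real.sqrt_le_sqrt h4
        _ = 2 * Real.sqrt x := by
          rw [Real.sqrt_mul (by norm_num), show (4 : ℝ) = 2 ^ 2 by norm_num, Real.sqrt_sq (by norm_num)]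
    have h5 : x ^ (3 / 4 : ℝ) = x ^ (1 / 2 : ℝ) * x ^ (1 / 4 : ℝ) := by
      rw [← Real.rpow_add hx0]; norm_num
    have h6 : 0 ≤ x ^ (1 / 2 : ℝ) := by positivity
    have h7 : x ^ (1 / 2 : ℝ) * 34 ≤ x ^ (1 / 2 : ℝ) * x ^ (1 / 4 : ℝ) := by gcongr
    rw [h5]
    linarith
  have hev2 := (Real.tendsto_log_atTop.comp tendsto_natCast_atTop_atTop).eventually hev
  obtain ⟨N₀, hN₀⟩ := Filter.eventually_atTop.1 hev2
  refine ⟨max N₀ 1, fun N P n hN hP hn hnN he => ?_⟩
  have hN1 : 1 ≤ N := (le_max_right _ _).trans hN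
  have hNN := hN₀ N ((le_max_left _ _).trans hN)
  simp only [Function.comp] at hNN
  set x := Real.log (N : ℝ) with hx
  have hP1 : 1 ≤ P := by
    have h1 : (0 : ℝ) < P := lt_of_lt_of_le (Real.exp_pos _) hP
    exact_mod_cast h1
  have hP0 : (0 : ℝ) < P := by exact_mod_cast hP1
  obtain ⟨v₁, hv₁⟩ := Arith_sigsing n hn (ε / 2) (by positivity)
  set v := max (max P v₁) 2 with hv
  have hvP : P ≤ v := (le_max_left _ _).trans (le_max_left _ _)
  have hvv : v₁ ≤ v := (le_max_right _ _).trans (le_max_left _ _)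
  have hv2 : 2 ≤ v := le_max_right _ _
  have h1 := hv₁ v hvv
  have h2 := Arith_tail P v n hP1 hvP
  have h3 := hprod n v hn
  rw [Arith_sig v n hv2 he] at h2
  have h4 : (Real.sqrt P)⁻¹ ≤ Real.exp (-(x ^ (3 / 4 : ℝ) / 2)) := by
    rw [Real.exp_neg]
    have h5 : Real.exp (x ^ (3 / 4 : ℝ) / 2) ≤ Real.sqrt P := by
      rw [Real.le_sqrt' (Real.exp_pos _), ← Real.exp_nat_mul]
      refine le_trans (le_of_eq ?_) hP
      congr 1
      push_cast
      ring
    have := Real.exp_pos (x ^ (3 / 4 : ℝ) / 2)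
    gcongr
  have h5 : Real.exp (C + 8 * Real.sqrt (Real.log n + 2)) ≤ Real.exp (C + 8 * Real.sqrt (x + 2)) := by
    have h6 : Real.log (n : ℝ) ≤ x := Real.log_le_log (by exact_mod_cast hn) (by exact_mod_cast hnN)
    gcongr
  have h6 : (Real.sqrt P)⁻¹ * ∏ p ∈ (Icc 1 v).filter Nat.Prime, (1 + Real.sqrt p * |Arith_g n p|) ≤ ε / 2 := by
    calc _ ≤ Real.exp (-(x ^ (3 / 4 : ℝ) / 2)) * Real.exp (C + 8 * Real.sqrt (x + 2)) := by
          have h7 : 0 ≤ ∏ p ∈ (Icc 1 v).filter Nat.Prime, (1 + Real.sqrt p * |Arith_g n p|) :=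
            prod_nonneg fun p _ => by positivity
          exact mul_le_mul h4 (h3.trans h5) h7 (Real.exp_pos _).le
      _ = Real.exp (C + 8 * Real.sqrt (x + 2) - x ^ (3 / 4 : ℝ) / 2) := by
          rw [← Real.exp_add]; congr 1; ring
      _ ≤ Real.exp (Real.log (ε / 2)) := Real.exp_le_exp.2 hNN
      _ = ε / 2 := Real.exp_log (by positivity)
  rw [Arith_SG, ← Complex.ofReal_sub, Complex.norm_real, Real.norm_eq_abs]
  have h7 := h2.trans h6
  rw [abs_le] at h1 h7 ⊢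
  constructor <;> linarith [h1.1, h1.2, h7.1, h7.2]

end Pool.Agent.Lib.MP_629a14_nt.Th
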