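import Pool.Agent.Lib.MP_629a14_nt.Th.IIbd
import Pool.Agent.Lib.MP_629a14_nt.Rob.PsiOne

/-! The double sum without characters. -/

set_option autoImplicit false

namespace Pool.Agent.Lib.MP_629a14_nt.Th

open Finset Pool.Agent.Lib.MP_629a14_nt

open Filter Topology

private theorem aux_aP_nonneg (P m : ℕ) : 0 ≤ aP P m := by
  unfold aP
  split_ifs
  · exact Real.log_natCast_nonneg m
  · exact le_rfl

private theorem aux_aP_le (P N m : ℕ) (hm : m ∈ Icc 1 (2 * N)) : aP P m ≤ Real.log (2 * N) := by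
  rw [mem_Icc] at hm
  have h1 : (1 : ℝ) ≤ m := by exact_mod_cast hm.1
  have h2 : (m : ℝ) ≤ 2 * N := by exact_mod_cast hm.2
  unfold aP
  split_ifs
  · exact Real.log_le_log (by linarith) h2
  · exact Real.log_nonneg (by linarith)

private theorem aux_fej_le_one (N H n m₂ : ℕ) (hH : 1 ≤ H) :
    ∑ m₁ ∈ Icc 1 (2 * N), fej H ((m₁ : ℝ) + m₂ - n) ≤ 1 := by
  classical
  have h1 := fej_sum H (n + 2 * N + H + m₂) hH (by omega)
  rw [← h1]
  have h2 : ∑ m₁ ∈ Icc 1 (2 * N), fej H ((m₁ : ℝ) + m₂ - n) =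
      ∑ m ∈ (Icc 1 (2 * N)).map (addRightEmbedding (2 * N + H + 2 * m₂)),
        fej H ((m : ℝ) - (n + 2 * N + H + m₂ : ℕ)) := by
    rw [Finset.sum_map]
    refine Finset.sum_congr rfl fun m _ => ?_
    congr 1
    simp only [addRightEmbedding_apply]
    push_cast
    ring
  rw [h2]
  refine Finset.sum_le_sum_of_subset_of_nonneg ?_ fun m _ _ => fej_nonneg _ _
  intro m hm
  rw [Finset.mem_map] at hm
  obtain ⟨k, hk, rfl⟩ := hm
  rw [mem_Icc] at hk
  rw [mem_Icc]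
  simp only [addRightEmbedding_apply]
  omega

/-- the inner sum -/
private noncomputable def aux_S (P N H n m₂ : ℕ) : ℝ :=
  ∑ m₁ ∈ Icc 1 (2 * N), aP P m₁ * fej H ((m₁ : ℝ) + m₂ - n)

private theorem aux_I0 (P N H n : ℕ) :
    I0 P N H n = ∑ m₂ ∈ Icc 1 (2 * N), aP P m₂ * aux_S P N H n m₂ := by
  unfold I0 aux_S
  rw [Finset.sum_comm]
  refine Finset.sum_congr rfl fun m₂ _ => ?_
  rw [Finset.mul_sum]
  refine Finset.sum_congr rfl fun m₁ _ => ?_
  ring

private theorem aux_S_nonneg (P N H n m₂ : ℕ) : 0 ≤ aux_S P N H n m₂ :=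
  Finset.sum_nonneg fun m _ => mul_nonneg (aux_aP_nonneg P m) (fej_nonneg _ _)

private theorem aux_S_le (P N H n m₂ : ℕ) (hH : 1 ≤ H) (hN : 1 ≤ N) :
    aux_S P N H n m₂ ≤ Real.log (2 * N) := by
  have hN' : (1 : ℝ) ≤ N := by exact_mod_cast hN
  have hlog : 0 ≤ Real.log (2 * N) := Real.log_nonneg (by linarith)
  unfold aux_S
  calc ∑ m₁ ∈ Icc 1 (2 * N), aP P m₁ * fej H ((m₁ : ℝ) + m₂ - n)
      ≤ ∑ m₁ ∈ Icc 1 (2 * N), Real.log (2 * N) * fej H ((m₁ : ℝ) + m₂ - n) :=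
        Finset.sum_le_sum fun m hm =>
          mul_le_mul_of_nonneg_right (aux_aP_le P N m hm) (fej_nonneg _ _)
    _ = Real.log (2 * N) * ∑ m₁ ∈ Icc 1 (2 * N), fej H ((m₁ : ℝ) + m₂ - n) := by
        rw [Finset.mul_sum]
    _ ≤ Real.log (2 * N) * 1 := mul_le_mul_of_nonneg_left (aux_fej_le_one N H n m₂ hH) hlog
    _ = _ := mul_one _

private theorem aux_S_zero (P N H n m₂ : ℕ) (h : n + H ≤ m₂) : aux_S P N H n m₂ = 0 := by
  unfold aux_S
  refine Finset.sum_eq_zero fun m hm => ?_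
  have h1 : ((n : ℝ) + H) ≤ m₂ := by exact_mod_cast h
  have h2 : (0 : ℝ) ≤ m := Nat.cast_nonneg m
  have h3 : (0 : ℝ) ≤ H := Nat.cast_nonneg H
  rw [fej_zero, mul_zero]
  rw [abs_of_nonneg (by linarith)]
  linarith

private theorem aux_S_wnd (P N H n m₂ : ℕ) (η : ℝ) (hH : 1 ≤ H) (hm : m₂ ≤ n) (hn : n ≤ N)
    (hHv : H ≤ n - m₂) (hw : ‖wnd (fun m => (aP P m : ℂ) - 1) H (n - m₂)‖ ≤ η) :
    |aux_S P N H n m₂ - 1| ≤ η := by
  obtain ⟨v, hv⟩ : ∃ v, v = n - m₂ := ⟨_, rfl⟩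
  rw [← hv] at hHv hw
  have hvr : (v : ℝ) = (n : ℝ) - m₂ := by
    rw [hv, Nat.cast_sub hm]
  have h1 : aux_S P N H n m₂ = ∑ m ∈ Icc 1 (2 * v), aP P m * fej H ((m : ℝ) - v) := by
    unfold aux_S
    have h2 : Icc 1 (2 * v) ⊆ Icc 1 (2 * N) := Icc_subset_Icc le_rfl (by omega)
    rw [← Finset.sum_subset h2]
    · refine Finset.sum_congr rfl fun m _ => ?_
      rw [hvr]
      congr 2
      ring
    · intro m hm1 hm2
      rw [mem_Icc] at hm1 hm2
      have h3 : 2 * v < m := by omega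
      have h4 : (2 : ℝ) * v < m := by exact_mod_cast h3
      have h5 : (H : ℝ) ≤ v := by exact_mod_cast hHv
      have h6 : (0 : ℝ) ≤ v := Nat.cast_nonneg v
      rw [fej_zero, mul_zero]
      rw [show (m : ℝ) + m₂ - n = m - v by rw [hvr]; ring, abs_of_nonneg (by linarith)]
      linarith
  have h2 : wnd (fun m => (aP P m : ℂ) - 1) H v = ((aux_S P N H n m₂ - 1 : ℝ) : ℂ) := by
    have h3 := wnd_one H v hH hHv
    unfold wnd at h3 ⊢
    have h4 : ∑ m ∈ Icc 1 (2 * v), ((aP P m : ℂ) - 1) * (fej H ((m : ℝ) - v) : ℂ) =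
        ∑ m ∈ Icc 1 (2 * v), (aP P m : ℂ) * (fej H ((m : ℝ) - v) : ℂ) -
        ∑ m ∈ Icc 1 (2 * v), (1 : ℂ) * (fej H ((m : ℝ) - v) : ℂ) := by
      rw [← Finset.sum_sub_distrib]
      refine Finset.sum_congr rfl fun m _ => ?_
      ring
    rw [h4, h3, h1]
    push_cast
    rfl
  rw [h2, Complex.norm_real, Real.norm_eq_abs] at hw
  exact hw

/-- comparison of the double sum with the single sum over the good `m₂` -/
private theorem aux_main (P N K H n : ℕ) (η : ℝ) (hη : 0 ≤ η) (hH : 1 ≤ H) (hN : 1 ≤ N)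
    (hK : K = N / P ^ 5) (hP : 1 ≤ P) (hHK : H ≤ K) (hHv : ∀ v, N ≤ v * P ^ 5 → H ≤ v)
    (hw : ∀ v : ℕ, N ≤ v * P ^ 5 → v ≤ N → ‖wnd (fun m => (aP P m : ℂ) - 1) H v‖ ≤ η)
    (hn : n ≤ N) :
    |I0 P N H n - ∑ m ∈ (Icc 1 (2 * N)).filter (fun m => m ≤ n ∧ N ≤ (n - m) * P ^ 5), aP P m| ≤
      η * (4 * N) + 2 * K * Real.log (2 * N) ^ 2 := by
  classical
  have hN' : (1 : ℝ) ≤ N := by exact_mod_cast hN
  have hlog : 0 ≤ Real.log (2 * N) := Real.log_nonneg (by linarith)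
  rw [aux_I0, ← Finset.sum_filter_add_sum_filter_not (Icc 1 (2 * N))
    (fun m => m ≤ n ∧ N ≤ (n - m) * P ^ 5)]
  obtain ⟨A, hA⟩ : ∃ A, A = (Icc 1 (2 * N)).filter (fun m => m ≤ n ∧ N ≤ (n - m) * P ^ 5) :=
    ⟨_, rfl⟩
  obtain ⟨B, hB⟩ : ∃ B, B = (Icc 1 (2 * N)).filter (fun m => ¬ (m ≤ n ∧ N ≤ (n - m) * P ^ 5)) :=
    ⟨_, rfl⟩
  rw [← hA, ← hB]
  have h1 : |∑ m ∈ A, aP P m * aux_S P N H n m - ∑ m ∈ A, aP P m| ≤ η * (4 * N) := by
    rw [← Finset.sum_sub_distrib]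
    refine (Finset.abs_sum_le_sum_abs _ _).trans ?_
    calc ∑ m ∈ A, |aP P m * aux_S P N H n m - aP P m| ≤ ∑ m ∈ A, η * aP P m := by
          refine Finset.sum_le_sum fun m hm => ?_
          rw [hA, mem_filter] at hm
          obtain ⟨hm1, hm2, hm3⟩ := hm
          have h2 : aP P m * aux_S P N H n m - aP P m = aP P m * (aux_S P N H n m - 1) := by ring
          rw [h2, abs_mul, abs_of_nonneg (aux_aP_nonneg P m), mul_comm]
          refine mul_le_mul_of_nonneg_right ?_ (aux_aP_nonneg P m)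
          exact aux_S_wnd P N H n m η hH hm2 hn (hHv _ hm3) (hw _ hm3 (by omega))
      _ = η * ∑ m ∈ A, aP P m := by rw [Finset.mul_sum]
      _ ≤ η * (4 * N) := by
          refine mul_le_mul_of_nonneg_left ?_ hη
          refine (Finset.sum_le_sum_of_subset_of_nonneg ?_
            fun m _ _ => aux_aP_nonneg P m).trans (sum_aP_le P N)
          rw [hA]
          exact filter_subset _ _
  have h3 : ∀ m ∈ B, aP P m * aux_S P N H n m ≤
      if m ∈ Ico (n - K) (n + H) then Real.log (2 * N) ^ 2 else 0 := by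
    intro m hm
    rw [hB, mem_filter] at hm
    by_cases h4 : m < n + H
    · have h5 : m ∈ Ico (n - K) (n + H) := by
        rw [mem_Ico]
        refine ⟨?_, h4⟩
        by_contra h6
        rw [not_le] at h6
        apply hm.2
        refine ⟨by omega, ?_⟩
        have h7 : K + 1 ≤ n - m := by omega
        have h8 : N < (K + 1) * P ^ 5 := by
          rw [hK]
          have h9 : 0 < P ^ 5 := Nat.pow_pos hP
          rw [mul_comm]
          exact Nat.lt_mul_div_succ N h9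
        exact h8.le.trans (Nat.mul_le_mul_right _ h7)
      rw [if_pos h5, pow_two]
      exact mul_le_mul (aux_aP_le P N m hm.1) (aux_S_le P N H n m hH hN) (aux_S_nonneg _ _ _ _ _)
        hlog
    · rw [aux_S_zero P N H n m (not_lt.1 h4), mul_zero]
      split_ifs
      · positivity
      · exact le_rfl
  have h4 : ∑ m ∈ B, aP P m * aux_S P N H n m ≤ 2 * K * Real.log (2 * N) ^ 2 := by
    refine (Finset.sum_le_sum h3).trans ?_
    rw [← Finset.sum_filter, Finset.sum_const, nsmul_eq_mul]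
    refine mul_le_mul_of_nonneg_right ?_ (sq_nonneg _)
    have h5 : (B.filter (fun m => m ∈ Ico (n - K) (n + H))).card ≤ 2 * K := by
      refine (card_le_card (fun m hm => (mem_filter.1 hm).2 : _ ⊆ Ico (n - K) (n + H))).trans ?_
      rw [Nat.card_Ico]
      omega
    exact_mod_cast h5
  have h5 : 0 ≤ ∑ m ∈ B, aP P m * aux_S P N H n m :=
    Finset.sum_nonneg fun m _ => mul_nonneg (aux_aP_nonneg P m) (aux_S_nonneg _ _ _ _ _)
  have h6 := abs_le.1 h1
  rw [abs_le]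
  constructor <;> linarith

/-- comparison of the single sum with the Chebyshev function -/
private theorem aux_theta (P N K n : ℕ) (hN : 1 ≤ N) (hn1 : 1 ≤ n)
    (hK : K = N / P ^ 5) (hP : 1 ≤ P) (hn : n ≤ N) :
    |∑ m ∈ (Icc 1 (2 * N)).filter (fun m => m ≤ n ∧ N ≤ (n - m) * P ^ 5), aP P m -
      ∑ m ∈ Icc 1 n, ArithmeticFunction.vonMangoldt m| ≤
      2 * Real.sqrt N * Real.log (2 * N) + Real.log (2 * N) * (P + K + 1) := by
  classical
  have hN' : (1 : ℝ) ≤ N := by exact_mod_cast hN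
  have hn' : (1 : ℝ) ≤ n := by exact_mod_cast hn1
  have hnN : (n : ℝ) ≤ N := by exact_mod_cast hn
  have hlog : 0 ≤ Real.log (2 * N) := Real.log_nonneg (by linarith)
  obtain ⟨A, hA⟩ : ∃ A, A = (Icc 1 (2 * N)).filter (fun m => m ≤ n ∧ N ≤ (n - m) * P ^ 5) :=
    ⟨_, rfl⟩
  rw [← hA]
  have hAs : A ⊆ Icc 1 n := by
    intro m hm
    rw [hA, mem_filter, mem_Icc] at hm
    rw [mem_Icc]
    omega
  have h1 : ∑ m ∈ A, aP P m = ∑ m ∈ Icc 1 n, if m ∈ A then aP P m else 0 := by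
    rw [← Finset.sum_filter]
    refine Finset.sum_congr ?_ fun _ _ => rfl
    ext m
    rw [mem_filter]
    exact ⟨fun h => ⟨hAs h, h⟩, fun h => h.2⟩
  -- the prime powers
  have h2 : ∑ m ∈ Icc 1 n, ArithmeticFunction.vonMangoldt m -
      ∑ m ∈ Icc 1 n, (if m.Prime then Real.log m else 0) =
      Chebyshev.psi n - Chebyshev.theta n := by
    rw [Chebyshev.psi_sub_theta_eq_sum_not_prime, Finset.sum_filter, Nat.floor_natCast,
      ← Finset.sum_sub_distrib]
    have h3 : Finset.Ioc 0 n = Icc 1 n := by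
      ext m; simp only [mem_Ioc, mem_Icc]; omega
    rw [h3]
    refine Finset.sum_congr rfl fun m _ => ?_
    by_cases hm : m.Prime
    · simp [hm, ArithmeticFunction.vonMangoldt_apply_prime]
    · simp [hm]
  have h3 := abs_le.1 (Chebyshev.abs_psi_sub_theta_le_sqrt_mul_log (x := (n : ℝ)) hn')
  have h4 : 2 * Real.sqrt n * Real.log n ≤ 2 * Real.sqrt N * Real.log (2 * N) := by
    have h5 : Real.sqrt n ≤ Real.sqrt N := Real.sqrt_le_sqrt hnN
    have h6 : Real.log n ≤ Real.log (2 * N) := Real.log_le_log (by linarith) (by linarith)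
    have h7 : 0 ≤ Real.log n := Real.log_nonneg hn'
    exact mul_le_mul (by linarith) h6 h7 (by positivity)
  have h5 : 0 ≤ Chebyshev.psi n - Chebyshev.theta n := by
    rw [← h2, ← Finset.sum_sub_distrib]
    refine Finset.sum_nonneg fun m _ => ?_
    split_ifs with hm
    · rw [ArithmeticFunction.vonMangoldt_apply_prime hm, sub_self]
    · rw [sub_zero]
      exact ArithmeticFunction.vonMangoldt_nonneg
  -- the missing primes
  have h6 : ∀ m ∈ Icc 1 n, (if m.Prime then Real.log m else 0) - (if m ∈ A then aP P m else 0) ≤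
      if m ∈ Icc 1 P ∪ Icc (n - K) n then Real.log (2 * N) else 0 := by
    intro m hm
    rw [mem_Icc] at hm
    have hm1 : (1 : ℝ) ≤ m := by exact_mod_cast hm.1
    have hm2 : (m : ℝ) ≤ n := by exact_mod_cast hm.2
    have hm3 : Real.log m ≤ Real.log (2 * N) := Real.log_le_log (by linarith) (by linarith)
    by_cases h7 : m ∈ Icc 1 P ∪ Icc (n - K) n
    · rw [if_pos h7]
      have h8 : 0 ≤ (if m ∈ A then aP P m else 0) := by
        split_ifs
        · exact aux_aP_nonneg P m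
        · exact le_rfl
      have h9 : (if m.Prime then Real.log m else 0) ≤ Real.log (2 * N) := by
        split_ifs
        · exact hm3
        · exact hlog
      linarith
    · rw [if_neg h7]
      rw [mem_union, not_or, mem_Icc, mem_Icc] at h7
      have h8 : P < m := by omega
      have h9 : K + 1 ≤ n - m := by omega
      have h10 : m ∈ A := by
        rw [hA, mem_filter, mem_Icc]
        refine ⟨⟨hm.1, by omega⟩, hm.2, ?_⟩
        have h11 : N < (K + 1) * P ^ 5 := by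
          rw [hK]
          have h12 : 0 < P ^ 5 := Nat.pow_pos hP
          rw [mul_comm]
          exact Nat.lt_mul_div_succ N h12
        exact h11.le.trans (Nat.mul_le_mul_right _ h9)
      rw [if_pos h10]
      unfold aP
      by_cases h11 : m.Prime
      · rw [if_pos h11, if_pos ⟨h11, h8⟩, sub_self]
      · rw [if_neg h11, if_neg (fun h => h11 h.1), sub_self]
  have h7 : ∑ m ∈ Icc 1 n, (if m.Prime then Real.log m else 0) - ∑ m ∈ A, aP P m ≤
      Real.log (2 * N) * (P + K + 1) := by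
    rw [h1, ← Finset.sum_sub_distrib]
    refine (Finset.sum_le_sum h6).trans ?_
    rw [← Finset.sum_filter, Finset.sum_const, nsmul_eq_mul, mul_comm]
    refine mul_le_mul_of_nonneg_left ?_ hlog
    have h8 : ((Icc 1 n).filter (fun m => m ∈ Icc 1 P ∪ Icc (n - K) n)).card ≤ P + (K + 1) := by
      refine (card_le_card (fun m hm => (mem_filter.1 hm).2 :
        _ ⊆ Icc 1 P ∪ Icc (n - K) n)).trans ((card_union_le _ _).trans ?_)
      rw [Nat.card_Icc, Nat.card_Icc]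
      omega
    have h9 : ((((Icc 1 n).filter (fun m => m ∈ Icc 1 P ∪ Icc (n - K) n)).card : ℕ) : ℝ) ≤
        ((P + (K + 1) : ℕ) : ℝ) := by exact_mod_cast h8
    refine h9.trans (le_of_eq ?_)
    push_cast
    ring
  have h8 : 0 ≤ ∑ m ∈ Icc 1 n, (if m.Prime then Real.log m else 0) - ∑ m ∈ A, aP P m := by
    rw [h1, ← Finset.sum_sub_distrib]
    refine Finset.sum_nonneg fun m hm => ?_
    unfold aP
    have h9 : 0 ≤ Real.log (m : ℝ) := Real.log_natCast_nonneg m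
    by_cases h10 : m ∈ A
    · by_cases h11 : m.Prime
      · by_cases h12 : P < m
        · rw [if_pos h11, if_pos h10, if_pos ⟨h11, h12⟩, sub_self]
        · rw [if_pos h11, if_pos h10, if_neg (fun h => h12 h.2), sub_zero]
          exact h9
      · rw [if_neg h11, if_pos h10, if_neg (fun h => h11 h.1), sub_self]
    · rw [if_neg h10, sub_zero]
      split_ifs
      · exact h9
      · exact le_rfl
  rw [abs_le]
  constructor
  · linarith
  · linarith

private theorem aux_lim (c : ℝ) (hc : 0 < c) : ∀ᶠ N : ℕ in atTop,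
    384 * ((N : ℝ) / Real.log N) + 6 * Real.sqrt N * Real.log N ≤ c * N := by
  have h1 : Tendsto (fun N : ℕ => 384 / Real.log N) atTop (𝓝 0) :=
    (Real.tendsto_log_atTop.comp tendsto_natCast_atTop_atTop).const_div_atTop 384
  have h2 : Tendsto (fun N : ℕ => 6 * Real.sqrt N * Real.log N / (N : ℝ)) atTop (𝓝 0) := by
    have h1 := (isLittleO_log_rpow_atTop (r := 1 / 2) (by norm_num)).tendsto_div_nhds_zero
    have h2 := (h1.comp tendsto_natCast_atTop_atTop).const_mul 6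
    rw [mul_zero] at h2
    refine h2.congr' ?_
    filter_upwards [eventually_ge_atTop 1] with N hN
    have hN' : (0 : ℝ) < N := by exact_mod_cast hN
    rw [Function.comp_apply, ← Real.sqrt_eq_rpow]
    have h3 : 0 < Real.sqrt N := Real.sqrt_pos.2 hN'
    have h4 : Real.sqrt N * Real.sqrt N = N := Real.mul_self_sqrt hN'.le
    rw [← mul_div_assoc, div_eq_div_iff h3.ne' hN'.ne']
    linear_combination (-(6 * Real.log N)) * h4
  filter_upwards [(tendsto_order.1 h1).2 (c / 2) (by linarith),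
    (tendsto_order.1 h2).2 (c / 2) (by linarith), eventually_ge_atTop 1] with N h3 h4 hN
  have hN' : (0 : ℝ) < N := by exact_mod_cast hN
  rw [div_lt_iff₀ hN'] at h4
  have h5 : 384 * ((N : ℝ) / Real.log N) = 384 / Real.log N * N := by ring
  have h6 : 384 / Real.log N * N ≤ c / 2 * N := mul_le_mul_of_nonneg_right h3.le hN'.le
  rw [h5]
  linarith

private theorem aux_P (N P : ℕ) (hN : 3 ≤ N)
    (hP : Real.exp ((Real.log N) ^ (3 / 4 : ℝ)) ≤ P) : 1 ≤ P ∧ (Real.log N) ^ 3 ≤ 24 * P := by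
  have hN' : (3 : ℝ) ≤ N := by exact_mod_cast hN
  have hL : 0 ≤ Real.log N := Real.log_nonneg (by linarith)
  have hx : 0 ≤ (Real.log N) ^ (3 / 4 : ℝ) := by positivity
  constructor
  · have h1 := Real.add_one_le_exp ((Real.log N) ^ (3 / 4 : ℝ))
    have h2 : (1 : ℝ) ≤ P := by linarith
    exact_mod_cast h2
  · have h1 := Real.pow_div_factorial_le_exp _ hx 4
    have h2 : ((Real.log N) ^ (3 / 4 : ℝ)) ^ 4 = (Real.log N) ^ 3 := by
      rw [← Real.rpow_natCast, ← Real.rpow_mul hL, ← Real.rpow_natCast]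
      norm_num
    have h3 : ((Nat.factorial 4 : ℕ) : ℝ) = 24 := by norm_num [Nat.factorial]
    rw [h2, h3, div_le_iff₀ (by norm_num)] at h1
    nlinarith

private theorem aux_err (N P K : ℕ) (hN : 3 ≤ N) (hK : K = N / P ^ 5) (hP : 1 ≤ P)
    (hK1 : 1 ≤ K) (hPN : P ^ 100 ≤ N) (hL3 : (Real.log N) ^ 3 ≤ 24 * P) :
    2 * K * Real.log (2 * N) ^ 2 + (2 * Real.sqrt N * Real.log (2 * N) +
      Real.log (2 * N) * (P + K + 1)) ≤
      384 * ((N : ℝ) / Real.log N) + 6 * Real.sqrt N * Real.log N := by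
  have hN' : (3 : ℝ) ≤ N := by exact_mod_cast hN
  have hN0 : (0 : ℝ) < N := by linarith
  have hP' : (1 : ℝ) ≤ P := by exact_mod_cast hP
  have hK' : (1 : ℝ) ≤ K := by exact_mod_cast hK1
  have hL1 : 1 ≤ Real.log N := by
    rw [Real.le_log_iff_exp_le hN0]
    have := Real.exp_one_lt_d9
    linarith
  obtain ⟨L, hL⟩ : ∃ L, L = Real.log N := ⟨_, rfl⟩
  obtain ⟨l, hl⟩ : ∃ l, l = Real.log (2 * N) := ⟨_, rfl⟩
  have hl2 : l ≤ 2 * L := by
    rw [hl, hL, Real.log_mul (by norm_num) hN0.ne']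
    have : Real.log 2 ≤ Real.log N := Real.log_le_log (by norm_num) (by linarith)
    linarith
  have hl1 : 1 ≤ l := by
    rw [hl]
    exact hL1.trans (Real.log_le_log hN0 (by linarith))
  rw [← hl, ← hL]
  rw [← hL] at hL1 hL3
  -- `K P ≤ N`
  have h1 : (K : ℝ) * P ≤ N := by
    have h2 : K * P ^ 5 ≤ N := by
      rw [hK]
      exact Nat.div_mul_le_self N _
    have h3 : K * P ≤ K * P ^ 5 := Nat.mul_le_mul_left _ (Nat.le_self_pow (by norm_num) P)
    exact_mod_cast h3.trans h2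
  -- `K L ^ 2 ≤ 24 N / L`
  have h2 : (K : ℝ) * L ^ 2 ≤ 24 * (N / L) := by
    rw [← mul_div_assoc, le_div_iff₀ (by linarith)]
    have h3 : (K : ℝ) * L ^ 3 ≤ (K : ℝ) * (24 * (P : ℝ)) :=
      mul_le_mul_of_nonneg_left hL3 (by linarith)
    have h4 : (K : ℝ) * (24 * (P : ℝ)) = 24 * ((K : ℝ) * P) := by ring
    have h5 : (K : ℝ) * L ^ 2 * L = (K : ℝ) * L ^ 3 := by ring
    linarith
  have h3 : (P : ℝ) ≤ Real.sqrt N := by
    apply Real.le_sqrt_of_sq_le
    have h4 : P ^ 2 ≤ N := (Nat.pow_le_pow_right hP (by norm_num)).trans hPN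
    exact_mod_cast h4
  have hs : 0 ≤ Real.sqrt N := Real.sqrt_nonneg _
  have h4 : (K : ℝ) * l ^ 2 ≤ K * (4 * L ^ 2) := by
    refine mul_le_mul_of_nonneg_left ?_ (by linarith)
    nlinarith
  have h5 : l * (K + 1) ≤ 2 * (K * l ^ 2) := by
    have h6 : l ≤ l ^ 2 := by nlinarith
    have h7 : (K : ℝ) + 1 ≤ 2 * K := by linarith
    calc l * (K + 1) ≤ l ^ 2 * (2 * K) := mul_le_mul h6 h7 (by linarith) (by positivity)
      _ = 2 * (K * l ^ 2) := by ring
  have h6 : l * P ≤ 2 * L * Real.sqrt N := mul_le_mul hl2 h3 (by linarith) (by linarith)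
  have h7 : 2 * Real.sqrt N * l ≤ 2 * Real.sqrt N * (2 * L) :=
    mul_le_mul_of_nonneg_left hl2 (by linarith)
  have h8 : l * ((P : ℝ) + K + 1) = l * P + l * (K + 1) := by ring
  rw [h8]
  nlinarith

/-- Proof. As in `II_le_wnd`: `I0 = ∑_{m₂} aP(m₂) (∑_{m₁} aP(m₁) fej(m₁-(n-m₂)))`, the inner sum is `1 + O(η)` for
`N ≤ (n-m₂) P^5` (`wnd_one`), the other `m₂` contribute at most `N/P⁴`, and `∑_{m ≤ n - N/P^5} aP(m) = θ(n) + O(N/P⁴)`, and
`θ(n) ~ n` (`Rob/PsiOne.lean: psi_one`, `ψ - θ = O(√n log n)`). -/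
theorem I0_asym (ε δ : ℝ) (hε : 0 < ε) (hδ : 0 < δ) : ∃ η : ℝ, 0 < η ∧ ∃ N₀ : ℕ, ∀ N P : ℕ, N₀ ≤ N →
    Real.exp ((Real.log N) ^ (3 / 4 : ℝ)) ≤ P → P ^ 100 ≤ N →
    (∀ v : ℕ, N ≤ v * P ^ 5 → v ≤ N → ‖wnd (fun m => (aP P m : ℂ) - 1) (N / P ^ 20) v‖ ≤ η) →
    ∀ n : ℕ, δ * N ≤ n → n ≤ N → |I0 P N (N / P ^ 20) n - n| ≤ ε * n := by
  have hpsi := Rob.psi_one
  have h1 : ∀ᶠ n : ℕ in atTop, |(∑ m ∈ Icc 1 n, ArithmeticFunction.vonMangoldt m) / (n : ℝ) - 1| <
      ε / 4 := by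
    have h2 := Metric.tendsto_nhds.1 hpsi (ε / 4) (by positivity)
    simpa only [Real.dist_eq] using h2
  obtain ⟨n₀, hn₀⟩ := eventually_atTop.1 h1
  obtain ⟨N₁, hN₁⟩ := eventually_atTop.1 (aux_lim (ε * δ / 4) (by positivity))
  refine ⟨ε * δ / 16, by positivity, max (max N₁ 3) ⌈((n₀ : ℝ) + 1) / δ⌉₊, ?_⟩
  intro N P hN hP hPN hw n hn1 hn2
  have hNa : N₁ ≤ N := ((le_max_left _ _).trans (le_max_left _ _)).trans hN
  have hNb : 3 ≤ N := ((le_max_right _ _).trans (le_max_left _ _)).trans hN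
  have hNc : ((n₀ : ℝ) + 1) / δ ≤ N := by
    have h2 : ⌈((n₀ : ℝ) + 1) / δ⌉₊ ≤ N := (le_max_right _ _).trans hN
    exact (Nat.le_ceil _).trans (by exact_mod_cast h2)
  have hN0 : (0 : ℝ) < N := by
    have : (3 : ℝ) ≤ N := by exact_mod_cast hNb
    linarith
  rw [div_le_iff₀ hδ] at hNc
  have hn3 : (n₀ : ℝ) + 1 ≤ n := by
    refine hNc.trans ?_
    rw [mul_comm]
    exact hn1
  have hn4 : n₀ ≤ n := by
    have : (n₀ : ℝ) ≤ n := by linarith
    exact_mod_cast this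
  have hn5 : 1 ≤ n := by
    have h2 : (0 : ℝ) ≤ n₀ := Nat.cast_nonneg _
    have : (1 : ℝ) ≤ n := by linarith
    exact_mod_cast this
  have hn6 : (0 : ℝ) < n := by exact_mod_cast hn5
  obtain ⟨hP1, hL3⟩ := aux_P N P hNb hP
  obtain ⟨K, hK⟩ : ∃ K, K = N / P ^ 5 := ⟨_, rfl⟩
  obtain ⟨H, hH⟩ : ∃ H, H = N / P ^ 20 := ⟨_, rfl⟩
  have hH1 : 1 ≤ H := by
    rw [hH]
    refine Nat.div_pos ((Nat.pow_le_pow_right hP1 (by norm_num)).trans hPN) (Nat.pow_pos hP1)
  have hHK : H ≤ K := by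
    rw [hH, hK]
    exact Nat.div_le_div_left (Nat.pow_le_pow_right hP1 (by norm_num)) (Nat.pow_pos hP1)
  have hHv : ∀ v, N ≤ v * P ^ 5 → H ≤ v := by
    intro v hv
    rw [hH]
    refine Nat.div_le_of_le_mul (hv.trans ?_)
    rw [mul_comm]
    exact Nat.mul_le_mul_right _ (Nat.pow_le_pow_right hP1 (by norm_num))
  rw [← hH] at hw ⊢
  have h2 := aux_main P N K H n (ε * δ / 16) (by positivity) hH1 (by omega) hK hP1 hHK hHv hw hn2
  have h3 := aux_theta P N K n (by omega) hn5 hK hP1 hn2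
  have h4 := aux_err N P K hNb hK hP1 (hH1.trans hHK) hPN hL3
  have h5 := hN₁ N hNa
  have h6 : |(∑ m ∈ Icc 1 n, ArithmeticFunction.vonMangoldt m) - n| ≤ ε / 4 * n := by
    have h7 := (hn₀ n hn4).le
    have h8 : (∑ m ∈ Icc 1 n, ArithmeticFunction.vonMangoldt m) / (n : ℝ) - 1 =
        ((∑ m ∈ Icc 1 n, ArithmeticFunction.vonMangoldt m) - n) / n := by
      field_simp
    rw [h8, abs_div, abs_of_pos hn6, div_le_iff₀ hn6] at h7
    exact h7
  have h7 : ε * δ / 4 * N ≤ ε / 4 * n := by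
    have h8 : ε / 4 * (δ * N) ≤ ε / 4 * n := mul_le_mul_of_nonneg_left hn1 (by positivity)
    linarith
  have h8 : ε * δ / 16 * (4 * N) = ε * δ / 4 * N := by ring
  rw [h8] at h2
  have h9 := abs_le.1 h2
  have h10 := abs_le.1 h3
  have h11 := abs_le.1 h6
  have h12 : 0 ≤ ε * n := by positivity
  rw [abs_le]
  constructor <;> linarith

end Pool.Agent.Lib.MP_629a14_nt.Th
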