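import Pool.Agent.Lib.MP_629a14_nt.Th.Defs

/-! Trivial bounds for `AA`. -/

set_option autoImplicit false

namespace Pool.Agent.Lib.MP_629a14_nt.Th

open Finset

/-- `n^{-17/16} (log n)^k c^{k+1}/k! = n^{-1} P_k(log n)`. -/
theorem Pk_eq (k n : ℕ) (hn : 1 ≤ n) : (1 / 16 : ℝ) ^ (k + 1) / (k.factorial : ℝ) *
    (Real.log n) ^ k * (n : ℝ) ^ (-(17 / 16 : ℝ)) = Pk k (Real.log n) / n := by
  have hn0 : (0 : ℝ) < n := by exact_mod_cast hn
  have h1 : (n : ℝ) ^ (-(17 / 16 : ℝ)) = Real.exp (-(Real.log n / 16)) / n := by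
    rw [Real.rpow_def_of_pos hn0]
    have h2 : Real.log n * (-(17 / 16 : ℝ)) = -(Real.log n / 16) - Real.log n := by ring
    rw [h2, Real.exp_sub, Real.exp_log hn0]
  rw [h1]
  unfold Pk
  ring

/-- The Poisson distribution function. -/
private noncomputable def AAbd_Q (k : ℕ) (y : ℝ) : ℝ :=
  ∑ j ∈ range (k + 1), Real.exp (-(y / 16)) * (y / 16) ^ j / (j.factorial : ℝ)

private theorem AAbd_Q_deriv (k : ℕ) (y : ℝ) : HasDerivAt (AAbd_Q k) (-(Pk k y)) y := by
  induction k with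
  | zero =>
    have h1 : HasDerivAt (fun y : ℝ => Real.exp (-(y / 16)))
        (Real.exp (-(y / 16)) * (-(1 / 16))) y := by
      have h2 : HasDerivAt (fun y : ℝ => -(y / 16)) (-(1 / 16)) y :=
        ((hasDerivAt_id' y).div_const 16).neg
      exact h2.exp
    have h3 : AAbd_Q 0 = fun y : ℝ => Real.exp (-(y / 16)) := by
      funext z
      simp [AAbd_Q]
    rw [h3]
    refine h1.congr_deriv ?_
    unfold Pk
    simp
    ring
  | succ k ih =>
    have h1 : HasDerivAt (fun y : ℝ => Real.exp (-(y / 16)))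
        (Real.exp (-(y / 16)) * (-(1 / 16))) y := by
      have h2 : HasDerivAt (fun y : ℝ => -(y / 16)) (-(1 / 16)) y :=
        ((hasDerivAt_id' y).div_const 16).neg
      exact h2.exp
    have h4 : HasDerivAt (fun y : ℝ => (y / 16) ^ (k + 1))
        (((k + 1 : ℕ) : ℝ) * (y / 16) ^ k * (1 / 16)) y := by
      have := ((hasDerivAt_id' y).div_const 16).fun_pow (k + 1)
      simpa using this
    have h5 := (h1.mul h4).div_const ((k + 1).factorial : ℝ)
    have h6 := ih.add h5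
    have h7 : AAbd_Q (k + 1) = AAbd_Q k + fun y : ℝ =>
        Real.exp (-(y / 16)) * (y / 16) ^ (k + 1) / ((k + 1).factorial : ℝ) := by
      funext z
      unfold AAbd_Q
      rw [sum_range_succ]
      rfl
    rw [h7]
    refine h6.congr_deriv ?_
    unfold Pk
    have hf : (((k + 1).factorial : ℕ) : ℝ) = ((k : ℝ) + 1) * (k.factorial : ℝ) := by
      rw [Nat.factorial_succ]; push_cast; ring
    have hk0 : (k.factorial : ℝ) ≠ 0 := by exact_mod_cast (Nat.factorial_ne_zero k)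
    have hk1 : ((k : ℝ) + 1) ≠ 0 := by positivity
    rw [hf]
    push_cast
    field_simp
    ring

private theorem AAbd_Q_nonneg (k : ℕ) {y : ℝ} (hy : 0 ≤ y) : 0 ≤ AAbd_Q k y := by
  unfold AAbd_Q
  apply sum_nonneg
  intro j _
  positivity

private theorem AAbd_Q_zero (k : ℕ) : AAbd_Q k 0 = 1 := by
  unfold AAbd_Q
  rw [sum_range_succ']
  simp

private theorem AAbd_Pk_nonneg (k : ℕ) {y : ℝ} (hy : 0 ≤ y) : 0 ≤ Pk k y := by
  unfold Pk
  positivity

private theorem AAbd_term (k n : ℕ) (hn : 1 ≤ n) :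
    Pk k (Real.log n) / n ≤ 4 * (AAbd_Q k (Real.log n) - AAbd_Q k (Real.log ((n + 1 : ℕ) : ℝ))) := by
  have hn0 : (0 : ℝ) < n := by exact_mod_cast hn
  have hn1 : (1 : ℝ) ≤ n := by exact_mod_cast hn
  have hlog : 0 ≤ Real.log n := Real.log_nonneg hn1
  have hlt : Real.log n < Real.log ((n + 1 : ℕ) : ℝ) := by
    apply Real.log_lt_log hn0
    push_cast
    linarith
  obtain ⟨ξ, hξ, h1⟩ := exists_hasDerivAt_eq_slope (AAbd_Q k) (fun y => -(Pk k y)) hlt
    (fun y _ => (AAbd_Q_deriv k y).continuousAt.continuousWithinAt)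
    (fun y _ => AAbd_Q_deriv k y)
  have hdiff : 0 < Real.log ((n + 1 : ℕ) : ℝ) - Real.log n := by linarith
  have h2 : AAbd_Q k (Real.log n) - AAbd_Q k (Real.log ((n + 1 : ℕ) : ℝ)) =
      Pk k ξ * (Real.log ((n + 1 : ℕ) : ℝ) - Real.log n) := by
    rw [eq_div_iff hdiff.ne'] at h1
    linarith
  rw [h2]
  -- lower bound for the length
  have h3 : 1 / (2 * (n : ℝ)) ≤ Real.log ((n + 1 : ℕ) : ℝ) - Real.log n := by
    have h4 := Real.one_sub_inv_le_log_of_pos (x := ((n + 1 : ℕ) : ℝ) / n) (by positivity)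
    rw [Real.log_div (by positivity) hn0.ne'] at h4
    have h5 : 1 / (2 * (n : ℝ)) ≤ 1 - (((n + 1 : ℕ) : ℝ) / n)⁻¹ := by
      rw [inv_div]
      push_cast
      have h6 : (1 : ℝ) - n / (n + 1) = 1 / (n + 1) := by field_simp; ring
      rw [h6]
      apply one_div_le_one_div_of_le (by positivity)
      linarith
    linarith
  -- lower bound for the density
  have h7 : Pk k (Real.log n) ≤ 2 * Pk k ξ := by
    unfold Pk
    have hξ0 : Real.log n < ξ := hξ.1
    have hξ1 : ξ < Real.log ((n + 1 : ℕ) : ℝ) := hξ.2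
    have h8 : (Real.log n) ^ k ≤ ξ ^ k := pow_le_pow_left₀ hlog hξ0.le k
    have h9 : Real.exp (-(Real.log n / 16)) ≤ 2 * Real.exp (-(ξ / 16)) := by
      have h10 : ξ - Real.log n ≤ Real.log 2 := by
        have : Real.log ((n + 1 : ℕ) : ℝ) ≤ Real.log (2 * n) := by
          apply Real.log_le_log (by positivity)
          push_cast
          linarith
        rw [Real.log_mul (by norm_num) hn0.ne'] at this
        linarith
      have h11 : Real.exp (-(Real.log n / 16)) =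
          Real.exp ((ξ - Real.log n) / 16) * Real.exp (-(ξ / 16)) := by
        rw [← Real.exp_add]
        congr 1
        ring
      rw [h11]
      apply mul_le_mul_of_nonneg_right _ (Real.exp_pos _).le
      have h12 : (ξ - Real.log n) / 16 ≤ Real.log 2 := by
        have : 0 < Real.log 2 := Real.log_pos (by norm_num)
        linarith
      calc Real.exp ((ξ - Real.log n) / 16) ≤ Real.exp (Real.log 2) := Real.exp_le_exp.mpr h12
        _ = 2 := Real.exp_log (by norm_num)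
    have h13 : (1 / 16 : ℝ) ^ (k + 1) * Real.log n ^ k * Real.exp (-(Real.log n / 16)) ≤
        2 * ((1 / 16 : ℝ) ^ (k + 1) * ξ ^ k * Real.exp (-(ξ / 16))) := by
      have h14 : (1 / 16 : ℝ) ^ (k + 1) * Real.log n ^ k * Real.exp (-(Real.log n / 16)) ≤
          (1 / 16 : ℝ) ^ (k + 1) * ξ ^ k * (2 * Real.exp (-(ξ / 16))) := by
        apply mul_le_mul _ h9 (Real.exp_pos _).le (by have := hlog.trans hξ0.le; positivity)
        exact mul_le_mul_of_nonneg_left h8 (by positivity)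
      linarith
    calc (1 / 16 : ℝ) ^ (k + 1) * Real.log n ^ k * Real.exp (-(Real.log n / 16)) / (k.factorial : ℝ)
        ≤ 2 * ((1 / 16 : ℝ) ^ (k + 1) * ξ ^ k * Real.exp (-(ξ / 16))) / (k.factorial : ℝ) := by
          apply div_le_div_of_nonneg_right h13 (by positivity)
      _ = _ := by ring
  have hξnn : 0 ≤ Pk k ξ := AAbd_Pk_nonneg k (hlog.trans hξ.1.le)
  calc Pk k (Real.log n) / n ≤ 2 * Pk k ξ / n := by
        apply div_le_div_of_nonneg_right h7 hn0.le
    _ = 4 * (Pk k ξ * (1 / (2 * (n : ℝ)))) := by field_simp; ring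
    _ ≤ _ := by
        apply mul_le_mul_of_nonneg_left _ (by norm_num)
        exact mul_le_mul_of_nonneg_left h3 hξnn

private theorem AAbd_sum (k N : ℕ) : ∑ n ∈ range N, Pk k (Real.log n) / n ≤ 4 := by
  have key : ∀ N : ℕ, ∑ n ∈ range (N + 1), Pk k (Real.log n) / n ≤
      4 * (1 - AAbd_Q k (Real.log ((N + 1 : ℕ) : ℝ))) := by
    intro N
    induction N with
    | zero =>
      simp [AAbd_Q_zero]
    | succ N ih =>
      rw [sum_range_succ]
      have := AAbd_term k (N + 1) (by omega)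
      linarith
  rcases N with _ | N
  · simp
  · have h1 := key N
    have h2 : 0 ≤ AAbd_Q k (Real.log ((N + 1 : ℕ) : ℝ)) := by
      apply AAbd_Q_nonneg
      apply Real.log_nonneg
      push_cast
      have : (0 : ℝ) ≤ N := Nat.cast_nonneg N
      linarith
    linarith

private theorem AAbd_mul (k : ℕ) (y : ℝ) : y * Pk k y = 16 * ((k : ℝ) + 1) * Pk (k + 1) y := by
  unfold Pk
  have hf : (((k + 1).factorial : ℕ) : ℝ) = ((k : ℝ) + 1) * (k.factorial : ℝ) := by
    rw [Nat.factorial_succ]; push_cast; ring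
  have hk0 : (k.factorial : ℝ) ≠ 0 := by exact_mod_cast (Nat.factorial_ne_zero k)
  have hk1 : ((k : ℝ) + 1) ≠ 0 := by positivity
  rw [hf]
  field_simp
  ring

private theorem AAbd_partial (a : ℕ → ℂ) (ha : ∀ n : ℕ, 1 ≤ n → ‖a n‖ ≤ Real.log n + 1) (k N : ℕ) :
    ∑ n ∈ range N, ‖a n‖ * (Pk k (Real.log n) / n) ≤ 68 * ((k : ℝ) + 1) := by
  have h1 : ∀ n ∈ range N, ‖a n‖ * (Pk k (Real.log n) / n) ≤
      16 * ((k : ℝ) + 1) * (Pk (k + 1) (Real.log n) / n) + Pk k (Real.log n) / n := by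
    intro n _
    rcases Nat.eq_zero_or_pos n with h | h
    · subst h; simp
    · have hn1 : (1 : ℝ) ≤ n := by exact_mod_cast h
      have hlog : 0 ≤ Real.log n := Real.log_nonneg hn1
      have h2 : 0 ≤ Pk k (Real.log n) / n := div_nonneg (AAbd_Pk_nonneg k hlog) (by linarith)
      calc ‖a n‖ * (Pk k (Real.log n) / n) ≤ (Real.log n + 1) * (Pk k (Real.log n) / n) :=
            mul_le_mul_of_nonneg_right (ha n h) h2
        _ = (Real.log n * Pk k (Real.log n)) / n + Pk k (Real.log n) / n := by ring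
        _ = _ := by rw [AAbd_mul]; ring
  refine (sum_le_sum h1).trans ?_
  rw [sum_add_distrib, ← mul_sum]
  have h3 := AAbd_sum (k + 1) N
  have h4 := AAbd_sum k N
  have h5 : 16 * ((k : ℝ) + 1) * ∑ n ∈ range N, Pk (k + 1) (Real.log n) / n ≤
      16 * ((k : ℝ) + 1) * 4 := mul_le_mul_of_nonneg_left h3 (by positivity)
  have h6 : (0 : ℝ) ≤ k := Nat.cast_nonneg k
  linarith

private theorem AAbd_nonneg (a : ℕ → ℂ) (k n : ℕ) : 0 ≤ ‖a n‖ * (Pk k (Real.log n) / n) := by
  apply mul_nonneg (norm_nonneg _)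
  rcases Nat.eq_zero_or_pos n with h | h
  · subst h; simp
  · have hn1 : (1 : ℝ) ≤ n := by exact_mod_cast h
    exact div_nonneg (AAbd_Pk_nonneg k (Real.log_nonneg hn1)) (by linarith)

theorem AA_summable (a : ℕ → ℂ) (ha : ∀ n : ℕ, 1 ≤ n → ‖a n‖ ≤ Real.log n + 1) (k : ℕ) :
    Summable (fun n : ℕ => ‖a n‖ * (Pk k (Real.log n) / n)) :=
  summable_of_sum_range_le (fun n => AAbd_nonneg a k n) (fun N => AAbd_partial a ha k N)

/-- Compare with `∫ (y+1) P_k(y) dy = 16 (k+1) + 1` (the function `(y+1) P_k(y)` is bounded by an absolute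
constant and unimodal), or use the Taylor coefficients of `ζ` at `17/16`. -/
theorem AA_mass : ∃ C : ℝ, 1 ≤ C ∧ ∀ (a : ℕ → ℂ), (∀ n : ℕ, 1 ≤ n → ‖a n‖ ≤ Real.log n + 1) →
    ∀ k : ℕ, ∑' n : ℕ, ‖a n‖ * (Pk k (Real.log n) / n) ≤ C * (k + 1) := by
  refine ⟨68, by norm_num, ?_⟩
  intro a ha k
  exact Real.tsum_le_of_sum_range_le (fun n => AAbd_nonneg a k n) (fun N => AAbd_partial a ha k N)

/-- `AA` as a series with the weights `P_k(log n)/n`. -/
private theorem AAbd_eq (a : ℕ → ℂ) (k : ℕ) (t : ℝ) : AA a k t =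
    ∑' n : ℕ, a n * ((Pk k (Real.log n) / n : ℝ) : ℂ) * Complex.exp (-(t * Real.log n * Complex.I)) := by
  unfold AA
  rw [← tsum_mul_left]
  apply tsum_congr
  intro n
  rcases Nat.eq_zero_or_pos n with h | h
  · subst h
    have h1 : (-((17 / 16 : ℂ) + t * Complex.I)) ≠ 0 := by
      intro h
      have := congrArg Complex.re h
      simp at this
    have h2 : ((0 : ℕ) : ℂ) ^ (-((17 / 16 : ℂ) + t * Complex.I)) = 0 := by
      rw [Nat.cast_zero, Complex.zero_cpow h1]
    rw [h2]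
    simp
  · have hn0 : (n : ℂ) ≠ 0 := by exact_mod_cast (by omega : n ≠ 0)
    have hnp : (0 : ℝ) < n := by exact_mod_cast h
    rw [← Pk_eq k n h]
    have h1 : (n : ℂ) ^ (-((17 / 16 : ℂ) + t * Complex.I)) =
        (((n : ℝ) ^ (-(17 / 16 : ℝ)) : ℝ) : ℂ) * Complex.exp (-(t * Real.log n * Complex.I)) := by
      rw [Complex.ofReal_cpow hnp.le, neg_add, Complex.cpow_add _ _ hn0, Complex.ofReal_natCast]
      congr 1
      · congr 1
        push_cast
        ring
      · rw [Complex.cpow_def_of_ne_zero hn0]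
        congr 1
        have h2 : Complex.log (n : ℂ) = ((Real.log n : ℝ) : ℂ) := by
          rw [Complex.ofReal_log hnp.le, Complex.ofReal_natCast]
        rw [h2]
        ring
    rw [h1]
    push_cast
    ring

private theorem AAbd_normexp (t x : ℝ) : ‖Complex.exp (-(t * x * Complex.I))‖ = 1 := by
  have h : (-(t * x * Complex.I) : ℂ) = ((-(t * x) : ℝ) : ℂ) * Complex.I := by
    push_cast
    ring
  rw [h, Complex.norm_exp_ofReal_mul_I]

theorem AA_le : ∃ C : ℝ, 1 ≤ C ∧ ∀ (a : ℕ → ℂ), (∀ n : ℕ, 1 ≤ n → ‖a n‖ ≤ Real.log n + 1) →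
    ∀ (k : ℕ) (t : ℝ), ‖AA a k t‖ ≤ C * (k + 1) := by
  obtain ⟨C, hC, h⟩ := AA_mass
  refine ⟨C, hC, ?_⟩
  intro a ha k t
  rw [AAbd_eq]
  have hnorm : ∀ n : ℕ, ‖a n * ((Pk k (Real.log n) / n : ℝ) : ℂ) *
      Complex.exp (-(t * Real.log n * Complex.I))‖ = ‖a n‖ * (Pk k (Real.log n) / n) := by
    intro n
    rw [norm_mul, norm_mul, Complex.norm_real]
    rw [AAbd_normexp, mul_one, Real.norm_eq_abs]
    rcases Nat.eq_zero_or_pos n with h | h
    · subst h; simp
    · have hn1 : (1 : ℝ) ≤ n := by exact_mod_cast h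
      rw [abs_of_nonneg]
      exact div_nonneg (AAbd_Pk_nonneg k (Real.log_nonneg hn1)) (by linarith)
  refine (norm_tsum_le_tsum_norm ?_).trans ?_
  · simp_rw [hnorm]
    exact AA_summable a ha k
  · simp_rw [hnorm]
    exact h a ha k

/-- `AA` as a series with the weights `P_k(log n)/n`. -/
theorem AA_eq (a : ℕ → ℂ) (k : ℕ) (t : ℝ) : AA a k t =
    ∑' n : ℕ, a n * ((Pk k (Real.log n) / n : ℝ) : ℂ) * Complex.exp (-(t * Real.log n * Complex.I)) :=
  AAbd_eq a k t

theorem AA_continuous (a : ℕ → ℂ) (ha : ∀ n : ℕ, 1 ≤ n → ‖a n‖ ≤ Real.log n + 1) (k : ℕ) :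
    Continuous (fun t : ℝ => AA a k t) := by
  have h1 : (fun t : ℝ => AA a k t) = fun t : ℝ =>
      ∑' n : ℕ, a n * ((Pk k (Real.log n) / n : ℝ) : ℂ) *
        Complex.exp (-(t * Real.log n * Complex.I)) := by
    funext t
    exact AAbd_eq a k t
  rw [h1]
  refine continuous_tsum ?_ (AA_summable a ha k) ?_
  · intro n
    fun_prop
  · intro n t
    rw [norm_mul, norm_mul, Complex.norm_real]
    rw [AAbd_normexp, mul_one, Real.norm_eq_abs]
    rcases Nat.eq_zero_or_pos n with h | h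
    · subst h; simp
    · have hn1 : (1 : ℝ) ≤ n := by exact_mod_cast h
      rw [abs_of_nonneg]
      exact div_nonneg (AAbd_Pk_nonneg k (Real.log_nonneg hn1)) (by linarith)

end Pool.Agent.Lib.MP_629a14_nt.Th
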