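import Pool.Agent.Lib.MP_629a14_nt.Th.Zpart

/-! Finiteness of the zero sets; membership lemmas. -/

set_option autoImplicit false

namespace Pool.Agent.Lib.MP_629a14_nt.Th

open Finset

theorem LL_mk (q : ℕ) [NeZero q] (χ : DirichletCharacter ℂ q) : LL ⟨q, χ⟩ = χ.LFunction := by
  funext s
  unfold LL
  rw [dif_neg (NeZero.ne q)]

theorem mem_PR (q : ℕ) [NeZero q] (χ : DirichletCharacter ℂ q) : χ ∈ PR q ↔ χ.IsPrimitive := by
  classical
  unfold PR
  rw [dif_neg (NeZero.ne q), Finset.mem_filter]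
  exact ⟨fun h => h.2, fun h => ⟨Finset.mem_univ _, h⟩⟩

theorem mem_prims (P : ℕ) (x : CH) : x ∈ prims P ↔ 1 ≤ x.1 ∧ x.1 ≤ P ∧ x.2.IsPrimitive := by
  unfold prims
  rw [Finset.mem_sigma, Finset.mem_Icc, and_assoc]
  refine and_congr_right fun h1 => and_congr_right fun _ => ?_
  have : NeZero x.1 := ⟨by omega⟩
  exact mem_PR x.1 x.2

theorem card_prims_le (P : ℕ) : (prims P).card ≤ P ^ 2 := by
  unfold prims
  rw [Finset.card_sigma]
  have h : ∀ q ∈ Icc 1 P, (PR q).card ≤ P := by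
    intro q hq
    obtain ⟨h1, h2⟩ := Finset.mem_Icc.1 hq
    have : NeZero q := ⟨by omega⟩
    classical
    unfold PR
    rw [dif_neg (NeZero.ne q)]
    refine (Finset.card_filter_le _ _).trans ?_
    rw [Finset.card_univ, ← Nat.card_eq_fintype_card,
      DirichletCharacter.card_eq_totient_of_hasEnoughRootsOfUnity]
    exact (Nat.totient_le q).trans h2
  refine (Finset.sum_le_card_nsmul _ _ _ h).trans ?_
  rw [Nat.card_Icc, smul_eq_mul]
  simp [sq]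

/-- A primitive character different from `ch1` is not trivial. -/
theorem prims_ne_one (P : ℕ) (x : CH) (hx : x ∈ prims P) (h1 : x ≠ ch1) : x.2 ≠ 1 := by
  obtain ⟨q, χ⟩ := x
  obtain ⟨h2, _, h4⟩ := (mem_prims P _).1 hx
  simp only at h2 h4 ⊢
  have : NeZero q := ⟨by omega⟩
  intro hχ
  rw [hχ] at h1 h4
  have h5 : (1 : DirichletCharacter ℂ q).conductor = q := h4
  rw [DirichletCharacter.conductor_one] at h5
  subst h5
  exact h1 rfl

private theorem Fin_fin {f : ℂ → ℂ} (hf : Differentiable ℂ f) (h0 : ∀ s : ℂ, 1 ≤ s.re → f s ≠ 0)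
    (σ T : ℝ) : (zset f σ T).Finite := by
  by_contra hinf
  have hsub : zset f σ T ⊆ (Set.Icc σ 1) ×ℂ (Set.Icc (-T) T) := by
    rintro ρ ⟨h1, h2, h3⟩
    rw [Complex.mem_reProdIm]
    refine ⟨⟨h2, ?_⟩, abs_le.1 h3⟩
    by_contra h4
    exact h0 ρ (not_le.1 h4).le h1
  have hK : IsCompact ((Set.Icc σ 1) ×ℂ (Set.Icc (-T) T)) :=
    isCompact_Icc.reProdIm isCompact_Icc
  obtain ⟨z, _, hz⟩ := Set.Infinite.exists_accPt_of_subset_isCompact hinf hK hsub
  rw [accPt_iff_frequently_nhdsNE] at hz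
  have ha : AnalyticOnNhd ℂ f Set.univ := fun w _ => hf.analyticAt w
  have hb : AnalyticOnNhd ℂ (fun _ : ℂ => (0 : ℂ)) Set.univ := fun w _ => analyticAt_const
  have := AnalyticOnNhd.eq_of_frequently_eq ha hb (hz.mono fun w hw => hw.1)
  exact h0 1 (by simp) (congrFun this 1)

private theorem Fin_mul {f : ℂ → ℂ} (hf : Differentiable ℂ f) (h0 : ∀ s : ℂ, 1 ≤ s.re → f s ≠ 0)
    (ρ : ℂ) (h : f ρ = 0) : 1 ≤ mul f ρ := by
  have ha : AnalyticOnNhd ℂ f Set.univ := fun w _ => hf.analyticAt w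
  have hb : AnalyticOnNhd ℂ (fun _ : ℂ => (0 : ℂ)) Set.univ := fun w _ => analyticAt_const
  have h1 : analyticOrderAt f ρ ≠ 0 := analyticOrderAt_ne_zero.2 ⟨hf.analyticAt ρ, h⟩
  have h2 : analyticOrderAt f ρ ≠ ⊤ := by
    intro h3
    rw [analyticOrderAt_eq_top] at h3
    have := AnalyticOnNhd.eq_of_eventuallyEq ha hb h3
    exact h0 1 (by simp) (congrFun this 1)
  unfold mul
  have h3 : analyticOrderNatAt f ρ ≠ 0 := by
    intro h4
    apply h1
    rw [← Nat.cast_analyticOrderNatAt h2, h4]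
    rfl
  exact_mod_cast Nat.one_le_iff_ne_zero.2 h3

/-- `LFunction χ` is entire, not identically zero and has no zeros in `Re s ≥ 1`. -/
theorem zset_finite_chi (q : ℕ) [NeZero q] (χ : DirichletCharacter ℂ q) (hχ : χ ≠ 1) (σ T : ℝ) :
    (zset χ.LFunction σ T).Finite :=
  Fin_fin (DirichletCharacter.differentiable_LFunction hχ)
    (fun _ hs => DirichletCharacter.LFunction_ne_zero_of_one_le_re χ (.inl hχ) hs) σ T

theorem zset_finite_zt (σ T : ℝ) : (zset zt σ T).Finite :=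
  Fin_fin zt_differentiable zt_ne_zero σ T

theorem mem_ZF_chi (q : ℕ) [NeZero q] (χ : DirichletCharacter ℂ q) (hχ : χ ≠ 1) (σ T : ℝ) (ρ : ℂ) :
    ρ ∈ ZF χ.LFunction σ T ↔ χ.LFunction ρ = 0 ∧ σ ≤ ρ.re ∧ |ρ.im| ≤ T := by
  unfold ZF
  rw [dif_pos (zset_finite_chi q χ hχ σ T), Set.Finite.mem_toFinset]
  rfl

theorem mem_ZF_zt (σ T : ℝ) (ρ : ℂ) : ρ ∈ ZF zt σ T ↔ zt ρ = 0 ∧ σ ≤ ρ.re ∧ |ρ.im| ≤ T := by
  unfold ZF
  rw [dif_pos (zset_finite_zt σ T), Set.Finite.mem_toFinset]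
  rfl

theorem re_lt_one_chi (q : ℕ) [NeZero q] (χ : DirichletCharacter ℂ q) (hχ : χ ≠ 1) (ρ : ℂ)
    (h : χ.LFunction ρ = 0) : ρ.re < 1 := by
  by_contra h1
  exact DirichletCharacter.LFunction_ne_zero_of_one_le_re χ (.inl hχ) (not_lt.1 h1) h

theorem re_lt_one_zt (ρ : ℂ) (h : zt ρ = 0) : ρ.re < 1 := by
  by_contra h1
  exact zt_ne_zero ρ (not_lt.1 h1) h

theorem one_le_mul_chi (q : ℕ) [NeZero q] (χ : DirichletCharacter ℂ q) (hχ : χ ≠ 1) (ρ : ℂ)
    (h : χ.LFunction ρ = 0) : 1 ≤ mul χ.LFunction ρ :=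
  Fin_mul (DirichletCharacter.differentiable_LFunction hχ)
    (fun _ hs => DirichletCharacter.LFunction_ne_zero_of_one_le_re χ (.inl hχ) hs) ρ h

theorem one_le_mul_zt (ρ : ℂ) (h : zt ρ = 0) : 1 ≤ mul zt ρ :=
  Fin_mul zt_differentiable zt_ne_zero ρ h

end Pool.Agent.Lib.MP_629a14_nt.Th
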