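import Pool.Agent.Lib.MP_629a14_nt.Th.Defs

/-! Window averages: basic facts, passage from `Λ` to the primes. -/

set_option autoImplicit false

namespace Pool.Agent.Lib.MP_629a14_nt.Th

open Finset

theorem fej_nonneg (H : ℕ) (x : ℝ) : 0 ≤ fej H x := by
  unfold fej
  exact div_nonneg (le_max_left _ _) (sq_nonneg _)

theorem fej_le (H : ℕ) (x : ℝ) : fej H x ≤ 1 / H := by
  unfold fej
  rcases Nat.eq_zero_or_pos H with h | h
  · subst h; simp
  · have h1 : (0 : ℝ) < H := by exact_mod_cast h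
    rw [div_le_div_iff₀ (by positivity) h1]
    have h2 : max 0 ((H : ℝ) - |x|) ≤ H := max_le h1.le (by linarith [abs_nonneg x])
    nlinarith

theorem fej_zero (H : ℕ) (x : ℝ) (hx : (H : ℝ) ≤ |x|) : fej H x = 0 := by
  unfold fej
  rw [max_eq_left (by linarith), zero_div]

theorem fej_even (H : ℕ) (x : ℝ) : fej H (-x) = fej H x := by
  unfold fej
  rw [abs_neg]

private lemma WLam_tri (v : ℕ) : ∀ H : ℕ, H ≤ v →
    ∑ m ∈ Icc 1 (2 * v), max 0 ((H : ℝ) - |(m : ℝ) - v|) = (H : ℝ) ^ 2 := by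
  intro H
  induction H with
  | zero =>
    intro _
    rw [Finset.sum_eq_zero]
    · simp
    · intro m _
      rw [max_eq_left]
      simp
  | succ H ih =>
    intro hH
    have ih' := ih (by omega)
    have h1 : ∀ m ∈ Icc 1 (2 * v), max 0 (((H + 1 : ℕ) : ℝ) - |(m : ℝ) - v|) =
        max 0 ((H : ℝ) - |(m : ℝ) - v|) + (if m ∈ Icc (v - H) (v + H) then (1 : ℝ) else 0) := by
      intro m _
      have hk : |(m : ℝ) - v| = ((((m : ℤ) - v).natAbs : ℕ) : ℝ) := by
        rw [← Int.cast_natCast (R := ℝ) (((m : ℤ) - v).natAbs), Int.natCast_natAbs, Int.cast_abs]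
        push_cast
        rfl
      by_cases hm : m ∈ Icc (v - H) (v + H)
      · rw [if_pos hm, hk]
        rw [mem_Icc] at hm
        have h2 : ((m : ℤ) - v).natAbs ≤ H := by omega
        have h3 : ((((m : ℤ) - v).natAbs : ℕ) : ℝ) ≤ H := by exact_mod_cast h2
        rw [max_eq_right (by push_cast; linarith), max_eq_right (by linarith)]
        push_cast
        ring
      · rw [if_neg hm, hk, add_zero]
        rw [mem_Icc] at hm
        have h2 : H + 1 ≤ ((m : ℤ) - v).natAbs := by omega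
        have h3 : ((H + 1 : ℕ) : ℝ) ≤ ((((m : ℤ) - v).natAbs : ℕ) : ℝ) := by exact_mod_cast h2
        have h4 : ((H : ℕ) : ℝ) ≤ ((((m : ℤ) - v).natAbs : ℕ) : ℝ) := by
          push_cast at h3
          linarith
        rw [max_eq_left (by linarith), max_eq_left (by linarith)]
    rw [Finset.sum_congr rfl h1, Finset.sum_add_distrib, ih', Finset.sum_ite_mem,
      Finset.inter_eq_right.mpr]
    · rw [Finset.sum_const, Nat.card_Icc, nsmul_eq_mul, mul_one]
      have h5 : v + H + 1 - (v - H) = 2 * H + 1 := by omega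
      rw [h5]
      push_cast
      ring
    · intro m hm
      rw [mem_Icc] at hm ⊢
      omega

/-- Total mass one. -/
theorem fej_sum (H v : ℕ) (hH : 1 ≤ H) (hv : H ≤ v) :
    ∑ m ∈ Icc 1 (2 * v), fej H ((m : ℝ) - v) = 1 := by
  have h1 := WLam_tri v H hv
  have h2 : (0 : ℝ) < H := by exact_mod_cast hH
  unfold fej
  rw [← Finset.sum_div, h1]
  exact div_self (by positivity)

theorem wnd_one (H v : ℕ) (hH : 1 ≤ H) (hv : H ≤ v) : wnd (fun _ => 1) H v = 1 := by
  unfold wnd
  simp only [one_mul]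
  rw [← Complex.ofReal_sum, fej_sum H v hH hv, Complex.ofReal_one]

private lemma WLam_npr (v : ℕ) (hv : 2 ≤ v) :
    ∑ m ∈ Icc 1 (2 * v), (if m.Prime then 0 else ArithmeticFunction.vonMangoldt m) ≤
      16 * (Real.sqrt v * (Real.log v) ^ 2) := by
  have hv' : (2 : ℝ) ≤ v := by exact_mod_cast hv
  have h0 : ∑ m ∈ Icc 1 (2 * v), (if m.Prime then 0 else ArithmeticFunction.vonMangoldt m) =
      Chebyshev.psi (2 * v) - Chebyshev.theta (2 * v) := by
    rw [Chebyshev.psi_sub_theta_eq_sum_not_prime, Finset.sum_filter]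
    have h1 : ⌊(2 * (v : ℝ))⌋₊ = 2 * v := by
      have : (2 * (v : ℝ)) = ((2 * v : ℕ) : ℝ) := by push_cast; ring
      rw [this, Nat.floor_natCast]
    rw [h1]
    have h2 : Finset.Ioc 0 (2 * v) = Icc 1 (2 * v) := by
      ext m; simp only [mem_Ioc, mem_Icc]; omega
    rw [h2]
    refine Finset.sum_congr rfl fun m _ => ?_
    by_cases hm : m.Prime <;> simp [hm]
  rw [h0]
  have h1 := (abs_le.1 (Chebyshev.abs_psi_sub_theta_le_sqrt_mul_log (x := 2 * (v : ℝ))
    (by linarith))).2
  refine h1.trans ?_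
  have h2 : Real.sqrt (2 * v) ≤ 2 * Real.sqrt v := by
    rw [Real.sqrt_le_left (by positivity), mul_pow, Real.sq_sqrt (by linarith)]
    linarith
  have h3 : Real.log (2 * v) ≤ 2 * Real.log v := by
    rw [Real.log_mul (by norm_num) (by linarith)]
    have : Real.log 2 ≤ Real.log v := Real.log_le_log (by norm_num) hv'
    linarith
  have h4 : (1 / 2 : ℝ) ≤ Real.log v := by
    have h5 : Real.log 2 ≤ Real.log v := Real.log_le_log (by norm_num) hv'
    have h6 := Real.log_two_gt_d9
    linarith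
  have h5 : Real.log v ≤ 2 * (Real.log v) ^ 2 := by nlinarith
  have h6 : 0 ≤ Real.log (2 * v) := Real.log_nonneg (by linarith)
  have h7 : 0 ≤ Real.sqrt v := Real.sqrt_nonneg _
  calc 2 * Real.sqrt (2 * v) * Real.log (2 * v) ≤ 2 * (2 * Real.sqrt v) * (2 * Real.log v) := by
        apply mul_le_mul _ h3 h6 (by positivity)
        linarith
    _ = 8 * Real.sqrt v * Real.log v := by ring
    _ ≤ 8 * Real.sqrt v * (2 * (Real.log v) ^ 2) := by
        apply mul_le_mul_of_nonneg_left h5 (by positivity)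
    _ = 16 * (Real.sqrt v * (Real.log v) ^ 2) := by ring

/-- The window contains no `m ≤ P`, `0 ≤ Λ(m) - aP P m` otherwise, and
`∑_{m ≤ 2v} (Λ(m) - [m prime] log m) = ψ(2v) - θ(2v) ≤ C √v log v` (Mathlib `Chebyshev`; or count prime
powers), while `fej ≤ 1/H`. -/
theorem wnd_prime : ∃ C : ℝ, 1 ≤ C ∧ ∀ (P H v : ℕ) (g : ℕ → ℂ), 1 ≤ H → P + H ≤ v → 2 ≤ v →
    (∀ m, ‖g m‖ ≤ 1) →
    ‖wnd (fun m => (ArithmeticFunction.vonMangoldt m : ℂ) * g m) H v - wnd (fun m => (aP P m : ℂ) * g m) H v‖ ≤
      C * Real.sqrt v * (Real.log v) ^ 2 / H := by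
  refine ⟨16, by norm_num, fun P H v g hH hPv hv hg => ?_⟩
  have hHr : (0 : ℝ) < H := by exact_mod_cast hH
  unfold wnd
  rw [← Finset.sum_sub_distrib]
  have h1 : ∀ m ∈ Icc 1 (2 * v),
      ‖(ArithmeticFunction.vonMangoldt m : ℂ) * g m * (fej H ((m : ℝ) - v) : ℂ) -
        (aP P m : ℂ) * g m * (fej H ((m : ℝ) - v) : ℂ)‖ ≤
      (if m.Prime then 0 else ArithmeticFunction.vonMangoldt m) * (1 / H) := by
    intro m hm
    rw [mem_Icc] at hm
    have hvM : 0 ≤ ArithmeticFunction.vonMangoldt m := ArithmeticFunction.vonMangoldt_nonneg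
    by_cases hz : (H : ℝ) ≤ |(m : ℝ) - v|
    · rw [fej_zero H _ hz]
      simp only [Complex.ofReal_zero, mul_zero, sub_zero, norm_zero]
      split_ifs
      · simp
      · positivity
    · have hPm : P < m := by
        by_contra hcon
        apply hz
        have h2 : m + H ≤ v := by omega
        have h3 : (m : ℝ) + H ≤ v := by exact_mod_cast h2
        rw [abs_sub_comm, abs_of_nonneg (by linarith)]
        linarith
      have h2 : (ArithmeticFunction.vonMangoldt m : ℂ) * g m * (fej H ((m : ℝ) - v) : ℂ) -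
          (aP P m : ℂ) * g m * (fej H ((m : ℝ) - v) : ℂ) =
          (((if m.Prime then 0 else ArithmeticFunction.vonMangoldt m : ℝ)) : ℂ) * g m *
            (fej H ((m : ℝ) - v) : ℂ) := by
        by_cases hp : m.Prime
        · rw [if_pos hp, aP, if_pos ⟨hp, hPm⟩, ArithmeticFunction.vonMangoldt_apply_prime hp]
          simp
        · rw [if_neg hp, aP, if_neg (fun h => hp h.1)]
          simp
      rw [h2, norm_mul, norm_mul, Complex.norm_real, Complex.norm_real,
        Real.norm_of_nonneg (fej_nonneg H _)]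
      have h3 : 0 ≤ (if m.Prime then 0 else ArithmeticFunction.vonMangoldt m : ℝ) := by
        split_ifs
        · exact le_rfl
        · exact hvM
      rw [Real.norm_of_nonneg h3]
      have h4 := fej_le H ((m : ℝ) - v)
      have h5 := fej_nonneg H ((m : ℝ) - v)
      calc (if m.Prime then 0 else ArithmeticFunction.vonMangoldt m : ℝ) * ‖g m‖ *
            fej H ((m : ℝ) - v)
          ≤ (if m.Prime then 0 else ArithmeticFunction.vonMangoldt m : ℝ) * 1 * (1 / H) := by
            apply mul_le_mul _ h4 h5 (by positivity)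
            exact mul_le_mul_of_nonneg_left (hg m) h3
        _ = _ := by rw [mul_one]
  refine (norm_sum_le_of_le _ h1).trans ?_
  rw [← Finset.sum_mul, mul_one_div]
  refine div_le_div_of_nonneg_right ?_ hHr.le
  refine (WLam_npr v hv).trans (le_of_eq ?_)
  ring

end Pool.Agent.Lib.MP_629a14_nt.Th
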