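import Pool.Agent.Lib.MP_629a14_nt.Th.Defs
import Pool.Agent.Lib.MP_629a14_nt.En.Sing

/-! From the weighted to the unweighted number of representations. -/

set_option autoImplicit false

namespace Pool.Agent.Lib.MP_629a14_nt.Th

open Finset Pool.Agent.Lib.MP_629a14_nt

private theorem R2conv_aP_nonneg (P m : ℕ) : 0 ≤ aP P m := by
  unfold aP
  split_ifs
  · exact Real.log_natCast_nonneg m
  · exact le_rfl

private theorem R2conv_upper (P n : ℕ) : RR P n ≤ (Real.log n) ^ 2 * En.r2 n := by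
  unfold RR
  have h1 : ∀ m ∈ Ico 1 n, aP P m * aP P (n - m) ≤
      if m.Prime ∧ (n - m).Prime then (Real.log n) ^ 2 else 0 := by
    intro m hm
    rw [mem_Ico] at hm
    by_cases h : m.Prime ∧ (n - m).Prime
    · rw [if_pos h]
      have hl : ∀ k : ℕ, k.Prime → k ≤ n → aP P k ≤ Real.log n := by
        intro k hk hkn
        have hk0 : (0 : ℝ) < k := by exact_mod_cast hk.pos
        have h2 := Real.log_le_log hk0 (by exact_mod_cast hkn : (k : ℝ) ≤ n)
        unfold aP
        split_ifs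
        · exact h2
        · exact Real.log_natCast_nonneg n
      have h2 := hl m h.1 (by omega)
      have h3 := hl (n - m) h.2 (by omega)
      rw [pow_two]
      exact mul_le_mul h2 h3 (R2conv_aP_nonneg _ _) (Real.log_natCast_nonneg n)
    · rw [if_neg h]
      unfold aP
      rw [not_and_or] at h
      rcases h with h | h
      · rw [if_neg (by tauto), zero_mul]
      · rw [if_neg (show ¬ ((n - m).Prime ∧ P < n - m) by tauto), mul_zero]
  refine (Finset.sum_le_sum h1).trans ?_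
  rw [← Finset.sum_filter, Finset.sum_const, nsmul_eq_mul, mul_comm]
  refine mul_le_mul_of_nonneg_left ?_ (sq_nonneg _)
  unfold En.r2
  have : ((Ico 1 n).filter (fun m => m.Prime ∧ (n - m).Prime)).card ≤
      ((range (n + 1)).filter (fun p => p.Prime ∧ (n - p).Prime)).card := by
    refine Finset.card_le_card (Finset.filter_subset_filter _ ?_)
    intro m hm
    rw [mem_Ico] at hm
    rw [mem_range]
    omega
  exact_mod_cast this

private theorem R2conv_lower (P n : ℕ) (η : ℝ) (hη1 : η ≤ 1) (hn : 1 ≤ n)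
    (hP : (P : ℝ) < (n : ℝ) ^ (1 - η)) :
    ((1 - η) * Real.log n) ^ 2 * ((En.r2 n : ℝ) - 2 * ((n : ℝ) ^ (1 - η) + 1)) ≤ RR P n := by
  have hn0 : (0 : ℝ) < n := by exact_mod_cast hn
  set y : ℝ := (n : ℝ) ^ (1 - η) with hy
  have hy0 : 0 < y := Real.rpow_pos_of_pos hn0 _
  set K : ℕ := ⌊y⌋₊ with hK
  have hKy : (K : ℝ) ≤ y := Nat.floor_le hy0.le
  have hlog : Real.log y = (1 - η) * Real.log n := Real.log_rpow hn0 _
  have hln : 0 ≤ Real.log n := Real.log_natCast_nonneg n
  set T := (range (n + 1)).filter (fun p => p.Prime ∧ (n - p).Prime) with hT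
  set T1 := T.filter (fun m => K < m ∧ K < n - m) with hT1
  have hcard : T.card ≤ T1.card + (K + 1) + (K + 1) := by
    have hsub : T ⊆ T1 ∪ range (K + 1) ∪ Icc (n - K) n := by
      intro m hm
      by_cases h : K < m ∧ K < n - m
      · exact mem_union_left _ (mem_union_left _ (mem_filter.2 ⟨hm, h⟩))
      · rw [not_and_or] at h
        have hmn : m < n + 1 := mem_range.1 (mem_filter.1 hm).1
        rcases h with h | h
        · exact mem_union_left _ (mem_union_right _ (mem_range.2 (by omega)))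
        · exact mem_union_right _ (mem_Icc.2 ⟨by omega, by omega⟩)
    refine (Finset.card_le_card hsub).trans ?_
    refine (Finset.card_union_le _ _).trans ?_
    refine Nat.add_le_add ((Finset.card_union_le _ _).trans ?_) ?_
    · rw [card_range]
    · rw [Nat.card_Icc]
      omega
  have hcard' : (En.r2 n : ℝ) - 2 * (y + 1) ≤ T1.card := by
    have h1 : (T.card : ℝ) ≤ T1.card + (K + 1) + (K + 1) := by exact_mod_cast hcard
    have h2 : (En.r2 n : ℝ) = T.card := rfl
    rw [h2]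
    linarith
  have hsum : (T1.card : ℝ) * ((1 - η) * Real.log n) ^ 2 ≤ RR P n := by
    unfold RR
    have hsub : T1 ⊆ Ico 1 n := by
      intro m hm
      rw [hT1, mem_filter, hT, mem_filter] at hm
      rw [mem_Ico]
      omega
    refine le_trans ?_ (Finset.sum_le_sum_of_subset_of_nonneg hsub
      (fun m _ _ => mul_nonneg (R2conv_aP_nonneg P m) (R2conv_aP_nonneg P (n - m))))
    rw [← nsmul_eq_mul, ← Finset.sum_const]
    refine Finset.sum_le_sum fun m hm => ?_
    rw [hT1, mem_filter, hT, mem_filter] at hm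
    obtain ⟨⟨-, h1, h2⟩, h3, h4⟩ := hm
    have key : ∀ k : ℕ, k.Prime → K < k → (1 - η) * Real.log n ≤ aP P k := by
      intro k hk hKk
      have h5 : y < k := by
        have := Nat.lt_floor_add_one y
        have h6 : ((K + 1 : ℕ) : ℝ) ≤ k := by exact_mod_cast hKk
        push_cast at h6
        exact lt_of_lt_of_le this h6
      have h7 : P < k := by exact_mod_cast (hP.trans h5)
      unfold aP
      rw [if_pos ⟨hk, h7⟩, ← hlog]
      exact Real.log_le_log hy0 h5.le
    have h0 : 0 ≤ (1 - η) * Real.log n := mul_nonneg (by linarith) hln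
    rw [pow_two]
    exact mul_le_mul (key m h1 h3) (key (n - m) h2 h4) h0 (R2conv_aP_nonneg _ _)
  refine le_trans ?_ hsum
  rw [mul_comm]
  exact mul_le_mul_of_nonneg_right hcard' (sq_nonneg _)

private theorem R2conv_large (η c : ℝ) (hη : 0 < η) (hη1 : η ≤ 1) (hc : 0 < c) :
    ∃ M : ℝ, 2 ≤ M ∧ ∀ x : ℝ, M ≤ x →
      (Real.log x) ^ 2 * (2 * (x ^ (1 - η) + 1)) ≤ c * x := by
  have h1 := (tendsto_rpow_atTop (show 0 < η / 2 by linarith)).eventually
    (Filter.eventually_ge_atTop (64 / (η ^ 2 * c)))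
  obtain ⟨M, hM⟩ := Filter.eventually_atTop.1 h1
  refine ⟨max M 2, le_max_right _ _, fun x hx => ?_⟩
  have hxM : M ≤ x := (le_max_left _ _).trans hx
  have hx2 : 2 ≤ x := (le_max_right _ _).trans hx
  have hx0 : 0 < x := by linarith
  have h2 := hM x hxM
  have h3 := Real.log_le_rpow_div hx0.le (show 0 < η / 4 by linarith)
  have hl : 0 ≤ Real.log x := Real.log_nonneg (by linarith)
  have h4 : (Real.log x) ^ 2 ≤ 16 / η ^ 2 * x ^ (η / 2) := by
    have h5 : (Real.log x) ^ 2 ≤ (x ^ (η / 4) / (η / 4)) ^ 2 := pow_le_pow_left₀ hl h3 2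
    refine h5.trans (le_of_eq ?_)
    have h6 : x ^ (η / 2) = (x ^ (η / 4)) ^ 2 := by
      rw [← Real.rpow_natCast, ← Real.rpow_mul hx0.le]
      congr 1
      push_cast
      ring
    rw [h6]
    field_simp
    norm_num
  have h7 : 1 ≤ x ^ (1 - η) := Real.one_le_rpow (by linarith) (by linarith)
  have h8 : 2 * (x ^ (1 - η) + 1) ≤ 4 * x ^ (1 - η) := by linarith
  have hp : 0 < x ^ (1 - η) := by linarith
  calc (Real.log x) ^ 2 * (2 * (x ^ (1 - η) + 1))
      ≤ (16 / η ^ 2 * x ^ (η / 2)) * (4 * x ^ (1 - η)) :=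
        mul_le_mul h4 h8 (by positivity) (by positivity)
    _ = 64 / η ^ 2 * (x ^ (η / 2) * x ^ (1 - η)) := by ring
    _ ≤ 64 / η ^ 2 * (x ^ (η / 2) * x ^ (1 - η) * (c * η ^ 2 / 64 * x ^ (η / 2))) := by
        have h9 : 1 ≤ c * η ^ 2 / 64 * x ^ (η / 2) := by
          rw [div_le_iff₀ (by positivity)] at h2
          have e : c * η ^ 2 / 64 * x ^ (η / 2) = (x ^ (η / 2) * (η ^ 2 * c)) / 64 := by ring
          rw [e, le_div_iff₀ (by norm_num)]
          linarith
        refine mul_le_mul_of_nonneg_left ?_ (by positivity)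
        exact le_mul_of_one_le_right (by positivity) h9
    _ = c * (x ^ (η / 2) * x ^ (η / 2) * x ^ (1 - η)) := by
        field_simp
    _ = c * x := by
        rw [← Real.rpow_add hx0, ← Real.rpow_add hx0]
        have e : η / 2 + η / 2 + (1 - η) = 1 := by ring
        rw [e, Real.rpow_one]

/-- Proof. `RR P n ≤ (log n)² r2 n`; conversely the pairs of primes `(p, n-p)` with `p ≤ n^{1-η}` or `n - p ≤ n^{1-η}`
number at most `2 n^{1-η}` (`P < n^{1-η}` for `η ≤ 1/2`), and for the others `log p log(n-p) ≥ (1-η)² (log n)²`; so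
`(1-η)² (log n)² (r2 n - 2 n^{1-η}) ≤ RR P n`. Choose `η` small in terms of `ε`; `sing n ≥ 2 tw > 0` (`En.sing_ge`).
`HL n = sing n * (n / (log n)²)`. -/
theorem r2_conv (ε δ : ℝ) (hε : 0 < ε) (hδ : 0 < δ) : ∃ N₀ : ℕ, ∀ N P n : ℕ, N₀ ≤ N → P ^ 100 ≤ N →
    δ * N ≤ n → n ≤ N → |RR P n - En.sing n * n| ≤ (min ε 1 / 8) * (En.sing n * n) →
    |(En.r2 n : ℝ) - En.HL n| ≤ ε * En.HL n := by
  set e := min ε 1 with he
  have he0 : 0 < e := lt_min hε one_pos
  have he1 : e ≤ 1 := min_le_right _ _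
  have heε : e ≤ ε := min_le_left _ _
  have htw := En.tw_pos
  have hη0 : 0 < e / 32 := by positivity
  have hη1 : e / 32 ≤ 1 := by linarith
  obtain ⟨M, hM2, hM⟩ := R2conv_large (e / 32) (e / 2 * (2 * En.tw)) hη0 hη1 (by positivity)
  obtain ⟨N₀, hN₀⟩ := exists_nat_gt (max M (1 / δ) / δ)
  refine ⟨N₀, fun N P n hN hP hδn hnN h => ?_⟩
  have hmax : max M (1 / δ) < n := by
    have h1 : (N₀ : ℝ) ≤ N := by exact_mod_cast hN
    have h2 : max M (1 / δ) / δ < N := hN₀.trans_le h1
    rw [div_lt_iff₀ hδ] at h2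
    linarith
  have hMn : M ≤ n := ((le_max_left _ _).trans_lt hmax).le
  have hδn' : 1 / δ < n := (le_max_right _ _).trans_lt hmax
  have hn2 : (2 : ℝ) ≤ n := hM2.trans hMn
  have hn1 : (1 : ℝ) ≤ n := by linarith
  have hn0 : (0 : ℝ) < n := by linarith
  have hn1' : 1 ≤ n := by exact_mod_cast hn1
  have hL : 0 < Real.log n := Real.log_pos (by linarith)
  have hPlt : (P : ℝ) < (n : ℝ) ^ (1 - e / 32) := by
    have h1 : (P : ℝ) ^ 100 < (n : ℝ) ^ 50 := by
      have h2 : (P : ℝ) ^ 100 ≤ N := by exact_mod_cast hP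
      have h3 : (N : ℝ) < n * n := by
        have h4 : (N : ℝ) ≤ n / δ := by
          rw [le_div_iff₀ hδ]
          linarith
        have h5 : (n : ℝ) / δ = n * (1 / δ) := by ring
        rw [h5] at h4
        exact h4.trans_lt (mul_lt_mul_of_pos_left hδn' hn0)
      have h6 : (n : ℝ) * n ≤ (n : ℝ) ^ 50 := by
        rw [← pow_two]
        exact pow_le_pow_right₀ hn1 (by norm_num)
      linarith
    have h2 : (P : ℝ) < (n : ℝ) ^ (1 / 2 : ℝ) := by
      have h3 : ((n : ℝ) ^ (1 / 2 : ℝ)) ^ 100 = (n : ℝ) ^ 50 := by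
        rw [← Real.rpow_natCast, ← Real.rpow_mul hn0.le, ← Real.rpow_natCast (n : ℝ) 50]
        congr 1
        norm_num
      rw [← h3] at h1
      exact lt_of_pow_lt_pow_left₀ 100 (by positivity) h1
    refine h2.trans_le (Real.rpow_le_rpow_of_exponent_le hn1 (by linarith))
  have hup := R2conv_upper P n
  have hlo := R2conv_lower P n (e / 32) hη1 hn1' hPlt
  have hla := hM n hMn
  set S : ℝ := En.sing n * n with hS
  have hSge : 2 * En.tw * n ≤ S := mul_le_mul_of_nonneg_right (En.sing_ge n) hn0.le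
  have hS0 : 0 < S := lt_of_lt_of_le (by positivity) hSge
  have hHL : En.HL n * (Real.log n) ^ 2 = S := by
    unfold En.HL
    rw [hS]
    field_simp
  set R : ℝ := (En.r2 n : ℝ) with hR
  set L : ℝ := Real.log n with hLdef
  have hR0 : 0 ≤ R := by rw [hR]; positivity
  obtain ⟨h1, h2⟩ := abs_le.1 h
  -- lower bound
  have hA : S - ε * S ≤ L ^ 2 * R := by
    have h3 : e / 8 * S ≤ ε * S := mul_le_mul_of_nonneg_right (by linarith) hS0.le
    linarith
  -- upper bound
  have hB : L ^ 2 * R ≤ S + ε * S := by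
    have hla' : L ^ 2 * (2 * ((n : ℝ) ^ (1 - e / 32) + 1)) ≤ e / 2 * S := by
      refine hla.trans ?_
      calc e / 2 * (2 * En.tw) * n = e / 2 * (2 * En.tw * n) := by ring
        _ ≤ e / 2 * S := mul_le_mul_of_nonneg_left hSge (by positivity)
    set Y : ℝ := 2 * ((n : ℝ) ^ (1 - e / 32) + 1) with hY
    have h4 : (1 - e / 32) ^ 2 * (L ^ 2 * R - L ^ 2 * Y) ≤ (1 + e / 8) * S := by
      have e1 : ((1 - e / 32) * L) ^ 2 * (R - Y) = (1 - e / 32) ^ 2 * (L ^ 2 * R - L ^ 2 * Y) := by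
        ring
      rw [e1] at hlo
      linarith
    have h5 : 1 ≤ (1 - e / 32) ^ 2 * (1 + e / 8) := by
      have h51 : 1 - e / 16 ≤ (1 - e / 32) ^ 2 := by nlinarith [sq_nonneg e]
      have h52 : (1 - e / 16) * (1 + e / 8) ≤ (1 - e / 32) ^ 2 * (1 + e / 8) :=
        mul_le_mul_of_nonneg_right h51 (by positivity)
      have h53 : e * e ≤ e := by nlinarith
      nlinarith
    have h6 : L ^ 2 * R - L ^ 2 * Y ≤ (1 + e / 8) * ((1 + e / 8) * S) := by
      by_cases h7 : L ^ 2 * R - L ^ 2 * Y ≤ 0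
      · exact h7.trans (by positivity)
      · push Not at h7
        calc L ^ 2 * R - L ^ 2 * Y = 1 * (L ^ 2 * R - L ^ 2 * Y) := by ring
          _ ≤ ((1 - e / 32) ^ 2 * (1 + e / 8)) * (L ^ 2 * R - L ^ 2 * Y) :=
              mul_le_mul_of_nonneg_right h5 h7.le
          _ = (1 + e / 8) * ((1 - e / 32) ^ 2 * (L ^ 2 * R - L ^ 2 * Y)) := by ring
          _ ≤ (1 + e / 8) * ((1 + e / 8) * S) := mul_le_mul_of_nonneg_left h4 (by positivity)
    have h8 : (1 + e / 8) * ((1 + e / 8) * S) ≤ S + e / 2 * S := by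
      have h9 : (1 + e / 8) * (1 + e / 8) ≤ 1 + e / 2 := by nlinarith
      calc (1 + e / 8) * ((1 + e / 8) * S) = ((1 + e / 8) * (1 + e / 8)) * S := by ring
        _ ≤ (1 + e / 2) * S := mul_le_mul_of_nonneg_right h9 hS0.le
        _ = _ := by ring
    have h10 : e * S ≤ ε * S := mul_le_mul_of_nonneg_right heε hS0.le
    linarith
  have hL2 : 0 < L ^ 2 := by positivity
  rw [abs_le]
  constructor
  · have : (-(ε * En.HL n)) * L ^ 2 ≤ (R - En.HL n) * L ^ 2 := by
      calc (-(ε * En.HL n)) * L ^ 2 = -(ε * (En.HL n * L ^ 2)) := by ring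
        _ = -(ε * S) := by rw [hHL]
        _ ≤ L ^ 2 * R - S := by linarith
        _ = L ^ 2 * R - En.HL n * L ^ 2 := by rw [hHL]
        _ = _ := by ring
    exact le_of_mul_le_mul_right this hL2
  · have : (R - En.HL n) * L ^ 2 ≤ (ε * En.HL n) * L ^ 2 := by
      calc (R - En.HL n) * L ^ 2 = L ^ 2 * R - En.HL n * L ^ 2 := by ring
        _ = L ^ 2 * R - S := by rw [hHL]
        _ ≤ ε * S := by linarith
        _ = ε * (En.HL n * L ^ 2) := by rw [hHL]
        _ = _ := by ring
    exact le_of_mul_le_mul_right this hL2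

end Pool.Agent.Lib.MP_629a14_nt.Th
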