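import Pool.Agent.Lib.MP_629a14_nt.Fourier

/-! Sums of `min(·, 1/‖nα‖)`. -/

set_option autoImplicit false

namespace Pool.Agent.Lib.MP_629a14_nt.Th

open Finset Pool.Agent.Lib.MP_629a14_nt

/-- distance to the nearest integer -/
noncomputable def dn (x : ℝ) : ℝ := |x - round x|

private lemma dn_nonneg' (x : ℝ) : 0 ≤ dn x := abs_nonneg _

private lemma norm_ee_sub_one (x : ℝ) : 4 * dn x ≤ ‖ee x - 1‖ := by
  obtain ⟨t, ht⟩ : ∃ t, t = x - round x := ⟨_, rfl⟩
  have ht2 : |t| ≤ 1 / 2 := by rw [ht]; exact abs_sub_round x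
  have hx : ee x = ee t := by
    have : x = t + (round x : ℤ) := by rw [ht]; ring
    conv_lhs => rw [this]
    rw [ee_add, ee_int, mul_one]
  have hdn : dn x = |t| := by unfold dn; rw [ht]
  rw [hx, hdn]
  have e1 : ee t = Complex.exp (Complex.I * ((2 * Real.pi * t : ℝ) : ℂ)) := by
    unfold ee; congr 1; push_cast; ring
  rw [e1, Complex.norm_exp_I_mul_ofReal_sub_one]
  have e2 : 2 * Real.pi * t / 2 = Real.pi * t := by ring
  rw [e2, norm_mul, Real.norm_eq_abs, Real.norm_eq_abs, abs_two]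
  have hpi := Real.pi_pos
  have hle : |Real.pi * t| ≤ Real.pi / 2 := by
    rw [abs_mul, abs_of_pos hpi]
    nlinarith
  have hj := Real.mul_abs_le_abs_sin hle
  have e3 : 2 / Real.pi * |Real.pi * t| = 2 * |t| := by
    rw [abs_mul, abs_of_pos hpi]; field_simp
  rw [e3] at hj
  linarith

/-- Geometric sums. -/
theorem geom_dn (A B : ℕ) (x : ℝ) : ‖∑ m ∈ Ioc A B, ee (m * x)‖ * dn x ≤ 1 / 2 := by
  rcases le_or_gt B A with hAB | hAB
  · rw [Finset.Ioc_eq_empty (by omega)]; simp
  · have key : (ee x - 1) * ∑ m ∈ Ioc A B, ee (m * x) = ee x ^ (B + 1) - ee x ^ (A + 1) := by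
      have h1 : ∀ m : ℕ, ee (m * x) = ee x ^ m := fun m => ee_nat_mul m x
      simp_rw [h1]
      obtain ⟨d, rfl⟩ : ∃ d, B = A + d := ⟨B - A, by omega⟩
      clear hAB
      induction d with
      | zero => simp
      | succ d ih =>
        rw [← add_assoc, Finset.sum_Ioc_succ_top (by omega), mul_add, ih]
        ring
    have hn : ‖ee x - 1‖ * ‖∑ m ∈ Ioc A B, ee (m * x)‖ ≤ 2 := by
      rw [← norm_mul, key]
      calc ‖ee x ^ (B + 1) - ee x ^ (A + 1)‖ ≤ ‖ee x ^ (B + 1)‖ + ‖ee x ^ (A + 1)‖ := norm_sub_le _ _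
        _ = 2 := by rw [norm_pow, norm_pow, norm_ee]; norm_num
    have h4 := norm_ee_sub_one x
    have h5 : 4 * dn x * ‖∑ m ∈ Ioc A B, ee (m * x)‖ ≤ ‖ee x - 1‖ * ‖∑ m ∈ Ioc A B, ee (m * x)‖ :=
      mul_le_mul_of_nonneg_right h4 (norm_nonneg _)
    nlinarith

private lemma dn_ge (x e : ℝ) (k : ℤ) (r q : ℕ) (hq : 0 < q) (hr : r ≤ q)
    (hx : |x - (k + (r : ℝ) / q)| ≤ e) : min (r : ℝ) (q - r) / q - e ≤ dn x := by
  unfold dn
  obtain ⟨N, hN⟩ : ∃ N, N = round x := ⟨_, rfl⟩
  rw [← hN]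
  have hq' : (0 : ℝ) < q := by exact_mod_cast hq
  have hr' : (r : ℝ) ≤ q := by exact_mod_cast hr
  have hr0 : (0 : ℝ) ≤ r := Nat.cast_nonneg r
  have htri : |(k : ℝ) + r / q - N| ≤ |x - N| + e := by
    have : (k : ℝ) + r / q - N = (x - N) - (x - (k + r / q)) := by ring
    rw [this]
    exact (abs_sub _ _).trans (by linarith)
  have hlow : min (r : ℝ) (q - r) / q ≤ |(k : ℝ) + r / q - N| := by
    rcases le_or_gt N k with h | h
    · have h1 : (N : ℝ) ≤ k := by exact_mod_cast h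
      have h2 : min (r : ℝ) (q - r) / q ≤ r / q := by
        apply div_le_div_of_nonneg_right (min_le_left _ _) hq'.le
      have h3 : (0 : ℝ) ≤ r / q := by positivity
      exact (by linarith : min (r : ℝ) (q - r) / q ≤ (k : ℝ) + r / q - N).trans (le_abs_self _)
    · have h1 : (k : ℝ) + 1 ≤ N := by exact_mod_cast h
      have h2 : min (r : ℝ) (q - r) / q ≤ (q - r) / q := by
        apply div_le_div_of_nonneg_right (min_le_right _ _) hq'.le
      have h3 : ((q : ℝ) - r) / q = 1 - r / q := by field_simp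
      rw [abs_sub_comm]
      exact (by linarith : min (r : ℝ) (q - r) / q ≤ (N : ℝ) - (k + r / q)).trans (le_abs_self _)
  linarith

private lemma block_sum (q : ℕ) (hq : 1 ≤ q) (a k1 : ℤ) (ha : IsCoprime a (q : ℤ)) (M L : ℕ)
    (hL : L ≤ q) (g φ : ℕ → ℝ) (hφ : ∀ r, 0 ≤ φ r)
    (h : ∀ n ∈ Ioc M (M + L), g n ≤ φ (((k1 + n * a) % (q : ℤ)).toNat)) :
    ∑ n ∈ Ioc M (M + L), g n ≤ ∑ r ∈ range q, φ r := by
  have hq0 : (0 : ℤ) < q := by exact_mod_cast hq
  have hinj : Set.InjOn (fun n : ℕ => ((k1 + n * a) % (q : ℤ)).toNat) (Ioc M (M + L) : Finset ℕ) := by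
    intro n hn n' hn' he
    simp only [Finset.coe_Ioc, Set.mem_Ioc] at hn hn'
    have he' : ((k1 + n * a) % (q : ℤ)).toNat = ((k1 + n' * a) % (q : ℤ)).toNat := he
    have h1 : (k1 + n * a) % (q : ℤ) = (k1 + n' * a) % (q : ℤ) := by
      have p1 := Int.emod_nonneg (k1 + n * a) hq0.ne'
      have p2 := Int.emod_nonneg (k1 + n' * a) hq0.ne'
      omega
    have h2 : (q : ℤ) ∣ (k1 + n * a) - (k1 + n' * a) := by
      exact Int.ModEq.dvd (show (k1 + n' * a) % (q : ℤ) = (k1 + n * a) % (q : ℤ) from h1.symm)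
    have h3 : (q : ℤ) ∣ ((n : ℤ) - n') * a := by
      have : (k1 + n * a) - (k1 + n' * a) = ((n : ℤ) - n') * a := by ring
      rwa [this] at h2
    have h4 : (q : ℤ) ∣ (n : ℤ) - n' := IsCoprime.dvd_of_dvd_mul_right ha.symm h3
    have h5 : (n : ℤ) - n' = 0 := by
      apply Int.eq_zero_of_abs_lt_dvd h4
      rw [abs_lt]; constructor <;> omega
    omega
  calc ∑ n ∈ Ioc M (M + L), g n ≤ ∑ n ∈ Ioc M (M + L), φ (((k1 + n * a) % (q : ℤ)).toNat) :=
        Finset.sum_le_sum h
    _ = ∑ r ∈ (Ioc M (M + L)).image (fun n : ℕ => ((k1 + n * a) % (q : ℤ)).toNat), φ r := by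
        rw [Finset.sum_image hinj]
    _ ≤ ∑ r ∈ range q, φ r := by
        apply Finset.sum_le_sum_of_subset_of_nonneg
        · intro r hr
          rw [Finset.mem_image] at hr
          obtain ⟨n, -, rfl⟩ := hr
          rw [Finset.mem_range]
          have p1 := Int.emod_nonneg (k1 + n * a) hq0.ne'
          have p2 := Int.emod_lt_of_pos (k1 + n * a) hq0
          omega
        · intro r _ _; exact hφ r

private lemma harm_le (q : ℕ) : ∑ i ∈ range q, (1 : ℝ) / ((i : ℝ) + 1) ≤ 1 + Real.log q := by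
  have h := harmonic_le_one_add_log q
  have e : ((harmonic q : ℚ) : ℝ) = ∑ i ∈ range q, (1 : ℝ) / ((i : ℝ) + 1) := by
    unfold harmonic; push_cast
    apply Finset.sum_congr rfl; intro i _; rw [one_div]
  rw [← e]; exact h

private lemma refl_sum (q : ℕ) (ψ : ℕ → ℝ) :
    ∑ r ∈ range q, (ψ r + ψ (q - 1 - r)) = 2 * ∑ r ∈ range q, ψ r := by
  rw [Finset.sum_add_distrib, Finset.sum_range_reflect]; ring

private lemma one_block (q M L : ℕ) (a : ℤ) (α B : ℝ) (g : ℕ → ℝ) (hq : 1 ≤ q)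
    (ha : IsCoprime a (q : ℤ)) (hα : |α - a / q| ≤ 1 / (q : ℝ) ^ 2) (hB : 0 ≤ B) (hL : L ≤ q)
    (hg : ∀ n ∈ Ioc M (M + L), 0 ≤ g n ∧ g n ≤ B ∧ g n * dn (n * α) ≤ 1) :
    ∑ n ∈ Ioc M (M + L), g n ≤ 6 * (B + q * (1 + Real.log q)) := by
  have hq0 : (0 : ℝ) < q := by exact_mod_cast hq
  have hqZ : (0 : ℤ) < q := by exact_mod_cast hq
  obtain ⟨k0, hk0⟩ : ∃ k0 : ℤ, k0 = ⌊(q : ℝ) * (M * α)⌋ := ⟨_, rfl⟩
  let ψ : ℕ → ℝ := fun r => if r < 3 then B else (q : ℝ) / ((r : ℝ) - 2)
  have hψ0 : ∀ r, 0 ≤ ψ r := by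
    intro r
    simp only [ψ]
    split_ifs with h
    · exact hB
    · have : (3 : ℝ) ≤ r := by exact_mod_cast (not_lt.mp h)
      apply div_nonneg hq0.le; linarith
  have hsum := block_sum q hq a (k0 - M * a) ha M L hL g (fun r => ψ r + ψ (q - 1 - r))
    (fun r => add_nonneg (hψ0 _) (hψ0 _)) (by
      intro n hn
      obtain ⟨hg0, hgB, hgd⟩ := hg n hn
      rw [Finset.mem_Ioc] at hn
      obtain ⟨r, hr⟩ : ∃ r : ℕ, r = (((k0 - M * a) + n * a) % (q : ℤ)).toNat := ⟨_, rfl⟩
      rw [← hr]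
      show g n ≤ ψ r + ψ (q - 1 - r)
      have p1 := Int.emod_nonneg ((k0 - M * a) + n * a) hqZ.ne'
      have p2 := Int.emod_lt_of_pos ((k0 - M * a) + n * a) hqZ
      have hrq : r < q := by omega
      have hrZ : (r : ℤ) = ((k0 - M * a) + n * a) % (q : ℤ) := by omega
      obtain ⟨k, hk⟩ : ∃ k : ℤ, k = ((k0 - M * a) + n * a) / (q : ℤ) := ⟨_, rfl⟩
      have hdiv : (k0 - M * a) + n * a = q * k + r := by
        rw [hrZ, hk]; exact (Int.mul_ediv_add_emod _ _).symm
      have hdivR : ((k0 : ℝ) - M * a) + n * a = q * k + r := by exact_mod_cast hdiv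
      have hx : |(n : ℝ) * α - (k + (r : ℝ) / q)| ≤ 2 / q := by
        have e1 : (k : ℝ) + (r : ℝ) / q = (((k0 : ℝ) - M * a) + n * a) / q := by
          rw [hdivR]; field_simp
        have e2 : (n : ℝ) * α - (k + (r : ℝ) / q)
            = ((q : ℝ) * (M * α) - k0) / q + ((n : ℝ) - M) * (α - a / q) := by
          rw [e1]; field_simp; ring
        rw [e2]
        have f1 : (k0 : ℝ) ≤ (q : ℝ) * (M * α) := by rw [hk0]; exact Int.floor_le _
        have f2 : (q : ℝ) * (M * α) < k0 + 1 := by rw [hk0]; exact Int.lt_floor_add_one _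
        have g1 : |((q : ℝ) * (M * α) - k0) / q| ≤ 1 / q := by
          rw [abs_div, abs_of_pos hq0]
          apply div_le_div_of_nonneg_right _ hq0.le
          rw [abs_le]; constructor <;> linarith
        have g2 : |((n : ℝ) - M) * (α - a / q)| ≤ 1 / q := by
          rw [abs_mul]
          have h1 : |(n : ℝ) - M| ≤ q := by
            have h1a : (M : ℝ) ≤ n := by exact_mod_cast hn.1.le
            have h1b : (n : ℝ) ≤ M + q := by exact_mod_cast (by omega : n ≤ M + q)
            rw [abs_le]; constructor <;> linarith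
          calc |(n : ℝ) - M| * |α - a / q| ≤ q * (1 / (q : ℝ) ^ 2) :=
                mul_le_mul h1 hα (abs_nonneg _) hq0.le
            _ = 1 / q := by field_simp
        calc |((q : ℝ) * (M * α) - k0) / q + ((n : ℝ) - M) * (α - a / q)| ≤ _ := abs_add_le _ _
          _ ≤ 1 / q + 1 / q := add_le_add g1 g2
          _ = 2 / q := by ring
      have hd := dn_ge ((n : ℝ) * α) (2 / q) k r q hq hrq.le hx
      by_cases h3 : r < 3
      · have : ψ r = B := by simp only [ψ]; rw [if_pos h3]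
        rw [this]; linarith [hψ0 (q - 1 - r)]
      by_cases h4 : q - 1 - r < 3
      · have : ψ (q - 1 - r) = B := by simp only [ψ]; rw [if_pos h4]
        rw [this]; linarith [hψ0 r]
      have hr3 : (3 : ℝ) ≤ r := by exact_mod_cast (not_lt.mp h3)
      have hr4 : (r : ℝ) + 4 ≤ q := by exact_mod_cast (by omega : r + 4 ≤ q)
      have e1 : ψ r = (q : ℝ) / ((r : ℝ) - 2) := by simp only [ψ]; rw [if_neg h3]
      have e2 : ψ (q - 1 - r) = (q : ℝ) / ((q : ℝ) - r - 3) := by
        simp only [ψ]; rw [if_neg h4]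
        congr 1
        have : ((q - 1 - r : ℕ) : ℝ) = (q : ℝ) - 1 - r := by
          rw [Nat.cast_sub (by omega), Nat.cast_sub (by omega)]; simp
        rw [this]; ring
      rcases le_total (r : ℝ) (q - r) with hm | hm
      · rw [min_eq_left hm] at hd
        have : g n ≤ ψ r := by
          rw [e1, le_div_iff₀ (by linarith)]
          have h6 : ((r : ℝ) - 2) / q ≤ dn (n * α) := by
            have : ((r : ℝ) - 2) / q = r / q - 2 / q := by ring
            rw [this]; exact hd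
          have h7 : g n * (((r : ℝ) - 2) / q) ≤ 1 :=
            (mul_le_mul_of_nonneg_left h6 hg0).trans hgd
          have h8 : g n * (((r : ℝ) - 2) / q) = g n * ((r : ℝ) - 2) / q := by ring
          rw [h8, div_le_one hq0] at h7
          exact h7
        linarith [hψ0 (q - 1 - r)]
      · rw [min_eq_right hm] at hd
        have : g n ≤ ψ (q - 1 - r) := by
          rw [e2, le_div_iff₀ (by linarith)]
          have h6 : ((q : ℝ) - r - 3) / q ≤ dn (n * α) := by
            have : ((q : ℝ) - r - 3) / q = (q - r) / q - 2 / q - 1 / q := by ring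
            rw [this]
            have : 0 < 1 / (q : ℝ) := by positivity
            linarith
          have h7 : g n * (((q : ℝ) - r - 3) / q) ≤ 1 :=
            (mul_le_mul_of_nonneg_left h6 hg0).trans hgd
          have h8 : g n * (((q : ℝ) - r - 3) / q) = g n * ((q : ℝ) - r - 3) / q := by ring
          rw [h8, div_le_one hq0] at h7
          exact h7
        linarith [hψ0 r])
  rw [refl_sum] at hsum
  have hψs : ∑ r ∈ range q, ψ r ≤ 3 * B + q * (1 + Real.log q) := by
    calc ∑ r ∈ range q, ψ r ≤ ∑ r ∈ range (3 + q), ψ r := by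
          apply Finset.sum_le_sum_of_subset_of_nonneg
          · intro x hx; rw [Finset.mem_range] at *; omega
          · intro r _ _; exact hψ0 r
      _ = ∑ r ∈ range 3, ψ r + ∑ i ∈ range q, ψ (3 + i) := Finset.sum_range_add ψ 3 q
      _ = 3 * B + q * ∑ i ∈ range q, (1 : ℝ) / ((i : ℝ) + 1) := by
          congr 1
          · have : ∀ r ∈ range 3, ψ r = B := by
              intro r hr; rw [Finset.mem_range] at hr
              simp only [ψ]; rw [if_pos hr]
            rw [Finset.sum_congr rfl this]; simp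
          · rw [Finset.mul_sum]
            apply Finset.sum_congr rfl
            intro i _
            simp only [ψ]
            rw [if_neg (by omega)]
            have : ((3 + i : ℕ) : ℝ) - 2 = i + 1 := by push_cast; ring
            rw [this]; ring
      _ ≤ 3 * B + q * (1 + Real.log q) := by
          have := mul_le_mul_of_nonneg_left (harm_le q) hq0.le
          linarith
  have hlog : 0 ≤ (q : ℝ) * (1 + Real.log q) := by
    have : 0 ≤ Real.log q := Real.log_nonneg (by exact_mod_cast hq)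
    positivity
  linarith

private lemma blocks (q : ℕ) (a : ℤ) (α B : ℝ) (g : ℕ → ℝ) (hq : 1 ≤ q)
    (ha : IsCoprime a (q : ℤ)) (hα : |α - a / q| ≤ 1 / (q : ℝ) ^ 2) (hB : 0 ≤ B) :
    ∀ (Z A : ℕ), (∀ n ∈ Ioc A (A + Z), 0 ≤ g n ∧ g n ≤ B ∧ g n * dn (n * α) ≤ 1) →
    ∑ n ∈ Ioc A (A + Z), g n ≤ ((Z : ℝ) / q + 1) * (6 * (B + q * (1 + Real.log q))) := by
  have hq0 : (0 : ℝ) < q := by exact_mod_cast hq
  have hlog : 0 ≤ Real.log q := Real.log_nonneg (by exact_mod_cast hq)
  have hK : 0 ≤ 6 * (B + q * (1 + Real.log q)) := by positivity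
  intro Z
  induction Z using Nat.strong_induction_on with
  | _ Z ih =>
    intro A hg
    rcases le_or_gt Z q with hZ | hZ
    · have h1 := one_block q A Z a α B g hq ha hα hB hZ hg
      have h2 : 0 ≤ (Z : ℝ) / q := by positivity
      nlinarith
    · have h1 := one_block q A q a α B g hq ha hα hB le_rfl (fun n hn => hg n (by
        rw [Finset.mem_Ioc] at *; omega))
      have h2 := ih (Z - q) (by omega) (A + q) (fun n hn => hg n (by
        rw [Finset.mem_Ioc] at *; omega))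
      have h3 : A + q + (Z - q) = A + Z := by omega
      rw [h3] at h2
      have h4 : ∑ n ∈ Ioc A (A + Z), g n = ∑ n ∈ Ioc A (A + q), g n + ∑ n ∈ Ioc (A + q) (A + Z), g n := by
        rw [Finset.sum_Ioc_consecutive g (by omega) (by omega)]
      rw [h4]
      have h5 : (((Z - q : ℕ) : ℝ) / q + 1) = (Z : ℝ) / q := by
        rw [Nat.cast_sub hZ.le]; field_simp; ring
      rw [h5] at h2
      linarith

/-- Proof. In a block of `q` consecutive `n` the points `nα` mod 1 differ from `(na + const)/q` by at most `1/q`,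
so for each `j` at most a bounded number of `n` in the block has `dn (nα) ∈ [j/q, (j+1)/q)`; the terms with
`j = 0` are bounded by `B`, the others by `q/j`. There are at most `Z/q + 1` blocks. -/
theorem sum_min_block : ∃ C : ℝ, 1 ≤ C ∧ ∀ (q A Z : ℕ) (a : ℤ) (α B : ℝ) (g : ℕ → ℝ), 1 ≤ q →
    IsCoprime a (q : ℤ) → |α - a / q| ≤ 1 / (q : ℝ) ^ 2 → 0 ≤ B →
    (∀ n ∈ Ioc A (A + Z), 0 ≤ g n ∧ g n ≤ B ∧ g n * dn (n * α) ≤ 1) →
    ∑ n ∈ Ioc A (A + Z), g n ≤ C * ((Z : ℝ) / q + 1) * (B + q * (1 + Real.log q)) := by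
  refine ⟨6, by norm_num, ?_⟩
  intro q A Z a α B g hq ha hα hB hg
  have h := blocks q a α B g hq ha hα hB Z A hg
  calc _ ≤ _ := h
    _ = _ := by ring

private lemma part_one (q X Z : ℕ) (a : ℤ) (α : ℝ) (g : ℕ → ℝ) (hq : 1 ≤ q) (hX : 1 ≤ X)
    (ha : IsCoprime a (q : ℤ)) (hα : |α - a / q| ≤ 1 / (q : ℝ) ^ 2)
    (hg : ∀ n ∈ Ioc 0 Z, 0 ≤ g n ∧ g n ≤ (X : ℝ) / n ∧ g n * dn (n * α) ≤ 1)
    (hZ : Z ≤ (q + 1) / 2) :
    ∑ n ∈ Ioc 0 Z, g n ≤ (X : ℝ) / q + 16 * q * (1 + Real.log q) := by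
  have hq0 : (0 : ℝ) < q := by exact_mod_cast hq
  have hqZ : (0 : ℤ) < q := by exact_mod_cast hq
  have hlog : 0 ≤ Real.log q := Real.log_nonneg (by exact_mod_cast hq)
  have hXq : 0 ≤ (X : ℝ) / q := by positivity
  rcases (by omega : q = 1 ∨ 2 ≤ q) with h1 | h2
  · subst h1
    have hZ1 : Z ≤ 1 := by omega
    have hb : 0 ≤ 16 * ((1 : ℕ) : ℝ) * (1 + Real.log ((1 : ℕ) : ℝ)) := by simp
    rcases (by omega : Z = 0 ∨ Z = 1) with h0 | h0
    · subst h0; rw [Finset.Ioc_self, Finset.sum_empty]; exact add_nonneg hXq hb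
    · subst h0
      have hs : ∑ n ∈ Ioc 0 1, g n = g 1 := by
        have : Ioc 0 1 = ({1} : Finset ℕ) := by decide
        rw [this, Finset.sum_singleton]
      rw [hs]
      have := (hg 1 (by simp)).2.1
      simp only [Nat.cast_one, div_one] at this ⊢
      simp only [Nat.cast_one] at hb
      linarith
  · let ψ : ℕ → ℝ := fun r => 8 * (q : ℝ) / ((r : ℝ) + 1)
    have hψ0 : ∀ r, 0 ≤ ψ r := by intro r; simp only [ψ]; positivity
    have hsum := block_sum q hq a 0 ha 0 Z (by omega) g (fun r => ψ r + ψ (q - 1 - r))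
      (fun r => add_nonneg (hψ0 _) (hψ0 _)) (by
        intro n hn
        rw [zero_add] at hn
        obtain ⟨hg0, -, hgd⟩ := hg n hn
        rw [Finset.mem_Ioc] at hn
        obtain ⟨r, hr⟩ : ∃ r : ℕ, r = ((0 + n * a) % (q : ℤ)).toNat := ⟨_, rfl⟩
        rw [← hr]
        show g n ≤ ψ r + ψ (q - 1 - r)
        have p1 := Int.emod_nonneg (0 + n * a) hqZ.ne'
        have p2 := Int.emod_lt_of_pos (0 + n * a) hqZ
        have hrq : r < q := by omega
        have hrZ : (r : ℤ) = (0 + n * a) % (q : ℤ) := by omega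
        obtain ⟨k, hk⟩ : ∃ k : ℤ, k = (0 + n * a) / (q : ℤ) := ⟨_, rfl⟩
        have hdiv : 0 + n * a = q * k + r := by
          rw [hrZ, hk]; exact (Int.mul_ediv_add_emod _ _).symm
        have hr1 : 1 ≤ r := by
          rcases Nat.eq_zero_or_pos r with h0 | h0
          · exfalso
            have h3 : (q : ℤ) ∣ n * a := ⟨k, by rw [h0] at hdiv; push_cast at hdiv; linarith⟩
            have h4 : (q : ℤ) ∣ (n : ℤ) := IsCoprime.dvd_of_dvd_mul_right ha.symm h3
            have h5 := Int.le_of_dvd (by exact_mod_cast hn.1) h4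
            omega
          · exact h0
        have hdivR : (n : ℝ) * a = q * k + r := by
          have : ((0 + n * a : ℤ) : ℝ) = ((q * k + r : ℤ) : ℝ) := by rw [hdiv]
          push_cast at this; linarith
        have hx : |(n : ℝ) * α - (k + (r : ℝ) / q)| ≤ 3 / (4 * q) := by
          have e1 : (k : ℝ) + (r : ℝ) / q = (n * a) / q := by
            rw [hdivR]; field_simp
          have e2 : (n : ℝ) * α - (k + (r : ℝ) / q) = n * (α - a / q) := by
            rw [e1]; field_simp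
          rw [e2, abs_mul, Nat.abs_cast]
          have hn2 : (n : ℝ) ≤ 3 / 4 * q := by
            have h6 : 4 * n ≤ 3 * q := by omega
            have h7 : 4 * (n : ℝ) ≤ 3 * q := by exact_mod_cast h6
            linarith
          calc (n : ℝ) * |α - a / q| ≤ (3 / 4 * q) * (1 / (q : ℝ) ^ 2) :=
                mul_le_mul hn2 hα (abs_nonneg _) (by positivity)
            _ = 3 / (4 * q) := by field_simp
        have hd := dn_ge ((n : ℝ) * α) (3 / (4 * q)) k r q hq hrq.le hx
        have hr1' : (1 : ℝ) ≤ r := by exact_mod_cast hr1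
        have hrq' : (r : ℝ) + 1 ≤ q := by exact_mod_cast hrq
        have e1 : ψ r = 8 * (q : ℝ) / ((r : ℝ) + 1) := rfl
        have e2 : ψ (q - 1 - r) = 8 * (q : ℝ) / ((q : ℝ) - r) := by
          simp only [ψ]
          congr 1
          have : ((q - 1 - r : ℕ) : ℝ) = (q : ℝ) - 1 - r := by
            rw [Nat.cast_sub (by omega), Nat.cast_sub (by omega)]; simp
          rw [this]; ring
        rcases le_total (r : ℝ) (q - r) with hm | hm
        · rw [min_eq_left hm] at hd
          have : g n ≤ ψ r := by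
            rw [e1, le_div_iff₀ (by linarith)]
            have h6 : (r : ℝ) / (4 * q) ≤ dn (n * α) := by
              have h6a : (r : ℝ) / (4 * q) ≤ r / q - 3 / (4 * q) := by
                rw [← sub_nonneg]
                have : (r : ℝ) / q - 3 / (4 * q) - r / (4 * q) = (3 * (r - 1)) / (4 * q) := by
                  field_simp; ring
                rw [this]
                apply div_nonneg _ (by positivity)
                linarith
              exact h6a.trans hd
            have h7 : g n * ((r : ℝ) / (4 * q)) ≤ 1 :=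
              (mul_le_mul_of_nonneg_left h6 hg0).trans hgd
            have h8 : g n * ((r : ℝ) / (4 * q)) = g n * (r : ℝ) / (4 * q) := by ring
            rw [h8, div_le_one (by positivity)] at h7
            nlinarith
          linarith [hψ0 (q - 1 - r)]
        · rw [min_eq_right hm] at hd
          have : g n ≤ ψ (q - 1 - r) := by
            rw [e2, le_div_iff₀ (by linarith)]
            have h6 : ((q : ℝ) - r) / (4 * q) ≤ dn (n * α) := by
              have h6a : ((q : ℝ) - r) / (4 * q) ≤ (q - r) / q - 3 / (4 * q) := by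
                rw [← sub_nonneg]
                have : ((q : ℝ) - r) / q - 3 / (4 * q) - (q - r) / (4 * q)
                    = (3 * (q - r - 1)) / (4 * q) := by
                  field_simp; ring
                rw [this]
                apply div_nonneg _ (by positivity)
                linarith
              exact h6a.trans hd
            have h7 : g n * (((q : ℝ) - r) / (4 * q)) ≤ 1 :=
              (mul_le_mul_of_nonneg_left h6 hg0).trans hgd
            have h8 : g n * (((q : ℝ) - r) / (4 * q)) = g n * ((q : ℝ) - r) / (4 * q) := by ring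
            rw [h8, div_le_one (by positivity)] at h7
            nlinarith
          linarith [hψ0 r])
    rw [refl_sum, zero_add] at hsum
    have hψs : ∑ r ∈ range q, ψ r ≤ 8 * q * (1 + Real.log q) := by
      have : ∑ r ∈ range q, ψ r = 8 * q * ∑ i ∈ range q, (1 : ℝ) / ((i : ℝ) + 1) := by
        rw [Finset.mul_sum]
        apply Finset.sum_congr rfl
        intro i _
        simp only [ψ]; ring
      rw [this]
      exact mul_le_mul_of_nonneg_left (harm_le q) (by positivity)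
    linarith

private lemma part_two (q X h : ℕ) (a : ℤ) (α : ℝ) (g : ℕ → ℝ) (hq : 1 ≤ q)
    (ha : IsCoprime a (q : ℤ)) (hα : |α - a / q| ≤ 1 / (q : ℝ) ^ 2) (hh : 1 ≤ h) (hhq : h ≤ q) :
    ∀ Z : ℕ, h ≤ Z → (∀ n ∈ Ioc h Z, 0 ≤ g n ∧ g n ≤ (X : ℝ) / n ∧ g n * dn (n * α) ≤ 1) →
    ∑ n ∈ Ioc h Z, g n ≤ 24 * ((X : ℝ) / h * (1 + Real.log (Z / h)) +
      (Z : ℝ) / h * (q * (1 + Real.log q))) := by
  have hq0 : (0 : ℝ) < q := by exact_mod_cast hq
  have hh0 : (0 : ℝ) < h := by exact_mod_cast hh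
  have hlog : 0 ≤ Real.log q := Real.log_nonneg (by exact_mod_cast hq)
  have hK : 0 ≤ (q : ℝ) * (1 + Real.log q) := by positivity
  intro Z
  induction Z using Nat.strong_induction_on with
  | _ Z ih =>
    intro hhZ hg
    have hZ0 : (0 : ℝ) < Z := by exact_mod_cast (by omega : 0 < Z)
    have hZh : (1 : ℝ) ≤ (Z : ℝ) / h := by
      rw [le_div_iff₀ hh0, one_mul]; exact_mod_cast hhZ
    have hlZ : 0 ≤ Real.log (Z / h) := Real.log_nonneg hZh
    rcases lt_or_ge Z (2 * h) with hZ2 | hZ2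
    · -- one block
      obtain ⟨L, hL⟩ : ∃ L, Z = h + L := ⟨Z - h, by omega⟩
      have h1 := one_block q h L a α ((X : ℝ) / h) g hq ha hα (by positivity) (by omega)
        (fun n hn => by
          obtain ⟨g0, g1, g2⟩ := hg n (by rw [hL]; exact hn)
          rw [Finset.mem_Ioc] at hn
          refine ⟨g0, g1.trans ?_, g2⟩
          apply div_le_div_of_nonneg_left (by positivity) hh0
          exact_mod_cast hn.1.le)
      rw [← hL] at h1
      have h2 : (X : ℝ) / h ≤ (X : ℝ) / h * (1 + Real.log (Z / h)) := by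
        have : 0 ≤ (X : ℝ) / h := by positivity
        nlinarith
      have h3 : (q : ℝ) * (1 + Real.log q) ≤ (Z : ℝ) / h * (q * (1 + Real.log q)) := by
        nlinarith
      have h4 : 0 ≤ (X : ℝ) / h := by positivity
      nlinarith
    · obtain ⟨Y, hY⟩ : ∃ Y, Z = Y + h := ⟨Z - h, by omega⟩
      have hhY : h ≤ Y := by omega
      have hY0 : (0 : ℝ) < Y := by exact_mod_cast (by omega : 0 < Y)
      have h1 := ih Y (by omega) hhY (fun n hn => hg n (by rw [Finset.mem_Ioc] at *; omega))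
      have h2 := one_block q Y h a α ((X : ℝ) / Y) g hq ha hα (by positivity) hhq
        (fun n hn => by
          rw [Finset.mem_Ioc] at hn
          obtain ⟨g0, g1, g2⟩ := hg n (by rw [Finset.mem_Ioc]; omega)
          refine ⟨g0, g1.trans ?_, g2⟩
          apply div_le_div_of_nonneg_left (by positivity) hY0
          exact_mod_cast hn.1.le)
      have h3 : ∑ n ∈ Ioc h Z, g n = ∑ n ∈ Ioc h Y, g n + ∑ n ∈ Ioc Y (Y + h), g n := by
        rw [Finset.sum_Ioc_consecutive g hhY (by omega), ← hY]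
      rw [h3]
      have hZY : (Z : ℝ) = Y + h := by rw [hY]; push_cast; ring
      -- the logarithm grows by at least h / Z
      have h4 : (h : ℝ) / Z ≤ Real.log (Z / h) - Real.log (Y / h) := by
        rw [← Real.log_div (by positivity) (by positivity)]
        have e : (Z : ℝ) / h / (Y / h) = Z / Y := by field_simp
        rw [e]
        have h5 := Real.add_one_le_exp (-((h : ℝ) / Z))
        have h6 : (Y : ℝ) / Z = -((h : ℝ) / Z) + 1 := by rw [hZY]; field_simp; ring
        have h7 : Real.log ((Y : ℝ) / Z) ≤ -((h : ℝ) / Z) := by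
          have := Real.log_le_sub_one_of_pos (by positivity : 0 < (Y : ℝ) / Z)
          linarith
        have h8 : Real.log ((Z : ℝ) / Y) = - Real.log ((Y : ℝ) / Z) := by
          rw [← Real.log_inv, inv_div]
        linarith
      have h5 : (X : ℝ) / Y ≤ 2 * (X / Z) := by
        rw [div_le_iff₀ hY0]
        have : (Z : ℝ) ≤ 2 * Y := by
          rw [hZY]; have : (h : ℝ) ≤ Y := by exact_mod_cast hhY
          linarith
        have h6 : 2 * ((X : ℝ) / Z) * Y = X * (2 * Y / Z) := by ring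
        rw [h6]
        have h7 : 1 ≤ 2 * (Y : ℝ) / Z := by rw [le_div_iff₀ hZ0]; linarith
        have h8 : (0 : ℝ) ≤ X := Nat.cast_nonneg X
        nlinarith
      have h6 : (X : ℝ) / h * ((h : ℝ) / Z) = X / Z := by field_simp
      have h7 : (X : ℝ) / Z ≤ X / h * (Real.log (Z / h) - Real.log (Y / h)) := by
        rw [← h6]
        exact mul_le_mul_of_nonneg_left h4 (by positivity)
      have h8 : (Z : ℝ) / h * (q * (1 + Real.log q)) =
          (Y : ℝ) / h * (q * (1 + Real.log q)) + q * (1 + Real.log q) := by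
        rw [hZY]; field_simp
      have h9 : (0 : ℝ) ≤ X / Z := by positivity
      rw [h8]
      nlinarith

/-- Proof. For `n ≤ q/2`: `dn(nα) ≥ 1/(2q)` and the values `na mod q` are distinct, so these `n` contribute
`≤ C q (1 + log q)`. The remaining `n` are in blocks of length `≤ q` starting at `jq/2`, `j ≥ 1`, on which
`g ≤ 2X/(jq)`; apply
`sum_min_block` to each: `∑_j C (X/(jq) + q(1+log q)) ≤ C (X/q + Z + q) (1 + log(qX))²`. -/
theorem sum_min : ∃ C : ℝ, 1 ≤ C ∧ ∀ (q X Z : ℕ) (a : ℤ) (α : ℝ) (g : ℕ → ℝ), 1 ≤ q → 1 ≤ X →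
    Z ≤ X → IsCoprime a (q : ℤ) → |α - a / q| ≤ 1 / (q : ℝ) ^ 2 →
    (∀ n ∈ Icc 1 Z, 0 ≤ g n ∧ g n ≤ (X : ℝ) / n ∧ g n * dn (n * α) ≤ 1) →
    ∑ n ∈ Icc 1 Z, g n ≤ C * ((X : ℝ) / q + Z + q) * (1 + Real.log (q * X)) ^ 2 := by
  refine ⟨100, by norm_num, ?_⟩
  intro q X Z a α g hq hX hZX ha hα hg
  have hq0 : (0 : ℝ) < q := by exact_mod_cast hq
  have hX0 : (0 : ℝ) < X := by exact_mod_cast hX
  have hq1 : (1 : ℝ) ≤ q := by exact_mod_cast hq
  have hX1 : (1 : ℝ) ≤ X := by exact_mod_cast hX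
  have hlog : 0 ≤ Real.log q := Real.log_nonneg hq1
  obtain ⟨ℓ, hℓ⟩ : ∃ ℓ, ℓ = Real.log (q * X) := ⟨_, rfl⟩
  have hℓq : Real.log q ≤ ℓ := by
    rw [hℓ]; apply Real.log_le_log hq0; nlinarith
  have hℓ0 : 0 ≤ ℓ := hlog.trans hℓq
  have hIcc : Icc 1 Z = Ioc 0 Z := by
    ext n; rw [Finset.mem_Icc, Finset.mem_Ioc]; omega
  rw [hIcc] at hg ⊢
  rw [← hℓ]
  have hD : 0 ≤ (X : ℝ) / q + Z + q := by positivity
  have hsq : 1 + ℓ ≤ (1 + ℓ) ^ 2 := by nlinarith
  obtain ⟨h, hh⟩ : ∃ h, h = (q + 1) / 2 := ⟨_, rfl⟩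
  have hh1 : 1 ≤ h := by omega
  have hhq : h ≤ q := by omega
  have hh0 : (0 : ℝ) < h := by exact_mod_cast hh1
  have hh2 : (q : ℝ) ≤ 2 * h := by exact_mod_cast (by omega : q ≤ 2 * h)
  have hXq : 0 ≤ (X : ℝ) / q := by positivity
  have hZ0 : (0 : ℝ) ≤ Z := Nat.cast_nonneg Z
  have hp1 : ∀ Y : ℕ, Y ≤ Z → Y ≤ h →
      ∑ n ∈ Ioc 0 Y, g n ≤ 17 * ((X : ℝ) / q + Z + q) * (1 + ℓ) := by
    intro Y hYZ hYh
    have h1 := part_one q X Y a α g hq hX ha hα
      (fun n hn => hg n (by rw [Finset.mem_Ioc] at *; omega)) (by omega)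
    have h2 : (q : ℝ) * (1 + Real.log q) ≤ q * (1 + ℓ) :=
      mul_le_mul_of_nonneg_left (by linarith) hq0.le
    have h3 : (X : ℝ) / q ≤ X / q * (1 + ℓ) := by nlinarith
    have h4 : 0 ≤ (Z : ℝ) * (1 + ℓ) := by positivity
    have h5 : 0 ≤ (q : ℝ) * (1 + ℓ) := by positivity
    have h6 : 0 ≤ (X : ℝ) / q * (1 + ℓ) := by positivity
    nlinarith
  rcases le_or_gt Z h with hZh | hZh
  · have h1 := hp1 Z le_rfl hZh
    have h2 : 17 * ((X : ℝ) / q + Z + q) * (1 + ℓ) ≤ 100 * ((X : ℝ) / q + Z + q) * (1 + ℓ) ^ 2 := by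
      have : ((X : ℝ) / q + Z + q) * (1 + ℓ) ≤ ((X : ℝ) / q + Z + q) * (1 + ℓ) ^ 2 :=
        mul_le_mul_of_nonneg_left hsq hD
      have h0 : 0 ≤ ((X : ℝ) / q + Z + q) * (1 + ℓ) := by positivity
      nlinarith
    linarith
  · have h1 := hp1 h hZh.le le_rfl
    have h2 := part_two q X h a α g hq ha hα hh1 hhq Z hZh.le
      (fun n hn => hg n (by rw [Finset.mem_Ioc] at *; omega))
    have h3 : ∑ n ∈ Ioc 0 Z, g n = ∑ n ∈ Ioc 0 h, g n + ∑ n ∈ Ioc h Z, g n := by
      rw [Finset.sum_Ioc_consecutive g (by omega) hZh.le]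
    rw [h3]
    have h4 : (X : ℝ) / h ≤ 2 * (X / q) := by
      rw [div_le_iff₀ hh0]
      have : 2 * ((X : ℝ) / q) * h = X * (2 * h / q) := by ring
      rw [this]
      have h7 : 1 ≤ 2 * (h : ℝ) / q := by rw [le_div_iff₀ hq0]; linarith
      nlinarith
    have h5 : (Z : ℝ) / h * q ≤ 2 * Z := by
      rw [div_mul_eq_mul_div, div_le_iff₀ hh0]
      nlinarith
    have h6 : Real.log ((Z : ℝ) / h) ≤ ℓ := by
      rw [hℓ]
      apply Real.log_le_log (div_pos (by exact_mod_cast (by omega : 0 < Z)) hh0)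
      have h7 : (Z : ℝ) / h ≤ Z := div_le_self hZ0 (by exact_mod_cast hh1)
      have h8 : (Z : ℝ) ≤ X := by exact_mod_cast hZX
      nlinarith
    have h6' : 0 ≤ 1 + Real.log ((Z : ℝ) / h) := by
      have : 0 ≤ Real.log ((Z : ℝ) / h) := Real.log_nonneg (by
        rw [le_div_iff₀ hh0, one_mul]; exact_mod_cast hZh.le)
      linarith
    have h7 : (X : ℝ) / h * (1 + Real.log (Z / h)) ≤ 2 * (X / q) * (1 + ℓ) :=
      mul_le_mul h4 (by linarith) h6' (by positivity)
    have h8 : (Z : ℝ) / h * (q * (1 + Real.log q)) ≤ 2 * Z * (1 + ℓ) := by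
      have : (Z : ℝ) / h * (q * (1 + Real.log q)) = ((Z : ℝ) / h * q) * (1 + Real.log q) := by ring
      rw [this]
      exact mul_le_mul h5 (by linarith) (by linarith) (by positivity)
    have h9 : 0 ≤ (q : ℝ) * (1 + ℓ) := by positivity
    have h10 : ((X : ℝ) / q + Z + q) * (1 + ℓ) ≤ ((X : ℝ) / q + Z + q) * (1 + ℓ) ^ 2 :=
        mul_le_mul_of_nonneg_left hsq hD
    nlinarith

end Pool.Agent.Lib.MP_629a14_nt.Th
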