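import Pool.Agent.Lib.MP_629a14_nt.Th.WLam
import Pool.Agent.Lib.MP_629a14_nt.Th.VMin

/-! The Fejér kernel and the smooth indicator function of the major arcs. -/

set_option autoImplicit false

namespace Pool.Agent.Lib.MP_629a14_nt.Th

open Finset Pool.Agent.Lib.MP_629a14_nt

theorem FH_nonneg (H : ℕ) (α : ℝ) : 0 ≤ FH H α := by
  unfold FH; positivity

private lemma count_shift (H : ℕ) (k : ℤ) (hk : k ∈ Ioo (-(H : ℤ)) H) :
    (((range H).filter (fun h : ℕ => 0 ≤ k + h ∧ k + h < H)).card : ℝ) = max 0 ((H : ℝ) - |(k : ℝ)|) := by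
  rw [Finset.mem_Ioo] at hk
  rcases le_or_gt 0 k with h0 | h0
  · obtain ⟨m, hm⟩ : ∃ m : ℕ, k = m := ⟨k.toNat, by omega⟩
    subst hm
    have : (range H).filter (fun h : ℕ => 0 ≤ (m : ℤ) + h ∧ (m : ℤ) + h < H) = range (H - m) := by
      ext x; rw [Finset.mem_filter, Finset.mem_range, Finset.mem_range]; omega
    rw [this, Finset.card_range, Nat.cast_sub (by omega)]
    have h1 : (m : ℝ) ≤ H := by exact_mod_cast (by omega : m ≤ H)
    rw [max_eq_right]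
    · simp
    · have : |((m : ℤ) : ℝ)| = m := by simp
      rw [this]; linarith
  · obtain ⟨m, hm⟩ : ∃ m : ℕ, k = -(m : ℤ) := ⟨(-k).toNat, by omega⟩
    subst hm
    have : (range H).filter (fun h : ℕ => 0 ≤ -(m : ℤ) + h ∧ -(m : ℤ) + h < H) = Ico m H := by
      ext x; rw [Finset.mem_filter, Finset.mem_range, Finset.mem_Ico]; omega
    rw [this, Nat.card_Ico, Nat.cast_sub (by omega)]
    have h1 : (m : ℝ) ≤ H := by exact_mod_cast (by omega : m ≤ H)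
    have h2 : |((-(m : ℤ) : ℤ) : ℝ)| = m := by push_cast; rw [abs_neg]; simp
    rw [max_eq_right]
    · rw [h2]
    · rw [h2]; linarith

private lemma double_sum (H : ℕ) (F : ℤ → ℂ) :
    ∑ h' ∈ range H, ∑ h ∈ range H, F ((h : ℤ) - h') =
      ∑ k ∈ Ioo (-(H : ℤ)) H, ((max 0 ((H : ℝ) - |(k : ℝ)|) : ℝ) : ℂ) * F k := by
  have h1 : ∀ h' ∈ range H, ∑ h ∈ range H, F ((h : ℤ) - h') =
      ∑ k ∈ Ioo (-(H : ℤ)) H, if 0 ≤ k + h' ∧ k + h' < H then F k else 0 := by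
    intro h' hh'
    rw [Finset.mem_range] at hh'
    rw [← Finset.sum_filter]
    refine Finset.sum_bij (fun h _ => (h : ℤ) - h') ?_ ?_ ?_ ?_
    · intro h hh
      rw [Finset.mem_range] at hh
      rw [Finset.mem_filter, Finset.mem_Ioo]; omega
    · intro a _ b _ hab
      have : (a : ℤ) - h' = b - h' := hab
      omega
    · intro b hb
      rw [Finset.mem_filter, Finset.mem_Ioo] at hb
      exact ⟨(b + h').toNat, by rw [Finset.mem_range]; omega, by omega⟩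
    · intro a _; rfl
  rw [Finset.sum_congr rfl h1, Finset.sum_comm]
  apply Finset.sum_congr rfl
  intro k hk
  rw [← count_shift H k hk, ← Finset.sum_filter, Finset.sum_const, nsmul_eq_mul]
  push_cast
  rfl

/-- Expansion of the Fejér kernel. -/
theorem FH_eq (H : ℕ) (hH : 1 ≤ H) (α : ℝ) :
    (FH H α : ℂ) = ∑ k ∈ Ioo (-(H : ℤ)) H, (fej H (k : ℝ) : ℂ) * ee (k * α) := by
  have h1 : ((‖∑ h ∈ range H, ee (h * α)‖ ^ 2 : ℝ) : ℂ) =
      ∑ h' ∈ range H, ∑ h ∈ range H, ee ((((h : ℤ) - h' : ℤ) : ℝ) * α) := by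
    have : ((‖∑ h ∈ range H, ee (h * α)‖ ^ 2 : ℝ) : ℂ) =
        (starRingEnd ℂ) (∑ h ∈ range H, ee (h * α)) * (∑ h ∈ range H, ee (h * α)) := by
      rw [Complex.conj_mul']; push_cast; rfl
    rw [this, map_sum, Finset.sum_mul_sum]
    apply Finset.sum_congr rfl; intro h' _
    apply Finset.sum_congr rfl; intro h _
    rw [conj_ee, ← ee_add]
    congr 1; push_cast; ring
  have h2 := double_sum H (fun k => ee ((k : ℝ) * α))
  have h3 : (FH H α : ℂ) = (∑ h' ∈ range H, ∑ h ∈ range H, ee ((((h : ℤ) - h' : ℤ) : ℝ) * α)) / (H : ℂ) ^ 2 := by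
    rw [← h1]; unfold FH; push_cast; rfl
  beta_reduce at h2
  rw [h3, h2, Finset.sum_div]
  apply Finset.sum_congr rfl
  intro k _
  unfold fej
  push_cast
  ring

theorem FH_le_one (H : ℕ) (hH : 1 ≤ H) (α : ℝ) : FH H α ≤ 1 := by
  unfold FH
  have hH0 : (0 : ℝ) < H := by exact_mod_cast hH
  rw [div_le_one (by positivity)]
  have : ‖∑ h ∈ range H, ee (h * α)‖ ≤ H := by
    refine (norm_sum_le _ _).trans ?_
    simp_rw [norm_ee]
    simp
  exact pow_le_pow_left₀ (norm_nonneg _) this 2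

/-- From `geom_dn`. -/
theorem FH_decay (H : ℕ) (hH : 1 ≤ H) (α : ℝ) : FH H α * (H * dn α) ^ 2 ≤ 1 := by
  have hH0 : (0 : ℝ) < H := by exact_mod_cast hH
  have h1 := geom_dn 0 H α
  have h2 : ‖∑ m ∈ Ioc 0 H, ee (m * α)‖ = ‖∑ h ∈ range H, ee (h * α)‖ := by
    have : ∑ m ∈ Ioc 0 H, ee (m * α) = ee α * ∑ h ∈ range H, ee (h * α) := by
      have e : Ioc 0 H = Ico (0 + 1) (H + 1) := by
        ext x; rw [Finset.mem_Ioc, Finset.mem_Ico]; omega
      rw [e, ← Finset.sum_Ico_add' (fun m : ℕ => ee (m * α)) 0 H 1, Finset.mul_sum,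
        Finset.range_eq_Ico]
      apply Finset.sum_congr rfl
      intro h _
      rw [← ee_add]; congr 1; push_cast; ring
    rw [this, norm_mul, norm_ee, one_mul]
  rw [h2] at h1
  have h3 : FH H α * (H * dn α) ^ 2 = (‖∑ h ∈ range H, ee (h * α)‖ * dn α) ^ 2 := by
    unfold FH
    obtain ⟨s, hs⟩ : ∃ s, s = ‖∑ h ∈ range H, ee (h * α)‖ := ⟨_, rfl⟩
    rw [← hs]; field_simp
  rw [h3]
  have h4 : 0 ≤ ‖∑ h ∈ range H, ee (h * α)‖ * dn α := mul_nonneg (norm_nonneg _) (abs_nonneg _)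
  nlinarith

/-- `1 - FH = ∑ fej(k) (1 - cos 2πkβ)`. -/
theorem one_sub_FH (H : ℕ) (hH : 1 ≤ H) (β : ℝ) : 1 - FH H β ≤ 40 * (H * β) ^ 2 := by
  have hH0 : (0 : ℝ) < H := by exact_mod_cast hH
  obtain ⟨c, hc⟩ : ∃ c, c = 2 * Real.pi ^ 2 * (H * β) ^ 2 := ⟨_, rfl⟩
  have hc0 : 0 ≤ c := by rw [hc]; positivity
  have hpi : Real.pi ^ 2 ≤ 10 := by
    have h1 := Real.pi_lt_d2
    have h2 := Real.pi_pos
    nlinarith
  have hc40 : 2 * c ≤ 40 * (H * β) ^ 2 := by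
    rw [hc]
    have : 0 ≤ (H * β) ^ 2 := sq_nonneg _
    nlinarith
  have hlow : H * (1 - c) ≤ ‖∑ h ∈ range H, ee (h * β)‖ := by
    have h1 : (∑ h ∈ range H, ee (h * β)).re ≤ ‖∑ h ∈ range H, ee (h * β)‖ := Complex.re_le_norm _
    refine le_trans ?_ h1
    rw [Complex.re_sum]
    have h2 : ∀ h ∈ range H, 1 - c ≤ (ee (h * β)).re := by
      intro h hh
      rw [Finset.mem_range] at hh
      have e1 : (ee (h * β)).re = Real.cos (2 * Real.pi * (h * β)) := by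
        unfold ee
        have : (2 * Real.pi * ((h * β : ℝ) : ℂ) * Complex.I : ℂ) = ((2 * Real.pi * (h * β) : ℝ) : ℂ) * Complex.I := by
          push_cast; ring
        rw [this, Complex.exp_ofReal_mul_I_re]
      rw [e1]
      have h3 := Real.one_sub_sq_div_two_le_cos (x := 2 * Real.pi * (h * β))
      have h4 : (h : ℝ) ^ 2 ≤ (H : ℝ) ^ 2 := by
        have : (h : ℝ) ≤ H := by exact_mod_cast hh.le
        exact pow_le_pow_left₀ (Nat.cast_nonneg h) this 2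
      have h5 : (2 * Real.pi * (h * β)) ^ 2 / 2 ≤ c := by
        have e2 : (2 * Real.pi * (h * β)) ^ 2 / 2 = 2 * Real.pi ^ 2 * β ^ 2 * (h : ℝ) ^ 2 := by ring
        have e3 : c = 2 * Real.pi ^ 2 * β ^ 2 * (H : ℝ) ^ 2 := by rw [hc]; ring
        rw [e2, e3]
        exact mul_le_mul_of_nonneg_left h4 (by positivity)
      linarith
    calc H * (1 - c) = ∑ _h ∈ range H, (1 - c) := by rw [Finset.sum_const, Finset.card_range, nsmul_eq_mul]
      _ ≤ _ := Finset.sum_le_sum h2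
  rcases le_or_gt 1 c with h1 | h1
  · have := FH_nonneg H β
    linarith
  · have h2 : (1 - c) ^ 2 ≤ FH H β := by
      unfold FH
      rw [le_div_iff₀ (by positivity)]
      have h3 : 0 ≤ H * (1 - c) := mul_nonneg hH0.le (by linarith)
      have h4 := pow_le_pow_left₀ h3 hlow 2
      calc (1 - c) ^ 2 * (H : ℝ) ^ 2 = (H * (1 - c)) ^ 2 := by ring
        _ ≤ _ := h4
    nlinarith

theorem FH_periodic (H : ℕ) (α : ℝ) (k : ℤ) : FH H (α + k) = FH H α := by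
  unfold FH
  have : ∀ h : ℕ, ee (h * (α + k)) = ee (h * α) := by
    intro h
    have e : (h : ℝ) * (α + k) = h * α + ((h * k : ℤ) : ℝ) := by push_cast; ring
    rw [e, ee_add, ee_int, mul_one]
  simp_rw [this]

/-- Any two different Farey fractions of order `P` have distance `≥ 1/P²` modulo 1. -/
theorem farey_sep {P q q' a a' : ℕ} (hq : q ∈ Icc 1 P) (hq' : q' ∈ Icc 1 P) (ha : a < q) (ha' : a' < q')
    (hc : a.Coprime q) (hc' : a'.Coprime q') (hne : ¬ (q = q' ∧ a = a')) :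
    1 / (P : ℝ) ^ 2 ≤ dn ((a : ℝ) / q - a' / q') := by
  rw [Finset.mem_Icc] at hq hq'
  obtain ⟨N, hN⟩ : ∃ N, N = round ((a : ℝ) / q - a' / q') := ⟨_, rfl⟩
  unfold dn
  rw [← hN]
  have hq0 : (0 : ℝ) < q := by exact_mod_cast hq.1
  have hq0' : (0 : ℝ) < q' := by exact_mod_cast hq'.1
  obtain ⟨w, hw⟩ : ∃ w : ℤ, w = (a : ℤ) * q' - a' * q - N * (q * q') := ⟨_, rfl⟩
  have e : (a : ℝ) / q - a' / q' - N = (w : ℝ) / (q * q') := by
    rw [hw]; push_cast; field_simp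
  have hw0 : w ≠ 0 := by
    intro h0
    rw [h0] at hw
    -- N must be zero
    have hN0 : N = 0 := by
      have h1 : (a : ℤ) * q' < q * q' := by
        have : (0 : ℤ) < q' := by exact_mod_cast hq'.1
        have h2 : (a : ℤ) < q := by exact_mod_cast ha
        exact mul_lt_mul_of_pos_right h2 this
      have h2 : (a' : ℤ) * q < q * q' := by
        have : (0 : ℤ) < q := by exact_mod_cast hq.1
        have h3 : (a' : ℤ) < q' := by exact_mod_cast ha'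
        rw [mul_comm (q : ℤ) q']
        exact mul_lt_mul_of_pos_right h3 this
      have h3 : (0 : ℤ) ≤ a * q' := by positivity
      have h4 : (0 : ℤ) ≤ a' * q := by positivity
      have h5 : (0 : ℤ) < q * q' := by
        have : (0 : ℤ) < q := by exact_mod_cast hq.1
        have h3 : (0 : ℤ) < q' := by exact_mod_cast hq'.1
        positivity
      have h6 : N * (q * q') < 1 * (q * q' : ℤ) := by linarith
      have h7 : (-1) * (q * q' : ℤ) < N * (q * q') := by linarith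
      have h8 := lt_of_mul_lt_mul_right h6 h5.le
      have h9 := lt_of_mul_lt_mul_right h7 h5.le
      omega
    rw [hN0] at hw
    have h1 : a * q' = a' * q := by
      have : (a : ℤ) * q' = a' * q := by linarith
      exact_mod_cast this
    have hd1 : q ∣ q' := by
      have : q ∣ a * q' := ⟨a', by rw [h1, mul_comm]⟩
      exact Nat.Coprime.dvd_of_dvd_mul_left hc.symm this
    have hd2 : q' ∣ q := by
      have : q' ∣ a' * q := ⟨a, by rw [← h1, mul_comm]⟩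
      exact Nat.Coprime.dvd_of_dvd_mul_left hc'.symm this
    have hqq : q = q' := Nat.dvd_antisymm hd1 hd2
    apply hne
    refine ⟨hqq, ?_⟩
    rw [← hqq] at h1
    exact Nat.eq_of_mul_eq_mul_right hq.1 h1
  rw [e, abs_div]
  have h1 : (1 : ℝ) ≤ |(w : ℝ)| := by
    rw [← Int.cast_abs]; exact_mod_cast Int.one_le_abs hw0
  have h2 : |(q : ℝ) * q'| = q * q' := abs_of_pos (by positivity)
  rw [h2]
  have hqP : (q : ℝ) ≤ P := by exact_mod_cast hq.2
  have hqP' : (q' : ℝ) ≤ P := by exact_mod_cast hq'.2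
  have hP0 : (0 : ℝ) < P := hq0.trans_le hqP
  calc 1 / (P : ℝ) ^ 2 ≤ 1 / ((q : ℝ) * q') := by
        apply one_div_le_one_div_of_le (by positivity)
        nlinarith
    _ ≤ |(w : ℝ)| / (q * q') := by
        apply div_le_div_of_nonneg_right h1 (by positivity)

theorem Psi_nonneg (P H : ℕ) (α : ℝ) : 0 ≤ Psi P H α := by
  unfold Psi
  exact Finset.sum_nonneg fun q _ => Finset.sum_nonneg fun a _ => FH_nonneg _ _

private lemma dn_le_abs (x : ℝ) (n : ℤ) : dn x ≤ |x - n| := round_le x n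

private lemma dn_tri (x y : ℝ) : dn (x - y) ≤ dn x + dn y := by
  have h1 := dn_le_abs (x - y) (round x - round y)
  have h2 : x - y - ((round x - round y : ℤ) : ℝ) = (x - round x) - (y - round y) := by
    push_cast; ring
  rw [h2] at h1
  exact h1.trans (abs_sub _ _)

/-- The Farey fractions of order `P`. -/
private def FF (P : ℕ) : Finset (Σ _ : ℕ, ℕ) :=
  (Icc 1 P).sigma (fun q => (range q).filter (fun a => a.Coprime q))

private lemma mem_FF (P : ℕ) (x : Σ _ : ℕ, ℕ) :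
    x ∈ FF P ↔ (1 ≤ x.1 ∧ x.1 ≤ P) ∧ x.2 < x.1 ∧ x.2.Coprime x.1 := by
  unfold FF
  rw [Finset.mem_sigma, Finset.mem_Icc, Finset.mem_filter, Finset.mem_range]

private lemma Psi_FF (P H : ℕ) (α : ℝ) :
    Psi P H α = ∑ x ∈ FF P, FH H (α - (x.2 : ℝ) / x.1) := by
  unfold Psi FF
  rw [Finset.sum_sigma]

private lemma card_FF (P : ℕ) : ((FF P).card : ℝ) ≤ (P : ℝ) ^ 2 := by
  have : (FF P).card ≤ P ^ 2 := by
    unfold FF
    rw [Finset.card_sigma]
    calc ∑ q ∈ Icc 1 P, ((range q).filter (fun a => a.Coprime q)).card ≤ ∑ _q ∈ Icc 1 P, P := by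
          apply Finset.sum_le_sum
          intro q hq
          rw [Finset.mem_Icc] at hq
          calc ((range q).filter (fun a => a.Coprime q)).card ≤ (range q).card := Finset.card_filter_le _ _
            _ ≤ P := by rw [Finset.card_range]; exact hq.2
      _ = P ^ 2 := by rw [Finset.sum_const, Nat.card_Icc, smul_eq_mul]; simp; ring
  exact_mod_cast this

private lemma FH_far (P H : ℕ) (hH : 1 ≤ H) (hP : 1 ≤ P) (β : ℝ) (h : 1 / (2 * (P : ℝ) ^ 2) ≤ dn β) :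
    FH H β ≤ 4 * (P : ℝ) ^ 4 / (H : ℝ) ^ 2 := by
  have hH0 : (0 : ℝ) < H := by exact_mod_cast hH
  have hP0 : (0 : ℝ) < P := by exact_mod_cast hP
  have h1 := FH_decay H hH β
  rw [le_div_iff₀ (by positivity)]
  have h2 : (1 : ℝ) ≤ 2 * (P : ℝ) ^ 2 * dn β := by
    rw [div_le_iff₀ (by positivity)] at h; linarith
  have h3 : (1 : ℝ) ≤ (2 * (P : ℝ) ^ 2 * dn β) ^ 2 := by nlinarith
  have h4 : 0 ≤ FH H β * (H : ℝ) ^ 2 := mul_nonneg (FH_nonneg _ _) (by positivity)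
  calc FH H β * (H : ℝ) ^ 2 ≤ FH H β * (H : ℝ) ^ 2 * (2 * (P : ℝ) ^ 2 * dn β) ^ 2 := by nlinarith
    _ = 4 * (P : ℝ) ^ 4 * (FH H β * (H * dn β) ^ 2) := by ring
    _ ≤ 4 * (P : ℝ) ^ 4 * 1 := mul_le_mul_of_nonneg_left h1 (by positivity)
    _ = 4 * (P : ℝ) ^ 4 := by ring

private lemma sum_far (P H : ℕ) (hH : 1 ≤ H) (hP : 1 ≤ P) (α : ℝ) (S : Finset (Σ _ : ℕ, ℕ))
    (hS : S ⊆ FF P) (h : ∀ x ∈ S, 1 / (2 * (P : ℝ) ^ 2) ≤ dn (α - (x.2 : ℝ) / x.1)) :
    ∑ x ∈ S, FH H (α - (x.2 : ℝ) / x.1) ≤ 4 * (P : ℝ) ^ 6 / (H : ℝ) ^ 2 := by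
  have hH0 : (0 : ℝ) < H := by exact_mod_cast hH
  have hP0 : (0 : ℝ) < P := by exact_mod_cast hP
  have h1 : ∑ x ∈ S, FH H (α - (x.2 : ℝ) / x.1) ≤ ∑ _x ∈ S, 4 * (P : ℝ) ^ 4 / (H : ℝ) ^ 2 :=
    Finset.sum_le_sum fun x hx => FH_far P H hH hP _ (h x hx)
  rw [Finset.sum_const, nsmul_eq_mul] at h1
  have h2 : (S.card : ℝ) ≤ (P : ℝ) ^ 2 := by
    have : (S.card : ℝ) ≤ (FF P).card := by exact_mod_cast Finset.card_le_card hS
    exact this.trans (card_FF P)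
  have h3 : 0 ≤ 4 * (P : ℝ) ^ 4 / (H : ℝ) ^ 2 := by positivity
  calc _ ≤ _ := h1
    _ ≤ (P : ℝ) ^ 2 * (4 * (P : ℝ) ^ 4 / (H : ℝ) ^ 2) := mul_le_mul_of_nonneg_right h2 h3
    _ = _ := by ring

private lemma sep_FF (P : ℕ) (x y : Σ _ : ℕ, ℕ) (hx : x ∈ FF P) (hy : y ∈ FF P) (hne : x ≠ y) :
    1 / (P : ℝ) ^ 2 ≤ dn ((x.2 : ℝ) / x.1 - (y.2 : ℝ) / y.1) := by
  obtain ⟨q, a⟩ := x
  obtain ⟨q', a'⟩ := y
  rw [mem_FF] at hx hy
  simp only at hx hy ⊢
  apply farey_sep (Finset.mem_Icc.mpr hx.1) (Finset.mem_Icc.mpr hy.1) hx.2.1 hy.2.1 hx.2.2 hy.2.2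
  rintro ⟨h1, h2⟩
  subst h1; subst h2
  exact hne rfl

/-- At most one Farey fraction has distance less than `1/(2P²)` from `α`; the others contribute at most
`P² · (2P²/H)²` in total (`FH_decay`). -/
theorem Psi_le (P H : ℕ) (hH : 1 ≤ H) (h : 4 * P ^ 6 ≤ H ^ 2) (hP : 1 ≤ P) (α : ℝ) : Psi P H α ≤ 2 := by
  classical
  have hH0 : (0 : ℝ) < H := by exact_mod_cast hH
  have hP0 : (0 : ℝ) < P := by exact_mod_cast hP
  rw [Psi_FF]
  rw [← Finset.sum_filter_add_sum_filter_not (FF P)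
    (fun x => dn (α - (x.2 : ℝ) / x.1) < 1 / (2 * (P : ℝ) ^ 2))]
  have h1 := sum_far P H hH hP α
    ((FF P).filter (fun x => ¬ dn (α - (x.2 : ℝ) / x.1) < 1 / (2 * (P : ℝ) ^ 2)))
    (Finset.filter_subset _ _) (fun x hx => by
      rw [Finset.mem_filter] at hx
      exact not_lt.mp hx.2)
  have h2 : 4 * (P : ℝ) ^ 6 / (H : ℝ) ^ 2 ≤ 1 := by
    rw [div_le_one (by positivity)]; exact_mod_cast h
  have h3 : ((FF P).filter (fun x => dn (α - (x.2 : ℝ) / x.1) < 1 / (2 * (P : ℝ) ^ 2))).card ≤ 1 := by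
    rw [Finset.card_le_one]
    intro x hx y hy
    rw [Finset.mem_filter] at hx hy
    by_contra hne
    have h4 := sep_FF P x y hx.1 hy.1 hne
    have h5 := dn_tri (α - (y.2 : ℝ) / y.1) (α - (x.2 : ℝ) / x.1)
    have h6 : (α - (y.2 : ℝ) / y.1) - (α - (x.2 : ℝ) / x.1) = (x.2 : ℝ) / x.1 - (y.2 : ℝ) / y.1 := by ring
    rw [h6] at h5
    have h7 : 1 / (2 * (P : ℝ) ^ 2) + 1 / (2 * (P : ℝ) ^ 2) = 1 / (P : ℝ) ^ 2 := by field_simp; norm_num
    linarith [hx.2, hy.2]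
  have h4 : ∑ x ∈ (FF P).filter (fun x => dn (α - (x.2 : ℝ) / x.1) < 1 / (2 * (P : ℝ) ^ 2)),
      FH H (α - (x.2 : ℝ) / x.1) ≤ 1 := by
    calc _ ≤ ∑ _x ∈ (FF P).filter (fun x => dn (α - (x.2 : ℝ) / x.1) < 1 / (2 * (P : ℝ) ^ 2)), (1 : ℝ) :=
          Finset.sum_le_sum fun x _ => FH_le_one H hH _
      _ ≤ 1 := by
          rw [Finset.sum_const, nsmul_eq_mul, mul_one]; exact_mod_cast h3
  linarith

/-- Near a Farey fraction. -/
theorem Psi_near (P H q : ℕ) (a : ℤ) (α : ℝ) (hH : 1 ≤ H) (hq : 1 ≤ q) (hqP : q ≤ P)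
    (ha : IsCoprime a (q : ℤ)) (hα : |α - a / q| ≤ 1 / (4 * (P : ℝ) ^ 2)) :
    |1 - Psi P H α| ≤ 40 * (H * (α - a / q)) ^ 2 + 4 * (P : ℝ) ^ 6 / (H : ℝ) ^ 2 := by
  classical
  have hH0 : (0 : ℝ) < H := by exact_mod_cast hH
  have hP : 1 ≤ P := hq.trans hqP
  have hP0 : (0 : ℝ) < P := by exact_mod_cast hP
  have hq0 : (0 : ℝ) < q := by exact_mod_cast hq
  have hqZ : (0 : ℤ) < q := by exact_mod_cast hq
  obtain ⟨a0, ha0⟩ : ∃ a0 : ℕ, a0 = (a % (q : ℤ)).toNat := ⟨_, rfl⟩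
  have p1 := Int.emod_nonneg a hqZ.ne'
  have p2 := Int.emod_lt_of_pos a hqZ
  have ha0Z : (a0 : ℤ) = a % (q : ℤ) := by omega
  have ha0q : a0 < q := by omega
  obtain ⟨k, hk⟩ : ∃ k : ℤ, k = a / (q : ℤ) := ⟨_, rfl⟩
  have hdiv : a = a0 + q * k := by
    rw [ha0Z, hk]; exact (Int.emod_add_mul_ediv _ _).symm
  have hcop : a0.Coprime q := by
    have h1 : IsCoprime ((a0 : ℤ) + q * k) q := by rw [← hdiv]; exact ha
    exact Nat.isCoprime_iff_coprime.mp (IsCoprime.of_add_mul_left_left h1)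
  have hx : (⟨q, a0⟩ : Σ _ : ℕ, ℕ) ∈ FF P := by
    rw [mem_FF]; exact ⟨⟨hq, hqP⟩, ha0q, hcop⟩
  have hshift : α - (a0 : ℝ) / q = (α - a / q) + k := by
    rw [hdiv]; push_cast; field_simp; ring
  have hFH : FH H (α - (a0 : ℝ) / q) = FH H (α - a / q) := by
    rw [hshift, FH_periodic]
  rw [Psi_FF, ← Finset.add_sum_erase _ _ hx]
  simp only
  rw [hFH]
  have hfar := sum_far P H hH hP α ((FF P).erase ⟨q, a0⟩) (Finset.erase_subset _ _) (fun y hy => by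
    rw [Finset.mem_erase] at hy
    have h4 := sep_FF P y ⟨q, a0⟩ hy.2 hx hy.1
    have h5 := dn_tri (α - (a0 : ℝ) / q) (α - (y.2 : ℝ) / y.1)
    have h6 : (α - (a0 : ℝ) / q) - (α - (y.2 : ℝ) / y.1) = (y.2 : ℝ) / y.1 - (a0 : ℝ) / q := by ring
    rw [h6] at h5
    simp only at h4
    have h7 : dn (α - (a0 : ℝ) / q) ≤ 1 / (4 * (P : ℝ) ^ 2) := by
      have h8 := dn_le_abs (α - (a0 : ℝ) / q) k
      rw [hshift, add_sub_cancel_right] at h8
      rw [hshift]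
      exact h8.trans hα
    have h9 : 1 / (P : ℝ) ^ 2 - 1 / (4 * (P : ℝ) ^ 2) = 3 / (4 * (P : ℝ) ^ 2) := by field_simp; norm_num
    have h10 : 1 / (2 * (P : ℝ) ^ 2) ≤ 3 / (4 * (P : ℝ) ^ 2) := by
      rw [div_le_div_iff₀ (by positivity) (by positivity)]
      nlinarith [sq_nonneg (P : ℝ)]
    linarith)
  have hpos : 0 ≤ ∑ y ∈ (FF P).erase ⟨q, a0⟩, FH H (α - (y.2 : ℝ) / y.1) :=
    Finset.sum_nonneg fun _ _ => FH_nonneg _ _
  have h1 := one_sub_FH H hH (α - a / q)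
  have h2 := FH_le_one H hH (α - a / q)
  have h3 : 0 ≤ 40 * (H * (α - a / q)) ^ 2 := by positivity
  rw [abs_le]
  constructor <;> linarith

end Pool.Agent.Lib.MP_629a14_nt.Th
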