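import Pool.Agent.Lib.MP_629a14_nt.Th.Vino2
import Pool.Agent.Lib.MP_629a14_nt.Th.Fejer

/-! The exponential sum is small off the major arcs. -/

set_option autoImplicit false

namespace Pool.Agent.Lib.MP_629a14_nt.Th

open Finset Pool.Agent.Lib.MP_629a14_nt

private theorem VSup_logs (C : ℝ) : ∃ N₀ : ℕ, ∀ N P : ℕ, N₀ ≤ N →
    Real.exp ((Real.log N) ^ (3 / 4 : ℝ)) ≤ P → C * (1 + Real.log N) ^ 12 ≤ Real.sqrt P := by
  obtain ⟨K, hK⟩ : ∃ K : ℝ, K = |C| * 4096 * 2 ^ 25 * (Nat.factorial 25 : ℝ) + 1 := ⟨_, rfl⟩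
  have hK1 : 1 ≤ K := by
    have : 0 ≤ |C| * 4096 * 2 ^ 25 * (Nat.factorial 25 : ℝ) := by positivity
    linarith
  refine ⟨⌈Real.exp (K ^ 2)⌉₊, fun N P hN hP => ?_⟩
  have hNr : Real.exp (K ^ 2) ≤ N := (Nat.le_ceil _).trans (by exact_mod_cast hN)
  have hx : K ^ 2 ≤ Real.log N := by
    rw [← Real.log_exp (K ^ 2)]
    exact Real.log_le_log (Real.exp_pos _) hNr
  obtain ⟨x, hxd⟩ : ∃ x : ℝ, x = Real.log N := ⟨_, rfl⟩
  obtain ⟨y, hyd⟩ : ∃ y : ℝ, y = x ^ (3 / 4 : ℝ) := ⟨_, rfl⟩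
  rw [← hxd] at hx hP ⊢
  rw [← hyd] at hP
  have hx1 : 1 ≤ x := by nlinarith
  have hKy : K ≤ y := by
    have h1 : (K ^ 2) ^ (3 / 4 : ℝ) ≤ x ^ (3 / 4 : ℝ) :=
      Real.rpow_le_rpow (by positivity) hx (by norm_num)
    have h2 : (K ^ 2 : ℝ) ^ (3 / 4 : ℝ) = K ^ (3 / 2 : ℝ) := by
      rw [← Real.rpow_natCast K 2, ← Real.rpow_mul (by linarith)]
      norm_num
    have h3 : K ≤ K ^ (3 / 2 : ℝ) := by
      have := Real.rpow_le_rpow_of_exponent_le hK1 (show (1 : ℝ) ≤ 3 / 2 by norm_num)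
      rwa [Real.rpow_one] at this
    rw [hyd]
    linarith [h2 ▸ h1]
  have hy1 : 1 ≤ y := by linarith
  have hxy : x ≤ y ^ 2 := by
    have h1 : y ^ 2 = x ^ (3 / 2 : ℝ) := by
      rw [hyd, ← Real.rpow_natCast, ← Real.rpow_mul (by linarith)]
      norm_num
    have h3 : x ≤ x ^ (3 / 2 : ℝ) := by
      have := Real.rpow_le_rpow_of_exponent_le hx1 (show (1 : ℝ) ≤ 3 / 2 by norm_num)
      rwa [Real.rpow_one] at this
    linarith
  have hsq : Real.exp (y / 2) ≤ Real.sqrt P := by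
    apply Real.le_sqrt_of_sq_le
    rw [← Real.exp_nat_mul]
    refine le_trans (le_of_eq ?_) hP
    congr 1
    push_cast
    ring
  have hexp := Real.pow_div_factorial_le_exp (y / 2) (by linarith) 25
  have h4 : (1 + x) ^ 12 ≤ 4096 * y ^ 24 := by
    have : (1 + x) ≤ 2 * y ^ 2 := by nlinarith
    calc (1 + x) ^ 12 ≤ (2 * y ^ 2) ^ 12 := pow_le_pow_left₀ (by linarith) this 12
      _ = 4096 * y ^ 24 := by ring
  have hfac : (0 : ℝ) < (Nat.factorial 25 : ℝ) := by exact_mod_cast Nat.factorial_pos 25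
  have h5 : |C| * (4096 * y ^ 24) ≤ (y / 2) ^ 25 / (Nat.factorial 25 : ℝ) := by
    rw [le_div_iff₀ hfac]
    have h6 : |C| * 4096 * 2 ^ 25 * (Nat.factorial 25 : ℝ) ≤ y := by linarith
    have h7 : 0 ≤ y ^ 24 := by positivity
    have h8 := mul_le_mul_of_nonneg_right h6 h7
    have h9 : (y / 2) ^ 25 = y * y ^ 24 / 2 ^ 25 := by ring
    rw [h9, le_div_iff₀ (by positivity)]
    calc |C| * (4096 * y ^ 24) * (Nat.factorial 25 : ℝ) * 2 ^ 25
        = |C| * 4096 * 2 ^ 25 * (Nat.factorial 25 : ℝ) * y ^ 24 := by ring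
      _ ≤ y * y ^ 24 := h8
  calc C * (1 + x) ^ 12 ≤ |C| * (1 + x) ^ 12 :=
        mul_le_mul_of_nonneg_right (le_abs_self C) (by positivity)
    _ ≤ |C| * (4096 * y ^ 24) := mul_le_mul_of_nonneg_left h4 (abs_nonneg C)
    _ ≤ _ := h5
    _ ≤ _ := hexp
    _ ≤ _ := hsq

/-- Parseval for trigonometric polynomials with frequencies `h / M`. -/
private theorem VSup_parseval {M : ℕ} (hM : 0 < M) (S : Finset ℕ) (hS : S ⊆ range M) (c : ℕ → ℂ) :
    ∑ n ∈ range M, ‖∑ h ∈ S, c h * ee (((h : ℝ) / M) * n)‖ ^ 2 = (M : ℝ) * ∑ h ∈ S, ‖c h‖ ^ 2 := by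
  have hM0 : (M : ℝ) ≠ 0 := by exact_mod_cast hM.ne'
  have key : ∀ n ∈ range M, ((‖∑ h ∈ S, c h * ee (((h : ℝ) / M) * n)‖ ^ 2 : ℝ) : ℂ) =
      ∑ h ∈ S, ∑ k ∈ S, c h * (starRingEnd ℂ) (c k) *
        ee ((n : ℝ) * ((((h : ℤ) - (k : ℤ) : ℤ) : ℝ) / M)) := by
    intro n _
    rw [Complex.ofReal_pow, ← Complex.mul_conj', map_sum, sum_mul_sum]
    refine sum_congr rfl fun h _ => sum_congr rfl fun k _ => ?_
    rw [map_mul, conj_ee]
    have e : ee ((n : ℝ) * ((((h : ℤ) - (k : ℤ) : ℤ) : ℝ) / M)) =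
        ee (((h : ℝ) / M) * n) * ee (-(((k : ℝ) / M) * n)) := by
      rw [← ee_add]
      congr 1
      push_cast
      ring
    rw [e]
    ring
  have h2 : ((∑ n ∈ range M, ‖∑ h ∈ S, c h * ee (((h : ℝ) / M) * n)‖ ^ 2 : ℝ) : ℂ) =
      (((M : ℝ) * ∑ h ∈ S, ‖c h‖ ^ 2 : ℝ) : ℂ) := by
    rw [Complex.ofReal_sum, sum_congr rfl key, sum_comm]
    have h3 : ∀ h ∈ S, ∑ n ∈ range M, ∑ k ∈ S, c h * (starRingEnd ℂ) (c k) *
        ee ((n : ℝ) * ((((h : ℤ) - (k : ℤ) : ℤ) : ℝ) / M)) =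
        (M : ℂ) * (c h * (starRingEnd ℂ) (c h)) := by
      intro h hh
      rw [sum_comm]
      have h4 : ∀ k ∈ S, ∑ n ∈ range M, c h * (starRingEnd ℂ) (c k) *
          ee ((n : ℝ) * ((((h : ℤ) - (k : ℤ) : ℤ) : ℝ) / M)) =
          if h = k then (M : ℂ) * (c h * (starRingEnd ℂ) (c k)) else 0 := by
        intro k hk
        rw [← mul_sum, sum_ee_range M hM]
        have hh' := mem_range.1 (hS hh)
        have hk' := mem_range.1 (hS hk)
        by_cases hhk : h = k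
        · subst hhk
          simp
          ring
        · rw [if_neg hhk, if_neg, mul_zero]
          intro hdvd
          apply hhk
          have h5 : ((h : ℤ) - k) = 0 := by
            apply Int.eq_zero_of_abs_lt_dvd hdvd
            rw [abs_lt]
            constructor <;> omega
          omega
      rw [sum_congr rfl h4, sum_ite_eq, if_pos hh]
    rw [sum_congr rfl h3, ← mul_sum]
    push_cast
    congr 1
    refine sum_congr rfl fun h _ => ?_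
    rw [Complex.mul_conj']
  exact_mod_cast h2

/-- Bounds for the width of the major arcs. -/
private theorem VSup_H {N P : ℕ} (hP2 : 2 ≤ P) (hPN : P ^ 100 ≤ N) :
    P ^ 80 ≤ N / P ^ 20 ∧ ((N / P ^ 20 : ℕ) : ℝ) * (P : ℝ) ^ 20 ≤ N := by
  constructor
  · rw [Nat.le_div_iff_mul_le (by positivity)]
    calc P ^ 80 * P ^ 20 = P ^ 100 := by ring
      _ ≤ N := hPN
  · have : (N / P ^ 20) * P ^ 20 ≤ N := Nat.div_mul_le_self _ _
    exact_mod_cast this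

private theorem VSup_psi {N P : ℕ} (hP2 : 2 ≤ P) (hPN : P ^ 100 ≤ N) (α : ℝ) :
    |1 - Psi P (N / P ^ 20) α| ≤ 1 := by
  obtain ⟨h1, -⟩ := VSup_H hP2 hPN
  have hPpos : 0 < P := by omega
  have hH1 : 1 ≤ N / P ^ 20 := le_trans (Nat.one_le_pow _ _ hPpos) h1
  have h4 : 4 * P ^ 6 ≤ (N / P ^ 20) ^ 2 := by
    calc 4 * P ^ 6 ≤ P ^ 2 * P ^ 6 := by
          have : 4 ≤ P ^ 2 := by nlinarith
          exact Nat.mul_le_mul_right _ this
      _ = P ^ 8 := by ring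
      _ ≤ P ^ 160 := Nat.pow_le_pow_right hPpos (by norm_num)
      _ = (P ^ 80) ^ 2 := by ring
      _ ≤ _ := Nat.pow_le_pow_left h1 2
  have h5 := Psi_le P (N / P ^ 20) hH1 h4 (by omega) α
  have h6 := Psi_nonneg P (N / P ^ 20) α
  rw [abs_le]
  constructor <;> linarith

private theorem VSup_P2 {N P : ℕ} (hN : 3 ≤ N) (hP : Real.exp ((Real.log N) ^ (3 / 4 : ℝ)) ≤ P) :
    2 ≤ P := by
  by_contra h
  have h1 : (P : ℝ) ≤ 1 := by exact_mod_cast (by omega : P ≤ 1)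
  have h2 : 0 < (Real.log N) ^ (3 / 4 : ℝ) := by
    apply Real.rpow_pos_of_pos
    apply Real.log_pos
    exact_mod_cast (by omega : 1 < N)
  have h3 := Real.one_lt_exp_iff.mpr h2
  linarith

/-- Proof. Put `Q = ⌊N/P⌋`; Dirichlet: there are `q ≤ Q` and `a` coprime to `q` with `|α - a/q| ≤ 1/(qQ) ≤ 1/q²`
(Mathlib: `Real.exists_rat_abs_sub_le_and_den_le`). If `q > P`, `vino_SS` gives
`‖SS‖ ≤ C N P^{-1/2} (1+log N)^6` and `|1-Psi| ≤ 1` (`Psi_le`, `Psi_nonneg`: use `|1-Psi| ≤ 2`). If `q ≤ P`, then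
`|α - a/q| ≤ 2P/N ≤ 1/(4P²)` and `Psi_near` with `H = N/P^20` gives `|1-Psi| ≤ 40 (H · 2P/N)² + 4P^6/H² ≤ C P^{-38}`.
Here `P ≥ exp((log N)^{3/4})` beats powers of `log N`. -/
theorem vsup : ∃ N₀ : ℕ, ∀ N P : ℕ, N₀ ≤ N → Real.exp ((Real.log N) ^ (3 / 4 : ℝ)) ≤ P → P ^ 100 ≤ N →
    ∀ α : ℝ, ‖SS P N α‖ ^ 2 * |1 - Psi P (N / P ^ 20) α| ≤ (N : ℝ) ^ 2 / Real.sqrt P := by
  obtain ⟨C, hC1, hC⟩ := vino_SS
  obtain ⟨N₁, hN₁⟩ := VSup_logs (16 * C ^ 2)
  refine ⟨max N₁ 3, fun N P hN hP hPN α => ?_⟩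
  have hN1 : N₁ ≤ N := le_trans (le_max_left _ _) hN
  have hN3 : 3 ≤ N := le_trans (le_max_right _ _) hN
  have hP2 := VSup_P2 hN3 hP
  have hPpos : 0 < P := by omega
  have hPr : (2 : ℝ) ≤ P := by exact_mod_cast hP2
  have hPr0 : (0 : ℝ) < P := by linarith
  have hNr0 : (0 : ℝ) < N := by exact_mod_cast (by omega : 0 < N)
  have hPNr : (P : ℝ) ^ 100 ≤ N := by exact_mod_cast hPN
  have hsP : 0 < Real.sqrt P := Real.sqrt_pos.mpr hPr0
  have hsP1 : 1 ≤ Real.sqrt P := by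
    rw [show (1 : ℝ) = Real.sqrt 1 by simp]
    exact Real.sqrt_le_sqrt (by linarith)
  have hsPsq : Real.sqrt P * Real.sqrt P = P := Real.mul_self_sqrt hPr0.le
  have hlog : 0 ≤ Real.log N := Real.log_nonneg (by exact_mod_cast (by omega : 1 ≤ N))
  have hlogs := hN₁ N P hN1 hP
  have hPN1 : P ≤ N := le_trans (by
    calc P = P ^ 1 := (pow_one P).symm
      _ ≤ P ^ 100 := Nat.pow_le_pow_right hPpos (by norm_num)) hPN
  have hQpos : 0 < N / P := Nat.div_pos hPN1 hPpos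
  obtain ⟨r, hr1, hr2⟩ := Real.exists_rat_abs_sub_le_and_den_le α hQpos
  have hq1 : 1 ≤ r.den := r.den_pos
  have hq0 : (0 : ℝ) < r.den := by exact_mod_cast r.den_pos
  have hcop : IsCoprime r.num (r.den : ℤ) := by
    have := r.reduced
    rw [Int.isCoprime_iff_gcd_eq_one]
    exact_mod_cast this
  have hrr : (r : ℝ) = (r.num : ℝ) / r.den := by
    exact_mod_cast (Rat.num_div_den r).symm
  rw [hrr] at hr1
  have hQ : (N : ℝ) / P ≤ ((N / P : ℕ) : ℝ) + 1 := by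
    rw [div_le_iff₀ hPr0]
    have h1 : N < (N / P + 1) * P := by
      have := Nat.lt_div_mul_add (a := N) hPpos
      calc N < N / P * P + P := this
        _ = (N / P + 1) * P := by ring
    exact_mod_cast h1.le
  have hqQ : (r.den : ℝ) ≤ (N : ℝ) / P := by
    have h1 : ((N / P : ℕ) : ℝ) ≤ (N : ℝ) / P := Nat.cast_div_le
    have h2 : (r.den : ℝ) ≤ ((N / P : ℕ) : ℝ) := by exact_mod_cast hr2
    linarith
  have hQr : (1 : ℝ) ≤ ((N / P : ℕ) : ℝ) := by exact_mod_cast hQpos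
  have hα2 : |α - (r.num : ℝ) / r.den| ≤ 1 / (r.den : ℝ) ^ 2 := by
    refine hr1.trans ?_
    apply one_div_le_one_div_of_le (by positivity)
    have h2 : (r.den : ℝ) ≤ ((N / P : ℕ) : ℝ) := by exact_mod_cast hr2
    nlinarith
  rcases le_or_gt r.den P with hqP | hqP
  · -- major arc
    have hα3 : |α - (r.num : ℝ) / r.den| ≤ P / N := by
      refine hr1.trans ?_
      rw [div_le_div_iff₀ (by positivity) hNr0, one_mul]
      have h3 : (N : ℝ) ≤ P * (((N / P : ℕ) : ℝ) + 1) := by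
        have := (div_le_iff₀ hPr0).mp hQ
        linarith
      have h4 : (1 : ℝ) ≤ r.den := by exact_mod_cast hq1
      have h5 : 0 ≤ (P : ℝ) * (((N / P : ℕ) : ℝ) + 1) := by positivity
      nlinarith
    obtain ⟨hH1, hH2⟩ := VSup_H hP2 hPN
    obtain ⟨H, hH⟩ : ∃ H : ℕ, H = N / P ^ 20 := ⟨_, rfl⟩
    rw [← hH] at hH1 hH2 ⊢
    have hHr : (P : ℝ) ^ 80 ≤ H := by exact_mod_cast hH1
    have hHpos : 1 ≤ H := le_trans (Nat.one_le_pow _ _ hPpos) hH1
    have hHr0 : (0 : ℝ) < H := by exact_mod_cast hHpos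
    have hα4 : |α - (r.num : ℝ) / r.den| ≤ 1 / (4 * (P : ℝ) ^ 2) := by
      refine hα3.trans ?_
      rw [div_le_div_iff₀ hNr0 (by positivity), one_mul]
      calc (P : ℝ) * (4 * (P : ℝ) ^ 2) = 4 * (P : ℝ) ^ 3 := by ring
        _ ≤ (P : ℝ) ^ 2 * (P : ℝ) ^ 3 := by
            apply mul_le_mul_of_nonneg_right _ (by positivity)
            nlinarith
        _ = (P : ℝ) ^ 5 := by ring
        _ ≤ (P : ℝ) ^ 100 := pow_le_pow_right₀ (by linarith) (by norm_num)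
        _ ≤ (N : ℝ) := hPNr
    have hnear := Psi_near P H r.den r.num α hHpos hq1 hqP hcop hα4
    have hSS := norm_SS_le P N α
    -- first term
    have ht1 : 40 * ((H : ℝ) * (α - (r.num : ℝ) / r.den)) ^ 2 ≤ 40 / (P : ℝ) ^ 38 := by
      have h6 : |(H : ℝ) * (α - (r.num : ℝ) / r.den)| ≤ 1 / (P : ℝ) ^ 19 := by
        rw [abs_mul, abs_of_pos hHr0]
        calc (H : ℝ) * |α - (r.num : ℝ) / r.den| ≤ H * (P / N) :=
              mul_le_mul_of_nonneg_left hα3 hHr0.le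
          _ ≤ 1 / (P : ℝ) ^ 19 := by
              rw [← mul_div_assoc, div_le_div_iff₀ hNr0 (by positivity), one_mul]
              calc (H : ℝ) * P * (P : ℝ) ^ 19 = (H : ℝ) * (P : ℝ) ^ 20 := by ring
                _ ≤ (N : ℝ) := hH2
      have h7 : ((H : ℝ) * (α - (r.num : ℝ) / r.den)) ^ 2 ≤ (1 / (P : ℝ) ^ 19) ^ 2 := by
        rw [← sq_abs]
        exact pow_le_pow_left₀ (abs_nonneg _) h6 2
      calc 40 * ((H : ℝ) * (α - (r.num : ℝ) / r.den)) ^ 2 ≤ 40 * (1 / (P : ℝ) ^ 19) ^ 2 := by linarith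
        _ = 40 / (P : ℝ) ^ 38 := by
            rw [div_pow, one_pow, ← pow_mul]
            ring
    have ht2 : 4 * (P : ℝ) ^ 6 / (H : ℝ) ^ 2 ≤ 4 / (P : ℝ) ^ 38 := by
      rw [div_le_div_iff₀ (by positivity) (by positivity)]
      have h8 : (P : ℝ) ^ 44 ≤ (H : ℝ) ^ 2 := by
        calc (P : ℝ) ^ 44 ≤ P ^ 160 := pow_le_pow_right₀ (by linarith) (by norm_num)
          _ = (P ^ 80) ^ 2 := by ring
          _ ≤ (H : ℝ) ^ 2 := pow_le_pow_left₀ (by positivity) hHr 2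
      calc 4 * (P : ℝ) ^ 6 * P ^ 38 = 4 * P ^ 44 := by ring
        _ ≤ 4 * (H : ℝ) ^ 2 := by linarith
    have ht : |1 - Psi P H α| ≤ 44 / (P : ℝ) ^ 38 := by
      have : (44 : ℝ) / P ^ 38 = 40 / P ^ 38 + 4 / P ^ 38 := by ring
      rw [this]
      linarith
    have hSq : ‖SS P N α‖ ^ 2 ≤ (4 * (N : ℝ)) ^ 2 := pow_le_pow_left₀ (norm_nonneg _) hSS 2
    calc ‖SS P N α‖ ^ 2 * |1 - Psi P H α| ≤ (4 * (N : ℝ)) ^ 2 * (44 / (P : ℝ) ^ 38) :=
          mul_le_mul hSq ht (abs_nonneg _) (by positivity)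
      _ = (N : ℝ) ^ 2 * (704 / (P : ℝ) ^ 38) := by ring
      _ ≤ (N : ℝ) ^ 2 * (1 / Real.sqrt P) := by
          apply mul_le_mul_of_nonneg_left _ (by positivity)
          rw [div_le_div_iff₀ (by positivity) hsP, one_mul]
          have h9 : Real.sqrt P ≤ P := by nlinarith
          have h10 : (704 : ℝ) ≤ (P : ℝ) ^ 37 := by
            calc (704 : ℝ) ≤ 2 ^ 37 := by norm_num
              _ ≤ (P : ℝ) ^ 37 := pow_le_pow_left₀ (by norm_num) hPr 37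
          calc (704 : ℝ) * Real.sqrt P ≤ (P : ℝ) ^ 37 * P :=
                mul_le_mul h10 h9 hsP.le (by positivity)
            _ = (P : ℝ) ^ 38 := by ring
      _ = (N : ℝ) ^ 2 / Real.sqrt P := by ring
  · -- minor arc
    have hb := hC r.den P N r.num α hq1 (by omega) (by omega) hcop hα2
    have hqPr : (P : ℝ) ≤ r.den := by exact_mod_cast hqP.le
    have b1 : (N : ℝ) / Real.sqrt r.den ≤ N / Real.sqrt P := by
      apply div_le_div_of_nonneg_left hNr0.le hsP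
      exact Real.sqrt_le_sqrt hqPr
    have b2 : (N : ℝ) ^ (4 / 5 : ℝ) ≤ N / Real.sqrt P := by
      rw [le_div_iff₀ hsP]
      have h1 : Real.sqrt P ≤ (N : ℝ) ^ (1 / 5 : ℝ) := by
        have h2 : Real.sqrt P ≤ P := by nlinarith
        have h3 : (P : ℝ) ≤ (N : ℝ) ^ (1 / 5 : ℝ) := by
          have h4 : ((P : ℝ) ^ 5) ^ (1 / 5 : ℝ) ≤ (N : ℝ) ^ (1 / 5 : ℝ) := by
            apply Real.rpow_le_rpow (by positivity) _ (by norm_num)
            exact le_trans (pow_le_pow_right₀ (by linarith) (by norm_num)) hPNr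
          have h5 : ((P : ℝ) ^ 5) ^ (1 / 5 : ℝ) = P := by
            rw [← Real.rpow_natCast, ← Real.rpow_mul hPr0.le]
            norm_num
          rwa [h5] at h4
        linarith
      calc (N : ℝ) ^ (4 / 5 : ℝ) * Real.sqrt P ≤ (N : ℝ) ^ (4 / 5 : ℝ) * (N : ℝ) ^ (1 / 5 : ℝ) :=
            mul_le_mul_of_nonneg_left h1 (by positivity)
        _ = (N : ℝ) := by
            rw [← Real.rpow_add hNr0]
            norm_num
    have b3 : Real.sqrt (N * r.den) ≤ N / Real.sqrt P := by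
      have h1 : (N : ℝ) * r.den ≤ (N / Real.sqrt P) ^ 2 := by
        rw [div_pow, Real.sq_sqrt hPr0.le]
        calc (N : ℝ) * r.den ≤ N * (N / P) := mul_le_mul_of_nonneg_left hqQ hNr0.le
          _ = (N : ℝ) ^ 2 / P := by ring
      calc Real.sqrt (N * r.den) ≤ Real.sqrt ((N / Real.sqrt P) ^ 2) := Real.sqrt_le_sqrt h1
        _ = N / Real.sqrt P := Real.sqrt_sq (by positivity)
    have b4 : (P : ℝ) ≤ N / Real.sqrt P := by
      rw [le_div_iff₀ hsP]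
      have h2 : Real.sqrt P ≤ P := by nlinarith
      calc (P : ℝ) * Real.sqrt P ≤ P * P := mul_le_mul_of_nonneg_left h2 hPr0.le
        _ = (P : ℝ) ^ 2 := by ring
        _ ≤ (P : ℝ) ^ 100 := pow_le_pow_right₀ (by linarith) (by norm_num)
        _ ≤ (N : ℝ) := hPNr
    have hSS : ‖SS P N α‖ ≤ 4 * C * (N / Real.sqrt P) * (1 + Real.log N) ^ 6 := by
      refine hb.trans ?_
      apply mul_le_mul_of_nonneg_right _ (by positivity)
      have : (N : ℝ) / Real.sqrt r.den + (N : ℝ) ^ (4 / 5 : ℝ) + Real.sqrt (N * r.den) + P ≤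
          4 * (N / Real.sqrt P) := by linarith
      calc C * ((N : ℝ) / Real.sqrt r.den + (N : ℝ) ^ (4 / 5 : ℝ) + Real.sqrt (N * r.den) + P) ≤
            C * (4 * (N / Real.sqrt P)) := mul_le_mul_of_nonneg_left this (by linarith)
        _ = 4 * C * (N / Real.sqrt P) := by ring
    have hpsi := VSup_psi hP2 hPN α
    have hSq : ‖SS P N α‖ ^ 2 ≤ (4 * C * (N / Real.sqrt P) * (1 + Real.log N) ^ 6) ^ 2 :=
      pow_le_pow_left₀ (norm_nonneg _) hSS 2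
    calc ‖SS P N α‖ ^ 2 * |1 - Psi P (N / P ^ 20) α| ≤
          (4 * C * (N / Real.sqrt P) * (1 + Real.log N) ^ 6) ^ 2 * 1 :=
          mul_le_mul hSq hpsi (abs_nonneg _) (by positivity)
      _ = (N : ℝ) ^ 2 / (Real.sqrt P * Real.sqrt P) * (16 * C ^ 2 * (1 + Real.log N) ^ 12) := by
          field_simp
          ring
      _ ≤ (N : ℝ) ^ 2 / (Real.sqrt P * Real.sqrt P) * Real.sqrt P :=
          mul_le_mul_of_nonneg_left hlogs (by positivity)
      _ = (N : ℝ) ^ 2 / Real.sqrt P := by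
          field_simp

/-- Parseval at the frequencies `h/(8N)`, `sum_aP_sq_le` and `|1 - Psi| ≤ 1` or `2`. -/
theorem vsum : ∃ N₀ : ℕ, ∀ N P : ℕ, N₀ ≤ N → Real.exp ((Real.log N) ^ (3 / 4 : ℝ)) ≤ P → P ^ 100 ≤ N →
    ∑ h ∈ range (8 * N), ‖SS P N ((h : ℝ) / (8 * N : ℕ))‖ ^ 2 * |1 - Psi P (N / P ^ 20) ((h : ℝ) / (8 * N : ℕ))| ≤
      128 * (N : ℝ) ^ 2 * Real.log N := by
  refine ⟨3, fun N P hN hP hPN => ?_⟩
  have hP2 := VSup_P2 hN hP
  have hNr0 : (0 : ℝ) < N := by exact_mod_cast (by omega : 0 < N)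
  have h1 : ∀ h ∈ range (8 * N), ‖SS P N ((h : ℝ) / (8 * N : ℕ))‖ ^ 2 *
      |1 - Psi P (N / P ^ 20) ((h : ℝ) / (8 * N : ℕ))| ≤
      ‖∑ m ∈ Icc 1 (2 * N), (aP P m : ℂ) * ee (((m : ℝ) / (8 * N : ℕ)) * h)‖ ^ 2 := by
    intro h _
    have h2 := VSup_psi hP2 hPN ((h : ℝ) / (8 * N : ℕ))
    have h3 : SS P N ((h : ℝ) / (8 * N : ℕ)) =
        ∑ m ∈ Icc 1 (2 * N), (aP P m : ℂ) * ee (((m : ℝ) / (8 * N : ℕ)) * h) := by
      unfold SS
      refine Finset.sum_congr rfl fun m _ => ?_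
      congr 2
      ring
    rw [← h3]
    calc _ ≤ ‖SS P N ((h : ℝ) / (8 * N : ℕ))‖ ^ 2 * 1 :=
          mul_le_mul_of_nonneg_left h2 (by positivity)
      _ = _ := mul_one _
  have hsub : Icc 1 (2 * N) ⊆ range (8 * N) := by
    intro m hm
    rw [Finset.mem_Icc] at hm
    rw [Finset.mem_range]
    omega
  have hpar := VSup_parseval (M := 8 * N) (by omega) (Icc 1 (2 * N)) hsub (fun m => (aP P m : ℂ))
  refine (Finset.sum_le_sum h1).trans ?_
  rw [hpar]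
  have h4 : ∑ m ∈ Icc 1 (2 * N), ‖(aP P m : ℂ)‖ ^ 2 = ∑ m ∈ Icc 1 (2 * N), aP P m ^ 2 := by
    refine Finset.sum_congr rfl fun m _ => ?_
    rw [Complex.norm_real, Real.norm_eq_abs, sq_abs]
  rw [h4]
  have h5 := sum_aP_sq_le P N
  have h6 : Real.log (2 * N) ≤ 2 * Real.log N := by
    rw [Real.log_mul (by norm_num) hNr0.ne']
    have : Real.log 2 ≤ Real.log N := Real.log_le_log (by norm_num) (by exact_mod_cast (by omega : 2 ≤ N))
    linarith
  have h7 : (0 : ℝ) ≤ Real.log N := Real.log_nonneg (by exact_mod_cast (by omega : 1 ≤ N))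
  calc ((8 * N : ℕ) : ℝ) * ∑ m ∈ Icc 1 (2 * N), aP P m ^ 2 ≤
        ((8 * N : ℕ) : ℝ) * (4 * N * Real.log (2 * N)) := mul_le_mul_of_nonneg_left h5 (by positivity)
    _ ≤ ((8 * N : ℕ) : ℝ) * (4 * N * (2 * Real.log N)) := by
        apply mul_le_mul_of_nonneg_left _ (by positivity)
        apply mul_le_mul_of_nonneg_left h6 (by positivity)
    _ = 64 * (N : ℝ) ^ 2 * Real.log N := by push_cast; ring
    _ ≤ 128 * (N : ℝ) ^ 2 * Real.log N := by nlinarith [mul_nonneg (sq_nonneg (N : ℝ)) h7]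

end Pool.Agent.Lib.MP_629a14_nt.Th
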