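import Mathlib
import Pool.Agent.Lib.MP_629a14_nt.En.Defs

/-! Definitions for the theorem on thin families (criterion by the Fourier transform of the
family). Overview of the proof in `Blueprint.md` of this folder. -/

set_option autoImplicit false

namespace Pool.Agent.Lib.MP_629a14_nt.Th

open Finset Pool.Agent.Lib.MP_629a14_nt

/-! ### Dirichlet characters of all moduli -/

/-- A Dirichlet character together with its modulus. -/
abbrev CH : Type := Σ q : ℕ, DirichletCharacter ℂ q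

/-- The trivial character modulo 1. -/
noncomputable def ch1 : CH := ⟨1, 1⟩

open Classical in
/-- The primitive characters modulo `q` (the empty set for `q = 0`). -/
noncomputable def PR (q : ℕ) : Finset (DirichletCharacter ℂ q) :=
  if h : q = 0 then ∅ else
    haveI : NeZero q := ⟨h⟩
    (univ : Finset (DirichletCharacter ℂ q)).filter (fun χ => χ.IsPrimitive)

/-- The primitive characters of modulus at most `P`. -/
noncomputable def prims (P : ℕ) : Finset CH := (Icc 1 P).sigma PR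

/-- The L-function of a character (1 for the modulus 0). -/
noncomputable def LL (x : CH) (s : ℂ) : ℂ :=
  if h : x.1 = 0 then 1 else
    haveI : NeZero x.1 := ⟨h⟩
    x.2.LFunction s

/-- The primitive character which induces `χ`. -/
noncomputable def cls {q : ℕ} (χ : DirichletCharacter ℂ q) : CH := ⟨χ.conductor, χ.primitiveCharacter⟩

/-! ### Zeros -/

/-- The zeros of `f` in a rectangle. -/
def zset (f : ℂ → ℂ) (σ T : ℝ) : Set ℂ := {ρ | f ρ = 0 ∧ σ ≤ ρ.re ∧ |ρ.im| ≤ T}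

open Classical in
/-- The zeros of `f` in a rectangle as a finite set (empty if there are infinitely many). -/
noncomputable def ZF (f : ℂ → ℂ) (σ T : ℝ) : Finset ℂ :=
  if h : (zset f σ T).Finite then h.toFinset else ∅

/-- The multiplicity of a zero. -/
noncomputable def mul (f : ℂ → ℂ) (ρ : ℂ) : ℝ := (analyticOrderNatAt f ρ : ℝ)

/-- The entire function `(s - 1) ζ(s)`. -/
noncomputable def zt (s : ℂ) : ℂ := if s = 1 then 1 else (s - 1) * riemannZeta s

/-- The `k`-th Taylor coefficient at `17/16 + it` of the Dirichlet series with coefficients `a`,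
normalised: `∑ a(n) n^{-1-it} P_k(log n)` with `P_k(y) = c^{k+1} y^k e^{-cy} / k!`, `c = 1/16`. -/
noncomputable def AA (a : ℕ → ℂ) (k : ℕ) (t : ℝ) : ℂ :=
  (((1 / 16 : ℝ) ^ (k + 1) / (k.factorial : ℝ) : ℝ) : ℂ) *
    ∑' n : ℕ, a n * (((Real.log n) ^ k : ℝ) : ℂ) * (n : ℂ) ^ (-((17 / 16 : ℂ) + t * Complex.I))

/-- The weight function `P_k`. -/
noncomputable def Pk (k : ℕ) (y : ℝ) : ℝ :=
  (1 / 16 : ℝ) ^ (k + 1) * y ^ k * Real.exp (-(y / 16)) / (k.factorial : ℝ)

/-! ### Circle method -/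

/-- The triangular weight of width `H` and total mass one. -/
noncomputable def fej (H : ℕ) (x : ℝ) : ℝ := max 0 ((H : ℝ) - |x|) / (H : ℝ) ^ 2

/-- The weight `log m` on the primes `m > P`. -/
noncomputable def aP (P m : ℕ) : ℝ := if m.Prime ∧ P < m then Real.log m else 0

/-- The exponential sum over the primes in `(P, 2N]`. -/
noncomputable def SS (P N : ℕ) (α : ℝ) : ℂ := ∑ m ∈ Icc 1 (2 * N), (aP P m : ℂ) * ee (m * α)

/-- The weighted number of representations as a sum of two primes larger than `P`. -/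
noncomputable def RR (P n : ℕ) : ℝ := ∑ m ∈ Ico 1 n, aP P m * aP P (n - m)

/-- The Ramanujan sum. -/
noncomputable def cq (q : ℕ) (k : ℤ) : ℂ :=
  ∑ a ∈ (range q).filter (fun a => a.Coprime q), ee (a * k / q)

/-- The Gauss sum of a character. -/
noncomputable def gs {q : ℕ} (χ : DirichletCharacter ℂ q) (k : ℤ) : ℂ :=
  ∑ a ∈ (range q).filter (fun a => a.Coprime q), χ (a : ZMod q) * ee (a * k / q)

/-- The normalised Fejér kernel. -/
noncomputable def FH (H : ℕ) (α : ℝ) : ℝ := ‖∑ h ∈ range H, ee (h * α)‖ ^ 2 / (H : ℝ) ^ 2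

/-- The smooth indicator function of the major arcs. -/
noncomputable def Psi (P H : ℕ) (α : ℝ) : ℝ :=
  ∑ q ∈ Icc 1 P, ∑ a ∈ (range q).filter (fun a => a.Coprime q), FH H (α - a / q)

/-- The contribution of the smoothed major arcs to `RR P n`. -/
noncomputable def RM (P N H n : ℕ) : ℂ :=
  ∑ m₁ ∈ Icc 1 (2 * N), ∑ m₂ ∈ Icc 1 (2 * N), (aP P m₁ : ℂ) * aP P m₂ *
    (fej H ((m₁ : ℝ) + m₂ - n) : ℂ) * ∑ q ∈ Icc 1 P, cq q ((m₁ : ℤ) + m₂ - n)

/-- The double sum over primes with two characters. -/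
noncomputable def II {q : ℕ} (P N H : ℕ) (χ₁ χ₂ : DirichletCharacter ℂ q) (n : ℕ) : ℂ :=
  ∑ m₁ ∈ Icc 1 (2 * N), ∑ m₂ ∈ Icc 1 (2 * N), (aP P m₁ : ℂ) * aP P m₂ *
    χ₁ (m₁ : ZMod q) * χ₂ (m₂ : ZMod q) * (fej H ((m₁ : ℝ) + m₂ - n) : ℂ)

/-- The double sum over primes without characters. -/
noncomputable def I0 (P N H n : ℕ) : ℝ :=
  ∑ m₁ ∈ Icc 1 (2 * N), ∑ m₂ ∈ Icc 1 (2 * N), aP P m₁ * aP P m₂ * fej H ((m₁ : ℝ) + m₂ - n)

/-- Average of `b` over a window around `v`. -/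
noncomputable def wnd (b : ℕ → ℂ) (H v : ℕ) : ℂ :=
  ∑ m ∈ Icc 1 (2 * v), b m * (fej H ((m : ℝ) - v) : ℂ)

/-- The truncated singular series. -/
noncomputable def SG (P n : ℕ) : ℂ :=
  ∑ q ∈ Icc 1 P, ((ArithmeticFunction.moebius q : ℂ) ^ 2 / (q.totient : ℂ) ^ 2) * cq q (-(n : ℤ))

open Classical in
/-- The characters modulo `q` which are induced by `e` or trivial. -/
noncomputable def MC (q : ℕ) (e : CH) : Finset (DirichletCharacter ℂ q) :=
  if h : q = 0 then ∅ else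
    haveI : NeZero q := ⟨h⟩
    (univ : Finset (DirichletCharacter ℂ q)).filter (fun χ => cls χ = e ∨ cls χ = ch1)

/-- The main terms. -/
noncomputable def MT (P N H : ℕ) (e : CH) (n : ℕ) : ℂ :=
  ∑ q ∈ Icc 1 P, ((q.totient : ℂ) ^ 2)⁻¹ * ∑ χ₁ ∈ MC q e, ∑ χ₂ ∈ MC q e,
    gs χ₁⁻¹ 1 * gs χ₂⁻¹ 1 * gs (χ₁ * χ₂) (-(n : ℤ)) * II P N H χ₁ χ₂ n

/-- The Fourier transform of a family with weights `w`. -/
noncomputable def WW (w : ℕ → ℝ) (N : ℕ) (α : ℝ) : ℂ := ∑ n ∈ Icc 1 N, (w n : ℂ) * ee (n * α)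

/-- The family has weights `w ≥ 0` of total mass one on the even integers in `[δN, N]`. -/
def Wt (w : ℕ → ℝ) (N : ℕ) (δ : ℝ) : Prop :=
  (∀ n, 0 ≤ w n) ∧ ∑ n ∈ Icc 1 N, w n = 1 ∧ ∀ n ∈ Icc 1 N, w n ≠ 0 → Even n ∧ δ * N ≤ n

end Pool.Agent.Lib.MP_629a14_nt.Th
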