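import Pool.Agent.Lib.MP_629a14_nt.Th.Vino
import Pool.Agent.Lib.MP_629a14_nt.Th.Defs

/-! Vinogradov's bound for `SS`. -/

set_option autoImplicit false

namespace Pool.Agent.Lib.MP_629a14_nt.Th

open Finset Pool.Agent.Lib.MP_629a14_nt

private theorem Vino2_aP_nonneg (P m : ℕ) : 0 ≤ aP P m := by
  unfold aP
  split_ifs with h
  · exact Real.log_nonneg (by exact_mod_cast h.1.one_lt.le)
  · exact le_refl _

private theorem Vino2_aP_le (P m : ℕ) : aP P m ≤ ArithmeticFunction.vonMangoldt m := by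
  unfold aP
  split_ifs with h
  · rw [ArithmeticFunction.vonMangoldt_apply_prime h.1]
  · exact ArithmeticFunction.vonMangoldt_nonneg

private theorem Vino2_theta (n : ℕ) :
    Chebyshev.theta n = ∑ m ∈ Icc 1 n, if m.Prime then Real.log m else 0 := by
  rw [Chebyshev.theta, Finset.sum_filter, Nat.floor_natCast]
  rfl

private theorem Vino2_psi (n : ℕ) :
    Chebyshev.psi n = ∑ m ∈ Icc 1 n, ArithmeticFunction.vonMangoldt m := by
  rw [Chebyshev.psi, Nat.floor_natCast]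
  rfl

private theorem Vino2_sum_le_theta (P n : ℕ) : ∑ m ∈ Icc 1 n, aP P m ≤ Chebyshev.theta n := by
  rw [Vino2_theta]
  refine Finset.sum_le_sum (fun m _ => ?_)
  unfold aP
  by_cases h : m.Prime
  · rw [if_pos h]
    split_ifs
    · exact le_refl _
    · exact Real.log_nonneg (by exact_mod_cast h.one_lt.le)
  · rw [if_neg h, if_neg (fun h' => h h'.1)]

private theorem Vino2_theta_sub (P n : ℕ) :
    Chebyshev.theta n - ∑ m ∈ Icc 1 n, aP P m ≤ Chebyshev.theta P := by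
  rw [Vino2_theta, Vino2_theta, ← Finset.sum_sub_distrib]
  have h1 : ∀ m ∈ Icc 1 n, (if m.Prime then Real.log m else 0) - aP P m =
      if m ≤ P then (if m.Prime then Real.log m else 0) else 0 := by
    intro m _
    unfold aP
    by_cases h : m.Prime
    · by_cases hP : P < m
      · rw [if_pos h, if_pos ⟨h, hP⟩, if_neg (not_le.mpr hP), sub_self]
      · rw [if_pos h, if_neg (fun h' => hP h'.2), if_pos (not_lt.mp hP), sub_zero]
    · rw [if_neg h, if_neg (fun h' => h h'.1)]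
      simp
  rw [Finset.sum_congr rfl h1, ← Finset.sum_filter]
  refine Finset.sum_le_sum_of_subset_of_nonneg ?_ (fun m _ _ => ?_)
  · intro m hm
    rw [Finset.mem_filter, Finset.mem_Icc] at hm
    rw [Finset.mem_Icc]
    exact ⟨hm.1.1, hm.2⟩
  · split_ifs with h
    · exact Real.log_nonneg (by exact_mod_cast h.one_lt.le)
    · exact le_refl _

private theorem Vino2_log4 : Real.log 4 ≤ 2 := by
  have h : Real.log 4 = 2 * Real.log 2 := by
    rw [show (4 : ℝ) = 2 ^ 2 by norm_num, Real.log_pow]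
    norm_num
  rw [h]
  have := Real.log_two_lt_d9
  linarith

private theorem Vino2_theta_le (n : ℕ) : Chebyshev.theta n ≤ 2 * n := by
  have h1 := Chebyshev.theta_le_log4_mul_x (x := (n : ℝ)) (Nat.cast_nonneg _)
  refine h1.trans ?_
  exact mul_le_mul_of_nonneg_right Vino2_log4 (Nat.cast_nonneg _)

/-- From `vino_lambda` with `X = 2N`: the primes `≤ P` contribute at most `P log(2N)`, the proper prime powers
`≤ C √N log² N`. -/
theorem vino_SS : ∃ C : ℝ, 1 ≤ C ∧ ∀ (q P N : ℕ) (a : ℤ) (α : ℝ), 1 ≤ q → 2 ≤ N → 1 ≤ P →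
    IsCoprime a (q : ℤ) → |α - a / q| ≤ 1 / (q : ℝ) ^ 2 →
    ‖SS P N α‖ ≤
      C * ((N : ℝ) / Real.sqrt q + (N : ℝ) ^ (4 / 5 : ℝ) + Real.sqrt (N * q) + P) * (1 + Real.log N) ^ 6 := by
  obtain ⟨C, hC1, hC⟩ := vino_lambda
  obtain ⟨C0, hC0⟩ := Chebyshev.psi_sub_theta_le_mul_sqrt
  refine ⟨128 * C + 2 * |C0| + 2, by nlinarith [abs_nonneg C0], ?_⟩
  intro q P N a α hq hN hP hcop hα
  have hN0 : (0 : ℝ) < N := by
    have : 0 < N := by omega
    exact_mod_cast this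
  have hq0 : (1 : ℝ) ≤ q := by exact_mod_cast hq
  have h1 := hC q (2 * N) a α hq (by omega) hcop hα
  -- comparison of the sums
  have h2 : ‖(∑ n ∈ Icc 1 (2 * N), (ArithmeticFunction.vonMangoldt n : ℂ) * ee (n * α)) - SS P N α‖ ≤
      C0 * Real.sqrt ((2 * N : ℕ) : ℝ) + 2 * P := by
    unfold SS
    rw [← Finset.sum_sub_distrib]
    refine le_trans (norm_sum_le _ _) ?_
    have h3 : ∀ n ∈ Icc 1 (2 * N), ‖(ArithmeticFunction.vonMangoldt n : ℂ) * ee (n * α) -
        (aP P n : ℂ) * ee (n * α)‖ = ArithmeticFunction.vonMangoldt n - aP P n := by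
      intro n _
      rw [← sub_mul, norm_mul, norm_ee, mul_one, ← Complex.ofReal_sub, Complex.norm_real,
        Real.norm_eq_abs, abs_of_nonneg (sub_nonneg.mpr (Vino2_aP_le P n))]
    rw [Finset.sum_congr rfl h3, Finset.sum_sub_distrib, ← Vino2_psi]
    have h4 := Vino2_theta_sub P (2 * N)
    have h5 := Vino2_theta_le P
    have h6 := hC0 ((2 * N : ℕ) : ℝ)
    linarith
  have h3 : ‖SS P N α‖ ≤ ‖∑ n ∈ Icc 1 (2 * N), (ArithmeticFunction.vonMangoldt n : ℂ) * ee (n * α)‖ +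
      (C0 * Real.sqrt ((2 * N : ℕ) : ℝ) + 2 * P) := by
    have := norm_sub_norm_le (SS P N α)
      (∑ n ∈ Icc 1 (2 * N), (ArithmeticFunction.vonMangoldt n : ℂ) * ee (n * α))
    rw [norm_sub_rev] at this
    linarith
  set L : ℝ := 1 + Real.log N with hL
  have hlogN : 0 ≤ Real.log N := Real.log_nonneg (by
    have : (1 : ℕ) ≤ N := by omega
    exact_mod_cast this)
  have hL1 : 1 ≤ L := by linarith
  have hlog2 : 1 + Real.log ((2 * N : ℕ) : ℝ) ≤ 2 * L := by
    push_cast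
    rw [Real.log_mul (by norm_num) hN0.ne']
    have := Real.log_two_lt_d9
    linarith
  have hlog0 : 0 ≤ 1 + Real.log ((2 * N : ℕ) : ℝ) := by
    have : 0 ≤ Real.log ((2 * N : ℕ) : ℝ) := Real.log_nonneg (by
      have : (1 : ℕ) ≤ 2 * N := by omega
      exact_mod_cast this)
    linarith
  have hpow : (1 + Real.log ((2 * N : ℕ) : ℝ)) ^ 6 ≤ 64 * L ^ 6 := by
    calc (1 + Real.log ((2 * N : ℕ) : ℝ)) ^ 6 ≤ (2 * L) ^ 6 :=
          pow_le_pow_left₀ hlog0 hlog2 6
      _ = 64 * L ^ 6 := by ring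
  have hL6 : 1 ≤ L ^ 6 := one_le_pow₀ hL1
  set A : ℝ := (N : ℝ) / Real.sqrt q with hA
  set B : ℝ := (N : ℝ) ^ (4 / 5 : ℝ) with hB
  set D : ℝ := Real.sqrt (N * q) with hD
  have hA0 : 0 ≤ A := by positivity
  have hB0 : 0 ≤ B := by positivity
  have hD0 : 0 ≤ D := Real.sqrt_nonneg _
  have hP0 : (0 : ℝ) ≤ P := Nat.cast_nonneg _
  have e1 : (((2 * N : ℕ) : ℝ)) / Real.sqrt q = 2 * A := by
    rw [hA]
    push_cast
    ring
  have e2 : (((2 * N : ℕ) : ℝ)) ^ (4 / 5 : ℝ) ≤ 2 * B := by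
    push_cast
    rw [Real.mul_rpow (by norm_num) hN0.le]
    refine mul_le_mul_of_nonneg_right ?_ hB0
    calc (2 : ℝ) ^ (4 / 5 : ℝ) ≤ (2 : ℝ) ^ (1 : ℝ) :=
          Real.rpow_le_rpow_of_exponent_le (by norm_num) (by norm_num)
      _ = 2 := Real.rpow_one 2
  have e3 : Real.sqrt (((2 * N : ℕ) : ℝ) * q) ≤ 2 * D := by
    push_cast
    rw [Real.sqrt_le_left (by positivity)]
    rw [hD, mul_pow, Real.sq_sqrt (by positivity)]
    nlinarith [mul_nonneg hN0.le (by linarith : (0 : ℝ) ≤ q)]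
  have e4 : Real.sqrt ((2 * N : ℕ) : ℝ) ≤ 2 * D := by
    push_cast
    rw [Real.sqrt_le_left (by positivity)]
    rw [hD, mul_pow, Real.sq_sqrt (by positivity)]
    nlinarith
  have h4 : ‖∑ n ∈ Icc 1 (2 * N), (ArithmeticFunction.vonMangoldt n : ℂ) * ee (n * α)‖ ≤
      128 * C * (A + B + D) * L ^ 6 := by
    refine h1.trans ?_
    rw [e1]
    have hS : 2 * A + ((2 * N : ℕ) : ℝ) ^ (4 / 5 : ℝ) + Real.sqrt (((2 * N : ℕ) : ℝ) * q) ≤
        2 * (A + B + D) := by linarith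
    calc C * (2 * A + ((2 * N : ℕ) : ℝ) ^ (4 / 5 : ℝ) + Real.sqrt (((2 * N : ℕ) : ℝ) * q)) *
          (1 + Real.log ((2 * N : ℕ) : ℝ)) ^ 6
        ≤ C * (2 * (A + B + D)) * (64 * L ^ 6) := by
          refine mul_le_mul ?_ hpow (by positivity) (by positivity)
          exact mul_le_mul_of_nonneg_left hS (by linarith)
      _ = 128 * C * (A + B + D) * L ^ 6 := by ring
  have h5 : C0 * Real.sqrt ((2 * N : ℕ) : ℝ) ≤ 2 * |C0| * D := by
    calc C0 * Real.sqrt ((2 * N : ℕ) : ℝ) ≤ |C0| * Real.sqrt ((2 * N : ℕ) : ℝ) :=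
          mul_le_mul_of_nonneg_right (le_abs_self _) (Real.sqrt_nonneg _)
      _ ≤ |C0| * (2 * D) := mul_le_mul_of_nonneg_left e4 (abs_nonneg _)
      _ = 2 * |C0| * D := by ring
  have hc0 := abs_nonneg C0
  calc ‖SS P N α‖ ≤ 128 * C * (A + B + D) * L ^ 6 + (2 * |C0| * D + 2 * P) := by linarith
    _ ≤ 128 * C * (A + B + D) * L ^ 6 + (2 * |C0| * D + 2 * P) * L ^ 6 := by
        have : (0 : ℝ) ≤ 2 * |C0| * D + 2 * P := by positivity
        nlinarith
    _ = (128 * C * (A + B + D) + 2 * |C0| * D + 2 * P) * L ^ 6 := by ring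
    _ ≤ ((128 * C + 2 * |C0| + 2) * (A + B + D + P)) * L ^ 6 := by
        refine mul_le_mul_of_nonneg_right ?_ (by positivity)
        have t1 : 0 ≤ 128 * C * P := by positivity
        have t2 : 0 ≤ 2 * |C0| * (A + B + P) := by positivity
        have t3 : 0 ≤ 2 * (A + B + D) := by positivity
        nlinarith
    _ = (128 * C + 2 * |C0| + 2) * (A + B + D + P) * L ^ 6 := by ring

/-- `∑_{m ≤ 2N} aP(m) ≤ θ(2N) ≤ 4N` (Mathlib: `Chebyshev.theta_le_log4_mul_x`). -/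
theorem sum_aP_le (P N : ℕ) : ∑ m ∈ Icc 1 (2 * N), aP P m ≤ 4 * N := by
  refine (Vino2_sum_le_theta P (2 * N)).trans ((Vino2_theta_le (2 * N)).trans ?_)
  push_cast
  linarith

/-- `∑ aP² ≤ log(2N) ∑ aP`. -/
theorem sum_aP_sq_le (P N : ℕ) : ∑ m ∈ Icc 1 (2 * N), aP P m ^ 2 ≤ 4 * N * Real.log (2 * N) := by
  have h1 : ∀ m ∈ Icc 1 (2 * N), aP P m ^ 2 ≤ aP P m * Real.log (2 * N) := by
    intro m hm
    rw [Finset.mem_Icc] at hm
    rw [pow_two]
    refine mul_le_mul_of_nonneg_left ?_ (Vino2_aP_nonneg P m)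
    have hm1 : (1 : ℝ) ≤ m := by exact_mod_cast hm.1
    have hm2 : (m : ℝ) ≤ 2 * N := by exact_mod_cast hm.2
    have h3 : Real.log m ≤ Real.log (2 * N) := Real.log_le_log (by linarith) hm2
    unfold aP
    split_ifs
    · exact h3
    · exact (Real.log_nonneg hm1).trans h3
  rcases Nat.eq_zero_or_pos N with h0 | h0
  · subst h0
    simp
  · have hlog : 0 ≤ Real.log (2 * N) := Real.log_nonneg (by
      have : (1 : ℝ) ≤ N := by exact_mod_cast h0
      linarith)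
    refine (Finset.sum_le_sum h1).trans ?_
    rw [← Finset.sum_mul]
    exact mul_le_mul_of_nonneg_right (sum_aP_le P N) hlog

theorem norm_SS_le (P N : ℕ) (α : ℝ) : ‖SS P N α‖ ≤ 4 * N := by
  unfold SS
  refine (norm_sum_le _ _).trans ?_
  have h3 : ∀ m ∈ Icc 1 (2 * N), ‖(aP P m : ℂ) * ee (m * α)‖ = aP P m := by
    intro m _
    rw [norm_mul, norm_ee, mul_one, Complex.norm_real, Real.norm_eq_abs,
      abs_of_nonneg (Vino2_aP_nonneg P m)]
  rw [Finset.sum_congr rfl h3]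
  exact sum_aP_le P N

end Pool.Agent.Lib.MP_629a14_nt.Th
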