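import Pool.Agent.Lib.MP_629a14_nt.Th.Defs

/-! The mean square over a family by the large spectrum of the family. -/

set_option autoImplicit false

namespace Pool.Agent.Lib.MP_629a14_nt.Th

open Finset Pool.Agent.Lib.MP_629a14_nt

private lemma conj_ee (t : ℝ) : (starRingEnd ℂ) (ee t) = ee (-t) := by
  unfold ee
  rw [← Complex.exp_conj]
  congr 1
  have h2 : (starRingEnd ℂ) 2 = 2 := map_ofNat _ 2
  simp [Complex.conj_ofReal, h2]

private lemma norm_ee' (t : ℝ) : ‖ee t‖ = 1 := by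
  unfold ee
  have : (2 * (Real.pi : ℂ) * (t : ℂ) * Complex.I) = ((2 * Real.pi * t : ℝ) : ℂ) * Complex.I := by
    push_cast; ring
  rw [this, Complex.norm_exp_ofReal_mul_I]

private lemma WW_add_one (w : ℕ → ℝ) (N : ℕ) (x : ℝ) : WW w N (x + 1) = WW w N x := by
  unfold WW
  refine Finset.sum_congr rfl fun n _ => ?_
  congr 1
  rw [mul_add, ee_add, mul_one]
  have := ee_int (n : ℤ)
  rw [Int.cast_natCast] at this
  rw [this, mul_one]

private lemma WW_norm (w : ℕ → ℝ) (N : ℕ) (hw : ∀ n, 0 ≤ w n) (x : ℝ) :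
    ‖WW w N x‖ ≤ ∑ n ∈ Icc 1 N, w n := by
  unfold WW
  refine (norm_sum_le _ _).trans (Finset.sum_le_sum fun n _ => ?_)
  rw [norm_mul, norm_ee', mul_one, Complex.norm_real, Real.norm_of_nonneg (hw n)]

private lemma key (M N : ℕ) (V : ℕ → ℂ) (w : ℕ → ℝ) (n : ℕ) :
    ((w n * ‖(1 / (M : ℂ)) * ∑ h ∈ range M, V h * ee (-(n * (h / M)))‖ ^ 2 : ℝ) : ℂ) =
      (1 / (M : ℂ) ^ 2) * ∑ h ∈ range M, ∑ h' ∈ range M,
        V h * (starRingEnd ℂ) (V h') * ((w n : ℂ) * ee (n * (((h' : ℝ) - h) / M))) := by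
  set S := ∑ h ∈ range M, V h * ee (-((n : ℝ) * ((h : ℝ) / M))) with hS
  have h1 : ((‖(1 / (M : ℂ)) * S‖ ^ 2 : ℝ) : ℂ) =
      (1 / (M : ℂ) ^ 2) * (S * (starRingEnd ℂ) S) := by
    rw [← Complex.normSq_eq_norm_sq, ← Complex.mul_conj]
    simp only [map_mul, map_div₀, map_one, map_natCast]
    ring
  rw [Complex.ofReal_mul, h1]
  have h2 : S * (starRingEnd ℂ) S = ∑ h ∈ range M, ∑ h' ∈ range M,
      V h * (starRingEnd ℂ) (V h') * ee (n * (((h' : ℝ) - h) / M)) := by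
    rw [hS, map_sum, Finset.sum_mul_sum]
    refine Finset.sum_congr rfl fun h _ => Finset.sum_congr rfl fun h' _ => ?_
    rw [map_mul, conj_ee, neg_neg]
    have : (n : ℝ) * (((h' : ℝ) - h) / M) = -(n * (h / M)) + n * (h' / M) := by ring
    rw [this, ee_add]
    ring
  rw [h2, ← mul_assoc, mul_comm (w n : ℂ), mul_assoc, Finset.mul_sum]
  congr 1
  refine Finset.sum_congr rfl fun h _ => ?_
  rw [Finset.mul_sum]
  refine Finset.sum_congr rfl fun h' _ => ?_
  ring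

/-- Proof. The left side is `(1/M²) ∑_{h,h'} V_h conj(V_{h'}) WW((h'-h)/M)` (finite sums, `ee` is additive; `WW` at
`(h'-h)/M` has the same norm as at the residue of `h' - h` modulo `M`). The pairs with `‖WW‖ ≤ κ` contribute at most
`κ (∑ ‖V_h‖)²/M²`, the others at most `(1/M²) ∑_h ‖V_h‖ · b · #{residues with ‖WW‖ > κ}`. -/
theorem tt (M N : ℕ) (hM : 1 ≤ M) (V : ℕ → ℂ) (w : ℕ → ℝ) (hw : ∀ n, 0 ≤ w n) (κ b : ℝ) (hκ : 0 ≤ κ)
    (hb : ∀ h ∈ range M, ‖V h‖ ≤ b) (hw1 : ∑ n ∈ Icc 1 N, w n ≤ 1) :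
    ∑ n ∈ Icc 1 N, w n * ‖(1 / (M : ℂ)) * ∑ h ∈ range M, V h * ee (-(n * (h / M)))‖ ^ 2 ≤
      (1 / (M : ℝ) ^ 2) * (κ * (∑ h ∈ range M, ‖V h‖) ^ 2 +
        b * (∑ h ∈ range M, ‖V h‖) *
          ((range M).filter (fun h : ℕ => κ < ‖WW w N ((h : ℝ) / M)‖)).card) := by
  have hMp : (0 : ℝ) < M := by exact_mod_cast hM
  have hb0 : 0 ≤ b := (norm_nonneg _).trans (hb 0 (Finset.mem_range.2 hM))
  set C := ((range M).filter (fun h : ℕ => κ < ‖WW w N ((h : ℝ) / M)‖)).card with hC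
  -- the left side as a complex number
  have e1 : ((∑ n ∈ Icc 1 N, w n * ‖(1 / (M : ℂ)) * ∑ h ∈ range M, V h * ee (-(n * (h / M)))‖ ^ 2 : ℝ) : ℂ)
      = (1 / (M : ℂ) ^ 2) * ∑ h ∈ range M, ∑ h' ∈ range M,
        V h * (starRingEnd ℂ) (V h') * WW w N (((h' : ℝ) - h) / M) := by
    rw [Complex.ofReal_sum]
    rw [Finset.sum_congr rfl fun n _ => key M N V w n]
    rw [← Finset.mul_sum]
    congr 1
    rw [Finset.sum_comm]
    refine Finset.sum_congr rfl fun h _ => ?_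
    rw [Finset.sum_comm]
    refine Finset.sum_congr rfl fun h' _ => ?_
    rw [← Finset.mul_sum]
    rfl
  have e2 : (∑ n ∈ Icc 1 N, w n * ‖(1 / (M : ℂ)) * ∑ h ∈ range M, V h * ee (-(n * (h / M)))‖ ^ 2 : ℝ)
      ≤ (1 / (M : ℝ) ^ 2) * ∑ h ∈ range M, ∑ h' ∈ range M,
        ‖V h‖ * ‖V h'‖ * ‖WW w N (((h' : ℝ) - h) / M)‖ := by
    have : (∑ n ∈ Icc 1 N, w n * ‖(1 / (M : ℂ)) * ∑ h ∈ range M, V h * ee (-(n * (h / M)))‖ ^ 2 : ℝ)
      ≤ ‖((∑ n ∈ Icc 1 N, w n * ‖(1 / (M : ℂ)) * ∑ h ∈ range M, V h * ee (-(n * (h / M)))‖ ^ 2 : ℝ) : ℂ)‖ := by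
      rw [Complex.norm_real]
      exact Real.le_norm_self _
    refine this.trans ?_
    rw [e1, norm_mul]
    have hn : ‖(1 / (M : ℂ) ^ 2)‖ = 1 / (M : ℝ) ^ 2 := by
      rw [norm_div, norm_one, norm_pow, Complex.norm_natCast]
    rw [hn]
    refine mul_le_mul_of_nonneg_left ?_ (by positivity)
    refine (norm_sum_le _ _).trans (Finset.sum_le_sum fun h _ => ?_)
    refine (norm_sum_le _ _).trans (Finset.sum_le_sum fun h' _ => ?_)
    rw [norm_mul, norm_mul, RCLike.norm_conj]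
  refine e2.trans (mul_le_mul_of_nonneg_left ?_ (by positivity))
  -- the shift map
  let f : ℕ → ℕ → ℕ := fun h h' => if h ≤ h' then h' - h else h' + M - h
  have hf1 : ∀ h ∈ range M, ∀ h' ∈ range M, f h h' ∈ range M := by
    intro h hh h' hh'
    simp only [Finset.mem_range] at hh hh' ⊢
    simp only [f]
    split_ifs <;> omega
  have hf2 : ∀ h ∈ range M, ∀ a ∈ range M, ∀ b ∈ range M, f h a = f h b → a = b := by
    intro h hh a ha b hb' hab
    simp only [Finset.mem_range] at hh ha hb'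
    simp only [f] at hab
    split_ifs at hab <;> omega
  have hf3 : ∀ h ∈ range M, ∀ h' ∈ range M, WW w N (((h' : ℝ) - h) / M) = WW w N ((f h h' : ℕ) / M) := by
    intro h hh h' hh'
    simp only [Finset.mem_range] at hh hh'
    simp only [f]
    split_ifs with hle
    · rw [Nat.cast_sub hle]
    · have hle' : h ≤ h' + M := by omega
      rw [Nat.cast_sub hle', Nat.cast_add]
      rw [← WW_add_one w N (((h' : ℝ) - h) / M)]
      congr 1
      field_simp
      ring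
  have main : ∀ h ∈ range M, ∑ h' ∈ range M, ‖V h'‖ * ‖WW w N (((h' : ℝ) - h) / M)‖ ≤
      κ * (∑ h ∈ range M, ‖V h‖) + b * C := by
    intro h hh
    have hp : ∀ h' ∈ range M, ‖V h'‖ * ‖WW w N (((h' : ℝ) - h) / M)‖ ≤
        κ * ‖V h'‖ + b * (if κ < ‖WW w N ((f h h' : ℕ) / M)‖ then 1 else 0) := by
      intro h' hh'
      rw [hf3 h hh h' hh']
      split_ifs with hc
      · have h1 : ‖WW w N ((f h h' : ℕ) / M)‖ ≤ 1 := (WW_norm w N hw _).trans hw1
        have h2 := hb h' hh'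
        have h3 := norm_nonneg (V h')
        have h4 := norm_nonneg (WW w N ((f h h' : ℕ) / M))
        nlinarith [mul_nonneg hκ h3]
      · push Not at hc
        have h3 := norm_nonneg (V h')
        nlinarith
    refine (Finset.sum_le_sum hp).trans ?_
    rw [Finset.sum_add_distrib, ← Finset.mul_sum, ← Finset.mul_sum]
    have hcard : (∑ h' ∈ range M, (if κ < ‖WW w N ((f h h' : ℕ) / M)‖ then (1 : ℝ) else 0)) ≤ C := by
      rw [Finset.sum_ite, Finset.sum_const_zero, add_zero, Finset.sum_const, nsmul_eq_mul, mul_one]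
      have : ((range M).filter (fun h' : ℕ => κ < ‖WW w N ((f h h' : ℕ) / M)‖)).card ≤ C := by
        rw [hC]
        refine Finset.card_le_card_of_injOn (fun h' => f h h') ?_ ?_
        · intro h' hh'
          simp only [Finset.coe_filter, Set.mem_setOf_eq] at hh' ⊢
          exact ⟨hf1 h hh h' hh'.1, hh'.2⟩
        · intro a ha b' hb' hab
          simp only [Finset.coe_filter, Set.mem_setOf_eq] at ha hb'
          exact hf2 h hh a ha.1 b' hb'.1 hab
      exact_mod_cast this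
    have := mul_le_mul_of_nonneg_left hcard hb0
    linarith
  calc ∑ h ∈ range M, ∑ h' ∈ range M, ‖V h‖ * ‖V h'‖ * ‖WW w N (((h' : ℝ) - h) / M)‖
      = ∑ h ∈ range M, ‖V h‖ * ∑ h' ∈ range M, ‖V h'‖ * ‖WW w N (((h' : ℝ) - h) / M)‖ := by
        refine Finset.sum_congr rfl fun h _ => ?_
        rw [Finset.mul_sum]
        refine Finset.sum_congr rfl fun h' _ => ?_
        ring
    _ ≤ ∑ h ∈ range M, ‖V h‖ * (κ * (∑ h ∈ range M, ‖V h‖) + b * C) :=
        Finset.sum_le_sum fun h hh => mul_le_mul_of_nonneg_left (main h hh) (norm_nonneg _)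
    _ = κ * (∑ h ∈ range M, ‖V h‖) ^ 2 + b * (∑ h ∈ range M, ‖V h‖) * C := by
        rw [← Finset.sum_mul]
        ring

end Pool.Agent.Lib.MP_629a14_nt.Th
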