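import Pool.Agent.Lib.MP_629a14_nt.Fourier

/-! Numbers whose dyadic multiples are concentrated. -/

set_option autoImplicit false

namespace Pool.Agent.Lib.MP_629a14_nt.Th

open Finset Pool.Agent.Lib.MP_629a14_nt MeasureTheory

private lemma BinM_cos (y : ℝ) (h : 0 < (ee y).re) : ∃ k : ℤ, |y - k| < 1 / 4 := by
  refine ⟨round y, ?_⟩
  by_contra hcon
  rw [not_lt] at hcon
  have h1 := abs_sub_round y
  have h2 : (ee y).re = Real.cos (2 * Real.pi * y) := by
    unfold ee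
    have : (2 * Real.pi * y * Complex.I : ℂ) = ((2 * Real.pi * y : ℝ) : ℂ) * Complex.I := by
      push_cast; ring
    rw [this, Complex.exp_ofReal_mul_I_re]
  have h3 : Real.cos (2 * Real.pi * y) = Real.cos (2 * Real.pi * |y - round y|) := by
    have h4 : Real.cos (2 * Real.pi * |y - round y|) = Real.cos (2 * Real.pi * (y - round y)) := by
      rcases abs_cases (y - round y) with h5 | h5
      · rw [h5.1]
      · rw [h5.1, mul_neg, Real.cos_neg]
    rw [h4]
    have h5 : 2 * Real.pi * (y - round y) = 2 * Real.pi * y - (round y : ℤ) * (2 * Real.pi) := by ring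
    rw [h5, Real.cos_sub_int_mul_two_pi]
  have hpi := Real.pi_pos
  have h6 : Real.cos (2 * Real.pi * |y - round y|) ≤ 0 := by
    apply Real.cos_nonpos_of_pi_div_two_le_of_le
    · nlinarith
    · nlinarith
  rw [h2, h3] at h
  linarith

private lemma BinM_dist (w : ℂ) (hw : ‖w‖ = 1) : ‖w - 1‖ ^ 2 = 2 * (1 - w.re) := by
  have h1 : w.re * w.re + w.im * w.im = 1 := by
    have h2 := Complex.sq_norm w
    rw [hw, Complex.normSq_apply] at h2
    linarith
  rw [Complex.sq_norm, Complex.normSq_apply]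
  simp only [Complex.sub_re, Complex.one_re, Complex.sub_im, Complex.one_im, sub_zero]
  nlinarith

private lemma BinM_two (u z : ℂ) (hu : ‖u‖ = 1) (hz : ‖z‖ = 1) (h1 : 1 - (u * z).re < 1 / 8)
    (h2 : 1 - (u * (z * z)).re < 1 / 8) : 0 < z.re := by
  have h3 : ‖u * z - 1‖ < 1 / 2 := by
    have h4 := BinM_dist (u * z) (by rw [norm_mul, hu, hz, one_mul])
    have h5 := norm_nonneg (u * z - 1)
    nlinarith
  have h4 : ‖u * (z * z) - 1‖ < 1 / 2 := by
    have h4 := BinM_dist (u * (z * z)) (by rw [norm_mul, norm_mul, hu, hz]; norm_num)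
    have h5 := norm_nonneg (u * (z * z) - 1)
    nlinarith
  have h5 : ‖z - 1‖ < 1 := by
    have h6 : ‖z - 1‖ = ‖(u * (z * z) - 1) - (u * z - 1)‖ := by
      have h7 : (u * (z * z) - 1) - (u * z - 1) = u * z * (z - 1) := by ring
      rw [h7, norm_mul, norm_mul, hu, hz, one_mul, one_mul]
    rw [h6]
    have h8 := norm_sub_le (u * (z * z) - 1) (u * z - 1)
    linarith
  have h6 := BinM_dist z hz
  have h7 := norm_nonneg (z - 1)
  nlinarith

private lemma BinM_bits (c j : ℕ) (y : ℝ) (hy : 0 ≤ y) (k : ℤ) (hk : |y - k| < 1 / 4)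
    (hj : j = ⌊2 ^ (c + 2) * y⌋₊) : j.testBit (c + 1) = j.testBit c := by
  have h1 : j / 2 ^ c = ⌊4 * y⌋₊ := by
    rw [hj]
    have h2 : (4 : ℝ) * y = 2 ^ (c + 2) * y / ((2 ^ c : ℕ) : ℝ) := by
      push_cast
      rw [eq_div_iff (by positivity)]
      ring
    rw [h2, Nat.floor_div_natCast]
  have h2 : (j / 2 ^ c : ℕ) % 4 = 0 ∨ (j / 2 ^ c : ℕ) % 4 = 3 := by
    rw [h1]
    have h3 : ((⌊4 * y⌋₊ : ℕ) : ℝ) ≤ 4 * y := Nat.floor_le (by positivity)
    have h4 : 4 * y < ((⌊4 * y⌋₊ : ℕ) : ℝ) + 1 := Nat.lt_floor_add_one _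
    rw [abs_lt] at hk
    have h5 : ((⌊4 * y⌋₊ : ℕ) : ℝ) < 4 * (k : ℝ) + 1 := by linarith
    have h6 : 4 * (k : ℝ) - 1 < ((⌊4 * y⌋₊ : ℕ) : ℝ) + 1 := by linarith
    have h5' : ((⌊4 * y⌋₊ : ℕ) : ℤ) < 4 * k + 1 := by exact_mod_cast h5
    have h6' : 4 * k - 1 < ((⌊4 * y⌋₊ : ℕ) : ℤ) + 1 := by exact_mod_cast h6
    omega
  have h3 : j.testBit c = (j / 2 ^ c).testBit 0 := by rw [Nat.testBit_div_two_pow, zero_add]
  have h4 : j.testBit (c + 1) = (j / 2 ^ c).testBit 1 := by rw [Nat.testBit_div_two_pow, add_comm]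
  have h5 : (j / 2 ^ c).testBit 1 = (j / 2 ^ c / 2).testBit 0 := by
    rw [Nat.testBit_succ]
  rw [h3, h4, h5, Nat.testBit_zero, Nat.testBit_zero, decide_eq_decide]
  omega

/-- The positions where the binary digit of `j` changes. -/
private def BinM_chg (n j : ℕ) : Finset ℕ := (range (n - 1)).filter fun c => j.testBit (c + 1) ≠ j.testBit c

private lemma BinM_card (n m : ℕ) :
    ((range (2 ^ (n + 1))).filter fun j => (BinM_chg n j).card ≤ m).card ≤
      4 * ∑ i ∈ range (m + 1), n.choose i := by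
  have h1 : ((range (2 ^ (n + 1))).filter fun j => (BinM_chg n j).card ≤ m).card ≤
      (((range (m + 1)).biUnion fun i => powersetCard i (range (n - 1))) ×ˢ
        ((univ : Finset Bool) ×ˢ (univ : Finset Bool))).card := by
    refine Finset.card_le_card_of_injOn
      (fun j => (BinM_chg n j, (j.testBit n, j.testBit (n - 1)))) ?_ ?_
    · intro j hj
      rw [mem_coe, mem_filter] at hj
      rw [mem_coe, mem_product]
      refine ⟨?_, by simp⟩
      rw [mem_biUnion]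
      refine ⟨(BinM_chg n j).card, by rw [mem_range]; omega, ?_⟩
      rw [mem_powersetCard]
      exact ⟨filter_subset _ _, rfl⟩
    · intro j hj j' hj' hjj
      rw [mem_coe, mem_filter, mem_range] at hj hj'
      simp only [Prod.mk.injEq] at hjj
      obtain ⟨h2, h3, h4⟩ := hjj
      have hstep : ∀ c, c < n - 1 → j.testBit (c + 1) = j'.testBit (c + 1) →
          j.testBit c = j'.testBit c := by
        intro c hc h5
        have h6 : c ∈ BinM_chg n j ↔ c ∈ BinM_chg n j' := by rw [h2]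
        simp only [BinM_chg, mem_filter, mem_range, hc, true_and] at h6
        rw [h5] at h6
        revert h6
        cases j'.testBit (c + 1) <;> cases j.testBit c <;> cases j'.testBit c <;> simp
      have hdown : ∀ t c, c + t = n - 1 → j.testBit c = j'.testBit c := by
        intro t
        induction t with
        | zero => intro c hc; rw [add_zero] at hc; rw [hc]; exact h4
        | succ t ih =>
          intro c hc
          exact hstep c (by omega) (ih (c + 1) (by omega))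
      apply Nat.eq_of_testBit_eq
      intro i
      rcases Nat.lt_or_ge n i with hi | hi
      · rw [Nat.testBit_lt_two_pow (lt_of_lt_of_le hj.1 (Nat.pow_le_pow_right (by norm_num) hi)),
          Nat.testBit_lt_two_pow (lt_of_lt_of_le hj'.1 (Nat.pow_le_pow_right (by norm_num) hi))]
      · rcases Nat.eq_or_lt_of_le hi with hi' | hi'
        · rw [hi']; exact h3
        · exact hdown (n - 1 - i) i (by omega)
  refine h1.trans ?_
  rw [card_product, card_product]
  simp only [Finset.card_univ, Fintype.card_bool]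
  have h2 : ((range (m + 1)).biUnion fun i => powersetCard i (range (n - 1))).card ≤
      ∑ i ∈ range (m + 1), n.choose i := by
    refine card_biUnion_le.trans (sum_le_sum fun i _ => ?_)
    rw [card_powersetCard, card_range]
    exact Nat.choose_le_choose i (Nat.sub_le n 1)
  omega

private lemma BinM_main (n : ℕ) (hn : 1 ≤ n) (κ : ℝ) (α : ℝ) (h0 : 0 ≤ α) (u : ℂ) (hu : ‖u‖ = 1)
    (hs : ∑ a ∈ Icc 1 n, (1 - (u * ee (2 ^ a * α)).re) ≤ κ * n) :
    (BinM_chg n ⌊2 ^ (n + 1) * α⌋₊).card ≤ ⌊16 * κ * n⌋₊ := by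
  classical
  have hd : ∀ a : ℕ, 0 ≤ 1 - (u * ee (2 ^ a * α)).re := by
    intro a
    have h1 : (u * ee (2 ^ a * α)).re ≤ ‖u * ee (2 ^ a * α)‖ := Complex.re_le_norm _
    rw [norm_mul, hu, norm_ee, one_mul] at h1
    linarith
  set S := (Icc 1 n).filter fun a => (1 : ℝ) / 8 ≤ 1 - (u * ee (2 ^ a * α)).re with hS
  have hScard : (S.card : ℝ) ≤ 8 * (κ * n) := by
    have h1 : ∑ a ∈ S, (1 / 8 : ℝ) ≤ ∑ a ∈ S, (1 - (u * ee (2 ^ a * α)).re) :=
      sum_le_sum fun a ha => (mem_filter.1 ha).2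
    have h2 : ∑ a ∈ S, (1 - (u * ee (2 ^ a * α)).re) ≤ ∑ a ∈ Icc 1 n, (1 - (u * ee (2 ^ a * α)).re) :=
      sum_le_sum_of_subset_of_nonneg (filter_subset _ _) fun a _ _ => hd a
    rw [sum_const, nsmul_eq_mul] at h1
    linarith
  have hsub : BinM_chg n ⌊2 ^ (n + 1) * α⌋₊ ⊆
      ((range (n - 1)).filter fun c => n - 1 - c ∈ S) ∪ ((range (n - 1)).filter fun c => n - c ∈ S) := by
    intro c hc
    rw [BinM_chg, mem_filter, mem_range] at hc
    obtain ⟨hc1, hc2⟩ := hc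
    by_contra hcon
    have h1 : n - 1 - c ∉ S := fun h =>
      hcon (mem_union_left _ (mem_filter.2 ⟨mem_range.2 hc1, h⟩))
    have h2 : n - c ∉ S := fun h =>
      hcon (mem_union_right _ (mem_filter.2 ⟨mem_range.2 hc1, h⟩))
    rw [hS, mem_filter, mem_Icc, not_and, not_le] at h1 h2
    have h3 := h1 ⟨by omega, by omega⟩
    have h4 := h2 ⟨by omega, by omega⟩
    apply hc2
    have h5 : ee (2 ^ (n - c) * α) = ee (2 ^ (n - 1 - c) * α) * ee (2 ^ (n - 1 - c) * α) := by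
      rw [← ee_add]
      congr 1
      have : n - c = (n - 1 - c) + 1 := by omega
      rw [this, pow_succ]
      ring
    rw [h5] at h4
    have h6 := BinM_two u _ hu (norm_ee _) h3 h4
    obtain ⟨k, hk⟩ := BinM_cos _ h6
    refine BinM_bits c _ (2 ^ (n - 1 - c) * α) (by positivity) k hk ?_
    congr 1
    rw [← mul_assoc, ← pow_add]
    congr 2
    omega
  have hc1 : ((range (n - 1)).filter fun c => n - 1 - c ∈ S).card ≤ S.card := by
    refine card_le_card_of_injOn (fun c => n - 1 - c) ?_ ?_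
    · intro c hc
      exact (mem_filter.1 (mem_coe.1 hc)).2
    · intro c hc c' hc' h
      rw [mem_coe, mem_filter, mem_range] at hc hc'
      simp only at h
      omega
  have hc2 : ((range (n - 1)).filter fun c => n - c ∈ S).card ≤ S.card := by
    refine card_le_card_of_injOn (fun c => n - c) ?_ ?_
    · intro c hc
      exact (mem_filter.1 (mem_coe.1 hc)).2
    · intro c hc c' hc' h
      rw [mem_coe, mem_filter, mem_range] at hc hc'
      simp only at h
      omega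
  have h1 : (BinM_chg n ⌊2 ^ (n + 1) * α⌋₊).card ≤ S.card + S.card :=
    (card_le_card hsub).trans ((card_union_le _ _).trans (add_le_add hc1 hc2))
  apply Nat.le_floor
  have h2 : ((BinM_chg n ⌊2 ^ (n + 1) * α⌋₊).card : ℝ) ≤ S.card + S.card := by exact_mod_cast h1
  linarith

/-- Proof. Let `z_a = e(2^a α)`, `δ_a = 1 - Re(u z_a)`, so `|u z_a - 1|² = 2δ_a` and `z_{a+1} = z_a²`. If `δ_a, δ_{a+1} < 1/8`
then `|z_a - 1| = |u z_{a+1} - u z_a| < 1`, so the distance of `2^a α` to the nearest integer is `< 1/6 < 1/4` and the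
binary digits `b_{a+1}, b_{a+2}` of `α = 0.b₁b₂…` are equal. Hence at most `16κn` of the `a ∈ [1,n-1]` have
`b_{a+1} ≠ b_{a+2}`, and `α` lies in one of at most `4 ∑_{i ≤ 16κn} C(n,i)` dyadic intervals of length `2^{-(n+1)}`. -/
theorem digit_measure (n : ℕ) (hn : 1 ≤ n) (κ : ℝ) (hκ : 0 ≤ κ) :
    volume {α : ℝ | α ∈ Set.Icc (0 : ℝ) 1 ∧ ∃ u : ℂ, ‖u‖ = 1 ∧
      ∑ a ∈ Icc 1 n, (1 - (u * ee (2 ^ a * α)).re) ≤ κ * n} ≤
      ENNReal.ofReal (4 * (1 / 2 : ℝ) ^ n * ∑ i ∈ range (⌊16 * κ * n⌋₊ + 1), (n.choose i : ℝ)) := by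
  classical
  set m := ⌊16 * κ * n⌋₊ with hm
  set G := (range (2 ^ (n + 1))).filter fun j => (BinM_chg n j).card ≤ m with hG
  have hsub : {α : ℝ | α ∈ Set.Icc (0 : ℝ) 1 ∧ ∃ u : ℂ, ‖u‖ = 1 ∧
      ∑ a ∈ Icc 1 n, (1 - (u * ee (2 ^ a * α)).re) ≤ κ * n} ⊆
      {(1 : ℝ)} ∪ ⋃ j ∈ G, Set.Icc ((j : ℝ) / 2 ^ (n + 1)) (((j : ℝ) + 1) / 2 ^ (n + 1)) := by
    rintro α ⟨⟨h0, h1⟩, u, hu, hs⟩
    rcases eq_or_lt_of_le h1 with h1' | h1'
    · left; exact h1'
    · right
      simp only [Set.mem_iUnion]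
      have hp : (0 : ℝ) < 2 ^ (n + 1) := by positivity
      have h3 : ((⌊2 ^ (n + 1) * α⌋₊ : ℕ) : ℝ) ≤ 2 ^ (n + 1) * α := Nat.floor_le (by positivity)
      have h4 : 2 ^ (n + 1) * α < ((⌊2 ^ (n + 1) * α⌋₊ : ℕ) : ℝ) + 1 := Nat.lt_floor_add_one _
      refine ⟨⌊2 ^ (n + 1) * α⌋₊, ?_, ?_⟩
      · rw [hG, mem_filter, mem_range]
        refine ⟨?_, BinM_main n hn κ α h0 u hu hs⟩
        have h5 : ((⌊2 ^ (n + 1) * α⌋₊ : ℕ) : ℝ) < ((2 ^ (n + 1) : ℕ) : ℝ) := by
          push_cast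
          nlinarith
        exact_mod_cast h5
      · rw [Set.mem_Icc, div_le_iff₀ hp, le_div_iff₀ hp]
        constructor <;> linarith
  refine (measure_mono hsub).trans ((measure_union_le _ _).trans ?_)
  rw [Real.volume_singleton, zero_add]
  refine (measure_biUnion_finset_le _ _).trans ?_
  have h1 : ∀ j ∈ G, volume (Set.Icc ((j : ℝ) / 2 ^ (n + 1)) (((j : ℝ) + 1) / 2 ^ (n + 1))) =
      ENNReal.ofReal ((1 / 2 : ℝ) ^ (n + 1)) := by
    intro j _
    rw [Real.volume_Icc]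
    congr 1
    rw [← sub_div, add_sub_cancel_left, one_div_pow]
  rw [Finset.sum_congr rfl h1, sum_const, nsmul_eq_mul, ← ENNReal.ofReal_natCast,
    ← ENNReal.ofReal_mul (Nat.cast_nonneg _)]
  apply ENNReal.ofReal_le_ofReal
  have h2 : (G.card : ℝ) ≤ 4 * ∑ i ∈ range (m + 1), (n.choose i : ℝ) := by
    have h3 := BinM_card n m
    exact_mod_cast h3
  have h3 : (0 : ℝ) ≤ ∑ i ∈ range (m + 1), (n.choose i : ℝ) := sum_nonneg fun i _ => Nat.cast_nonneg _
  have h4 : (0 : ℝ) < (1 / 2 : ℝ) ^ n := by positivity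
  calc (G.card : ℝ) * (1 / 2 : ℝ) ^ (n + 1)
      ≤ (4 * ∑ i ∈ range (m + 1), (n.choose i : ℝ)) * (1 / 2 : ℝ) ^ (n + 1) :=
        mul_le_mul_of_nonneg_right h2 (by positivity)
    _ = (4 * (1 / 2 : ℝ) ^ n * ∑ i ∈ range (m + 1), (n.choose i : ℝ)) / 2 := by
        rw [pow_succ]; ring
    _ ≤ 4 * (1 / 2 : ℝ) ^ n * ∑ i ∈ range (m + 1), (n.choose i : ℝ) :=
        half_le_self (by positivity)

/-- `∑_{i ≤ m} C(n,i) ≤ (e n/m)^m`. -/
theorem choose_sum (n m : ℕ) (h1 : 1 ≤ m) (h2 : m ≤ n) :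
    ∑ i ∈ range (m + 1), (n.choose i : ℝ) ≤ (Real.exp 1 * n / m) ^ m := by
  have hm : (0 : ℝ) < m := by exact_mod_cast h1
  have hn : (0 : ℝ) < n := by exact_mod_cast (lt_of_lt_of_le h1 h2)
  have hmn : (m : ℝ) ≤ n := by exact_mod_cast h2
  have hr : (1 : ℝ) ≤ (n : ℝ) / m := by rw [le_div_iff₀ hm]; linarith
  calc ∑ i ∈ range (m + 1), (n.choose i : ℝ)
      ≤ ∑ i ∈ range (m + 1), ((n : ℝ) / m) ^ m * (((m : ℝ) / n) ^ i * 1 ^ (n - i) * (n.choose i : ℝ)) := by
        refine sum_le_sum fun i hi => ?_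
        have hi' : i ≤ m := by rw [mem_range] at hi; omega
        have h3 : ((n : ℝ) / m) ^ m * ((m : ℝ) / n) ^ i = ((n : ℝ) / m) ^ (m - i) := by
          have h4 : ((n : ℝ) / m) ^ m = ((n : ℝ) / m) ^ (m - i) * ((n : ℝ) / m) ^ i := by
            rw [← pow_add]; congr 1; omega
          rw [h4, mul_assoc, ← mul_pow]
          have h5 : (n : ℝ) / m * ((m : ℝ) / n) = 1 := by field_simp
          rw [h5, one_pow, mul_one]
        have h6 : ((n : ℝ) / m) ^ m * (((m : ℝ) / n) ^ i * 1 ^ (n - i) * (n.choose i : ℝ)) =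
            (((n : ℝ) / m) ^ m * ((m : ℝ) / n) ^ i) * (n.choose i : ℝ) := by
          rw [one_pow]; ring
        rw [h6, h3]
        exact le_mul_of_one_le_left (Nat.cast_nonneg _) (one_le_pow₀ hr)
    _ ≤ ∑ i ∈ range (n + 1), ((n : ℝ) / m) ^ m * (((m : ℝ) / n) ^ i * 1 ^ (n - i) * (n.choose i : ℝ)) := by
        refine sum_le_sum_of_subset_of_nonneg ?_ fun i _ _ => by positivity
        intro i hi
        rw [mem_range] at hi ⊢
        omega
    _ = ((n : ℝ) / m) ^ m * ((m : ℝ) / n + 1) ^ n := by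
        rw [← mul_sum, ← add_pow]
    _ ≤ ((n : ℝ) / m) ^ m * (Real.exp ((m : ℝ) / n)) ^ n := by
        refine mul_le_mul_of_nonneg_left ?_ (by positivity)
        exact pow_le_pow_left₀ (by positivity) (Real.add_one_le_exp _) n
    _ = (Real.exp 1 * n / m) ^ m := by
        rw [← Real.exp_nat_mul, mul_div_cancel₀ _ hn.ne', mul_div_assoc, mul_pow, ← Real.exp_nat_mul,
          mul_one, mul_comm]

end Pool.Agent.Lib.MP_629a14_nt.Th
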