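import Pool.Agent.Lib.MP_629a14_nt.Th.Defs

/-! The large spectrum: from the measure to the number of frequencies. -/

set_option autoImplicit false

namespace Pool.Agent.Lib.MP_629a14_nt.Th

open Finset Pool.Agent.Lib.MP_629a14_nt MeasureTheory

private theorem Spec_ee (s t : ℝ) : ‖ee s - ee t‖ ≤ 2 * Real.pi * |s - t| := by
  have h1 : ee s - ee t = ee t * (Complex.exp (Complex.I * ((2 * Real.pi * (s - t) : ℝ) : ℂ)) - 1) := by
    unfold ee
    rw [mul_sub, mul_one, ← Complex.exp_add]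
    congr 2
    push_cast
    ring
  have h2 : ‖ee t‖ = 1 := by
    unfold ee
    have : (2 * (Real.pi : ℂ) * (t : ℂ) * Complex.I) = Complex.I * ((2 * Real.pi * t : ℝ) : ℂ) := by
      push_cast
      ring
    rw [this, Complex.norm_exp_I_mul_ofReal]
  rw [h1, norm_mul, h2, one_mul]
  refine (Real.norm_exp_I_mul_ofReal_sub_one_le).trans ?_
  rw [Real.norm_eq_abs, abs_mul, abs_of_pos (by positivity : (0 : ℝ) < 2 * Real.pi)]

private theorem Spec_lip (N : ℕ) (w : ℕ → ℝ) (hw : ∀ n, 0 ≤ w n) (hw1 : ∑ n ∈ Icc 1 N, w n ≤ 1)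
    (α β : ℝ) : ‖WW w N α - WW w N β‖ ≤ 2 * Real.pi * N * |α - β| := by
  unfold WW
  rw [← sum_sub_distrib]
  refine (norm_sum_le _ _).trans ?_
  have h1 : ∀ n ∈ Icc 1 N, ‖(w n : ℂ) * ee (n * α) - (w n : ℂ) * ee (n * β)‖ ≤
      w n * (2 * Real.pi * N * |α - β|) := by
    intro n hn
    rw [mem_Icc] at hn
    rw [← mul_sub, norm_mul, Complex.norm_real, Real.norm_eq_abs, abs_of_nonneg (hw n)]
    refine mul_le_mul_of_nonneg_left ?_ (hw n)
    refine (Spec_ee _ _).trans ?_
    rw [← mul_sub, abs_mul, Nat.abs_cast]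
    have hnN : (n : ℝ) ≤ N := by exact_mod_cast hn.2
    have hpi := Real.pi_pos
    calc 2 * Real.pi * ((n : ℝ) * |α - β|) = (2 * Real.pi * |α - β|) * n := by ring
      _ ≤ (2 * Real.pi * |α - β|) * N := mul_le_mul_of_nonneg_left hnN (by positivity)
      _ = _ := by ring
  refine (sum_le_sum h1).trans ?_
  rw [← sum_mul]
  have : 0 ≤ 2 * Real.pi * N * |α - β| := by positivity
  nlinarith

/-- Proof. `‖WW(α) - WW(α₀)‖ ≤ 2πN|α-α₀|`, so for each such `h` the interval of half-length `κ/(16N)` about `h/(8N)` is in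
the set `κ ≤ ‖WW‖`; these intervals do not overlap and have length `κ/(8N)` (half of it for `h = 0`). -/
theorem spec_count (N : ℕ) (hN : 1 ≤ N) (w : ℕ → ℝ) (hw : ∀ n, 0 ≤ w n) (hw1 : ∑ n ∈ Icc 1 N, w n ≤ 1)
    (κ μ : ℝ) (hκ : 0 < κ) (hκ1 : κ ≤ 1) (hμ : 0 ≤ μ)
    (h : volume {α : ℝ | α ∈ Set.Icc (0 : ℝ) 1 ∧ κ ≤ ‖WW w N α‖} ≤ ENNReal.ofReal μ) :
    (((range (8 * N)).filter (fun h : ℕ => 2 * κ < ‖WW w N ((h : ℝ) / (8 * N : ℕ))‖)).card : ℝ) ≤
      8 * N * μ / κ + 1 := by
  classical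
  have hN0 : (0 : ℝ) < N := by exact_mod_cast hN
  set S := (range (8 * N)).filter (fun h : ℕ => 2 * κ < ‖WW w N ((h : ℝ) / (8 * N : ℕ))‖) with hS
  set S' := S.erase 0 with hS'
  set r : ℝ := κ / (16 * N) with hr
  have hr0 : 0 < r := by positivity
  have hr1 : r ≤ 1 / (16 * N) := by
    rw [hr]
    exact div_le_div_of_nonneg_right hκ1 (by positivity)
  set c : ℕ → ℝ := fun h => (h : ℝ) / (8 * N : ℕ) with hc
  have hceq : ∀ k : ℕ, c k = (k : ℝ) / (8 * N) := by
    intro k
    rw [hc]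
    push_cast
    rfl
  set I : ℕ → Set ℝ := fun k => Set.Ioo (c k - r) (c k + r) with hI
  have hcard : S.card ≤ S'.card + 1 := by
    rw [hS']
    have := Finset.pred_card_le_card_erase (s := S) (a := 0)
    omega
  have hsub : (⋃ k ∈ S', I k) ⊆ {α : ℝ | α ∈ Set.Icc (0 : ℝ) 1 ∧ κ ≤ ‖WW w N α‖} := by
    intro α hα
    rw [Set.mem_iUnion₂] at hα
    obtain ⟨k, hk, hαk⟩ := hα
    rw [hS', mem_erase, hS, mem_filter, mem_range] at hk
    obtain ⟨hk0, hkN, hkw⟩ := hk
    have hαk1 : c k - r < α := hαk.1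
    have hαk2 : α < c k + r := hαk.2
    have hk1 : (1 : ℝ) ≤ k := by exact_mod_cast (by omega : 1 ≤ k)
    have hk2 : (k : ℝ) + 1 ≤ 8 * N := by exact_mod_cast (by omega : k + 1 ≤ 8 * N)
    have e1 : 1 / (16 * (N : ℝ)) ≤ c k := by
      rw [hceq, div_le_div_iff₀ (by positivity) (by positivity)]
      nlinarith
    have e2 : c k + 1 / (16 * (N : ℝ)) ≤ 1 := by
      rw [hceq, div_add_div _ _ (by positivity) (by positivity), div_le_one (by positivity)]
      nlinarith
    refine ⟨⟨by linarith, by linarith⟩, ?_⟩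
    have h1 := Spec_lip N w hw hw1 (c k) α
    have h2 : |c k - α| ≤ r := by
      rw [abs_le]
      constructor <;> linarith
    have h3 : ‖WW w N (c k)‖ ≤ ‖WW w N (c k) - WW w N α‖ + ‖WW w N α‖ := by
      have := norm_add_le (WW w N (c k) - WW w N α) (WW w N α)
      rwa [sub_add_cancel] at this
    have h4 : 2 * κ < ‖WW w N (c k)‖ := hkw
    have h5 : 2 * Real.pi * N * |c k - α| ≤ κ := by
      calc 2 * Real.pi * N * |c k - α| ≤ 2 * Real.pi * N * r :=
            mul_le_mul_of_nonneg_left h2 (by positivity)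
        _ = Real.pi / 8 * κ := by
            rw [hr]
            field_simp
            ring
        _ ≤ 1 * κ := by
            refine mul_le_mul_of_nonneg_right ?_ hκ.le
            have := Real.pi_lt_four
            linarith
        _ = κ := one_mul κ
    linarith
  have hdisj : (S' : Set ℕ).PairwiseDisjoint I := by
    intro k _ l _ hkl
    rw [Function.onFun, Set.disjoint_left]
    intro α hα hα'
    have hαk1 : c k - r < α := hα.1
    have hαk2 : α < c k + r := hα.2
    have hαl1 : c l - r < α := hα'.1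
    have hαl2 : α < c l + r := hα'.2
    have key : ∀ x y : ℕ, x < y → c x + 2 * (1 / (16 * (N : ℝ))) ≤ c y := by
      intro x y hxy
      have h1 : (x : ℝ) + 1 ≤ y := by exact_mod_cast hxy
      rw [hceq, hceq]
      have h2 : (x : ℝ) / (8 * N) + 2 * (1 / (16 * (N : ℝ))) = ((x : ℝ) + 1) / (8 * N) := by
        field_simp
        ring
      rw [h2]
      exact div_le_div_of_nonneg_right h1 (by positivity)
    rcases lt_or_gt_of_ne hkl with h1 | h1
    · have := key k l h1
      linarith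
    · have := key l k h1
      linarith
  have hmeas := measure_biUnion_finset (μ := (volume : Measure ℝ)) hdisj (fun k _ => measurableSet_Ioo)
  have hvol : ∀ k ∈ S', volume (I k) = ENNReal.ofReal (κ / (8 * N)) := by
    intro k _
    rw [hI]
    simp only
    rw [Real.volume_Ioo]
    congr 1
    rw [hr]
    field_simp
    ring
  rw [sum_congr rfl hvol, sum_const, nsmul_eq_mul] at hmeas
  have h6 : (S'.card : ENNReal) * ENNReal.ofReal (κ / (8 * N)) ≤ ENNReal.ofReal μ := by
    rw [← hmeas]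
    exact (measure_mono hsub).trans h
  have h7 : (S'.card : ℝ) * (κ / (8 * N)) ≤ μ := by
    rw [← ENNReal.ofReal_natCast, ← ENNReal.ofReal_mul (Nat.cast_nonneg _)] at h6
    exact (ENNReal.ofReal_le_ofReal_iff hμ).1 h6
  have h8 : (S'.card : ℝ) ≤ 8 * N * μ / κ := by
    rw [le_div_iff₀ hκ]
    have h9 : (S'.card : ℝ) * (κ / (8 * N)) * (8 * N) ≤ μ * (8 * N) :=
      mul_le_mul_of_nonneg_right h7 (by positivity)
    have h10 : (S'.card : ℝ) * (κ / (8 * N)) * (8 * N) = (S'.card : ℝ) * κ := by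
      field_simp
    rw [h10] at h9
    linarith
  have h9 : (S.card : ℝ) ≤ (S'.card : ℝ) + 1 := by exact_mod_cast hcard
  linarith

end Pool.Agent.Lib.MP_629a14_nt.Th
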