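import Pool.Agent.Lib.MP_629a14_nt.Th.Defs

/-! Positivity of combinations of logarithmic derivatives. -/

set_option autoImplicit false

namespace Pool.Agent.Lib.MP_629a14_nt.Th

open Finset

/-- The real summands of `-L'/L(s,χ)`. -/
private noncomputable def pt {q : ℕ} (χ : DirichletCharacter ℂ q) (s : ℂ) (n : ℕ) : ℝ :=
  (LSeries.term ((fun m : ℕ => χ (m : ZMod q)) * fun m : ℕ => (ArithmeticFunction.vonMangoldt m : ℂ)) s n).re

private lemma pt_hasSum {q : ℕ} [NeZero q] (χ : DirichletCharacter ℂ q) (s : ℂ) (hs : 1 < s.re) :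
    HasSum (pt χ s) (-(deriv χ.LFunction s / χ.LFunction s).re) := by
  have h1 := DirichletCharacter.LSeriesSummable_twist_vonMangoldt χ hs
  have h2 := DirichletCharacter.LSeries_twist_vonMangoldt_eq χ hs
  rw [← χ.deriv_LFunction_eq_deriv_LSeries hs, ← χ.LFunction_eq_LSeries hs] at h2
  have h3 := h1.LSeriesHasSum
  rw [h2] at h3
  have h4 := Complex.hasSum_re h3
  have e : (-deriv χ.LFunction s / χ.LFunction s).re =
      -(deriv χ.LFunction s / χ.LFunction s).re := by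
    rw [neg_div, Complex.neg_re]
  rw [e] at h4
  exact h4

/-- The real summands of `-ζ'/ζ(s)`. -/
private noncomputable def ptz (s : ℂ) (n : ℕ) : ℝ :=
  (LSeries.term (fun m : ℕ => (ArithmeticFunction.vonMangoldt m : ℂ)) s n).re

private lemma ptz_hasSum (s : ℂ) (hs : 1 < s.re) :
    HasSum (ptz s) (-(deriv riemannZeta s / riemannZeta s).re) := by
  have h1 := ArithmeticFunction.LSeriesSummable_vonMangoldt hs
  have h2 := ArithmeticFunction.LSeries_vonMangoldt_eq_deriv_riemannZeta_div hs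
  have h3 := h1.LSeriesHasSum
  rw [h2] at h3
  have h4 := Complex.hasSum_re h3
  have e : (-deriv riemannZeta s / riemannZeta s).re =
      -(deriv riemannZeta s / riemannZeta s).re := by
    rw [neg_div, Complex.neg_re]
  rw [e] at h4
  exact h4

private lemma cpow_split (n : ℕ) (hn : n ≠ 0) (σ t : ℝ) :
    (n : ℂ) ^ ((σ : ℂ) + t * Complex.I) = ((((n : ℝ) ^ σ : ℝ)) : ℂ) * (n : ℂ) ^ ((t : ℂ) * Complex.I) := by
  have hn' : (n : ℂ) ≠ 0 := by exact_mod_cast hn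
  rw [Complex.cpow_add _ _ hn', Complex.ofReal_cpow (Nat.cast_nonneg n), Complex.ofReal_natCast]

private lemma pt_eq {q : ℕ} (χ : DirichletCharacter ℂ q) (σ t : ℝ) (n : ℕ) (hn : n ≠ 0) :
    pt χ ((σ : ℂ) + t * Complex.I) n =
      (ArithmeticFunction.vonMangoldt n / (n : ℝ) ^ σ) *
        (χ (n : ZMod q) / (n : ℂ) ^ ((t : ℂ) * Complex.I)).re := by
  unfold pt
  rw [LSeries.term_of_ne_zero hn, cpow_split n hn, ← Complex.re_ofReal_mul]
  congr 1
  simp only [Pi.mul_apply]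
  push_cast
  have hn' : (n : ℂ) ≠ 0 := by exact_mod_cast hn
  have h1 : (((n : ℝ) ^ σ : ℝ) : ℂ) ≠ 0 := by
    have : (0 : ℝ) < (n : ℝ) ^ σ := by positivity
    exact_mod_cast this.ne'
  have h2 : (n : ℂ) ^ ((t : ℂ) * Complex.I) ≠ 0 := by
    rw [Complex.cpow_ne_zero_iff]
    exact Or.inl hn'
  field_simp

private lemma pt_zero {q : ℕ} (χ : DirichletCharacter ℂ q) (s : ℂ) : pt χ s 0 = 0 := by
  simp [pt]

private lemma ptz_zero (s : ℂ) : ptz s 0 = 0 := by
  simp [ptz]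

private lemma pt_real {q : ℕ} (χ : DirichletCharacter ℂ q) (σ : ℝ) (n : ℕ) (hn : n ≠ 0) :
    pt χ (σ : ℂ) n = (ArithmeticFunction.vonMangoldt n / (n : ℝ) ^ σ) * (χ (n : ZMod q)).re := by
  have := pt_eq χ σ 0 n hn
  simpa using this

private lemma ptz_real (σ : ℝ) (n : ℕ) (hn : n ≠ 0) :
    ptz (σ : ℂ) n = (ArithmeticFunction.vonMangoldt n / (n : ℝ) ^ σ) := by
  unfold ptz
  rw [LSeries.term_of_ne_zero hn]
  have e : (n : ℂ) ^ (σ : ℂ) = ((((n : ℝ) ^ σ : ℝ)) : ℂ) := by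
    rw [Complex.ofReal_cpow (Nat.cast_nonneg n), Complex.ofReal_natCast]
  rw [e, ← Complex.ofReal_div, Complex.ofReal_re]

private lemma wgt_nonneg (σ : ℝ) (n : ℕ) :
    0 ≤ ArithmeticFunction.vonMangoldt n / (n : ℝ) ^ σ :=
  div_nonneg ArithmeticFunction.vonMangoldt_nonneg (by positivity)

/-- `3 + 4 cos x + cos 2x ≥ 0` applied to `-L'/L(s,χ) = ∑ Λ(n)χ(n)n^{-s}`
(Mathlib: `LSeries_twist_vonMangoldt_eq` and `deriv_LFunction_eq_deriv_LSeries`). -/
theorem pos341 (q : ℕ) [NeZero q] (χ : DirichletCharacter ℂ q) (σ t : ℝ) (hσ : 1 < σ) :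
    0 ≤ -3 * (deriv (1 : DirichletCharacter ℂ q).LFunction σ / (1 : DirichletCharacter ℂ q).LFunction σ).re -
      4 * (deriv χ.LFunction (σ + t * Complex.I) / χ.LFunction (σ + t * Complex.I)).re -
      (deriv (χ ^ 2).LFunction (σ + 2 * t * Complex.I) / (χ ^ 2).LFunction (σ + 2 * t * Complex.I)).re := by
  have hs0 : 1 < ((σ : ℂ)).re := by simpa using hσ
  have hs1 : 1 < ((σ : ℂ) + t * Complex.I).re := by simpa using hσ
  have e2 : (σ : ℂ) + 2 * t * Complex.I = (σ : ℂ) + ((2 * t : ℝ) : ℂ) * Complex.I := by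
    push_cast; ring
  rw [e2]
  have hs2 : 1 < ((σ : ℂ) + ((2 * t : ℝ) : ℂ) * Complex.I).re := by
    simp only [Complex.add_re, Complex.mul_re, Complex.ofReal_re, Complex.ofReal_im, Complex.I_re,
      Complex.I_im]
    linarith
  have H0 := (pt_hasSum (1 : DirichletCharacter ℂ q) _ hs0).mul_left 3
  have H1 := (pt_hasSum χ _ hs1).mul_left 4
  have H2 := pt_hasSum (χ ^ 2) _ hs2
  have H := (H0.add H1).add H2
  refine (H.nonneg fun n => ?_).trans (le_of_eq (by ring))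
  rcases eq_or_ne n 0 with rfl | hn
  · simp [pt_zero]
  rw [pt_real _ _ _ hn, pt_eq _ _ _ _ hn, pt_eq _ _ _ _ hn]
  set w : ℂ := (n : ℂ) ^ ((t : ℂ) * Complex.I) with hw
  have hw2 : (n : ℂ) ^ (((2 * t : ℝ) : ℂ) * Complex.I) = w ^ 2 := by
    rw [hw, ← Complex.cpow_nat_mul]
    congr 1
    push_cast; ring
  rw [hw2]
  have hw1 : ‖w‖ = 1 := by
    rw [hw, Complex.norm_natCast_cpow_of_pos (Nat.pos_of_ne_zero hn)]
    simp
  have hsq : (χ ^ 2) (n : ZMod q) / w ^ 2 = (χ (n : ZMod q) / w) ^ 2 := by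
    rw [MulChar.pow_apply' χ two_ne_zero, div_pow]
  rw [hsq]
  set z : ℂ := χ (n : ZMod q) / w with hz
  have key : 0 ≤ 3 * ((1 : DirichletCharacter ℂ q) (n : ZMod q)).re + 4 * z.re + (z ^ 2).re := by
    by_cases hu : IsUnit (n : ZMod q)
    · have h1 : ((1 : DirichletCharacter ℂ q) (n : ZMod q)) = 1 := MulChar.one_apply hu
      have hzn : ‖z‖ = 1 := by
        rw [hz, norm_div, hw1, div_one]
        obtain ⟨u, hu'⟩ := hu
        rw [← hu']
        exact χ.unit_norm_eq_one u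
      have hzz : z.re ^ 2 + z.im ^ 2 = 1 := by
        have h5 := Complex.sq_norm z
        rw [hzn, Complex.normSq_apply] at h5
        nlinarith
      rw [h1, Complex.one_re]
      have h6 : (z ^ 2).re = z.re ^ 2 - z.im ^ 2 := by
        rw [pow_two, Complex.mul_re]; ring
      rw [h6]
      nlinarith [sq_nonneg (1 + z.re)]
    · have h1 : ((1 : DirichletCharacter ℂ q) (n : ZMod q)) = 0 := MulChar.map_nonunit _ hu
      have h2 : χ (n : ZMod q) = 0 := MulChar.map_nonunit _ hu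
      rw [h1, hz, h2]
      simp
  have hnn := wgt_nonneg σ n
  have := mul_nonneg hnn key
  linarith

private lemma real_val {q : ℕ} (χ : DirichletCharacter ℂ q) (hχ : χ ^ 2 = 1) (n : ℕ) :
    (χ (n : ZMod q)).im = 0 ∧ -1 ≤ (χ (n : ZMod q)).re := by
  by_cases hu : IsUnit (n : ZMod q)
  · have h1 : (χ (n : ZMod q)) ^ 2 = 1 := by
      rw [← MulChar.pow_apply' χ two_ne_zero, hχ]
      exact MulChar.one_apply hu
    rcases sq_eq_one_iff.mp h1 with h | h <;> simp [h]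
  · have h2 : χ (n : ZMod q) = 0 := MulChar.map_nonunit _ hu
    simp [h2]

/-- `1 + χ(n) ≥ 0` for a real character. -/
theorem pos_real (q : ℕ) [NeZero q] (χ : DirichletCharacter ℂ q) (hχ : χ ^ 2 = 1) (σ : ℝ) (hσ : 1 < σ) :
    0 ≤ -(deriv riemannZeta σ / riemannZeta σ).re - (deriv χ.LFunction σ / χ.LFunction σ).re := by
  have hs0 : 1 < ((σ : ℂ)).re := by simpa using hσ
  have H := (ptz_hasSum _ hs0).add (pt_hasSum χ _ hs0)
  refine (H.nonneg fun n => ?_).trans (le_of_eq (by ring))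
  rcases eq_or_ne n 0 with rfl | hn
  · simp [pt_zero, ptz_zero]
  rw [pt_real _ _ _ hn, ptz_real _ _ hn]
  have h := (real_val χ hχ n).2
  have hnn := wgt_nonneg σ n
  nlinarith

/-- `(1 + χ₁(n))(1 + χ₂(n)) ≥ 0` for two real characters. -/
theorem pos_two (q₁ q₂ : ℕ) [NeZero q₁] [NeZero q₂] [NeZero (q₁ * q₂)]
    (χ₁ : DirichletCharacter ℂ q₁) (χ₂ : DirichletCharacter ℂ q₂) (h₁ : χ₁ ^ 2 = 1) (h₂ : χ₂ ^ 2 = 1)
    (ψ : DirichletCharacter ℂ (q₁ * q₂))
    (hψ : ψ = DirichletCharacter.changeLevel (Dvd.intro _ rfl) χ₁ *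
      DirichletCharacter.changeLevel (Dvd.intro_left _ rfl) χ₂) (σ : ℝ) (hσ : 1 < σ) :
    0 ≤ -(deriv riemannZeta σ / riemannZeta σ).re - (deriv χ₁.LFunction σ / χ₁.LFunction σ).re -
      (deriv χ₂.LFunction σ / χ₂.LFunction σ).re - (deriv ψ.LFunction σ / ψ.LFunction σ).re := by
  have hs0 : 1 < ((σ : ℂ)).re := by simpa using hσ
  have H := (((ptz_hasSum _ hs0).add (pt_hasSum χ₁ _ hs0)).add (pt_hasSum χ₂ _ hs0)).add
    (pt_hasSum ψ _ hs0)
  refine (H.nonneg fun n => ?_).trans (le_of_eq (by ring))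
  rcases eq_or_ne n 0 with rfl | hn
  · simp [pt_zero, ptz_zero]
  rw [pt_real _ _ _ hn, pt_real _ _ _ hn, pt_real _ _ _ hn, ptz_real _ _ hn]
  have hv : ψ (n : ZMod (q₁ * q₂)) = χ₁ (n : ZMod q₁) * χ₂ (n : ZMod q₂) := by
    rw [hψ, MulChar.mul_apply]
    by_cases hu : IsUnit (n : ZMod (q₁ * q₂))
    · obtain ⟨u, hu'⟩ := hu
      rw [← hu', DirichletCharacter.changeLevel_eq_cast_of_dvd,
        DirichletCharacter.changeLevel_eq_cast_of_dvd, hu', ZMod.cast_natCast (Dvd.intro _ rfl),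
        ZMod.cast_natCast (Dvd.intro_left _ rfl)]
    · rw [MulChar.map_nonunit _ hu, zero_mul]
      rw [ZMod.isUnit_iff_coprime] at hu
      by_cases h3 : n.Coprime q₁
      · have h4 : ¬ n.Coprime q₂ := fun h4 => hu (Nat.Coprime.mul_right h3 h4)
        rw [← ZMod.isUnit_iff_coprime] at h4
        rw [MulChar.map_nonunit χ₂ h4, mul_zero]
      · rw [← ZMod.isUnit_iff_coprime] at h3
        rw [MulChar.map_nonunit χ₁ h3, zero_mul]
  obtain ⟨i1, r1⟩ := real_val χ₁ h₁ n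
  obtain ⟨i2, r2⟩ := real_val χ₂ h₂ n
  have hr : (ψ (n : ZMod (q₁ * q₂))).re = (χ₁ (n : ZMod q₁)).re * (χ₂ (n : ZMod q₂)).re := by
    rw [hv, Complex.mul_re, i1, i2]; ring
  rw [hr]
  have hnn := wgt_nonneg σ n
  have h5 : 0 ≤ (1 + (χ₁ (n : ZMod q₁)).re) * (1 + (χ₂ (n : ZMod q₂)).re) :=
    mul_nonneg (by linarith) (by linarith)
  have := mul_nonneg hnn h5
  linarith

end Pool.Agent.Lib.MP_629a14_nt.Th
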