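import Pool.Agent.Lib.MP_629a14_nt.Th.Lower
import Pool.Agent.Lib.MP_629a14_nt.Th.Pos

/-! Zero-free region for the zeta function. -/

set_option autoImplicit false

namespace Pool.Agent.Lib.MP_629a14_nt.Th

open Finset

private lemma one_le_log_add_three (x : ℝ) : 1 ≤ Real.log (|x| + 3) := by
  rw [Real.le_log_iff_exp_le (by positivity)]
  linarith [Real.exp_one_lt_d9, abs_nonneg x]

/-- `Re 1/(a+ib) ≤ 1` for `0 < a ≤ 1`, `|b| ≥ 1`. -/
private lemma re_inv_le_one (a b : ℝ) (ha : 0 < a) (ha1 : a ≤ 1) (hb : 1 ≤ |b|) :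
    (1 / ((a : ℂ) + b * Complex.I)).re ≤ 1 := by
  rw [one_div, Complex.inv_re]
  have h1 : ((a : ℂ) + b * Complex.I).re = a := by simp
  have h2 : ((a : ℂ) + b * Complex.I).im = b := by simp
  rw [Complex.normSq_apply, h1, h2]
  have hb2 : 1 ≤ b * b := by
    have : 1 * 1 ≤ |b| * |b| := mul_le_mul hb hb (by norm_num) (abs_nonneg b)
    rwa [abs_mul_abs_self, one_mul] at this
  rw [div_le_one (by positivity)]
  nlinarith [mul_pos ha ha]

/-- Zeros with small imaginary part. -/
private lemma zfrZ_low : ∃ η : ℝ, 0 < η ∧ η ≤ 1 ∧ ∀ ρ : ℂ, zt ρ = 0 → |ρ.im| ≤ 1 → ρ.re ≤ 1 - η := by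
  have hfin := zset_finite_zt 0 1
  by_cases hne : hfin.toFinset.Nonempty
  · obtain ⟨ρ₀, hρ₀, hmax⟩ := hfin.toFinset.exists_max_image (fun ρ => ρ.re) hne
    rw [Set.Finite.mem_toFinset] at hρ₀
    obtain ⟨h1, h2, h3⟩ := hρ₀
    have h4 := re_lt_one_zt ρ₀ h1
    refine ⟨1 - ρ₀.re, by linarith, by linarith, ?_⟩
    intro ρ hρ him
    by_cases hre : 0 ≤ ρ.re
    · have := hmax ρ (by
        rw [Set.Finite.mem_toFinset]
        exact ⟨hρ, hre, him⟩)
      linarith
    · push Not at hre
      linarith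
  · refine ⟨1, by norm_num, le_rfl, ?_⟩
    intro ρ hρ him
    by_contra hre
    push Not at hre
    apply hne
    refine ⟨ρ, ?_⟩
    rw [Set.Finite.mem_toFinset]
    exact ⟨hρ, by linarith, him⟩

/-- Proof. For `|γ| ≥ 1`: `pos341` with `q = 1`, `χ = 1`, `upper_zeta` (at `0`, at `γ` with `S = {ρ}`, at `2γ`);
the terms `Re 1/(σ-1+iγ)` are at most `1`. For `|γ| ≤ 1`: `zt` has no zeros in the compact set
`1 ≤ Re s ≤ 2, |Im s| ≤ 1`, hence none with `Re s ≥ 1 - η`, `|Im s| ≤ 1` (compactness, `zt_ne_zero`). -/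
theorem zfrZ : ∃ c : ℝ, 0 < c ∧ ∀ ρ : ℂ, zt ρ = 0 → ρ.re ≤ 1 - c / Real.log (|ρ.im| + 3) := by
  obtain ⟨η₀, hη₀, hη₁, hlow⟩ := zfrZ_low
  obtain ⟨C, hC, hup⟩ := upper_zeta
  set D : ℝ := 9 * C + 5 with hD
  have hD14 : 14 ≤ D := by linarith
  have hDpos : 0 < D := by linarith
  set η : ℝ := 1 / (16 * D) with hη
  have hηpos : 0 < η := by positivity
  have hηD : D * η = 1 / 16 := by rw [hη]; field_simp
  have hη16 : η ≤ 1 / 16 := by
    nlinarith
  refine ⟨min η₀ (η / 4), lt_min hη₀ (by positivity), ?_⟩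
  intro ρ hρ
  have hℓ : 1 ≤ Real.log (|ρ.im| + 3) := one_le_log_add_three ρ.im
  set ℓ : ℝ := Real.log (|ρ.im| + 3) with hℓd
  have hℓpos : 0 < ℓ := by linarith
  rcases le_total |ρ.im| 1 with him | him
  · have h1 := hlow ρ hρ him
    have h2 : min η₀ (η / 4) / ℓ ≤ η₀ := by
      rw [div_le_iff₀ hℓpos]
      have : min η₀ (η / 4) ≤ η₀ := min_le_left _ _
      nlinarith
    linarith
  · have hc4 : min η₀ (η / 4) / ℓ ≤ η / 4 / ℓ :=
      div_le_div_of_nonneg_right (min_le_right _ _) hℓpos.le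
    by_cases hβ : ρ.re < 15 / 16
    · have h2 : η / 4 / ℓ ≤ 1 / 16 := by
        rw [div_le_iff₀ hℓpos]
        nlinarith
      linarith
    · push Not at hβ
      have hβ1 := re_lt_one_zt ρ hρ
      set γ : ℝ := ρ.im with hγ
      set β : ℝ := ρ.re with hβd
      have hρe : ρ = (β : ℂ) + γ * Complex.I := by
        rw [hβd, hγ, Complex.re_add_im]
      set σ : ℝ := 1 + η / ℓ with hσ
      have hηℓ : 0 < η / ℓ := by positivity
      have hηℓ16 : η / ℓ ≤ 1 / 16 := by
        rw [div_le_iff₀ hℓpos]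
        nlinarith
      have hσ1 : 1 < σ := by linarith
      have hσ2 : σ ≤ 17 / 16 := by linarith
      have hpos := pos341 1 1 σ γ hσ1
      rw [one_pow, DirichletCharacter.LFunction_modOne_eq] at hpos
      have e0 := hup 0 σ hσ1 hσ2 ∅ (by simp)
      have e1 := hup γ σ hσ1 hσ2 {ρ} (by
        intro z hz
        rw [Finset.mem_singleton] at hz
        subst hz
        refine ⟨hρ, ?_⟩
        have h1 : z - ctr γ = ((β - 17 / 16 : ℝ) : ℂ) := by
          unfold ctr
          rw [hρe]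
          push_cast
          ring
        rw [h1, Complex.norm_real, Real.norm_eq_abs, abs_le]
        constructor <;> linarith)
      have e2 := hup (2 * γ) σ hσ1 hσ2 ∅ (by simp)
      simp only [Complex.ofReal_zero, zero_mul, add_zero, Finset.sum_empty, sub_zero, abs_zero,
        zero_add] at e0
      simp only [Finset.sum_singleton] at e1
      simp only [Finset.sum_empty, sub_zero, Complex.ofReal_mul, Complex.ofReal_ofNat] at e2
      have hr0 : (1 / ((σ : ℂ) - 1)).re = ℓ / η := by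
        have : (1 / ((σ : ℂ) - 1)) = ((ℓ / η : ℝ) : ℂ) := by
          rw [hσ]
          push_cast
          rw [add_sub_cancel_left, one_div_div]
        rw [this, Complex.ofReal_re]
      have hr1 : (1 / ((σ : ℂ) - 1 + γ * Complex.I)).re ≤ 1 := by
        have := re_inv_le_one (σ - 1) γ (by linarith) (by linarith) him
        push_cast at this
        exact this
      have hr2 : (1 / ((σ : ℂ) - 1 + 2 * γ * Complex.I)).re ≤ 1 := by
        have := re_inv_le_one (σ - 1) (2 * γ) (by linarith) (by linarith) (by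
          rw [abs_mul, abs_two]; linarith)
        push_cast at this
        exact this
      have hr3 : (1 / ((σ : ℂ) + γ * Complex.I - ρ)).re = 1 / (σ - β) := by
        have : (1 / ((σ : ℂ) + γ * Complex.I - ρ)) = ((1 / (σ - β) : ℝ) : ℂ) := by
          rw [hρe]
          push_cast
          congr 1
          ring
        rw [this, Complex.ofReal_re]
      have hl3 : Real.log 3 ≤ ℓ := Real.log_le_log (by norm_num) (by linarith [abs_nonneg γ])
      have hl2 : Real.log (|2 * γ| + 3) ≤ 2 * ℓ := by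
        rw [abs_mul, abs_two, hℓd, ← Real.log_rpow (by positivity), Real.rpow_two]
        apply Real.log_le_log (by positivity)
        nlinarith [abs_nonneg γ]
      rw [hr0] at e0
      rw [hr3] at e1
      have hC0 : 0 ≤ C := by linarith
      have k0 : C * Real.log 3 ≤ C * ℓ := mul_le_mul_of_nonneg_left hl3 hC0
      have k2 : C * Real.log (|2 * γ| + 3) ≤ C * (2 * ℓ) := mul_le_mul_of_nonneg_left hl2 hC0
      have key : 4 * (1 / (σ - β)) ≤ 3 * (ℓ / η) + D * ℓ := by
        rw [hD]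
        nlinarith
      have hσβ : 0 < σ - β := by linarith
      have h5 : 3 * (ℓ / η) + D * ℓ = (49 / 16) * ℓ / η := by
        have : D * ℓ = (D * η) * ℓ / η := by field_simp
        rw [this, hηD]
        ring
      rw [h5] at key
      have h6 : 4 * η ≤ (49 / 16) * ℓ * (σ - β) := by
        have h7 : 4 / (σ - β) ≤ (49 / 16) * ℓ / η := by
          calc 4 / (σ - β) = 4 * (1 / (σ - β)) := by ring
            _ ≤ _ := key
        rw [div_le_div_iff₀ hσβ hηpos] at h7
        exact h7
      have h8 : 64 / 49 * (η / ℓ) ≤ σ - β := by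
        rw [← mul_div_assoc, div_le_iff₀ hℓpos]
        nlinarith
      have h9 : η / 4 / ℓ = (η / ℓ) / 4 := by ring
      rw [h9] at hc4
      linarith

end Pool.Agent.Lib.MP_629a14_nt.Th
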