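import Mathlib

/-! Landau's lemma: the logarithmic derivative near a point where the function is not small. -/

set_option autoImplicit false

namespace Pool.Agent.Lib.MP_629a14_nt.Th

open Finset

open Metric Filter Topology in
private theorem landau_fac (f : ℂ → ℂ) (U : Set ℂ) (hf : AnalyticOnNhd ℂ f U) (S : Finset ℂ)
    (hS : ∀ ρ ∈ S, ρ ∈ U ∧ analyticOrderAt f ρ ≠ ⊤) :
    ∃ g : ℂ → ℂ, AnalyticOnNhd ℂ g U ∧ (∀ ρ ∈ S, g ρ ≠ 0) ∧
      ∀ z, f z = (∏ ρ ∈ S, (z - ρ) ^ analyticOrderNatAt f ρ) * g z := by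
  classical
  induction S using Finset.induction_on with
  | empty => exact ⟨f, hf, by simp, by simp⟩
  | insert ρ S hρ ih =>
    obtain ⟨g, hg, hgS, hfg⟩ := ih (fun σ hσ => hS σ (Finset.mem_insert_of_mem hσ))
    obtain ⟨hρU, hρt⟩ := hS ρ (Finset.mem_insert_self ρ S)
    obtain ⟨h, hh, hh0, hev⟩ := (hf ρ hρU).analyticOrderAt_ne_top.1 hρt
    set P : ℂ → ℂ := fun z => ∏ σ ∈ S, (z - σ) ^ analyticOrderNatAt f σ with hP
    have hPan : ∀ z, AnalyticAt ℂ P z := by
      intro z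
      exact Finset.analyticAt_fun_prod S (fun σ _ => by fun_prop)
    have hP0 : P ρ ≠ 0 := Finset.prod_ne_zero_iff.2 (fun σ hσ =>
      pow_ne_zero _ (sub_ne_zero.2 (by rintro rfl; exact hρ hσ)))
    refine ⟨fun z => if z = ρ then h ρ / P ρ else g z / (z - ρ) ^ analyticOrderNatAt f ρ, ?_, ?_, ?_⟩
    · intro z hz
      by_cases hzρ : z = ρ
      · subst hzρ
        have he : (fun w => if w = z then h z / P z else g w / (w - z) ^ analyticOrderNatAt f z)
            =ᶠ[𝓝 z] fun w => h w / P w := by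
          have hPne : ∀ᶠ w in 𝓝 z, P w ≠ 0 := (hPan z).continuousAt.eventually_ne hP0
          filter_upwards [hev, hPne] with w hw hPw
          by_cases hwz : w = z
          · subst hwz
            simp
          · simp only [hwz, if_false]
            rw [div_eq_div_iff (pow_ne_zero _ (sub_ne_zero.2 hwz)) hPw]
            have h1 := hfg w
            rw [hw, smul_eq_mul] at h1
            linear_combination -h1
        exact (hh.fun_div (hPan z) hP0).congr he.symm
      · have he : (fun w => if w = ρ then h ρ / P ρ else g w / (w - ρ) ^ analyticOrderNatAt f ρ)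
            =ᶠ[𝓝 z] fun w => g w / (w - ρ) ^ analyticOrderNatAt f ρ := by
          filter_upwards [isOpen_ne.mem_nhds hzρ] with w hw
          have hw' : w ≠ ρ := hw
          simp [hw']
        have h2 : AnalyticAt ℂ (fun w => (w - ρ) ^ analyticOrderNatAt f ρ) z := by fun_prop
        exact ((hg z hz).fun_div h2 (pow_ne_zero _ (sub_ne_zero.2 hzρ))).congr he.symm
    · intro σ hσ
      by_cases hσρ : σ = ρ
      · simp only [hσρ, if_true]
        exact div_ne_zero hh0 hP0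
      · simp only [hσρ, if_false]
        exact div_ne_zero (hgS σ ((Finset.mem_insert.1 hσ).resolve_left hσρ))
          (pow_ne_zero _ (sub_ne_zero.2 hσρ))
    · intro z
      rw [Finset.prod_insert hρ]
      by_cases hzρ : z = ρ
      · subst hzρ
        have h1 : f z = (z - z) ^ analyticOrderNatAt f z • h z := hev.self_of_nhds
        simp only [if_true]
        rw [h1, smul_eq_mul, mul_assoc]
        have : (∏ σ ∈ S, (z - σ) ^ analyticOrderNatAt f σ) * (h z / P z) = h z := by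
          change P z * (h z / P z) = h z
          field_simp
        rw [this]
      · simp only [hzρ, if_false]
        rw [hfg z]
        have : (z - ρ) ^ analyticOrderNatAt f ρ ≠ 0 := pow_ne_zero _ (sub_ne_zero.2 hzρ)
        field_simp

open Metric Filter Topology in
private theorem landau_blaschke (z₀ z ρ : ℂ) (R : ℝ) (hR : 0 < R) (hz : ‖z - z₀‖ = R) :
    ‖((R : ℂ) ^ 2 - (starRingEnd ℂ) (ρ - z₀) * (z - z₀)) / R‖ = ‖z - ρ‖ := by
  set w := z - z₀ with hw
  set a := ρ - z₀ with ha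
  have h1 : (R : ℂ) ^ 2 = (starRingEnd ℂ) w * w := by
    rw [← Complex.normSq_eq_conj_mul_self, Complex.normSq_eq_norm_sq, hz]
    push_cast
    rfl
  have h2 : (R : ℂ) ^ 2 - (starRingEnd ℂ) a * w = (starRingEnd ℂ) (w - a) * w := by
    rw [h1, map_sub (starRingEnd ℂ) w a]
    ring
  have h3 : w - a = z - ρ := by
    rw [hw, ha]
    ring
  rw [h2, h3, norm_div, norm_mul, Complex.norm_conj, hz, Complex.norm_real, Real.norm_of_nonneg hR.le]
  field_simp

open Metric Filter Topology in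
/-- the exponential representation and the bound for the logarithmic derivative -/
private theorem landau_log (g : ℂ → ℂ) (z₀ : ℂ) (R M : ℝ) (hR : 0 < R) (hM : 1 ≤ M)
    (hg : AnalyticOnNhd ℂ g (closedBall z₀ R)) (hne : ∀ z ∈ closedBall z₀ (R / 2), g z ≠ 0)
    (hbd : ∀ z ∈ closedBall z₀ R, ‖g z‖ ≤ Real.exp M * ‖g z₀‖) :
    AnalyticOnNhd ℂ (fun z => deriv g z / g z) (ball z₀ (R / 2)) ∧
      ∀ z ∈ closedBall z₀ (R / 4), ‖deriv g z / g z‖ ≤ 48 * M / R := by
  have hsub : ball z₀ (R / 2) ⊆ closedBall z₀ R :=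
    ball_subset_closedBall.trans (closedBall_subset_closedBall (by linarith))
  have hq : AnalyticOnNhd ℂ (fun z => deriv g z / g z) (ball z₀ (R / 2)) := by
    intro z hz
    exact (hg z (hsub hz)).deriv.fun_div (hg z (hsub hz)) (hne z (ball_subset_closedBall hz))
  refine ⟨hq, ?_⟩
  obtain ⟨φ, hφ0, hφ⟩ := (hq.differentiableOn.isExactOn_ball).with_val_at z₀ 0
  have hz0 : z₀ ∈ ball z₀ (R / 2) := mem_ball_self (by linarith)
  have hgd : ∀ z ∈ ball z₀ (R / 2), HasDerivAt g (deriv g z) z := fun z hz =>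
    (hg z (hsub hz)).differentiableAt.hasDerivAt
  have hkd : ∀ z ∈ ball z₀ (R / 2), HasDerivAt (fun w => g w * Complex.exp (-φ w)) 0 z := by
    intro z hz
    have h1 := (hgd z hz).mul ((hφ z hz).neg.cexp)
    have h2 : deriv g z * Complex.exp (-φ z) + g z * (Complex.exp (-φ z) * -(deriv g z / g z)) = 0 := by
      have := hne z (ball_subset_closedBall hz)
      field_simp
      ring
    rw [← h2]
    exact h1
  have hconst : ∀ z ∈ ball z₀ (R / 2), g z * Complex.exp (-φ z) = g z₀ := by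
    intro z hz
    have h1 := IsOpen.is_const_of_deriv_eq_zero isOpen_ball (convex_ball z₀ (R / 2)).isPreconnected
      (fun w hw => (hkd w hw).differentiableAt.differentiableWithinAt)
      (fun w hw => (hkd w hw).deriv) hz hz0
    simpa [hφ0] using h1
  have hexp : ∀ z ∈ ball z₀ (R / 2), g z = g z₀ * Complex.exp (φ z) := by
    intro z hz
    rw [← hconst z hz, mul_assoc, ← Complex.exp_add]
    simp
  have hg0 : 0 < ‖g z₀‖ := norm_pos_iff.2 (hne z₀ (ball_subset_closedBall hz0))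
  have hre : ∀ z ∈ ball z₀ (R / 2), (φ z).re ≤ M := by
    intro z hz
    have h1 := hbd z (hsub hz)
    rw [hexp z hz, norm_mul, Complex.norm_exp, mul_comm] at h1
    exact Real.exp_le_exp.1 (le_of_mul_le_mul_right h1 hg0)
  have hψ : ∀ z ∈ closedBall z₀ (3 * R / 8), ‖φ z‖ ≤ 6 * M := by
    intro z hz
    have hzn : ‖z - z₀‖ ≤ 3 * R / 8 := by rwa [mem_closedBall, dist_eq_norm] at hz
    have h1 := Complex.borelCaratheodory_zero (f := fun w => φ (z₀ + w)) (M := M) (R := R / 2)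
      (z := z - z₀) (by linarith) ?_ ?_ (by linarith) ?_ ?_
    · rw [add_sub_cancel] at h1
      refine h1.trans ?_
      rw [div_le_iff₀ (by linarith)]
      nlinarith
    · intro w hw
      have hw' : z₀ + w ∈ ball z₀ (R / 2) := by
        rw [mem_ball, dist_eq_norm, add_sub_cancel_left]
        simpa using hw
      have h2 : DifferentiableAt ℂ φ (z₀ + w) := (hφ _ hw').differentiableAt
      exact (DifferentiableAt.fun_comp' w h2 (by fun_prop)).differentiableWithinAt
    · intro w hw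
      have hw' : z₀ + w ∈ ball z₀ (R / 2) := by
        rw [mem_ball, dist_eq_norm, add_sub_cancel_left]
        simpa using hw
      exact hre _ hw'
    · rw [mem_ball_zero_iff]
      linarith
    · simpa using hφ0
  intro z hz
  have hzn : dist z z₀ ≤ R / 4 := mem_closedBall.1 hz
  have hzb : z ∈ ball z₀ (R / 2) := by
    rw [mem_ball]
    linarith
  have hcl : closedBall z (R / 8) ⊆ closedBall z₀ (3 * R / 8) := by
    intro w hw
    rw [mem_closedBall] at hw ⊢
    have := dist_triangle w z z₀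
    linarith
  have hclb : closedBall z (R / 8) ⊆ ball z₀ (R / 2) := by
    intro w hw
    have := mem_closedBall.1 (hcl hw)
    rw [mem_ball]
    linarith
  have hd : DifferentiableOn ℂ φ (ball z₀ (R / 2)) := fun w hw =>
    (hφ w hw).differentiableAt.differentiableWithinAt
  have h1 := Complex.norm_deriv_le_of_forall_mem_sphere_norm_le (c := z) (R := R / 8) (C := 6 * M)
    (f := φ) (by linarith) (hd.diffContOnCl_ball hclb)
    (fun w hw => hψ w (hcl (sphere_subset_closedBall hw)))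
  rw [(hφ z hzb).deriv] at h1
  have h2 : 6 * M / (R / 8) = 48 * M / R := by
    field_simp
    ring
  rw [h2] at h1
  exact h1

open Metric Filter Topology in
/-- Proof. The zeros of `f` in `closedBall z₀ (R/2)` form a finite set `Z` (`f ≢ 0` near the compact
connected ball). With `m ρ` the order of the zero, `f = g ∏_{ρ ∈ Z} (z-ρ)^{m ρ}` with `g` analytic on
`closedBall z₀ R` and without zeros in `closedBall z₀ (R/2)`. Number of zeros: with the Blaschke factors
`b_ρ(z) = R (z-ρ) / (R² - conj(ρ-z₀)(z-z₀))` the function `f / ∏ b_ρ^{m ρ}` is analytic, bounded by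
`exp M ‖f z₀‖` on the circle of radius `R`, hence at `z₀`, where `‖b_ρ(z₀)‖ = ‖ρ-z₀‖/R ≤ 1/2`: so
`2^{∑ m ρ} ≤ exp M` (or use Jensen's formula of Mathlib). Next on `‖z-z₀‖ = R` we have
`‖z-ρ‖ ≥ R/2 ≥ ‖z₀-ρ‖`, so `‖g z‖ ≤ exp M ‖g z₀‖` on the circle and by the maximum principle on
`closedBall z₀ R`. On `ball z₀ (R/2)` write `g = g(z₀) exp φ` with `φ` analytic, `φ z₀ = 0` and
`Re φ ≤ M` (`Mathlib/Analysis/Complex/HasPrimitives`, `BranchLogRoot`). Borel-Caratheodory
(`Mathlib/Analysis/Complex/BorelCaratheodory`) gives `‖φ‖ ≤ 6 M` on `closedBall z₀ (3R/8)` and Cauchy's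
estimate `‖φ'‖ ≤ 48 M / R` on `closedBall z₀ (R/4)`. Take `G = g'/g = φ'`. -/
theorem landau : ∃ C : ℝ, 1 ≤ C ∧ ∀ (f : ℂ → ℂ) (z₀ : ℂ) (R M : ℝ), 0 < R → 1 ≤ M →
    AnalyticOnNhd ℂ f (Metric.closedBall z₀ R) → f z₀ ≠ 0 →
    (∀ z ∈ Metric.closedBall z₀ R, ‖f z‖ ≤ Real.exp M * ‖f z₀‖) →
    ∃ Z : Finset ℂ, (∀ ρ, ρ ∈ Z ↔ ‖ρ - z₀‖ ≤ R / 2 ∧ f ρ = 0) ∧
      (∑ ρ ∈ Z, (analyticOrderNatAt f ρ : ℝ)) ≤ C * M ∧
      (∀ ρ ∈ Z, 1 ≤ analyticOrderNatAt f ρ) ∧
      ∃ G : ℂ → ℂ, AnalyticOnNhd ℂ G (Metric.ball z₀ (R / 2)) ∧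
        (∀ z ∈ Metric.closedBall z₀ (R / 4), ‖G z‖ ≤ C * M / R) ∧
        ∀ z ∈ Metric.ball z₀ (R / 2), f z ≠ 0 →
          deriv f z / f z = ∑ ρ ∈ Z, (analyticOrderNatAt f ρ : ℂ) / (z - ρ) + G z := by
  classical
  refine ⟨48, by norm_num, ?_⟩
  intro f z₀ R M hR hM hf hf0 hbd
  have hcon : IsPreconnected (closedBall z₀ R) := (convex_closedBall z₀ R).isPreconnected
  have hz0 : z₀ ∈ closedBall z₀ R := mem_closedBall_self hR.le
  have ht : ∀ ρ ∈ closedBall z₀ R, analyticOrderAt f ρ ≠ ⊤ := by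
    intro ρ hρ
    refine hf.analyticOrderAt_ne_top_of_isPreconnected hcon hz0 hρ ?_
    rw [(hf z₀ hz0).analyticOrderAt_eq_zero.2 hf0]
    exact ENat.zero_ne_top
  have hin : ∀ ρ : ℂ, ‖ρ - z₀‖ ≤ R / 2 → ρ ∈ closedBall z₀ R := by
    intro ρ hρ
    rw [mem_closedBall, dist_eq_norm]
    linarith
  have hfin : {ρ : ℂ | ‖ρ - z₀‖ ≤ R / 2 ∧ f ρ = 0}.Finite := by
    by_contra hinf
    obtain ⟨x, hx, hacc⟩ := Set.Infinite.exists_accPt_of_subset_isCompact (K := closedBall z₀ R) hinf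
      (isCompact_closedBall z₀ R) (fun ρ hρ => hin ρ hρ.1)
    have hfr : ∃ᶠ z in 𝓝[≠] x, f z = 0 := by
      rw [accPt_iff_frequently_nhdsNE] at hacc
      exact hacc.mono (fun z hz => hz.2)
    exact hf0 (hf.eqOn_zero_of_preconnected_of_frequently_eq_zero hcon hx hfr hz0)
  set Z : Finset ℂ := hfin.toFinset with hZ
  have hZm : ∀ ρ, ρ ∈ Z ↔ ‖ρ - z₀‖ ≤ R / 2 ∧ f ρ = 0 := by
    intro ρ
    rw [hZ, Set.Finite.mem_toFinset]
    rfl
  obtain ⟨g, hg, hgZ, hfg⟩ := landau_fac f (closedBall z₀ R) hf Z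
    (fun ρ hρ => ⟨hin ρ ((hZm ρ).1 hρ).1, ht ρ (hin ρ ((hZm ρ).1 hρ).1)⟩)
  set n : ℕ := ∑ ρ ∈ Z, analyticOrderNatAt f ρ with hn
  have hm1 : ∀ ρ ∈ Z, 1 ≤ analyticOrderNatAt f ρ := by
    intro ρ hρ
    have h1 := (hZm ρ).1 hρ
    have h2 : analyticOrderAt f ρ ≠ 0 := analyticOrderAt_ne_zero.2 ⟨hf ρ (hin ρ h1.1), h1.2⟩
    have h3 := ht ρ (hin ρ h1.1)
    by_contra hcc
    have h4 : analyticOrderNatAt f ρ = 0 := by omega
    have h5 := Nat.cast_analyticOrderNatAt h3
    rw [h4] at h5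
    exact h2 h5.symm
  -- norm of f at the centre
  have hgne : ∀ z ∈ closedBall z₀ (R / 2), g z ≠ 0 := by
    intro z hz hgz
    have h1 : f z = 0 := by rw [hfg z, hgz, mul_zero]
    have h2 : z ∈ Z := (hZm z).2 ⟨by rwa [mem_closedBall, dist_eq_norm] at hz, h1⟩
    exact hgZ z h2 hgz
  have hg0 : g z₀ ≠ 0 := hgne z₀ (mem_closedBall_self (by linarith))
  have hg0' : 0 < ‖g z₀‖ := norm_pos_iff.2 hg0
  have hfz0 : ‖f z₀‖ ≤ (R / 2) ^ n * ‖g z₀‖ := by
    rw [hfg z₀, norm_mul, norm_prod]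
    refine mul_le_mul_of_nonneg_right ?_ (norm_nonneg _)
    rw [hn, ← Finset.prod_pow_eq_pow_sum]
    refine Finset.prod_le_prod (fun ρ _ => norm_nonneg _) (fun ρ hρ => ?_)
    rw [norm_pow]
    refine pow_le_pow_left₀ (norm_nonneg _) ?_ _
    rw [norm_sub_rev]
    exact ((hZm ρ).1 hρ).1
  have hgdiff : DifferentiableOn ℂ g (closedBall z₀ R) := hg.differentiableOn
  -- bound for the number of zeros
  have hcount : (n : ℝ) * Real.log 2 ≤ M := by
    let F : ℂ → ℂ := fun z => (∏ ρ ∈ Z, (((R : ℂ) ^ 2 - (starRingEnd ℂ) (ρ - z₀) * (z - z₀)) / R) ^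
      analyticOrderNatAt f ρ) * g z
    have hFd : DifferentiableOn ℂ F (closedBall z₀ R) := by
      refine DifferentiableOn.fun_mul ?_ hgdiff
      refine DifferentiableOn.fun_finsetProd (fun ρ _ => ?_)
      fun_prop
    have hFs : ∀ z ∈ frontier (ball z₀ R), ‖F z‖ ≤ Real.exp M * ‖f z₀‖ := by
      intro z hz
      rw [frontier_ball z₀ hR.ne'] at hz
      have hzn : ‖z - z₀‖ = R := by rwa [mem_sphere, dist_eq_norm] at hz
      have h1 : ‖F z‖ = ‖f z‖ := by
        simp only [F]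
        rw [hfg z, norm_mul, norm_mul, norm_prod, norm_prod]
        congr 1
        refine Finset.prod_congr rfl (fun ρ _ => ?_)
        rw [norm_pow, norm_pow, landau_blaschke z₀ z ρ R hR hzn]
      rw [h1]
      exact hbd z (sphere_subset_closedBall hz)
    have h1 := Complex.norm_le_of_forall_mem_frontier_norm_le isBounded_ball
      (hFd.diffContOnCl_ball (subset_refl _)) hFs (subset_closure (mem_ball_self hR))
    have h2 : ‖F z₀‖ = R ^ n * ‖g z₀‖ := by
      simp only [F]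
      rw [norm_mul, norm_prod, hn, ← Finset.prod_pow_eq_pow_sum]
      congr 1
      refine Finset.prod_congr rfl (fun ρ _ => ?_)
      rw [norm_pow, sub_self, mul_zero, sub_zero, norm_div, norm_pow, Complex.norm_real,
        Real.norm_of_nonneg hR.le]
      congr 1
      field_simp
    rw [h2] at h1
    have h3 : R ^ n * ‖g z₀‖ ≤ (Real.exp M * (R / 2) ^ n) * ‖g z₀‖ := by
      refine h1.trans ?_
      rw [mul_assoc]
      exact mul_le_mul_of_nonneg_left hfz0 (Real.exp_pos _).le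
    have h4 := le_of_mul_le_mul_right h3 hg0'
    rw [div_pow, mul_div_assoc', le_div_iff₀ (by positivity), mul_comm (Real.exp M)] at h4
    have h5 : (2 : ℝ) ^ n ≤ Real.exp M := le_of_mul_le_mul_left h4 (by positivity)
    have h6 := Real.log_le_log (by positivity) h5
    rwa [Real.log_exp, Real.log_pow] at h6
  have hlog : (1 : ℝ) / 2 ≤ Real.log 2 := by
    have := Real.log_two_gt_d9
    linarith
  have hn2 : (n : ℝ) ≤ 2 * M := by
    have h1 : (n : ℝ) * (1 / 2) ≤ (n : ℝ) * Real.log 2 :=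
      mul_le_mul_of_nonneg_left hlog (Nat.cast_nonneg n)
    linarith
  -- bound for g
  have hgs : ∀ z ∈ frontier (ball z₀ R), ‖g z‖ ≤ Real.exp M * ‖g z₀‖ := by
    intro z hz
    rw [frontier_ball z₀ hR.ne'] at hz
    have hzn : ‖z - z₀‖ = R := by rwa [mem_sphere, dist_eq_norm] at hz
    have h1 : (R / 2) ^ n * ‖g z‖ ≤ ‖f z‖ := by
      rw [hfg z, norm_mul, norm_prod]
      refine mul_le_mul_of_nonneg_right ?_ (norm_nonneg _)
      rw [hn, ← Finset.prod_pow_eq_pow_sum]
      refine Finset.prod_le_prod (fun ρ _ => by positivity) (fun ρ hρ => ?_)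
      rw [norm_pow]
      refine pow_le_pow_left₀ (by positivity) ?_ _
      have h2 := ((hZm ρ).1 hρ).1
      have h3 : ‖z - z₀‖ ≤ ‖z - ρ‖ + ‖ρ - z₀‖ := norm_sub_le_norm_sub_add_norm_sub z ρ z₀
      linarith
    have h2 : (R / 2) ^ n * ‖g z‖ ≤ (R / 2) ^ n * (Real.exp M * ‖g z₀‖) := by
      calc (R / 2) ^ n * ‖g z‖ ≤ ‖f z‖ := h1
        _ ≤ Real.exp M * ‖f z₀‖ := hbd z (sphere_subset_closedBall hz)
        _ ≤ Real.exp M * ((R / 2) ^ n * ‖g z₀‖) :=
          mul_le_mul_of_nonneg_left hfz0 (Real.exp_pos _).le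
        _ = (R / 2) ^ n * (Real.exp M * ‖g z₀‖) := by ring
    exact le_of_mul_le_mul_left h2 (by positivity)
  have hgb : ∀ z ∈ closedBall z₀ R, ‖g z‖ ≤ Real.exp M * ‖g z₀‖ := by
    intro z hz
    refine Complex.norm_le_of_forall_mem_frontier_norm_le isBounded_ball
      (hgdiff.diffContOnCl_ball (subset_refl _)) hgs ?_
    rwa [closure_ball z₀ hR.ne']
  obtain ⟨hGan, hGbd⟩ := landau_log g z₀ R M hR hM hg hgne hgb
  refine ⟨Z, hZm, ?_, hm1, fun z => deriv g z / g z, hGan, hGbd, ?_⟩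
  · have h1 : (∑ ρ ∈ Z, (analyticOrderNatAt f ρ : ℝ)) = (n : ℝ) := by
      rw [hn]
      push_cast
      rfl
    rw [h1]
    linarith
  · intro z hz hfz
    have hzc : z ∈ closedBall z₀ R := by
      have := mem_ball.1 hz
      rw [mem_closedBall]
      linarith
    have hfun : f = fun w => (∏ ρ ∈ Z, (w - ρ) ^ analyticOrderNatAt f ρ) * g w := funext hfg
    have hprod : (∏ ρ ∈ Z, (z - ρ) ^ analyticOrderNatAt f ρ) ≠ 0 := by
      intro h0
      exact hfz (by rw [hfg z, h0, zero_mul])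
    have hgz : g z ≠ 0 := hgne z (ball_subset_closedBall hz)
    have h1 : deriv f z / f z = logDeriv f z := rfl
    rw [h1]
    have h2 : logDeriv f z = logDeriv (fun w => (∏ ρ ∈ Z, (w - ρ) ^ analyticOrderNatAt f ρ) * g w) z := by
      rw [← hfun]
    have hfac : ∀ ρ ∈ Z, (z - ρ) ^ analyticOrderNatAt f ρ ≠ 0 := Finset.prod_ne_zero_iff.1 hprod
    rw [h2, logDeriv_mul z hprod hgz (DifferentiableAt.fun_finsetProd (fun ρ _ => by fun_prop))
      (hg z hzc).differentiableAt]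
    rw [logDeriv_prod hfac (fun ρ _ => by fun_prop)]
    rw [logDeriv_apply g]
    congr 1
    refine Finset.sum_congr rfl (fun ρ _ => ?_)
    rw [logDeriv_fun_pow (by fun_prop)]
    rw [logDeriv_apply]
    simp only [deriv_sub_const, deriv_id'']
    rw [mul_one_div]

end Pool.Agent.Lib.MP_629a14_nt.Th
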