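import Pool.Agent.Lib.MP_629a14_nt.Th.Defs

/-! Truncation of the Dirichlet series of the zeta function; the entire function `(s-1) ζ(s)`. -/

set_option autoImplicit false

namespace Pool.Agent.Lib.MP_629a14_nt.Th

open Finset

open Filter Topology

/-- `(s - 1)` times the error term of the comparison of `(n+1)^{-s}` with an integral -/
private noncomputable def zC (n : ℕ) (s : ℂ) : ℂ :=
  (s - 1) * ((n + 1 : ℕ) : ℂ) ^ (-s) + (((n + 1 : ℕ) : ℂ) ^ (1 - s) - (n : ℂ) ^ (1 - s))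

private theorem zC_norm_le {n : ℕ} (hn : 1 ≤ n) {w : ℂ} (hw : 0 < w.re) :
    ‖zC n w‖ ≤ ‖w - 1‖ * (‖w‖ * (n : ℝ) ^ (-w.re - 1)) := by
  have hn0 : (0 : ℝ) < n := by exact_mod_cast hn
  have hn1 : (1 : ℝ) ≤ n := by exact_mod_cast hn
  by_cases hw1 : w = 1
  · subst hw1
    simp [zC]
  have hw1' : w - 1 ≠ 0 := sub_ne_zero.2 hw1
  have hle : (n : ℝ) ≤ ((n + 1 : ℕ) : ℝ) := by push_cast; linarith
  have hw0 : -w ≠ 0 := by
    intro h
    rw [neg_eq_zero] at h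
    rw [h, Complex.zero_re] at hw
    linarith
  -- integral representation
  have h1 : zC n w = (w - 1) * ∫ u : ℝ in (n : ℝ)..((n + 1 : ℕ) : ℝ),
      ((((n + 1 : ℕ) : ℝ) : ℂ) ^ (-w) - (u : ℂ) ^ (-w)) := by
    rw [intervalIntegral.integral_sub, intervalIntegral.integral_const, integral_cpow]
    · unfold zC
      have e1 : (((n + 1 : ℕ) : ℝ) - (n : ℝ)) = 1 := by push_cast; ring
      rw [e1, one_smul]
      have e2 : -w + 1 = 1 - w := by ring
      have e3 : 1 - w ≠ 0 := sub_ne_zero.2 (Ne.symm hw1)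
      rw [e2]
      push_cast
      field_simp
      ring
    · right
      constructor
      · intro h
        apply hw1
        linear_combination -h
      · rw [Set.uIcc_of_le hle]
        rintro ⟨h, -⟩
        linarith
    · exact intervalIntegrable_const
    · apply ContinuousOn.intervalIntegrable
      intro u hu
      rw [Set.uIcc_of_le hle] at hu
      have hu0 : (0 : ℝ) < u := lt_of_lt_of_le hn0 hu.1
      exact (hasDerivAt_ofReal_cpow_const hu0.ne' hw0).continuousAt.continuousWithinAt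
  -- bound of the integrand
  have h2 : ∀ u ∈ Set.uIoc (n : ℝ) ((n + 1 : ℕ) : ℝ),
      ‖(((n + 1 : ℕ) : ℝ) : ℂ) ^ (-w) - (u : ℂ) ^ (-w)‖ ≤ ‖w‖ * (n : ℝ) ^ (-w.re - 1) := by
    intro u hu
    rw [Set.uIoc_of_le hle] at hu
    have hd : ∀ v ∈ Set.Icc (n : ℝ) ((n + 1 : ℕ) : ℝ),
        HasDerivWithinAt (fun v : ℝ => (v : ℂ) ^ (-w)) (-w * (v : ℂ) ^ (-w - 1))
          (Set.Icc (n : ℝ) ((n + 1 : ℕ) : ℝ)) v := by
      intro v hv
      have hv0 : (0 : ℝ) < v := lt_of_lt_of_le hn0 hv.1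
      exact (hasDerivAt_ofReal_cpow_const hv0.ne' hw0).hasDerivWithinAt
    have hb : ∀ v ∈ Set.Icc (n : ℝ) ((n + 1 : ℕ) : ℝ),
        ‖-w * (v : ℂ) ^ (-w - 1)‖ ≤ ‖w‖ * (n : ℝ) ^ (-w.re - 1) := by
      intro v hv
      have hv0 : (0 : ℝ) < v := lt_of_lt_of_le hn0 hv.1
      rw [norm_mul, norm_neg, Complex.norm_cpow_eq_rpow_re_of_pos hv0]
      apply mul_le_mul_of_nonneg_left _ (norm_nonneg _)
      have e1 : (-w - 1).re = -w.re - 1 := by
        simp only [Complex.sub_re, Complex.neg_re, Complex.one_re]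
      rw [e1]
      exact Real.rpow_le_rpow_of_nonpos hn0 hv.1 (by linarith)
    have hmv := (convex_Icc (n : ℝ) ((n + 1 : ℕ) : ℝ)).norm_image_sub_le_of_norm_hasDerivWithin_le
      hd hb (x := u) (y := ((n + 1 : ℕ) : ℝ)) ⟨hu.1.le, hu.2⟩ ⟨hle, le_rfl⟩
    refine hmv.trans ?_
    have e3 : ‖((n + 1 : ℕ) : ℝ) - u‖ ≤ 1 := by
      rw [Real.norm_eq_abs, abs_le]
      have := hu.1
      have := hu.2
      push_cast at *
      constructor <;> linarith
    calc _ ≤ ‖w‖ * (n : ℝ) ^ (-w.re - 1) * 1 := by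
          apply mul_le_mul_of_nonneg_left e3
          positivity
      _ = _ := mul_one _
  rw [h1, norm_mul]
  refine mul_le_mul_of_nonneg_left ?_ (norm_nonneg _)
  have h3 := intervalIntegral.norm_integral_le_of_norm_le_const h2
  refine h3.trans ?_
  have e1 : |((n + 1 : ℕ) : ℝ) - (n : ℝ)| = 1 := by push_cast; simp
  rw [e1, mul_one]

private theorem zC_tel {n : ℕ} (hn : 1 ≤ n) {σ : ℝ} (hσ : 0 ≤ σ) :
    σ * ((n + 1 : ℕ) : ℝ) ^ (-σ - 1) ≤ (n : ℝ) ^ (-σ) - ((n + 1 : ℕ) : ℝ) ^ (-σ) := by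
  have hn0 : (0 : ℝ) < n := by exact_mod_cast hn
  have hm0 : (0 : ℝ) < ((n + 1 : ℕ) : ℝ) := by positivity
  have h1 : 1 - (((n + 1 : ℕ) : ℝ) / n)⁻¹ ≤ Real.log (((n + 1 : ℕ) : ℝ) / n) :=
    Real.one_sub_inv_le_log_of_pos (by positivity)
  have h2 : 1 - (((n + 1 : ℕ) : ℝ) / n)⁻¹ = 1 / ((n + 1 : ℕ) : ℝ) := by
    have : (n : ℝ) + 1 ≠ 0 := by positivity
    push_cast
    field_simp
    ring
  rw [h2, Real.log_div hm0.ne' hn0.ne'] at h1
  have h3 : (n : ℝ) ^ (-σ) = ((n + 1 : ℕ) : ℝ) ^ (-σ) *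
      Real.exp (σ * (Real.log ((n + 1 : ℕ) : ℝ) - Real.log n)) := by
    rw [Real.rpow_def_of_pos hn0, Real.rpow_def_of_pos hm0, ← Real.exp_add]
    congr 1
    ring
  have h4 : σ * (Real.log ((n + 1 : ℕ) : ℝ) - Real.log n) + 1 ≤
      Real.exp (σ * (Real.log ((n + 1 : ℕ) : ℝ) - Real.log n)) := Real.add_one_le_exp _
  have h5 : ((n + 1 : ℕ) : ℝ) ^ (-σ - 1) = ((n + 1 : ℕ) : ℝ) ^ (-σ) * (1 / ((n + 1 : ℕ) : ℝ)) := by
    rw [Real.rpow_sub_one hm0.ne']
    ring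
  have h6 : (0 : ℝ) < ((n + 1 : ℕ) : ℝ) ^ (-σ) := Real.rpow_pos_of_pos hm0 _
  have h7 : σ * (1 / ((n + 1 : ℕ) : ℝ)) ≤ σ * (Real.log ((n + 1 : ℕ) : ℝ) - Real.log n) :=
    mul_le_mul_of_nonneg_left h1 hσ
  rw [h3, h5]
  calc σ * (((n + 1 : ℕ) : ℝ) ^ (-σ) * (1 / ((n + 1 : ℕ) : ℝ)))
      = ((n + 1 : ℕ) : ℝ) ^ (-σ) * (σ * (1 / ((n + 1 : ℕ) : ℝ))) := by ring
    _ ≤ ((n + 1 : ℕ) : ℝ) ^ (-σ) *
        (Real.exp (σ * (Real.log ((n + 1 : ℕ) : ℝ) - Real.log n)) - 1) :=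
        mul_le_mul_of_nonneg_left (by linarith) h6.le
    _ = _ := by ring

private theorem zC_summable (N : ℕ) {σ : ℝ} (hσ : 0 < σ) :
    Summable fun k : ℕ => ((k + N : ℕ) : ℝ) ^ (-σ - 1) :=
  (summable_nat_add_iff (f := fun n : ℕ => (n : ℝ) ^ (-σ - 1)) N).2
    (Real.summable_nat_rpow.2 (by linarith))

private theorem zC_tsum_le {N : ℕ} (hN : 1 ≤ N) {σ : ℝ} (hσ : 1 / 2 ≤ σ) :
    ∑' k : ℕ, ((k + N : ℕ) : ℝ) ^ (-σ - 1) ≤ 3 * (N : ℝ) ^ (-σ) := by
  have hN1 : (1 : ℝ) ≤ N := by exact_mod_cast hN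
  apply Real.tsum_le_of_sum_range_le
  · intro n; positivity
  · intro K
    have h : ∀ K : ℕ, ∑ k ∈ Finset.range K, ((k + 1 + N : ℕ) : ℝ) ^ (-σ - 1) ≤
        2 * ((N : ℝ) ^ (-σ) - ((K + N : ℕ) : ℝ) ^ (-σ)) := by
      intro K
      induction K with
      | zero => simp
      | succ K ih =>
        rw [Finset.sum_range_succ]
        have h2 := zC_tel (n := K + N) (by omega) (show 0 ≤ σ by linarith)
        have e : K + N + 1 = K + 1 + N := by ring
        rw [e] at h2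
        have h3 : (0 : ℝ) ≤ ((K + 1 + N : ℕ) : ℝ) ^ (-σ - 1) := by positivity
        nlinarith
    have h1 : ∑ k ∈ Finset.range K, ((k + N : ℕ) : ℝ) ^ (-σ - 1) ≤
        ∑ k ∈ Finset.range (K + 1), ((k + N : ℕ) : ℝ) ^ (-σ - 1) := by
      rw [Finset.sum_range_succ]
      have h3 : (0 : ℝ) ≤ ((K + N : ℕ) : ℝ) ^ (-σ - 1) := by positivity
      linarith
    rw [Finset.sum_range_succ'] at h1
    have h4 := h K
    have h5 : (0 : ℝ) ≤ ((K + N : ℕ) : ℝ) ^ (-σ) := by positivity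
    have h6 : ((0 + N : ℕ) : ℝ) ^ (-σ - 1) ≤ (N : ℝ) ^ (-σ) := by
      rw [zero_add]
      exact Real.rpow_le_rpow_of_exponent_le hN1 (by linarith)
    linarith

private theorem zC_differentiable {n : ℕ} (hn : n ≠ 0) : Differentiable ℂ (zC n) := by
  have hn' : (n : ℂ) ≠ 0 := by exact_mod_cast hn
  have hm' : ((n + 1 : ℕ) : ℂ) ≠ 0 := by exact_mod_cast Nat.succ_ne_zero n
  have h1 : Differentiable ℂ fun s : ℂ => ((n + 1 : ℕ) : ℂ) ^ (-s) :=
    differentiable_id.neg.const_cpow (Or.inl hm')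
  have h2 : Differentiable ℂ fun s : ℂ => ((n + 1 : ℕ) : ℂ) ^ (1 - s) :=
    (differentiable_id.const_sub 1).const_cpow (Or.inl hm')
  have h3 : Differentiable ℂ fun s : ℂ => (n : ℂ) ^ (1 - s) :=
    (differentiable_id.const_sub 1).const_cpow (Or.inl hn')
  exact ((differentiable_id.sub_const 1).mul h1).add (h2.sub h3)

/-- the function `(s - 1) ζ(s)` by summation -/
private noncomputable def zG (N : ℕ) (s : ℂ) : ℂ :=
  (s - 1) * (∑ m ∈ Finset.range N, ((m + 1 : ℕ) : ℂ) ^ (-s)) + (N : ℂ) ^ (1 - s) +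
    ∑' k : ℕ, zC (k + N) s

private theorem zG_eq {N : ℕ} (hN : 1 ≤ N) {w : ℂ} (hw : 1 < w.re) :
    zG N w = (w - 1) * riemannZeta w := by
  have hw1 : w ≠ 1 := by
    rintro rfl
    simp at hw
  have hs1 : Summable fun n : ℕ => ((n + 1 : ℕ) : ℂ) ^ (-w) := by
    have h := (summable_nat_add_iff (f := fun n : ℕ => ((n : ℕ) : ℂ) ^ (-w)) 1).2 (by
      have h2 := Complex.summable_one_div_nat_cpow.2 hw
      refine h2.congr fun n => ?_
      rw [Complex.cpow_neg, one_div])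
    exact h
  have hs2 : Summable fun k : ℕ => ((k + N + 1 : ℕ) : ℂ) ^ (-w) :=
    (summable_nat_add_iff (f := fun n : ℕ => ((n + 1 : ℕ) : ℂ) ^ (-w)) N).2 hs1
  have hs3 : Summable fun k : ℕ => zC (k + N) w := by
    apply Summable.of_norm
    refine Summable.of_nonneg_of_le (fun _ => norm_nonneg _)
      (fun k => zC_norm_le (by omega) (by linarith)) ?_
    exact ((zC_summable N (show 0 < w.re by linarith)).mul_left ‖w‖).mul_left ‖w - 1‖
  have hz : riemannZeta w = ∑ n ∈ Finset.range N, ((n + 1 : ℕ) : ℂ) ^ (-w) +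
      ∑' k : ℕ, ((k + N + 1 : ℕ) : ℂ) ^ (-w) := by
    rw [zeta_eq_tsum_one_div_nat_add_one_cpow hw, hs1.sum_add_tsum_nat_add N]
    apply tsum_congr
    intro n
    rw [Complex.cpow_neg, one_div]
    push_cast
    rfl
  -- the telescoping sum
  have hs5 : Summable fun k : ℕ =>
      (((k + N + 1 : ℕ) : ℂ) ^ (1 - w) - ((k + N : ℕ) : ℂ) ^ (1 - w)) := by
    refine (hs3.sub (hs2.mul_left (w - 1))).congr fun k => ?_
    unfold zC
    ring
  have ht : ∑' k : ℕ, (((k + N + 1 : ℕ) : ℂ) ^ (1 - w) - ((k + N : ℕ) : ℂ) ^ (1 - w)) =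
      -(N : ℂ) ^ (1 - w) := by
    have h1 := hs5.hasSum.tendsto_sum_nat
    have h2 : ∀ K : ℕ, ∑ k ∈ Finset.range K,
        (((k + N + 1 : ℕ) : ℂ) ^ (1 - w) - ((k + N : ℕ) : ℂ) ^ (1 - w)) =
        ((K + N : ℕ) : ℂ) ^ (1 - w) - (N : ℂ) ^ (1 - w) := by
      intro K
      induction K with
      | zero => simp
      | succ K ih =>
        rw [Finset.sum_range_succ, ih]
        have e : K + N + 1 = K + 1 + N := by ring
        rw [e]
        ring
    simp only [h2] at h1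
    have h3 : Tendsto (fun K : ℕ => ((K + N : ℕ) : ℂ) ^ (1 - w) - (N : ℂ) ^ (1 - w)) atTop
        (𝓝 (0 - (N : ℂ) ^ (1 - w))) := by
      apply Tendsto.sub_const
      rw [tendsto_zero_iff_norm_tendsto_zero]
      have h4 : Tendsto (fun K : ℕ => ((K + N : ℕ) : ℝ) ^ (-(w.re - 1))) atTop (𝓝 0) :=
        (tendsto_rpow_neg_atTop (by linarith)).comp
          (tendsto_natCast_atTop_atTop.comp (tendsto_add_atTop_nat N))
      refine h4.congr fun K => ?_
      rw [Complex.norm_natCast_cpow_of_pos (by omega)]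
      congr 1
      simp
    have h5 := tendsto_nhds_unique h1 h3
    rw [h5, zero_sub]
  have h6 : ∑' k : ℕ, zC (k + N) w = (w - 1) * ∑' k : ℕ, ((k + N + 1 : ℕ) : ℂ) ^ (-w) +
      ∑' k : ℕ, (((k + N + 1 : ℕ) : ℂ) ^ (1 - w) - ((k + N : ℕ) : ℂ) ^ (1 - w)) := by
    rw [← tsum_mul_left, ← (hs2.mul_left (w - 1)).tsum_add hs5]
    rfl
  unfold zG
  rw [hz, h6, ht]
  ring

private theorem zt_eq : zt = riemannZeta₁ := by
  funext s
  unfold zt
  by_cases h : s = 1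
  · rw [if_pos h, h, riemannZeta₁_one]
  · rw [if_neg h, riemannZeta_eq_inv_sub_mul h, ← mul_assoc, mul_inv_cancel₀ (sub_ne_zero.2 h),
      one_mul]

private theorem zG_eq_zt {N : ℕ} (hN : 1 ≤ N) {s : ℂ} (hs : 1 / 2 ≤ s.re) : zG N s = zt s := by
  set R : ℝ := ‖s‖ + 3 with hR
  set U : Set ℂ := {w : ℂ | 1 / 4 < w.re} ∩ Metric.ball 0 R with hU
  have hUo : IsOpen U := (isOpen_lt continuous_const Complex.continuous_re).inter Metric.isOpen_ball
  have hUc : IsPreconnected U :=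
    ((convex_halfSpace_re_gt _).inter (convex_ball _ _)).isPreconnected
  have hs0 := norm_nonneg s
  have hsU : s ∈ U := by
    refine ⟨?_, ?_⟩
    · show 1 / 4 < s.re
      linarith
    · rw [Metric.mem_ball, dist_zero_right]
      linarith
  have h2U : (2 : ℂ) ∈ U := by
    refine ⟨?_, ?_⟩
    · show 1 / 4 < (2 : ℂ).re
      norm_num
    · rw [Metric.mem_ball, dist_zero_right]
      norm_num
      linarith
  have hN' : (N : ℂ) ≠ 0 := by exact_mod_cast (by omega : N ≠ 0)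
  have hd1 : DifferentiableOn ℂ (zG N) U := by
    unfold zG
    refine (DifferentiableOn.add ?_ ?_).add ?_
    · refine ((differentiable_id.sub_const 1).mul ?_).differentiableOn
      apply Differentiable.fun_sum
      intro m _
      exact differentiable_id.neg.const_cpow (Or.inl (by exact_mod_cast Nat.succ_ne_zero m))
    · exact ((differentiable_id.const_sub 1).const_cpow (Or.inl hN')).differentiableOn
    · refine Complex.differentiableOn_tsum_of_summable_norm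
        (u := fun k : ℕ => (R + 1) * (R * ((k + N : ℕ) : ℝ) ^ (-(1 / 4 : ℝ) - 1)))
        (((zC_summable N (by norm_num)).mul_left R).mul_left (R + 1)) ?_ hUo ?_
      · intro k
        exact (zC_differentiable (by omega)).differentiableOn
      · intro k w hw
        have hw1 : 1 / 4 < w.re := hw.1
        have hw2 : ‖w‖ < R := by
          have := hw.2
          rwa [Metric.mem_ball, dist_zero_right] at this
        refine (zC_norm_le (by omega) (by linarith)).trans ?_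
        have h1 : ‖w - 1‖ ≤ R + 1 := by
          have := norm_sub_le w 1
          rw [norm_one] at this
          linarith
        have h3 : (1 : ℝ) ≤ ((k + N : ℕ) : ℝ) := by exact_mod_cast (by omega : 1 ≤ k + N)
        have h2 : ((k + N : ℕ) : ℝ) ^ (-w.re - 1) ≤ ((k + N : ℕ) : ℝ) ^ (-(1 / 4 : ℝ) - 1) :=
          Real.rpow_le_rpow_of_exponent_le h3 (by linarith)
        have h4 : (0 : ℝ) ≤ ((k + N : ℕ) : ℝ) ^ (-w.re - 1) := by positivity
        have h5 : 0 ≤ R := by linarith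
        exact mul_le_mul h1 (mul_le_mul hw2.le h2 h4 h5) (by positivity) (by linarith)
  have hd2 : DifferentiableOn ℂ zt U := by
    rw [zt_eq]
    exact differentiable_riemannZeta₁.differentiableOn
  have hev : zG N =ᶠ[𝓝 (2 : ℂ)] zt := by
    have h1 : ∀ᶠ w : ℂ in 𝓝 (2 : ℂ), 1 < w.re :=
      (isOpen_lt continuous_const Complex.continuous_re).mem_nhds
        (show (1 : ℝ) < (2 : ℂ).re by norm_num)
    filter_upwards [h1] with w hw
    rw [zG_eq hN hw]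
    unfold zt
    rw [if_neg]
    rintro rfl
    simp at hw
  exact ((hd1.analyticOnNhd hUo).eqOn_of_preconnected_of_eventuallyEq (hd2.analyticOnNhd hUo)
    hUc h2U hev) hsU

/-- `ζ(s) = ∑_{m ≤ y} m^{-s} - y^{1-s}/(1-s) - s ∫_y^∞ {u} u^{-s-1} du` for `Re s > 0`, and the last
term is at most `‖s‖ y^{-σ}/σ`. (Compare `Pool/Agent/Lib/PrimeGap/ZetaUpper.lean`; one may prove it for
`Re s > 1` and continue analytically.) -/
theorem zeta_partial (s : ℂ) (hs : 1 / 2 ≤ s.re) (hs1 : s ≠ 1) (y : ℕ) (hy : 1 ≤ y) :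
    ‖riemannZeta s - ∑ m ∈ Icc 1 y, (m : ℂ) ^ (-s) + (y : ℂ) ^ (1 - s) / (1 - s)‖ ≤
      4 * (‖s‖ + 1) * (y : ℝ) ^ (-s.re) := by
  have h1 : s - 1 ≠ 0 := sub_ne_zero.2 hs1
  have h1' : 1 - s ≠ 0 := sub_ne_zero.2 (Ne.symm hs1)
  have h2 := zG_eq_zt hy hs
  unfold zt at h2
  rw [if_neg hs1] at h2
  have h3 : ∑ m ∈ Finset.range y, ((m + 1 : ℕ) : ℂ) ^ (-s) = ∑ m ∈ Icc 1 y, (m : ℂ) ^ (-s) := by
    rw [Finset.range_eq_Ico, Finset.sum_Ico_add' (fun m : ℕ => (m : ℂ) ^ (-s)) 0 y 1]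
    rfl
  unfold zG at h2
  rw [h3] at h2
  have h4 : riemannZeta s - ∑ m ∈ Icc 1 y, (m : ℂ) ^ (-s) + (y : ℂ) ^ (1 - s) / (1 - s) =
      (∑' k : ℕ, zC (k + y) s) / (s - 1) := by
    rw [eq_div_iff h1]
    have h5 : (y : ℂ) ^ (1 - s) / (1 - s) * (s - 1) = -(y : ℂ) ^ (1 - s) := by
      field_simp
      ring
    rw [add_mul, h5]
    linear_combination -h2
  rw [h4, norm_div, div_le_iff₀ (norm_pos_iff.2 h1)]
  have hσ : 0 < s.re := by linarith
  have hS : Summable fun k : ℕ => ‖s - 1‖ * (‖s‖ * ((k + y : ℕ) : ℝ) ^ (-s.re - 1)) :=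
    ((zC_summable y hσ).mul_left ‖s‖).mul_left ‖s - 1‖
  have h6 : ‖∑' k : ℕ, zC (k + y) s‖ ≤
      ∑' k : ℕ, ‖s - 1‖ * (‖s‖ * ((k + y : ℕ) : ℝ) ^ (-s.re - 1)) :=
    tsum_of_norm_bounded hS.hasSum fun k => zC_norm_le (by omega) hσ
  refine h6.trans ?_
  rw [tsum_mul_left, tsum_mul_left]
  have h7 := zC_tsum_le hy hs
  have h8 : 0 ≤ (y : ℝ) ^ (-s.re) := by positivity
  have h9 := norm_nonneg s
  have h10 := norm_nonneg (s - 1)
  have h11 : ‖s‖ * ∑' k : ℕ, ((k + y : ℕ) : ℝ) ^ (-s.re - 1) ≤ 4 * (‖s‖ + 1) * (y : ℝ) ^ (-s.re) := by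
    calc ‖s‖ * ∑' k : ℕ, ((k + y : ℕ) : ℝ) ^ (-s.re - 1) ≤ ‖s‖ * (3 * (y : ℝ) ^ (-s.re)) :=
          mul_le_mul_of_nonneg_left h7 h9
      _ ≤ 4 * (‖s‖ + 1) * (y : ℝ) ^ (-s.re) := by
          have : 0 ≤ ‖s‖ * (y : ℝ) ^ (-s.re) := mul_nonneg h9 h8
          nlinarith
  calc ‖s - 1‖ * (‖s‖ * ∑' k : ℕ, ((k + y : ℕ) : ℝ) ^ (-s.re - 1))
      ≤ ‖s - 1‖ * (4 * (‖s‖ + 1) * (y : ℝ) ^ (-s.re)) := mul_le_mul_of_nonneg_left h11 h10
    _ = _ := by ring

private theorem zeta_err (s : ℂ) (hs : 1 / 2 ≤ s.re) (hs1 : s ≠ 1) :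
    ∃ E : ℂ, ‖E‖ ≤ 4 * (‖s‖ + 1) ∧ riemannZeta s = 1 + 1 / (s - 1) + E := by
  have h := zeta_partial s hs hs1 1 le_rfl
  refine ⟨riemannZeta s - ∑ m ∈ (Icc 1 1 : Finset ℕ), (m : ℂ) ^ (-s) +
      ((1 : ℕ) : ℂ) ^ (1 - s) / (1 - s),
    by simpa using h, ?_⟩
  · have h1 : s - 1 ≠ 0 := sub_ne_zero.2 hs1
    have h1' : 1 - s ≠ 0 := sub_ne_zero.2 (Ne.symm hs1)
    have h2 : 1 / (1 - s) = -(1 / (s - 1)) := by
      rw [← neg_sub s 1, div_neg]
    simp only [Icc_self, sum_singleton, Nat.cast_one, Complex.one_cpow, h2]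
    ring

/-- `(s-1) ζ(s)` is entire (Mathlib: `riemannZeta_residue_one`, removable singularity). -/
theorem zt_differentiable : Differentiable ℂ zt := by
  rw [zt_eq]
  exact differentiable_riemannZeta₁

/-- From `zeta_partial` with `y = 1`. -/
theorem zt_growth (s : ℂ) (hs : 1 / 2 ≤ s.re) : ‖zt s‖ ≤ 16 * (‖s‖ + 1) ^ 2 := by
  have h0 := norm_nonneg s
  unfold zt
  by_cases hs1 : s = 1
  · rw [if_pos hs1, norm_one]
    nlinarith
  · rw [if_neg hs1]
    obtain ⟨E, hE, h1⟩ := zeta_err s hs hs1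
    have h2 : s - 1 ≠ 0 := sub_ne_zero.2 hs1
    have h3 : (s - 1) * riemannZeta s = s + (s - 1) * E := by
      rw [h1, mul_add, mul_add, mul_one_div_cancel h2]
      ring
    rw [h3]
    have h4 : ‖s - 1‖ ≤ ‖s‖ + 1 := by
      have := norm_sub_le s 1
      rwa [norm_one] at this
    have h5 : ‖s + (s - 1) * E‖ ≤ ‖s‖ + ‖s - 1‖ * ‖E‖ := by
      refine (norm_add_le _ _).trans ?_
      rw [norm_mul]
    have h6 : ‖s - 1‖ * ‖E‖ ≤ (‖s‖ + 1) * (4 * (‖s‖ + 1)) :=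
      mul_le_mul h4 hE (norm_nonneg _) (by linarith)
    nlinarith

theorem zt_ne_zero (s : ℂ) (hs : 1 ≤ s.re) : zt s ≠ 0 := by
  unfold zt
  by_cases hs1 : s = 1
  · rw [if_pos hs1]
    exact one_ne_zero
  · rw [if_neg hs1]
    exact mul_ne_zero (sub_ne_zero.2 hs1) (riemannZeta_ne_zero_of_one_le_re hs)

/-- `h(s) = ζ(s) - 1/(s-1)` extends to an entire function of moderate growth, and
`-ζ'/ζ - ζ = -zt'/zt - h`. -/
theorem zeta_split : ∃ h : ℂ → ℂ, Differentiable ℂ h ∧ (∀ s : ℂ, 1 / 2 ≤ s.re → ‖h s‖ ≤ 16 * (‖s‖ + 1)) ∧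
    ∀ s : ℂ, 1 < s.re → riemannZeta s = 1 / (s - 1) + h s ∧
      -deriv riemannZeta s / riemannZeta s - riemannZeta s = -deriv zt s / zt s - h s := by
  refine ⟨riemannZeta₀, differentiable_riemannZeta₀, fun s hs => ?_, fun s hs => ?_⟩
  · have h0 := norm_nonneg s
    by_cases hs1 : s = 1
    · subst hs1
      rw [riemannZeta₀_one, norm_one, Complex.norm_real, Real.norm_eq_abs,
        abs_of_pos (by linarith [Real.one_half_lt_eulerMascheroniConstant])]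
      linarith [Real.eulerMascheroniConstant_lt_two_thirds]
    · obtain ⟨E, hE, h1⟩ := zeta_err s hs hs1
      have h2 := riemannZeta_eq_inv_sub_add hs1
      have h3 : riemannZeta₀ s = 1 + E := by
        rw [one_div] at h1
        linear_combination h1 - h2
      rw [h3]
      have h4 := norm_add_le (1 : ℂ) E
      rw [norm_one] at h4
      linarith
  · have hs1 : s ≠ 1 := by
      rintro rfl
      simp at hs
    have h2 : s - 1 ≠ 0 := sub_ne_zero.2 hs1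
    have h3 := riemannZeta_eq_inv_sub_add hs1
    refine ⟨by rw [one_div]; exact h3, ?_⟩
    have h4 := deriv_riemannZeta_eq_neg_inv_sub_sq_mul_add hs1
    have h5 := riemannZeta_eq_inv_sub_mul hs1
    have h6 : riemannZeta₁ s ≠ 0 := by
      rw [← zt_eq]
      exact zt_ne_zero s hs.le
    have h7 : -deriv riemannZeta s / riemannZeta s = (s - 1)⁻¹ - deriv riemannZeta₁ s / riemannZeta₁ s := by
      rw [h4, h5]
      field_simp
      ring
    rw [h7, zt_eq, neg_div]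
    linear_combination -h3

end Pool.Agent.Lib.MP_629a14_nt.Th
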