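import Pool.Agent.Lib.MP_629a14_nt.Th.Lpart
import Pool.Agent.Lib.MP_629a14_nt.Th.Zpart
import Pool.Agent.Lib.MP_629a14_nt.Th.Landau

/-! Landau's lemma for L-functions, centre `17/16 + it`. -/

set_option autoImplicit false

namespace Pool.Agent.Lib.MP_629a14_nt.Th

open Finset

/-- The centre of the discs. -/
noncomputable def ctr (t : ℝ) : ℂ := 17 / 16 + t * Complex.I

private lemma ctr_re (t : ℝ) : (ctr t).re = 17 / 16 := by
  unfold ctr
  simp only [Complex.add_re, Complex.mul_re, Complex.ofReal_re, Complex.ofReal_im, Complex.I_re,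
    Complex.I_im]
  norm_num

private lemma ctr_im (t : ℝ) : (ctr t).im = t := by
  unfold ctr
  simp only [Complex.add_im, Complex.mul_im, Complex.ofReal_re, Complex.ofReal_im, Complex.I_re,
    Complex.I_im]
  norm_num

/-- The constant `ζ(17/16)`. -/
private noncomputable def BB : ℝ := ∑' n : ℕ, 1 / (n : ℝ) ^ (17 / 16 : ℝ)

private lemma BB_summable : Summable (fun n : ℕ => 1 / (n : ℝ) ^ (17 / 16 : ℝ)) :=
  Real.summable_one_div_nat_rpow.mpr (by norm_num)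

private lemma BB_ge : 1 ≤ BB := by
  have h := BB_summable.le_tsum 1 (fun n _ => by positivity)
  simpa [BB] using h

private lemma norm_LSeries_le (a : ℕ → ℂ) (ha : ∀ n, ‖a n‖ ≤ 1) (s : ℂ) (hs : s.re = 17 / 16) :
    ‖LSeries a s‖ ≤ BB := by
  have hb : ∀ n : ℕ, ‖LSeries.term a s n‖ ≤ 1 / (n : ℝ) ^ (17 / 16 : ℝ) := by
    intro n
    rw [LSeries.norm_term_eq, hs]
    split_ifs with h
    · positivity
    · exact div_le_div_of_nonneg_right (ha n) (by positivity)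
  unfold LSeries BB
  have hsum : Summable (fun n => ‖LSeries.term a s n‖) :=
    BB_summable.of_nonneg_of_le (fun n => norm_nonneg _) hb
  exact (norm_tsum_le_tsum_norm hsum).trans (hsum.tsum_le_tsum hb BB_summable)

private lemma norm_moebius_le (n : ℕ) :
    ‖((ArithmeticFunction.moebius n : ℤ) : ℂ)‖ ≤ 1 := by
  rw [Complex.norm_intCast]
  exact_mod_cast ArithmeticFunction.abs_moebius_le_one

private lemma norm_LFunction_ge (q : ℕ) [NeZero q] (χ : DirichletCharacter ℂ q) (t : ℝ) :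
    1 / BB ≤ ‖χ.LFunction (ctr t)‖ := by
  have hs : 1 < (ctr t).re := by rw [ctr_re]; norm_num
  have h := DirichletCharacter.LSeries.mul_mu_eq_one χ hs
  rw [← χ.LFunction_eq_LSeries hs] at h
  have hn := congrArg norm h
  rw [norm_mul, norm_one] at hn
  have h2 : ‖LSeries ((fun n : ℕ => χ (n : ZMod q)) * fun n : ℕ =>
      ((ArithmeticFunction.moebius n : ℤ) : ℂ)) (ctr t)‖ ≤ BB := by
    apply norm_LSeries_le _ _ _ (ctr_re t)
    intro n
    simp only [Pi.mul_apply, norm_mul]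
    exact mul_le_one₀ (χ.norm_le_one _) (norm_nonneg _) (norm_moebius_le n)
  have hB : 0 < BB := lt_of_lt_of_le one_pos BB_ge
  rw [div_le_iff₀ hB, ← hn]
  exact mul_le_mul_of_nonneg_left h2 (norm_nonneg _)

private lemma norm_zeta_ge (t : ℝ) : 1 / BB ≤ ‖riemannZeta (ctr t)‖ := by
  have hs : 1 < (ctr t).re := by rw [ctr_re]; norm_num
  have h := ArithmeticFunction.LSeries_zeta_mul_Lseries_moebius hs
  rw [ArithmeticFunction.LSeries_zeta_eq_riemannZeta hs] at h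
  have hn := congrArg norm h
  rw [norm_mul, norm_one] at hn
  have h2 : ‖LSeries (fun n : ℕ => ((ArithmeticFunction.moebius n : ℤ) : ℂ)) (ctr t)‖ ≤ BB :=
    norm_LSeries_le _ norm_moebius_le _ (ctr_re t)
  have hB : 0 < BB := lt_of_lt_of_le one_pos BB_ge
  rw [div_le_iff₀ hB, ← hn]
  exact mul_le_mul_of_nonneg_left h2 (norm_nonneg _)

private lemma ball_bounds (t : ℝ) (z : ℂ) (hz : z ∈ Metric.closedBall (ctr t) (1 / 2)) :
    1 / 2 ≤ z.re ∧ ‖z‖ + 1 ≤ |t| + 3 := by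
  rw [Metric.mem_closedBall, dist_eq_norm] at hz
  have h1 := Complex.abs_re_le_norm (z - ctr t)
  rw [Complex.sub_re, ctr_re] at h1
  have h2 := (abs_le.mp (h1.trans hz)).1
  refine ⟨by linarith, ?_⟩
  have h3 : ‖ctr t‖ ≤ 17 / 16 + |t| := by
    unfold ctr
    refine (norm_add_le _ _).trans ?_
    rw [norm_mul, Complex.norm_I, mul_one, Complex.norm_real, Real.norm_eq_abs]
    have : ‖(17 / 16 : ℂ)‖ = 17 / 16 := by
      rw [show (17 / 16 : ℂ) = ((17 / 16 : ℝ) : ℂ) by norm_num, Complex.norm_real]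
      norm_num
    rw [this]
  have h4 : ‖z‖ ≤ ‖z - ctr t‖ + ‖ctr t‖ := by
    have := norm_add_le (z - ctr t) (ctr t)
    simpa using this
  linarith

private lemma one_le_log3 {x : ℝ} (hx : 3 ≤ x) : 1 ≤ Real.log x := by
  rw [Real.le_log_iff_exp_le (by linarith)]
  linarith [Real.exp_one_lt_d9]

/-- `landau` with `z₀ = ctr t`, `R = 1/2`: on `closedBall (ctr t) (1/2)` the real part is at least `9/16`,
so `L_partial` with `y = 1` gives `‖L‖ ≤ 1 + 4 q (‖s‖+1) ≤ C q (|t|+3)`; and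
`‖L(ctr t)‖ ≥ c > 0` (Euler product: `‖L(σ+it, χ)‖ ≥ ζ(2σ)/ζ(σ)`, or `‖L‖ * ‖∑ μ(n)χ(n)n^{-s}‖ = 1` and
`‖∑ μ(n)χ(n)n^{-s}‖ ≤ ζ(σ)`). -/
theorem local_chi : ∃ C : ℝ, 1 ≤ C ∧ ∀ (q : ℕ) [NeZero q] (χ : DirichletCharacter ℂ q), χ ≠ 1 →
    ∀ t : ℝ, ∃ Z : Finset ℂ, (∀ ρ, ρ ∈ Z ↔ ‖ρ - ctr t‖ ≤ 1 / 4 ∧ χ.LFunction ρ = 0) ∧
      (∑ ρ ∈ Z, mul χ.LFunction ρ) ≤ C * Real.log (q * (|t| + 3)) ∧
      (∀ ρ ∈ Z, 1 ≤ mul χ.LFunction ρ) ∧
      ∃ G : ℂ → ℂ, AnalyticOnNhd ℂ G (Metric.ball (ctr t) (1 / 4)) ∧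
        (∀ z ∈ Metric.closedBall (ctr t) (1 / 8), ‖G z‖ ≤ C * Real.log (q * (|t| + 3))) ∧
        ∀ z ∈ Metric.ball (ctr t) (1 / 4), χ.LFunction z ≠ 0 →
          deriv χ.LFunction z / χ.LFunction z = ∑ ρ ∈ Z, (mul χ.LFunction ρ : ℂ) / (z - ρ) + G z := by
  obtain ⟨C₀, hC₀, hL⟩ := landau
  have hB := BB_ge
  have hK : 0 ≤ Real.log (5 * BB) := Real.log_nonneg (by linarith)
  set K : ℝ := Real.log (5 * BB) + 1 with hKd
  refine ⟨2 * C₀ * K, by nlinarith, ?_⟩
  intro q _ χ hχ t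
  have hq : (1 : ℝ) ≤ q := by
    have := Nat.pos_of_ne_zero (NeZero.ne q)
    exact_mod_cast this
  have ht : 3 ≤ |t| + 3 := by linarith [abs_nonneg t]
  have hx : 3 ≤ (q : ℝ) * (|t| + 3) := by nlinarith
  set x : ℝ := (q : ℝ) * (|t| + 3) with hxd
  have hlx : 1 ≤ Real.log x := one_le_log3 hx
  have hxpos : 0 < x := by linarith
  have hM1 : 1 ≤ K * Real.log x := by nlinarith
  have hlow := norm_LFunction_ge q χ t
  have hBpos : 0 < BB := lt_of_lt_of_le one_pos hB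
  have hup : ∀ z ∈ Metric.closedBall (ctr t) (1 / 2),
      ‖χ.LFunction z‖ ≤ Real.exp (K * Real.log x) * ‖χ.LFunction (ctr t)‖ := by
    intro z hz
    obtain ⟨hre, hnz⟩ := ball_bounds t z hz
    have h1 := L_partial q χ hχ z hre 1 le_rfl
    simp only [Icc_self, sum_singleton, Nat.cast_one, Complex.one_cpow, map_one, Real.one_rpow,
      mul_one] at h1
    have h2 : ‖χ.LFunction z‖ ≤ ‖χ.LFunction z - 1‖ + 1 := by
      have := norm_add_le (χ.LFunction z - 1) 1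
      simpa using this
    have h3 : ‖χ.LFunction z‖ ≤ 5 * x := by
      have h4 : 4 * (q : ℝ) * (‖z‖ + 1) ≤ 4 * (q : ℝ) * (|t| + 3) :=
        mul_le_mul_of_nonneg_left hnz (by positivity)
      have h5 : 4 * (q : ℝ) * (|t| + 3) = 4 * x := by rw [hxd]; ring
      linarith
    have h6 : Real.exp (K * Real.log x) ≥ 5 * BB * x := by
      have h7 : Real.log (5 * BB * x) ≤ K * Real.log x := by
        rw [Real.log_mul (by positivity) hxpos.ne', hKd]
        nlinarith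
      have h8 := Real.exp_le_exp.mpr h7
      rwa [Real.exp_log (by positivity)] at h8
    calc ‖χ.LFunction z‖ ≤ 5 * x := h3
      _ = (5 * BB * x) * (1 / BB) := by field_simp
      _ ≤ Real.exp (K * Real.log x) * ‖χ.LFunction (ctr t)‖ :=
          mul_le_mul h6 hlow (by positivity) (Real.exp_nonneg _)
  have hdiff : Differentiable ℂ χ.LFunction := DirichletCharacter.differentiable_LFunction hχ
  have hne : χ.LFunction (ctr t) ≠ 0 := by
    intro h0
    rw [h0, norm_zero] at hlow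
    have : 0 < 1 / BB := by positivity
    linarith
  obtain ⟨Z, hZ, hsum, hmul, G, hG, hGb, hGd⟩ := hL χ.LFunction (ctr t) (1 / 2) (K * Real.log x)
    (by norm_num) hM1 (fun z _ => hdiff.analyticAt z) hne hup
  have e1 : (1 / 2 : ℝ) / 2 = 1 / 4 := by norm_num
  have e2 : (1 / 2 : ℝ) / 4 = 1 / 8 := by norm_num
  rw [e1] at hZ hG hGd
  rw [e2] at hGb
  have hpos : 0 ≤ C₀ * (K * Real.log x) := by positivity
  refine ⟨Z, hZ, ?_, ?_, G, hG, ?_, ?_⟩
  · unfold mul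
    refine hsum.trans ?_
    nlinarith
  · intro ρ hρ
    unfold mul
    exact_mod_cast hmul ρ hρ
  · intro z hz
    refine (hGb z hz).trans (le_of_eq ?_)
    ring
  · intro z hz h0
    rw [hGd z hz h0]
    unfold mul
    simp

/-- The same for `zt`. -/
theorem local_zt : ∃ C : ℝ, 1 ≤ C ∧
    ∀ t : ℝ, ∃ Z : Finset ℂ, (∀ ρ, ρ ∈ Z ↔ ‖ρ - ctr t‖ ≤ 1 / 4 ∧ zt ρ = 0) ∧
      (∑ ρ ∈ Z, mul zt ρ) ≤ C * Real.log (|t| + 3) ∧
      (∀ ρ ∈ Z, 1 ≤ mul zt ρ) ∧
      ∃ G : ℂ → ℂ, AnalyticOnNhd ℂ G (Metric.ball (ctr t) (1 / 4)) ∧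
        (∀ z ∈ Metric.closedBall (ctr t) (1 / 8), ‖G z‖ ≤ C * Real.log (|t| + 3)) ∧
        ∀ z ∈ Metric.ball (ctr t) (1 / 4), zt z ≠ 0 →
          deriv zt z / zt z = ∑ ρ ∈ Z, (mul zt ρ : ℂ) / (z - ρ) + G z := by
  obtain ⟨C₀, hC₀, hL⟩ := landau
  have hB := BB_ge
  have hK : 0 ≤ Real.log (256 * BB) := Real.log_nonneg (by linarith)
  set K : ℝ := Real.log (256 * BB) + 2 with hKd
  refine ⟨2 * C₀ * K, by nlinarith, ?_⟩
  intro t
  have hx : 3 ≤ |t| + 3 := by linarith [abs_nonneg t]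
  set x : ℝ := |t| + 3 with hxd
  have hlx : 1 ≤ Real.log x := one_le_log3 hx
  have hxpos : 0 < x := by linarith
  have hM1 : 1 ≤ K * Real.log x := by nlinarith
  have hBpos : 0 < BB := lt_of_lt_of_le one_pos hB
  have hlow : 1 / (16 * BB) ≤ ‖zt (ctr t)‖ := by
    have h1 : ctr t ≠ 1 := by
      intro h
      have := congrArg Complex.re h
      rw [ctr_re] at this
      norm_num at this
    have h2 : zt (ctr t) = (ctr t - 1) * riemannZeta (ctr t) := by
      unfold zt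
      rw [if_neg h1]
    rw [h2, norm_mul]
    have h3 : (1 / 16 : ℝ) ≤ ‖ctr t - 1‖ := by
      have := Complex.abs_re_le_norm (ctr t - 1)
      rw [Complex.sub_re, ctr_re, Complex.one_re] at this
      have h4 := le_abs_self ((17 : ℝ) / 16 - 1)
      linarith
    calc 1 / (16 * BB) = (1 / 16) * (1 / BB) := by field_simp
      _ ≤ _ := mul_le_mul h3 (norm_zeta_ge t) (by positivity) (norm_nonneg _)
  have hup : ∀ z ∈ Metric.closedBall (ctr t) (1 / 2),
      ‖zt z‖ ≤ Real.exp (K * Real.log x) * ‖zt (ctr t)‖ := by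
    intro z hz
    obtain ⟨hre, hnz⟩ := ball_bounds t z hz
    have h1 := zt_growth z hre
    have h3 : ‖zt z‖ ≤ 16 * x ^ 2 := by
      refine h1.trans ?_
      have : (‖z‖ + 1) ^ 2 ≤ x ^ 2 := pow_le_pow_left₀ (by positivity) hnz 2
      linarith
    have h6 : Real.exp (K * Real.log x) ≥ 256 * BB * x ^ 2 := by
      have h7 : Real.log (256 * BB * x ^ 2) ≤ K * Real.log x := by
        rw [Real.log_mul (by positivity) (by positivity), Real.log_pow, hKd]
        push_cast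
        nlinarith
      have h8 := Real.exp_le_exp.mpr h7
      rwa [Real.exp_log (by positivity)] at h8
    calc ‖zt z‖ ≤ 16 * x ^ 2 := h3
      _ = (256 * BB * x ^ 2) * (1 / (16 * BB)) := by field_simp; norm_num
      _ ≤ Real.exp (K * Real.log x) * ‖zt (ctr t)‖ :=
          mul_le_mul h6 hlow (by positivity) (Real.exp_nonneg _)
  have hne : zt (ctr t) ≠ 0 := by
    intro h0
    rw [h0, norm_zero] at hlow
    have : 0 < 1 / (16 * BB) := by positivity
    linarith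
  obtain ⟨Z, hZ, hsum, hmul, G, hG, hGb, hGd⟩ := hL zt (ctr t) (1 / 2) (K * Real.log x)
    (by norm_num) hM1 (fun z _ => zt_differentiable.analyticAt z) hne hup
  have e1 : (1 / 2 : ℝ) / 2 = 1 / 4 := by norm_num
  have e2 : (1 / 2 : ℝ) / 4 = 1 / 8 := by norm_num
  rw [e1] at hZ hG hGd
  rw [e2] at hGb
  have hpos : 0 ≤ C₀ * (K * Real.log x) := by positivity
  refine ⟨Z, hZ, ?_, ?_, G, hG, ?_, ?_⟩
  · unfold mul
    refine hsum.trans ?_
    nlinarith
  · intro ρ hρ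
    unfold mul
    exact_mod_cast hmul ρ hρ
  · intro z hz
    refine (hGb z hz).trans (le_of_eq ?_)
    ring
  · intro z hz h0
    rw [hGd z hz h0]
    unfold mul
    simp

end Pool.Agent.Lib.MP_629a14_nt.Th
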