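import Pool.Agent.Lib.MP_629a14_nt.Th.Fin
import Pool.Agent.Lib.MP_629a14_nt.Th.Local

/-! The explicit formula for the zeta function. -/

set_option autoImplicit false

namespace Pool.Agent.Lib.MP_629a14_nt.Th

open Finset

private lemma EFzt_ctr_re (t : ℝ) : (ctr t).re = 17 / 16 := by
  have h : ctr t = ((17 / 16 : ℝ) : ℂ) + (t : ℂ) * Complex.I := by
    unfold ctr; push_cast; ring
  rw [h]; simp

private lemma EFzt_ctr_im (t : ℝ) : (ctr t).im = t := by
  have h : ctr t = ((17 / 16 : ℝ) : ℂ) + (t : ℂ) * Complex.I := by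
    unfold ctr; push_cast; ring
  rw [h]; simp

/-- `AA` in terms of the iterated derivative of the L-series. -/
private lemma EFzt_AA_eq (a : ℕ → ℂ) (k : ℕ) (t : ℝ)
    (h : LSeries.abscissaOfAbsConv a < ((ctr t).re : EReal)) :
    AA a k t = (((1 / 16 : ℝ) ^ (k + 1) / (k.factorial : ℝ) : ℝ) : ℂ) *
      ((-1) ^ k * iteratedDeriv k (LSeries a) (ctr t)) := by
  have h1 : iteratedDeriv k (LSeries a) (ctr t) =
      (-1) ^ k * LSeries (LSeries.logMul^[k] a) (ctr t) := LSeries_iteratedDeriv k h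
  have h2 : ∀ (m n : ℕ), n ≠ 0 → (LSeries.logMul^[m] a) n = (Complex.log n) ^ m * a n := by
    intro m n hn
    induction m with
    | zero => simp
    | succ m ih =>
      rw [Function.iterate_succ', Function.comp_apply]
      simp only [LSeries.logMul]
      rw [ih]; ring
  have h3 : LSeries (LSeries.logMul^[k] a) (ctr t) =
      ∑' n : ℕ, a n * (((Real.log n) ^ k : ℝ) : ℂ) *
        (n : ℂ) ^ (-((17 / 16 : ℂ) + t * Complex.I)) := by
    unfold LSeries
    apply tsum_congr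
    intro n
    by_cases hn : n = 0
    · subst hn
      have hne : (-((17 / 16 : ℂ) + t * Complex.I)) ≠ 0 := by
        have := EFzt_ctr_re t
        unfold ctr at this
        intro h0
        have h1 : ((17 / 16 : ℂ) + t * Complex.I) = 0 := by
          rw [neg_eq_zero] at h0; exact h0
        rw [h1] at this
        norm_num at this
      have hz0 : (((0 : ℕ) : ℂ)) ^ (-((17 / 16 : ℂ) + t * Complex.I)) = 0 := by
        rw [Nat.cast_zero]; exact Complex.zero_cpow hne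
      rw [hz0, mul_zero]
      simp [LSeries.term]
    · rw [LSeries.term_of_ne_zero hn, h2 k n hn]
      have h4 : Complex.log (n : ℂ) = ((Real.log n : ℝ) : ℂ) := by
        rw [Complex.natCast_log]
      rw [h4, Complex.cpow_neg]
      unfold ctr
      push_cast
      field_simp
  rw [h1, h3]
  unfold AA
  have h5 : ((-1 : ℂ) ^ k * ((-1) ^ k * ∑' n : ℕ, a n * (((Real.log n) ^ k : ℝ) : ℂ) *
        (n : ℂ) ^ (-((17 / 16 : ℂ) + t * Complex.I)))) =
      ∑' n : ℕ, a n * (((Real.log n) ^ k : ℝ) : ℂ) *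
        (n : ℂ) ^ (-((17 / 16 : ℂ) + t * Complex.I)) := by
    rw [← mul_assoc, ← mul_pow]; simp
  rw [h5]

private lemma EFzt_iter (m ρ s : ℂ) (hs : s ≠ ρ) (k : ℕ) :
    iteratedDeriv k (fun z => m / (z - ρ)) s = m * ((-1) ^ k * (k.factorial : ℂ) / (s - ρ) ^ (k + 1)) ∧
      ContDiffAt ℂ k (fun z => m / (z - ρ)) s := by
  refine ⟨?_, ?_⟩
  · induction k generalizing s with
    | zero => simp; rw [div_eq_mul_inv]
    | succ k ih =>
      rw [iteratedDeriv_succ]
      have hev : iteratedDeriv k (fun z => m / (z - ρ)) =ᶠ[nhds s]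
          fun z => m * ((-1) ^ k * (k.factorial : ℂ) / (z - ρ) ^ (k + 1)) := by
        have : {z : ℂ | z ≠ ρ} ∈ nhds s := isOpen_ne.mem_nhds hs
        filter_upwards [this] with z hz
        exact ih z hz
      rw [hev.deriv_eq]
      have hsr : s - ρ ≠ 0 := sub_ne_zero.mpr hs
      have hd : HasDerivAt (fun z => m * ((-1) ^ k * (k.factorial : ℂ) / (z - ρ) ^ (k + 1)))
          (m * ((0 * (s - ρ) ^ (k + 1) - (-1) ^ k * (k.factorial : ℂ) *
            (((k + 1 : ℕ) : ℂ) * (s - ρ) ^ k * 1)) / ((s - ρ) ^ (k + 1)) ^ 2)) s := by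
        apply HasDerivAt.const_mul
        apply HasDerivAt.div
        · exact hasDerivAt_const s _
        · have h7 : HasDerivAt (fun z : ℂ => z - ρ) 1 s := (hasDerivAt_id s).sub_const ρ
          have h8 := h7.fun_pow (k + 1)
          simpa using h8
        · exact pow_ne_zero _ hsr
      rw [hd.deriv]
      rw [Nat.factorial_succ]
      push_cast
      have h1 : (s - ρ) ^ (k + 1) ≠ 0 := pow_ne_zero _ hsr
      have h2 : (s - ρ) ^ (k + 1 + 1) ≠ 0 := pow_ne_zero _ hsr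
      field_simp
      ring
  · apply ContDiffAt.div contDiffAt_const (contDiffAt_id.sub contDiffAt_const)
    exact sub_ne_zero.mpr hs

/-- Bound for the Taylor coefficients of a sum of poles and an analytic function. -/
private lemma EFzt_core (t : ℝ) (k : ℕ) (Z : Finset ℂ) (m : ℂ → ℝ) (G : ℂ → ℂ) (M : ℝ)
    (hZ1 : ∀ ρ ∈ Z, ρ.re < 1) (hm : ∀ ρ ∈ Z, 0 ≤ m ρ) (hM : ∑ ρ ∈ Z, m ρ ≤ M)
    (hG : AnalyticOnNhd ℂ G (Metric.ball (ctr t) (1 / 4)))
    (hG2 : ∀ z ∈ Metric.closedBall (ctr t) (1 / 8), ‖G z‖ ≤ M)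
    (F : ℂ → ℂ)
    (hF : F =ᶠ[nhds (ctr t)] fun z => ∑ ρ ∈ Z, (m ρ : ℂ) / (z - ρ) + G z) :
    ‖(((1 / 16 : ℝ) ^ (k + 1) / (k.factorial : ℝ) : ℝ) : ℂ) * iteratedDeriv k F (ctr t)‖ ≤
      ∑ ρ ∈ Z.filter (fun ρ => 15 / 16 ≤ ρ.re), m ρ * ((1 / 16) / (17 / 16 - ρ.re)) ^ (k + 1) +
      M * (1 / 2) ^ k := by
  set s := ctr t with hs
  have hsre : s.re = 17 / 16 := EFzt_ctr_re t
  have hne : ∀ ρ ∈ Z, s ≠ ρ := by
    intro ρ hρ h
    have := hZ1 ρ hρ
    rw [← h, hsre] at this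
    norm_num at this
  have hM0 : 0 ≤ M := le_trans (Finset.sum_nonneg hm) hM
  have hGan : AnalyticAt ℂ G s := hG s (Metric.mem_ball_self (by norm_num))
  have hGc : ContDiffAt ℂ k G s := hGan.contDiffAt
  have hsumc : ContDiffAt ℂ k (fun z => ∑ ρ ∈ Z, (m ρ : ℂ) / (z - ρ)) s := by
    apply ContDiffAt.sum
    intro ρ hρ
    exact (EFzt_iter (m ρ) ρ s (hne ρ hρ) k).2
  have e1 : iteratedDeriv k F s = ∑ ρ ∈ Z, (m ρ : ℂ) * ((-1) ^ k * (k.factorial : ℂ) /
      (s - ρ) ^ (k + 1)) + iteratedDeriv k G s := by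
    rw [hF.iteratedDeriv_eq k]
    have e2 : (fun z => ∑ ρ ∈ Z, (m ρ : ℂ) / (z - ρ) + G z) =
        (fun z => ∑ ρ ∈ Z, (m ρ : ℂ) / (z - ρ)) + G := rfl
    rw [e2, iteratedDeriv_add hsumc hGc]
    congr 1
    have e3 : iteratedDeriv k (fun z => ∑ ρ ∈ Z, (m ρ : ℂ) / (z - ρ)) s =
        ∑ ρ ∈ Z, iteratedDeriv k (fun z => (m ρ : ℂ) / (z - ρ)) s := by
      have := iteratedDeriv_fun_sum (𝕜 := ℂ) (n := k) (x := s) (I := Z)
        (f := fun ρ z => (m ρ : ℂ) / (z - ρ))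
        (fun ρ hρ => (EFzt_iter (m ρ) ρ s (hne ρ hρ) k).2)
      exact this
    rw [e3]
    apply Finset.sum_congr rfl
    intro ρ hρ
    exact (EFzt_iter (m ρ) ρ s (hne ρ hρ) k).1
  have hGb : ‖iteratedDeriv k G s‖ ≤ k.factorial * M / (1 / 8 : ℝ) ^ k := by
    apply Complex.norm_iteratedDeriv_le_of_forall_mem_sphere_norm_le k (by norm_num)
    · apply DifferentiableOn.diffContOnCl
      intro z hz
      have hz' : z ∈ Metric.ball s (1 / 4) := by
        have h1 : closure (Metric.ball s (1 / 8)) ⊆ Metric.closedBall s (1 / 8) :=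
          Metric.closure_ball_subset_closedBall
        have h2 := h1 hz
        rw [Metric.mem_closedBall] at h2
        rw [Metric.mem_ball]; linarith
      exact (hG z hz').differentiableAt.differentiableWithinAt
    · intro z hz
      exact hG2 z (Metric.sphere_subset_closedBall hz)
  have hfac : (0 : ℝ) < (k.factorial : ℝ) := by exact_mod_cast Nat.factorial_pos k
  rw [norm_mul, Complex.norm_real, Real.norm_of_nonneg (by positivity)]
  have hterm : ∀ ρ ∈ Z, ‖(m ρ : ℂ) * ((-1) ^ k * (k.factorial : ℂ) / (s - ρ) ^ (k + 1))‖ ≤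
      m ρ * ((k.factorial : ℝ) / (17 / 16 - ρ.re) ^ (k + 1)) := by
    intro ρ hρ
    rw [norm_mul, Complex.norm_real, Real.norm_of_nonneg (hm ρ hρ), norm_div, norm_mul, norm_pow,
      norm_neg, norm_one, one_pow, one_mul, norm_pow, Complex.norm_natCast]
    apply mul_le_mul_of_nonneg_left _ (hm ρ hρ)
    have h1 : 0 < 17 / 16 - ρ.re := by have := hZ1 ρ hρ; linarith
    have h2 : 17 / 16 - ρ.re ≤ ‖s - ρ‖ := by
      have := Complex.re_le_norm (s - ρ)
      rw [Complex.sub_re, hsre] at this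
      exact this
    apply div_le_div_of_nonneg_left hfac.le (pow_pos h1 _)
    exact pow_le_pow_left₀ h1.le h2 _
  have hsum : ‖iteratedDeriv k F s‖ ≤
      ∑ ρ ∈ Z, m ρ * ((k.factorial : ℝ) / (17 / 16 - ρ.re) ^ (k + 1)) +
        k.factorial * M / (1 / 8 : ℝ) ^ k := by
    rw [e1]
    refine le_trans (norm_add_le _ _) (add_le_add ?_ hGb)
    exact le_trans (norm_sum_le _ _) (Finset.sum_le_sum hterm)
  have hc0 : (0 : ℝ) ≤ (1 / 16 : ℝ) ^ (k + 1) / (k.factorial : ℝ) := by positivity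
  refine le_trans (mul_le_mul_of_nonneg_left hsum hc0) ?_
  rw [mul_add, Finset.mul_sum]
  have hsplit : ∑ ρ ∈ Z, (1 / 16 : ℝ) ^ (k + 1) / (k.factorial : ℝ) *
      (m ρ * ((k.factorial : ℝ) / (17 / 16 - ρ.re) ^ (k + 1))) =
      ∑ ρ ∈ Z, m ρ * ((1 / 16) / (17 / 16 - ρ.re)) ^ (k + 1) := by
    apply Finset.sum_congr rfl
    intro ρ hρ
    have h1 : 0 < 17 / 16 - ρ.re := by have := hZ1 ρ hρ; linarith
    rw [div_pow (1 / 16 : ℝ) (17 / 16 - ρ.re) (k + 1)]
    have h1' : (17 / 16 - ρ.re) ^ (k + 1) ≠ 0 := pow_ne_zero _ h1.ne'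
    revert h1'
    generalize (17 / 16 - ρ.re) ^ (k + 1) = w
    generalize (1 / 16 : ℝ) ^ (k + 1) = y
    intro h1'
    field_simp
  rw [hsplit, ← Finset.sum_filter_add_sum_filter_not Z (fun ρ => 15 / 16 ≤ ρ.re)]
  have hsmall : ∑ ρ ∈ Z.filter (fun ρ => ¬ 15 / 16 ≤ ρ.re),
      m ρ * ((1 / 16) / (17 / 16 - ρ.re)) ^ (k + 1) ≤ M * (1 / 2) ^ (k + 1) := by
    have h1 : ∀ ρ ∈ Z.filter (fun ρ => ¬ 15 / 16 ≤ ρ.re),
        m ρ * ((1 / 16) / (17 / 16 - ρ.re)) ^ (k + 1) ≤ m ρ * (1 / 2) ^ (k + 1) := by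
      intro ρ hρ
      rw [Finset.mem_filter] at hρ
      obtain ⟨h2, h3⟩ := hρ
      apply mul_le_mul_of_nonneg_left _ (hm ρ h2)
      have h4 : (1 / 8 : ℝ) ≤ 17 / 16 - ρ.re := by push Not at h3; linarith
      apply pow_le_pow_left₀
      · apply div_nonneg (by norm_num); linarith
      · rw [div_le_iff₀ (by linarith)]; linarith
    refine le_trans (Finset.sum_le_sum h1) ?_
    rw [← Finset.sum_mul]
    apply mul_le_mul_of_nonneg_right _ (by positivity)
    refine le_trans ?_ hM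
    apply Finset.sum_le_sum_of_subset_of_nonneg (Finset.filter_subset _ _)
    intro ρ hρ _
    exact hm ρ hρ
  have hGt : (1 / 16 : ℝ) ^ (k + 1) / (k.factorial : ℝ) * (k.factorial * M / (1 / 8 : ℝ) ^ k) =
      M * (1 / 16) * (1 / 2) ^ k := by
    have h8 : (1 / 16 : ℝ) ^ k = (1 / 8) ^ k * (1 / 2) ^ k := by
      rw [← mul_pow]; norm_num
    rw [pow_succ, h8]
    have : (1 / 8 : ℝ) ^ k ≠ 0 := by positivity
    field_simp
  rw [hGt]
  have h2k : (0 : ℝ) < (1 / 2) ^ k := by positivity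
  have : M * (1 / 2) ^ (k + 1) + M * (1 / 16) * (1 / 2) ^ k ≤ M * (1 / 2) ^ k := by
    rw [pow_succ]
    nlinarith [mul_nonneg hM0 h2k.le]
  linarith

/-- Proof as for `EF_chi`, with `∑ (Λ(n)-1) n^{-s} = -ζ'/ζ - ζ = -zt'/zt - h` (`zeta_split`), `local_zt`,
and Cauchy's estimate for `h` on the circle of radius `1/2` about `ctr t`. -/
theorem EF_zt : ∃ C : ℝ, 1 ≤ C ∧ ∀ (t : ℝ) (k : ℕ),
    ‖AA (fun n => (ArithmeticFunction.vonMangoldt n : ℂ) - 1) k t‖ ≤
      (∑ ρ ∈ (ZF zt (15 / 16) (|t| + 1)).filter (fun ρ => |ρ.im - t| ≤ 1 / 4),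
        mul zt ρ * ((1 / 16) / (17 / 16 - ρ.re)) ^ (k + 1)) +
      C * (|t| + 3) * (1 / 2) ^ k := by
  obtain ⟨C, hC1, hC⟩ := local_zt
  obtain ⟨h, hh1, hh2, hh3⟩ := zeta_split
  refine ⟨C + 16, by linarith, ?_⟩
  intro t k
  obtain ⟨Z, hZ, hZs, hZm, G, hG, hG2, hG3⟩ := hC t
  set s := ctr t with hs
  have hsre : s.re = 17 / 16 := EFzt_ctr_re t
  have hsim : s.im = t := EFzt_ctr_im t
  set a : ℕ → ℂ := fun n => (ArithmeticFunction.vonMangoldt n : ℂ) - 1 with ha
  have hafun : a = (fun n : ℕ => (ArithmeticFunction.vonMangoldt n : ℂ)) - 1 := by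
    funext n
    simp only [ha, Pi.sub_apply, Pi.one_apply]
  have hsum1 : ∀ z : ℂ, 1 < z.re → LSeriesSummable (fun n : ℕ => (ArithmeticFunction.vonMangoldt n : ℂ)) z :=
    fun z hz => ArithmeticFunction.LSeriesSummable_vonMangoldt hz
  have hsum2 : ∀ z : ℂ, 1 < z.re → LSeriesSummable (1 : ℕ → ℂ) z :=
    fun z hz => LSeriesSummable_one_iff.mpr hz
  have habs : LSeries.abscissaOfAbsConv a < (s.re : EReal) := by
    have h1 : LSeries.abscissaOfAbsConv a ≤ ((1 + 1 / 32 : ℝ) : EReal) := by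
      have h0 : (1 : ℝ) < (((1 + 1 / 32 : ℝ)) : ℂ).re := by
        rw [Complex.ofReal_re]; norm_num
      have h2 : LSeriesSummable a (((1 + 1 / 32 : ℝ)) : ℂ) := by
        rw [hafun]
        exact (hsum1 _ h0).sub (hsum2 _ h0)
      have h3 := h2.abscissaOfAbsConv_le
      rwa [Complex.ofReal_re] at h3
    refine lt_of_le_of_lt h1 ?_
    rw [hsre]
    exact_mod_cast (by norm_num : (1 + 1 / 32 : ℝ) < 17 / 16)
  rw [EFzt_AA_eq a k t habs]
  have hev : (LSeries a) =ᶠ[nhds s] fun z => -(∑ ρ ∈ Z, (mul zt ρ : ℂ) / (z - ρ) + (G z + h z)) := by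
    have hU : Metric.ball s (1 / 16) ∈ nhds s := Metric.ball_mem_nhds _ (by norm_num)
    filter_upwards [hU] with z hz
    have hzre : 1 < z.re := by
      rw [Metric.mem_ball, Complex.dist_eq] at hz
      have := Complex.abs_re_le_norm (z - s)
      rw [Complex.sub_re, hsre] at this
      have h2 := (abs_le.mp this).1
      linarith
    have hz4 : z ∈ Metric.ball s (1 / 4) := by
      rw [Metric.mem_ball] at hz ⊢; linarith
    have hne : zt z ≠ 0 := zt_ne_zero z hzre.le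
    have e1 : LSeries a z = -deriv riemannZeta z / riemannZeta z - riemannZeta z := by
      rw [hafun, LSeries_sub (hsum1 z hzre) (hsum2 z hzre), LSeries_one_eq_riemannZeta hzre,
        ArithmeticFunction.LSeries_vonMangoldt_eq_deriv_riemannZeta_div hzre]
    rw [e1, (hh3 z hzre).2, neg_div, hG3 z hz4 hne]
    ring
  set F : ℂ → ℂ := fun z => ∑ ρ ∈ Z, (mul zt ρ : ℂ) / (z - ρ) + (G z + h z) with hF
  have hd : iteratedDeriv k (LSeries a) s = - iteratedDeriv k F s := by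
    rw [hev.iteratedDeriv_eq k]
    have : (fun z => -(∑ ρ ∈ Z, (mul zt ρ : ℂ) / (z - ρ) + (G z + h z))) = -F := rfl
    rw [this, iteratedDeriv_neg]
  have hlog : C * Real.log (|t| + 3) ≤ C * (|t| + 3) := by
    have h1 : Real.log (|t| + 3) ≤ |t| + 3 := Real.log_le_self (by positivity)
    exact mul_le_mul_of_nonneg_left h1 (by linarith)
  have ht0 : 0 ≤ |t| := abs_nonneg t
  have hcore := EFzt_core t k Z (mul zt) (fun z => G z + h z) ((C + 16) * (|t| + 3))
    (fun ρ hρ => re_lt_one_zt ρ ((hZ ρ).mp hρ).2)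
    (fun ρ hρ => le_trans zero_le_one (hZm ρ hρ)) (by nlinarith)
    (fun z hz => (hG z hz).add (hh1.analyticAt z))
    (by
      intro z hz
      have h1 := hG2 z hz
      rw [Metric.mem_closedBall, Complex.dist_eq, ← hs] at hz
      have hzre : 1 / 2 ≤ z.re := by
        have := Complex.abs_re_le_norm (z - s)
        rw [Complex.sub_re, hsre] at this
        have h2 := (abs_le.mp this).1
        linarith
      have h2 := hh2 z hzre
      have h3 : ‖z‖ ≤ |t| + 19 / 16 := by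
        have e1 : ‖z‖ ≤ ‖z - s‖ + ‖s‖ := by
          calc ‖z‖ = ‖(z - s) + s‖ := by ring_nf
            _ ≤ _ := norm_add_le _ _
        have e2 : ‖s‖ ≤ 17 / 16 + |t| := by
          have := Complex.norm_le_abs_re_add_abs_im s
          rw [hsre, hsim] at this
          rw [abs_of_nonneg (by norm_num : (0 : ℝ) ≤ 17 / 16)] at this
          exact this
        linarith
      calc ‖G z + h z‖ ≤ ‖G z‖ + ‖h z‖ := norm_add_le _ _
        _ ≤ C * Real.log (|t| + 3) + 16 * (‖z‖ + 1) := add_le_add h1 h2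
        _ ≤ (C + 16) * (|t| + 3) := by nlinarith)
    F (Filter.EventuallyEq.refl _ _)
  rw [← hs] at hcore ⊢
  rw [hd]
  have hnorm : ‖(((1 / 16 : ℝ) ^ (k + 1) / (k.factorial : ℝ) : ℝ) : ℂ) *
      ((-1) ^ k * -iteratedDeriv k F s)‖ =
      ‖(((1 / 16 : ℝ) ^ (k + 1) / (k.factorial : ℝ) : ℝ) : ℂ) * iteratedDeriv k F s‖ := by
    rw [norm_mul, norm_mul, norm_neg, norm_pow, norm_neg, norm_one, one_pow, one_mul, norm_mul]
  rw [hnorm]
  refine le_trans hcore ?_
  apply add_le_add _ le_rfl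
  apply Finset.sum_le_sum_of_subset_of_nonneg
  · intro ρ hρ
    rw [Finset.mem_filter] at hρ
    obtain ⟨h1, h2⟩ := hρ
    have h3 := (hZ ρ).mp h1
    have h4 : |ρ.im - t| ≤ 1 / 4 := by
      have := Complex.abs_im_le_norm (ρ - s)
      rw [Complex.sub_im, hsim] at this
      linarith [h3.1]
    rw [Finset.mem_filter, mem_ZF_zt]
    refine ⟨⟨h3.2, h2, ?_⟩, h4⟩
    have h5 : |ρ.im| ≤ |ρ.im - t| + |t| := by
      calc |ρ.im| = |(ρ.im - t) + t| := by ring_nf
        _ ≤ _ := abs_add_le _ _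
    linarith
  · intro ρ hρ _
    rw [Finset.mem_filter, mem_ZF_zt] at hρ
    have h1 := re_lt_one_zt ρ hρ.1.1
    have h2 := one_le_mul_zt ρ hρ.1.1
    apply mul_nonneg (by linarith)
    apply pow_nonneg
    apply div_nonneg (by norm_num); linarith

end Pool.Agent.Lib.MP_629a14_nt.Th
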