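import Mathlib

/-! Gallagher's lemma for Dirichlet polynomials. -/

set_option autoImplicit false

namespace Pool.Agent.Lib.MP_629a14_nt.Th

open Finset

section Gallagher

open MeasureTheory FourierTransform SchwartzMap

/-- the classical and the `L2` transform agree -/
private theorem gall_ae (f : ℝ → ℂ) (h1 : Integrable f)
    (h2 : MemLp f 2 (volume : Measure ℝ)) :
    ((𝓕 (h2.toLp f) : Lp ℂ 2 (volume : Measure ℝ)) : ℝ → ℂ) =ᵐ[volume] 𝓕 f := by
  have hcont : Continuous (𝓕 f) := by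
    have := VectorFourier.fourierIntegral_continuous Real.continuous_fourierChar
      (innerSL ℝ (E := ℝ)).continuous₂ h1
    exact this
  apply ae_eq_of_integral_contDiff_smul_eq
  · exact (Lp.memLp (𝓕 (h2.toLp f) : Lp ℂ 2 (volume : Measure ℝ))).locallyIntegrable one_le_two
  · exact hcont.locallyIntegrable
  · intro g g_smooth g_cpt
    have hg₁ : HasCompactSupport (Complex.ofRealCLM ∘ g) := g_cpt.comp_left rfl
    have hg₂ : ContDiff ℝ ((⊤ : ℕ∞) : WithTop ℕ∞) (Complex.ofRealCLM ∘ g) := by fun_prop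
    set G : 𝓢(ℝ, ℂ) := hg₁.toSchwartzMap hg₂ with hG
    have hGx : ∀ x, G x = (g x : ℂ) := fun x => rfl
    have key := congrArg (fun T => T G)
      (Lp.fourier_toTemperedDistribution_eq (h2.toLp f : Lp ℂ 2 (volume : Measure ℝ)))
    simp only [TemperedDistribution.fourier_apply, Lp.toTemperedDistribution_apply] at key
    have e1 : ∫ x : ℝ, (𝓕 G) x • (h2.toLp f : ℝ → ℂ) x = ∫ x : ℝ, (𝓕 G) x • f x := by
      apply integral_congr_ae
      filter_upwards [h2.coeFn_toLp] with x hx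
      rw [hx]
    have e2 : ∫ x : ℝ, (𝓕 G) x • f x = ∫ x : ℝ, G x • (𝓕 f) x := by
      have := VectorFourier.integral_fourierIntegral_smul_eq_flip (μ := volume) (ν := volume)
        (L := innerₗ ℝ) Real.continuous_fourierChar continuous_inner (G.integrable) h1
      rw [flip_innerₗ] at this
      exact this
    refine Eq.trans (b := ∫ x : ℝ, G x • (𝓕 f) x) ?_ ?_
    · rw [← e2, ← e1, key]
      apply integral_congr_ae
      filter_upwards with x
      rw [hGx]; simp
    · apply integral_congr_ae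
      filter_upwards with x
      rw [hGx]; simp

private theorem gall_planch (f : ℝ → ℂ) (h1 : Integrable f)
    (h2 : MemLp f 2 (volume : Measure ℝ)) :
    Integrable (fun x : ℝ => ‖𝓕 f x‖ ^ 2) ∧ ∫ x : ℝ, ‖𝓕 f x‖ ^ 2 = ∫ x : ℝ, ‖f x‖ ^ 2 := by
  have hae := gall_ae f h1 h2
  have hm : MemLp (𝓕 f) 2 (volume : Measure ℝ) := (memLp_congr_ae hae).1 (Lp.memLp _)
  refine ⟨?_, ?_⟩
  · exact hm.integrable_norm_pow (by norm_num)
  · have key := Lp.norm_fourier_eq (h2.toLp f)
    have e : ∀ g : Lp ℂ 2 (volume : Measure ℝ), ‖g‖ ^ 2 = ∫ x : ℝ, ‖g x‖ ^ 2 := by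
      intro g
      have := L2.inner_def (𝕜 := ℂ) g g
      have h3 := congrArg Complex.re this
      have h4 : ‖g‖ ^ 2 = Complex.re (inner ℂ g g) := by
        rw [inner_self_eq_norm_sq_to_K]
        norm_cast
      rw [h4, h3]
      have h5 : (∫ a : ℝ, inner ℂ (g a) (g a)) = ((∫ x : ℝ, ‖g x‖ ^ 2 : ℝ) : ℂ) := by
        rw [← integral_complex_ofReal]
        apply integral_congr_ae
        filter_upwards with x
        rw [inner_self_eq_norm_sq_to_K]
        norm_cast
      rw [h5, Complex.ofReal_re]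
    have k2 : ‖𝓕 (h2.toLp f)‖ ^ 2 = ‖h2.toLp f‖ ^ 2 := by rw [key]
    rw [e, e] at k2
    calc ∫ x : ℝ, ‖𝓕 f x‖ ^ 2 = ∫ x : ℝ, ‖(𝓕 (h2.toLp f) : Lp ℂ 2 (volume : Measure ℝ)) x‖ ^ 2 := by
          apply integral_congr_ae
          filter_upwards [hae] with x hx
          rw [hx]
      _ = ∫ x : ℝ, ‖(h2.toLp f : Lp ℂ 2 (volume : Measure ℝ)) x‖ ^ 2 := k2
      _ = _ := by
          apply integral_congr_ae
          filter_upwards [h2.coeFn_toLp] with x hx
          rw [hx]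

/-- the step function -/
private noncomputable def gF (X : ℕ) (a : ℕ → ℂ) (δ : ℝ) (u : ℝ) : ℂ :=
  ∑ n ∈ Icc 1 X, (Set.Ico (Real.log n - δ) (Real.log n)).indicator (fun _ => a n) u

private theorem gF_term (A B : ℝ) (c : ℂ) :
    Integrable ((Set.Ico A B).indicator (fun _ : ℝ => c)) ∧
      MemLp ((Set.Ico A B).indicator (fun _ : ℝ => c)) 2 (volume : Measure ℝ) := by
  constructor
  · apply (integrableOn_const (by simp)).integrable_indicator measurableSet_Ico
  · apply memLp_indicator_const 2 measurableSet_Ico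
    right; simp

private theorem gF_int (X : ℕ) (a : ℕ → ℂ) (δ : ℝ) : Integrable (gF X a δ) := by
  unfold gF
  exact integrable_finsetSum _ fun n _ => (gF_term _ _ _).1

private theorem gF_mem (X : ℕ) (a : ℕ → ℂ) (δ : ℝ) : MemLp (gF X a δ) 2 (volume : Measure ℝ) := by
  unfold gF
  exact memLp_finsetSum _ fun n _ => (gF_term _ _ _).2

private theorem gF_fourier (X : ℕ) (a : ℕ → ℂ) (δ : ℝ) (hδ : 0 < δ) (t : ℝ) :
    𝓕 (gF X a δ) (t / (2 * Real.pi)) =
      (∑ n ∈ Icc 1 X, a n * (n : ℂ) ^ (-(t * Complex.I))) *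
        ∫ u in (-δ)..0, Complex.exp (-(u * t * Complex.I)) := by
  have h2pi : (2 : ℝ) * Real.pi ≠ 0 := by positivity
  rw [Real.fourier_real_eq_integral_exp_smul]
  have e0 : ∀ v : ℝ, Complex.exp (((-2 * Real.pi * v * (t / (2 * Real.pi)) : ℝ) : ℂ) * Complex.I) •
      gF X a δ v = ∑ n ∈ Icc 1 X, (Set.Ico (Real.log n - δ) (Real.log n)).indicator
        (fun v : ℝ => Complex.exp (-(v * t * Complex.I)) * a n) v := by
    intro v
    have : (-2 * Real.pi * v * (t / (2 * Real.pi)) : ℝ) = -(v * t) := by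
      field_simp
    rw [this, gF, smul_eq_mul, Finset.mul_sum]
    apply Finset.sum_congr rfl
    intro n _
    by_cases hv : v ∈ Set.Ico (Real.log n - δ) (Real.log n)
    · rw [Set.indicator_of_mem hv, Set.indicator_of_mem hv]
      congr 2
      push_cast; ring
    · rw [Set.indicator_of_notMem hv, Set.indicator_of_notMem hv, mul_zero]
  simp_rw [e0]
  rw [integral_finsetSum]
  · rw [Finset.sum_mul]
    apply Finset.sum_congr rfl
    intro n hn
    have hn1 : 1 ≤ n := (Finset.mem_Icc.1 hn).1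
    have hnC : (n : ℂ) ≠ 0 := by
      exact_mod_cast (by omega : n ≠ 0)
    rw [integral_indicator measurableSet_Ico, integral_Ico_eq_integral_Ioo,
      ← integral_Ioc_eq_integral_Ioo, ← intervalIntegral.integral_of_le (by linarith)]
    have e1 : (∫ v in (Real.log n - δ)..(Real.log n), Complex.exp (-(v * t * Complex.I)) * a n) =
        ∫ v in (-δ)..0, Complex.exp (-((v + Real.log n : ℝ) * t * Complex.I)) * a n := by
      rw [intervalIntegral.integral_comp_add_right
        (fun v : ℝ => Complex.exp (-(v * t * Complex.I)) * a n) (Real.log n)]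
      congr 1 <;> ring
    rw [e1, ← intervalIntegral.integral_const_mul]
    apply intervalIntegral.integral_congr
    intro v _
    simp only
    rw [Complex.cpow_def_of_ne_zero hnC, ← Complex.natCast_log]
    have : Complex.exp (-((v + Real.log n : ℝ) * t * Complex.I)) =
        Complex.exp ((Real.log n : ℝ) * -(t * Complex.I)) * Complex.exp (-(v * t * Complex.I)) := by
      rw [← Complex.exp_add]
      congr 1
      push_cast; ring
    rw [this]
    ring
  · intro n _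
    apply IntegrableOn.integrable_indicator _ measurableSet_Ico
    apply (Continuous.integrableOn_Icc (by fun_prop)).mono_set Set.Ico_subset_Icc_self

private theorem gall_kappa (δ t : ℝ) (hδ : 0 < δ) (ht : |t| * δ ≤ 1) :
    δ / 2 ≤ ‖∫ u in (-δ)..0, Complex.exp (-(u * t * Complex.I))‖ := by
  have h1 : (∫ u in (-δ)..0, Complex.exp (-(u * t * Complex.I))).re =
      ∫ u in (-δ)..0, Real.cos (u * t) := by
    have := (Complex.reCLM.intervalIntegral_comp_comm (μ := volume) (a := -δ) (b := 0)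
      (f := fun u : ℝ => Complex.exp (-(u * t * Complex.I)))
      (Continuous.intervalIntegrable (by fun_prop) _ _))
    simp only [Complex.reCLM_apply] at this
    rw [← this]
    apply intervalIntegral.integral_congr
    intro u _
    simp only
    have : (-((u : ℂ) * t * Complex.I)) = ((-(u * t) : ℝ) : ℂ) * Complex.I := by push_cast; ring
    rw [this, Complex.exp_ofReal_mul_I_re, Real.cos_neg]
  have h2 : ∫ u in (-δ)..0, (1 / 2 : ℝ) ≤ ∫ u in (-δ)..0, Real.cos (u * t) := by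
    apply intervalIntegral.integral_mono_on (by linarith)
    · exact Continuous.intervalIntegrable (by fun_prop) _ _
    · exact Continuous.intervalIntegrable (by fun_prop) _ _
    · intro u hu
      have h3 := Real.one_sub_sq_div_two_le_cos (x := u * t)
      have h4 : |u * t| ≤ 1 := by
        rw [abs_mul, mul_comm]
        have : |u| ≤ δ := by
          rw [abs_le]; exact ⟨hu.1, by linarith [hu.2]⟩
        exact (mul_le_mul_of_nonneg_left this (abs_nonneg _)).trans ht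
      have h5 : (u * t) ^ 2 ≤ 1 := by
        rw [← sq_abs]
        have := abs_nonneg (u * t)
        nlinarith
      linarith
  rw [intervalIntegral.integral_const] at h2
  simp only [smul_eq_mul] at h2
  calc δ / 2 ≤ ∫ u in (-δ)..0, Real.cos (u * t) := by linarith
    _ = (∫ u in (-δ)..0, Complex.exp (-(u * t * Complex.I))).re := h1.symm
    _ ≤ _ := Complex.re_le_norm _

private theorem gF_change (X : ℕ) (a : ℕ → ℂ) (T : ℝ) :
    ∫ y in Set.Ioi (0 : ℝ),
        ‖∑ n ∈ (Icc 1 X).filter (fun n : ℕ => y < n ∧ (n : ℝ) ≤ y * Real.exp (1 / T)), a n‖ ^ 2 / y =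
      ∫ u : ℝ, ‖gF X a (1 / T) u‖ ^ 2 := by
  have himg : Real.exp '' Set.univ = Set.Ioi (0 : ℝ) := by
    rw [Set.image_univ, Real.range_exp]
  rw [← himg, integral_image_eq_integral_abs_deriv_smul MeasurableSet.univ
    (fun x _ => (Real.hasDerivAt_exp x).hasDerivWithinAt) Real.exp_injective.injOn]
  rw [setIntegral_univ]
  apply integral_congr_ae
  filter_upwards with u
  have hpos := Real.exp_pos u
  rw [abs_of_pos hpos, smul_eq_mul, mul_div_cancel₀ _ hpos.ne']
  congr 2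
  unfold gF
  rw [Finset.sum_filter]
  apply Finset.sum_congr rfl
  intro n hn
  have hn1 : 1 ≤ n := (Finset.mem_Icc.1 hn).1
  have hnR : (0 : ℝ) < n := by exact_mod_cast hn1
  have hiff : (Real.exp u < n ∧ (n : ℝ) ≤ Real.exp u * Real.exp (1 / T)) ↔
      u ∈ Set.Ico (Real.log n - 1 / T) (Real.log n) := by
    rw [← Real.exp_add, ← Real.lt_log_iff_exp_lt hnR, ← Real.log_le_iff_le_exp hnR, Set.mem_Ico]
    constructor
    · rintro ⟨h1, h2⟩; exact ⟨by linarith, h1⟩
    · rintro ⟨h1, h2⟩; exact ⟨h2, by linarith⟩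
  by_cases hu : u ∈ Set.Ico (Real.log n - 1 / T) (Real.log n)
  · rw [if_pos (hiff.2 hu), Set.indicator_of_mem hu]
  · rw [if_neg (fun h => hu (hiff.1 h)), Set.indicator_of_notMem hu]

end Gallagher

open MeasureTheory FourierTransform in
/-- Proof. Let `δ = 1/T`. The function `w(t) = (sin(δt/2)/(δt/2))²` is `≥ 1/2` on `[-T,T]`, and
`∫ w(t) e^{-itx} dt = (2π/δ) max(0, 1 - |x|/δ)`, while
`max(0, δ - |x|) = ∫ 1[u < 0 ≤ u + δ] 1[u < x ≤ u + δ] du` (any pair of translates). Hence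
`∫_{-T}^T |∑ a_n n^{-it}|² dt ≤ 2 ∫ w |∑ a_n n^{-it}|² dt
 = (4π/δ²) ∑_{m,n} a_m conj(a_n) max(0, δ - |log m - log n|)
 = (4π/δ²) ∫ |∑_{u < log n ≤ u+δ} a_n|² du`, and `u = log y`. -/
theorem gallagher : ∃ C : ℝ, 1 ≤ C ∧ ∀ (X : ℕ) (a : ℕ → ℂ) (T : ℝ), 1 ≤ T →
    ∫ t in (-T)..T, ‖∑ n ∈ Icc 1 X, a n * (n : ℂ) ^ (-(t * Complex.I))‖ ^ 2 ≤
      C * T ^ 2 * ∫ y in Set.Ioi (0 : ℝ),
        ‖∑ n ∈ (Icc 1 X).filter (fun n : ℕ => y < n ∧ (n : ℝ) ≤ y * Real.exp (1 / T)), a n‖ ^ 2 / y := by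
  refine ⟨8 * Real.pi, by linarith [Real.pi_gt_three], ?_⟩
  intro X a T hT
  have hT0 : 0 < T := by linarith
  rw [gF_change X a T]
  set δ : ℝ := 1 / T with hδ
  have hδ0 : 0 < δ := by positivity
  obtain ⟨hi, hP⟩ := gall_planch (gF X a δ) (gF_int X a δ) (gF_mem X a δ)
  rw [← hP]
  have h2pi : (2 : ℝ) * Real.pi ≠ 0 := by positivity
  have hsc : ∫ t : ℝ, ‖𝓕 (gF X a δ) (t / (2 * Real.pi))‖ ^ 2 =
      (2 * Real.pi) * ∫ x : ℝ, ‖𝓕 (gF X a δ) x‖ ^ 2 := by
    have := Measure.integral_comp_div (fun x : ℝ => ‖𝓕 (gF X a δ) x‖ ^ 2) (2 * Real.pi)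
    rw [this, abs_of_pos (by positivity), smul_eq_mul]
  have hi2 : Integrable (fun t : ℝ => ‖𝓕 (gF X a δ) (t / (2 * Real.pi))‖ ^ 2) :=
    hi.comp_div h2pi
  have hpt : ∀ t ∈ Set.Icc (-T) T, ‖∑ n ∈ Icc 1 X, a n * (n : ℂ) ^ (-(t * Complex.I))‖ ^ 2 ≤
      4 * T ^ 2 * ‖𝓕 (gF X a δ) (t / (2 * Real.pi))‖ ^ 2 := by
    intro t ht
    rw [gF_fourier X a δ hδ0 t, norm_mul, mul_pow]
    have hk := gall_kappa δ t hδ0 (by
      have : |t| ≤ T := abs_le.2 ⟨ht.1, ht.2⟩
      calc |t| * δ ≤ T * δ := mul_le_mul_of_nonneg_right this hδ0.le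
        _ = 1 := by rw [hδ]; field_simp)
    have hk2 : (δ / 2) ^ 2 ≤ ‖∫ u in (-δ)..0, Complex.exp (-(u * t * Complex.I))‖ ^ 2 :=
      pow_le_pow_left₀ (by positivity) hk 2
    have h1 : (1 : ℝ) = 4 * T ^ 2 * (δ / 2) ^ 2 := by rw [hδ]; field_simp; norm_num
    calc ‖∑ n ∈ Icc 1 X, a n * (n : ℂ) ^ (-(t * Complex.I))‖ ^ 2
        = ‖∑ n ∈ Icc 1 X, a n * (n : ℂ) ^ (-(t * Complex.I))‖ ^ 2 * 1 := (mul_one _).symm
      _ = ‖∑ n ∈ Icc 1 X, a n * (n : ℂ) ^ (-(t * Complex.I))‖ ^ 2 * (4 * T ^ 2 * (δ / 2) ^ 2) := by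
          rw [← h1]
      _ ≤ ‖∑ n ∈ Icc 1 X, a n * (n : ℂ) ^ (-(t * Complex.I))‖ ^ 2 *
          (4 * T ^ 2 * ‖∫ u in (-δ)..0, Complex.exp (-(u * t * Complex.I))‖ ^ 2) := by
          gcongr
      _ = _ := by ring
  have hcont : Continuous fun t : ℝ => ‖∑ n ∈ Icc 1 X, a n * (n : ℂ) ^ (-(t * Complex.I))‖ ^ 2 := by
    apply Continuous.pow
    apply Continuous.norm
    apply continuous_finsetSum
    intro n hn
    have hn1 : 1 ≤ n := (Finset.mem_Icc.1 hn).1
    have hnC : (n : ℂ) ≠ 0 := by exact_mod_cast (by omega : n ≠ 0)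
    apply Continuous.mul continuous_const
    apply Continuous.const_cpow (by fun_prop)
    left; exact hnC
  calc ∫ t in (-T)..T, ‖∑ n ∈ Icc 1 X, a n * (n : ℂ) ^ (-(t * Complex.I))‖ ^ 2
      ≤ ∫ t in (-T)..T, 4 * T ^ 2 * ‖𝓕 (gF X a δ) (t / (2 * Real.pi))‖ ^ 2 := by
        apply intervalIntegral.integral_mono_on (by linarith)
        · exact hcont.intervalIntegrable _ _
        · exact (hi2.const_mul _).intervalIntegrable
        · exact hpt
    _ = 4 * T ^ 2 * ∫ t in (-T)..T, ‖𝓕 (gF X a δ) (t / (2 * Real.pi))‖ ^ 2 := by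
        rw [intervalIntegral.integral_const_mul]
    _ ≤ 4 * T ^ 2 * ∫ t : ℝ, ‖𝓕 (gF X a δ) (t / (2 * Real.pi))‖ ^ 2 := by
        apply mul_le_mul_of_nonneg_left _ (by positivity)
        rw [intervalIntegral.integral_of_le (by linarith)]
        exact setIntegral_le_integral hi2 (by filter_upwards with t; positivity)
    _ = _ := by rw [hsc]; ring

end Pool.Agent.Lib.MP_629a14_nt.Th
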