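import Pool.Agent.Lib.MP_629a14_nt.Th.MulLS
import Pool.Agent.Lib.MP_629a14_nt.Th.Gallagher

/-! The hybrid large sieve. -/

set_option autoImplicit false

namespace Pool.Agent.Lib.MP_629a14_nt.Th

open Finset

section Hybrid

open MeasureTheory

/-- the window of an integer -/
private noncomputable def hyW (T : ℝ) (Q n : ℕ) (y : ℝ) : ℝ :=
  (Set.Ico ((n : ℝ) * Real.exp (-(1 / T))) n).indicator (fun y => 2 / T + (1 + (Q : ℝ) ^ 2) * (1 / y)) y

private theorem hy_mem (T y : ℝ) (n : ℕ) :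
    (y < n ∧ (n : ℝ) ≤ y * Real.exp (1 / T)) ↔ y ∈ Set.Ico ((n : ℝ) * Real.exp (-(1 / T))) n := by
  rw [Set.mem_Ico, Real.exp_neg, ← div_eq_mul_inv, div_le_iff₀ (Real.exp_pos _)]
  tauto

private theorem hyW_int (T : ℝ) (hT : 1 ≤ T) (Q n : ℕ) (hn : 1 ≤ n) :
    IntegrableOn (hyW T Q n) (Set.Ioi 0) ∧
      ∫ y in Set.Ioi (0 : ℝ), hyW T Q n y ≤ (2 * n / T + (1 + (Q : ℝ) ^ 2)) / T := by
  have hT0 : 0 < T := by linarith
  have hn0 : (0 : ℝ) < n := by exact_mod_cast hn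
  set e : ℝ := Real.exp (-(1 / T)) with he
  have he0 : 0 < e := Real.exp_pos _
  have he1 : e ≤ 1 := by
    rw [he]; apply Real.exp_le_one_iff.2
    have : 0 ≤ 1 / T := by positivity
    linarith
  have hlow : (0 : ℝ) < n * e := by positivity
  have hle : (n : ℝ) * e ≤ n := by nlinarith
  have hcont : ContinuousOn (fun y : ℝ => 2 / T + (1 + (Q : ℝ) ^ 2) * (1 / y)) (Set.Icc (n * e) n) := by
    apply ContinuousOn.add continuousOn_const
    apply ContinuousOn.mul continuousOn_const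
    apply ContinuousOn.div continuousOn_const continuousOn_id
    intro y hy
    exact (lt_of_lt_of_le hlow hy.1).ne'
  have hI : IntegrableOn (fun y : ℝ => 2 / T + (1 + (Q : ℝ) ^ 2) * (1 / y)) (Set.Ico (n * e) n) :=
    (hcont.integrableOn_Icc).mono_set Set.Ico_subset_Icc_self
  refine ⟨?_, ?_⟩
  · apply Integrable.integrableOn
    exact (integrable_indicator_iff measurableSet_Ico).2 hI
  · unfold hyW
    rw [setIntegral_indicator measurableSet_Ico]
    have hset : Set.Ioi (0 : ℝ) ∩ Set.Ico ((n : ℝ) * e) n = Set.Ico ((n : ℝ) * e) n := by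
      apply Set.inter_eq_right.2
      intro y hy
      exact lt_of_lt_of_le hlow hy.1
    rw [hset, integral_Ico_eq_integral_Ioo, ← integral_Ioc_eq_integral_Ioo,
      ← intervalIntegral.integral_of_le hle]
    rw [intervalIntegral.integral_add intervalIntegrable_const, intervalIntegral.integral_const,
      intervalIntegral.integral_const_mul, integral_one_div_of_pos hlow hn0]
    · have h1 : (n : ℝ) / (n * e) = Real.exp (1 / T) := by
        rw [he, Real.exp_neg]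
        field_simp
      rw [h1, Real.log_exp]
      have h2 : 1 - 1 / T ≤ e := by
        have := Real.add_one_le_exp (-(1 / T))
        rw [← he] at this
        linarith
      have h3 : (n : ℝ) - n * e ≤ n / T := by
        have : (n : ℝ) * (1 - 1 / T) ≤ n * e := mul_le_mul_of_nonneg_left h2 hn0.le
        have h4 : (n : ℝ) * (1 - 1 / T) = n - n / T := by ring
        linarith
      have h5 : ((n : ℝ) - n * e) • (2 / T) ≤ n / T * (2 / T) := by
        rw [smul_eq_mul]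
        exact mul_le_mul_of_nonneg_right h3 (by positivity)
      calc ((n : ℝ) - n * e) • (2 / T) + (1 + (Q : ℝ) ^ 2) * (1 / T)
          ≤ n / T * (2 / T) + (1 + (Q : ℝ) ^ 2) * (1 / T) := by linarith
        _ = (2 * n / T + (1 + (Q : ℝ) ^ 2)) / T := by ring
    · have : IntervalIntegrable (fun y : ℝ => 1 / y) volume (n * e) n := by
        apply ContinuousOn.intervalIntegrable
        rw [Set.uIcc_of_le hle]
        apply ContinuousOn.div continuousOn_const continuousOn_id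
        intro y hy
        exact (lt_of_lt_of_le hlow hy.1).ne'
      exact this.const_mul _

private theorem hy_point (C : ℝ) (hC : 1 ≤ C) (hls : ∀ (Q A B : ℕ) (a : ℕ → ℂ), A ≤ B →
    ∑ x ∈ prims Q, ‖∑ n ∈ Ioc A B, a n * x.2 (n : ZMod x.1)‖ ^ 2 ≤
      C * (((B : ℝ) - A) + Q ^ 2) * ∑ n ∈ Ioc A B, ‖a n‖ ^ 2)
    (Q X : ℕ) (a : ℕ → ℂ) (T : ℝ) (hT : 1 ≤ T) (y : ℝ) (hy : 0 < y) :
    ∑ x ∈ prims Q, ‖∑ n ∈ (Icc 1 X).filter (fun n : ℕ => y < n ∧ (n : ℝ) ≤ y * Real.exp (1 / T)),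
      a n * x.2 (n : ZMod x.1)‖ ^ 2 / y ≤
      C * ∑ n ∈ Icc 1 X, ‖a n‖ ^ 2 * hyW T Q n y := by
  have hT0 : 0 < T := by linarith
  set A : ℕ := ⌊y⌋₊ with hA
  set B : ℕ := ⌊y * Real.exp (1 / T)⌋₊ with hB
  have hexp1 : 1 ≤ Real.exp (1 / T) := Real.one_le_exp (by positivity)
  have hAB : A ≤ B := Nat.floor_le_floor (by nlinarith)
  set a' : ℕ → ℂ := fun n => if n ∈ Icc 1 X then a n else 0 with ha'
  have hmem : ∀ n : ℕ, n ∈ Ioc A B ↔ (y < n ∧ (n : ℝ) ≤ y * Real.exp (1 / T)) := by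
    intro n
    rw [Finset.mem_Ioc, hA, hB, Nat.floor_lt hy.le, Nat.le_floor_iff (by positivity)]
  have hsum : ∀ g : ℕ → ℂ, ∑ n ∈ (Icc 1 X).filter (fun n : ℕ => y < n ∧ (n : ℝ) ≤ y * Real.exp (1 / T)),
      a n * g n = ∑ n ∈ Ioc A B, a' n * g n := by
    intro g
    have h1 : (Icc 1 X).filter (fun n : ℕ => y < n ∧ (n : ℝ) ≤ y * Real.exp (1 / T)) =
        (Ioc A B).filter (fun n => n ∈ Icc 1 X) := by
      ext n
      rw [Finset.mem_filter, Finset.mem_filter, hmem]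
      tauto
    rw [h1, Finset.sum_filter]
    apply Finset.sum_congr rfl
    intro n _
    rw [ha']
    simp only
    split_ifs <;> simp
  have hBA : ((B : ℝ) - A) ≤ 2 * y / T + 1 := by
    have h1 : (B : ℝ) ≤ y * Real.exp (1 / T) := Nat.floor_le (by positivity)
    have h2 : y < (A : ℝ) + 1 := Nat.lt_floor_add_one y
    have h3 : Real.exp (1 / T) ≤ 1 + 2 * (1 / T) := by
      have hx0 : 0 ≤ 1 / T := by positivity
      have hx1 : 1 / T ≤ 1 := by rw [div_le_one hT0]; exact hT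
      have := Real.abs_exp_sub_one_le (x := 1 / T) (by rw [abs_of_nonneg hx0]; exact hx1)
      rw [abs_of_nonneg hx0] at this
      have := (abs_le.1 this).2
      linarith
    have h4 : y * Real.exp (1 / T) ≤ y * (1 + 2 * (1 / T)) := mul_le_mul_of_nonneg_left h3 hy.le
    have h5 : y * (1 + 2 * (1 / T)) = y + 2 * y / T := by ring
    linarith
  have hnorm : ∑ n ∈ Ioc A B, ‖a' n‖ ^ 2 = ∑ n ∈ Icc 1 X, ‖a n‖ ^ 2 * (if n ∈ Ioc A B then 1 else 0) := by
    have h1 : ∀ n, ‖a' n‖ ^ 2 = if n ∈ Icc 1 X then ‖a n‖ ^ 2 else 0 := by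
      intro n; rw [ha']; simp only; split_ifs <;> simp
    simp_rw [h1]
    rw [← Finset.sum_filter]
    have h2 : ∀ n, ‖a n‖ ^ 2 * (if n ∈ Ioc A B then (1 : ℝ) else 0) =
        if n ∈ Ioc A B then ‖a n‖ ^ 2 else 0 := by
      intro n; split_ifs <;> simp
    simp_rw [h2]
    rw [← Finset.sum_filter]
    apply Finset.sum_congr _ (fun _ _ => rfl)
    ext n
    rw [Finset.mem_filter, Finset.mem_filter]
    tauto
  rw [← Finset.sum_div]
  simp_rw [hsum]
  rw [div_le_iff₀ hy]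
  refine (hls Q A B a' hAB).trans ?_
  rw [hnorm, mul_assoc, mul_assoc]
  apply mul_le_mul_of_nonneg_left _ (by linarith)
  rw [Finset.mul_sum, Finset.sum_mul]
  apply Finset.sum_le_sum
  intro n _
  unfold hyW
  by_cases hn : n ∈ Ioc A B
  · rw [if_pos hn, Set.indicator_of_mem ((hy_mem T y n).1 ((hmem n).1 hn)), mul_one]
    have h1 : ((B : ℝ) - A) + (Q : ℝ) ^ 2 ≤ (2 / T + (1 + (Q : ℝ) ^ 2) * (1 / y)) * y := by
      have : (2 / T + (1 + (Q : ℝ) ^ 2) * (1 / y)) * y = 2 * y / T + 1 + (Q : ℝ) ^ 2 := by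
        field_simp
        ring
      rw [this]; linarith
    calc (((B : ℝ) - A) + (Q : ℝ) ^ 2) * ‖a n‖ ^ 2
        ≤ ((2 / T + (1 + (Q : ℝ) ^ 2) * (1 / y)) * y) * ‖a n‖ ^ 2 :=
          mul_le_mul_of_nonneg_right h1 (by positivity)
      _ = _ := by ring
  · rw [if_neg hn, Set.indicator_of_notMem (fun h => hn ((hmem n).2 ((hy_mem T y n).2 h)))]
    simp

private theorem hy_meas (X : ℕ) (b : ℕ → ℂ) (T : ℝ) :
    Measurable fun y : ℝ =>
      ‖∑ n ∈ (Icc 1 X).filter (fun n : ℕ => y < n ∧ (n : ℝ) ≤ y * Real.exp (1 / T)), b n‖ ^ 2 / y := by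
  apply Measurable.div _ measurable_id
  apply Measurable.pow_const
  apply Measurable.norm
  simp_rw [Finset.sum_filter]
  apply Finset.measurable_sum
  intro n _
  apply Measurable.ite _ measurable_const measurable_const
  apply MeasurableSet.inter
  · exact measurableSet_lt measurable_id measurable_const
  · exact measurableSet_le measurable_const (measurable_id.mul_const _)

end Hybrid

open MeasureTheory in
/-- `gallagher` for the coefficients `a_n χ(n)`, then `mul_ls` on `(y, y e^{1/T}]` (length `≤ 2y/T`, and empty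
unless it contains an integer), and `∫_{n e^{-1/T}}^{n} (2y/T + 1 + Q²) dy/y ≤ (2n/T + (1+Q²)/T)`. -/
theorem hybrid : ∃ C : ℝ, 1 ≤ C ∧ ∀ (Q X : ℕ) (a : ℕ → ℂ) (T : ℝ), 1 ≤ T → 1 ≤ Q →
    ∑ x ∈ prims Q, ∫ t in (-T)..T,
      ‖∑ n ∈ Icc 1 X, a n * x.2 (n : ZMod x.1) * (n : ℂ) ^ (-(t * Complex.I))‖ ^ 2 ≤
      C * ∑ n ∈ Icc 1 X, ((n : ℝ) + Q ^ 2 * T) * ‖a n‖ ^ 2 := by
  obtain ⟨C1, hC1, hG⟩ := gallagher
  obtain ⟨C2, hC2, hL⟩ := mul_ls
  refine ⟨2 * (C1 * C2), by nlinarith, ?_⟩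
  intro Q X a T hT hQ
  have hT0 : 0 < T := by linarith
  have hQ1 : (1 : ℝ) ≤ Q := by exact_mod_cast hQ
  set f : CH → ℝ → ℝ := fun x y =>
    ‖∑ n ∈ (Icc 1 X).filter (fun n : ℕ => y < n ∧ (n : ℝ) ≤ y * Real.exp (1 / T)),
      a n * x.2 (n : ZMod x.1)‖ ^ 2 / y with hf
  set g : ℝ → ℝ := fun y => C2 * ∑ n ∈ Icc 1 X, ‖a n‖ ^ 2 * hyW T Q n y with hg
  have hgI : IntegrableOn g (Set.Ioi 0) := by
    rw [hg]
    apply Integrable.const_mul
    apply integrable_finsetSum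
    intro n hn
    exact (hyW_int T hT Q n (Finset.mem_Icc.1 hn).1).1.const_mul _
  have hf0 : ∀ x y, 0 < y → 0 ≤ f x y := by
    intro x y hy
    rw [hf]; simp only; positivity
  have hfg : ∀ y ∈ Set.Ioi (0 : ℝ), ∑ x ∈ prims Q, f x y ≤ g y := fun y hy =>
    hy_point C2 hC2 hL Q X a T hT y hy
  have hfI : ∀ x ∈ prims Q, IntegrableOn (f x) (Set.Ioi 0) := by
    intro x hx
    apply Integrable.mono' hgI
    · exact (hy_meas X (fun n => a n * x.2 (n : ZMod x.1)) T).aestronglyMeasurable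
    · rw [ae_restrict_iff' measurableSet_Ioi]
      filter_upwards with y hy
      rw [Real.norm_of_nonneg (hf0 x y hy)]
      exact (Finset.single_le_sum (f := fun x => f x y) (fun x _ => hf0 x y hy) hx).trans (hfg y hy)
  calc ∑ x ∈ prims Q, ∫ t in (-T)..T,
      ‖∑ n ∈ Icc 1 X, a n * x.2 (n : ZMod x.1) * (n : ℂ) ^ (-(t * Complex.I))‖ ^ 2
      ≤ ∑ x ∈ prims Q, C1 * T ^ 2 * ∫ y in Set.Ioi (0 : ℝ), f x y :=
        Finset.sum_le_sum fun x _ => hG X (fun n => a n * x.2 (n : ZMod x.1)) T hT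
    _ = C1 * T ^ 2 * ∫ y in Set.Ioi (0 : ℝ), ∑ x ∈ prims Q, f x y := by
        rw [← Finset.mul_sum, integral_finsetSum _ hfI]
    _ ≤ C1 * T ^ 2 * ∫ y in Set.Ioi (0 : ℝ), g y := by
        apply mul_le_mul_of_nonneg_left _ (by positivity)
        apply setIntegral_mono_on _ hgI measurableSet_Ioi hfg
        exact integrable_finsetSum _ hfI
    _ = C1 * T ^ 2 * (C2 * ∑ n ∈ Icc 1 X, ‖a n‖ ^ 2 * ∫ y in Set.Ioi (0 : ℝ), hyW T Q n y) := by
        congr 1
        rw [hg, integral_const_mul, integral_finsetSum]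
        · congr 1
          apply Finset.sum_congr rfl
          intro n _
          rw [integral_const_mul]
        · intro n hn
          exact (hyW_int T hT Q n (Finset.mem_Icc.1 hn).1).1.const_mul _
    _ ≤ C1 * T ^ 2 * (C2 * ∑ n ∈ Icc 1 X, ‖a n‖ ^ 2 * ((2 * n / T + (1 + (Q : ℝ) ^ 2)) / T)) := by
        apply mul_le_mul_of_nonneg_left _ (by positivity)
        apply mul_le_mul_of_nonneg_left _ (by linarith)
        apply Finset.sum_le_sum
        intro n hn
        exact mul_le_mul_of_nonneg_left (hyW_int T hT Q n (Finset.mem_Icc.1 hn).1).2 (by positivity)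
    _ = C1 * C2 * ∑ n ∈ Icc 1 X, (2 * n + (1 + (Q : ℝ) ^ 2) * T) * ‖a n‖ ^ 2 := by
        rw [mul_assoc C1, mul_assoc C1]
        congr 1
        rw [Finset.mul_sum, Finset.mul_sum, Finset.mul_sum]
        apply Finset.sum_congr rfl
        intro n _
        field_simp
    _ ≤ C1 * C2 * ∑ n ∈ Icc 1 X, (2 * ((n : ℝ) + Q ^ 2 * T)) * ‖a n‖ ^ 2 := by
        apply mul_le_mul_of_nonneg_left _ (by positivity)
        apply Finset.sum_le_sum
        intro n _
        apply mul_le_mul_of_nonneg_right _ (by positivity)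
        have : 1 + (Q : ℝ) ^ 2 ≤ 2 * (Q : ℝ) ^ 2 := by nlinarith
        nlinarith
    _ = 2 * (C1 * C2) * ∑ n ∈ Icc 1 X, ((n : ℝ) + Q ^ 2 * T) * ‖a n‖ ^ 2 := by
        rw [Finset.mul_sum, Finset.mul_sum]
        apply Finset.sum_congr rfl
        intro n _
        ring

end Pool.Agent.Lib.MP_629a14_nt.Th
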