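import Pool.Agent.Lib.MP_629a14_nt.Th.BinE
import Pool.Agent.Lib.MP_629a14_nt.Th.BinM
import Pool.Agent.Lib.MP_629a14_nt.Th.Defs

/-! The family of even integers in `[2^(n+1), 2^(n+2))` with `j + 1` binary digits equal to one. -/

set_option autoImplicit false

namespace Pool.Agent.Lib.MP_629a14_nt.Th

open Finset Pool.Agent.Lib.MP_629a14_nt MeasureTheory

/-- The even integers in `[2^(n+1), 2^(n+2))` with `j + 1` binary ones. -/
def BS (n j : ℕ) : Finset ℕ :=
  (Ico (2 ^ (n + 1)) (2 ^ (n + 2))).filter (fun N => Even N ∧ (Nat.digits 2 N).sum = j + 1)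

private lemma BinW_len (N : ℕ) : (Nat.bitIndices N).length = (Nat.digits 2 N).sum := by
  induction N using Nat.strong_induction_on with
  | _ N ih =>
    rcases Nat.eq_zero_or_pos N with h0 | h0
    · subst h0; simp
    · rcases Nat.even_or_odd' N with ⟨M, hM | hM⟩
      · have hlt : M < N := by omega
        rw [Nat.digits_def' (by norm_num) h0, List.sum_cons]
        have h1 : N % 2 = 0 := by omega
        have h2 : N / 2 = M := by omega
        rw [h1, h2, ← ih M hlt, hM, Nat.bitIndices_two_mul]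
        simp
      · have hlt : M < N := by omega
        rw [Nat.digits_def' (by norm_num) h0, List.sum_cons]
        have h1 : N % 2 = 1 := by omega
        have h2 : N / 2 = M := by omega
        rw [h1, h2, ← ih M hlt, hM, Nat.bitIndices_two_mul_add_one]
        simp [add_comm]

private lemma BinW_card (S : Finset ℕ) : (Nat.digits 2 (∑ i ∈ S, 2 ^ i)).sum = S.card := by
  rw [← BinW_len]
  have h := Finset.toFinset_bitIndices_sum_two_pow S
  conv_rhs => rw [← h]
  rw [List.toFinset_card_of_nodup Nat.bitIndices_nodup]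

private lemma BinW_range (n : ℕ) : ∑ i ∈ range n, 2 ^ i = 2 ^ n - 1 := by
  have := Nat.geomSum_eq (le_refl 2) n
  simpa using this

private lemma BinW_le (n : ℕ) (S : Finset ℕ) (h : ∀ i ∈ S, i < n) : ∑ i ∈ S, 2 ^ i < 2 ^ n := by
  have h1 : ∑ i ∈ S, 2 ^ i ≤ ∑ i ∈ range n, 2 ^ i :=
    Finset.sum_le_sum_of_subset (fun i hi => Finset.mem_range.mpr (h i hi))
  rw [BinW_range] at h1
  have : 0 < 2 ^ n := by positivity
  omega

/-- Subsets of `{1,...,n}` as binary digits. -/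
theorem BS_eq (n j : ℕ) : BS n j = (powersetCard j (Icc 1 n)).image (fun A => 2 ^ (n + 1) + ∑ a ∈ A, 2 ^ a) := by
  ext N
  rw [Finset.mem_image]
  unfold BS
  rw [Finset.mem_filter, Finset.mem_Ico]
  constructor
  · rintro ⟨⟨h1, h2⟩, h3, h4⟩
    set S := N.bitIndices.toFinset with hS
    have hN : ∑ i ∈ S, 2 ^ i = N := Finset.sum_toFinset_bitIndices_two_pow N
    have hle : ∀ i ∈ S, i ≤ n + 1 := by
      intro i hi
      have h5 : 2 ^ i ≤ N := by
        rw [← hN]
        exact Finset.single_le_sum (f := fun i => 2 ^ i) (fun _ _ => Nat.zero_le _) hi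
      have h6 : 2 ^ i < 2 ^ (n + 2) := lt_of_le_of_lt h5 h2
      have := (Nat.pow_lt_pow_iff_right (by norm_num : 1 < 2)).mp h6
      omega
    have hmem : n + 1 ∈ S := by
      by_contra hc
      have h5 : ∑ i ∈ S, 2 ^ i < 2 ^ (n + 1) := by
        apply BinW_le
        intro i hi
        have h6 := hle i hi
        have h7 : i ≠ n + 1 := fun h => hc (h ▸ hi)
        omega
      omega
    have h0 : 0 ∉ S := by
      intro h0
      have h5 : ∑ i ∈ S, 2 ^ i = 2 ^ 0 + ∑ i ∈ S.erase 0, 2 ^ i :=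
        (Finset.add_sum_erase S (fun i => 2 ^ i) h0).symm
      have h6 : Even (∑ i ∈ S.erase 0, 2 ^ i) := by
        apply Finset.even_sum
        intro i hi
        have h7 : i ≠ 0 := (Finset.mem_erase.mp hi).1
        exact (Nat.even_pow' h7).mpr even_two
      rw [hN, pow_zero] at h5
      rw [h5] at h3
      rw [Nat.even_add] at h3
      have : ¬ Even 1 := by decide
      exact this (h3.mpr h6)
    refine ⟨S.erase (n + 1), ?_, ?_⟩
    · rw [Finset.mem_powersetCard]
      refine ⟨?_, ?_⟩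
      · intro i hi
        rw [Finset.mem_erase] at hi
        rw [Finset.mem_Icc]
        have h5 := hle i hi.2
        have h6 : i ≠ 0 := fun h => h0 (h ▸ hi.2)
        omega
      · rw [Finset.card_erase_of_mem hmem]
        have h5 : S.card = j + 1 := by
          rw [← h4, ← hN, BinW_card]
        omega
    · rw [← hN]
      exact Finset.add_sum_erase S (fun i => 2 ^ i) hmem
  · rintro ⟨A, hA, rfl⟩
    rw [Finset.mem_powersetCard] at hA
    obtain ⟨hA1, hA2⟩ := hA
    have hn1 : n + 1 ∉ A := by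
      intro h
      have := Finset.mem_Icc.mp (hA1 h)
      omega
    have hsum : 2 ^ (n + 1) + ∑ a ∈ A, 2 ^ a = ∑ a ∈ insert (n + 1) A, 2 ^ a := by
      rw [Finset.sum_insert hn1]
    refine ⟨⟨Nat.le_add_right _ _, ?_⟩, ?_, ?_⟩
    · have h5 : ∑ i ∈ A, 2 ^ i < 2 ^ (n + 1) := by
        apply BinW_le
        intro i hi
        have := Finset.mem_Icc.mp (hA1 hi)
        omega
      have h6 : 2 ^ (n + 2) = 2 ^ (n + 1) + 2 ^ (n + 1) := by ring
      omega
    · apply Even.add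
      · exact (Nat.even_pow' (by omega)).mpr even_two
      · apply Finset.even_sum
        intro i hi
        have := Finset.mem_Icc.mp (hA1 hi)
        exact (Nat.even_pow' (by omega)).mpr even_two
    · rw [hsum, BinW_card, Finset.card_insert_of_notMem hn1, hA2]

theorem BS_inj (n j : ℕ) : Set.InjOn (fun A : Finset ℕ => 2 ^ (n + 1) + ∑ a ∈ A, 2 ^ a)
    (powersetCard j (Icc 1 n) : Finset (Finset ℕ)) := by
  intro A _ B _ h
  have h1 : ∑ a ∈ A, 2 ^ a = ∑ a ∈ B, 2 ^ a := by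
    simp only at h
    omega
  exact Finset.geomSum_injective (le_refl 2) h1

theorem BS_card (n j : ℕ) : (BS n j).card = n.choose j := by
  rw [BS_eq, Finset.card_image_of_injOn (BS_inj n j), Finset.card_powersetCard]
  simp

/-- The uniform weights. -/
noncomputable def bw (n j : ℕ) : ℕ → ℝ := fun N => if N ∈ BS n j then 1 / (n.choose j : ℝ) else 0

/-- `WW (bw n j) (2^(n+2)) α` is `C(n,j)⁻¹ e(2^(n+1) α)` times the elementary symmetric function of the `e(2^a α)`. -/
theorem bw_hat (n j : ℕ) (h1 : 1 ≤ j) (h2 : j < n) (α : ℝ) : ∃ u : ℂ, ‖u‖ = 1 ∧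
    ‖WW (bw n j) (2 ^ (n + 2)) α‖ ≤
      (n + 1) * Real.exp (-((j : ℝ) * (n - j) / n ^ 2 * ∑ a ∈ Icc 1 n, (1 - (u * ee (2 ^ a * α)).re))) := by
  obtain ⟨u, hu, hb⟩ := esymm_bound n j h1 h2 (fun a => ee (2 ^ a * α)) (fun a => norm_ee _)
  refine ⟨u, hu, ?_⟩
  have hC : (0 : ℝ) < (n.choose j : ℝ) := by exact_mod_cast Nat.choose_pos h2.le
  have hsub : BS n j ⊆ Icc 1 (2 ^ (n + 2)) := by
    intro N hN
    unfold BS at hN
    rw [Finset.mem_filter, Finset.mem_Ico] at hN
    rw [Finset.mem_Icc]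
    have : 0 < 2 ^ (n + 1) := by positivity
    omega
  have e1 : WW (bw n j) (2 ^ (n + 2)) α = ∑ N ∈ BS n j, (1 / (n.choose j : ℂ)) * ee (N * α) := by
    unfold WW
    rw [← Finset.sum_subset hsub]
    · apply Finset.sum_congr rfl
      intro N hN
      unfold bw
      rw [if_pos hN]
      push_cast
      rfl
    · intro N _ hN
      unfold bw
      rw [if_neg hN]
      simp
  have e2 : ∑ N ∈ BS n j, (1 / (n.choose j : ℂ)) * ee (N * α) =
      (1 / (n.choose j : ℂ)) * ee (2 ^ (n + 1) * α) *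
        ∑ A ∈ powersetCard j (Icc 1 n), ∏ a ∈ A, ee (2 ^ a * α) := by
    rw [BS_eq, Finset.sum_image (BS_inj n j), Finset.mul_sum]
    apply Finset.sum_congr rfl
    intro A _
    rw [mul_assoc]
    congr 1
    have e3 : (((2 ^ (n + 1) + ∑ a ∈ A, 2 ^ a : ℕ) : ℝ)) * α = 2 ^ (n + 1) * α + ∑ a ∈ A, 2 ^ a * α := by
      push_cast
      rw [add_mul, Finset.sum_mul]
    rw [e3, ee_add]
    congr 1
    have e4 : ∀ B : Finset ℕ, ee (∑ a ∈ B, 2 ^ a * α) = ∏ a ∈ B, ee (2 ^ a * α) := by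
      intro B
      induction B using Finset.induction_on with
      | empty => simp [ee_zero]
      | insert a B ha ih =>
        rw [Finset.sum_insert ha, Finset.prod_insert ha, ee_add, ih]
    exact e4 A
  rw [e1, e2, norm_mul, norm_mul, norm_ee, mul_one, norm_div, norm_one, Complex.norm_natCast]
  calc 1 / (n.choose j : ℝ) * ‖∑ A ∈ powersetCard j (Icc 1 n), ∏ a ∈ A, ee (2 ^ a * α)‖
      ≤ 1 / (n.choose j : ℝ) * ((n + 1) * (n.choose j : ℝ) *
        Real.exp (-((j : ℝ) * (n - j) / n ^ 2 * ∑ a ∈ Icc 1 n, (1 - (u * ee (2 ^ a * α)).re)))) :=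
        mul_le_mul_of_nonneg_left hb (by positivity)
    _ = _ := by
        generalize Real.exp (-((j : ℝ) * (n - j) / n ^ 2 *
          ∑ a ∈ Icc 1 n, (1 - (u * ee (2 ^ a * α)).re))) = E
        field_simp

/-- Proof. Let `N = 2^(n+2)`, `ℓ = log n`. If `‖WW‖ ≥ (log N)^{-3}` then by `bw_hat`
`∑ (1 - Re) ≤ (n²/(j(n-j))) (log(n+1) + 3 log log N) ≤ κ n` with `κ = 40/ℓ²` (as `j(n-j)/n ≥ ℓ³/2`). By `digit_measure` and
`choose_sum` (`m = ⌊16κn⌋ ≤ 640 n/ℓ²`; `(en/m)^m` is increasing in `m ≤ n`) the measure is at most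
`4 · 2^{-n} exp(C n log ℓ/ℓ²)`, which is `≤ N^{-1+c/log log N}` for large `n`, as
`c log N/log log N ≥ c n/(4ℓ)`. -/
theorem bin_spec (c : ℝ) (hc : 0 < c) : ∃ n₀ : ℕ, ∀ n j : ℕ, n₀ ≤ n → (Real.log n) ^ 3 ≤ j →
    (j : ℝ) + (Real.log n) ^ 3 ≤ n →
    volume {α : ℝ | α ∈ Set.Icc (0 : ℝ) 1 ∧
      (Real.log ((2 ^ (n + 2) : ℕ) : ℝ)) ^ (-3 : ℝ) ≤ ‖WW (bw n j) (2 ^ (n + 2)) α‖} ≤
      ENNReal.ofReal (((2 ^ (n + 2) : ℕ) : ℝ) ^
        (-1 + c / Real.log (Real.log ((2 ^ (n + 2) : ℕ) : ℝ)))) := by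
  -- asymptotic facts
  have tn : Filter.Tendsto (fun n : ℕ => (n : ℝ)) Filter.atTop Filter.atTop := tendsto_natCast_atTop_atTop
  have tl : Filter.Tendsto (fun n : ℕ => Real.log (n : ℝ)) Filter.atTop Filter.atTop :=
    Real.tendsto_log_atTop.comp tn
  have E2 : ∀ᶠ n : ℕ in Filter.atTop, 13 ≤ Real.log (n : ℝ) := tl.eventually_ge_atTop 13
  have E1 : ∀ᶠ n : ℕ in Filter.atTop, (Real.log (n : ℝ)) ^ 2 ≤ (n : ℝ) := by
    have h := (Real.isLittleO_pow_log_id_atTop (n := 2)).comp_tendsto tn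
    have h2 := h.bound (show (0 : ℝ) < 1 by norm_num)
    filter_upwards [h2, E2] with n hn h13
    simp only [Function.comp_apply, id_eq, one_mul] at hn
    rw [Real.norm_of_nonneg (by positivity), Real.norm_of_nonneg (by positivity)] at hn
    exact hn
  have E3 : ∀ᶠ n : ℕ in Filter.atTop, 3 * (8 * Real.log (n : ℝ)) ≤ c * (n : ℝ) := by
    have h := (Real.isLittleO_log_id_atTop).comp_tendsto tn
    have h2 := h.bound (show (0 : ℝ) < c / 24 by positivity)
    filter_upwards [h2, E2] with n hn h13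
    simp only [Function.comp_apply, id_eq] at hn
    rw [Real.norm_of_nonneg (by linarith), Real.norm_of_nonneg (by positivity)] at hn
    linarith
  have E4 : ∀ᶠ n : ℕ in Filter.atTop, 320 * Real.log (Real.log (n : ℝ)) ≤ c / 8 * Real.log (n : ℝ) := by
    have h := (Real.isLittleO_log_id_atTop).comp_tendsto tl
    have h2 := h.bound (show (0 : ℝ) < c / 8 / 320 by positivity)
    filter_upwards [h2, E2] with n hn h13
    simp only [Function.comp_apply, id_eq] at hn
    have h0 : 0 ≤ Real.log (Real.log (n : ℝ)) := Real.log_nonneg (by linarith)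
    rw [Real.norm_of_nonneg h0, Real.norm_of_nonneg (by linarith)] at hn
    linarith
  obtain ⟨n₀, hn₀⟩ := Filter.eventually_atTop.mp (E1.and (E2.and (E3.and E4)))
  refine ⟨max n₀ 2, ?_⟩
  intro n j hn hj1 hj2
  obtain ⟨hE1, hE2, hE3, hE4⟩ := hn₀ n (le_trans (le_max_left _ _) hn)
  have hn2 : 2 ≤ n := le_trans (le_max_right _ _) hn
  set ℓ := Real.log (n : ℝ) with hℓ
  have hℓ0 : 0 < ℓ := by linarith
  have hnR : (2 : ℝ) ≤ (n : ℝ) := by exact_mod_cast hn2
  have hnpos : (0 : ℝ) < (n : ℝ) := by linarith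
  have hℓ3 : (13 : ℝ) ^ 3 ≤ ℓ ^ 3 := pow_le_pow_left₀ (by norm_num) hE2 3
  have hℓ2 : (13 : ℝ) ^ 2 ≤ ℓ ^ 2 := pow_le_pow_left₀ (by norm_num) hE2 2
  have hjR : (1 : ℝ) ≤ (j : ℝ) := by
    refine le_trans ?_ hj1
    linarith
  have hj1' : 1 ≤ j := by exact_mod_cast hjR
  have hjn : (j : ℝ) < n := by linarith
  have hjn' : j < n := by exact_mod_cast hjn
  set L := Real.log ((2 ^ (n + 2) : ℕ) : ℝ) with hL
  have hLeq : L = (n + 2) * Real.log 2 := by
    rw [hL]
    push_cast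
    rw [Real.log_pow]
    push_cast
    ring
  have hlog2a : 0.6931471803 < Real.log 2 := Real.log_two_gt_d9
  have hlog2b : Real.log 2 < 0.6931471808 := Real.log_two_lt_d9
  have hLlow : (n : ℝ) / 2 ≤ L := by rw [hLeq]; nlinarith
  have hLup : L ≤ 2 * n := by rw [hLeq]; nlinarith
  have hn4 : (4 : ℝ) < n := by
    nlinarith
  have hL1 : 1 < L := by linarith
  have hLpos : 0 < L := by linarith
  have hlogL : 0 < Real.log L := Real.log_pos hL1
  have hlogLup : Real.log L ≤ Real.log 2 + ℓ := by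
    rw [hℓ, ← Real.log_mul (by norm_num) hnpos.ne']
    exact Real.log_le_log hLpos hLup
  have hlogn1 : Real.log (n + 1) ≤ Real.log 2 + ℓ := by
    rw [hℓ, ← Real.log_mul (by norm_num) hnpos.ne']
    exact Real.log_le_log (by linarith) (by linarith)
  -- the main inclusion
  set κ : ℝ := 10 / ℓ ^ 2 with hκ
  have hκ0 : 0 ≤ κ := by positivity
  have hincl : {α : ℝ | α ∈ Set.Icc (0 : ℝ) 1 ∧ L ^ (-3 : ℝ) ≤ ‖WW (bw n j) (2 ^ (n + 2)) α‖} ⊆
      {α : ℝ | α ∈ Set.Icc (0 : ℝ) 1 ∧ ∃ u : ℂ, ‖u‖ = 1 ∧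
        ∑ a ∈ Icc 1 n, (1 - (u * ee (2 ^ a * α)).re) ≤ κ * n} := by
    rintro α ⟨hα, hW⟩
    refine ⟨hα, ?_⟩
    obtain ⟨u, hu, hb⟩ := bw_hat n j hj1' hjn' α
    refine ⟨u, hu, ?_⟩
    set S := ∑ a ∈ Icc 1 n, (1 - (u * ee (2 ^ a * α)).re) with hS
    have h1 := le_trans hW hb
    have h2 : Real.log (L ^ (-3 : ℝ)) ≤ Real.log ((n + 1) * Real.exp (-((j : ℝ) * (n - j) / n ^ 2 * S))) :=
      Real.log_le_log (by positivity) h1
    rw [Real.log_rpow hLpos, Real.log_mul (by positivity) (Real.exp_pos _).ne', Real.log_exp] at h2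
    have h3 : (j : ℝ) * (n - j) / n ^ 2 * S ≤ 5 * ℓ := by
      linarith
    have h4 : ℓ ^ 3 * n / 2 ≤ (j : ℝ) * (n - j) := by
      rcases le_total (j : ℝ) (n / 2) with h | h
      · have : (n : ℝ) / 2 ≤ n - j := by linarith
        have h5 : ℓ ^ 3 * (n / 2) ≤ j * (n - j) := mul_le_mul hj1 this (by positivity) (by linarith)
        linarith
      · have : ℓ ^ 3 ≤ n - j := by linarith
        have h5 : (n / 2) * ℓ ^ 3 ≤ j * (n - j) := mul_le_mul h this (by positivity) (by linarith)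
        linarith
    by_cases hS0 : S ≤ 0
    · exact le_trans hS0 (by positivity)
    · push Not at hS0
      have h5 : ℓ ^ 3 * n / 2 / n ^ 2 * S ≤ 5 * ℓ := by
        refine le_trans ?_ h3
        apply mul_le_mul_of_nonneg_right _ hS0.le
        exact div_le_div_of_nonneg_right h4 (by positivity)
      rw [hκ]
      have h6 : ℓ ^ 3 * n / 2 / n ^ 2 * S = ℓ * (ℓ ^ 2 * S / (2 * n)) := by
        field_simp
      rw [h6] at h5
      have h7 : ℓ ^ 2 * S / (2 * n) ≤ 5 := by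
        have : ℓ * (ℓ ^ 2 * S / (2 * n)) ≤ ℓ * 5 := by linarith
        exact le_of_mul_le_mul_left this hℓ0
      rw [div_le_iff₀ (by positivity)] at h7
      rw [div_mul_eq_mul_div, le_div_iff₀ (by positivity)]
      linarith
  refine le_trans (measure_mono hincl) ?_
  refine le_trans (digit_measure n (by omega) κ hκ0) ?_
  apply ENNReal.ofReal_le_ofReal
  -- the sum of binomials
  set x : ℝ := 160 * n / ℓ ^ 2 with hx
  have hx16 : 16 * κ * n = x := by rw [hκ, hx]; field_simp; norm_num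
  have hx1 : 160 ≤ x := by
    rw [hx, le_div_iff₀ (by positivity)]
    linarith
  have hxn : x ≤ n := by
    rw [hx, div_le_iff₀ (by positivity)]
    nlinarith
  rw [hx16]
  set m := ⌊x⌋₊ with hm
  have hmx : (m : ℝ) ≤ x := Nat.floor_le (by linarith)
  have hxm : x < m + 1 := Nat.lt_floor_add_one x
  have hm1 : 1 ≤ m := by
    have : (1 : ℝ) ≤ m := by linarith
    exact_mod_cast this
  have hmn : m ≤ n := by
    have : (m : ℝ) ≤ n := by linarith
    exact_mod_cast this
  have hmR : (159 : ℝ) ≤ m := by linarith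
  have hcs := choose_sum n m hm1 hmn
  have hbase : Real.exp 1 * n / m ≤ ℓ ^ 2 := by
    rw [div_le_iff₀ (by linarith)]
    have h1 : Real.exp 1 < 2.7182818286 := Real.exp_one_lt_d9
    have h2 : (x / 2) ≤ m := by linarith
    have h3 : ℓ ^ 2 * (x / 2) ≤ ℓ ^ 2 * m := mul_le_mul_of_nonneg_left h2 (by positivity)
    have h4 : ℓ ^ 2 * (x / 2) = 80 * n := by rw [hx]; field_simp; norm_num
    nlinarith
  have hpow : (Real.exp 1 * n / m) ^ m ≤ Real.exp (2 * x * Real.log ℓ) := by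
    have h1 : (Real.exp 1 * n / m) ^ m ≤ (ℓ ^ 2) ^ m :=
      pow_le_pow_left₀ (by positivity) hbase m
    have h2 : (ℓ ^ 2) ^ m = Real.exp (2 * m * Real.log ℓ) := by
      rw [← pow_mul]
      have h3 : Real.exp (2 * m * Real.log ℓ) = ℓ ^ (2 * m) := by
        rw [show (2 * (m : ℝ) * Real.log ℓ) = ((2 * m : ℕ) : ℝ) * Real.log ℓ by push_cast; ring,
          Real.exp_nat_mul, Real.exp_log hℓ0]
      rw [h3]
    refine le_trans h1 ?_
    rw [h2]
    apply Real.exp_le_exp.mpr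
    have hlℓ : 0 ≤ Real.log ℓ := Real.log_nonneg (by linarith)
    nlinarith [mul_nonneg (sub_nonneg.mpr hmx) hlℓ]
  have hfin : 4 * (1 / 2 : ℝ) ^ n * ∑ i ∈ range (m + 1), (n.choose i : ℝ) ≤
      4 * (1 / 2 : ℝ) ^ n * Real.exp (2 * x * Real.log ℓ) :=
    mul_le_mul_of_nonneg_left (le_trans hcs hpow) (by positivity)
  refine le_trans hfin ?_
  have hNpos : (0 : ℝ) < ((2 ^ (n + 2) : ℕ) : ℝ) := by positivity
  have hN1 : ((2 ^ (n + 2) : ℕ) : ℝ) ^ (-1 + c / Real.log L) =
      (1 / 2 : ℝ) ^ n / 4 * Real.exp (c * L / Real.log L) := by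
    rw [Real.rpow_add hNpos, Real.rpow_neg_one]
    congr 1
    · push_cast
      rw [pow_add, one_div, inv_pow]
      field_simp
      norm_num
    · rw [Real.rpow_def_of_pos hNpos, ← hL]
      congr 1
      ring
  rw [hN1]
  have h16 : (16 : ℝ) ≤ Real.exp 3 := by
    have h1 : (2.7182818283 : ℝ) < Real.exp 1 := Real.exp_one_gt_d9
    have h2 : Real.exp 3 = Real.exp 1 ^ 3 := by
      rw [← Real.exp_nat_mul]; norm_num
    rw [h2]
    have h3 : (2.7182818283 : ℝ) ^ 3 ≤ Real.exp 1 ^ 3 := pow_le_pow_left₀ (by norm_num) h1.le 3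
    refine le_trans ?_ h3
    norm_num
  have hexp : 16 * Real.exp (2 * x * Real.log ℓ) ≤ Real.exp (c * L / Real.log L) := by
    have h1 : 16 * Real.exp (2 * x * Real.log ℓ) ≤ Real.exp (3 + 2 * x * Real.log ℓ) := by
      rw [Real.exp_add]
      exact mul_le_mul_of_nonneg_right h16 (Real.exp_pos _).le
    refine le_trans h1 (Real.exp_le_exp.mpr ?_)
    have h2 : c * n / (4 * ℓ) ≤ c * L / Real.log L := by
      rw [div_le_div_iff₀ (by positivity) hlogL]
      have h3 : Real.log L ≤ 2 * ℓ := by linarith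
      have h4 : c * n * Real.log L ≤ c * n * (2 * ℓ) := mul_le_mul_of_nonneg_left h3 (by positivity)
      have h5 : c * (n / 2) * (4 * ℓ) ≤ c * L * (4 * ℓ) := by
        apply mul_le_mul_of_nonneg_right _ (by positivity)
        exact mul_le_mul_of_nonneg_left hLlow hc.le
      linarith
    refine le_trans ?_ h2
    have h3 : 3 ≤ c * n / (8 * ℓ) := by
      rw [le_div_iff₀ (by positivity)]
      linarith
    have h4 : 2 * x * Real.log ℓ ≤ c * n / (8 * ℓ) := by
      rw [hx, le_div_iff₀ (by positivity)]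
      have h5 : 2 * (160 * n / ℓ ^ 2) * Real.log ℓ * (8 * ℓ) = 8 * n / ℓ * (320 * Real.log ℓ) := by
        field_simp
        ring
      rw [h5]
      calc 8 * n / ℓ * (320 * Real.log ℓ) ≤ 8 * n / ℓ * (c / 8 * ℓ) :=
            mul_le_mul_of_nonneg_left hE4 (by positivity)
        _ = c * n := by field_simp
    have h5 : c * n / (4 * ℓ) = c * n / (8 * ℓ) + c * n / (8 * ℓ) := by
      field_simp
      ring
    linarith
  calc 4 * (1 / 2 : ℝ) ^ n * Real.exp (2 * x * Real.log ℓ)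
      = (1 / 2 : ℝ) ^ n / 4 * (16 * Real.exp (2 * x * Real.log ℓ)) := by ring
    _ ≤ (1 / 2 : ℝ) ^ n / 4 * Real.exp (c * L / Real.log L) :=
        mul_le_mul_of_nonneg_left hexp (by positivity)

end Pool.Agent.Lib.MP_629a14_nt.Th
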