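import Pool.Agent.Lib.MP_629a14_nt.Th.IIbd

/-! The non-exceptional characters contribute little. -/

set_option autoImplicit false

namespace Pool.Agent.Lib.MP_629a14_nt.Th

open Finset Pool.Agent.Lib.MP_629a14_nt

/-- Products `∏ p/(p-1)` over a finite set of integers `≥ 2`. -/
private theorem PairS_prod (S : Finset ℕ) (hS : ∀ p ∈ S, 2 ≤ p) :
    ∏ p ∈ S, ((p : ℝ) / ((p : ℝ) - 1)) ≤ (S.card : ℝ) + 1 := by
  induction S using Finset.induction_on_max with
  | empty => simp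
  | insert a s hs ih =>
    have has : a ∉ s := fun h => lt_irrefl _ (hs a h)
    rw [prod_insert has, card_insert_of_notMem has]
    have ih' := ih (fun p hp => hS p (mem_insert_of_mem hp))
    have ha2 : s.card + 2 ≤ a := by
      have h1 : s ⊆ Ico 2 a := by
        intro x hx
        rw [mem_Ico]
        exact ⟨hS x (mem_insert_of_mem hx), hs x hx⟩
      have h2 := card_le_card h1
      rw [Nat.card_Ico] at h2
      have h3 := hS a (mem_insert_self _ _)
      omega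
    have ha2' : (s.card : ℝ) + 2 ≤ a := by exact_mod_cast ha2
    have hc : (0 : ℝ) ≤ s.card := Nat.cast_nonneg _
    have h4 : (a : ℝ) / ((a : ℝ) - 1) ≤ ((s.card : ℝ) + 2) / ((s.card : ℝ) + 1) := by
      rw [div_le_div_iff₀ (by linarith) (by linarith)]
      nlinarith
    have h5 : 0 ≤ ∏ p ∈ s, ((p : ℝ) / ((p : ℝ) - 1)) := by
      apply prod_nonneg
      intro p hp
      have : (2 : ℝ) ≤ p := by exact_mod_cast hS p (mem_insert_of_mem hp)
      exact div_nonneg (by linarith) (by linarith)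
    calc (a : ℝ) / ((a : ℝ) - 1) * ∏ p ∈ s, ((p : ℝ) / ((p : ℝ) - 1))
        ≤ ((s.card : ℝ) + 2) / ((s.card : ℝ) + 1) * ((s.card : ℝ) + 1) := by
          apply mul_le_mul h4 ih' h5 (by positivity)
      _ = (s.card : ℝ) + 2 := by field_simp
      _ = _ := by push_cast; ring

/-- `q / φ(q) ≤ 2 (1 + log q)`. -/
private theorem PairS_phi (q : ℕ) (hq : 1 ≤ q) :
    (q : ℝ) / (q.totient : ℝ) ≤ 2 * (1 + Real.log q) := by
  have hq0 : (0 : ℝ) < q := by exact_mod_cast hq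
  have hφ : (0 : ℝ) < q.totient := by exact_mod_cast Nat.totient_pos.mpr hq
  have h1 : (q.totient : ℝ) = q * ∏ p ∈ q.primeFactors, (1 - (p : ℝ)⁻¹) := by
    have := Nat.totient_eq_mul_prod_factors q
    have h2 : ((q.totient : ℚ) : ℝ) = ((q * ∏ p ∈ q.primeFactors, (1 - (p : ℚ)⁻¹) : ℚ) : ℝ) := by
      rw [this]
    push_cast at h2
    exact h2
  have h2 : (q : ℝ) / (q.totient : ℝ) = ∏ p ∈ q.primeFactors, ((p : ℝ) / ((p : ℝ) - 1)) := by
    rw [h1, div_mul_eq_div_div, div_self hq0.ne', one_div, ← prod_inv_distrib]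
    apply prod_congr rfl
    intro p hp
    have hp2 : (2 : ℝ) ≤ p := by exact_mod_cast (Nat.prime_of_mem_primeFactors hp).two_le
    have hp0 : (p : ℝ) ≠ 0 := by linarith
    have hp1 : (p : ℝ) - 1 ≠ 0 := by linarith
    rw [← one_div, ← one_div]
    field_simp
  rw [h2]
  have h3 := PairS_prod q.primeFactors (fun p hp => (Nat.prime_of_mem_primeFactors hp).two_le)
  have h4 : 2 ^ q.primeFactors.card ≤ q := by
    calc 2 ^ q.primeFactors.card ≤ ∏ p ∈ q.primeFactors, p :=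
          Finset.pow_card_le_prod _ _ _ (fun p hp => (Nat.prime_of_mem_primeFactors hp).two_le)
      _ ≤ q := Nat.le_of_dvd hq (Nat.prod_primeFactors_dvd q)
  have h5 : (q.primeFactors.card : ℝ) * Real.log 2 ≤ Real.log q := by
    rw [← Real.log_pow]
    apply Real.log_le_log (by positivity)
    exact_mod_cast h4
  have h6 : (0.6931471803 : ℝ) < Real.log 2 := Real.log_two_gt_d9
  have h7 : (0 : ℝ) ≤ q.primeFactors.card := Nat.cast_nonneg _
  nlinarith

/-- The sum over the moduli. -/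
private theorem PairS_mod (P a b : ℕ) (ha : 1 ≤ a) (hb : 1 ≤ b) (hP : 1 ≤ P) :
    ∑ j ∈ range P, (if a ∣ j + 1 ∧ b ∣ j + 1 then (((j + 1).totient : ℝ))⁻¹ *
      (Real.sqrt a * Real.sqrt b) else 0) ≤ 2 * (1 + Real.log P) ^ 2 := by
  set l := Nat.lcm a b with hl
  have hl1 : 1 ≤ l := Nat.pos_of_ne_zero (Nat.lcm_ne_zero (by omega) (by omega))
  have hl0 : (0 : ℝ) < l := by exact_mod_cast hl1
  have hlogP : 0 ≤ Real.log P := Real.log_nonneg (by exact_mod_cast hP)
  have hsq : Real.sqrt a * Real.sqrt b ≤ l := by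
    have h1 : (a : ℝ) ≤ l := by exact_mod_cast Nat.le_of_dvd hl1 (Nat.dvd_lcm_left a b)
    have h2 : (b : ℝ) ≤ l := by exact_mod_cast Nat.le_of_dvd hl1 (Nat.dvd_lcm_right a b)
    calc Real.sqrt a * Real.sqrt b ≤ Real.sqrt l * Real.sqrt l :=
          mul_le_mul (Real.sqrt_le_sqrt h1) (Real.sqrt_le_sqrt h2) (Real.sqrt_nonneg _)
            (Real.sqrt_nonneg _)
      _ = l := Real.mul_self_sqrt hl0.le
  have hterm : ∀ j ∈ range P, (if a ∣ j + 1 ∧ b ∣ j + 1 then (((j + 1).totient : ℝ))⁻¹ *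
      (Real.sqrt a * Real.sqrt b) else 0) ≤
      (if l ∣ j + 1 then 2 * (1 + Real.log P) * ((((j + 1) / l : ℕ) : ℝ))⁻¹ else 0) := by
    intro j hj
    by_cases h : a ∣ j + 1 ∧ b ∣ j + 1
    · have hlj : l ∣ j + 1 := Nat.lcm_dvd h.1 h.2
      rw [if_pos h, if_pos hlj]
      have hq0 : (0 : ℝ) < ((j + 1 : ℕ) : ℝ) := by positivity
      have hφ : (0 : ℝ) < ((j + 1).totient : ℝ) := by
        exact_mod_cast Nat.totient_pos.mpr (Nat.succ_pos j)
      have h3 := PairS_phi (j + 1) (by omega)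
      have h4 : Real.log ((j + 1 : ℕ) : ℝ) ≤ Real.log P := by
        apply Real.log_le_log hq0
        rw [mem_range] at hj
        exact_mod_cast hj
      have h5 : (((j + 1).totient : ℝ))⁻¹ ≤ 2 * (1 + Real.log P) / ((j + 1 : ℕ) : ℝ) := by
        rw [le_div_iff₀ hq0, ← div_eq_inv_mul]
        linarith
      have h6 : ((((j + 1) / l : ℕ) : ℝ))⁻¹ = l / ((j + 1 : ℕ) : ℝ) := by
        rw [Nat.cast_div hlj hl0.ne', inv_div]
      rw [h6]
      calc (((j + 1).totient : ℝ))⁻¹ * (Real.sqrt a * Real.sqrt b)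
          ≤ 2 * (1 + Real.log P) / ((j + 1 : ℕ) : ℝ) * l := by
            apply mul_le_mul h5 hsq (by positivity) (by positivity)
        _ = _ := by ring
    · rw [if_neg h]
      split_ifs with h'
      · positivity
      · exact le_rfl
  refine (sum_le_sum hterm).trans ?_
  rw [← sum_filter, ← mul_sum]
  have h7 : ∑ j ∈ (range P).filter (fun j => l ∣ j + 1), ((((j + 1) / l : ℕ) : ℝ))⁻¹ ≤
      1 + Real.log P := by
    have h8 : ∑ j ∈ (range P).filter (fun j => l ∣ j + 1), ((((j + 1) / l : ℕ) : ℝ))⁻¹ ≤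
        ∑ m ∈ Icc 1 P, ((m : ℝ))⁻¹ := by
      have hinj : Set.InjOn (fun j => (j + 1) / l) ((range P).filter (fun j => l ∣ j + 1)) := by
        intro i hi j hj hij
        simp only [coe_filter, mem_range, Set.mem_ofPred_eq] at hi hj hij
        have h9 : (i + 1) / l * l = (j + 1) / l * l := by rw [hij]
        rw [Nat.div_mul_cancel hi.2, Nat.div_mul_cancel hj.2] at h9
        omega
      rw [← sum_image (f := fun m : ℕ => ((m : ℝ))⁻¹) hinj]
      apply sum_le_sum_of_subset_of_nonneg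
      · intro m hm
        rw [mem_image] at hm
        obtain ⟨j, hj, rfl⟩ := hm
        rw [mem_filter, mem_range] at hj
        rw [mem_Icc]
        constructor
        · exact Nat.div_pos (Nat.le_of_dvd (by omega) hj.2) hl1
        · exact (Nat.div_le_self _ _).trans (by omega)
      · intro m _ _
        positivity
    refine h8.trans ?_
    have h9 := harmonic_le_one_add_log P
    rw [harmonic_eq_sum_Icc] at h9
    push_cast at h9
    exact h9
  calc 2 * (1 + Real.log P) * ∑ j ∈ (range P).filter (fun j => l ∣ j + 1),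
        ((((j + 1) / l : ℕ) : ℝ))⁻¹
      ≤ 2 * (1 + Real.log P) * (1 + Real.log P) :=
        mul_le_mul_of_nonneg_left h7 (by positivity)
    _ = _ := by ring

/-- The characters of one modulus. -/
private theorem PairS_one (P q : ℕ) [NeZero q] (hq : q ≤ P) (f : CH → ℝ) (hf : ∀ x, 0 ≤ f x) :
    ∑ χ : DirichletCharacter ℂ q, Real.sqrt χ.conductor * f (cls χ) ≤
      ∑ x ∈ prims P, (if x.1 ∣ q then Real.sqrt x.1 * f x else 0) := by
  classical
  rw [← sum_filter]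
  have hinj : Set.InjOn (fun χ : DirichletCharacter ℂ q => cls χ)
      ((univ : Finset (DirichletCharacter ℂ q)) : Set (DirichletCharacter ℂ q)) := by
    intro χ _ χ' _ h
    exact cls_inj q χ χ' h
  have h1 : ∑ χ : DirichletCharacter ℂ q, Real.sqrt χ.conductor * f (cls χ) =
      ∑ x ∈ (univ : Finset (DirichletCharacter ℂ q)).image (fun χ => cls χ),
        Real.sqrt x.1 * f x := by
    rw [sum_image hinj]
    rfl
  rw [h1]
  apply sum_le_sum_of_subset_of_nonneg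
  · intro x hx
    rw [mem_image] at hx
    obtain ⟨χ, -, rfl⟩ := hx
    rw [mem_filter]
    exact ⟨cls_mem_prims P q hq χ, χ.conductor_dvd_level⟩
  · intro x _ _
    exact mul_nonneg (Real.sqrt_nonneg _) (hf x)

/-- A weighted count of pairs of characters. Proof. The map `(q, χ₁, χ₂) ↦ (q, cls χ₁, cls χ₂)` is injective
(`cls_inj`) and `(cls χ_i).1 ∣ q`; for fixed `x₁, x₂`, with `l = lcm(x₁.1, x₂.1) ≥ √(x₁.1 x₂.1)`,
`∑_{q ≤ P, l ∣ q} √(x₁.1 x₂.1)/φ(q) ≤ C ∑_{q ≤ P, l ∣ q} (1+log q) √(x₁.1x₂.1)/q ≤ C (1+log P)²`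
(`q/φ(q) ≤ C (1 + log q)`). -/
theorem pair_count : ∃ C : ℝ, 1 ≤ C ∧ ∀ (P : ℕ) (f g : CH → ℝ), 1 ≤ P → (∀ x, 0 ≤ f x) → (∀ x, 0 ≤ g x) →
    ∑ j ∈ range P, (((j + 1).totient : ℝ))⁻¹ *
      ∑ χ₁ : DirichletCharacter ℂ (j + 1), ∑ χ₂ : DirichletCharacter ℂ (j + 1),
        Real.sqrt χ₁.conductor * Real.sqrt χ₂.conductor * (f (cls χ₁) * g (cls χ₂)) ≤
      C * (1 + Real.log P) ^ 2 * (∑ x ∈ prims P, f x) * ∑ x ∈ prims P, g x := by
  refine ⟨2, by norm_num, ?_⟩
  intro P f g hP hf hg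
  have hpr : ∀ x ∈ prims P, 1 ≤ x.1 := by
    intro x hx
    unfold prims at hx
    rw [mem_sigma, mem_Icc] at hx
    exact hx.1.1
  have h1 : ∀ j ∈ range P, (((j + 1).totient : ℝ))⁻¹ *
      ∑ χ₁ : DirichletCharacter ℂ (j + 1), ∑ χ₂ : DirichletCharacter ℂ (j + 1),
        Real.sqrt χ₁.conductor * Real.sqrt χ₂.conductor * (f (cls χ₁) * g (cls χ₂)) ≤
      ∑ x ∈ prims P, ∑ y ∈ prims P, f x * g y *
        (if x.1 ∣ j + 1 ∧ y.1 ∣ j + 1 then (((j + 1).totient : ℝ))⁻¹ *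
          (Real.sqrt x.1 * Real.sqrt y.1) else 0) := by
    intro j hj
    rw [mem_range] at hj
    have hF := PairS_one P (j + 1) (by omega) f hf
    have hG := PairS_one P (j + 1) (by omega) g hg
    have h2 : ∑ χ₁ : DirichletCharacter ℂ (j + 1), ∑ χ₂ : DirichletCharacter ℂ (j + 1),
        Real.sqrt χ₁.conductor * Real.sqrt χ₂.conductor * (f (cls χ₁) * g (cls χ₂)) =
        (∑ χ : DirichletCharacter ℂ (j + 1), Real.sqrt χ.conductor * f (cls χ)) *
        ∑ χ : DirichletCharacter ℂ (j + 1), Real.sqrt χ.conductor * g (cls χ) := by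
      rw [sum_mul_sum]
      apply sum_congr rfl
      intro χ₁ _
      apply sum_congr rfl
      intro χ₂ _
      ring
    rw [h2]
    have h3 : 0 ≤ ∑ χ : DirichletCharacter ℂ (j + 1), Real.sqrt χ.conductor * g (cls χ) :=
      sum_nonneg (fun χ _ => mul_nonneg (Real.sqrt_nonneg _) (hg _))
    have h4 : 0 ≤ ∑ x ∈ prims P, (if x.1 ∣ j + 1 then Real.sqrt x.1 * f x else 0) := by
      apply sum_nonneg
      intro x _
      split_ifs
      · exact mul_nonneg (Real.sqrt_nonneg _) (hf x)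
      · exact le_rfl
    have h5 := mul_le_mul hF hG h3 h4
    have h6 : (0 : ℝ) ≤ (((j + 1).totient : ℝ))⁻¹ := by positivity
    refine (mul_le_mul_of_nonneg_left h5 h6).trans (le_of_eq ?_)
    rw [sum_mul_sum, mul_sum]
    apply sum_congr rfl
    intro x _
    rw [mul_sum]
    apply sum_congr rfl
    intro y _
    by_cases hx : x.1 ∣ j + 1
    · by_cases hy : y.1 ∣ j + 1
      · rw [if_pos hx, if_pos hy, if_pos ⟨hx, hy⟩]; ring
      · have hn : ¬ (x.1 ∣ j + 1 ∧ y.1 ∣ j + 1) := fun h => hy h.2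
        rw [if_neg hy, if_neg hn]; ring
    · have hn : ¬ (x.1 ∣ j + 1 ∧ y.1 ∣ j + 1) := fun h => hx h.1
      rw [if_neg hx, if_neg hn]; ring
  refine (sum_le_sum h1).trans ?_
  rw [sum_comm]
  have h7 : ∀ x ∈ prims P, ∑ j ∈ range P, ∑ y ∈ prims P, f x * g y *
        (if x.1 ∣ j + 1 ∧ y.1 ∣ j + 1 then (((j + 1).totient : ℝ))⁻¹ *
          (Real.sqrt x.1 * Real.sqrt y.1) else 0) ≤
      ∑ y ∈ prims P, f x * g y * (2 * (1 + Real.log P) ^ 2) := by
    intro x hx
    rw [sum_comm]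
    apply sum_le_sum
    intro y hy
    rw [← mul_sum]
    exact mul_le_mul_of_nonneg_left (PairS_mod P x.1 y.1 (hpr x hx) (hpr y hy) hP)
      (mul_nonneg (hf x) (hg y))
  refine (sum_le_sum h7).trans (le_of_eq ?_)
  have h8 : 2 * (1 + Real.log P) ^ 2 * (∑ x ∈ prims P, f x) * ∑ x ∈ prims P, g x =
      2 * (1 + Real.log P) ^ 2 * ((∑ x ∈ prims P, f x) * ∑ x ∈ prims P, g x) := by ring
  rw [h8, sum_mul_sum, mul_sum]
  apply sum_congr rfl
  intro x _
  rw [mul_sum]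
  apply sum_congr rfl
  intro y _
  ring

open Classical in
private theorem PairS_MC (j : ℕ) (e : CH) (χ : DirichletCharacter ℂ (j + 1)) :
    χ ∈ MC (j + 1) e ↔ (cls χ = e ∨ cls χ = ch1) := by
  unfold MC
  rw [dif_neg (Nat.succ_ne_zero j)]
  simp

open Classical in
/-- The difference as a sum over the pairs which are not both exceptional. -/
private theorem PairS_diff (P N H : ℕ) (e : CH) (n : ℕ) :
    RM P N H n - MT P N H e n = ∑ j ∈ range P, (((j + 1).totient : ℂ) ^ 2)⁻¹ *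
      ∑ χ₁ : DirichletCharacter ℂ (j + 1), ∑ χ₂ : DirichletCharacter ℂ (j + 1),
        (if χ₁ ∈ MC (j + 1) e ∧ χ₂ ∈ MC (j + 1) e then 0 else
          gs χ₁⁻¹ 1 * gs χ₂⁻¹ 1 * gs (χ₁ * χ₂) (-(n : ℤ)) * II P N H χ₁ χ₂ n) := by
  have h1 : MT P N H e n = ∑ j ∈ range P, (((j + 1).totient : ℂ) ^ 2)⁻¹ *
      ∑ χ₁ ∈ MC (j + 1) e, ∑ χ₂ ∈ MC (j + 1) e,
        gs χ₁⁻¹ 1 * gs χ₂⁻¹ 1 * gs (χ₁ * χ₂) (-(n : ℤ)) * II P N H χ₁ χ₂ n := by
    unfold MT
    have h2 : Icc 1 P = (range P).image (fun j => j + 1) := by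
      ext q
      rw [mem_Icc, mem_image]
      constructor
      · rintro ⟨h, h'⟩
        exact ⟨q - 1, by rw [mem_range]; omega, by omega⟩
      · rintro ⟨j, hj, rfl⟩
        rw [mem_range] at hj
        omega
    rw [h2, sum_image (fun i _ j _ h => by simpa using h)]
  rw [RM_expand, h1, ← sum_sub_distrib]
  apply sum_congr rfl
  intro j _
  rw [← mul_sub]
  congr 1
  have h3 : ∀ g : DirichletCharacter ℂ (j + 1) → ℂ, ∑ χ ∈ MC (j + 1) e, g χ =
      ∑ χ : DirichletCharacter ℂ (j + 1), if χ ∈ MC (j + 1) e then g χ else 0 := by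
    intro g
    rw [sum_ite_mem, univ_inter]
  rw [h3, ← sum_sub_distrib]
  apply sum_congr rfl
  intro χ₁ _
  by_cases hχ : χ₁ ∈ MC (j + 1) e
  · rw [if_pos hχ, h3, ← sum_sub_distrib]
    apply sum_congr rfl
    intro χ₂ _
    by_cases hχ2 : χ₂ ∈ MC (j + 1) e
    · rw [if_pos hχ2, if_pos ⟨hχ, hχ2⟩, sub_self]
    · rw [if_neg hχ2, if_neg (fun h => hχ2 h.2), sub_zero]
  · rw [if_neg hχ, sub_zero]
    apply sum_congr rfl
    intro χ₂ _
    rw [if_neg (fun h => hχ h.1)]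

open Classical in
/-- Proof. By `RM_expand` the difference is the sum over the pairs `(χ₁, χ₂)` which are not both in `MC`. By
`norm_gs_one_le` (for `χ⁻¹`, same conductor) and `norm_gs_triv` the coefficient is at most
`√cond χ₁ √cond χ₂ / φ(q)`. If neither is in `MC`: `‖II‖ ≤ 4N √(D x₁) √(D x₂) + N/P⁴` (take the minimum of the two bounds
of `II_le_wnd`, `wnd_cls`, `II_comm`). If exactly one, say `χ₂`, is not in `MC`: `‖II‖ ≤ 4 N D x₂ + N/P⁴ ≤
4 N √(D x₂) + N/P⁴` since `D x₂ ≤ E² ≤ 1`. Apply `pair_count` with `f, g` = `√D` off `{e, ch1}`, resp. the indicator of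
`{e, ch1}`. The terms `N/P⁴`: `∑_q (1/φ(q)) φ(q)² q N/P⁴ ≤ N/P`. -/
theorem pair_sum : ∃ C : ℝ, 1 ≤ C ∧ ∃ N₀ : ℕ, ∀ N P : ℕ, N₀ ≤ N →
    Real.exp ((Real.log N) ^ (3 / 4 : ℝ)) ≤ P → P ^ 100 ≤ N →
    ∀ (e : CH) (D : CH → ℝ) (E : ℝ), (∀ x, 0 ≤ D x) →
      (∀ x ∈ prims P, x ≠ ch1 → x ≠ e → ∀ v : ℕ, N ≤ v * P ^ 5 → v ≤ N →
        ‖wnd (fun m => (aP P m : ℂ) * x.2 (m : ZMod x.1)) (N / P ^ 20) v‖ ≤ D x) →
      ∑ x ∈ (prims P).filter (fun x => x ≠ e ∧ x ≠ ch1), Real.sqrt (D x) ≤ E → E ≤ 1 →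
      ∀ n : ℕ, n ≤ N →
        ‖RM P N (N / P ^ 20) n - MT P N (N / P ^ 20) e n‖ ≤ C * N * (Real.log N) ^ 3 * E + N / Real.sqrt P := by
  obtain ⟨C₀, hC₀, hpc⟩ := pair_count
  obtain ⟨N₁, hN₁⟩ := II_le_wnd
  refine ⟨20 * C₀, by linarith, max N₁ 8, ?_⟩
  intro N P hN hP hPN e D E hD hwnd hsum hE n hn
  have hNN1 : N₁ ≤ N := (le_max_left _ _).trans hN
  have hN8 : 8 ≤ N := (le_max_right _ _).trans hN
  have hNr : (8 : ℝ) ≤ N := by exact_mod_cast hN8
  have hN0 : (0 : ℝ) < N := by linarith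
  have hP1r : (1 : ℝ) ≤ P := by
    have h1 : (1 : ℝ) ≤ Real.exp ((Real.log N) ^ (3 / 4 : ℝ)) := by
      apply Real.one_le_exp
      apply Real.rpow_nonneg
      exact Real.log_nonneg (by linarith)
    linarith
  have hP1 : 1 ≤ P := by exact_mod_cast hP1r
  have hP0 : (0 : ℝ) < P := by linarith
  have hlogN : 2 ≤ Real.log N := by
    have h1 : Real.log 8 ≤ Real.log N := Real.log_le_log (by norm_num) hNr
    have h2 : Real.log 8 = 3 * Real.log 2 := by
      rw [show (8 : ℝ) = 2 ^ 3 by norm_num, Real.log_pow]; norm_num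
    have h3 : (0.6931471803 : ℝ) < Real.log 2 := Real.log_two_gt_d9
    linarith
  have hlogP0 : 0 ≤ Real.log P := Real.log_nonneg hP1r
  have hlogP : 1 + Real.log P ≤ Real.log N := by
    have h1 : Real.log ((P : ℝ) ^ 100) ≤ Real.log N := by
      apply Real.log_le_log (by positivity)
      exact_mod_cast hPN
    rw [Real.log_pow] at h1
    push_cast at h1
    linarith
  set F : CH → ℝ := fun x => if x ≠ e ∧ x ≠ ch1 then Real.sqrt (D x) else 0 with hF
  set I : CH → ℝ := fun x => if x = e ∨ x = ch1 then 1 else 0 with hI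
  have hF0 : ∀ x, 0 ≤ F x := by
    intro x
    simp only [hF]
    split_ifs
    · exact Real.sqrt_nonneg _
    · exact le_rfl
  have hI0 : ∀ x, 0 ≤ I x := by
    intro x
    simp only [hI]
    split_ifs <;> norm_num
  have hFs : ∑ x ∈ prims P, F x ≤ E := by
    simp only [hF]
    rw [← sum_filter]
    exact hsum
  have hE0 : 0 ≤ E := (sum_nonneg (fun x _ => hF0 x)).trans hFs
  have hIs : ∑ x ∈ prims P, I x ≤ 2 := by
    simp only [hI]
    rw [← sum_filter, sum_const, nsmul_eq_mul, mul_one]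
    have h1 : (prims P).filter (fun x => x = e ∨ x = ch1) ⊆ {e, ch1} := by
      intro x hx
      rw [mem_filter] at hx
      rw [mem_insert, mem_singleton]
      exact hx.2
    have h2 := (card_le_card h1).trans (card_insert_le _ _)
    rw [card_singleton] at h2
    exact_mod_cast h2
  have hF1 : ∀ x ∈ prims P, F x ≤ 1 := by
    intro x hx
    exact ((single_le_sum (fun y _ => hF0 y) hx).trans hFs).trans hE
  -- bound for `II`
  have hII : ∀ j ∈ range P, ∀ χ₁ χ₂ : DirichletCharacter ℂ (j + 1),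
      ¬ (χ₁ ∈ MC (j + 1) e ∧ χ₂ ∈ MC (j + 1) e) →
      ‖II P N (N / P ^ 20) χ₁ χ₂ n‖ ≤ 4 * N * (F (cls χ₁) * F (cls χ₂) + F (cls χ₁) * I (cls χ₂) +
        I (cls χ₁) * F (cls χ₂)) + N / (P : ℝ) ^ 4 := by
    intro j hj χ₁ χ₂ hnot
    rw [mem_range] at hj
    have hone : ∀ χ χ' : DirichletCharacter ℂ (j + 1), χ ∉ MC (j + 1) e →
        ‖II P N (N / P ^ 20) χ χ' n‖ ≤ 4 * N * D (cls χ) + N / (P : ℝ) ^ 4 := by
      intro χ χ' hχ
      rw [PairS_MC] at hχ
      push Not at hχ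
      apply hN₁ N P hNN1 hP hPN (j + 1) χ χ' (D (cls χ)) (hD _) _ n hn
      intro v hv1 hv2
      rw [wnd_cls P _ v (j + 1) (by omega) χ]
      exact hwnd (cls χ) (cls_mem_prims P (j + 1) (by omega) χ) hχ.2 hχ.1 v hv1 hv2
    have hFD : ∀ χ : DirichletCharacter ℂ (j + 1), χ ∉ MC (j + 1) e →
        F (cls χ) = Real.sqrt (D (cls χ)) ∧ I (cls χ) = 0 := by
      intro χ hχ
      rw [PairS_MC] at hχ
      push Not at hχ
      refine ⟨?_, ?_⟩
      · simp only [hF]
        rw [if_pos ⟨hχ.1, hχ.2⟩]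
      · simp only [hI]
        rw [if_neg]
        push Not
        exact hχ
    have hFI : ∀ χ : DirichletCharacter ℂ (j + 1), χ ∈ MC (j + 1) e → F (cls χ) = 0 ∧ I (cls χ) = 1 := by
      intro χ hχ
      rw [PairS_MC] at hχ
      refine ⟨?_, ?_⟩
      · simp only [hF]
        rw [if_neg]
        rintro ⟨h1, h2⟩
        exact hχ.elim h1 h2
      · simp only [hI]
        rw [if_pos hχ]
    have hmem : ∀ χ : DirichletCharacter ℂ (j + 1), cls χ ∈ prims P := fun χ =>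
      cls_mem_prims P (j + 1) (by omega) χ
    by_cases h1 : χ₁ ∈ MC (j + 1) e
    · have h2 : χ₂ ∉ MC (j + 1) e := fun h => hnot ⟨h1, h⟩
      rw [II_comm]
      have h3 := hone χ₂ χ₁ h2
      have h4 := hFD χ₂ h2
      have h5 := hFI χ₁ h1
      have h6 := hF1 _ (hmem χ₂)
      rw [h5.1, h5.2, h4.2]
      have h7 : D (cls χ₂) ≤ F (cls χ₂) := by
        rw [h4.1] at h6 ⊢
        calc D (cls χ₂) = Real.sqrt (D (cls χ₂)) * Real.sqrt (D (cls χ₂)) :=
              (Real.mul_self_sqrt (hD _)).symm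
          _ ≤ 1 * Real.sqrt (D (cls χ₂)) := mul_le_mul_of_nonneg_right h6 (Real.sqrt_nonneg _)
          _ = _ := one_mul _
      have h8 : 4 * (N : ℝ) * D (cls χ₂) ≤ 4 * N * F (cls χ₂) :=
        mul_le_mul_of_nonneg_left h7 (by positivity)
      have h9 : 4 * (N : ℝ) * (0 * F (cls χ₂) + 0 * 0 + 1 * F (cls χ₂)) = 4 * N * F (cls χ₂) := by ring
      rw [h9]
      linarith
    · have h3 := hone χ₁ χ₂ h1
      have h4 := hFD χ₁ h1
      have h6 := hF1 _ (hmem χ₁)
      by_cases h2 : χ₂ ∈ MC (j + 1) e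
      · have h5 := hFI χ₂ h2
        rw [h5.1, h5.2, h4.2]
        have h7 : D (cls χ₁) ≤ F (cls χ₁) := by
          rw [h4.1] at h6 ⊢
          calc D (cls χ₁) = Real.sqrt (D (cls χ₁)) * Real.sqrt (D (cls χ₁)) :=
                (Real.mul_self_sqrt (hD _)).symm
            _ ≤ 1 * Real.sqrt (D (cls χ₁)) := mul_le_mul_of_nonneg_right h6 (Real.sqrt_nonneg _)
            _ = _ := one_mul _
        have h8 : 4 * (N : ℝ) * D (cls χ₁) ≤ 4 * N * F (cls χ₁) :=
          mul_le_mul_of_nonneg_left h7 (by positivity)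
        have h9 : 4 * (N : ℝ) * (F (cls χ₁) * 0 + F (cls χ₁) * 1 + 0 * 0) = 4 * N * F (cls χ₁) := by ring
        rw [h9]
        linarith
      · have h3' := hone χ₂ χ₁ h2
        rw [II_comm] at h3'
        have h4' := hFD χ₂ h2
        rw [h4.1, h4.2, h4'.1, h4'.2]
        have h9 : 4 * (N : ℝ) * (Real.sqrt (D (cls χ₁)) * Real.sqrt (D (cls χ₂)) +
            Real.sqrt (D (cls χ₁)) * 0 + 0 * Real.sqrt (D (cls χ₂))) =
            4 * N * (Real.sqrt (D (cls χ₁)) * Real.sqrt (D (cls χ₂))) := by ring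
        rw [h9]
        rcases le_total (D (cls χ₁)) (D (cls χ₂)) with h | h
        · have h10 : D (cls χ₁) ≤ Real.sqrt (D (cls χ₁)) * Real.sqrt (D (cls χ₂)) := by
            calc D (cls χ₁) = Real.sqrt (D (cls χ₁)) * Real.sqrt (D (cls χ₁)) :=
                  (Real.mul_self_sqrt (hD _)).symm
              _ ≤ _ := mul_le_mul_of_nonneg_left (Real.sqrt_le_sqrt h) (Real.sqrt_nonneg _)
          have h11 := mul_le_mul_of_nonneg_left h10 (by positivity : (0 : ℝ) ≤ 4 * N)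
          linarith
        · have h10 : D (cls χ₂) ≤ Real.sqrt (D (cls χ₁)) * Real.sqrt (D (cls χ₂)) := by
            calc D (cls χ₂) = Real.sqrt (D (cls χ₂)) * Real.sqrt (D (cls χ₂)) :=
                  (Real.mul_self_sqrt (hD _)).symm
              _ ≤ _ := mul_le_mul_of_nonneg_right (Real.sqrt_le_sqrt h) (Real.sqrt_nonneg _)
          have h11 := mul_le_mul_of_nonneg_left h10 (by positivity : (0 : ℝ) ≤ 4 * N)
          linarith
  -- norm bound
  rw [PairS_diff]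
  have hQ0 : (0 : ℝ) ≤ N / (P : ℝ) ^ 4 := by positivity
  have hnorm : ∀ j ∈ range P, ‖(((j + 1).totient : ℂ) ^ 2)⁻¹ *
      ∑ χ₁ : DirichletCharacter ℂ (j + 1), ∑ χ₂ : DirichletCharacter ℂ (j + 1),
        (if χ₁ ∈ MC (j + 1) e ∧ χ₂ ∈ MC (j + 1) e then 0 else
          gs χ₁⁻¹ 1 * gs χ₂⁻¹ 1 * gs (χ₁ * χ₂) (-(n : ℤ)) * II P N (N / P ^ 20) χ₁ χ₂ n)‖ ≤
      (((j + 1).totient : ℝ))⁻¹ *
      ∑ χ₁ : DirichletCharacter ℂ (j + 1), ∑ χ₂ : DirichletCharacter ℂ (j + 1),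
        (Real.sqrt χ₁.conductor * Real.sqrt χ₂.conductor *
          (4 * N * (F (cls χ₁) * F (cls χ₂) + F (cls χ₁) * I (cls χ₂) +
            I (cls χ₁) * F (cls χ₂)) + N / (P : ℝ) ^ 4)) := by
    intro j hj
    have hφ : (0 : ℝ) < ((j + 1).totient : ℝ) := by
      exact_mod_cast Nat.totient_pos.mpr (Nat.succ_pos j)
    rw [norm_mul, norm_inv, norm_pow, Complex.norm_natCast]
    have h1 : ‖∑ χ₁ : DirichletCharacter ℂ (j + 1), ∑ χ₂ : DirichletCharacter ℂ (j + 1),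
        (if χ₁ ∈ MC (j + 1) e ∧ χ₂ ∈ MC (j + 1) e then 0 else
          gs χ₁⁻¹ 1 * gs χ₂⁻¹ 1 * gs (χ₁ * χ₂) (-(n : ℤ)) * II P N (N / P ^ 20) χ₁ χ₂ n)‖ ≤
        ((j + 1).totient : ℝ) *
        ∑ χ₁ : DirichletCharacter ℂ (j + 1), ∑ χ₂ : DirichletCharacter ℂ (j + 1),
        (Real.sqrt χ₁.conductor * Real.sqrt χ₂.conductor *
          (4 * N * (F (cls χ₁) * F (cls χ₂) + F (cls χ₁) * I (cls χ₂) +
            I (cls χ₁) * F (cls χ₂)) + N / (P : ℝ) ^ 4)) := by
      rw [mul_sum]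
      refine (norm_sum_le _ _).trans (sum_le_sum ?_)
      intro χ₁ _
      rw [mul_sum]
      refine (norm_sum_le _ _).trans (sum_le_sum ?_)
      intro χ₂ _
      have hR0 : 0 ≤ 4 * N * (F (cls χ₁) * F (cls χ₂) + F (cls χ₁) * I (cls χ₂) +
            I (cls χ₁) * F (cls χ₂)) + N / (P : ℝ) ^ 4 := by
        have := hF0 (cls χ₁); have := hF0 (cls χ₂); have := hI0 (cls χ₁); have := hI0 (cls χ₂)
        positivity
      by_cases hb : χ₁ ∈ MC (j + 1) e ∧ χ₂ ∈ MC (j + 1) e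
      · rw [if_pos hb, norm_zero]
        have := Real.sqrt_nonneg (χ₁.conductor : ℝ)
        have := Real.sqrt_nonneg (χ₂.conductor : ℝ)
        positivity
      · rw [if_neg hb, norm_mul, norm_mul, norm_mul]
        have g1 : ‖gs χ₁⁻¹ 1‖ ≤ Real.sqrt χ₁.conductor := by
          have := norm_gs_one_le (j + 1) χ₁⁻¹
          rwa [DirichletCharacter.conductor_inv] at this
        have g2 : ‖gs χ₂⁻¹ 1‖ ≤ Real.sqrt χ₂.conductor := by
          have := norm_gs_one_le (j + 1) χ₂⁻¹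
          rwa [DirichletCharacter.conductor_inv] at this
        have g3 := norm_gs_triv (j + 1) (χ₁ * χ₂) (-(n : ℤ))
        have g4 := hII j hj χ₁ χ₂ hb
        calc ‖gs χ₁⁻¹ 1‖ * ‖gs χ₂⁻¹ 1‖ * ‖gs (χ₁ * χ₂) (-(n : ℤ))‖ *
              ‖II P N (N / P ^ 20) χ₁ χ₂ n‖
            ≤ Real.sqrt χ₁.conductor * Real.sqrt χ₂.conductor * ((j + 1).totient : ℝ) *
              (4 * N * (F (cls χ₁) * F (cls χ₂) + F (cls χ₁) * I (cls χ₂) +
                I (cls χ₁) * F (cls χ₂)) + N / (P : ℝ) ^ 4) := by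
              apply mul_le_mul _ g4 (norm_nonneg _) (by positivity)
              apply mul_le_mul _ g3 (norm_nonneg _) (by positivity)
              exact mul_le_mul g1 g2 (norm_nonneg _) (Real.sqrt_nonneg _)
          _ = _ := by ring
    calc (((j + 1).totient : ℝ) ^ 2)⁻¹ * _
        ≤ (((j + 1).totient : ℝ) ^ 2)⁻¹ * (((j + 1).totient : ℝ) *
        ∑ χ₁ : DirichletCharacter ℂ (j + 1), ∑ χ₂ : DirichletCharacter ℂ (j + 1),
        (Real.sqrt χ₁.conductor * Real.sqrt χ₂.conductor *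
          (4 * N * (F (cls χ₁) * F (cls χ₂) + F (cls χ₁) * I (cls χ₂) +
            I (cls χ₁) * F (cls χ₂)) + N / (P : ℝ) ^ 4))) :=
          mul_le_mul_of_nonneg_left h1 (by positivity)
      _ = _ := by
        rw [← mul_assoc]
        congr 1
        field_simp
  refine (norm_sum_le _ _).trans ((sum_le_sum hnorm).trans ?_)
  -- splitting
  have hsplit : ∀ j ∈ range P, (((j + 1).totient : ℝ))⁻¹ *
      ∑ χ₁ : DirichletCharacter ℂ (j + 1), ∑ χ₂ : DirichletCharacter ℂ (j + 1),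
        (Real.sqrt χ₁.conductor * Real.sqrt χ₂.conductor *
          (4 * N * (F (cls χ₁) * F (cls χ₂) + F (cls χ₁) * I (cls χ₂) +
            I (cls χ₁) * F (cls χ₂)) + N / (P : ℝ) ^ 4)) =
      4 * N * ((((j + 1).totient : ℝ))⁻¹ *
        ∑ χ₁ : DirichletCharacter ℂ (j + 1), ∑ χ₂ : DirichletCharacter ℂ (j + 1),
          Real.sqrt χ₁.conductor * Real.sqrt χ₂.conductor * (F (cls χ₁) * F (cls χ₂))) +
      4 * N * ((((j + 1).totient : ℝ))⁻¹ *
        ∑ χ₁ : DirichletCharacter ℂ (j + 1), ∑ χ₂ : DirichletCharacter ℂ (j + 1),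
          Real.sqrt χ₁.conductor * Real.sqrt χ₂.conductor * (F (cls χ₁) * I (cls χ₂))) +
      4 * N * ((((j + 1).totient : ℝ))⁻¹ *
        ∑ χ₁ : DirichletCharacter ℂ (j + 1), ∑ χ₂ : DirichletCharacter ℂ (j + 1),
          Real.sqrt χ₁.conductor * Real.sqrt χ₂.conductor * (I (cls χ₁) * F (cls χ₂))) +
      N / (P : ℝ) ^ 4 * ((((j + 1).totient : ℝ))⁻¹ *
        ∑ χ₁ : DirichletCharacter ℂ (j + 1), ∑ χ₂ : DirichletCharacter ℂ (j + 1),
          Real.sqrt χ₁.conductor * Real.sqrt χ₂.conductor) := by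
    intro j _
    simp only [mul_sum]
    simp only [← sum_add_distrib]
    apply sum_congr rfl
    intro χ₁ _
    apply sum_congr rfl
    intro χ₂ _
    ring
  rw [sum_congr rfl hsplit, sum_add_distrib, sum_add_distrib, sum_add_distrib, ← mul_sum, ← mul_sum,
    ← mul_sum, ← mul_sum]
  have hc1 := hpc P F F hP1 hF0 hF0
  have hc2 := hpc P F I hP1 hF0 hI0
  have hc3 := hpc P I F hP1 hI0 hF0
  have hL : (1 + Real.log P) ^ 2 ≤ (Real.log N) ^ 3 := by
    calc (1 + Real.log P) ^ 2 ≤ (Real.log N) ^ 2 := pow_le_pow_left₀ (by linarith) hlogP 2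
      _ ≤ (Real.log N) ^ 3 := pow_le_pow_right₀ (by linarith) (by norm_num)
  have hA0 : 0 ≤ C₀ * (1 + Real.log P) ^ 2 := by positivity
  have hFn := sum_nonneg (s := prims P) (fun x _ => hF0 x)
  have hIn := sum_nonneg (s := prims P) (fun x _ => hI0 x)
  have hd1 : C₀ * (1 + Real.log P) ^ 2 * (∑ x ∈ prims P, F x) * ∑ x ∈ prims P, F x ≤
      C₀ * (1 + Real.log P) ^ 2 * E := by
    rw [mul_assoc]
    apply mul_le_mul_of_nonneg_left _ hA0
    calc (∑ x ∈ prims P, F x) * ∑ x ∈ prims P, F x ≤ E * 1 :=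
          mul_le_mul hFs (hFs.trans hE) hFn hE0
      _ = E := mul_one _
  have hd2 : C₀ * (1 + Real.log P) ^ 2 * (∑ x ∈ prims P, F x) * ∑ x ∈ prims P, I x ≤
      C₀ * (1 + Real.log P) ^ 2 * (2 * E) := by
    rw [mul_assoc]
    apply mul_le_mul_of_nonneg_left _ hA0
    calc (∑ x ∈ prims P, F x) * ∑ x ∈ prims P, I x ≤ E * 2 :=
          mul_le_mul hFs hIs hIn hE0
      _ = _ := mul_comm _ _
  have hd3 : C₀ * (1 + Real.log P) ^ 2 * (∑ x ∈ prims P, I x) * ∑ x ∈ prims P, F x ≤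
      C₀ * (1 + Real.log P) ^ 2 * (2 * E) := by
    rw [mul_assoc]
    apply mul_le_mul_of_nonneg_left _ hA0
    exact mul_le_mul hIs hFs hFn (by norm_num)
  have hlast : N / (P : ℝ) ^ 4 * ∑ j ∈ range P, ((((j + 1).totient : ℝ))⁻¹ *
        ∑ χ₁ : DirichletCharacter ℂ (j + 1), ∑ χ₂ : DirichletCharacter ℂ (j + 1),
          Real.sqrt χ₁.conductor * Real.sqrt χ₂.conductor) ≤ N / Real.sqrt P := by
    have h1 : ∀ j ∈ range P, ((((j + 1).totient : ℝ))⁻¹ *
        ∑ χ₁ : DirichletCharacter ℂ (j + 1), ∑ χ₂ : DirichletCharacter ℂ (j + 1),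
          Real.sqrt χ₁.conductor * Real.sqrt χ₂.conductor) ≤ (P : ℝ) * P := by
      intro j hj
      rw [mem_range] at hj
      have hφ : (0 : ℝ) < ((j + 1).totient : ℝ) := by
        exact_mod_cast Nat.totient_pos.mpr (Nat.succ_pos j)
      have hjP : ((j + 1 : ℕ) : ℝ) ≤ P := by exact_mod_cast hj
      have hφP : ((j + 1).totient : ℝ) ≤ P := by
        have : ((j + 1).totient : ℝ) ≤ ((j + 1 : ℕ) : ℝ) := by exact_mod_cast Nat.totient_le _
        linarith
      have hc : ∀ χ : DirichletCharacter ℂ (j + 1), Real.sqrt χ.conductor ≤ Real.sqrt P := by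
        intro χ
        apply Real.sqrt_le_sqrt
        have : χ.conductor ≤ j + 1 := Nat.le_of_dvd (Nat.succ_pos j) χ.conductor_dvd_level
        have : (χ.conductor : ℝ) ≤ ((j + 1 : ℕ) : ℝ) := by exact_mod_cast this
        linarith
      have hcard : ((Finset.univ : Finset (DirichletCharacter ℂ (j + 1))).card : ℝ) =
          ((j + 1).totient : ℝ) := by
        rw [card_univ, ← Nat.card_eq_fintype_card]
        exact_mod_cast DirichletCharacter.card_eq_totient_of_hasEnoughRootsOfUnity ℂ (j + 1)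
      have h2 : ∑ χ₁ : DirichletCharacter ℂ (j + 1), ∑ χ₂ : DirichletCharacter ℂ (j + 1),
          Real.sqrt χ₁.conductor * Real.sqrt χ₂.conductor ≤
          ((j + 1).totient : ℝ) * (((j + 1).totient : ℝ) * P) := by
        calc ∑ χ₁ : DirichletCharacter ℂ (j + 1), ∑ χ₂ : DirichletCharacter ℂ (j + 1),
          Real.sqrt χ₁.conductor * Real.sqrt χ₂.conductor
            ≤ ∑ χ₁ : DirichletCharacter ℂ (j + 1), ∑ χ₂ : DirichletCharacter ℂ (j + 1), (P : ℝ) := by
              apply sum_le_sum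
              intro χ₁ _
              apply sum_le_sum
              intro χ₂ _
              calc Real.sqrt χ₁.conductor * Real.sqrt χ₂.conductor ≤ Real.sqrt P * Real.sqrt P :=
                    mul_le_mul (hc χ₁) (hc χ₂) (Real.sqrt_nonneg _) (Real.sqrt_nonneg _)
                _ = P := Real.mul_self_sqrt hP0.le
          _ = _ := by
              rw [sum_const, sum_const, nsmul_eq_mul, nsmul_eq_mul, hcard]
      calc (((j + 1).totient : ℝ))⁻¹ * _ ≤ (((j + 1).totient : ℝ))⁻¹ *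
            (((j + 1).totient : ℝ) * (((j + 1).totient : ℝ) * P)) :=
            mul_le_mul_of_nonneg_left h2 (by positivity)
        _ = ((j + 1).totient : ℝ) * P := by field_simp
        _ ≤ P * P := mul_le_mul_of_nonneg_right hφP hP0.le
    have h2 := sum_le_sum h1
    rw [sum_const, card_range, nsmul_eq_mul] at h2
    have h3 : Real.sqrt P ≤ P := by
      rw [Real.sqrt_le_left hP0.le]
      nlinarith
    have h4 : 0 < Real.sqrt P := Real.sqrt_pos.mpr hP0
    calc N / (P : ℝ) ^ 4 * ∑ j ∈ range P, ((((j + 1).totient : ℝ))⁻¹ *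
        ∑ χ₁ : DirichletCharacter ℂ (j + 1), ∑ χ₂ : DirichletCharacter ℂ (j + 1),
          Real.sqrt χ₁.conductor * Real.sqrt χ₂.conductor)
        ≤ N / (P : ℝ) ^ 4 * (P * (P * P)) := mul_le_mul_of_nonneg_left h2 hQ0
      _ = N / P := by field_simp
      _ ≤ N / Real.sqrt P := div_le_div_of_nonneg_left hN0.le h4 h3
  have hfin : 4 * (N : ℝ) * (C₀ * (1 + Real.log P) ^ 2 * E) + 4 * N * (C₀ * (1 + Real.log P) ^ 2 * (2 * E)) +
      4 * N * (C₀ * (1 + Real.log P) ^ 2 * (2 * E)) ≤ 20 * C₀ * N * (Real.log N) ^ 3 * E := by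
    have h1 : C₀ * N * E * (1 + Real.log P) ^ 2 ≤ C₀ * N * E * (Real.log N) ^ 3 :=
      mul_le_mul_of_nonneg_left hL (by positivity)
    linarith
  have h4N : (0 : ℝ) ≤ 4 * N := by positivity
  have e1 := mul_le_mul_of_nonneg_left (hc1.trans hd1) h4N
  have e2 := mul_le_mul_of_nonneg_left (hc2.trans hd2) h4N
  have e3 := mul_le_mul_of_nonneg_left (hc3.trans hd3) h4N
  linarith

end Pool.Agent.Lib.MP_629a14_nt.Th
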