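import Pool.Agent.Lib.MP_629a14_nt.Th.Fin
import Pool.Agent.Lib.MP_629a14_nt.LargeSieve

/-! The multiplicative large sieve on intervals. -/

set_option autoImplicit false

namespace Pool.Agent.Lib.MP_629a14_nt.Th

open Finset Pool.Agent.Lib.MP_629a14_nt

/-! ### The additive large sieve -/

private theorem mls_sep {q q' a a' : ℕ} (hq : 1 ≤ q) (hq' : 1 ≤ q') (ha : a < q)
    (ha' : a' < q') (hc : a.Coprime q) (hc' : a'.Coprime q')
    (hne : (⟨q, a⟩ : Σ _ : ℕ, ℕ) ≠ ⟨q', a'⟩) (n : ℤ) :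
    1 / ((q : ℝ) * q') ≤ |(a : ℝ) / q - (a' : ℝ) / q' - n| := by
  have hq0 : (0 : ℝ) < q := by exact_mod_cast hq
  have hq0' : (0 : ℝ) < q' := by exact_mod_cast hq'
  set h : ℤ := a * q' - a' * q - n * (q * q') with hh
  have h1 : (a : ℝ) / q - (a' : ℝ) / q' - n = (h : ℝ) / (q * q') := by
    rw [hh]
    push_cast
    field_simp
  have hne0 : h ≠ 0 := by
    intro h0
    have e0 : (a : ℤ) * q' - a' * q - n * (q * q') = 0 := h0
    have h2 : (a : ℤ) * q' = q * (a' + n * q') := by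
      linear_combination e0
    have h2' : (a' : ℤ) * q = q' * (a - n * q) := by
      linear_combination -e0
    have h3 : (q : ℤ) ∣ a * q' := ⟨_, h2⟩
    have h3' : (q' : ℤ) ∣ a' * q := ⟨_, h2'⟩
    have h4 : q ∣ a * q' := by exact_mod_cast h3
    have h4' : q' ∣ a' * q := by exact_mod_cast h3'
    have h5 : q ∣ q' := (Nat.Coprime.dvd_mul_left hc.symm).1 h4
    have h5' : q' ∣ q := (Nat.Coprime.dvd_mul_left hc'.symm).1 h4'
    have h6 : q = q' := Nat.dvd_antisymm h5 h5'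
    subst h6
    have hqz : (q : ℤ) ≠ 0 := by
      have : (0 : ℤ) < q := by exact_mod_cast hq
      exact this.ne'
    have h7 : (a : ℤ) = a' + n * q := by
      have : (q : ℤ) * a = q * (a' + n * q) := by linear_combination h2
      exact mul_left_cancel₀ hqz this
    have h8 : n = 0 := by
      have h9 : (n : ℤ) * q = a - a' := by linear_combination -h7
      have h10 : |n * (q : ℤ)| < q := by
        rw [h9, abs_lt]
        constructor <;> omega
      rw [abs_mul, Nat.abs_cast] at h10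
      have hqz' : (0 : ℤ) < q := by exact_mod_cast hq
      have h11 : |n| < 1 := by nlinarith
      exact Int.abs_lt_one_iff.1 h11
    rw [h8, zero_mul, add_zero] at h7
    apply hne
    have : a = a' := by exact_mod_cast h7
    rw [this]
  rw [h1, abs_div, abs_of_pos (show (0 : ℝ) < q * q' by positivity)]
  refine div_le_div_of_nonneg_right ?_ (by positivity)
  have : (1 : ℤ) ≤ |h| := Int.one_le_abs hne0
  exact_mod_cast this

/-- The large sieve with coefficients on an interval. -/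
private theorem mls_ls {ι : Type*} (R : Finset ι) (t : ι → ℝ) {δ : ℝ} (hδ : 0 < δ)
    (hsep : ∀ r ∈ R, ∀ s ∈ R, r ≠ s → ∀ n : ℤ, δ ≤ |t r - t s - n|) {A B M : ℕ} (hAB : A ≤ B)
    (hNM : B - A ≤ M) (hM : 1 / δ ≤ M) (a : ℕ → ℂ) :
    ∑ r ∈ R, ‖∑ n ∈ Ioc A B, a n * ee (n * t r)‖ ^ 2 ≤ 5 * M * ∑ n ∈ Ioc A B, ‖a n‖ ^ 2 := by
  set S : ι → ℂ := fun r => ∑ n ∈ Ioc A B, a n * ee (n * t r) with hS
  set Z : ℝ := ∑ r ∈ R, ‖S r‖ ^ 2 with hZ
  have hZ0 : 0 ≤ Z := sum_nonneg fun _ _ => by positivity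
  set c : ι → ℂ := fun r => (starRingEnd ℂ) (S r) * ee (A * t r) with hc
  set D : ℕ → ℂ := fun n => ∑ r ∈ R, (starRingEnd ℂ) (S r) * ee (n * t r) with hD
  have hdual := ls_dual R t hδ hsep hNM hM c
  have hcn : ∀ r, ‖c r‖ = ‖S r‖ := by
    intro r
    simp only [hc, norm_mul, Complex.norm_conj, norm_ee, mul_one]
  simp only [hcn] at hdual
  rw [← hZ] at hdual
  have hDc : ∀ m : ℕ, lsF R t c (m : ℤ) = D (A + m) := by
    intro m
    simp only [lsF, hD, hc]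
    refine sum_congr rfl fun r _ => ?_
    rw [mul_assoc, ← ee_add]
    congr 2
    push_cast
    ring
  have hsumD : ∑ n ∈ Ioc A B, ‖D n‖ ^ 2 = ∑ m ∈ Icc 1 (B - A), ‖lsF R t c (m : ℤ)‖ ^ 2 := by
    symm
    refine sum_nbij' (fun m => A + m) (fun n => n - A) ?_ ?_ ?_ ?_ ?_
    · intro m hm
      rw [mem_Icc] at hm
      rw [mem_Ioc]
      omega
    · intro n hn
      rw [mem_Ioc] at hn
      rw [mem_Icc]
      omega
    · intro m hm
      simp
    · intro n hn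
      rw [mem_Ioc] at hn
      omega
    · intro m hm
      rw [hDc]
  rw [← hsumD] at hdual
  have h1 : ((Z : ℝ) : ℂ) = ∑ n ∈ Ioc A B, a n * D n := by
    simp only [hD, mul_sum]
    rw [sum_comm, hZ, Complex.ofReal_sum]
    refine sum_congr rfl fun r _ => ?_
    have e : ∀ n : ℕ, a n * ((starRingEnd ℂ) (S r) * ee (n * t r)) =
        (starRingEnd ℂ) (S r) * (a n * ee (n * t r)) := fun n => by ring
    simp only [e]
    rw [← mul_sum, Complex.ofReal_pow, ← Complex.conj_mul']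
  have h2 : Z ≤ ∑ n ∈ Ioc A B, ‖a n‖ * ‖D n‖ := by
    calc Z = ‖((Z : ℝ) : ℂ)‖ := by rw [Complex.norm_real, Real.norm_of_nonneg hZ0]
      _ ≤ ∑ n ∈ Ioc A B, ‖a n * D n‖ := by
          rw [h1]
          exact norm_sum_le _ _
      _ = _ := by simp only [norm_mul]
  have h3 : (∑ n ∈ Ioc A B, ‖a n‖ * ‖D n‖) ^ 2 ≤
      (∑ n ∈ Ioc A B, ‖a n‖ ^ 2) * ∑ n ∈ Ioc A B, ‖D n‖ ^ 2 := sum_mul_sq_le_sq_mul_sq _ _ _
  have hA0 : 0 ≤ ∑ n ∈ Ioc A B, ‖a n‖ ^ 2 := sum_nonneg fun _ _ => by positivity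
  have h5 : Z ^ 2 ≤ (5 * M * ∑ n ∈ Ioc A B, ‖a n‖ ^ 2) * Z := by
    calc Z ^ 2 ≤ (∑ n ∈ Ioc A B, ‖a n‖ * ‖D n‖) ^ 2 := pow_le_pow_left₀ hZ0 h2 2
      _ ≤ (∑ n ∈ Ioc A B, ‖a n‖ ^ 2) * ∑ n ∈ Ioc A B, ‖D n‖ ^ 2 := h3
      _ ≤ (∑ n ∈ Ioc A B, ‖a n‖ ^ 2) * (5 * M * Z) := mul_le_mul_of_nonneg_left hdual hA0
      _ = _ := by ring
  rcases hZ0.eq_or_lt with h6 | h6
  · rw [← h6]
    positivity
  · have h7 : Z * Z ≤ (5 * M * ∑ n ∈ Ioc A B, ‖a n‖ ^ 2) * Z := by rw [← sq]; exact h5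
    exact le_of_mul_le_mul_right h7 h6

/-- The additive large sieve for the Farey fractions with denominators `≤ Q` (spacing `≥ 1/Q²` mod 1), on any
interval `(A, B]`. See `large_sieve`/`ls_dual` in `LargeSieve.lean` (shift the interval by a phase). -/
theorem add_ls : ∃ C : ℝ, 1 ≤ C ∧ ∀ (Q A B : ℕ) (a : ℕ → ℂ), A ≤ B →
    ∑ q ∈ Icc 1 Q, ∑ b ∈ (range q).filter (fun b => b.Coprime q),
      ‖∑ n ∈ Ioc A B, a n * ee (n * b / q)‖ ^ 2 ≤
      C * (((B : ℝ) - A) + Q ^ 2) * ∑ n ∈ Ioc A B, ‖a n‖ ^ 2 := by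
  refine ⟨5, by norm_num, ?_⟩
  intro Q A B a hAB
  have hBA : (0 : ℝ) ≤ (B : ℝ) - A := sub_nonneg.2 (by exact_mod_cast hAB)
  have hA0 : 0 ≤ ∑ n ∈ Ioc A B, ‖a n‖ ^ 2 := sum_nonneg fun _ _ => by positivity
  rcases Nat.eq_zero_or_pos Q with h0 | hQ
  · subst h0
    simp only [Icc_eq_empty_of_lt Nat.zero_lt_one, sum_empty]
    positivity
  have hQR : (0 : ℝ) < Q := by exact_mod_cast hQ
  set R : Finset (Σ _ : ℕ, ℕ) :=
    (Icc 1 Q).sigma (fun q => (range q).filter (fun b => b.Coprime q)) with hR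
  have h1 := mls_ls R (fun r => (r.2 : ℝ) / r.1) (δ := 1 / (Q : ℝ) ^ 2) (by positivity) (by
    rintro ⟨q, b⟩ hr ⟨q', b'⟩ hs hne n
    rw [hR, mem_sigma, mem_Icc, mem_filter, mem_range] at hr hs
    simp only at hr hs ⊢
    refine le_trans ?_ (mls_sep hr.1.1 hs.1.1 hr.2.1 hs.2.1 hr.2.2 hs.2.2 hne n)
    have b1 : (q : ℝ) ≤ Q := by exact_mod_cast hr.1.2
    have b2 : (q' : ℝ) ≤ Q := by exact_mod_cast hs.1.2
    have c1 : (0 : ℝ) < q := by exact_mod_cast hr.1.1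
    have c2 : (0 : ℝ) < q' := by exact_mod_cast hs.1.1
    apply one_div_le_one_div_of_le (by positivity)
    rw [sq]
    gcongr) hAB (M := (B - A) + Q ^ 2) (by omega) (by
    rw [one_div_one_div]
    push_cast
    have : (0 : ℝ) ≤ ((B - A : ℕ) : ℝ) := Nat.cast_nonneg _
    linarith) a
  rw [hR, sum_sigma] at h1
  push_cast [Nat.cast_sub hAB] at h1
  refine le_trans (le_of_eq ?_) h1
  refine sum_congr rfl fun q _ => sum_congr rfl fun b _ => ?_
  congr 2
  refine sum_congr rfl fun n _ => ?_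
  rw [mul_div_assoc]

/-! ### Characters -/

private theorem mls_orth (q : ℕ) [NeZero q] (f : ZMod q → ℂ) :
    ∑ χ : DirichletCharacter ℂ q, ‖∑ b : ZMod q, χ b * f b‖ ^ 2 =
      (q.totient : ℝ) * ∑ b ∈ univ.filter (fun b : ZMod q => IsUnit b), ‖f b‖ ^ 2 := by
  classical
  have key : ∀ a b : ZMod q, ∑ χ : DirichletCharacter ℂ q, (starRingEnd ℂ) (χ a) * χ b =
      if IsUnit a ∧ a = b then (q.totient : ℂ) else 0 := by
    intro a b
    by_cases ha : IsUnit a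
    · have h1 := DirichletCharacter.sum_char_inv_mul_char_eq (R := ℂ) ha b
      have h0 : (if IsUnit a ∧ a = b then (q.totient : ℂ) else 0) =
          if a = b then (q.totient : ℂ) else 0 := by simp [ha]
      rw [h0, ← h1]
      refine sum_congr rfl fun χ _ => ?_
      congr 1
      have h2 : χ a⁻¹ * χ a = 1 := by
        rw [← map_mul, ZMod.inv_mul_of_unit a ha, map_one]
      have hn : ‖χ a‖ = 1 := by
        have := DirichletCharacter.unit_norm_eq_one χ ha.unit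
        simpa using this
      have h3 : (starRingEnd ℂ) (χ a) * χ a = 1 := by
        rw [Complex.conj_mul', hn]
        norm_num
      have h4 : χ a ≠ 0 := by
        intro h
        rw [h, norm_zero] at hn
        exact zero_ne_one hn
      exact mul_right_cancel₀ h4 (h3.trans h2.symm)
    · have h0 : (if IsUnit a ∧ a = b then (q.totient : ℂ) else 0) = 0 := by simp [ha]
      rw [h0]
      refine sum_eq_zero fun χ _ => ?_
      rw [MulChar.map_nonunit χ ha, map_zero, zero_mul]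
  have h : ((∑ χ : DirichletCharacter ℂ q, ‖∑ b : ZMod q, χ b * f b‖ ^ 2 : ℝ) : ℂ) =
      (((q.totient : ℝ) * ∑ b ∈ univ.filter (fun b : ZMod q => IsUnit b), ‖f b‖ ^ 2 : ℝ) : ℂ) := by
    rw [Complex.ofReal_sum]
    have e1 : ∀ χ : DirichletCharacter ℂ q, ((‖∑ b : ZMod q, χ b * f b‖ ^ 2 : ℝ) : ℂ) =
        ∑ a : ZMod q, ∑ b : ZMod q,
          ((starRingEnd ℂ) (f a) * f b) * ((starRingEnd ℂ) (χ a) * χ b) := by
      intro χ
      rw [Complex.ofReal_pow, ← Complex.conj_mul', map_sum, sum_mul]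
      refine sum_congr rfl fun a _ => ?_
      rw [mul_sum]
      refine sum_congr rfl fun b _ => ?_
      rw [map_mul]
      ring
    simp only [e1]
    rw [sum_comm]
    have e2 : ∀ a : ZMod q, ∑ χ : DirichletCharacter ℂ q, ∑ b : ZMod q,
        ((starRingEnd ℂ) (f a) * f b) * ((starRingEnd ℂ) (χ a) * χ b) =
        if IsUnit a then (q.totient : ℂ) * ((‖f a‖ ^ 2 : ℝ) : ℂ) else 0 := by
      intro a
      rw [sum_comm]
      simp only [← mul_sum, key]
      by_cases ha : IsUnit a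
      · simp only [ha, true_and, if_true, mul_ite, mul_zero, sum_ite_eq, mem_univ]
        rw [Complex.ofReal_pow, ← Complex.conj_mul']
        ring
      · simp [ha]
    simp only [e2]
    rw [← sum_filter, Complex.ofReal_mul, Complex.ofReal_sum, mul_sum]
    simp
  exact_mod_cast h

private theorem mls_pars (q : ℕ) [NeZero q] (f : ZMod q → ℂ) :
    ∑ a : ZMod q, ‖∑ b : ZMod q, f b * ZMod.stdAddChar (a * b)‖ ^ 2 =
      (q : ℝ) * ∑ b : ZMod q, ‖f b‖ ^ 2 := by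
  classical
  have key : ∀ b c : ZMod q, ∑ a : ZMod q,
      (starRingEnd ℂ) (ZMod.stdAddChar (a * b)) * (ZMod.stdAddChar (a * c) : ℂ) =
      if b = c then (q : ℂ) else 0 := by
    intro b c
    have h1 := AddChar.sum_mulShift (c - b) (ZMod.isPrimitive_stdAddChar q)
    have e : ∀ a : ZMod q,
        (starRingEnd ℂ) (ZMod.stdAddChar (a * b)) * (ZMod.stdAddChar (a * c) : ℂ) =
        ZMod.stdAddChar (a * (c - b)) := by
      intro a
      rw [← AddChar.map_neg_eq_conj, ← AddChar.map_add_eq_mul]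
      congr 1
      ring
    simp only [e]
    rw [h1]
    have h2 : (c - b = 0) ↔ (b = c) := by
      rw [sub_eq_zero]
      exact eq_comm
    simp only [h2, ZMod.card]
    split_ifs <;> simp
  have h : ((∑ a : ZMod q, ‖∑ b : ZMod q, f b * ZMod.stdAddChar (a * b)‖ ^ 2 : ℝ) : ℂ) =
      (((q : ℝ) * ∑ b : ZMod q, ‖f b‖ ^ 2 : ℝ) : ℂ) := by
    rw [Complex.ofReal_sum]
    have e1 : ∀ a : ZMod q, ((‖∑ b : ZMod q, f b * ZMod.stdAddChar (a * b)‖ ^ 2 : ℝ) : ℂ) =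
        ∑ b : ZMod q, ∑ c : ZMod q, ((starRingEnd ℂ) (f b) * f c) *
          ((starRingEnd ℂ) (ZMod.stdAddChar (a * b)) * (ZMod.stdAddChar (a * c) : ℂ)) := by
      intro a
      rw [Complex.ofReal_pow, ← Complex.conj_mul', map_sum, sum_mul]
      refine sum_congr rfl fun b _ => ?_
      rw [mul_sum]
      refine sum_congr rfl fun c _ => ?_
      rw [map_mul]
      ring
    simp only [e1]
    rw [sum_comm]
    have e2 : ∀ b : ZMod q, ∑ a : ZMod q, ∑ c : ZMod q, ((starRingEnd ℂ) (f b) * f c) *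
          ((starRingEnd ℂ) (ZMod.stdAddChar (a * b)) * (ZMod.stdAddChar (a * c) : ℂ)) =
        (q : ℂ) * ((‖f b‖ ^ 2 : ℝ) : ℂ) := by
      intro b
      rw [sum_comm]
      simp only [← mul_sum, key]
      simp only [mul_ite, mul_zero, sum_ite_eq, mem_univ, if_true]
      rw [Complex.ofReal_pow, ← Complex.conj_mul']
      ring
    simp only [e2]
    rw [Complex.ofReal_mul, Complex.ofReal_sum, mul_sum]
    simp
  exact_mod_cast h

private theorem mls_shift (q : ℕ) [NeZero q] (χ : DirichletCharacter ℂ q) (h : χ.IsPrimitive)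
    (a : ZMod q) : ∑ b : ZMod q, χ b * ZMod.stdAddChar (a * b) =
      χ⁻¹ a * gaussSum χ ZMod.stdAddChar := by
  rw [← gaussSum_mulShift_of_isPrimitive _ h a]
  unfold gaussSum
  rfl

private theorem mls_inv (q : ℕ) [NeZero q] (χ : DirichletCharacter ℂ q) (a : ZMod q) :
    χ⁻¹ a = (starRingEnd ℂ) (χ a) := by
  rw [← MulChar.star_apply' χ a]
  rfl

private theorem mls_gauss (q : ℕ) [NeZero q] (χ : DirichletCharacter ℂ q) (h : χ.IsPrimitive) :
    ‖gaussSum χ ZMod.stdAddChar‖ ^ 2 = q := by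
  have h1 := mls_pars q (fun b => χ b)
  simp only [mls_shift q χ h, norm_mul, mls_inv, Complex.norm_conj, mul_pow] at h1
  rw [← sum_mul] at h1
  have h2 : 0 < ∑ b : ZMod q, ‖χ b‖ ^ 2 := by
    refine sum_pos' (fun _ _ => by positivity) ⟨1, mem_univ _, ?_⟩
    rw [map_one]
    norm_num
  have h3 : (∑ b : ZMod q, ‖χ b‖ ^ 2) * ‖gaussSum χ ZMod.stdAddChar‖ ^ 2 =
      (∑ b : ZMod q, ‖χ b‖ ^ 2) * q := by rw [h1]; ring
  exact mul_left_cancel₀ h2.ne' h3

private theorem mls_std (q : ℕ) [NeZero q] (n b : ℕ) :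
    (ZMod.stdAddChar ((n : ZMod q) * (b : ZMod q)) : ℂ) = ee (n * b / q) := by
  have h : ((n : ZMod q) * (b : ZMod q)) = (((n * b : ℕ) : ℤ) : ZMod q) := by
    push_cast
    ring
  rw [h, ZMod.stdAddChar_coe]
  unfold ee
  congr 1
  push_cast
  ring

private theorem mls_units (q : ℕ) [NeZero q] (g : ℕ → ℝ) (f : ZMod q → ℝ)
    (hf : ∀ b : ℕ, f (b : ZMod q) = g b) :
    ∑ b ∈ univ.filter (fun b : ZMod q => IsUnit b), f b =
      ∑ b ∈ (range q).filter (fun b => b.Coprime q), g b := by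
  symm
  refine sum_nbij' (fun b : ℕ => (b : ZMod q)) (fun b : ZMod q => b.val) ?_ ?_ ?_ ?_ ?_
  · intro b hb
    rw [mem_filter] at hb ⊢
    exact ⟨mem_univ _, (ZMod.isUnit_iff_coprime b q).2 hb.2⟩
  · intro b hb
    rw [mem_filter] at hb ⊢
    refine ⟨mem_range.2 (ZMod.val_lt b), ?_⟩
    have := hb.2
    rw [← ZMod.natCast_zmod_val b, ZMod.isUnit_iff_coprime] at this
    exact this
  · intro b hb
    rw [mem_filter, mem_range] at hb
    exact ZMod.val_cast_of_lt hb.1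
  · intro b _
    exact ZMod.natCast_zmod_val b
  · intro b _
    exact (hf b).symm

private theorem mls_one (q : ℕ) [NeZero q] (A B : ℕ) (a : ℕ → ℂ) :
    ∑ χ ∈ PR q, ‖∑ n ∈ Ioc A B, a n * χ (n : ZMod q)‖ ^ 2 ≤
      ∑ b ∈ (range q).filter (fun b => b.Coprime q),
        ‖∑ n ∈ Ioc A B, (starRingEnd ℂ) (a n) * ee (n * b / q)‖ ^ 2 := by
  set f : ZMod q → ℂ := fun b =>
    ∑ n ∈ Ioc A B, (starRingEnd ℂ) (a n) * ZMod.stdAddChar ((n : ZMod q) * b) with hf
  have h1 : ∀ χ ∈ PR q, (q : ℝ) * ‖∑ n ∈ Ioc A B, a n * χ (n : ZMod q)‖ ^ 2 =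
      ‖∑ b : ZMod q, χ b * f b‖ ^ 2 := by
    intro χ hχ
    have hp : χ.IsPrimitive := (mem_PR q χ).1 hχ
    have e1 : ∑ b : ZMod q, χ b * f b = (∑ n ∈ Ioc A B, (starRingEnd ℂ) (a n) *
        χ⁻¹ (n : ZMod q)) * gaussSum χ ZMod.stdAddChar := by
      simp only [hf, mul_sum]
      rw [sum_comm, sum_mul]
      refine sum_congr rfl fun n _ => ?_
      rw [mul_assoc, ← mls_shift q χ hp, mul_sum]
      refine sum_congr rfl fun b _ => ?_
      ring
    have e2 : ∑ n ∈ Ioc A B, (starRingEnd ℂ) (a n) * χ⁻¹ (n : ZMod q) =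
        (starRingEnd ℂ) (∑ n ∈ Ioc A B, a n * χ (n : ZMod q)) := by
      rw [map_sum]
      refine sum_congr rfl fun n _ => ?_
      rw [mls_inv, map_mul]
    rw [e1, e2, norm_mul, Complex.norm_conj, mul_pow, mls_gauss q χ hp]
    ring
  have h2 : (q : ℝ) * ∑ χ ∈ PR q, ‖∑ n ∈ Ioc A B, a n * χ (n : ZMod q)‖ ^ 2 ≤
      (q.totient : ℝ) * ∑ b ∈ univ.filter (fun b : ZMod q => IsUnit b), ‖f b‖ ^ 2 := by
    rw [mul_sum, sum_congr rfl h1, ← mls_orth]
    exact sum_le_sum_of_subset_of_nonneg (subset_univ _) (fun _ _ _ => by positivity)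
  have h3 : ∑ b ∈ univ.filter (fun b : ZMod q => IsUnit b), ‖f b‖ ^ 2 =
      ∑ b ∈ (range q).filter (fun b => b.Coprime q),
        ‖∑ n ∈ Ioc A B, (starRingEnd ℂ) (a n) * ee (n * b / q)‖ ^ 2 := by
    refine mls_units q _ (fun b => ‖f b‖ ^ 2) ?_
    intro b
    simp only [hf, mls_std]
  rw [h3] at h2
  have hq : (0 : ℝ) < q := by exact_mod_cast NeZero.pos q
  have h4 : (q.totient : ℝ) ≤ q := by exact_mod_cast Nat.totient_le q
  have h5 : 0 ≤ ∑ b ∈ (range q).filter (fun b => b.Coprime q),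
        ‖∑ n ∈ Ioc A B, (starRingEnd ℂ) (a n) * ee (n * b / q)‖ ^ 2 :=
    sum_nonneg fun _ _ => by positivity
  exact le_of_mul_le_mul_left (h2.trans (mul_le_mul_of_nonneg_right h4 h5)) hq

/-- For primitive `χ` mod `q`: `χ(n) τ(χ⁻¹) = ∑_b χ⁻¹(b) e(bn/q)`, `‖τ‖² = q` (Mathlib: `gaussSum` lemmas in
`NumberTheory/DirichletCharacter/GaussSum`, `gaussSum_mul_gaussSum_eq_card` ...), and by orthogonality of the
characters `∑_{χ mod q} ‖∑_b χ⁻¹(b) S(b/q)‖² = φ(q) ∑_b ‖S(b/q)‖²`. -/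
theorem mul_ls : ∃ C : ℝ, 1 ≤ C ∧ ∀ (Q A B : ℕ) (a : ℕ → ℂ), A ≤ B →
    ∑ x ∈ prims Q, ‖∑ n ∈ Ioc A B, a n * x.2 (n : ZMod x.1)‖ ^ 2 ≤
      C * (((B : ℝ) - A) + Q ^ 2) * ∑ n ∈ Ioc A B, ‖a n‖ ^ 2 := by
  obtain ⟨C, hC, h⟩ := add_ls
  refine ⟨C, hC, ?_⟩
  intro Q A B a hAB
  have h1 := h Q A B (fun n => (starRingEnd ℂ) (a n)) hAB
  simp only [Complex.norm_conj] at h1
  refine le_trans ?_ h1
  unfold prims
  rw [sum_sigma]
  refine sum_le_sum fun q hq => ?_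
  rw [mem_Icc] at hq
  haveI : NeZero q := ⟨by omega⟩
  exact mls_one q A B a

end Pool.Agent.Lib.MP_629a14_nt.Th
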