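import Pool.Agent.Lib.MP_629a14_nt.Th.Lower
import Pool.Agent.Lib.MP_629a14_nt.Th.Pos

/-! Zero-free region: real characters, complex zeros. -/

set_option autoImplicit false

namespace Pool.Agent.Lib.MP_629a14_nt.Th

open Finset

private theorem zfrB_sq {z : ℂ} (h : z ^ 2 = 1) : z = 1 ∨ z = -1 := by
  have : (z - 1) * (z + 1) = 0 := by ring_nf; rw [h]; ring
  rcases mul_eq_zero.1 this with h | h
  · left; linear_combination h
  · right; linear_combination h

private theorem zfrB_chi_conj (q : ℕ) [NeZero q] (χ : DirichletCharacter ℂ q) (h2 : χ ^ 2 = 1) (a : ZMod q) :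
    (starRingEnd ℂ) (χ a) = χ a := by
  by_cases ha : IsUnit a
  · have h : χ a ^ 2 = 1 := by
      rw [← MulChar.pow_apply' χ two_ne_zero, h2, MulChar.one_apply ha]
    rcases zfrB_sq h with h' | h'
    · rw [h']; simp
    · rw [h']; simp
  · rw [MulChar.map_nonunit χ ha]; simp

/-- `L(conj s, χ) = conj L(s, χ)` for a real character. -/
theorem conj_zero (q : ℕ) [NeZero q] (χ : DirichletCharacter ℂ q) (hχ : χ ≠ 1) (h2 : χ ^ 2 = 1) (ρ : ℂ)
    (h : χ.LFunction ρ = 0) : χ.LFunction ((starRingEnd ℂ) ρ) = 0 := by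
  have hd := DirichletCharacter.differentiable_LFunction hχ
  have hf : AnalyticOnNhd ℂ χ.LFunction Set.univ := fun z _ => hd.analyticAt z
  have hgd : Differentiable ℂ (fun z => (starRingEnd ℂ) (χ.LFunction ((starRingEnd ℂ) z))) := fun z =>
    differentiableAt_conj_conj_iff.mpr (hd _)
  have hg : AnalyticOnNhd ℂ (fun z => (starRingEnd ℂ) (χ.LFunction ((starRingEnd ℂ) z))) Set.univ :=
    fun z _ => hgd.analyticAt z
  have hz : ∀ z : ℂ, 1 < z.re → (starRingEnd ℂ) (χ.LFunction ((starRingEnd ℂ) z)) = χ.LFunction z := by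
    intro z hz
    rw [DirichletCharacter.LFunction_eq_LSeries χ (s := (starRingEnd ℂ) z) (by rwa [Complex.conj_re]),
      DirichletCharacter.LFunction_eq_LSeries χ hz]
    unfold LSeries
    rw [Complex.conj_tsum]
    refine tsum_congr fun n => ?_
    rcases Nat.eq_zero_or_pos n with rfl | hn
    · simp
    · rw [LSeries.term_of_ne_zero hn.ne', LSeries.term_of_ne_zero hn.ne', map_div₀, zfrB_chi_conj q χ h2]
      congr 1
      rw [← Complex.conj_cpow _ _ (by rw [Complex.natCast_arg]; exact Real.pi_pos.ne), Complex.conj_natCast]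
  have heq : (fun z => (starRingEnd ℂ) (χ.LFunction ((starRingEnd ℂ) z))) = χ.LFunction := by
    refine hg.eq_of_eventuallyEq hf (z₀ := 2) ?_
    refine Filter.eventuallyEq_of_mem
          ((isOpen_lt continuous_const Complex.continuous_re).mem_nhds (by norm_num)) hz
  have := congrFun heq ((starRingEnd ℂ) ρ)
  rw [← this]
  simp [h]

/-- Proof. `ρ = β + iγ`, `γ ≠ 0`, `ℓ = log(q(|γ|+3)) ≥ 1`; suppose `β ≥ 15/16`. Let `η ≤ 1/64` be a small
absolute constant.
Case 1, `|γ| ≥ η/ℓ`: take `σ = 1 + η/ℓ`; `pos341` (with `χ² = 1`), `upper_triv` at `0` and at `2γ`,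
`lower_chi` at `γ`, `S = {ρ}`: `4/(σ-β) ≤ 3/(σ-1) + (σ-1)/((σ-1)²+4γ²) + Cℓ ≤ 3.2/(σ-1) + Cℓ`,
so `1-β ≥ (4/(3.2+Cη) - 1) η/ℓ`.
Case 2, `0 < |γ| < η/ℓ`: `ρ` and its conjugate are distinct zeros (`conj_zero`), both at distance `≤ 1/4`
from `ctr 0`; take `σ = 1 + 4η/ℓ`; `pos_real`, `upper_zeta` (`t = 0`, `S = ∅`), `lower_chi` at `t = 0` with
`S = {ρ, conj ρ}`: `2(σ-β)/((σ-β)²+γ²) ≤ 1/(σ-1) + Cℓ`; since `|γ| ≤ (σ-1)/4 ≤ (σ-β)/4` the left side is
at least `(32/17)/(σ-β)`, and again `1-β ≥ c/ℓ`. -/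
theorem zfrB : ∃ c : ℝ, 0 < c ∧ ∀ (q : ℕ) [NeZero q] (χ : DirichletCharacter ℂ q), χ ≠ 1 → χ ^ 2 = 1 →
    ∀ ρ : ℂ, χ.LFunction ρ = 0 → ρ.im ≠ 0 → ρ.re ≤ 1 - c / Real.log (q * (|ρ.im| + 3)) := by
  obtain ⟨C1, hC1, hL⟩ := lower_chi
  obtain ⟨C2, hC2, hZ⟩ := upper_zeta
  obtain ⟨C3, hC3, hT⟩ := upper_triv
  set K : ℝ := 5 * C3 + 4 * C1 + C1 + C2 with hK
  have hK1 : 1 ≤ K := by rw [hK]; linarith
  set η : ℝ := 1 / (64 * K) with hη
  have hη0 : 0 < η := by rw [hη]; positivity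
  have hηK : η * K = 1 / 64 := by rw [hη]; field_simp
  have hη1 : η ≤ 1 / 64 := by nlinarith
  refine ⟨η / 9, by positivity, ?_⟩
  intro q _ χ hχ h2 ρ hρ hγ
  set β := ρ.re with hβ
  set γ := ρ.im with hγdef
  have hq1 : (1 : ℝ) ≤ q := by exact_mod_cast Nat.one_le_iff_ne_zero.2 (NeZero.ne q)
  have hγ0 : 0 < |γ| := abs_pos.2 hγ
  set ℓ := Real.log (q * (|γ| + 3)) with hℓ
  have hℓ1 : 1 ≤ ℓ := by
    rw [hℓ, Real.le_log_iff_exp_le (by positivity)]
    have := Real.exp_one_lt_d9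
    nlinarith
  have hℓ0 : 0 < ℓ := by linarith
  have hlogq3 : Real.log (q * (|(0 : ℝ)| + 3)) ≤ ℓ := by
    rw [abs_zero, zero_add, hℓ]
    apply Real.log_le_log (by positivity)
    nlinarith
  have hlog3 : Real.log (|(0 : ℝ)| + 3) ≤ ℓ := by
    rw [abs_zero, zero_add, hℓ]
    apply Real.log_le_log (by positivity)
    nlinarith
  have hlog2 : Real.log (q * (|2 * γ| + 3)) ≤ 2 * ℓ := by
    have e1 : (q : ℝ) * (|2 * γ| + 3) ≤ 2 * (q * (|γ| + 3)) := by
      rw [abs_mul, abs_of_pos (by norm_num : (0 : ℝ) < 2)]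
      nlinarith
    have e2 : Real.log (2 * (q * (|γ| + 3))) = Real.log 2 + ℓ := by
      rw [Real.log_mul (by norm_num) (by positivity)]
    have e3 := Real.log_two_lt_d9
    have e4 := Real.log_le_log (by positivity) e1
    linarith
  have hβ1 : β < 1 := by
    by_contra hcon
    push Not at hcon
    exact DirichletCharacter.LFunction_ne_zero_of_one_le_re χ (.inl hχ) hcon hρ
  rcases lt_or_ge β (15 / 16) with hb | hb
  · have : η / 9 / ℓ ≤ η / 9 := div_le_self (by positivity) hℓ1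
    linarith
  -- it suffices to bound `1 - β` from below by `x/9`, `x ≥ η/ℓ`
  have key : ∀ x : ℝ, η / ℓ ≤ x → x / 9 ≤ 1 - β → β ≤ 1 - η / 9 / ℓ := by
    intro x hx h
    have : η / 9 / ℓ = (η / ℓ) / 9 := by ring
    rw [this]; linarith
  rcases le_or_gt (η / ℓ) |γ| with hc | hc
  · -- case 1
    set x := η / ℓ with hx
    have hx0 : 0 < x := by positivity
    have hxle : x ≤ 1 / 64 := (div_le_self hη0.le hℓ1).trans hη1
    have hxl : x * ℓ = η := by rw [hx]; field_simp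
    have hs1 : (1 : ℝ) < 1 + x := by linarith
    have hs2 : 1 + x ≤ 17 / 16 := by linarith
    have p := pos341 q χ (1 + x) γ hs1
    rw [h2] at p
    have t0 := hT q 0 (1 + x) hs1 hs2
    have t2 := hT q (2 * γ) (1 + x) hs1 hs2
    have l1 := hL q χ hχ γ (1 + x) hs1 hs2 {ρ} (by
      intro ρ' h'
      rw [Finset.mem_singleton] at h'
      rw [h']
      refine ⟨hρ, ?_⟩
      have : ρ - ctr γ = ((β - 17 / 16 : ℝ) : ℂ) := by
        apply Complex.ext
        · simp [ctr, hβ]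
        · simp [ctr, hγdef]
      rw [this, Complex.norm_real, Real.norm_eq_abs, abs_le]
      constructor <;> linarith)
    rw [Finset.sum_singleton] at l1
    have e1 : (1 / (((1 + x : ℝ) : ℂ) + γ * Complex.I - ρ)).re = 1 / (1 + x - β) := by
      have : (((1 + x : ℝ) : ℂ) + γ * Complex.I - ρ) = ((1 + x - β : ℝ) : ℂ) := by
        apply Complex.ext
        · simp [hβ]
        · simp [hγdef]
      rw [this, one_div, ← Complex.ofReal_inv, Complex.ofReal_re, one_div]
    have e2 : (1 / ((((1 + x : ℝ) : ℂ) - 1) + (0 : ℝ) * Complex.I)).re = 1 / x := by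
      have : ((((1 + x : ℝ) : ℂ) - 1) + (0 : ℝ) * Complex.I) = ((x : ℝ) : ℂ) := by
        push_cast; ring
      rw [this, one_div, ← Complex.ofReal_inv, Complex.ofReal_re, one_div]
    have e3 : (1 / ((((1 + x : ℝ) : ℂ) - 1) + ((2 * γ : ℝ) : ℂ) * Complex.I)).re ≤ 1 / (5 * x) := by
      have : ((((1 + x : ℝ) : ℂ) - 1) + ((2 * γ : ℝ) : ℂ) * Complex.I) = ⟨x, 2 * γ⟩ := by
        apply Complex.ext <;> simp
      rw [this, one_div, Complex.inv_re, Complex.normSq_mk]
      have hg : x * x ≤ γ * γ := by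
        have := mul_self_le_mul_self hx0.le hc
        rwa [abs_mul_abs_self] at this
      simp only
      rw [div_le_div_iff₀ (by nlinarith) (by positivity)]
      nlinarith
    have e4 : ((1 + x : ℝ) : ℂ) + (0 : ℝ) * Complex.I = ((1 + x : ℝ) : ℂ) := by simp
    have e5 : ((1 + x : ℝ) : ℂ) + ((2 * γ : ℝ) : ℂ) * Complex.I = ((1 + x : ℝ) : ℂ) + 2 * γ * Complex.I := by
      push_cast; ring
    rw [e2, e4] at t0
    rw [e5] at t2
    rw [e1, ← hℓ] at l1
    have hd : 0 < 1 + x - β := by linarith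
    have m1 : 4 * (1 / (1 + x - β)) ≤ 3 * (1 / x) + 1 / (5 * x) + K * ℓ := by
      have a1 : C3 * Real.log (q * (|(0 : ℝ)| + 3)) ≤ C3 * ℓ := by
        apply mul_le_mul_of_nonneg_left hlogq3; linarith
      have a2 : C3 * Real.log (q * (|2 * γ| + 3)) ≤ C3 * (2 * ℓ) := by
        apply mul_le_mul_of_nonneg_left hlog2; linarith
      have a3 : K * ℓ = 5 * (C3 * ℓ) + 5 * (C1 * ℓ) + C2 * ℓ := by rw [hK]; ring
      have a4 : 0 ≤ C1 * ℓ := by positivity
      have a5 : 0 ≤ C2 * ℓ := by positivity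
      rw [a3]
      have b1 := e3
      have b2 := t2.trans (add_le_add b1 a2)
      have b3 := t0.trans (add_le_add_right a1 (1 / x))
      generalize (deriv (DirichletCharacter.LFunction (1 : DirichletCharacter ℂ q)) ((1 + x : ℝ) : ℂ) /
        DirichletCharacter.LFunction (1 : DirichletCharacter ℂ q) ((1 + x : ℝ) : ℂ)).re = A0 at *
      linarith
    apply key x le_rfl
    -- `4 x ≤ (3.2 + Kη) (1 + x - β)`
    have m2 : 4 * x ≤ (16 / 5 + η * K) * (1 + x - β) := by
      have b1 : 3 * (1 / x) + 1 / (5 * x) + K * ℓ = (16 / 5 + η * K) / x := by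
        rw [← hxl]; field_simp; ring
      rw [b1, ← div_eq_mul_one_div, div_le_div_iff₀ hd hx0] at m1
      exact m1
    rw [hηK] at m2
    linarith
  · -- case 2
    set x := 4 * (η / ℓ) with hx
    have hx0 : 0 < x := by positivity
    have hηl : η / ℓ ≤ 1 / 64 := (div_le_self hη0.le hℓ1).trans hη1
    have hxle : x ≤ 1 / 16 := by rw [hx]; linarith
    have hxl : x * ℓ = 4 * η := by rw [hx]; field_simp
    have hs1 : (1 : ℝ) < 1 + x := by linarith
    have hs2 : 1 + x ≤ 17 / 16 := by linarith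
    have p := pos_real q χ h2 (1 + x) hs1
    have z0 := hZ 0 (1 + x) hs1 hs2 ∅ (by simp)
    have hcz := conj_zero q χ hχ h2 ρ hρ
    have hne : ρ ≠ (starRingEnd ℂ) ρ := by
      intro h
      have := congrArg Complex.im h
      rw [Complex.conj_im] at this
      apply hγ
      linarith
    have hdist : ∀ g : ℝ, |g| < η / ℓ → ‖(⟨β, g⟩ : ℂ) - ctr 0‖ ≤ 1 / 4 := by
      intro g hg
      have e : (⟨β, g⟩ : ℂ) - ctr 0 = ⟨β - 17 / 16, g⟩ := by
        apply Complex.ext <;> simp [ctr]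
      rw [e]
      refine (Complex.norm_le_abs_re_add_abs_im _).trans ?_
      simp only
      have : |β - 17 / 16| ≤ 1 / 8 := by
        rw [abs_le]; constructor <;> linarith
      linarith
    have l1 := hL q χ hχ 0 (1 + x) hs1 hs2 {ρ, (starRingEnd ℂ) ρ} (by
      intro ρ' h'
      rw [Finset.mem_insert, Finset.mem_singleton] at h'
      rcases h' with rfl | rfl
      · refine ⟨hρ, ?_⟩
        have := hdist γ hc
        exact this
      · refine ⟨hcz, ?_⟩
        have := hdist (-γ) (by rwa [abs_neg])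
        have e : (starRingEnd ℂ) ρ = ⟨β, -γ⟩ := by
          apply Complex.ext <;> simp [hβ, hγdef]
        rw [e]; exact this)
    rw [Finset.sum_pair hne] at l1
    have hd : 0 < 1 + x - β := by linarith
    have eg : ∀ g : ℝ, (1 / (((1 + x : ℝ) : ℂ) + (0 : ℝ) * Complex.I - (⟨β, g⟩ : ℂ))).re =
        (1 + x - β) / ((1 + x - β) * (1 + x - β) + g * g) := by
      intro g
      have : (((1 + x : ℝ) : ℂ) + (0 : ℝ) * Complex.I - (⟨β, g⟩ : ℂ)) = ⟨1 + x - β, -g⟩ := by
        apply Complex.ext <;> simp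
      rw [this, one_div, Complex.inv_re, Complex.normSq_mk]
      simp
    have eρ : ρ = ⟨β, γ⟩ := rfl
    have ecρ : (starRingEnd ℂ) ρ = ⟨β, -γ⟩ := by
      apply Complex.ext <;> simp [hβ, hγdef]
    have s1 : (1 / (((1 + x : ℝ) : ℂ) + (0 : ℝ) * Complex.I - ρ)).re =
        (1 + x - β) / ((1 + x - β) * (1 + x - β) + γ * γ) := eg γ
    have s2 : (1 / (((1 + x : ℝ) : ℂ) + (0 : ℝ) * Complex.I - (starRingEnd ℂ) ρ)).re =
        (1 + x - β) / ((1 + x - β) * (1 + x - β) + γ * γ) := by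
      rw [ecρ, eg (-γ)]; ring_nf
    rw [s1, s2] at l1
    have e2 : (1 / ((((1 + x : ℝ) : ℂ) - 1) + (0 : ℝ) * Complex.I)).re = 1 / x := by
      have : ((((1 + x : ℝ) : ℂ) - 1) + (0 : ℝ) * Complex.I) = ((x : ℝ) : ℂ) := by
        push_cast; ring
      rw [this, one_div, ← Complex.ofReal_inv, Complex.ofReal_re, one_div]
    have e4 : ((1 + x : ℝ) : ℂ) + (0 : ℝ) * Complex.I = ((1 + x : ℝ) : ℂ) := by simp
    rw [e2, e4, Finset.sum_empty] at z0
    rw [e4] at l1
    have hgx : γ * γ ≤ (1 + x - β) * (1 + x - β) / 16 := by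
      have a1 : |γ| ≤ (1 + x - β) / 4 := by
        have : η / ℓ = x / 4 := by rw [hx]; ring
        rw [this] at hc
        linarith
      have a2 := mul_self_le_mul_self hγ0.le a1
      rw [abs_mul_abs_self] at a2
      linarith
    have m0 : 16 / 17 * (1 / (1 + x - β)) ≤ (1 + x - β) / ((1 + x - β) * (1 + x - β) + γ * γ) := by
      rw [← div_eq_mul_one_div, div_le_div_iff₀ hd (by nlinarith [mul_pos hd hd, mul_self_nonneg γ])]
      nlinarith
    have m1 : 32 / 17 * (1 / (1 + x - β)) ≤ 1 / x + K * ℓ := by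
      have a1 : C1 * Real.log (q * (|(0 : ℝ)| + 3)) ≤ C1 * ℓ := by
        apply mul_le_mul_of_nonneg_left hlogq3; linarith
      have a2 : C2 * Real.log (|(0 : ℝ)| + 3) ≤ C2 * ℓ := by
        apply mul_le_mul_of_nonneg_left hlog3; linarith
      have a3 : K * ℓ = 5 * (C3 * ℓ) + 5 * (C1 * ℓ) + C2 * ℓ := by rw [hK]; ring
      have a4 : 0 ≤ C1 * ℓ := by positivity
      have a5 : 0 ≤ C3 * ℓ := by positivity
      rw [a3]
      generalize (1 + x - β) / ((1 + x - β) * (1 + x - β) + γ * γ) = Y at *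
      generalize 1 / (1 + x - β) = W at *
      generalize C1 * Real.log (q * (|(0 : ℝ)| + 3)) = V1 at *
      generalize C2 * Real.log (|(0 : ℝ)| + 3) = V2 at *
      linarith
    apply key x (by rw [hx]; linarith [div_pos hη0 hℓ0])
    have m2 : 32 / 17 * x ≤ (1 + 4 * (η * K)) * (1 + x - β) := by
      have b1 : 1 / x + K * ℓ = (1 + 4 * (η * K)) / x := by
        have : 4 * (η * K) = K * (x * ℓ) := by rw [hxl]; ring
        rw [this]; field_simp
      rw [b1, ← div_eq_mul_one_div, div_le_div_iff₀ hd hx0] at m1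
      exact m1
    rw [hηK] at m2
    linarith

end Pool.Agent.Lib.MP_629a14_nt.Th
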