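import Pool.Agent.Lib.MP_629a14_nt.Th.Lower
import Pool.Agent.Lib.MP_629a14_nt.Th.Pos

/-! Landau: real zeros of two different real characters. -/

set_option autoImplicit false

namespace Pool.Agent.Lib.MP_629a14_nt.Th

open Finset

private theorem ZfrC_re (a b : ℝ) : (1 / ((a : ℂ) - (b : ℂ))).re = 1 / (a - b) := by
  have h : (1 / ((a : ℂ) - (b : ℂ))) = ((1 / (a - b) : ℝ) : ℂ) := by
    push_cast
    rfl
  rw [h, Complex.ofReal_re]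

private theorem ZfrC_ctr {β : ℝ} (h1 : 15 / 16 ≤ β) (h2 : β < 1) : ‖(β : ℂ) - ctr 0‖ ≤ 1 / 4 := by
  have h : (β : ℂ) - ctr 0 = ((β - 17 / 16 : ℝ) : ℂ) := by
    unfold ctr
    push_cast
    ring
  rw [h, Complex.norm_real, Real.norm_eq_abs, abs_le]
  constructor <;> linarith

/-- Proof. The product `ψ` of the two characters modulo `q₁ q₂` is not principal (a real character is its
own inverse). With `ℓ = log(3 q₁ q₂)`, `σ = 1 + η/ℓ`, `pos_two`, `upper_zeta` (`t=0`), `lower_chi` (`t = 0`)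
for `χ₁` with `S = {β₁}`, for `χ₂` with `S = {β₂}` and for `ψ` with `S = ∅` give
`1/(σ-β₁) + 1/(σ-β₂) ≤ 1/(σ-1) + Cℓ`; so with `β = min β₁ β₂`, `2/(σ-β) ≤ 1/(σ-1) + Cℓ`.
(We may assume `β ≥ 15/16`.) -/
theorem zfrC : ∃ c : ℝ, 0 < c ∧ ∀ (q₁ q₂ : ℕ) [NeZero q₁] [NeZero q₂] (χ₁ : DirichletCharacter ℂ q₁)
    (χ₂ : DirichletCharacter ℂ q₂), χ₁ ≠ 1 → χ₂ ≠ 1 → χ₁ ^ 2 = 1 → χ₂ ^ 2 = 1 →
    DirichletCharacter.changeLevel (Dvd.intro q₂ rfl : q₁ ∣ q₁ * q₂) χ₁ ≠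
      DirichletCharacter.changeLevel (Dvd.intro_left q₁ rfl : q₂ ∣ q₁ * q₂) χ₂ →
    ∀ β₁ β₂ : ℝ, χ₁.LFunction β₁ = 0 → χ₂.LFunction β₂ = 0 →
      min β₁ β₂ ≤ 1 - c / Real.log (q₁ * q₂ * 3) := by
  obtain ⟨C0, hC0, H0⟩ := upper_zeta
  obtain ⟨C1, hC1, H1⟩ := lower_chi
  set C : ℝ := C0 + 3 * C1 with hC
  have hC4 : 4 ≤ C := by linarith
  refine ⟨3 / (20 * C), by positivity, ?_⟩
  intro q₁ q₂ _ _ χ₁ χ₂ hχ₁ hχ₂ h₁ h₂ hne β₁ β₂ hβ₁ hβ₂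
  have hq₁ : (1 : ℝ) ≤ q₁ := by exact_mod_cast Nat.one_le_iff_ne_zero.2 (NeZero.ne q₁)
  have hq₂ : (1 : ℝ) ≤ q₂ := by exact_mod_cast Nat.one_le_iff_ne_zero.2 (NeZero.ne q₂)
  set ℓ : ℝ := Real.log (q₁ * q₂ * 3) with hℓ
  have hq : (1 : ℝ) ≤ q₁ * q₂ := by nlinarith
  have hlog3 : 1 ≤ Real.log 3 := by
    rw [Real.le_log_iff_exp_le (by norm_num)]
    have := Real.exp_one_lt_d9
    linarith
  have hℓ3 : Real.log 3 ≤ ℓ := Real.log_le_log (by norm_num) (by linarith)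
  have hℓ1 : 1 ≤ ℓ := hlog3.trans hℓ3
  have hℓ0 : 0 < ℓ := by linarith
  have hℓq₁ : Real.log (q₁ * 3) ≤ ℓ := Real.log_le_log (by positivity) (by nlinarith)
  have hℓq₂ : Real.log (q₂ * 3) ≤ ℓ := Real.log_le_log (by positivity) (by nlinarith)
  have hc : 3 / (20 * C) / ℓ ≤ 1 / 16 := by
    rw [div_div, div_le_div_iff₀ (by positivity) (by norm_num)]
    nlinarith
  have hb₁ : β₁ < 1 := by simpa using re_lt_one_chi q₁ χ₁ hχ₁ β₁ hβ₁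
  have hb₂ : β₂ < 1 := by simpa using re_lt_one_chi q₂ χ₂ hχ₂ β₂ hβ₂
  set β : ℝ := min β₁ β₂ with hβ
  rcases lt_or_ge β (15 / 16) with hlt | hge
  · linarith
  have hg₁ : 15 / 16 ≤ β₁ := hge.trans (min_le_left _ _)
  have hg₂ : 15 / 16 ≤ β₂ := hge.trans (min_le_right _ _)
  have hββ₁ : β ≤ β₁ := min_le_left _ _
  have hββ₂ : β ≤ β₂ := min_le_right _ _
  set η : ℝ := 1 / (4 * C) with hη
  have hη0 : 0 < η := by positivity
  have hη1 : η ≤ 1 / 16 := by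
    rw [hη, div_le_div_iff₀ (by positivity) (by norm_num)]
    linarith
  set σ : ℝ := 1 + η / ℓ with hσ
  have hηℓ : 0 < η / ℓ := by positivity
  have hηℓ1 : η / ℓ ≤ 1 / 16 := (div_le_self hη0.le hℓ1).trans hη1
  have hσ1 : 1 < σ := by linarith
  have hσ2 : σ ≤ 17 / 16 := by linarith
  -- the product
  set A := DirichletCharacter.changeLevel (Dvd.intro q₂ rfl : q₁ ∣ q₁ * q₂) χ₁ with hA
  set B := DirichletCharacter.changeLevel (Dvd.intro_left q₁ rfl : q₂ ∣ q₁ * q₂) χ₂ with hB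
  have hA2 : A * A = 1 := by
    rw [hA, ← map_mul, ← sq, h₁, map_one]
  have hψ : A * B ≠ 1 := by
    intro h
    apply hne
    rw [← mul_one A, ← h, ← mul_assoc, hA2, one_mul]
  have hp := pos_two q₁ q₂ χ₁ χ₂ h₁ h₂ (A * B) rfl σ hσ1
  have e0 := H0 0 σ hσ1 hσ2 ∅ (by simp)
  have e1 := H1 q₁ χ₁ hχ₁ 0 σ hσ1 hσ2 {(β₁ : ℂ)} (by
    intro ρ hρ
    rw [Finset.mem_singleton] at hρ
    rw [hρ]
    exact ⟨hβ₁, ZfrC_ctr hg₁ hb₁⟩)
  have e2 := H1 q₂ χ₂ hχ₂ 0 σ hσ1 hσ2 {(β₂ : ℂ)} (by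
    intro ρ hρ
    rw [Finset.mem_singleton] at hρ
    rw [hρ]
    exact ⟨hβ₂, ZfrC_ctr hg₂ hb₂⟩)
  have e3 := H1 (q₁ * q₂) (A * B) hψ 0 σ hσ1 hσ2 ∅ (by simp)
  simp only [Complex.ofReal_zero, zero_mul, add_zero, abs_zero, zero_add, Finset.sum_empty,
    sub_zero, Finset.sum_singleton, ZfrC_re, Nat.cast_mul] at e0 e1 e2 e3
  have e4 : (1 / ((σ : ℂ) - 1)).re = 1 / (σ - 1) := by
    have := ZfrC_re σ 1
    simpa using this
  rw [e4] at e0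
  rw [← hℓ] at e3
  have k0 : C0 * Real.log 3 ≤ C0 * ℓ := mul_le_mul_of_nonneg_left hℓ3 (by linarith)
  have k1 : C1 * Real.log (q₁ * 3) ≤ C1 * ℓ := mul_le_mul_of_nonneg_left hℓq₁ (by linarith)
  have k2 : C1 * Real.log (q₂ * 3) ≤ C1 * ℓ := mul_le_mul_of_nonneg_left hℓq₂ (by linarith)
  have k3 : 1 / (σ - β₁) + 1 / (σ - β₂) ≤ 1 / (σ - 1) + C * ℓ := by
    rw [hC]
    linarith
  have k4 : 1 / (σ - β) ≤ 1 / (σ - β₁) :=
    one_div_le_one_div_of_le (by linarith) (by linarith)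
  have k5 : 1 / (σ - β) ≤ 1 / (σ - β₂) :=
    one_div_le_one_div_of_le (by linarith) (by linarith)
  have k6 : 1 / (σ - 1) = 4 * C * ℓ := by
    rw [hσ, hη]
    field_simp
    ring
  have k7 : 2 / (σ - β) ≤ 5 * C * ℓ := by
    have : 2 / (σ - β) = 1 / (σ - β) + 1 / (σ - β) := by ring
    rw [this]
    linarith
  have hσβ : 0 < σ - β := by linarith
  rw [div_le_iff₀ hσβ] at k7
  have hCpos : 0 < C := by linarith
  have k8 : 2 / (5 * C * ℓ) ≤ σ - β := by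
    rw [div_le_iff₀ (by positivity)]
    linarith
  have k9 : 2 / (5 * C * ℓ) - η / ℓ = 3 / (20 * C) / ℓ := by
    rw [hη]
    field_simp
    ring
  linarith

/-- Primitive characters which induce the same character are equal. -/
theorem prim_unique (q₁ q₂ : ℕ) [NeZero q₁] [NeZero q₂] (χ₁ : DirichletCharacter ℂ q₁)
    (χ₂ : DirichletCharacter ℂ q₂) (h₁ : χ₁.IsPrimitive) (h₂ : χ₂.IsPrimitive)
    (h : DirichletCharacter.changeLevel (Dvd.intro q₂ rfl : q₁ ∣ q₁ * q₂) χ₁ =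
      DirichletCharacter.changeLevel (Dvd.intro_left q₁ rfl : q₂ ∣ q₁ * q₂) χ₂) :
    (⟨q₁, χ₁⟩ : CH) = ⟨q₂, χ₂⟩ := by
  have key : ∀ (m : ℕ) (k1 : q₁ ∣ m) (k2 : q₂ ∣ m), m = q₁ * q₂ →
      DirichletCharacter.changeLevel k1 χ₁ = DirichletCharacter.changeLevel k2 χ₂ := by
    rintro m k1 k2 rfl
    exact h
  have f1 : χ₁.FactorsThrough (q₁.gcd q₂) := DirichletCharacter.factorsThrough_gcd χ₁ χ₂ h
  have f2 : χ₂.FactorsThrough (q₂.gcd q₁) := DirichletCharacter.factorsThrough_gcd χ₂ χ₁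
    (key (q₂ * q₁) (q₁.dvd_mul_left q₂) (q₂.dvd_mul_right q₁) (mul_comm _ _)).symm
  have g1 : q₁ ≤ q₁.gcd q₂ := by
    have : χ₁.conductor ≤ q₁.gcd q₂ := Nat.sInf_le f1
    rwa [h₁] at this
  have g2 : q₂ ≤ q₂.gcd q₁ := by
    have : χ₂.conductor ≤ q₂.gcd q₁ := Nat.sInf_le f2
    rwa [h₂] at this
  have hq : q₁ = q₂ := by
    refine Nat.dvd_antisymm ?_ ?_
    · have : q₁.gcd q₂ = q₁ := le_antisymm (Nat.gcd_le_left _ (Nat.pos_of_ne_zero (NeZero.ne q₁))) g1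
      rw [← this]
      exact Nat.gcd_dvd_right _ _
    · have : q₂.gcd q₁ = q₂ := le_antisymm (Nat.gcd_le_left _ (Nat.pos_of_ne_zero (NeZero.ne q₂))) g2
      rw [← this]
      exact Nat.gcd_dvd_right _ _
  subst hq
  have := DirichletCharacter.changeLevel_injective (R := ℂ) (Dvd.intro q₁ rfl : q₁ ∣ q₁ * q₁) h
  rw [this]

end Pool.Agent.Lib.MP_629a14_nt.Th
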