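import Pool.Agent.Lib.MP_629a14_nt.Th.ZfrA
import Pool.Agent.Lib.MP_629a14_nt.Th.ZfrB
import Pool.Agent.Lib.MP_629a14_nt.Th.ZfrC
import Pool.Agent.Lib.MP_629a14_nt.Th.ZfrZ

/-! The zero-free region with at most one exceptional character. -/

set_option autoImplicit false

namespace Pool.Agent.Lib.MP_629a14_nt.Th

open Finset

/-- Comparison of logarithms. -/
private theorem zf_log (c c₀ L : ℝ) (A : ℝ) (hc : 0 < c) (hc₀ : c₀ ≤ c / 2) (hA : 1 < L)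
    (hL : 4 ≤ A) (h : L ≤ A ^ 2) : 1 - c / Real.log L ≤ 1 - c₀ / Real.log A := by
  have h1 : 0 < Real.log L := Real.log_pos hA
  have h2 : 0 < Real.log A := Real.log_pos (by linarith)
  have h3 : Real.log L ≤ 2 * Real.log A := by
    have := Real.log_le_log (by linarith) h
    rwa [Real.log_pow, Nat.cast_ofNat] at this
  have h4 : c₀ / Real.log A ≤ (c / 2) / Real.log A := by gcongr
  have h5 : (c / 2) / Real.log A = c / (2 * Real.log A) := by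
    rw [div_div]
  have h6 : c / (2 * Real.log A) ≤ c / Real.log L := by gcongr
  linarith

/-- Proof. Let `c₀` be small compared with the constants of `zfrA`, `zfrB`, `zfrC`. If some primitive
`x ≠ ch1` of modulus `≤ P` has a zero `ρ` with `|Im ρ| ≤ T`, `Re ρ > 1 - c₀/log(PT)`, then by `zfrA`, `zfrB` `x`
is real and `ρ` is real (`log(q(|γ|+3)) ≤ C log(PT)`), and by `zfrC` and `prim_unique` all such `x` are equal to
one `e` (`log(3 q₁ q₂) ≤ C log(PT)`); if there is none take `e = ch1`. The zero is `< 1` by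
`re_lt_one_chi`. -/
theorem zfr : ∃ c₀ : ℝ, 0 < c₀ ∧ c₀ ≤ 1 / 32 ∧ ∀ (P : ℕ) (T : ℝ), 2 ≤ P → 2 ≤ T →
    (∀ ρ : ℂ, zt ρ = 0 → |ρ.im| ≤ T → ρ.re ≤ 1 - c₀ / Real.log (P * T)) ∧
    ∃ e : CH, e.1 ≠ 0 ∧ e.2 ^ 2 = 1 ∧ e.2.IsPrimitive ∧
      (e = ch1 ∨ (e ∈ prims P ∧ e ≠ ch1 ∧
        ∃ β : ℝ, 1 - c₀ / Real.log (P * T) < β ∧ β < 1 ∧ LL e β = 0)) ∧
      ∀ x ∈ prims P, x ≠ ch1 → x ≠ e → ∀ ρ : ℂ, LL x ρ = 0 → |ρ.im| ≤ T →
        ρ.re ≤ 1 - c₀ / Real.log (P * T) := by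
  obtain ⟨cA, hcA, hA⟩ := zfrA
  obtain ⟨cB, hcB, hB⟩ := zfrB
  obtain ⟨cC, hcC, hC⟩ := zfrC
  obtain ⟨cZ, hcZ, hZ⟩ := zfrZ
  obtain ⟨c₀, h0, h32, hA', hB', hC', hZ'⟩ : ∃ c₀ : ℝ, 0 < c₀ ∧ c₀ ≤ 1 / 32 ∧ c₀ ≤ cA / 2 ∧
      c₀ ≤ cB / 2 ∧ c₀ ≤ cC / 2 ∧ c₀ ≤ cZ / 2 := by
    refine ⟨min (1 / 32) (min (min (cA / 2) (cB / 2)) (min (cC / 2) (cZ / 2))), ?_,
      min_le_left _ _, ?_, ?_, ?_, ?_⟩
    · exact lt_min (by norm_num) (lt_min (lt_min (by linarith) (by linarith))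
        (lt_min (by linarith) (by linarith)))
    · exact (min_le_right _ _).trans ((min_le_left _ _).trans (min_le_left _ _))
    · exact (min_le_right _ _).trans ((min_le_left _ _).trans (min_le_right _ _))
    · exact (min_le_right _ _).trans ((min_le_right _ _).trans (min_le_left _ _))
    · exact (min_le_right _ _).trans ((min_le_right _ _).trans (min_le_right _ _))
  refine ⟨c₀, h0, h32, ?_⟩
  intro P T hP hT
  have hP' : (2 : ℝ) ≤ P := by exact_mod_cast hP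
  have hPT : 4 ≤ (P : ℝ) * T := by nlinarith
  have hPT2 : (P : ℝ) * T ≥ 2 * P := by nlinarith
  -- bound for the logarithm with modulus q
  have hbd : ∀ (q : ℕ) (g : ℝ), 1 ≤ q → q ≤ P → 0 ≤ g → g ≤ T →
      1 < (q : ℝ) * (g + 3) ∧ (q : ℝ) * (g + 3) ≤ ((P : ℝ) * T) ^ 2 := by
    intro q g h1 h2 h3 h4
    have h1' : (1 : ℝ) ≤ q := by exact_mod_cast h1
    have h2' : (q : ℝ) ≤ P := by exact_mod_cast h2
    refine ⟨by nlinarith, ?_⟩
    calc (q : ℝ) * (g + 3) ≤ P * (T + 3) := by gcongr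
      _ ≤ (5 / 2) * (P * T) := by nlinarith
      _ ≤ (P * T) * (P * T) := by nlinarith
      _ = _ := by ring
  refine ⟨?_, ?_⟩
  · intro ρ h1 h2
    refine (hZ ρ h1).trans (zf_log cZ c₀ _ _ hcZ hZ' ?_ hPT ?_)
    · linarith [abs_nonneg ρ.im]
    · have := (hbd 1 |ρ.im| le_rfl (by omega) (abs_nonneg _) h2).2
      simpa using this
  -- zeros near 1 are real zeros of real characters
  have key : ∀ x ∈ prims P, x ≠ ch1 → ∀ ρ : ℂ, LL x ρ = 0 → |ρ.im| ≤ T →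
      1 - c₀ / Real.log (P * T) < ρ.re → x.2 ^ 2 = 1 ∧ ρ.im = 0 := by
    intro x hx h1 ρ h2 h3 h4
    have hne := prims_ne_one P x hx h1
    obtain ⟨q, χ⟩ := x
    obtain ⟨hq1, hq2, hp⟩ := (mem_prims P _).1 hx
    simp only at hne hq1 hq2 hp ⊢
    have : NeZero q := ⟨by omega⟩
    rw [LL_mk] at h2
    have hb := hbd q |ρ.im| hq1 hq2 (abs_nonneg _) h3
    have hsq : χ ^ 2 = 1 := by
      by_contra h5
      have h6 := (hA q χ h5 ρ h2).trans (zf_log cA c₀ _ _ hcA hA' hb.1 hPT hb.2)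
      linarith
    refine ⟨hsq, ?_⟩
    by_contra h5
    have h6 := (hB q χ hne hsq ρ h2 h5).trans (zf_log cB c₀ _ _ hcB hB' hb.1 hPT hb.2)
    linarith
  by_cases hex : ∃ x ∈ prims P, x ≠ ch1 ∧ ∃ ρ : ℂ, LL x ρ = 0 ∧ |ρ.im| ≤ T ∧
      1 - c₀ / Real.log (P * T) < ρ.re
  · obtain ⟨e, he, he1, ρ, h1, h2, h3⟩ := hex
    obtain ⟨hsq, him⟩ := key e he he1 ρ h1 h2 h3
    have hne := prims_ne_one P e he he1
    obtain ⟨hq1, hq2, hp⟩ := (mem_prims P e).1 he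
    have hρ : ρ = ((ρ.re : ℝ) : ℂ) := by
      apply Complex.ext <;> simp [him]
    have hlt : ρ.re < 1 := by
      obtain ⟨q, χ⟩ := e
      simp only at hne hq1
      have : NeZero q := ⟨by omega⟩
      rw [LL_mk] at h1
      exact re_lt_one_chi q χ hne ρ h1
    refine ⟨e, by omega, hsq, hp, Or.inr ⟨he, he1, ρ.re, h3, hlt, by rw [← hρ]; exact h1⟩, ?_⟩
    intro x hx hx1 hxe ρ' h1' h2'
    by_contra h3'
    rw [not_le] at h3'
    obtain ⟨hsq', him'⟩ := key x hx hx1 ρ' h1' h2' h3'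
    have hne' := prims_ne_one P x hx hx1
    obtain ⟨hq1', hq2', hp'⟩ := (mem_prims P x).1 hx
    have hρ' : ρ' = ((ρ'.re : ℝ) : ℂ) := by
      apply Complex.ext <;> simp [him']
    obtain ⟨q₁, χ₁⟩ := e
    obtain ⟨q₂, χ₂⟩ := x
    simp only at hne hq1 hq2 hp hsq hne' hq1' hq2' hp' hsq'
    have : NeZero q₁ := ⟨by omega⟩
    have : NeZero q₂ := ⟨by omega⟩
    rw [LL_mk] at h1 h1'
    have hdiff : DirichletCharacter.changeLevel (Dvd.intro q₂ rfl : q₁ ∣ q₁ * q₂) χ₁ ≠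
      DirichletCharacter.changeLevel (Dvd.intro_left q₁ rfl : q₂ ∣ q₁ * q₂) χ₂ := by
      intro h
      exact hxe (prim_unique q₁ q₂ χ₁ χ₂ hp hp' h).symm
    rw [hρ] at h1
    rw [hρ'] at h1'
    have h4 := hC q₁ q₂ χ₁ χ₂ hne hne' hsq hsq' hdiff ρ.re ρ'.re h1 h1'
    have hq1r : (1 : ℝ) ≤ q₁ := by exact_mod_cast hq1
    have hq2r : (1 : ℝ) ≤ q₂ := by exact_mod_cast hq1'
    have hq1R : (q₁ : ℝ) ≤ P := by exact_mod_cast hq2
    have hq2R : (q₂ : ℝ) ≤ P := by exact_mod_cast hq2'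
    have h5 : (q₁ : ℝ) * q₂ * 3 ≤ ((P : ℝ) * T) ^ 2 := by
      calc (q₁ : ℝ) * q₂ * 3 ≤ P * P * 3 := by gcongr
        _ ≤ (2 * P) * (2 * P) := by nlinarith
        _ ≤ (P * T) * (P * T) := by gcongr
        _ = _ := by ring
    have h6 : 1 < (q₁ : ℝ) * q₂ * 3 := by nlinarith [mul_le_mul hq1r hq2r zero_le_one (by linarith)]
    have h7 := h4.trans (zf_log cC c₀ _ _ hcC hC' h6 hPT h5)
    rcases min_le_iff.1 h7 with h8 | h8 <;> linarith
  · refine ⟨ch1, one_ne_zero, ?_, ?_, Or.inl rfl, ?_⟩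
    · exact one_pow 2
    · exact DirichletCharacter.isPrimitive_one_level_one
    · intro x hx hx1 _ ρ h1 h2
      by_contra h3
      exact hex ⟨x, hx, hx1, ρ, h1, h2, not_le.1 h3⟩

/-- For bounded moduli there are no real zeros near 1 (finitely many characters, `L(1,χ) ≠ 0`,
continuity). -/
theorem exc_large (R : ℕ) : ∃ η : ℝ, 0 < η ∧ ∀ x ∈ prims R, x ≠ ch1 →
    ∀ β : ℝ, 1 - η < β → β < 1 → LL x β ≠ 0 := by
  have hev : ∀ᶠ β : ℝ in nhds 1, ∀ x ∈ prims R, x ≠ ch1 → LL x β ≠ 0 := by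
    rw [Filter.eventually_all_finset]
    intro x hx
    by_cases hx1 : x = ch1
    · exact Filter.Eventually.of_forall fun _ h => absurd hx1 h
    have hne := prims_ne_one R x hx hx1
    obtain ⟨hq1, -, -⟩ := (mem_prims R x).1 hx
    obtain ⟨q, χ⟩ := x
    simp only at hne hq1
    have : NeZero q := ⟨by omega⟩
    rw [LL_mk]
    have hc : ContinuousAt (fun β : ℝ => χ.LFunction (β : ℂ)) 1 :=
      ((DirichletCharacter.differentiable_LFunction hne).continuous.comp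
        Complex.continuous_ofReal).continuousAt
    have h1 : χ.LFunction ((1 : ℝ) : ℂ) ≠ 0 := by
      refine DirichletCharacter.LFunction_ne_zero_of_one_le_re χ (.inl hne) ?_
      simp
    filter_upwards [hc.eventually_ne h1] with β hβ _
    exact hβ
  obtain ⟨η, hη, h⟩ := Metric.eventually_nhds_iff.1 hev
  refine ⟨η, hη, ?_⟩
  intro x hx hx1 β h1 h2
  refine h ?_ x hx hx1
  rw [Real.dist_eq, abs_lt]
  constructor <;> linarith

end Pool.Agent.Lib.MP_629a14_nt.Th
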