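import Pool.Agent.Lib.MP_629a14_nt.Th.Density
import Pool.Agent.Lib.MP_629a14_nt.Th.Zfr

/-! The sum over zeros. -/

set_option autoImplicit false

namespace Pool.Agent.Lib.MP_629a14_nt.Th

open Finset

private lemma SumZ_aux {ι : Type*} (m x : ι → ℝ) (K l η : ℝ) (hK : 0 ≤ K) (hl : 0 < l) (S : Finset ι) :
    (∀ i ∈ S, 0 ≤ m i) → (∀ i ∈ S, η ≤ x i) →
    (∀ y : ℝ, η ≤ y → ∑ i ∈ S.filter (fun i => x i ≤ y), m i ≤ K * Real.exp (l / 2 * y)) →
    ∀ X : ℝ, η ≤ X → (∀ i ∈ S, x i ≤ X) →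
      ∑ i ∈ S, m i * Real.exp (-(l * x i)) ≤
        2 * K * (Real.exp (-(l * η / 2)) - Real.exp (-(l * X / 2))) +
          (∑ i ∈ S, m i) * Real.exp (-(l * X)) := by
  classical
  induction S using Finset.induction_on_max_value x with
  | empty =>
    intro _ _ _ X hX _
    simp only [sum_empty, zero_mul, add_zero]
    have : Real.exp (-(l * X / 2)) ≤ Real.exp (-(l * η / 2)) := by
      apply Real.exp_le_exp.mpr
      nlinarith
    exact mul_nonneg (by linarith) (by linarith)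
  | insert a S ha hmax ih =>
    intro hm hx hcount X hX hxX
    have hxa : η ≤ x a := hx a (mem_insert_self _ _)
    have hma : 0 ≤ m a := hm a (mem_insert_self _ _)
    have h1 := ih (fun i hi => hm i (mem_insert_of_mem hi)) (fun i hi => hx i (mem_insert_of_mem hi))
      (fun y hy => by
        refine le_trans ?_ (hcount y hy)
        apply sum_le_sum_of_subset_of_nonneg
        · exact filter_subset_filter _ (subset_insert _ _)
        · intro i hi _
          exact hm i (mem_filter.mp hi).1) (x a) hxa hmax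
    have h2 : ∑ i ∈ insert a S, m i ≤ K * Real.exp (l / 2 * x a) := by
      have := hcount (x a) hxa
      rwa [filter_true_of_mem] at this
      intro i hi
      rcases mem_insert.mp hi with rfl | hi
      · exact le_rfl
      · exact hmax i hi
    have hXa : x a ≤ X := hxX a (mem_insert_self _ _)
    rw [sum_insert ha]
    rw [sum_insert ha] at h2 ⊢
    set M := m a + ∑ i ∈ S, m i with hM
    have h3 : m a * Real.exp (-(l * x a)) + ∑ i ∈ S, m i * Real.exp (-(l * x i)) ≤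
        2 * K * (Real.exp (-(l * η / 2)) - Real.exp (-(l * x a / 2))) + M * Real.exp (-(l * x a)) := by
      rw [hM]; linarith
    refine h3.trans ?_
    -- `M (e^{-l x_a} - e^{-l X}) ≤ 2K (e^{-l x_a/2} - e^{-l X/2})`
    set u := Real.exp (-(l * x a / 2)) with hu
    set v := Real.exp (-(l * X / 2)) with hv
    have hu2 : Real.exp (-(l * x a)) = u ^ 2 := by
      rw [hu, ← Real.exp_nat_mul]; congr 1; push_cast; ring
    have hv2 : Real.exp (-(l * X)) = v ^ 2 := by
      rw [hv, ← Real.exp_nat_mul]; congr 1; push_cast; ring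
    have hup : 0 < u := Real.exp_pos _
    have hvp : 0 < v := Real.exp_pos _
    have hvu : v ≤ u := by
      rw [hu, hv]
      apply Real.exp_le_exp.mpr
      nlinarith
    have hMu : M * u ≤ K := by
      have e : Real.exp (l / 2 * x a) * u = 1 := by
        rw [hu, ← Real.exp_add]
        rw [show l / 2 * x a + -(l * x a / 2) = 0 by ring, Real.exp_zero]
      calc M * u ≤ (K * Real.exp (l / 2 * x a)) * u := mul_le_mul_of_nonneg_right h2 hup.le
        _ = K := by rw [mul_assoc, e, mul_one]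
    rw [hu2, hv2]
    have h4 : M * (u ^ 2 - v ^ 2) ≤ 2 * K * (u - v) := by
      have h5 : M * (u + v) ≤ 2 * K := by
        by_cases hM0 : 0 ≤ M
        · have : M * v ≤ M * u := mul_le_mul_of_nonneg_left hvu hM0
          linarith
        · push Not at hM0
          have : M * (u + v) ≤ 0 := mul_nonpos_of_nonpos_of_nonneg hM0.le (by linarith)
          linarith
      calc M * (u ^ 2 - v ^ 2) = (M * (u + v)) * (u - v) := by ring
        _ ≤ 2 * K * (u - v) := mul_le_mul_of_nonneg_right h5 (by linarith)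
    linarith

/-- Proof. `exp(-λ x) = ∫_x^∞ λ exp(-λ y) dy`, so the sum is `∫_η^∞ λ exp(-λ y) (∑_{x_i ≤ y} m_i) dy
≤ ∫_η^∞ λ K exp((μ-λ) y) dy ≤ 2 K exp(-(λ-μ) η) ≤ 2 K exp(-λη/2)`. (Or sum over blocks.) -/
theorem sum_abs {ι : Type*} (S : Finset ι) (m x : ι → ℝ) (K μ l η : ℝ) (hm : ∀ i ∈ S, 0 ≤ m i)
    (hx : ∀ i ∈ S, η ≤ x i) (hη : 0 ≤ η) (hK : 0 ≤ K) (hμ : 0 ≤ μ) (hl : 0 < l) (hμl : μ ≤ l / 2)
    (hcount : ∀ y : ℝ, η ≤ y → ∑ i ∈ S.filter (fun i => x i ≤ y), m i ≤ K * Real.exp (μ * y)) :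
    ∑ i ∈ S, m i * Real.exp (-(l * x i)) ≤ 2 * K * Real.exp (-(l * η / 2)) := by
  classical
  have hcount' : ∀ y : ℝ, η ≤ y →
      ∑ i ∈ S.filter (fun i => x i ≤ y), m i ≤ K * Real.exp (l / 2 * y) := by
    intro y hy
    refine (hcount y hy).trans ?_
    apply mul_le_mul_of_nonneg_left _ hK
    apply Real.exp_le_exp.mpr
    exact mul_le_mul_of_nonneg_right hμl (hη.trans hy)
  -- a bound for all `x i`
  set X : ℝ := η + ∑ i ∈ S, |x i| with hX
  have hXη : η ≤ X := by
    have : 0 ≤ ∑ i ∈ S, |x i| := sum_nonneg fun i _ => abs_nonneg _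
    linarith
  have hxX : ∀ i ∈ S, x i ≤ X := by
    intro i hi
    have h1 : |x i| ≤ ∑ i ∈ S, |x i| := single_le_sum (f := fun i => |x i|) (fun i _ => abs_nonneg _) hi
    linarith [le_abs_self (x i)]
  have h := SumZ_aux m x K l η hK hl S hm hx hcount' X hXη hxX
  have h2 : ∑ i ∈ S, m i ≤ K * Real.exp (l / 2 * X) := by
    have := hcount' X hXη
    rwa [filter_true_of_mem hxX] at this
  have h3 : (∑ i ∈ S, m i) * Real.exp (-(l * X)) ≤ K * Real.exp (-(l * X / 2)) := by
    calc (∑ i ∈ S, m i) * Real.exp (-(l * X)) ≤ (K * Real.exp (l / 2 * X)) * Real.exp (-(l * X)) :=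
          mul_le_mul_of_nonneg_right h2 (Real.exp_nonneg _)
      _ = K * Real.exp (-(l * X / 2)) := by
          rw [mul_assoc, ← Real.exp_add]; congr 2; ring
  have h4 : 0 ≤ K * Real.exp (-(l * X / 2)) := by positivity
  have h5 : 2 * K * (Real.exp (-(l * η / 2)) - Real.exp (-(l * X / 2))) =
    2 * K * Real.exp (-(l * η / 2)) - 2 * (K * Real.exp (-(l * X / 2))) := by ring
  rw [h5] at h
  linarith

/-- The parameters. -/
private lemma SumZ_par (A C c₀ : ℝ) (hC : 1 ≤ C) (hc₀ : 0 < c₀) (B : ℝ) :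
    ∃ N₀ : ℕ, ∀ (N P : ℕ) (T : ℝ), N₀ ≤ N →
      Real.exp ((Real.log N) ^ (3 / 4 : ℝ)) ≤ P →
      (P : ℝ) ≤ Real.exp (c₀ / (1136 * (C + |A| + 1)) * Real.log N / Real.log (Real.log N)) →
      2 ≤ T → T ≤ (P : ℝ) ^ 70 →
      2 ≤ P ∧ 1 ≤ N ∧ 0 < Real.log N ∧ Real.log T + 1 ≤ Real.log (P * T) ∧
      0 < Real.log (P * T) ∧ B ≤ Real.log (P * T) ∧
      C * Real.log (P * T) ≤ Real.log N / 8 / 2 ∧
      2 * (C * (Real.log (P * T)) ^ C) *
        Real.exp (-(Real.log N / 8 * (c₀ / Real.log (P * T)) / 2)) ≤ (Real.log N) ^ (-A) := by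
  set a : ℝ := C + |A| + 1 with ha
  have hA0 := abs_nonneg A
  have hapos : 0 < a := by linarith
  set c : ℝ := c₀ / (1136 * a) with hc
  have hcpos : 0 < c := by positivity
  have t1 : Filter.Tendsto (fun N : ℕ => Real.log (N : ℝ)) Filter.atTop Filter.atTop :=
    Real.tendsto_log_atTop.comp tendsto_natCast_atTop_atTop
  have t2 : Filter.Tendsto (fun N : ℕ => Real.log (Real.log (N : ℝ))) Filter.atTop Filter.atTop :=
    Real.tendsto_log_atTop.comp t1
  have t3 : Filter.Tendsto (fun N : ℕ => (Real.log (N : ℝ)) ^ (3 / 4 : ℝ)) Filter.atTop Filter.atTop :=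
    (tendsto_rpow_atTop (by norm_num)).comp t1
  have hev := (((t1.eventually_ge_atTop (2 * C)).and (t2.eventually_ge_atTop (1136 * C * c))).and
    (t2.eventually_ge_atTop 1)).and ((t3.eventually_ge_atTop B).and (t3.eventually_ge_atTop 1))
  obtain ⟨N₁, hN₁⟩ := Filter.eventually_atTop.mp hev
  refine ⟨max N₁ 1, ?_⟩
  intro N P T hN hP1 hP2 hT1 hT2
  obtain ⟨⟨⟨h1, h2⟩, h3⟩, h4, h5⟩ := hN₁ N ((le_max_left _ _).trans hN)
  have hN1 : 1 ≤ N := (le_max_right _ _).trans hN
  set L : ℝ := Real.log (N : ℝ) with hL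
  have hLpos : 0 < L := by linarith
  have hL1 : 1 ≤ L := by linarith
  have hPe : Real.exp 1 ≤ P := (Real.exp_le_exp.mpr h5).trans hP1
  have hP2' : (2 : ℝ) < P := by linarith [Real.exp_one_gt_d9]
  have hPn : 2 ≤ P := by
    have : (2 : ℝ) ≤ P := hP2'.le
    exact_mod_cast this
  have hPpos : (0 : ℝ) < P := by linarith
  have hlogP : L ^ (3 / 4 : ℝ) ≤ Real.log P := by
    rwa [Real.le_log_iff_exp_le hPpos]
  have hlogP1 : 1 ≤ Real.log P := h5.trans hlogP
  have hTpos : 0 < T := by linarith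
  have hlogT : 0 ≤ Real.log T := Real.log_nonneg (by linarith)
  have hD : Real.log (P * T) = Real.log P + Real.log T := Real.log_mul hPpos.ne' hTpos.ne'
  have hlogT2 : Real.log T ≤ 70 * Real.log P := by
    have := Real.log_le_log hTpos hT2
    rwa [Real.log_pow] at this
  have hlogP2 : Real.log P ≤ c * L / Real.log L := by
    have := Real.log_le_log hPpos hP2
    rwa [Real.log_exp] at this
  have hLL : 0 < Real.log L := by linarith
  set D : ℝ := Real.log (P * T) with hDd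
  have hDpos : 0 < D := by linarith
  have hD71 : D ≤ 71 * (c * L / Real.log L) := by linarith
  -- `D * log L ≤ 71 c L`
  have hDL : D * Real.log L ≤ 71 * c * L := by
    have := mul_le_mul_of_nonneg_right hD71 hLL.le
    have e : 71 * (c * L / Real.log L) * Real.log L = 71 * c * L := by field_simp
    rwa [e] at this
  have hCD : C * D ≤ L / 16 := by
    have e1 : 1136 * C * c * D ≤ 71 * c * L := by
      calc 1136 * C * c * D ≤ Real.log L * D := mul_le_mul_of_nonneg_right h2 hDpos.le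
        _ ≤ 71 * c * L := by linarith
    have e2 : c * (1136 * (C * D)) ≤ c * (71 * L) := by linarith
    have e3 := le_of_mul_le_mul_left e2 hcpos
    linarith
  have hDleL : D ≤ L := by nlinarith
  refine ⟨hPn, hN1, hLpos, by linarith, hDpos, by linarith, by linarith, ?_⟩
  have hexp : Real.exp (-(L / 8 * (c₀ / D) / 2)) ≤ L ^ (-a) := by
    rw [Real.rpow_def_of_pos hLpos]
    apply Real.exp_le_exp.mpr
    have e1 : a * Real.log L ≤ L / 8 * (c₀ / D) / 2 := by
      rw [show L / 8 * (c₀ / D) / 2 = (L * c₀ / 16) / D by ring, le_div_iff₀ hDpos]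
      have e2 : a * (D * Real.log L) ≤ a * (71 * c * L) := mul_le_mul_of_nonneg_left hDL hapos.le
      have e3 : a * (71 * c * L) = L * c₀ / 16 := by
        rw [hc]; field_simp; ring
      linarith
    linarith
  have hDC : D ^ C ≤ L ^ C := Real.rpow_le_rpow hDpos.le hDleL (by linarith)
  calc 2 * (C * D ^ C) * Real.exp (-(L / 8 * (c₀ / D) / 2)) ≤ 2 * (C * L ^ C) * L ^ (-a) := by
        apply mul_le_mul _ hexp (Real.exp_nonneg _) (by positivity)
        have : C * D ^ C ≤ C * L ^ C := mul_le_mul_of_nonneg_left hDC (by linarith)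
        linarith
    _ = 2 * C * L ^ (C + -a) := by
        rw [Real.rpow_add hLpos]; ring
    _ ≤ L * L ^ (C + -a) := by
        apply mul_le_mul_of_nonneg_right h1 (by positivity)
    _ = L ^ (1 + (C + -a)) := by
        rw [Real.rpow_add hLpos 1, Real.rpow_one]
    _ ≤ L ^ (-A) := by
        apply Real.rpow_le_rpow_of_exponent_le hL1
        rw [ha]
        linarith [le_abs_self A]

private lemma SumZ_mem (P : ℕ) (x : CH) (hx : x ∈ prims P) (h1 : x ≠ ch1) (σ T : ℝ) (ρ : ℂ) :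
    ρ ∈ ZF (LL x) σ T ↔ LL x ρ = 0 ∧ σ ≤ ρ.re ∧ |ρ.im| ≤ T := by
  have h2 := prims_ne_one P x hx h1
  have h3 := ((mem_prims P x).1 hx).1
  obtain ⟨q, χ⟩ := x
  simp only at h2 h3
  have : NeZero q := ⟨by omega⟩
  rw [LL_mk]
  exact mem_ZF_chi q χ h2 σ T ρ

private lemma SumZ_cpow (N : ℕ) (hN : 1 ≤ N) (r : ℝ) :
    (N : ℝ) ^ (-((1 - r) / 8)) = Real.exp (-(Real.log N / 8 * (1 - r))) := by
  have hNpos : (0 : ℝ) < N := by exact_mod_cast hN
  rw [Real.rpow_def_of_pos hNpos]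
  congr 1
  ring

private lemma SumZ_pow (D C y s : ℝ) (Q : ℝ) (hQ : 0 < Q) (hD : Real.log Q ≤ D) (hDp : 0 ≤ D)
    (hC : 0 ≤ C) (hs : 0 ≤ s) (hy : s ≤ y) :
    Q ^ (C * s) ≤ Real.exp (C * D * y) := by
  rw [Real.rpow_def_of_pos hQ]
  apply Real.exp_le_exp.mpr
  have h1 : Real.log Q * (C * s) ≤ D * (C * s) := mul_le_mul_of_nonneg_right hD (by positivity)
  have h2 : D * (C * s) ≤ D * (C * y) :=
    mul_le_mul_of_nonneg_left (mul_le_mul_of_nonneg_left hy hC) hDp
  linarith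

open Classical in
/-- Proof. Apply `sum_abs` to the pairs `(x, ρ)` with `x_i = 1 - Re ρ ∈ [η, 1/16]`, `η = c₀/log(PT)` (`zfr`),
`K = C (log PT)^C`, `μ = C log(PT)` (`density`; for `y ≥ 1/16` use the value at `1/16`), `l = log N / 8`. With
`log(PT) ≤ 71 log P ≤ 71 c log N / log log N` we get `μ ≤ l/2` for large `N`, and
`l η / 2 ≥ c₀ log log N / (1136 c)`, so the sum is at most
`2 C (log N)^C (log N)^{-c₀/(1136 c)} ≤ (log N)^{-A}` if `c` is small in terms of `A, C, c₀`.
The same for `zt` with `density_zt`. The exceptional character `e` is the one of `zfr`. -/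
theorem sumZ (A : ℝ) : ∃ c : ℝ, 0 < c ∧ ∀ R : ℕ, ∃ N₀ : ℕ, ∀ (N P : ℕ) (T : ℝ), N₀ ≤ N →
    Real.exp ((Real.log N) ^ (3 / 4 : ℝ)) ≤ P →
    (P : ℝ) ≤ Real.exp (c * Real.log N / Real.log (Real.log N)) → 2 ≤ T → T ≤ (P : ℝ) ^ 70 →
    (∑ ρ ∈ ZF zt (15 / 16) T, mul zt ρ * (N : ℝ) ^ (-((1 - ρ.re) / 8)) ≤ (Real.log N) ^ (-A)) ∧
    ∃ e : CH, e.1 ≠ 0 ∧ e.2 ^ 2 = 1 ∧ e.2.IsPrimitive ∧ (e = ch1 ∨ (e ∈ prims P ∧ R ≤ e.1)) ∧
      ∑ x ∈ (prims P).filter (fun x => x ≠ ch1 ∧ x ≠ e),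
        ∑ ρ ∈ ZF (LL x) (15 / 16) T, mul (LL x) ρ * (N : ℝ) ^ (-((1 - ρ.re) / 8)) ≤
          (Real.log N) ^ (-A) := by
  obtain ⟨C₁, hC₁, hden⟩ := density
  obtain ⟨C₂, hC₂, hdenz⟩ := density_zt
  obtain ⟨c₀, hc₀, _, hzfr⟩ := zfr
  set C : ℝ := max C₁ C₂ with hC
  have hC1 : C₁ ≤ C := le_max_left _ _
  have hC2 : C₂ ≤ C := le_max_right _ _
  have hCone : 1 ≤ C := hC₁.trans hC1
  have hA0 := abs_nonneg A
  have hden1 : 0 < C + |A| + 1 := by linarith
  refine ⟨c₀ / (1136 * (C + |A| + 1)), by positivity, ?_⟩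
  intro R
  obtain ⟨ηR, hηR, hexc⟩ := exc_large R
  obtain ⟨N₀, hN₀⟩ := SumZ_par A C c₀ hCone hc₀ (max 1 (c₀ / ηR))
  refine ⟨N₀, ?_⟩
  intro N P T hN hP1 hP2 hT1 hT2
  obtain ⟨hPn, hN1, hLpos, hTD, hDpos, hBD, hCD, hfin⟩ := hN₀ N P T hN hP1 hP2 hT1 hT2
  have hPr : (2 : ℝ) ≤ P := by exact_mod_cast hPn
  have hTpos : 0 < T := by linarith
  have hPTpos : 0 < (P : ℝ) * T := by positivity
  set D : ℝ := Real.log (P * T) with hD
  have hD1 : 1 ≤ D := (le_max_left _ _).trans hBD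
  have hDR : c₀ / ηR ≤ D := (le_max_right _ _).trans hBD
  set η : ℝ := c₀ / D with hη
  have hηpos : 0 < η := by positivity
  set K : ℝ := C * D ^ C with hK
  have hKnn : 0 ≤ K := by positivity
  have hl : 0 < Real.log N / 8 := by linarith
  obtain ⟨hz, e, he1, he2, he3, he4, he5⟩ := hzfr P T hPn hT1
  constructor
  · have hmul : ∀ ρ ∈ ZF zt (15 / 16) T, 0 ≤ mul zt ρ := fun ρ _ => Nat.cast_nonneg _
    have h := sum_abs (ZF zt (15 / 16) T) (fun ρ => mul zt ρ) (fun ρ => 1 - ρ.re) K (C * D)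
      (Real.log N / 8) η hmul ?_ hηpos.le hKnn (by positivity) hl hCD ?_
    · refine le_trans (le_of_eq ?_) (h.trans hfin)
      refine sum_congr rfl fun ρ _ => ?_
      rw [SumZ_cpow N hN1]
    · intro ρ hρ
      obtain ⟨h1, _, h3⟩ := (mem_ZF_zt _ _ _).1 hρ
      have := hz ρ h1 h3
      linarith
    · intro y hy
      have hy0 : 0 < y := hηpos.trans_le hy
      set s : ℝ := min y (1 / 16) with hs
      have hs0 : 0 ≤ s := le_min hy0.le (by norm_num)
      have hs1 : s ≤ 1 / 16 := min_le_right _ _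
      have hsy : s ≤ y := min_le_left _ _
      have hsub : (ZF zt (15 / 16) T).filter (fun ρ => 1 - ρ.re ≤ y) ⊆ ZF zt (1 - s) T := by
        intro ρ hρ
        obtain ⟨h1, h2⟩ := mem_filter.1 hρ
        obtain ⟨h3, h4, h5⟩ := (mem_ZF_zt _ _ _).1 h1
        refine (mem_ZF_zt _ _ _).2 ⟨h3, ?_, h5⟩
        have : 1 - ρ.re ≤ s := le_min h2 (by linarith)
        linarith
      have h1 : ∑ ρ ∈ (ZF zt (15 / 16) T).filter (fun ρ => 1 - ρ.re ≤ y), mul zt ρ ≤
          ∑ ρ ∈ ZF zt (1 - s) T, mul zt ρ :=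
        sum_le_sum_of_subset_of_nonneg hsub (fun ρ _ _ => Nat.cast_nonneg _)
      refine h1.trans ((hdenz T (1 - s) hT1 (by linarith) (by linarith)).trans ?_)
      rw [show 1 - (1 - s) = s by ring]
      have hlogT : 0 ≤ Real.log T := Real.log_nonneg (by linarith)
      have hlogTD : Real.log T ≤ D := by linarith
      have h2 : T ^ (C₂ * s) ≤ Real.exp (C * D * y) := by
        refine (SumZ_pow D C₂ y s T hTpos hlogTD hDpos.le (by linarith) hs0 hsy).trans ?_
        apply Real.exp_le_exp.mpr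
        have : 0 ≤ D * y := by positivity
        nlinarith
      have h3 : (Real.log T + 1) ^ C₂ ≤ D ^ C := by
        calc (Real.log T + 1) ^ C₂ ≤ D ^ C₂ := Real.rpow_le_rpow (by linarith) hTD (by linarith)
          _ ≤ D ^ C := Real.rpow_le_rpow_of_exponent_le hD1 hC2
      calc C₂ * T ^ (C₂ * s) * (Real.log T + 1) ^ C₂ ≤ (C * Real.exp (C * D * y)) * D ^ C := by
            apply mul_le_mul _ h3 (by positivity) (by positivity)
            exact mul_le_mul hC2 h2 (by positivity) (by positivity)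
        _ = K * Real.exp (C * D * y) := by rw [hK]; ring
  · refine ⟨e, he1, he2, he3, ?_, ?_⟩
    · rcases he4 with h | ⟨h1, h2, β, h3, h4, h5⟩
      · exact Or.inl h
      · refine Or.inr ⟨h1, ?_⟩
        by_contra hlt
        push Not at hlt
        obtain ⟨g1, _, g3⟩ := (mem_prims P e).1 h1
        have heR : e ∈ prims R := (mem_prims R e).2 ⟨g1, hlt.le, g3⟩
        refine hexc e heR h2 β ?_ h4 h5
        have : c₀ / D ≤ ηR := by
          rw [div_le_iff₀ hDpos]
          rw [div_le_iff₀ hηR] at hDR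
          linarith
        have h6 : 1 - c₀ / D < β := h3
        linarith
    · rw [Finset.sum_sigma' ((prims P).filter (fun x => x ≠ ch1 ∧ x ≠ e))
        (fun x => ZF (LL x) (15 / 16) T)
        (fun x ρ => mul (LL x) ρ * (N : ℝ) ^ (-((1 - ρ.re) / 8)))]
      set S := ((prims P).filter (fun x => x ≠ ch1 ∧ x ≠ e)).sigma
        (fun x => ZF (LL x) (15 / 16) T) with hS
      have h := sum_abs S (fun i => mul (LL i.1) i.2) (fun i => 1 - i.2.re) K (C * D)
        (Real.log N / 8) η (fun i _ => Nat.cast_nonneg _) ?_ hηpos.le hKnn (by positivity) hl hCD ?_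
      · refine le_trans (le_of_eq ?_) (h.trans hfin)
        refine sum_congr rfl fun i _ => ?_
        rw [SumZ_cpow N hN1]
      · intro i hi
        obtain ⟨h1, h2⟩ := mem_sigma.1 hi
        obtain ⟨h3, h4, h5⟩ := mem_filter.1 h1
        obtain ⟨h6, _, h8⟩ := (SumZ_mem P i.1 h3 h4 _ _ _).1 h2
        have := he5 i.1 h3 h4 h5 i.2 h6 h8
        linarith
      · intro y hy
        have hy0 : 0 < y := hηpos.trans_le hy
        set s : ℝ := min y (1 / 16) with hs
        have hs0 : 0 ≤ s := le_min hy0.le (by norm_num)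
        have hs1 : s ≤ 1 / 16 := min_le_right _ _
        have hsy : s ≤ y := min_le_left _ _
        have hsub : S.filter (fun i => 1 - i.2.re ≤ y) ⊆
            ((prims P).filter (fun x => x ≠ ch1)).sigma (fun x => ZF (LL x) (1 - s) T) := by
          intro i hi
          obtain ⟨h1, h2⟩ := mem_filter.1 hi
          obtain ⟨h3, h4⟩ := mem_sigma.1 h1
          obtain ⟨h5, h6, h7⟩ := mem_filter.1 h3
          obtain ⟨h8, h9, h10⟩ := (SumZ_mem P i.1 h5 h6 _ _ _).1 h4
          refine mem_sigma.2 ⟨mem_filter.2 ⟨h5, h6⟩, (SumZ_mem P i.1 h5 h6 _ _ _).2 ⟨h8, ?_, h10⟩⟩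
          have : 1 - i.2.re ≤ s := le_min h2 (by linarith)
          linarith
        have h1 : ∑ i ∈ S.filter (fun i => 1 - i.2.re ≤ y), mul (LL i.1) i.2 ≤
            ∑ i ∈ ((prims P).filter (fun x => x ≠ ch1)).sigma (fun x => ZF (LL x) (1 - s) T),
              mul (LL i.1) i.2 :=
          sum_le_sum_of_subset_of_nonneg hsub (fun i _ _ => Nat.cast_nonneg _)
        rw [Finset.sum_sigma] at h1
        refine h1.trans ((hden P T (1 - s) hPn hT1 (by linarith) (by linarith)).trans ?_)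
        rw [show 1 - (1 - s) = s by ring]
        have h2 : ((P : ℝ) * T) ^ (C₁ * s) ≤ Real.exp (C * D * y) := by
          refine (SumZ_pow D C₁ y s (P * T) hPTpos le_rfl hDpos.le (by linarith) hs0 hsy).trans ?_
          apply Real.exp_le_exp.mpr
          have : 0 ≤ D * y := by positivity
          nlinarith
        have h3 : D ^ C₁ ≤ D ^ C := Real.rpow_le_rpow_of_exponent_le hD1 hC1
        calc C₁ * ((P : ℝ) * T) ^ (C₁ * s) * D ^ C₁ ≤ (C * Real.exp (C * D * y)) * D ^ C := by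
              apply mul_le_mul _ h3 (by positivity) (by positivity)
              exact mul_le_mul hC1 h2 (by positivity) (by positivity)
          _ = K * Real.exp (C * D * y) := by rw [hK]; ring

end Pool.Agent.Lib.MP_629a14_nt.Th
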