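import Pool.Agent.Lib.MP_629a14_nt.Th.Gs
import Pool.Agent.Lib.MP_629a14_nt.Th.WLam
import Pool.Agent.Lib.MP_629a14_nt.Th.Vino2

/-! Bounds for the double sums `II`; expansion of `RM`. -/

set_option autoImplicit false

namespace Pool.Agent.Lib.MP_629a14_nt.Th

open Finset Pool.Agent.Lib.MP_629a14_nt

private theorem IIbd_aP_nonneg (P m : ℕ) : 0 ≤ aP P m := by
  unfold aP
  split_ifs with h
  · exact Real.log_nonneg (by exact_mod_cast h.1.one_lt.le)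
  · exact le_refl _

private theorem IIbd_norm_aP (P m : ℕ) : ‖(aP P m : ℂ)‖ = aP P m := by
  rw [Complex.norm_real, Real.norm_of_nonneg (IIbd_aP_nonneg P m)]

private theorem IIbd_norm_fej (H : ℕ) (x : ℝ) : ‖(fej H x : ℂ)‖ = fej H x := by
  rw [Complex.norm_real, Real.norm_of_nonneg (fej_nonneg H x)]

theorem I0_nonneg (P N H n : ℕ) : 0 ≤ I0 P N H n := by
  unfold I0
  refine Finset.sum_nonneg fun m₁ _ => Finset.sum_nonneg fun m₂ _ => ?_
  exact mul_nonneg (mul_nonneg (IIbd_aP_nonneg P m₁) (IIbd_aP_nonneg P m₂)) (fej_nonneg H _)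

/-- `‖χ‖ ≤ 1`. -/
theorem II_le_I0 (q P N H : ℕ) (χ₁ χ₂ : DirichletCharacter ℂ q) (n : ℕ) :
    ‖II P N H χ₁ χ₂ n‖ ≤ I0 P N H n := by
  unfold II I0
  refine norm_sum_le_of_le _ fun m₁ _ => norm_sum_le_of_le _ fun m₂ _ => ?_
  rw [norm_mul, norm_mul, norm_mul, norm_mul, IIbd_norm_aP, IIbd_norm_aP, IIbd_norm_fej]
  have h1 := DirichletCharacter.norm_le_one χ₁ (m₁ : ZMod q)
  have h2 := DirichletCharacter.norm_le_one χ₂ (m₂ : ZMod q)
  have h3 := IIbd_aP_nonneg P m₁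
  have h4 := IIbd_aP_nonneg P m₂
  refine mul_le_mul_of_nonneg_right ?_ (fej_nonneg H _)
  calc aP P m₁ * aP P m₂ * ‖χ₁ (m₁ : ZMod q)‖ * ‖χ₂ (m₂ : ZMod q)‖
      ≤ aP P m₁ * aP P m₂ * 1 * 1 := by
        refine mul_le_mul ?_ h2 (norm_nonneg _) (by positivity)
        exact mul_le_mul_of_nonneg_left h1 (by positivity)
    _ = aP P m₁ * aP P m₂ := by ring

theorem II_comm (q P N H : ℕ) (χ₁ χ₂ : DirichletCharacter ℂ q) (n : ℕ) :
    II P N H χ₁ χ₂ n = II P N H χ₂ χ₁ n := by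
  unfold II
  rw [Finset.sum_comm]
  refine Finset.sum_congr rfl fun m₂ _ => Finset.sum_congr rfl fun m₁ _ => ?_
  rw [add_comm (m₁ : ℝ) m₂]
  ring

theorem II_one (q P N H : ℕ) (hq : 1 ≤ q) (hqP : q ≤ P) (n : ℕ) :
    II P N H (1 : DirichletCharacter ℂ q) 1 n = I0 P N H n := by
  have h1 : ∀ m : ℕ, (aP P m : ℂ) * (1 : DirichletCharacter ℂ q) (m : ZMod q) = aP P m := by
    intro m
    by_cases h : m.Prime ∧ P < m
    · have h2 : IsUnit (m : ZMod q) := by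
        rw [ZMod.isUnit_iff_coprime]
        exact Nat.coprime_of_lt_prime (by omega) (by omega) h.1
      rw [MulChar.one_apply h2, mul_one]
    · simp [aP, h]
  unfold II I0
  push_cast
  refine Finset.sum_congr rfl fun m₁ _ => Finset.sum_congr rfl fun m₂ _ => ?_
  have h2 := h1 m₁
  have h3 := h1 m₂
  calc (aP P m₁ : ℂ) * aP P m₂ * (1 : DirichletCharacter ℂ q) (m₁ : ZMod q) *
        (1 : DirichletCharacter ℂ q) (m₂ : ZMod q) * (fej H ((m₁ : ℝ) + m₂ - n) : ℂ)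
      = ((aP P m₁ : ℂ) * (1 : DirichletCharacter ℂ q) (m₁ : ZMod q)) *
        ((aP P m₂ : ℂ) * (1 : DirichletCharacter ℂ q) (m₂ : ZMod q)) *
          (fej H ((m₁ : ℝ) + m₂ - n) : ℂ) := by ring
    _ = _ := by rw [h2, h3]

private theorem IIbd_big (N P : ℕ) (hN : ⌈Real.exp 864⌉₊ + 2 ≤ N)
    (hP : Real.exp ((Real.log N) ^ (3 / 4 : ℝ)) ≤ P) :
    9 * (Real.log (2 * N)) ^ 2 ≤ P ∧ 2 ≤ N := by
  refine ⟨?_, by omega⟩
  have h1 : Real.exp 864 ≤ N := by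
    refine (Nat.le_ceil _).trans ?_
    exact_mod_cast (show ⌈Real.exp 864⌉₊ ≤ N by omega)
  have hN0 : (0 : ℝ) < N := (Real.exp_pos _).trans_le h1
  set x := Real.log N with hx
  have h2 : 864 ≤ x := by
    rw [hx, Real.le_log_iff_exp_le hN0]
    exact h1
  have h3 : Real.log (2 * N) ≤ 2 * x := by
    rw [Real.log_mul (by norm_num) hN0.ne']
    have := Real.log_two_lt_d9
    linarith
  have h4 : 0 ≤ Real.log (2 * N) := by
    refine Real.log_nonneg ?_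
    have : (2 : ℕ) ≤ N := by omega
    have : (2 : ℝ) ≤ N := by exact_mod_cast this
    linarith
  have h5 : (x ^ (3 / 4 : ℝ)) ^ 4 / (Nat.factorial 4 : ℝ) ≤ Real.exp (x ^ (3 / 4 : ℝ)) :=
    Real.pow_div_factorial_le_exp _ (by positivity) 4
  have h6 : (x ^ (3 / 4 : ℝ)) ^ 4 = x ^ 3 := by
    rw [← Real.rpow_natCast, ← Real.rpow_mul (by linarith), ← Real.rpow_natCast]
    norm_num
  rw [h6] at h5
  have h7 : ((Nat.factorial 4 : ℕ) : ℝ) = 24 := by norm_num [Nat.factorial]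
  rw [h7] at h5
  refine le_trans ?_ (h5.trans hP)
  have h8 : (Real.log (2 * N)) ^ 2 ≤ 4 * x ^ 2 := by nlinarith
  have h9 : 864 * x ^ 2 ≤ x ^ 3 := by
    have : x ^ 3 = x * x ^ 2 := by ring
    rw [this]
    exact mul_le_mul_of_nonneg_right h2 (sq_nonneg x)
  linarith

/-- Sum of the triangular weights over any set of integers. -/
private theorem IIbd_fej_sum (H : ℕ) (hH : 1 ≤ H) (M : ℕ) (c : ℤ) :
    ∑ m ∈ Icc 1 M, fej H ((m : ℝ) + c) ≤ 3 := by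
  have hH0 : (0 : ℝ) < H := by exact_mod_cast hH
  have h1 : ∀ m ∈ Icc 1 M, fej H ((m : ℝ) + c) ≤
      if ((m : ℤ) + c).natAbs < H then 1 / (H : ℝ) else 0 := by
    intro m _
    split_ifs with h
    · exact fej_le H _
    · rw [fej_zero]
      have h2 : |((m : ℝ) + c)| = ((((m : ℤ) + c).natAbs : ℕ) : ℝ) := by
        rw [← Int.cast_natCast (R := ℝ) (((m : ℤ) + c).natAbs), Int.natCast_natAbs, Int.cast_abs]
        push_cast
        rfl
      rw [h2]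
      exact_mod_cast (not_lt.1 h)
  refine (Finset.sum_le_sum h1).trans ?_
  rw [← Finset.sum_filter, Finset.sum_const, nsmul_eq_mul]
  have h2 : (((Icc 1 M).filter fun m : ℕ => ((m : ℤ) + c).natAbs < H).card : ℝ) ≤ 3 * H := by
    have h3 : ((Icc 1 M).filter fun m : ℕ => ((m : ℤ) + c).natAbs < H).card ≤
        (Finset.Ioo (-(H : ℤ)) H).card := by
      refine Finset.card_le_card_of_injOn (fun m : ℕ => (m : ℤ) + c) ?_ ?_
      · intro m hm
        simp only [Finset.coe_filter, Set.mem_ofPred_eq] at hm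
        simp only [Finset.coe_Ioo, Set.mem_Ioo]
        omega
      · intro a _ b _ hab
        simp only at hab
        omega
    rw [Int.card_Ioo] at h3
    have h4 : ((Icc 1 M).filter fun m : ℕ => ((m : ℤ) + c).natAbs < H).card ≤ 3 * H := by
      omega
    exact_mod_cast h4
  calc (((Icc 1 M).filter fun m : ℕ => ((m : ℤ) + c).natAbs < H).card : ℝ) * (1 / H)
      ≤ 3 * H * (1 / H) := mul_le_mul_of_nonneg_right h2 (by positivity)
    _ = 3 := by field_simp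

private theorem IIbd_aP_log (P N m : ℕ) (h1 : 1 ≤ m) (h2 : m ≤ 2 * N) :
    aP P m ≤ Real.log (2 * N) := by
  have hm1 : (1 : ℝ) ≤ m := by exact_mod_cast h1
  have hm2 : (m : ℝ) ≤ 2 * N := by exact_mod_cast h2
  have h3 : Real.log m ≤ Real.log (2 * N) := Real.log_le_log (by linarith) hm2
  unfold aP
  split_ifs
  · exact h3
  · exact (Real.log_nonneg hm1).trans h3

private theorem IIbd_le (N P : ℕ) (hP9 : 9 * (Real.log (2 * N)) ^ 2 ≤ P ∧ 2 ≤ N)
    (hPN : P ^ 100 ≤ N) (q : ℕ) (χ₁ χ₂ : DirichletCharacter ℂ q) (D : ℝ) (hD : 0 ≤ D)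
    (hwnd : ∀ v : ℕ, N ≤ v * P ^ 5 → v ≤ N →
        ‖wnd (fun m => (aP P m : ℂ) * χ₁ (m : ZMod q)) (N / P ^ 20) v‖ ≤ D)
    (n : ℕ) (hn : n ≤ N) :
    ‖II P N (N / P ^ 20) χ₁ χ₂ n‖ ≤ 4 * N * D + N / (P : ℝ) ^ 4 := by
  obtain ⟨hP9, hN2⟩ := hP9
  have hN2r : (2 : ℝ) ≤ N := by exact_mod_cast hN2
  have hL0 : 0 < Real.log (2 * N) := Real.log_pos (by linarith)
  have hPpos : 1 ≤ P := by
    have : (0 : ℝ) < P := lt_of_lt_of_le (by positivity) hP9
    exact_mod_cast this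
  have hP0 : (0 : ℝ) < P := by exact_mod_cast hPpos
  set H := N / P ^ 20 with hHdef
  have hHP : H * P ^ 20 ≤ N := Nat.div_mul_le_self N _
  have hP20 : P ^ 20 ≤ N := (Nat.pow_le_pow_right hPpos (by norm_num)).trans hPN
  have hH1 : 1 ≤ H := (Nat.one_le_div_iff (by positivity)).2 hP20
  have hHP5 : H * P ^ 5 ≤ N :=
    (Nat.mul_le_mul_left H (Nat.pow_le_pow_right hPpos (by norm_num))).trans hHP
  obtain ⟨K, hK1, hdiv⟩ : ∃ K : ℕ, (∀ x : ℕ, x * P ^ 5 < N → x ≤ K) ∧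
      (K : ℝ) ≤ N / (P : ℝ) ^ 5 := by
    refine ⟨N / P ^ 5, fun x hx => (Nat.le_div_iff_mul_le (by positivity)).2 hx.le, ?_⟩
    have := @Nat.cast_div_le ℝ _ _ _ N (P ^ 5)
    push_cast at this
    exact this
  -- inner sum
  have hII : II P N H χ₁ χ₂ n = ∑ m₂ ∈ Icc 1 (2 * N), ((aP P m₂ : ℂ) * χ₂ (m₂ : ZMod q)) *
      ∑ m₁ ∈ Icc 1 (2 * N), (aP P m₁ : ℂ) * χ₁ (m₁ : ZMod q) *
        (fej H ((m₁ : ℝ) + m₂ - n) : ℂ) := by
    unfold II
    rw [Finset.sum_comm]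
    refine Finset.sum_congr rfl fun m₂ _ => ?_
    rw [Finset.mul_sum]
    refine Finset.sum_congr rfl fun m₁ _ => ?_
    ring
  rw [hII]
  set J : ℕ → ℂ := fun m₂ => ∑ m₁ ∈ Icc 1 (2 * N), (aP P m₁ : ℂ) * χ₁ (m₁ : ZMod q) *
        (fej H ((m₁ : ℝ) + m₂ - n) : ℂ) with hJ
  -- first kind
  have hJ1 : ∀ m₂ : ℕ, m₂ ≤ n → N ≤ (n - m₂) * P ^ 5 → ‖J m₂‖ ≤ D := by
    intro m₂ h1 h2
    have hv : n - m₂ ≤ N := by omega
    have hHv : H ≤ n - m₂ := by
      have h3 : H * P ^ 5 ≤ (n - m₂) * P ^ 5 := hHP5.trans h2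
      exact Nat.le_of_mul_le_mul_right h3 (by positivity)
    have h3 := hwnd (n - m₂) h2 hv
    have h4 : J m₂ = wnd (fun m => (aP P m : ℂ) * χ₁ (m : ZMod q)) H (n - m₂) := by
      rw [hJ]
      unfold wnd
      simp only
      symm
      have h5 : ∀ m : ℕ, ((m : ℝ) + m₂ - n) = (m : ℝ) - ((n - m₂ : ℕ) : ℝ) := by
        intro m
        rw [Nat.cast_sub h1]
        ring
      refine Finset.sum_subset_zero_on_sdiff (Finset.Icc_subset_Icc_right (by omega)) ?_ ?_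
      · intro m hm
        rw [Finset.mem_sdiff, Finset.mem_Icc, Finset.mem_Icc] at hm
        have h6 : 2 * (n - m₂) < m := by omega
        have h7 : fej H ((m : ℝ) + m₂ - n) = 0 := by
          refine fej_zero H _ ?_
          rw [h5]
          have h8 : (H : ℝ) + ((n - m₂ : ℕ) : ℝ) ≤ m := by
            exact_mod_cast (show H + (n - m₂) ≤ m by omega)
          refine le_trans ?_ (le_abs_self _)
          linarith
        rw [h7]
        simp
      · intro m _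
        rw [h5]
    rw [h4]
    exact h3
  -- second kind
  have hJ2 : ∀ m₂ : ℕ, ‖J m₂‖ ≤ 3 * Real.log (2 * N) := by
    intro m₂
    have h1 : ‖J m₂‖ ≤ ∑ m₁ ∈ Icc 1 (2 * N), Real.log (2 * N) *
        fej H ((m₁ : ℝ) + ((m₂ : ℤ) - n : ℤ)) := by
      rw [hJ]
      refine norm_sum_le_of_le _ fun m₁ hm₁ => ?_
      rw [Finset.mem_Icc] at hm₁
      rw [norm_mul, norm_mul, IIbd_norm_aP, IIbd_norm_fej]
      have e : ((m₁ : ℝ) + (((m₂ : ℤ) - n : ℤ) : ℝ)) = (m₁ : ℝ) + m₂ - n := by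
        push_cast
        ring
      rw [e]
      refine mul_le_mul_of_nonneg_right ?_ (fej_nonneg H _)
      calc aP P m₁ * ‖χ₁ (m₁ : ZMod q)‖ ≤ Real.log (2 * N) * 1 :=
            mul_le_mul (IIbd_aP_log P N m₁ hm₁.1 hm₁.2) (DirichletCharacter.norm_le_one χ₁ _)
              (norm_nonneg _) hL0.le
        _ = Real.log (2 * N) := mul_one _
    refine h1.trans ?_
    rw [← Finset.mul_sum, mul_comm]
    exact mul_le_mul_of_nonneg_right (IIbd_fej_sum H hH1 (2 * N) _) hL0.le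
  have hJ3 : ∀ m₂ : ℕ, n + H ≤ m₂ → J m₂ = 0 := by
    intro m₂ h1
    rw [hJ]
    refine Finset.sum_eq_zero fun m₁ _ => ?_
    have h7 : fej H ((m₁ : ℝ) + m₂ - n) = 0 := by
      refine fej_zero H _ ?_
      have h8 : (n : ℝ) + H ≤ m₂ := by exact_mod_cast h1
      refine le_trans ?_ (le_abs_self _)
      have : (0 : ℝ) ≤ m₁ := Nat.cast_nonneg _
      linarith
    rw [h7]
    simp
  -- the total
  set L := Real.log (2 * N) with hL
  have hterm : ∀ m₂ ∈ Icc 1 (2 * N), ‖((aP P m₂ : ℂ) * χ₂ (m₂ : ZMod q)) * J m₂‖ ≤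
      aP P m₂ * D + (if m₂ < n + H ∧ n < m₂ + K + 1 then 3 * L ^ 2 else 0) := by
    intro m₂ hm₂
    rw [Finset.mem_Icc] at hm₂
    have ha := IIbd_aP_nonneg P m₂
    have ha2 := IIbd_aP_log P N m₂ hm₂.1 hm₂.2
    rw [norm_mul, norm_mul, IIbd_norm_aP]
    have hx := DirichletCharacter.norm_le_one χ₂ (m₂ : ZMod q)
    have h0 : aP P m₂ * ‖χ₂ (m₂ : ZMod q)‖ * ‖J m₂‖ ≤ aP P m₂ * ‖J m₂‖ := by
      refine mul_le_mul_of_nonneg_right ?_ (norm_nonneg _)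
      calc aP P m₂ * ‖χ₂ (m₂ : ZMod q)‖ ≤ aP P m₂ * 1 := mul_le_mul_of_nonneg_left hx ha
        _ = aP P m₂ := mul_one _
    refine h0.trans ?_
    have hL2 : 0 ≤ 3 * L ^ 2 := by positivity
    by_cases hA : m₂ ≤ n ∧ N ≤ (n - m₂) * P ^ 5
    · have h1 := hJ1 m₂ hA.1 hA.2
      have h2 : aP P m₂ * ‖J m₂‖ ≤ aP P m₂ * D := mul_le_mul_of_nonneg_left h1 ha
      split_ifs <;> linarith
    · by_cases hB : m₂ < n + H
      · have h1 : m₂ < n + H ∧ n < m₂ + K + 1 := by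
          refine ⟨hB, ?_⟩
          by_cases hC : m₂ ≤ n
          · have h2 : (n - m₂) * P ^ 5 < N := by
              by_contra hcon
              exact hA ⟨hC, not_lt.1 hcon⟩
            have h3 : n - m₂ ≤ K := hK1 _ h2
            omega
          · omega
        rw [if_pos h1]
        have h2 := hJ2 m₂
        have h3 : aP P m₂ * ‖J m₂‖ ≤ L * (3 * L) :=
          mul_le_mul ha2 h2 (norm_nonneg _) hL0.le
        have h4 : 0 ≤ aP P m₂ * D := mul_nonneg ha hD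
        nlinarith
      · rw [hJ3 m₂ (not_lt.1 hB), norm_zero, mul_zero]
        have h4 : 0 ≤ aP P m₂ * D := mul_nonneg ha hD
        split_ifs <;> linarith
  refine (norm_sum_le_of_le _ hterm).trans ?_
  rw [Finset.sum_add_distrib, ← Finset.sum_mul, ← Finset.sum_filter, Finset.sum_const,
    nsmul_eq_mul]
  have h1 : (∑ m₂ ∈ Icc 1 (2 * N), aP P m₂) * D ≤ 4 * N * D :=
    mul_le_mul_of_nonneg_right (sum_aP_le P N) hD
  have hcard : ((Icc 1 (2 * N)).filter fun m₂ => m₂ < n + H ∧ n < m₂ + K + 1).card ≤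
      H + K + 1 := by
    have h2 : ((Icc 1 (2 * N)).filter fun m₂ => m₂ < n + H ∧ n < m₂ + K + 1) ⊆
        Finset.Ico (n - K) (n + H) := by
      intro m hm
      rw [Finset.mem_filter, Finset.mem_Icc] at hm
      rw [Finset.mem_Ico]
      omega
    refine (Finset.card_le_card h2).trans ?_
    rw [Nat.card_Ico]
    omega
  have hX : (1 : ℝ) ≤ N / (P : ℝ) ^ 5 := by
    rw [le_div_iff₀ (by positivity), one_mul]
    have : P ^ 5 ≤ N := (Nat.pow_le_pow_right hPpos (by norm_num)).trans hPN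
    exact_mod_cast this
  have hH2 : (H : ℝ) ≤ N / (P : ℝ) ^ 5 := by
    rw [le_div_iff₀ (by positivity)]
    exact_mod_cast hHP5
  have hcard2 : (((Icc 1 (2 * N)).filter fun m₂ => m₂ < n + H ∧ n < m₂ + K + 1).card : ℝ) ≤
      3 * (N / (P : ℝ) ^ 5) := by
    have h2 : (((Icc 1 (2 * N)).filter
        fun m₂ => m₂ < n + H ∧ n < m₂ + K + 1).card : ℝ) ≤
        (H : ℝ) + (K : ℝ) + 1 := by exact_mod_cast hcard
    linarith
  have hfin : (((Icc 1 (2 * N)).filter fun m₂ => m₂ < n + H ∧ n < m₂ + K + 1).card : ℝ) *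
      (3 * L ^ 2) ≤ N / (P : ℝ) ^ 4 := by
    calc (((Icc 1 (2 * N)).filter fun m₂ => m₂ < n + H ∧ n < m₂ + K + 1).card : ℝ) *
          (3 * L ^ 2) ≤ 3 * (N / (P : ℝ) ^ 5) * (3 * L ^ 2) :=
          mul_le_mul_of_nonneg_right hcard2 (by positivity)
      _ = N / (P : ℝ) ^ 5 * (9 * L ^ 2) := by ring
      _ ≤ N / (P : ℝ) ^ 5 * P := mul_le_mul_of_nonneg_left hP9 (by positivity)
      _ = N / (P : ℝ) ^ 4 := by field_simp
  linarith

/-- Proof. Sum over `m₁` first: for `v = n - m₂` with `N ≤ v P^5` the inner sum is the window average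
`wnd (aP χ₁) H v` (its support is in `Icc 1 (2v)` as `H ≤ v`), total `≤ D ∑ aP ≤ 4 N D` (`sum_aP_le`). The other `m₂`
(with `n - m₂ < N/P^5`, and `n - m₂ > -H` if the term is not zero) number at most `N/P^5 + H + 1`; for them the inner sum is
at most `(2H+1) log(2N)/H ≤ 3 log(2N)`, and `aP ≤ log(2N)`. Here `H = N/P^20`, and `P ≥ exp((log N)^{3/4})` beats the
logarithms. -/
theorem II_le_wnd : ∃ N₀ : ℕ, ∀ N P : ℕ, N₀ ≤ N → Real.exp ((Real.log N) ^ (3 / 4 : ℝ)) ≤ P → P ^ 100 ≤ N →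
    ∀ (q : ℕ) (χ₁ χ₂ : DirichletCharacter ℂ q) (D : ℝ), 0 ≤ D →
      (∀ v : ℕ, N ≤ v * P ^ 5 → v ≤ N →
        ‖wnd (fun m => (aP P m : ℂ) * χ₁ (m : ZMod q)) (N / P ^ 20) v‖ ≤ D) →
      ∀ n : ℕ, n ≤ N → ‖II P N (N / P ^ 20) χ₁ χ₂ n‖ ≤ 4 * N * D + N / (P : ℝ) ^ 4 := by
  refine ⟨⌈Real.exp 864⌉₊ + 2, ?_⟩
  intro N P hN hP hPN q χ₁ χ₂ D hD hwnd n hn
  have hP9 := IIbd_big N P hN hP
  exact IIbd_le N P hP9 hPN q χ₁ χ₂ D hD hwnd n hn

private theorem IIbd_coprime {P q m : ℕ} [NeZero q] (hq : q ≤ P) (h : m.Prime ∧ P < m) :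
    m.Coprime q :=
  Nat.coprime_of_lt_prime (NeZero.pos q).ne' (by omega) h.1

/-- The window averages of `χ` and of the primitive character inducing it agree, since `aP` lives on primes
`> P ≥ q`. -/
theorem wnd_cls (P H v q : ℕ) [NeZero q] (hq : q ≤ P) (χ : DirichletCharacter ℂ q) :
    wnd (fun m => (aP P m : ℂ) * χ (m : ZMod q)) H v =
      wnd (fun m => (aP P m : ℂ) * (cls χ).2 (m : ZMod (cls χ).1)) H v := by
  unfold wnd
  refine Finset.sum_congr rfl fun m _ => ?_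
  congr 1
  by_cases h : m.Prime ∧ P < m
  · have h1 : IsCoprime (m : ℤ) (q : ℤ) := Nat.isCoprime_iff_coprime.2 (IIbd_coprime hq h)
    have h2 := χ.primitiveCharacter_apply_of_isCoprime h1
    have h3 : (cls χ).2 (m : ZMod (cls χ).1) = χ (m : ZMod q) := by
      simp only [Int.cast_natCast] at h2
      exact h2
    show (aP P m : ℂ) * χ (m : ZMod q) = (aP P m : ℂ) * (cls χ).2 (m : ZMod (cls χ).1)
    rw [h3]
  · simp [aP, h]

theorem cls_mem_prims (P q : ℕ) [NeZero q] (hq : q ≤ P) (χ : DirichletCharacter ℂ q) : cls χ ∈ prims P := by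
  have h1 : χ.conductor ∣ q := χ.conductor_dvd_level
  have h2 : χ.conductor ≤ q := Nat.le_of_dvd (NeZero.pos q) h1
  have h3 : 0 < χ.conductor := Nat.pos_of_dvd_of_pos h1 (NeZero.pos q)
  classical
  unfold prims cls
  rw [Finset.mem_sigma]
  refine ⟨Finset.mem_Icc.2 ⟨h3, h2.trans hq⟩, ?_⟩
  unfold PR
  rw [dif_neg h3.ne', Finset.mem_filter]
  exact ⟨Finset.mem_univ _, χ.primitiveCharacter_isPrimitive⟩

theorem cls_eq_ch1_iff (q : ℕ) [NeZero q] (χ : DirichletCharacter ℂ q) : cls χ = ch1 ↔ χ = 1 := by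
  have h1 : ∀ x : CH, x.1 = 1 → x = ch1 := by
    rintro ⟨r, ψ⟩ hr
    simp only at hr
    subst hr
    unfold ch1
    rw [DirichletCharacter.level_one ψ]
  constructor
  · intro h
    have h2 : (cls χ).1 = 1 := by rw [h]; rfl
    exact DirichletCharacter.eq_one_iff_conductor_eq_one.2 h2
  · intro h
    exact h1 _ (DirichletCharacter.eq_one_iff_conductor_eq_one.1 h)

/-- Characters of the same modulus with the same class are equal. -/
theorem cls_inj (q : ℕ) [NeZero q] (χ χ' : DirichletCharacter ℂ q) (h : cls χ = cls χ') : χ = χ' := by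
  have h1 : ∀ x y : CH, x = y → ∀ (hx : x.1 ∣ q) (hy : y.1 ∣ q),
      DirichletCharacter.changeLevel hx x.2 = DirichletCharacter.changeLevel hy y.2 := by
    rintro x y rfl hx hy
    rfl
  have h2 := h1 _ _ h χ.conductor_dvd_level χ'.conductor_dvd_level
  have h3 : DirichletCharacter.changeLevel χ.conductor_dvd_level (cls χ).2 = χ :=
    χ.changeLevel_primitiveCharacter
  have h4 : DirichletCharacter.changeLevel χ'.conductor_dvd_level (cls χ').2 = χ' :=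
    χ'.changeLevel_primitiveCharacter
  rw [← h3, ← h4]
  exact h2

/-- `cq_expand` in the definition of `RM` (the primes in `aP` are larger than `P ≥ q`). The sums over characters
are written over the finite set of all characters modulo `q + 1`. -/
theorem RM_expand (P N H n : ℕ) :
    RM P N H n = ∑ j ∈ range P, (((j + 1).totient : ℂ) ^ 2)⁻¹ *
      ∑ χ₁ : DirichletCharacter ℂ (j + 1), ∑ χ₂ : DirichletCharacter ℂ (j + 1),
        gs χ₁⁻¹ 1 * gs χ₂⁻¹ 1 * gs (χ₁ * χ₂) (-(n : ℤ)) * II P N H χ₁ χ₂ n := by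
  have h0 : ∀ f : ℕ → ℂ, ∑ q ∈ Icc 1 P, f q = ∑ j ∈ range P, f (j + 1) := by
    intro f
    rw [Finset.range_eq_Ico, Finset.sum_Ico_add' f 0 P 1, zero_add]
    rfl
  unfold RM
  have h1 : ∀ m₁ ∈ Icc 1 (2 * N), ∀ m₂ ∈ Icc 1 (2 * N), (aP P m₁ : ℂ) * aP P m₂ *
      (fej H ((m₁ : ℝ) + m₂ - n) : ℂ) * ∑ q ∈ Icc 1 P, cq q ((m₁ : ℤ) + m₂ - n) =
      ∑ j ∈ range P, (((j + 1).totient : ℂ) ^ 2)⁻¹ *
      ∑ χ₁ : DirichletCharacter ℂ (j + 1), ∑ χ₂ : DirichletCharacter ℂ (j + 1),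
        gs χ₁⁻¹ 1 * gs χ₂⁻¹ 1 * gs (χ₁ * χ₂) (-(n : ℤ)) * ((aP P m₁ : ℂ) * aP P m₂ *
    χ₁ (m₁ : ZMod (j + 1)) * χ₂ (m₂ : ZMod (j + 1)) * (fej H ((m₁ : ℝ) + m₂ - n) : ℂ)) := by
    intro m₁ _ m₂ _
    rw [h0, Finset.mul_sum]
    refine Finset.sum_congr rfl fun j hj => ?_
    rw [Finset.mem_range] at hj
    by_cases h : (m₁.Prime ∧ P < m₁) ∧ (m₂.Prime ∧ P < m₂)
    · rw [cq_expand (j + 1) m₁ m₂ n (IIbd_coprime (P := P) (by omega) h.1)
        (IIbd_coprime (P := P) (by omega) h.2)]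
      rw [mul_left_comm]
      congr 1
      rw [Finset.mul_sum]
      refine Finset.sum_congr rfl fun χ₁ _ => ?_
      rw [Finset.mul_sum]
      refine Finset.sum_congr rfl fun χ₂ _ => ?_
      ring
    · have h2 : (aP P m₁ : ℂ) * aP P m₂ = 0 := by
        rw [not_and_or] at h
        rcases h with h | h <;> simp [aP, h]
      rw [h2, zero_mul, zero_mul]
      symm
      rw [mul_eq_zero]
      right
      refine Finset.sum_eq_zero fun χ₁ _ => Finset.sum_eq_zero fun χ₂ _ => ?_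
      simp
  rw [Finset.sum_congr rfl fun m₁ hm₁ => Finset.sum_congr rfl fun m₂ hm₂ => h1 m₁ hm₁ m₂ hm₂]
  simp only [II, Finset.mul_sum]
  have h2 : ∀ (g : ℕ → ℕ → ℕ → ℂ), ∑ m₁ ∈ Icc 1 (2 * N), ∑ m₂ ∈ Icc 1 (2 * N),
      ∑ j ∈ range P, g m₁ m₂ j = ∑ j ∈ range P, ∑ m₁ ∈ Icc 1 (2 * N), ∑ m₂ ∈ Icc 1 (2 * N),
        g m₁ m₂ j := by
    intro g
    rw [Finset.sum_congr rfl fun m₁ _ => Finset.sum_comm, Finset.sum_comm]
  rw [h2]
  refine Finset.sum_congr rfl fun j _ => ?_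
  have h3 : ∀ (g : ℕ → ℕ → DirichletCharacter ℂ (j + 1) → DirichletCharacter ℂ (j + 1) → ℂ),
      ∑ m₁ ∈ Icc 1 (2 * N), ∑ m₂ ∈ Icc 1 (2 * N), ∑ χ₁, ∑ χ₂, g m₁ m₂ χ₁ χ₂ =
      ∑ χ₁, ∑ χ₂, ∑ m₁ ∈ Icc 1 (2 * N), ∑ m₂ ∈ Icc 1 (2 * N), g m₁ m₂ χ₁ χ₂ := by
    intro g
    rw [Finset.sum_congr rfl fun m₁ _ => Finset.sum_comm, Finset.sum_comm]
    refine Finset.sum_congr rfl fun χ₁ _ => ?_
    rw [Finset.sum_congr rfl fun m₁ _ => Finset.sum_comm, Finset.sum_comm]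
  rw [h3]

end Pool.Agent.Lib.MP_629a14_nt.Th
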