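import Mathlib

/-! Divisibility of integers with given digit sum. -/

set_option autoImplicit false

namespace Pool.Agent.Lib.MP_629a14_nt.Th

open Finset

/-- The residues of `2^a`: at most `n/ord + 1` exponents, and `2^ord > m`. -/
theorem pow_two_class (m n : ℕ) (c : ℤ) (hm : Odd m) (h3 : 3 ≤ m) :
    (((Icc 1 n).filter (fun a : ℕ => ((2 : ℤ) ^ a - c) % m = 0)).card : ℝ) ≤ n * Real.log 2 / Real.log m + 1 := by
  have : NeZero m := ⟨by omega⟩
  have hcop : Nat.Coprime 2 m := Nat.coprime_two_left.2 hm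
  set u : (ZMod m)ˣ := ZMod.unitOfCoprime 2 hcop with hu
  have huv : (u : ZMod m) = 2 := by
    rw [hu, ZMod.coe_unitOfCoprime]
    norm_num
  set d : ℕ := orderOf u with hd
  have hd0 : 0 < d := orderOf_pos u
  have hcard : ((Icc 1 n).filter (fun a : ℕ => ((2 : ℤ) ^ a - c) % m = 0)).card ≤ n / d + 1 := by
    have h1 : ((Icc 1 n).filter (fun a : ℕ => ((2 : ℤ) ^ a - c) % m = 0)).card ≤
        (range (n / d + 1)).card := by
      apply Finset.card_le_card_of_injOn (fun a => a / d)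
      · intro a ha
        simp only [Finset.coe_filter, Finset.mem_Icc, Set.mem_ofPred_eq] at ha
        simp only [Finset.coe_range, Set.mem_Iio]
        have := Nat.div_le_div_right (c := d) ha.1.2
        omega
      · intro a ha b hb hab
        simp only [Finset.coe_filter, Finset.mem_Icc, Set.mem_ofPred_eq] at ha hb
        have key : ∀ x : ℕ, ((2 : ℤ) ^ x - c) % m = 0 → ((u ^ x : (ZMod m)ˣ) : ZMod m) = (c : ZMod m) := by
          intro x hx
          have h2 : (m : ℤ) ∣ (2 : ℤ) ^ x - c := Int.dvd_of_emod_eq_zero hx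
          have h3 : (((2 : ℤ) ^ x - c : ℤ) : ZMod m) = 0 := (ZMod.intCast_zmod_eq_zero_iff_dvd _ _).2 h2
          push_cast at h3
          rw [Units.val_pow_eq_pow_val, huv]
          exact sub_eq_zero.1 h3
        have h4 : u ^ a = u ^ b := Units.ext ((key a ha.2).trans (key b hb.2).symm)
        have h5 : a ≡ b [MOD d] := pow_eq_pow_iff_modEq.1 h4
        have h6 : a % d = b % d := h5
        simp only at hab
        rw [← Nat.div_add_mod a d, ← Nat.div_add_mod b d, hab, h6]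
    rwa [card_range] at h1
  have hpow : m < 2 ^ d := by
    have h1 : ((u ^ d : (ZMod m)ˣ) : ZMod m) = 1 := by rw [hd, pow_orderOf_eq_one, Units.val_one]
    rw [Units.val_pow_eq_pow_val, huv] at h1
    have h2 : (((2 : ℤ) ^ d - 1 : ℤ) : ZMod m) = 0 := by
      push_cast
      rw [h1, sub_self]
    have h3' := (ZMod.intCast_zmod_eq_zero_iff_dvd _ _).1 h2
    have h4 : (1 : ℤ) < 2 ^ d := one_lt_pow₀ (by norm_num) hd0.ne'
    have h5 := Int.le_of_dvd (by linarith) h3'
    have h6 : (m : ℤ) < 2 ^ d := by linarith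
    exact_mod_cast h6
  have hm1 : (1 : ℝ) < m := by exact_mod_cast (by omega : 1 < m)
  have hlog : 0 < Real.log m := Real.log_pos hm1
  have hd0' : (0 : ℝ) < d := by exact_mod_cast hd0
  have hle : Real.log m ≤ d * Real.log 2 := by
    rw [← Real.log_pow]
    refine Real.log_le_log (by linarith) ?_
    exact_mod_cast hpow.le
  have h7 : (((Icc 1 n).filter (fun a : ℕ => ((2 : ℤ) ^ a - c) % m = 0)).card : ℝ) ≤
      ((n / d + 1 : ℕ) : ℝ) := by exact_mod_cast hcard
  refine h7.trans ?_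
  push_cast
  have h8 : ((n / d : ℕ) : ℝ) ≤ (n : ℝ) / d := Nat.cast_div_le
  have h9 : (n : ℝ) / d ≤ n * Real.log 2 / Real.log m := by
    rw [div_le_div_iff₀ hd0' hlog]
    have hn : (0 : ℝ) ≤ n := Nat.cast_nonneg _
    nlinarith
  linarith

private theorem BinD_count (m n j : ℕ) (c : ℤ) (hm : Odd m) (h3 : 3 ≤ m) (hj : 1 ≤ j) (hjn : 2 * j ≤ n) :
    (((powersetCard j (Icc 1 n)).filter (fun A => (m : ℤ) ∣ c - ∑ a ∈ A, (2 : ℤ) ^ a)).card : ℝ) ≤
      2 / n * (n.choose j : ℝ) * (n * Real.log 2 / Real.log m + 1) := by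
  classical
  set F := (powersetCard j (Icc 1 n)).filter (fun A => (m : ℤ) ∣ c - ∑ a ∈ A, (2 : ℤ) ^ a) with hF
  set X : ℝ := n * Real.log 2 / Real.log m + 1 with hX
  set Q := (powersetCard (j - 1) (Icc 1 n)).sigma
    (fun B => (Icc 1 n).filter (fun a : ℕ => ((2 : ℤ) ^ a - (c - ∑ b ∈ B, (2 : ℤ) ^ b)) % m = 0)) with hQ
  have hP : (F.sigma (fun A => A)).card = F.card * j := by
    rw [card_sigma]
    have : ∀ A ∈ F, A.card = j := by
      intro A hA
      rw [hF, mem_filter, mem_powersetCard] at hA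
      exact hA.1.2
    rw [sum_congr rfl this, sum_const, smul_eq_mul]
  have hPQ : (F.sigma (fun A => A)).card ≤ Q.card := by
    apply Finset.card_le_card_of_injOn (fun p => (⟨p.1.erase p.2, p.2⟩ : Σ _ : Finset ℕ, ℕ))
    · rintro ⟨A, a⟩ hp
      rw [mem_coe, mem_sigma] at hp
      obtain ⟨hA, ha⟩ := hp
      simp only at ha
      rw [hF, mem_filter, mem_powersetCard] at hA
      obtain ⟨⟨hA1, hA2⟩, hA3⟩ := hA
      simp only
      rw [mem_coe, hQ, mem_sigma]
      refine ⟨?_, ?_⟩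
      · rw [mem_powersetCard]
        refine ⟨(erase_subset _ _).trans hA1, ?_⟩
        rw [card_erase_of_mem ha, hA2]
      · simp only
        rw [mem_filter]
        refine ⟨hA1 ha, ?_⟩
        apply Int.emod_eq_zero_of_dvd
        have h1 : ∑ b ∈ A.erase a, (2 : ℤ) ^ b + 2 ^ a = ∑ b ∈ A, (2 : ℤ) ^ b := sum_erase_add _ _ ha
        have h2 : (2 : ℤ) ^ a - (c - ∑ b ∈ A.erase a, (2 : ℤ) ^ b) = -(c - ∑ b ∈ A, (2 : ℤ) ^ b) := by
          rw [← h1]; ring
        rw [h2]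
        exact (dvd_neg).2 hA3
    · rintro ⟨A, a⟩ hp ⟨A', a'⟩ hp' heq
      rw [mem_coe, mem_sigma] at hp hp'
      simp only [Sigma.mk.injEq] at heq
      obtain ⟨h1, h2⟩ := heq
      have h2' : a = a' := eq_of_heq h2
      subst h2'
      have ha : a ∈ A := hp.2
      have ha' : a ∈ A' := hp'.2
      have h3 : A = A' := by
        rw [← insert_erase ha, ← insert_erase ha', h1]
      subst h3
      rfl
  have hQc : (Q.card : ℝ) ≤ (n.choose (j - 1) : ℝ) * X := by
    rw [hQ, card_sigma]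
    push_cast
    refine (sum_le_sum (fun B _ => pow_two_class m n (c - ∑ b ∈ B, (2 : ℤ) ^ b) hm h3)).trans ?_
    rw [sum_const, card_powersetCard, Nat.card_Icc, Nat.add_sub_cancel, nsmul_eq_mul]
  have hch : n.choose j * j = n.choose (j - 1) * (n - (j - 1)) := by
    have h := Nat.choose_succ_right_eq n (j - 1)
    rwa [Nat.sub_add_cancel hj] at h
  have hch' : (n.choose j : ℝ) * j = (n.choose (j - 1) : ℝ) * (((n - (j - 1) : ℕ) : ℝ)) := by
    exact_mod_cast hch
  have hn0 : (0 : ℝ) < n := by exact_mod_cast (by omega : 0 < n)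
  have hj0 : (0 : ℝ) < j := by exact_mod_cast hj
  have hhalf : (n : ℝ) / 2 ≤ ((n - (j - 1) : ℕ) : ℝ) := by
    have : n ≤ 2 * (n - (j - 1)) := by omega
    have h' : (n : ℝ) ≤ 2 * ((n - (j - 1) : ℕ) : ℝ) := by exact_mod_cast this
    linarith
  have hlog : 0 < Real.log m := Real.log_pos (by exact_mod_cast (by omega : 1 < m))
  have hX0 : 0 ≤ X := by
    have : 0 ≤ Real.log 2 := Real.log_nonneg (by norm_num)
    positivity
  have h1 : (F.card : ℝ) * j ≤ (n.choose (j - 1) : ℝ) * X := by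
    refine le_trans ?_ hQc
    have : F.card * j ≤ Q.card := by rw [← hP]; exact hPQ
    exact_mod_cast this
  have h2 : (F.card : ℝ) * j * ((n : ℝ) / 2) ≤ (n.choose j : ℝ) * j * X := by
    have h0 : 0 ≤ (F.card : ℝ) * j := by positivity
    calc (F.card : ℝ) * j * ((n : ℝ) / 2) ≤ (F.card : ℝ) * j * ((n - (j - 1) : ℕ) : ℝ) :=
          mul_le_mul_of_nonneg_left hhalf h0
      _ ≤ (n.choose (j - 1) : ℝ) * X * ((n - (j - 1) : ℕ) : ℝ) :=
          mul_le_mul_of_nonneg_right h1 (Nat.cast_nonneg _)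
      _ = (n.choose j : ℝ) * j * X := by rw [hch']; ring
  have h3' : (F.card : ℝ) * ((n : ℝ) / 2) ≤ (n.choose j : ℝ) * X := by
    have h4 : (F.card : ℝ) * ((n : ℝ) / 2) * j ≤ (n.choose j : ℝ) * X * j := by nlinarith
    exact le_of_mul_le_mul_right h4 hj0
  have h5 : 2 / (n : ℝ) * (n.choose j : ℝ) * X = (n.choose j : ℝ) * X / ((n : ℝ) / 2) := by
    field_simp
  rw [h5, le_div_iff₀ (by positivity)]
  exact h3'

private theorem BinD_sum (n : ℕ) : ∑ a ∈ Icc 1 n, (2 : ℤ) ^ a = 2 ^ (n + 1) - 2 := by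
  induction n with
  | zero => simp
  | succ n ih =>
    rw [← Finset.insert_Icc_right_eq_Icc_add_one (by omega), sum_insert (by simp), ih]
    ring

private theorem BinD_final (m n j : ℕ) (c : ℤ) (hm : Odd m) (h3 : 3 ≤ m) (hj : 1 ≤ j) (hjn : 2 * j ≤ n)
    (hmn : m < 2 ^ (n + 2)) :
    (((powersetCard j (Icc 1 n)).filter (fun A => (m : ℤ) ∣ c - ∑ a ∈ A, (2 : ℤ) ^ a)).card : ℝ) ≤
      8 / Real.log m * (n.choose j : ℝ) := by
  refine (BinD_count m n j c hm h3 hj hjn).trans ?_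
  have hn1 : (1 : ℝ) ≤ n := by exact_mod_cast (by omega : 1 ≤ n)
  have hn0 : (0 : ℝ) < n := by linarith
  have hlog : 0 < Real.log m := Real.log_pos (by exact_mod_cast (by omega : 1 < m))
  have hl2 : Real.log 2 ≤ 1 := by
    have := Real.log_two_lt_d9
    linarith
  have hl2' : 0 < Real.log 2 := Real.log_pos (by norm_num)
  have hle : Real.log m ≤ (n + 2) * Real.log 2 := by
    have h1 : (((n + 2 : ℕ) : ℝ)) * Real.log 2 = Real.log ((2 : ℝ) ^ (n + 2)) := by
      rw [Real.log_pow]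
    have h2 : ((n : ℝ) + 2) = ((n + 2 : ℕ) : ℝ) := by push_cast; ring
    rw [h2, h1]
    refine Real.log_le_log (by exact_mod_cast (by omega : 0 < m)) ?_
    exact_mod_cast hmn.le
  have hle2 : Real.log m ≤ 3 * n := by nlinarith
  have hC : (0 : ℝ) ≤ (n.choose j : ℝ) := Nat.cast_nonneg _
  have key : 2 / (n : ℝ) * (n * Real.log 2 / Real.log m + 1) ≤ 8 / Real.log m := by
    have h1 : 2 / (n : ℝ) * (n * Real.log 2 / Real.log m + 1) =
        (2 * Real.log 2 * n + 2 * Real.log m) / (n * Real.log m) := by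
      field_simp
    rw [h1, div_le_div_iff₀ (by positivity) hlog]
    nlinarith [mul_pos hn0 hlog]
  calc 2 / (n : ℝ) * (n.choose j : ℝ) * (n * Real.log 2 / Real.log m + 1)
      = (2 / (n : ℝ) * (n * Real.log 2 / Real.log m + 1)) * (n.choose j : ℝ) := by ring
    _ ≤ _ := mul_le_mul_of_nonneg_right key hC

/-- Proof. For `2j ≤ n`: count pairs `(B, a)` with `A = B ∪ {a}`, `|B| = j-1`: `j · #bad ≤ C(n,j-1) (n log 2/log m + 1)` by
`pow_two_class`, and `C(n,j-1)/C(n,j) = j/(n-j+1) ≤ 2j/n`; for `m < 2^(n+2)` also `1/n ≤ 3/log m`, and for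
`m ≥ 2^(n+2)` nothing is divisible by `m`. For `2j > n` use the complement of `A`:
`∑_{a ∈ A} 2^a = 2^(n+1) - 2 - ∑_{a ∉ A} 2^a`. -/
theorem bin_div : ∃ K : ℝ, 1 ≤ K ∧ ∀ n j m : ℕ, 1 ≤ j → j < n → Odd m → 3 ≤ m →
    (((powersetCard j (Icc 1 n)).filter (fun A => m ∣ 2 ^ (n + 1) + ∑ a ∈ A, 2 ^ a)).card : ℝ) ≤
      K / Real.log m * (n.choose j : ℝ) := by
  classical
  refine ⟨8, by norm_num, fun n j m hj hjn hm h3 => ?_⟩
  have hlog : 0 < Real.log m := Real.log_pos (by exact_mod_cast (by omega : 1 < m))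
  by_cases hmn : m < 2 ^ (n + 2)
  · by_cases h2 : 2 * j ≤ n
    · refine le_trans ?_ (BinD_final m n j (-(2 ^ (n + 1))) hm h3 hj h2 hmn)
      have : ((powersetCard j (Icc 1 n)).filter (fun A => m ∣ 2 ^ (n + 1) + ∑ a ∈ A, 2 ^ a)).card ≤
          ((powersetCard j (Icc 1 n)).filter
            (fun A => (m : ℤ) ∣ -(2 ^ (n + 1)) - ∑ a ∈ A, (2 : ℤ) ^ a)).card := by
        refine card_le_card fun A hA => ?_
        rw [mem_filter] at hA ⊢
        refine ⟨hA.1, ?_⟩
        have h4 : (m : ℤ) ∣ ((2 ^ (n + 1) + ∑ a ∈ A, 2 ^ a : ℕ) : ℤ) := Int.natCast_dvd_natCast.2 hA.2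
        push_cast at h4
        have h5 : -(2 ^ (n + 1)) - ∑ a ∈ A, (2 : ℤ) ^ a = -(2 ^ (n + 1) + ∑ a ∈ A, (2 : ℤ) ^ a) := by ring
        rw [h5]
        exact (dvd_neg).2 h4
      exact_mod_cast this
    · have hj' : 1 ≤ n - j := by omega
      have hjn' : 2 * (n - j) ≤ n := by omega
      have hfin := BinD_final m n (n - j) (2 ^ (n + 2) - 2) hm h3 hj' hjn' hmn
      rw [Nat.choose_symm hjn.le] at hfin
      refine le_trans ?_ hfin
      have : ((powersetCard j (Icc 1 n)).filter (fun A => m ∣ 2 ^ (n + 1) + ∑ a ∈ A, 2 ^ a)).card ≤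
          ((powersetCard (n - j) (Icc 1 n)).filter
            (fun A => (m : ℤ) ∣ (2 ^ (n + 2) - 2) - ∑ a ∈ A, (2 : ℤ) ^ a)).card := by
        apply Finset.card_le_card_of_injOn (fun A => Icc 1 n \ A)
        · intro A hA
          rw [mem_coe, mem_filter, mem_powersetCard] at hA
          obtain ⟨⟨hA1, hA2⟩, hA3⟩ := hA
          simp only
          rw [mem_coe, mem_filter, mem_powersetCard]
          refine ⟨⟨sdiff_subset, ?_⟩, ?_⟩
          · rw [card_sdiff_of_subset hA1, Nat.card_Icc, hA2]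
            omega
          · have h4 : (m : ℤ) ∣ ((2 ^ (n + 1) + ∑ a ∈ A, 2 ^ a : ℕ) : ℤ) := Int.natCast_dvd_natCast.2 hA3
            push_cast at h4
            have h5 : ∑ a ∈ Icc 1 n \ A, (2 : ℤ) ^ a + ∑ a ∈ A, (2 : ℤ) ^ a = ∑ a ∈ Icc 1 n, (2 : ℤ) ^ a :=
              sum_sdiff hA1
            rw [BinD_sum] at h5
            have h6 : (2 : ℤ) ^ (n + 2) - 2 - ∑ a ∈ Icc 1 n \ A, (2 : ℤ) ^ a =
                2 ^ (n + 1) + ∑ a ∈ A, (2 : ℤ) ^ a := by
              have : ∑ a ∈ Icc 1 n \ A, (2 : ℤ) ^ a = 2 ^ (n + 1) - 2 - ∑ a ∈ A, (2 : ℤ) ^ a := by linarith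
              rw [this]
              ring
            rw [h6]
            exact h4
        · intro A hA B hB hAB
          rw [mem_coe, mem_filter, mem_powersetCard] at hA hB
          simp only at hAB
          rw [← Finset.sdiff_sdiff_eq_self hA.1.1, ← Finset.sdiff_sdiff_eq_self hB.1.1, hAB]
      exact_mod_cast this
  · rw [not_lt] at hmn
    have hempty : (powersetCard j (Icc 1 n)).filter (fun A => m ∣ 2 ^ (n + 1) + ∑ a ∈ A, 2 ^ a) = ∅ := by
      rw [filter_eq_empty_iff]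
      intro A hA hdvd
      rw [mem_powersetCard] at hA
      have h4 := Nat.le_of_dvd (by positivity) hdvd
      have h5 : ∑ a ∈ A, (2 : ℤ) ^ a ≤ ∑ a ∈ Icc 1 n, (2 : ℤ) ^ a :=
        sum_le_sum_of_subset_of_nonneg hA.1 (fun _ _ _ => by positivity)
      rw [BinD_sum] at h5
      have h6 : ((2 ^ (n + 1) + ∑ a ∈ A, 2 ^ a : ℕ) : ℤ) < 2 ^ (n + 2) := by
        push_cast
        have : (2 : ℤ) ^ (n + 2) = 2 ^ (n + 1) + 2 ^ (n + 1) := by ring
        rw [this]
        linarith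
      have h7 : 2 ^ (n + 1) + ∑ a ∈ A, 2 ^ a < 2 ^ (n + 2) := by exact_mod_cast h6
      omega
    rw [hempty, card_empty, Nat.cast_zero]
    positivity

end Pool.Agent.Lib.MP_629a14_nt.Th
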