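import Mathlib

/-! Elementary symmetric functions of unit complex numbers. -/

set_option autoImplicit false

namespace Pool.Agent.Lib.MP_629a14_nt.Th

open Finset

/-- `|1 + ρw|² = (1+ρ)² - 2ρ(1 - Re w)` for `|w| = 1`. -/
theorem norm_one_add_le (ρ : ℝ) (hρ : 0 ≤ ρ) (w : ℂ) (hw : ‖w‖ = 1) :
    ‖1 + (ρ : ℂ) * w‖ ≤ (1 + ρ) * Real.exp (-(ρ / (1 + ρ) ^ 2 * (1 - w.re))) := by
  have h1 : 0 < 1 + ρ := by linarith
  have hw2 : w.re ^ 2 + w.im ^ 2 = 1 := by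
    have h := Complex.sq_norm w
    rw [hw, Complex.normSq_apply] at h
    nlinarith
  have h2 : ‖1 + (ρ : ℂ) * w‖ ^ 2 = (1 + ρ) ^ 2 - 2 * ρ * (1 - w.re) := by
    rw [Complex.sq_norm, Complex.normSq_apply]
    simp only [Complex.add_re, Complex.one_re, Complex.mul_re, Complex.ofReal_re, Complex.ofReal_im,
      Complex.add_im, Complex.one_im, Complex.mul_im]
    nlinarith
  have h3 : ‖1 + (ρ : ℂ) * w‖ ^ 2 ≤ ((1 + ρ) * Real.exp (-(ρ / (1 + ρ) ^ 2 * (1 - w.re)))) ^ 2 := by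
    rw [h2, mul_pow, ← Real.exp_nat_mul]
    have h4 := Real.add_one_le_exp (((2 : ℕ) : ℝ) * -(ρ / (1 + ρ) ^ 2 * (1 - w.re)))
    have h5 : (1 + ρ) ^ 2 - 2 * ρ * (1 - w.re) =
        (1 + ρ) ^ 2 * (((2 : ℕ) : ℝ) * -(ρ / (1 + ρ) ^ 2 * (1 - w.re)) + 1) := by
      push_cast
      field_simp
      ring
    rw [h5]
    exact mul_le_mul_of_nonneg_left h4 (by positivity)
  exact le_of_sq_le_sq h3 (by positivity)

private theorem BinE_step (n j i : ℕ) (h2 : j < n) (hi : i < n) :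
    ((n.choose (i + 1) : ℝ) * ((j : ℝ) / (n - j)) ^ (i + 1)) * ((i + 1) * (n - j)) =
      ((n.choose i : ℝ) * ((j : ℝ) / (n - j)) ^ i) * ((n - i) * j) := by
  have h3 : (n.choose (i + 1) : ℝ) * (i + 1) = (n.choose i : ℝ) * (n - i) := by
    have h := Nat.choose_succ_right_eq n i
    have h4 : ((n.choose (i + 1) * (i + 1) : ℕ) : ℝ) = ((n.choose i * (n - i) : ℕ) : ℝ) := by rw [h]
    rw [Nat.cast_mul, Nat.cast_mul, Nat.cast_sub hi.le] at h4
    push_cast at h4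
    exact h4
  have h5 : (0 : ℝ) < (n : ℝ) - j := by
    have : (j : ℝ) < n := by exact_mod_cast h2
    linarith
  have h6 : ((j : ℝ) / (n - j)) ^ (i + 1) * (n - j) = ((j : ℝ) / (n - j)) ^ i * j := by
    rw [pow_succ, mul_assoc, div_mul_cancel₀ _ h5.ne']
  calc ((n.choose (i + 1) : ℝ) * ((j : ℝ) / (n - j)) ^ (i + 1)) * ((i + 1) * (n - j))
      = ((n.choose (i + 1) : ℝ) * (i + 1)) * (((j : ℝ) / (n - j)) ^ (i + 1) * (n - j)) := by ring
    _ = ((n.choose i : ℝ) * (n - i)) * (((j : ℝ) / (n - j)) ^ i * j) := by rw [h3, h6]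
    _ = _ := by ring

private theorem BinE_max (n j i : ℕ) (h2 : j < n) (hi : i ≤ n) :
    (n.choose i : ℝ) * ((j : ℝ) / (n - j)) ^ i ≤ (n.choose j : ℝ) * ((j : ℝ) / (n - j)) ^ j := by
  have h5 : (0 : ℝ) < (n : ℝ) - j := by
    have : (j : ℝ) < n := by exact_mod_cast h2
    linarith
  have hnn : ∀ i : ℕ, 0 ≤ (n.choose i : ℝ) * ((j : ℝ) / (n - j)) ^ i := fun i => by positivity
  rcases le_total i j with h | h
  · -- increasing part
    obtain ⟨d, rfl⟩ : ∃ d, j = i + d := ⟨j - i, by omega⟩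
    have key : ∀ d' ≤ d, (n.choose i : ℝ) * (((i + d : ℕ) : ℝ) / (n - (i + d : ℕ))) ^ i ≤
        (n.choose (i + d') : ℝ) * (((i + d : ℕ) : ℝ) / (n - (i + d : ℕ))) ^ (i + d') := by
      intro d' hd'
      induction d' with
      | zero => exact le_rfl
      | succ d' ih =>
        refine (ih (by omega)).trans ?_
        have hs := BinE_step n (i + d) (i + d') h2 (by omega)
        have h7 : (((i + d' : ℕ) : ℝ) + 1) * (n - ((i + d : ℕ) : ℝ)) ≤
            ((n : ℝ) - ((i + d' : ℕ) : ℝ)) * ((i + d : ℕ) : ℝ) := by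
          have h8 : (((i + d' : ℕ) : ℝ) + 1) ≤ ((i + d : ℕ) : ℝ) := by exact_mod_cast (by omega : i + d' + 1 ≤ i + d)
          have h9 : ((i + d : ℕ) : ℝ) ≤ n := by exact_mod_cast h2.le
          nlinarith [Nat.cast_nonneg (α := ℝ) (i + d')]
        have h10 : 0 < (((i + d' : ℕ) : ℝ) + 1) * (n - ((i + d : ℕ) : ℝ)) := mul_pos (by positivity) h5
        refine le_of_mul_le_mul_right ?_ h10
        rw [← add_assoc, hs]
        exact mul_le_mul_of_nonneg_left h7 (hnn _)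
    exact key d le_rfl
  · -- decreasing part
    obtain ⟨d, rfl⟩ : ∃ d, i = j + d := ⟨i - j, by omega⟩
    have key : ∀ d' ≤ d, (n.choose (j + d') : ℝ) * ((j : ℝ) / (n - j)) ^ (j + d') ≤
        (n.choose j : ℝ) * ((j : ℝ) / (n - j)) ^ j := by
      intro d' hd'
      induction d' with
      | zero => exact le_rfl
      | succ d' ih =>
        refine le_trans ?_ (ih (by omega))
        have hs := BinE_step n j (j + d') h2 (by omega)
        have h7 : ((n : ℝ) - ((j + d' : ℕ) : ℝ)) * (j : ℝ) ≤ (((j + d' : ℕ) : ℝ) + 1) * (n - (j : ℝ)) := by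
          have h8 : (j : ℝ) ≤ ((j + d' : ℕ) : ℝ) := by exact_mod_cast (by omega : j ≤ j + d')
          have h9 : (j : ℝ) ≤ n := by exact_mod_cast h2.le
          nlinarith [Nat.cast_nonneg (α := ℝ) j, Nat.cast_nonneg (α := ℝ) n]
        have h10 : 0 < (((j + d' : ℕ) : ℝ) + 1) * (n - (j : ℝ)) := mul_pos (by positivity) h5
        refine le_of_mul_le_mul_right ?_ h10
        rw [← add_assoc, hs]
        exact mul_le_mul_of_nonneg_left h7 (hnn _)
    exact key d le_rfl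

/-- The binomial distribution with `n` trials and mean `j` has its maximal value at `j`. -/
theorem choose_mode (n j : ℕ) (h1 : 1 ≤ j) (h2 : j < n) :
    (1 + (j : ℝ) / (n - j)) ^ n ≤ (n + 1) * ((n.choose j : ℝ) * ((j : ℝ) / (n - j)) ^ j) := by
  rw [add_comm (1 : ℝ), add_pow]
  have h3 : ∀ i ∈ range (n + 1), ((j : ℝ) / (n - j)) ^ i * 1 ^ (n - i) * (n.choose i : ℝ) ≤
      (n.choose j : ℝ) * ((j : ℝ) / (n - j)) ^ j := by
    intro i hi
    rw [one_pow, mul_one, mul_comm]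
    exact BinE_max n j i h2 (by have := mem_range.1 hi; omega)
  refine (sum_le_sum h3).trans ?_
  rw [sum_const, card_range, nsmul_eq_mul]
  push_cast
  exact le_rfl

private theorem BinE_expand (s : Finset ℕ) (z : ℕ → ℂ) (x : ℂ) :
    ∏ a ∈ s, (1 + x * z a) = ∑ A ∈ s.powerset, x ^ A.card * ∏ a ∈ A, z a := by
  have h := Finset.prod_one_add (f := fun a => x * z a) s
  rw [h]
  refine sum_congr rfl fun A _ => ?_
  rw [prod_mul_distrib, prod_const]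

private theorem BinE_root (M i j : ℕ) (hi : i < M) (hj : j < M) (ζ : ℂ) (hζ : IsPrimitiveRoot ζ M) :
    ∑ k ∈ range M, ((ζ ^ k)⁻¹) ^ j * (ζ ^ k) ^ i = if i = j then (M : ℂ) else 0 := by
  have hζ0 : ζ ≠ 0 := hζ.ne_zero (by omega)
  have h1 : ∀ k, ((ζ ^ k)⁻¹) ^ j * (ζ ^ k) ^ i = ((ζ ^ j)⁻¹ * ζ ^ i) ^ k := by
    intro k
    rw [mul_pow, inv_pow, inv_pow, ← pow_mul, ← pow_mul, ← pow_mul, ← pow_mul, mul_comm k j, mul_comm k i]
  rw [sum_congr rfl fun k _ => h1 k]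
  split_ifs with h
  · subst h
    rw [inv_mul_cancel₀ (pow_ne_zero _ hζ0)]
    simp
  · have h2 : (ζ ^ j)⁻¹ * ζ ^ i ≠ 1 := by
      intro h3
      apply h
      refine hζ.pow_inj hi hj ?_
      calc ζ ^ i = ζ ^ j * ((ζ ^ j)⁻¹ * ζ ^ i) := by
            rw [← mul_assoc, mul_inv_cancel₀ (pow_ne_zero _ hζ0), one_mul]
        _ = ζ ^ j := by rw [h3, mul_one]
    rw [geom_sum_eq h2]
    have h4 : ((ζ ^ j)⁻¹ * ζ ^ i) ^ M = 1 := by
      rw [mul_pow, inv_pow, ← pow_mul, ← pow_mul, mul_comm j, mul_comm i, pow_mul, pow_mul, hζ.pow_eq_one]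
      simp
    rw [h4, sub_self, zero_div]

/-- Proof. With `ρ = j/(n-j)`, the coefficient of `u^j` in `∏_a (1 + ρ u z_a)` is `ρ^j e_j(z)`, hence at most
`max_{|u|=1} ∏ |1 + ρ u z_a|` in absolute value (compactness: the maximum is attained at some `u`); then
`norm_one_add_le` and `choose_mode`; `ρ/(1+ρ)² = j(n-j)/n²`. -/
theorem esymm_bound (n j : ℕ) (h1 : 1 ≤ j) (h2 : j < n) (z : ℕ → ℂ) (hz : ∀ a, ‖z a‖ = 1) :
    ∃ u : ℂ, ‖u‖ = 1 ∧ ‖∑ A ∈ powersetCard j (Icc 1 n), ∏ a ∈ A, z a‖ ≤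
      (n + 1) * (n.choose j : ℝ) *
        Real.exp (-((j : ℝ) * (n - j) / n ^ 2 * ∑ a ∈ Icc 1 n, (1 - (u * z a).re))) := by
  have h5 : (0 : ℝ) < (n : ℝ) - j := by
    have : (j : ℝ) < n := by exact_mod_cast h2
    linarith
  have hj0 : (0 : ℝ) < j := by exact_mod_cast h1
  have hn0 : (0 : ℝ) < n := by linarith
  set ρ : ℝ := (j : ℝ) / (n - j) with hρ
  have hρ0 : 0 < ρ := div_pos hj0 h5
  set E : ℂ := ∑ A ∈ powersetCard j (Icc 1 n), ∏ a ∈ A, z a with hE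
  set ζ : ℂ := Complex.exp (2 * Real.pi * Complex.I / ((n + 1 : ℕ) : ℂ)) with hζd
  have hζ : IsPrimitiveRoot ζ (n + 1) := Complex.isPrimitiveRoot_exp (n + 1) (by omega)
  have hζn : ‖ζ‖ = 1 := Complex.norm_eq_one_of_pow_eq_one hζ.pow_eq_one (by omega)
  have hsum : ∑ k ∈ range (n + 1), ((ζ ^ k)⁻¹) ^ j * ∏ a ∈ Icc 1 n, (1 + (ρ * ζ ^ k) * z a) =
      ((n + 1 : ℕ) : ℂ) * ((ρ : ℂ) ^ j * E) := by
    simp_rw [BinE_expand]
    have h6 : ∀ k, ((ζ ^ k)⁻¹) ^ j * ∑ A ∈ (Icc 1 n).powerset, ((ρ : ℂ) * ζ ^ k) ^ A.card * ∏ a ∈ A, z a =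
        ∑ A ∈ (Icc 1 n).powerset, ((ρ : ℂ) ^ A.card * ∏ a ∈ A, z a) *
          (((ζ ^ k)⁻¹) ^ j * (ζ ^ k) ^ A.card) := by
      intro k
      rw [mul_sum]
      refine sum_congr rfl fun A _ => ?_
      rw [mul_pow]
      ring
    rw [sum_congr rfl fun k _ => h6 k, sum_comm]
    have h7 : ∀ A ∈ (Icc 1 n).powerset, ∑ k ∈ range (n + 1), ((ρ : ℂ) ^ A.card * ∏ a ∈ A, z a) *
          (((ζ ^ k)⁻¹) ^ j * (ζ ^ k) ^ A.card) =
        if A.card = j then ((n + 1 : ℕ) : ℂ) * ((ρ : ℂ) ^ j * ∏ a ∈ A, z a) else 0 := by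
      intro A hA
      have hcard : A.card < n + 1 := by
        have := card_le_card (mem_powerset.1 hA)
        rw [Nat.card_Icc] at this
        omega
      rw [← mul_sum, BinE_root (n + 1) A.card j hcard (by omega) ζ hζ]
      split_ifs with h8
      · rw [h8]; ring
      · rw [mul_zero]
    rw [sum_congr rfl h7, ← sum_filter, hE, mul_sum, mul_sum]
    refine sum_congr ?_ fun _ _ => rfl
    ext A
    rw [mem_filter, mem_powersetCard, mem_powerset]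
  have hnorm : ∑ k ∈ range (n + 1), ρ ^ j * ‖E‖ ≤
      ∑ k ∈ range (n + 1), ‖∏ a ∈ Icc 1 n, (1 + (ρ * ζ ^ k) * z a)‖ := by
    rw [sum_const, card_range, nsmul_eq_mul]
    have h8 : ‖((n + 1 : ℕ) : ℂ) * ((ρ : ℂ) ^ j * E)‖ = ((n + 1 : ℕ) : ℝ) * (ρ ^ j * ‖E‖) := by
      rw [norm_mul, norm_mul, norm_pow, Complex.norm_natCast, Complex.norm_real, Real.norm_of_nonneg hρ0.le]
    rw [← h8, ← hsum]
    refine (norm_sum_le _ _).trans (sum_le_sum fun k _ => ?_)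
    rw [norm_mul, norm_pow, norm_inv, norm_pow, hζn]
    simp
  obtain ⟨k, -, hk⟩ := exists_le_of_sum_le (by simp) hnorm
  refine ⟨ζ ^ k, by rw [norm_pow, hζn, one_pow], ?_⟩
  have hprod : ‖∏ a ∈ Icc 1 n, (1 + (ρ * ζ ^ k) * z a)‖ ≤
      (1 + ρ) ^ n * Real.exp (-((j : ℝ) * (n - j) / n ^ 2 * ∑ a ∈ Icc 1 n, (1 - (ζ ^ k * z a).re))) := by
    rw [norm_prod]
    have h9 : ∀ a ∈ Icc 1 n, ‖1 + ((ρ : ℂ) * ζ ^ k) * z a‖ ≤
        (1 + ρ) * Real.exp (-(ρ / (1 + ρ) ^ 2 * (1 - (ζ ^ k * z a).re))) := by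
      intro a _
      rw [mul_assoc]
      exact norm_one_add_le ρ hρ0.le _ (by rw [norm_mul, norm_pow, hζn, one_pow, hz a, one_mul])
    refine (prod_le_prod (fun _ _ => norm_nonneg _) h9).trans ?_
    rw [prod_mul_distrib, prod_const, Nat.card_Icc, ← Real.exp_sum]
    have h10 : ρ / (1 + ρ) ^ 2 = (j : ℝ) * (n - j) / n ^ 2 := by
      rw [hρ]
      field_simp
      ring
    rw [h10, sum_neg_distrib, ← mul_sum, Nat.add_sub_cancel]
  have h11 := hk.trans hprod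
  have h12 := choose_mode n j h1 h2
  rw [← hρ] at h12
  have hpos : (0 : ℝ) < ρ ^ j := by positivity
  refine le_of_mul_le_mul_left ?_ hpos
  refine h11.trans ?_
  calc (1 + ρ) ^ n * Real.exp (-((j : ℝ) * (n - j) / n ^ 2 * ∑ a ∈ Icc 1 n, (1 - (ζ ^ k * z a).re)))
      ≤ ((n + 1) * ((n.choose j : ℝ) * ρ ^ j)) *
        Real.exp (-((j : ℝ) * (n - j) / n ^ 2 * ∑ a ∈ Icc 1 n, (1 - (ζ ^ k * z a).re))) :=
        mul_le_mul_of_nonneg_right h12 (Real.exp_pos _).le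
    _ = _ := by ring

end Pool.Agent.Lib.MP_629a14_nt.Th
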