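import Pool.Agent.Lib.MP_629a14_nt.Th.Fin
import Pool.Agent.Lib.MP_629a14_nt.Th.Local

/-! The number of zeros near a given height. -/

set_option autoImplicit false

namespace Pool.Agent.Lib.MP_629a14_nt.Th

open Finset

private theorem CountZ_mul_nonneg (f : ℂ → ℂ) (ρ : ℂ) : 0 ≤ mul f ρ := by
  unfold mul
  positivity

private theorem CountZ_cover (ρ : ℂ) (t : ℝ) (h1 : 15 / 16 ≤ ρ.re) (h2 : ρ.re < 1)
    (h3 : |ρ.im - t| ≤ 1 / 2) :
    ∃ j ∈ Finset.Icc (-3 : ℤ) 3, ‖ρ - ctr (t + j / 5)‖ ≤ 1 / 4 := by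
  set j : ℤ := round (5 * (ρ.im - t)) with hj
  have ha : |5 * (ρ.im - t) - j| ≤ 1 / 2 := abs_sub_round _
  have h3' := abs_le.mp h3
  have ha' := abs_le.mp ha
  have hj1 : (-3 : ℝ) ≤ j := by linarith [h3'.1, ha'.2]
  have hj2 : (j : ℝ) ≤ 3 := by linarith [h3'.2, ha'.1]
  refine ⟨j, ?_, ?_⟩
  · rw [Finset.mem_Icc]
    exact ⟨by exact_mod_cast hj1, by exact_mod_cast hj2⟩
  · have hre : (ρ - ctr (t + j / 5)).re = ρ.re - 17 / 16 := by
      unfold ctr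
      simp only [Complex.sub_re, Complex.add_re, Complex.mul_re, Complex.ofReal_re,
        Complex.ofReal_im, Complex.I_re, Complex.I_im]
      norm_num
    have him : (ρ - ctr (t + j / 5)).im = ρ.im - (t + j / 5) := by
      unfold ctr
      simp only [Complex.sub_im, Complex.add_im, Complex.mul_im, Complex.ofReal_re,
        Complex.ofReal_im, Complex.I_re, Complex.I_im]
      norm_num
    refine (Complex.norm_le_abs_re_add_abs_im _).trans ?_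
    rw [hre, him]
    have e1 : |ρ.re - 17 / 16| ≤ 1 / 8 := by
      rw [abs_le]
      constructor <;> linarith
    have e2 : |ρ.im - (t + j / 5)| ≤ 1 / 10 := by
      rw [abs_le]
      constructor
      · linarith [ha'.1]
      · linarith [ha'.2]
    linarith

private theorem CountZ_gen (f : ℂ → ℂ) (S : Finset ℂ) (t B : ℝ)
    (hS : ∀ ρ ∈ S, f ρ = 0 ∧ 15 / 16 ≤ ρ.re ∧ ρ.re < 1 ∧ |ρ.im - t| ≤ 1 / 2)
    (hZ : ∀ j : ℤ, j ∈ Finset.Icc (-3 : ℤ) 3 → ∃ Z : Finset ℂ,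
      (∀ ρ, ρ ∈ Z ↔ ‖ρ - ctr (t + j / 5)‖ ≤ 1 / 4 ∧ f ρ = 0) ∧ ∑ ρ ∈ Z, mul f ρ ≤ B) :
    ∑ ρ ∈ S, mul f ρ ≤ 7 * B := by
  classical
  choose! Z hZ1 hZ2 using hZ
  calc ∑ ρ ∈ S, mul f ρ
      ≤ ∑ ρ ∈ S, ∑ j ∈ Finset.Icc (-3 : ℤ) 3, if ρ ∈ Z j then mul f ρ else 0 := by
        refine Finset.sum_le_sum (fun ρ hρ => ?_)
        obtain ⟨h0, h1, h2, h3⟩ := hS ρ hρ
        obtain ⟨j, hj, hn⟩ := CountZ_cover ρ t h1 h2 h3
        have hmem : ρ ∈ Z j := (hZ1 j hj ρ).mpr ⟨hn, h0⟩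
        refine le_trans ?_ (Finset.single_le_sum (f := fun j => if ρ ∈ Z j then mul f ρ else 0)
          (fun i _ => ?_) hj)
        · simp only [hmem, if_true]
          exact le_refl _
        · split_ifs
          · exact CountZ_mul_nonneg f ρ
          · exact le_refl _
    _ = ∑ j ∈ Finset.Icc (-3 : ℤ) 3, ∑ ρ ∈ S, if ρ ∈ Z j then mul f ρ else 0 := Finset.sum_comm
    _ ≤ ∑ j ∈ Finset.Icc (-3 : ℤ) 3, B := by
        refine Finset.sum_le_sum (fun j hj => ?_)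
        rw [← Finset.sum_filter]
        refine le_trans ?_ (hZ2 j hj)
        refine Finset.sum_le_sum_of_subset_of_nonneg ?_ (fun ρ _ _ => CountZ_mul_nonneg f ρ)
        intro ρ hρ
        exact (Finset.mem_filter.mp hρ).2
    _ = 7 * B := by
        rw [Finset.sum_const, Int.card_Icc, nsmul_eq_mul]
        have : ((3 : ℤ) + 1 - -3).toNat = 7 := by decide
        rw [this]
        norm_num

private theorem CountZ_log (q T t : ℝ) (j : ℤ) (hj : j ∈ Finset.Icc (-3 : ℤ) 3) (hq : 1 ≤ q)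
    (ht : |t| ≤ T + 1) :
    Real.log (q * (|t + j / 5| + 3)) ≤ 2 * Real.log (q * (T + 3)) := by
  rw [Finset.mem_Icc] at hj
  have hj1 : (-3 : ℝ) ≤ j := by exact_mod_cast hj.1
  have hj2 : (j : ℝ) ≤ 3 := by exact_mod_cast hj.2
  have h1 : |t + j / 5| ≤ |t| + 3 / 5 := by
    refine (abs_add_le _ _).trans ?_
    have : |(j : ℝ) / 5| ≤ 3 / 5 := by
      rw [abs_le]
      constructor <;> linarith
    linarith
  have hT : -1 ≤ T := by linarith [abs_nonneg t]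
  have h2 : 0 < q * (|t + j / 5| + 3) := by
    have := abs_nonneg (t + (j : ℝ) / 5)
    positivity
  have h3 : q * (|t + j / 5| + 3) ≤ (q * (T + 3)) ^ 2 := by
    have h4 : |t + j / 5| + 3 ≤ (T + 3) ^ 2 := by nlinarith
    have h5 : q * (|t + j / 5| + 3) ≤ q * (T + 3) ^ 2 :=
      mul_le_mul_of_nonneg_left h4 (by linarith)
    have h6 : q * (T + 3) ^ 2 ≤ q ^ 2 * (T + 3) ^ 2 :=
      mul_le_mul_of_nonneg_right (by nlinarith) (by positivity)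
    calc q * (|t + j / 5| + 3) ≤ q ^ 2 * (T + 3) ^ 2 := h5.trans h6
      _ = (q * (T + 3)) ^ 2 := by ring
  calc Real.log (q * (|t + j / 5| + 3)) ≤ Real.log ((q * (T + 3)) ^ 2) := Real.log_le_log h2 h3
    _ = 2 * Real.log (q * (T + 3)) := by
        rw [Real.log_pow]
        norm_num

/-- Cover the zeros with `Re ρ ≥ 15/16`, `|Im ρ - t| ≤ 1/2` by the discs `closedBall (ctr (t + j/5)) (1/4)`,
`|j| ≤ 3`, and use `local_chi`. -/
theorem count_chi : ∃ C : ℝ, 1 ≤ C ∧ ∀ (q : ℕ) [NeZero q] (χ : DirichletCharacter ℂ q), χ ≠ 1 →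
    ∀ σ T t : ℝ, 15 / 16 ≤ σ → |t| ≤ T + 1 →
      ∑ ρ ∈ (ZF χ.LFunction σ T).filter (fun ρ => |ρ.im - t| ≤ 1 / 2), mul χ.LFunction ρ ≤
        C * Real.log (q * (T + 3)) := by
  obtain ⟨C, hC1, hC⟩ := local_chi
  refine ⟨14 * C, by linarith, ?_⟩
  intro q _ χ hχ σ T t hσ ht
  have hq : (1 : ℝ) ≤ q := by
    have := Nat.pos_of_ne_zero (NeZero.ne q)
    exact_mod_cast this
  have h1 := CountZ_gen χ.LFunction ((ZF χ.LFunction σ T).filter (fun ρ => |ρ.im - t| ≤ 1 / 2)) t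
    (C * (2 * Real.log (q * (T + 3)))) ?_ ?_
  · calc _ ≤ 7 * (C * (2 * Real.log (q * (T + 3)))) := h1
      _ = 14 * C * Real.log (q * (T + 3)) := by ring
  · intro ρ hρ
    rw [Finset.mem_filter, mem_ZF_chi q χ hχ] at hρ
    exact ⟨hρ.1.1, hσ.trans hρ.1.2.1, re_lt_one_chi q χ hχ ρ hρ.1.1, hρ.2⟩
  · intro j hj
    obtain ⟨Z, hZ1, hZ2, -⟩ := hC q χ hχ (t + j / 5)
    refine ⟨Z, hZ1, hZ2.trans ?_⟩
    exact mul_le_mul_of_nonneg_left (CountZ_log q T t j hj hq ht) (by linarith)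

theorem count_zt : ∃ C : ℝ, 1 ≤ C ∧
    ∀ σ T t : ℝ, 15 / 16 ≤ σ → |t| ≤ T + 1 →
      ∑ ρ ∈ (ZF zt σ T).filter (fun ρ => |ρ.im - t| ≤ 1 / 2), mul zt ρ ≤
        C * Real.log (T + 3) := by
  obtain ⟨C, hC1, hC⟩ := local_zt
  refine ⟨14 * C, by linarith, ?_⟩
  intro σ T t hσ ht
  have h1 := CountZ_gen zt ((ZF zt σ T).filter (fun ρ => |ρ.im - t| ≤ 1 / 2)) t
    (C * (2 * Real.log (T + 3))) ?_ ?_
  · calc _ ≤ 7 * (C * (2 * Real.log (T + 3))) := h1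
      _ = 14 * C * Real.log (T + 3) := by ring
  · intro ρ hρ
    rw [Finset.mem_filter, mem_ZF_zt] at hρ
    exact ⟨hρ.1.1, hσ.trans hρ.1.2.1, re_lt_one_zt ρ hρ.1.1, hρ.2⟩
  · intro j hj
    obtain ⟨Z, hZ1, hZ2, -⟩ := hC (t + j / 5)
    refine ⟨Z, hZ1, hZ2.trans ?_⟩
    have := CountZ_log 1 T t j hj le_rfl ht
    rw [one_mul, one_mul] at this
    exact mul_le_mul_of_nonneg_left this (by linarith)

end Pool.Agent.Lib.MP_629a14_nt.Th
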