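import Pool.Agent.Lib.MP_629a14_nt.Th.Defs

/-! Truncation of the Dirichlet series of a nonprincipal character. -/

set_option autoImplicit false

namespace Pool.Agent.Lib.MP_629a14_nt.Th

open Finset Filter Topology

/-- difference of consecutive powers -/
private noncomputable def Lp_c (n : ℕ) (w : ℂ) : ℂ := (n : ℂ) ^ (-w) - ((n + 1 : ℕ) : ℂ) ^ (-w)

private theorem Lp_c_int {n : ℕ} (hn : 1 ≤ n) {w : ℂ} (hw : 0 < w.re) :
    Lp_c n w = w * ∫ u : ℝ in (n : ℝ)..((n + 1 : ℕ) : ℝ), (u : ℂ) ^ (-w - 1) := by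
  have hn0 : (0 : ℝ) < n := by exact_mod_cast hn
  have hle : (n : ℝ) ≤ ((n + 1 : ℕ) : ℝ) := by push_cast; linarith
  have hw0 : w ≠ 0 := by
    rintro rfl
    simp at hw
  have h0 : (0 : ℝ) ∉ Set.uIcc (n : ℝ) ((n + 1 : ℕ) : ℝ) := by
    rw [Set.uIcc_of_le hle]
    rintro ⟨h, -⟩
    linarith
  rw [integral_cpow (Or.inr ⟨fun h => hw0 (by linear_combination -h), h0⟩)]
  have e : -w - 1 + 1 = -w := by ring
  rw [e]
  unfold Lp_c
  push_cast
  field_simp
  ring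

private theorem Lp_c_le {n : ℕ} (hn : 1 ≤ n) {w : ℂ} (hw : 0 < w.re) :
    ‖Lp_c n w‖ ≤ ‖w‖ / w.re * ((n : ℝ) ^ (-w.re) - ((n + 1 : ℕ) : ℝ) ^ (-w.re)) := by
  have hn0 : (0 : ℝ) < n := by exact_mod_cast hn
  have hle : (n : ℝ) ≤ ((n + 1 : ℕ) : ℝ) := by push_cast; linarith
  have h0 : (0 : ℝ) ∉ Set.uIcc (n : ℝ) ((n + 1 : ℕ) : ℝ) := by
    rw [Set.uIcc_of_le hle]
    rintro ⟨h, -⟩
    linarith
  have h2 : ‖∫ u : ℝ in (n : ℝ)..((n + 1 : ℕ) : ℝ), (u : ℂ) ^ (-w - 1)‖ ≤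
      ∫ u : ℝ in (n : ℝ)..((n + 1 : ℕ) : ℝ), u ^ (-w.re - 1) := by
    refine (intervalIntegral.norm_integral_le_integral_norm hle).trans (le_of_eq ?_)
    refine intervalIntegral.integral_congr fun u hu => ?_
    rw [Set.uIcc_of_le hle] at hu
    show ‖(u : ℂ) ^ (-w - 1)‖ = _
    rw [Complex.norm_cpow_eq_rpow_re_of_pos (lt_of_lt_of_le hn0 hu.1)]
    simp
  rw [integral_rpow (Or.inr ⟨by linarith, h0⟩)] at h2
  rw [Lp_c_int hn hw, norm_mul]
  refine (mul_le_mul_of_nonneg_left h2 (norm_nonneg w)).trans (le_of_eq ?_)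
  have e : -w.re - 1 + 1 = -w.re := by ring
  rw [e]
  field_simp
  ring

private theorem Lp_c_le' {n : ℕ} (hn : 1 ≤ n) {w : ℂ} (hw : 1 / 4 ≤ w.re) :
    ‖Lp_c n w‖ ≤ ‖w‖ * (n : ℝ) ^ (-(5 / 4 : ℝ)) := by
  have hn0 : (0 : ℝ) < n := by exact_mod_cast hn
  have hn1 : (1 : ℝ) ≤ n := by exact_mod_cast hn
  have hle : (n : ℝ) ≤ ((n + 1 : ℕ) : ℝ) := by push_cast; linarith
  rw [Lp_c_int hn (by linarith), norm_mul]
  refine mul_le_mul_of_nonneg_left ?_ (norm_nonneg w)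
  have h2 : ∀ u ∈ Set.uIoc (n : ℝ) ((n + 1 : ℕ) : ℝ), ‖(u : ℂ) ^ (-w - 1)‖ ≤ (n : ℝ) ^ (-(5 / 4 : ℝ)) := by
    intro u hu
    rw [Set.uIoc_of_le hle] at hu
    have hu0 : (0 : ℝ) < u := lt_trans hn0 hu.1
    rw [Complex.norm_cpow_eq_rpow_re_of_pos hu0]
    have e1 : (-w - 1).re ≤ -(5 / 4 : ℝ) := by
      simp only [Complex.sub_re, Complex.neg_re, Complex.one_re]
      linarith
    calc u ^ (-w - 1).re ≤ u ^ (-(5 / 4 : ℝ)) :=
          Real.rpow_le_rpow_of_exponent_le (hn1.trans hu.1.le) e1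
      _ ≤ (n : ℝ) ^ (-(5 / 4 : ℝ)) :=
          Real.rpow_le_rpow_of_nonpos hn0 hu.1.le (by norm_num)
  have h3 := intervalIntegral.norm_integral_le_of_norm_le_const h2
  refine h3.trans (le_of_eq ?_)
  have e1 : |((n + 1 : ℕ) : ℝ) - (n : ℝ)| = 1 := by push_cast; simp
  rw [e1, mul_one]

private theorem Lp_c_diff {n : ℕ} (hn : n ≠ 0) (w : ℂ) : DifferentiableAt ℂ (Lp_c n) w := by
  unfold Lp_c
  refine DifferentiableAt.sub ?_ ?_
  · exact DifferentiableAt.const_cpow differentiableAt_id.neg (Or.inl (by exact_mod_cast hn))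
  · exact DifferentiableAt.const_cpow differentiableAt_id.neg
      (Or.inl (by exact_mod_cast Nat.succ_ne_zero n))

section char

variable {q : ℕ} [NeZero q] (χ : DirichletCharacter ℂ q)

/-- the partial sums from `y + 1` on -/
private noncomputable def Lp_S (y K : ℕ) : ℂ := ∑ j ∈ range K, χ ((y + 1 + j : ℕ) : ZMod q)

private theorem Lp_period (hχ : χ ≠ 1) (a : ℕ) : ∑ j ∈ range q, χ ((a + j : ℕ) : ZMod q) = 0 := by
  have h1 : ∑ j ∈ range q, χ ((a + j : ℕ) : ZMod q) = ∑ x : ZMod q, χ ((a : ZMod q) + x) := by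
    refine Finset.sum_nbij' (fun j => (j : ZMod q)) (fun x => x.val) ?_ ?_ ?_ ?_ ?_
    · intro j _
      exact mem_univ _
    · intro x _
      exact mem_range.2 (ZMod.val_lt x)
    · intro j hj
      exact ZMod.val_cast_of_lt (mem_range.1 hj)
    · intro x _
      exact ZMod.natCast_zmod_val x
    · intro j _
      rw [Nat.cast_add]
  exact (h1.trans (Equiv.sum_comp (Equiv.addLeft (a : ZMod q)) (fun x => χ x))).trans
    (MulChar.sum_eq_zero_of_ne_one hχ)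

private theorem Lp_bound (hχ : χ ≠ 1) (K : ℕ) : ∀ a : ℕ,
    ‖∑ j ∈ range K, χ ((a + j : ℕ) : ZMod q)‖ ≤ q := by
  induction K using Nat.strong_induction_on with
  | _ K ih =>
    intro a
    rcases lt_or_ge K q with h | h
    · refine (norm_sum_le _ _).trans ?_
      refine (Finset.sum_le_card_nsmul _ _ 1 fun j _ => DirichletCharacter.norm_le_one χ _).trans ?_
      rw [card_range, nsmul_eq_mul, mul_one]
      exact_mod_cast h.le
    · have hq : 0 < q := Nat.pos_of_ne_zero (NeZero.ne q)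
      have h1 := ih (K - q) (by omega) (a + q)
      have h2 : ∑ j ∈ range K, χ ((a + j : ℕ) : ZMod q) =
          ∑ j ∈ range (K - q), χ ((a + q + j : ℕ) : ZMod q) := by
        have h3 : K = q + (K - q) := by omega
        conv_lhs => rw [h3, sum_range_add, Lp_period χ hχ a, zero_add]
        refine sum_congr rfl fun j _ => ?_
        congr 2
        omega
      rw [h2]
      exact h1

private theorem Lp_S_le (hχ : χ ≠ 1) (y K : ℕ) : ‖Lp_S χ y K‖ ≤ q := Lp_bound χ hχ K (y + 1)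

/-- the terms of the continued series -/
private noncomputable def Lp_F (y k : ℕ) (w : ℂ) : ℂ := Lp_S χ y (k + 1) * Lp_c (y + 1 + k) w

private theorem Lp_F_le' (hχ : χ ≠ 1) (y k : ℕ) {w : ℂ} (hw : 1 / 4 ≤ w.re) :
    ‖Lp_F χ y k w‖ ≤ q * ‖w‖ * ((k + (y + 1) : ℕ) : ℝ) ^ (-(5 / 4 : ℝ)) := by
  unfold Lp_F
  rw [norm_mul, mul_assoc]
  have h1 := Lp_c_le' (n := y + 1 + k) (by omega) hw
  rw [show y + 1 + k = k + (y + 1) by omega] at h1 ⊢
  exact mul_le_mul (Lp_S_le χ hχ y (k + 1)) h1 (norm_nonneg _) (Nat.cast_nonneg q)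

private theorem Lp_sum (y : ℕ) : Summable fun k : ℕ => ((k + (y + 1) : ℕ) : ℝ) ^ (-(5 / 4 : ℝ)) :=
  (summable_nat_add_iff (f := fun n : ℕ => (n : ℝ) ^ (-(5 / 4 : ℝ))) (y + 1)).2
    (Real.summable_nat_rpow.2 (by norm_num))

private theorem Lp_F_summ (hχ : χ ≠ 1) (y : ℕ) {w : ℂ} (hw : 1 / 4 ≤ w.re) :
    Summable fun k => ‖Lp_F χ y k w‖ :=
  Summable.of_nonneg_of_le (fun _ => norm_nonneg _) (fun k => Lp_F_le' χ hχ y k hw)
    ((Lp_sum y).mul_left _)

omit [NeZero q] in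
/-- summation by parts -/
private theorem Lp_parts (y : ℕ) (w : ℂ) (K : ℕ) :
    ∑ k ∈ range K, χ ((y + 1 + k : ℕ) : ZMod q) * ((y + 1 + k : ℕ) : ℂ) ^ (-w) =
      ∑ k ∈ range K, Lp_F χ y k w + Lp_S χ y K * ((y + 1 + K : ℕ) : ℂ) ^ (-w) := by
  induction K with
  | zero => simp [Lp_S]
  | succ K ih =>
    rw [sum_range_succ, ih, sum_range_succ]
    have h1 : Lp_S χ y (K + 1) = Lp_S χ y K + χ ((y + 1 + K : ℕ) : ZMod q) := by
      unfold Lp_S
      rw [sum_range_succ]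
    unfold Lp_F Lp_c
    rw [h1]
    rw [show y + 1 + K + 1 = y + 1 + (K + 1) by omega]
    ring

/-- the continued series -/
private noncomputable def Lp_G (y : ℕ) (w : ℂ) : ℂ :=
  ∑ m ∈ Icc 1 y, χ (m : ZMod q) * (m : ℂ) ^ (-w) + ∑' k, Lp_F χ y k w

private theorem Lp_G_eq (hχ : χ ≠ 1) (y : ℕ) {w : ℂ} (hw : 1 < w.re) : Lp_G χ y w = χ.LFunction w := by
  rw [DirichletCharacter.LFunction_eq_LSeries χ hw]
  have hs := DirichletCharacter.LSeriesSummable_of_one_lt_re χ hw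
  have ht : ∀ n : ℕ, n ≠ 0 → LSeries.term (fun n : ℕ => χ (n : ZMod q)) w n =
      χ (n : ZMod q) * (n : ℂ) ^ (-w) := by
    intro n hn
    rw [LSeries.term_of_ne_zero hn, Complex.cpow_neg, div_eq_mul_inv]
  have h1 := hs.sum_add_tsum_nat_add (y + 1)
  have h2 : ∑ n ∈ range (y + 1), LSeries.term (fun n : ℕ => χ (n : ZMod q)) w n =
      ∑ m ∈ Icc 1 y, χ (m : ZMod q) * (m : ℂ) ^ (-w) := by
    rw [sum_range_succ', LSeries.term_zero, add_zero]
    rw [show Icc 1 y = (range y).image (· + 1) by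
      ext m
      rw [mem_Icc, mem_image]
      constructor
      · rintro ⟨h3, h4⟩
        exact ⟨m - 1, mem_range.2 (by omega), by omega⟩
      · rintro ⟨k, hk, rfl⟩
        rw [mem_range] at hk
        omega, sum_image (fun a _ b _ h => by simpa using h)]
    exact sum_congr rfl fun n _ => ht (n + 1) (Nat.succ_ne_zero n)
  have h3 : ∀ k : ℕ, LSeries.term (fun n : ℕ => χ (n : ZMod q)) w (k + (y + 1)) =
      χ ((y + 1 + k : ℕ) : ZMod q) * ((y + 1 + k : ℕ) : ℂ) ^ (-w) := by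
    intro k
    rw [ht _ (by omega), show k + (y + 1) = y + 1 + k by omega]
  have hs2 : Summable fun k : ℕ => χ ((y + 1 + k : ℕ) : ZMod q) * ((y + 1 + k : ℕ) : ℂ) ^ (-w) := by
    refine ((summable_nat_add_iff (y + 1)).2 hs).congr fun k => ?_
    exact h3 k
  have hs3 : Summable fun k => Lp_F χ y k w := (Lp_F_summ χ hχ y (by linarith)).of_norm
  have h4 : ∑' k : ℕ, χ ((y + 1 + k : ℕ) : ZMod q) * ((y + 1 + k : ℕ) : ℂ) ^ (-w) =
      ∑' k, Lp_F χ y k w := by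
    have t1 := hs2.hasSum.tendsto_sum_nat
    have t2 := hs3.hasSum.tendsto_sum_nat
    have t3 : Tendsto (fun K : ℕ => Lp_S χ y K * ((y + 1 + K : ℕ) : ℂ) ^ (-w)) atTop (𝓝 0) := by
      rw [tendsto_zero_iff_norm_tendsto_zero]
      have h5 : Tendsto (fun K : ℕ => (q : ℝ) * ((K + (y + 1) : ℕ) : ℝ) ^ (-w.re)) atTop (𝓝 (q * 0)) := by
        refine Tendsto.const_mul _ ?_
        exact (tendsto_rpow_neg_atTop (by linarith)).comp
          (tendsto_natCast_atTop_atTop.comp (tendsto_add_atTop_nat (y + 1)))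
      rw [mul_zero] at h5
      refine squeeze_zero (fun _ => norm_nonneg _) (fun K => ?_) h5
      rw [norm_mul, Complex.norm_natCast_cpow_of_pos (by omega), Complex.neg_re,
        show y + 1 + K = K + (y + 1) by omega]
      exact mul_le_mul_of_nonneg_right (Lp_S_le χ hχ y K) (by positivity)
    have t4 := t2.add t3
    rw [add_zero] at t4
    refine tendsto_nhds_unique t1 (t4.congr fun K => ?_)
    exact (Lp_parts χ y w K).symm
  unfold Lp_G
  rw [← h2, ← h4]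
  have h5 : LSeries (fun n : ℕ => χ (n : ZMod q)) w = ∑' n, LSeries.term (fun n : ℕ => χ (n : ZMod q)) w n := rfl
  rw [h5, ← h1]
  congr 1
  exact tsum_congr fun k => (h3 k).symm

private theorem Lp_G_diff (hχ : χ ≠ 1) (y : ℕ) {U : Set ℂ} (hU : IsOpen U) {C : ℝ}
    (hre : ∀ w ∈ U, 1 / 4 ≤ w.re) (hC : ∀ w ∈ U, ‖w‖ ≤ C) : DifferentiableOn ℂ (Lp_G χ y) U := by
  unfold Lp_G
  refine DifferentiableOn.add ?_ ?_
  · apply DifferentiableOn.fun_sum
    intro n hn w _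
    rw [mem_Icc] at hn
    refine (DifferentiableAt.const_mul ?_ _).differentiableWithinAt
    exact DifferentiableAt.const_cpow differentiableAt_id.neg
      (Or.inl (by
        have : n ≠ 0 := by omega
        exact_mod_cast this))
  · refine Complex.differentiableOn_tsum_of_summable_norm ((Lp_sum y).mul_left (q * C)) ?_ hU ?_
    · intro k w hw
      exact ((Lp_c_diff (by omega) w).const_mul _).differentiableWithinAt
    · intro k w hw
      refine (Lp_F_le' χ hχ y k (hre w hw)).trans ?_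
      refine mul_le_mul_of_nonneg_right ?_ (by positivity)
      exact mul_le_mul_of_nonneg_left (hC w hw) (Nat.cast_nonneg q)

private theorem Lp_G_cont (hχ : χ ≠ 1) (y : ℕ) {s : ℂ} (hs : 1 / 2 ≤ s.re) :
    Lp_G χ y s = χ.LFunction s := by
  obtain ⟨U, hU⟩ : ∃ U : Set ℂ, U = {w : ℂ | 1 / 4 < w.re} ∩ Metric.ball 0 (‖s‖ + 3) := ⟨_, rfl⟩
  have hUo : IsOpen U := by
    rw [hU]
    exact (isOpen_lt continuous_const Complex.continuous_re).inter Metric.isOpen_ball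
  have hUc : IsPreconnected U := by
    rw [hU]
    exact ((convex_halfSpace_re_gt (1 / 4)).inter (convex_ball _ _)).isPreconnected
  have hre : ∀ w ∈ U, 1 / 4 ≤ w.re := fun w hw => by
    rw [hU] at hw
    exact le_of_lt hw.1
  have hC : ∀ w ∈ U, ‖w‖ ≤ ‖s‖ + 3 := fun w hw => by
    rw [hU] at hw
    have := Metric.mem_ball.1 hw.2
    rw [dist_zero_right] at this
    exact this.le
  have hsU : s ∈ U := by
    rw [hU]
    refine ⟨?_, ?_⟩
    · show (1 / 4 : ℝ) < s.re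
      linarith
    · rw [Metric.mem_ball, dist_zero_right]
      linarith
  have h2U : (2 : ℂ) ∈ U := by
    rw [hU]
    refine ⟨?_, ?_⟩
    · show (1 / 4 : ℝ) < (2 : ℂ).re
      norm_num
    · rw [Metric.mem_ball, dist_zero_right]
      have : ‖(2 : ℂ)‖ = 2 := by norm_num
      rw [this]
      have := norm_nonneg s
      linarith
  have h1 := Lp_G_diff χ hχ y hUo hre hC
  have h2 : DifferentiableOn ℂ χ.LFunction U := (DirichletCharacter.differentiable_LFunction hχ).differentiableOn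
  have heq : Set.EqOn (Lp_G χ y) χ.LFunction U := by
    apply (h1.analyticOnNhd hUo).eqOn_of_preconnected_of_eventuallyEq
      (h2.analyticOnNhd hUo) hUc h2U
    have h3 : ∀ᶠ w in 𝓝 (2 : ℂ), 1 < w.re :=
      Complex.continuous_re.continuousAt.eventually (lt_mem_nhds (by norm_num))
    filter_upwards [h3] with w hw
    exact Lp_G_eq χ hχ y hw
  exact heq hsU

end char

/-- Proof. Put `T m = ∑_{y < j ≤ m} χ j`; `‖T m‖ ≤ q` because the sum over a complete period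
vanishes. Put `g s = ∑_{j ≤ y} χ j j^{-s} + ∑_{m > y} T m (m^{-s} - (m+1)^{-s})`. Since
`‖m^{-s} - (m+1)^{-s}‖ ≤ ‖s‖ ∫_m^{m+1} u^{-σ-1} du ≤ ‖s‖ m^{-σ-1}`, the series converges locally
uniformly in `Re s > 0`, so `g` is analytic there (`differentiableOn_tsum_of_summable_norm`), and for
`Re s > 1` summation by parts gives `g s = LSeries χ s = LFunction χ s`. By the identity theorem
`g = LFunction χ` on `Re s > 0` (preconnected). The tail is at most
`q ‖s‖ ∑_{m > y} ∫_m^{m+1} u^{-σ-1} du ≤ q ‖s‖ y^{-σ} / σ ≤ 2 q ‖s‖ y^{-σ}`.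
(For the zeta function compare `Pool/Agent/Lib/PrimeGap/ZetaUpper.lean`.) -/
theorem L_partial (q : ℕ) [NeZero q] (χ : DirichletCharacter ℂ q) (hχ : χ ≠ 1) (s : ℂ)
    (hs : 1 / 2 ≤ s.re) (y : ℕ) (hy : 1 ≤ y) :
    ‖χ.LFunction s - ∑ m ∈ Icc 1 y, χ (m : ZMod q) * (m : ℂ) ^ (-s)‖ ≤
      4 * q * (‖s‖ + 1) * (y : ℝ) ^ (-s.re) := by
  rw [← Lp_G_cont χ hχ y hs]
  unfold Lp_G
  rw [add_sub_cancel_left]
  have hσ : 0 < s.re := by linarith
  have hy0 : (0 : ℝ) < y := by exact_mod_cast hy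
  have h1 := Lp_F_summ χ hχ y (w := s) (by linarith)
  refine (norm_tsum_le_tsum_norm h1).trans ?_
  have h2 : ∀ k, ‖Lp_F χ y k s‖ ≤ (q : ℝ) * (‖s‖ / s.re) *
      (((y + 1 + k : ℕ) : ℝ) ^ (-s.re) - ((y + 1 + (k + 1) : ℕ) : ℝ) ^ (-s.re)) := by
    intro k
    unfold Lp_F
    rw [norm_mul, mul_assoc]
    exact mul_le_mul (Lp_S_le χ hχ y (k + 1)) (Lp_c_le (n := y + 1 + k) (by omega) hσ)
      (norm_nonneg _) (Nat.cast_nonneg q)
  have h3 : ∑' k, ‖Lp_F χ y k s‖ ≤ (q : ℝ) * (‖s‖ / s.re) * ((y + 1 + 0 : ℕ) : ℝ) ^ (-s.re) := by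
    refine Real.tsum_le_of_sum_range_le (fun k => norm_nonneg _) fun K => ?_
    refine (sum_le_sum fun k _ => h2 k).trans ?_
    rw [← mul_sum, Finset.sum_range_sub' (fun k : ℕ => ((y + 1 + k : ℕ) : ℝ) ^ (-s.re))]
    refine mul_le_mul_of_nonneg_left ?_ (by positivity)
    have : 0 ≤ ((y + 1 + K : ℕ) : ℝ) ^ (-s.re) := by positivity
    linarith
  refine h3.trans ?_
  have h4 : ((y + 1 + 0 : ℕ) : ℝ) ^ (-s.re) ≤ (y : ℝ) ^ (-s.re) := by
    refine Real.rpow_le_rpow_of_nonpos hy0 ?_ (by linarith)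
    push_cast
    linarith
  have h5 : ‖s‖ / s.re ≤ 4 * (‖s‖ + 1) := by
    rw [div_le_iff₀ hσ]
    have := norm_nonneg s
    nlinarith
  calc (q : ℝ) * (‖s‖ / s.re) * ((y + 1 + 0 : ℕ) : ℝ) ^ (-s.re)
      ≤ (q : ℝ) * (4 * (‖s‖ + 1)) * (y : ℝ) ^ (-s.re) := by
        refine mul_le_mul ?_ h4 (by positivity) (by positivity)
        exact mul_le_mul_of_nonneg_left h5 (Nat.cast_nonneg q)
    _ = 4 * q * (‖s‖ + 1) * (y : ℝ) ^ (-s.re) := by ring

end Pool.Agent.Lib.MP_629a14_nt.Th
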