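import Pool.Agent.Lib.MP_629a14_nt.Th.Fin
import Pool.Agent.Lib.MP_629a14_nt.Th.Lpart

/-! Detection of zeros by Dirichlet polynomials. -/

set_option autoImplicit false

namespace Pool.Agent.Lib.MP_629a14_nt.Th

open Finset

/-- The coefficients of the mollified series. -/
noncomputable def bz (z n : ℕ) : ℝ := ∑ d ∈ n.divisors.filter (fun d => d ≤ z), (ArithmeticFunction.moebius d : ℝ)

theorem bz_one (z : ℕ) (hz : 1 ≤ z) : bz z 1 = 1 := by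
  unfold bz
  rw [Nat.divisors_one, filter_singleton, if_pos hz, sum_singleton]
  simp

theorem bz_zero (z n : ℕ) (h1 : 1 < n) (h2 : n ≤ z) : bz z n = 0 := by
  unfold bz
  rw [filter_true_of_mem]
  · have h3 := ArithmeticFunction.coe_mul_zeta_apply (f := ArithmeticFunction.moebius) (x := n)
    rw [ArithmeticFunction.moebius_mul_coe_zeta, ArithmeticFunction.one_apply_ne (by omega)] at h3
    have h4 : ((∑ d ∈ n.divisors, ArithmeticFunction.moebius d : ℤ) : ℝ) = 0 := by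
      rw [← h3]
      norm_num
    rw [← h4]
    push_cast
    rfl
  · intro d hd
    exact (Nat.divisor_le hd).trans h2

theorem abs_bz_le (z n : ℕ) : |bz z n| ≤ (n.divisors.card : ℝ) := by
  unfold bz
  refine (abs_sum_le_sum_abs _ _).trans ?_
  have h1 : ∑ d ∈ n.divisors.filter (fun d => d ≤ z), |(ArithmeticFunction.moebius d : ℝ)| ≤
      ∑ d ∈ n.divisors.filter (fun d => d ≤ z), (1 : ℝ) := by
    refine sum_le_sum fun d _ => ?_
    have := ArithmeticFunction.abs_moebius_le_one (n := d)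
    exact_mod_cast this
  refine h1.trans ?_
  rw [sum_const, nsmul_eq_mul, mul_one]
  exact_mod_cast card_le_card (filter_subset _ _)

private theorem det_ident (f : ℕ → ℂ) (hf : ∀ a b, f (a * b) = f a * f b) (z X : ℕ) :
    ∑ n ∈ Icc 1 X, (bz z n : ℂ) * f n =
      ∑ d ∈ Icc 1 z, ((ArithmeticFunction.moebius d : ℤ) : ℂ) * f d * ∑ m ∈ Icc 1 (X / d), f m := by
  have h1 : ∀ n ∈ Icc 1 X, (bz z n : ℂ) * f n =
      ∑ d ∈ Icc 1 z, if d ∣ n then ((ArithmeticFunction.moebius d : ℤ) : ℂ) * f n else 0 := by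
    intro n hn
    have hn0 : n ≠ 0 := by
      have := (mem_Icc.1 hn).1
      omega
    have e : n.divisors.filter (fun d => d ≤ z) = (Icc 1 z).filter (fun d => d ∣ n) := by
      ext d
      simp only [mem_filter, Nat.mem_divisors, mem_Icc]
      constructor
      · rintro ⟨⟨h1, h2⟩, h3⟩
        exact ⟨⟨Nat.pos_of_dvd_of_pos h1 (Nat.pos_of_ne_zero hn0), h3⟩, h1⟩
      · rintro ⟨⟨h1, h2⟩, h3⟩
        exact ⟨⟨h3, hn0⟩, h2⟩
    unfold bz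
    rw [e, Complex.ofReal_sum, sum_mul, sum_filter]
    refine sum_congr rfl fun d _ => ?_
    by_cases hd : d ∣ n
    · rw [if_pos hd, if_pos hd, Complex.ofReal_intCast]
    · rw [if_neg hd, if_neg hd]
  rw [sum_congr rfl h1, sum_comm]
  refine sum_congr rfl fun d hd => ?_
  have hd1 : 1 ≤ d := (mem_Icc.1 hd).1
  rw [← sum_filter, ← mul_sum, mul_assoc]
  congr 1
  have e : (Icc 1 X).filter (fun n => d ∣ n) = (Icc 1 (X / d)).image (fun m => d * m) := by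
    ext n
    simp only [mem_filter, mem_image, mem_Icc]
    constructor
    · rintro ⟨⟨h1, h2⟩, m, rfl⟩
      refine ⟨m, ⟨?_, ?_⟩, rfl⟩
      · rcases Nat.eq_zero_or_pos m with h3 | h3
        · subst h3
          simp at h1
        · exact h3
      · rw [Nat.le_div_iff_mul_le (by omega), mul_comm]
        exact h2
    · rintro ⟨m, ⟨h1, h2⟩, rfl⟩
      refine ⟨⟨Nat.mul_pos hd1 h1, ?_⟩, Dvd.intro m rfl⟩
      rw [Nat.le_div_iff_mul_le (by omega), mul_comm] at h2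
      exact h2
  rw [e, sum_image (fun a _ b _ h => Nat.eq_of_mul_eq_mul_left hd1 h), mul_sum]
  exact sum_congr rfl fun m _ => hf d m

private theorem det_split (f : ℕ → ℂ) (hf1 : f 1 = 1) (z X : ℕ) (hz : 1 ≤ z) (hzX : z ≤ X) :
    ∑ n ∈ Icc 1 X, (bz z n : ℂ) * f n = 1 + ∑ n ∈ Ioc z X, (bz z n : ℂ) * f n := by
  have e : Icc 1 X = Icc 1 z ∪ Ioc z X := by
    ext n
    simp only [mem_union, mem_Icc, mem_Ioc]
    omega
  have hd : Disjoint (Icc 1 z) (Ioc z X) := by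
    rw [disjoint_left]
    intro n h1 h2
    rw [mem_Icc] at h1
    rw [mem_Ioc] at h2
    omega
  rw [e, sum_union hd]
  congr 1
  rw [sum_eq_single 1]
  · rw [bz_one z hz, hf1]
    norm_num
  · intro n hn hn1
    rw [mem_Icc] at hn
    rw [bz_zero z n (by omega) hn.2]
    norm_num
  · intro h
    exact absurd (mem_Icc.2 ⟨le_rfl, hz⟩) h

private theorem det_floor (X d : ℕ) (hd : 1 ≤ d) (hdX : d ≤ X) : X ≤ 2 * (d * (X / d)) := by
  have h1 := Nat.lt_mul_div_succ X (show 0 < d by omega)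
  have h2 : 1 ≤ X / d := (Nat.le_div_iff_mul_le (by omega)).2 (by omega)
  have h3 : d * 1 ≤ d * (X / d) := Nat.mul_le_mul_left d h2
  rw [Nat.mul_add] at h1
  omega

private theorem det_pow (W β : ℝ) (X d : ℕ) (hd : 1 ≤ d) (hdX : d ≤ X) (hW : 2 ≤ W) (hWX : W ^ 8 ≤ X)
    (hβ : 15 / 16 ≤ β) : (d : ℝ) ^ (-β) * ((X / d : ℕ) : ℝ) ^ (-β) ≤ 2 / W ^ 7 := by
  have hW8 : (2 : ℝ) ≤ W ^ 8 := by
    calc (2 : ℝ) ≤ 2 ^ 8 := by norm_num
      _ ≤ W ^ 8 := pow_le_pow_left₀ (by norm_num) hW 8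
  have h1 : W ^ 8 / 2 ≤ (d : ℝ) * ((X / d : ℕ) : ℝ) := by
    have := det_floor X d hd hdX
    have h2 : (X : ℝ) ≤ 2 * (d * ((X / d : ℕ) : ℝ)) := by exact_mod_cast this
    linarith
  have hWp : 1 ≤ W ^ 8 / 2 := by linarith
  rw [← Real.mul_rpow (Nat.cast_nonneg _) (Nat.cast_nonneg _)]
  have h3 : ((d : ℝ) * ((X / d : ℕ) : ℝ)) ^ (-β) ≤ (W ^ 8 / 2) ^ (-β) :=
    Real.rpow_le_rpow_of_nonpos (by linarith) h1 (by linarith)
  have h4 : (W ^ 8 / 2) ^ (-β) ≤ (W ^ 8 / 2) ^ (-(7 / 8 : ℝ)) :=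
    Real.rpow_le_rpow_of_exponent_le hWp (by linarith)
  refine h3.trans (h4.trans ?_)
  have hW0 : 0 < W := by linarith
  have h5 : (W ^ 8 / 2) ^ (7 / 8 : ℝ) = W ^ 7 / 2 ^ (7 / 8 : ℝ) := by
    rw [Real.div_rpow (by positivity) (by norm_num)]
    congr 1
    rw [← Real.rpow_natCast W 8, ← Real.rpow_mul hW0.le, ← Real.rpow_natCast W 7]
    norm_num
  have h6 : (2 : ℝ) ^ (7 / 8 : ℝ) ≤ 2 := by
    have := Real.rpow_le_rpow_of_exponent_le (x := 2) (by norm_num) (by norm_num : (7 / 8 : ℝ) ≤ 1)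
    rwa [Real.rpow_one] at this
  have h7 : (0 : ℝ) < 2 ^ (7 / 8 : ℝ) := Real.rpow_pos_of_pos (by norm_num) _
  rw [Real.rpow_neg (by positivity), h5, inv_div]
  exact div_le_div_of_nonneg_right h6 (by positivity)

private theorem det_moeb (d : ℕ) : ‖((ArithmeticFunction.moebius d : ℤ) : ℂ)‖ ≤ 1 := by
  have h := ArithmeticFunction.abs_moebius_le_one (n := d)
  rw [Complex.norm_intCast]
  exact_mod_cast h

/-- Proof. `∑_{n ≤ X} b(n) χ(n) n^{-ρ} = ∑_{d ≤ z} μ(d)χ(d)d^{-ρ} ∑_{m ≤ X/d} χ(m) m^{-ρ}`, and the inner sum is at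
most `4 q (‖ρ‖+1) (X/d)^{-β} 2` by `L_partial` (`LL x ρ = 0`; `X/d` is a floor, `≥ X/(2d)`). So the whole sum is
at most `8 z q (‖ρ‖+1) X^{-15/16} ≤ 16 · 2P²T · P (T+2) (PT)^{-7.5} ≤ 1/2` if `PT` is large. The term `n = 1` is 1
and the terms `1 < n ≤ z` vanish. -/
theorem detect_chi : ∃ C : ℝ, 2 ≤ C ∧ ∀ (P : ℕ) (T : ℝ), 2 ≤ P → 2 ≤ T → C ≤ P * T →
    ∀ x ∈ prims P, x ≠ ch1 → ∀ ρ : ℂ, LL x ρ = 0 → 15 / 16 ≤ ρ.re → |ρ.im| ≤ T →
      1 / 2 ≤ ‖∑ n ∈ Ioc ⌈(P : ℝ) ^ 2 * T⌉₊ ⌈((P : ℝ) * T) ^ 8⌉₊,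
        (bz ⌈(P : ℝ) ^ 2 * T⌉₊ n : ℂ) * x.2 (n : ZMod x.1) * (n : ℂ) ^ (-ρ)‖ := by
  refine ⟨64, by norm_num, fun P T hP hT hPT x hx hx1 ρ hρ hβ hγ => ?_⟩
  obtain ⟨hq1, hqP, hprim⟩ := (mem_prims P x).1 hx
  have hne := prims_ne_one P x hx hx1
  obtain ⟨q, χ⟩ := x
  simp only at hq1 hqP hprim hne ⊢
  have : NeZero q := ⟨by omega⟩
  rw [LL_mk] at hρ
  have hβ1 : ρ.re < 1 := re_lt_one_chi q χ hne ρ hρ
  have hPr : (2 : ℝ) ≤ P := by exact_mod_cast hP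
  set z : ℕ := ⌈(P : ℝ) ^ 2 * T⌉₊ with hz
  set W : ℝ := (P : ℝ) * T with hW
  set X : ℕ := ⌈W ^ 8⌉₊ with hX
  have hW64 : 64 ≤ W := hPT
  have hWX : W ^ 8 ≤ X := Nat.le_ceil _
  have hz1 : 1 ≤ z := Nat.one_le_ceil_iff.2 (by positivity)
  have hPT2 : (P : ℝ) ^ 2 * T ≤ W ^ 8 := by
    have h1 : (P : ℝ) ^ 2 * T ≤ W ^ 2 := by
      rw [hW, mul_pow]
      have : T ≤ T ^ 2 := by nlinarith
      exact mul_le_mul_of_nonneg_left this (by positivity)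
    exact h1.trans (pow_le_pow_right₀ (by linarith) (by norm_num))
  have hzX : z ≤ X := Nat.ceil_le_ceil hPT2
  have hzr : (z : ℝ) ≤ 2 * ((P : ℝ) ^ 2 * T) := by
    have h1 : (z : ℝ) < (P : ℝ) ^ 2 * T + 1 := Nat.ceil_lt_add_one (by positivity)
    have h2 : 1 ≤ (P : ℝ) ^ 2 * T := by nlinarith
    linarith
  -- the multiplicative function
  obtain ⟨f, hf⟩ : ∃ f : ℕ → ℂ, f = fun n : ℕ => χ (n : ZMod q) * (n : ℂ) ^ (-ρ) := ⟨_, rfl⟩
  have hmul : ∀ a b, f (a * b) = f a * f b := by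
    intro a b
    rw [hf]
    simp only
    rw [Nat.cast_mul, Nat.cast_mul, map_mul, Complex.natCast_mul_natCast_cpow]
    ring
  have hf1 : f 1 = 1 := by
    rw [hf]
    simp
  have hnorm : ∀ d : ℕ, 1 ≤ d → ‖f d‖ ≤ (d : ℝ) ^ (-ρ.re) := by
    intro d hd
    rw [hf]
    simp only
    rw [norm_mul]
    have h1 : ‖χ (d : ZMod q)‖ ≤ 1 := DirichletCharacter.norm_le_one χ _
    have h2 : ‖(d : ℂ) ^ (-ρ)‖ = (d : ℝ) ^ (-ρ.re) := by
      rw [Complex.norm_natCast_cpow_of_pos (by omega), Complex.neg_re]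
    rw [h2]
    have h3 : 0 ≤ (d : ℝ) ^ (-ρ.re) := Real.rpow_nonneg (Nat.cast_nonneg _) _
    nlinarith
  have hsum : ∀ y : ℕ, 1 ≤ y → ‖∑ m ∈ Icc 1 y, f m‖ ≤ 4 * q * (‖ρ‖ + 1) * (y : ℝ) ^ (-ρ.re) := by
    intro y hy
    have h1 := L_partial q χ hne ρ (by linarith) y hy
    rw [hρ, zero_sub, norm_neg] at h1
    rw [hf]
    exact h1
  have hρn : ‖ρ‖ + 1 ≤ 2 * T := by
    have h1 := Complex.norm_le_abs_re_add_abs_im ρ
    rw [abs_of_nonneg (by linarith : 0 ≤ ρ.re)] at h1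
    linarith
  have hqr : (q : ℝ) ≤ P := by exact_mod_cast hqP
  -- each term
  have hterm : ∀ d ∈ Icc 1 z, ‖((ArithmeticFunction.moebius d : ℤ) : ℂ) * f d *
      ∑ m ∈ Icc 1 (X / d), f m‖ ≤ 4 * P * (2 * T) * (2 / W ^ 7) := by
    intro d hd
    obtain ⟨hd1, hdz⟩ := mem_Icc.1 hd
    have hdX : d ≤ X := hdz.trans hzX
    have hy : 1 ≤ X / d := (Nat.le_div_iff_mul_le (by omega)).2 (by omega)
    rw [norm_mul, norm_mul]
    have h1 := det_moeb d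
    have h2 := hnorm d hd1
    have h3 := hsum (X / d) hy
    have h4 := det_pow W ρ.re X d hd1 hdX (by linarith) hWX hβ
    have h5 : ‖((ArithmeticFunction.moebius d : ℤ) : ℂ)‖ * ‖f d‖ ≤ 1 * (d : ℝ) ^ (-ρ.re) :=
      mul_le_mul h1 h2 (norm_nonneg _) (by norm_num)
    have h6 : ‖((ArithmeticFunction.moebius d : ℤ) : ℂ)‖ * ‖f d‖ * ‖∑ m ∈ Icc 1 (X / d), f m‖ ≤
        1 * (d : ℝ) ^ (-ρ.re) * (4 * q * (‖ρ‖ + 1) * ((X / d : ℕ) : ℝ) ^ (-ρ.re)) :=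
      mul_le_mul h5 h3 (norm_nonneg _) (by positivity)
    refine h6.trans ?_
    have h7 : 1 * (d : ℝ) ^ (-ρ.re) * (4 * q * (‖ρ‖ + 1) * ((X / d : ℕ) : ℝ) ^ (-ρ.re)) =
        (4 * q * (‖ρ‖ + 1)) * ((d : ℝ) ^ (-ρ.re) * ((X / d : ℕ) : ℝ) ^ (-ρ.re)) := by ring
    rw [h7]
    refine mul_le_mul ?_ h4 (by positivity) (by positivity)
    refine mul_le_mul (by linarith) hρn (by positivity) (by positivity)
  have htot : ‖∑ n ∈ Icc 1 X, (bz z n : ℂ) * f n‖ ≤ 1 / 2 := by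
    rw [det_ident f hmul z X]
    refine (norm_sum_le _ _).trans ((sum_le_sum hterm).trans ?_)
    rw [sum_const, Nat.card_Icc, Nat.add_sub_cancel, nsmul_eq_mul]
    have hW0 : 0 < W := by linarith
    have h1 : (z : ℝ) * (4 * P * (2 * T) * (2 / W ^ 7)) ≤
        2 * ((P : ℝ) ^ 2 * T) * (4 * P * (2 * T) * (2 / W ^ 7)) :=
      mul_le_mul_of_nonneg_right hzr (by positivity)
    refine h1.trans ?_
    have h2 : 2 * ((P : ℝ) ^ 2 * T) * (4 * P * (2 * T) * (2 / W ^ 7)) =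
        32 * ((P : ℝ) ^ 3 * T ^ 2) / W ^ 7 := by
      field_simp
      ring
    rw [h2, div_le_iff₀ (by positivity)]
    have h3 : (P : ℝ) ^ 3 * T ^ 2 ≤ W ^ 3 := by
      rw [hW, mul_pow]
      refine mul_le_mul_of_nonneg_left ?_ (by positivity)
      nlinarith [sq_nonneg T]
    have h4 : 64 * W ^ 3 ≤ W ^ 7 := by
      have h5 : W * W ^ 3 ≤ W ^ 4 * W ^ 3 := by
        refine mul_le_mul_of_nonneg_right ?_ (by positivity)
        calc W = W ^ 1 := (pow_one W).symm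
          _ ≤ W ^ 4 := pow_le_pow_right₀ (by linarith) (by norm_num)
      have h6 : W ^ 4 * W ^ 3 = W ^ 7 := by ring
      have h7 : 64 * W ^ 3 ≤ W * W ^ 3 := mul_le_mul_of_nonneg_right hW64 (by positivity)
      linarith
    linarith
  rw [det_split f hf1 z X hz1 hzX] at htot
  have hgoal : ∑ n ∈ Ioc z X, (bz z n : ℂ) * χ (n : ZMod q) * (n : ℂ) ^ (-ρ) =
      ∑ n ∈ Ioc z X, (bz z n : ℂ) * f n := by
    refine sum_congr rfl fun n _ => ?_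
    rw [hf]
    ring
  rw [hgoal]
  have h1 := norm_add_le (1 + ∑ n ∈ Ioc z X, (bz z n : ℂ) * f n) (-∑ n ∈ Ioc z X, (bz z n : ℂ) * f n)
  rw [norm_neg, add_neg_cancel_right, norm_one] at h1
  linarith

/-- Proof. The same with `zeta_partial`; the additional terms `(X/d)^{1-ρ}/(1-ρ)` contribute at most
`∑_{d ≤ z} d^{-β} (X/d)^{1-β}/|γ| ≤ X^{1/16} (1 + log z)/|γ| ≤ 2 T^{1/2} (2 + log T)/T`, small if `T` is
large. -/
theorem detect_zt : ∃ C : ℝ, 2 ≤ C ∧ ∀ T : ℝ, C ≤ T →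
    ∀ ρ : ℂ, zt ρ = 0 → 15 / 16 ≤ ρ.re → T ≤ |ρ.im| → |ρ.im| ≤ 2 * T →
      1 / 2 ≤ ‖∑ n ∈ Ioc ⌈T⌉₊ ⌈T ^ 8⌉₊, (bz ⌈T⌉₊ n : ℂ) * (n : ℂ) ^ (-ρ)‖ := by
  refine ⟨10 ^ 8, by norm_num, fun T hT ρ hρ hβ hγ1 hγ2 => ?_⟩
  have hβ1 : ρ.re < 1 := re_lt_one_zt ρ hρ
  have hT2 : (2 : ℝ) ≤ T := le_trans (by norm_num) hT
  have hT256 : (256 : ℝ) ≤ T := le_trans (by norm_num) hT
  have hρ1 : ρ ≠ 1 := by
    intro h
    rw [h, Complex.one_im, abs_zero] at hγ1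
    linarith
  have hζ : riemannZeta ρ = 0 := by
    unfold zt at hρ
    rw [if_neg hρ1] at hρ
    rcases mul_eq_zero.1 hρ with h | h
    · exact absurd (sub_eq_zero.1 h) hρ1
    · exact h
  set z : ℕ := ⌈T⌉₊ with hz
  set X : ℕ := ⌈T ^ 8⌉₊ with hX
  have hTX : T ^ 8 ≤ X := Nat.le_ceil _
  have hz1 : 1 ≤ z := Nat.one_le_ceil_iff.2 (by linarith)
  have hzX : z ≤ X := by
    refine Nat.ceil_le_ceil ?_
    calc T = T ^ 1 := (pow_one T).symm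
      _ ≤ T ^ 8 := pow_le_pow_right₀ (by linarith) (by norm_num)
  have hzr : (z : ℝ) ≤ 2 * T := by
    have h1 : (z : ℝ) < T + 1 := Nat.ceil_lt_add_one (by linarith)
    linarith
  have hXr : (X : ℝ) ≤ 2 * T ^ 8 := by
    have h1 : (X : ℝ) < T ^ 8 + 1 := Nat.ceil_lt_add_one (by positivity)
    have h2 : 1 ≤ T ^ 8 := one_le_pow₀ (by linarith)
    linarith
  have hX1 : (1 : ℝ) ≤ X := by
    have h2 : 1 ≤ T ^ 8 := one_le_pow₀ (by linarith)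
    linarith
  -- the fourth root
  obtain ⟨s, hs0, hsT⟩ : ∃ s : ℝ, 0 < s ∧ s ^ 4 = T := by
    refine ⟨T ^ (1 / 4 : ℝ), Real.rpow_pos_of_pos (by linarith) _, ?_⟩
    rw [← Real.rpow_natCast, ← Real.rpow_mul (by linarith)]
    norm_num
  have hs100 : 100 ≤ s := by
    by_contra hcon
    have h1 : s ^ 4 < 100 ^ 4 := pow_lt_pow_left₀ (not_le.1 hcon) hs0.le (by norm_num)
    rw [hsT] at h1
    norm_num at h1 hT
    linarith
  obtain ⟨f, hf⟩ : ∃ f : ℕ → ℂ, f = fun n : ℕ => (n : ℂ) ^ (-ρ) := ⟨_, rfl⟩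
  have hmul : ∀ a b, f (a * b) = f a * f b := by
    intro a b
    rw [hf]
    simp only
    rw [Nat.cast_mul, Complex.natCast_mul_natCast_cpow]
  have hf1 : f 1 = 1 := by
    rw [hf]
    simp
  have hnorm : ∀ d : ℕ, 1 ≤ d → ‖f d‖ = (d : ℝ) ^ (-ρ.re) := by
    intro d hd
    rw [hf]
    simp only
    rw [Complex.norm_natCast_cpow_of_pos (by omega), Complex.neg_re]
  have hTpos : 0 < T := by linarith
  have hsum : ∀ y : ℕ, 1 ≤ y → ‖∑ m ∈ Icc 1 y, f m‖ ≤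
      4 * (‖ρ‖ + 1) * (y : ℝ) ^ (-ρ.re) + (y : ℝ) ^ (1 - ρ.re) / T := by
    intro y hy
    have h1 := zeta_partial ρ (by linarith) hρ1 y hy
    rw [hζ, zero_sub] at h1
    have h2 : ‖(y : ℂ) ^ (1 - ρ) / (1 - ρ)‖ ≤ (y : ℝ) ^ (1 - ρ.re) / T := by
      rw [norm_div, Complex.norm_natCast_cpow_of_pos (by omega), Complex.sub_re, Complex.one_re]
      refine div_le_div_of_nonneg_left (Real.rpow_nonneg (Nat.cast_nonneg _) _) hTpos ?_
      have h3 := Complex.abs_im_le_norm (1 - ρ)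
      rw [Complex.sub_im, Complex.one_im, zero_sub, abs_neg] at h3
      linarith
    have h3 : ∑ m ∈ Icc 1 y, f m = (y : ℂ) ^ (1 - ρ) / (1 - ρ) -
        (-∑ m ∈ Icc 1 y, (m : ℂ) ^ (-ρ) + (y : ℂ) ^ (1 - ρ) / (1 - ρ)) := by
      rw [hf]
      ring
    rw [h3]
    refine (norm_sub_le _ _).trans ?_
    linarith
  have hρn : ‖ρ‖ + 1 ≤ 4 * T := by
    have h1 := Complex.norm_le_abs_re_add_abs_im ρ
    rw [abs_of_nonneg (by linarith : 0 ≤ ρ.re)] at h1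
    linarith
  have hX16 : (X : ℝ) ^ (1 - ρ.re) ≤ 2 * s ^ 2 := by
    have h1 : (X : ℝ) ^ (1 - ρ.re) ≤ (X : ℝ) ^ (1 / 16 : ℝ) :=
      Real.rpow_le_rpow_of_exponent_le hX1 (by linarith)
    have h2 : (X : ℝ) ^ (1 / 16 : ℝ) ≤ (2 * s ^ 32) ^ (1 / 16 : ℝ) := by
      refine Real.rpow_le_rpow (by positivity) ?_ (by norm_num)
      have h3 : s ^ 32 = T ^ 8 := by
        rw [← hsT]
        ring
      rw [h3]
      exact hXr
    have h4 : (2 * s ^ 32) ^ (1 / 16 : ℝ) = 2 ^ (1 / 16 : ℝ) * s ^ 2 := by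
      rw [Real.mul_rpow (by norm_num) (by positivity)]
      congr 1
      rw [← Real.rpow_natCast s 32, ← Real.rpow_mul hs0.le, ← Real.rpow_natCast s 2]
      norm_num
    have h5 : (2 : ℝ) ^ (1 / 16 : ℝ) ≤ 2 := by
      have := Real.rpow_le_rpow_of_exponent_le (x := 2) (by norm_num) (by norm_num : (1 / 16 : ℝ) ≤ 1)
      rwa [Real.rpow_one] at this
    refine h1.trans (h2.trans ?_)
    rw [h4]
    exact mul_le_mul_of_nonneg_right h5 (by positivity)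
  -- each term
  have hterm : ∀ d ∈ Icc 1 z, ‖((ArithmeticFunction.moebius d : ℤ) : ℂ) * f d *
      ∑ m ∈ Icc 1 (X / d), f m‖ ≤ 4 * (4 * T) * (2 / T ^ 7) + 2 * s ^ 2 / T * (1 / d) := by
    intro d hd
    obtain ⟨hd1, hdz⟩ := mem_Icc.1 hd
    have hdX : d ≤ X := hdz.trans hzX
    have hy : 1 ≤ X / d := (Nat.le_div_iff_mul_le (by omega)).2 (by omega)
    have hdr : (0 : ℝ) < d := by exact_mod_cast hd1
    rw [norm_mul, norm_mul, hnorm d hd1]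
    have h1 := det_moeb d
    have h3 := hsum (X / d) hy
    have h4 := det_pow T ρ.re X d hd1 hdX hT2 hTX hβ
    have hd0 : 0 ≤ (d : ℝ) ^ (-ρ.re) := Real.rpow_nonneg (Nat.cast_nonneg _) _
    have h5 : ‖((ArithmeticFunction.moebius d : ℤ) : ℂ)‖ * (d : ℝ) ^ (-ρ.re) ≤ (d : ℝ) ^ (-ρ.re) := by
      nlinarith
    have h6 : ‖((ArithmeticFunction.moebius d : ℤ) : ℂ)‖ * (d : ℝ) ^ (-ρ.re) *
        ‖∑ m ∈ Icc 1 (X / d), f m‖ ≤
        (d : ℝ) ^ (-ρ.re) * (4 * (‖ρ‖ + 1) * ((X / d : ℕ) : ℝ) ^ (-ρ.re) +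
          ((X / d : ℕ) : ℝ) ^ (1 - ρ.re) / T) :=
      mul_le_mul h5 h3 (norm_nonneg _) hd0
    refine h6.trans ?_
    have h7 : (d : ℝ) ^ (-ρ.re) * (4 * (‖ρ‖ + 1) * ((X / d : ℕ) : ℝ) ^ (-ρ.re) +
          ((X / d : ℕ) : ℝ) ^ (1 - ρ.re) / T) =
        (4 * (‖ρ‖ + 1)) * ((d : ℝ) ^ (-ρ.re) * ((X / d : ℕ) : ℝ) ^ (-ρ.re)) +
          ((d : ℝ) ^ (-ρ.re) * ((X / d : ℕ) : ℝ) ^ (1 - ρ.re)) / T := by ring
    rw [h7]
    refine add_le_add ?_ ?_
    · refine mul_le_mul ?_ h4 (by positivity) (by positivity)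
      linarith
    · have h8 : (d : ℝ) ^ (-ρ.re) = (d : ℝ) ^ (1 - ρ.re) * (1 / d) := by
        rw [Real.rpow_sub hdr, Real.rpow_one, Real.rpow_neg hdr.le]
        field_simp
      have h9 : (d : ℝ) ^ (1 - ρ.re) * ((X / d : ℕ) : ℝ) ^ (1 - ρ.re) ≤ 2 * s ^ 2 := by
        rw [← Real.mul_rpow (Nat.cast_nonneg _) (Nat.cast_nonneg _)]
        refine le_trans (Real.rpow_le_rpow (by positivity) ?_ (by linarith)) hX16
        exact_mod_cast Nat.mul_div_le X d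
      rw [h8]
      have h10 : (d : ℝ) ^ (1 - ρ.re) * (1 / d) * ((X / d : ℕ) : ℝ) ^ (1 - ρ.re) / T =
          ((d : ℝ) ^ (1 - ρ.re) * ((X / d : ℕ) : ℝ) ^ (1 - ρ.re)) / T * (1 / d) := by ring
      rw [h10]
      refine mul_le_mul_of_nonneg_right ?_ (by positivity)
      exact div_le_div_of_nonneg_right h9 hTpos.le
  have hharm : ∑ d ∈ Icc 1 z, (1 / (d : ℝ)) ≤ 1 + Real.log z := by
    have h1 := harmonic_le_one_add_log z
    have h2 : ((harmonic z : ℚ) : ℝ) = ∑ d ∈ Icc 1 z, (1 / (d : ℝ)) := by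
      rw [harmonic_eq_sum_Icc]
      push_cast
      refine sum_congr rfl fun d _ => ?_
      rw [one_div]
    rw [h2] at h1
    exact h1
  have hlogz : Real.log z ≤ 8 * s := by
    have hz0 : (0 : ℝ) < z := by exact_mod_cast hz1
    have h1 : Real.log z ≤ Real.log (2 * T) := Real.log_le_log hz0 hzr
    have h2 : Real.log (2 * T) ≤ Real.log ((2 * s) ^ 4) := by
      refine Real.log_le_log (by linarith) ?_
      rw [mul_pow, hsT]
      linarith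
    rw [Real.log_pow] at h2
    have h3 := Real.log_le_sub_one_of_pos (show 0 < 2 * s by linarith)
    push_cast at h2
    linarith
  have htot : ‖∑ n ∈ Icc 1 X, (bz z n : ℂ) * f n‖ ≤ 1 / 2 := by
    rw [det_ident f hmul z X]
    refine (norm_sum_le _ _).trans ((sum_le_sum hterm).trans ?_)
    rw [sum_add_distrib, sum_const, Nat.card_Icc, Nat.add_sub_cancel, nsmul_eq_mul, ← mul_sum]
    have hA : (z : ℝ) * (4 * (4 * T) * (2 / T ^ 7)) ≤ 1 / 4 := by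
      have h1 : (z : ℝ) * (4 * (4 * T) * (2 / T ^ 7)) ≤ 2 * T * (4 * (4 * T) * (2 / T ^ 7)) :=
        mul_le_mul_of_nonneg_right hzr (by positivity)
      refine h1.trans ?_
      have h2 : 2 * T * (4 * (4 * T) * (2 / T ^ 7)) = 64 / T ^ 5 := by
        field_simp
        ring
      rw [h2, div_le_iff₀ (by positivity)]
      have h3 : T ^ 1 ≤ T ^ 5 := pow_le_pow_right₀ (by linarith) (by norm_num)
      rw [pow_one] at h3
      linarith
    have hB : 2 * s ^ 2 / T * ∑ d ∈ Icc 1 z, (1 / (d : ℝ)) ≤ 1 / 4 := by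
      have h1 : ∑ d ∈ Icc 1 z, (1 / (d : ℝ)) ≤ 9 * s := by linarith
      have h2 : 2 * s ^ 2 / T * ∑ d ∈ Icc 1 z, (1 / (d : ℝ)) ≤ 2 * s ^ 2 / T * (9 * s) :=
        mul_le_mul_of_nonneg_left h1 (by positivity)
      refine h2.trans ?_
      rw [← hsT]
      have h3 : 2 * s ^ 2 / s ^ 4 * (9 * s) = 18 / s := by
        field_simp
        ring
      rw [h3, div_le_iff₀ hs0]
      linarith
    linarith
  rw [det_split f hf1 z X hz1 hzX] at htot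
  have hgoal : ∑ n ∈ Ioc z X, (bz z n : ℂ) * (n : ℂ) ^ (-ρ) =
      ∑ n ∈ Ioc z X, (bz z n : ℂ) * f n := by
    rw [hf]
  rw [hgoal]
  have h1 := norm_add_le (1 + ∑ n ∈ Ioc z X, (bz z n : ℂ) * f n) (-∑ n ∈ Ioc z X, (bz z n : ℂ) * f n)
  rw [norm_neg, add_neg_cancel_right, norm_one] at h1
  linarith

end Pool.Agent.Lib.MP_629a14_nt.Th
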