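import Mathlib

/-! A mean value of the square of the divisor function. -/

set_option autoImplicit false

namespace Pool.Agent.Lib.MP_629a14_nt.Th

open Finset

private theorem DivSq_double (X : ℕ) (f : ℕ → ℕ → ℝ) (hf : ∀ a b, 0 ≤ f a b) :
    ∑ n ∈ Icc 1 X, ∑ p ∈ n.divisorsAntidiagonal, f p.1 p.2 ≤
      ∑ a ∈ Icc 1 X, ∑ b ∈ Icc 1 X, f a b := by
  classical
  rw [← Finset.sum_product' (s := Icc 1 X) (t := Icc 1 X) (f := f)]
  have h1 : ∑ n ∈ Icc 1 X, ∑ p ∈ n.divisorsAntidiagonal, f p.1 p.2 =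
      ∑ p ∈ (Icc 1 X ×ˢ Icc 1 X).filter (fun p => p.1 * p.2 ∈ Icc 1 X), f p.1 p.2 := by
    rw [← Finset.sum_fiberwise_of_maps_to (s := (Icc 1 X ×ˢ Icc 1 X).filter
      (fun p => p.1 * p.2 ∈ Icc 1 X)) (t := Icc 1 X) (g := fun p => p.1 * p.2)
      (fun p hp => (Finset.mem_filter.1 hp).2)]
    apply Finset.sum_congr rfl
    intro n hn
    rw [Finset.mem_Icc] at hn
    apply Finset.sum_congr _ (fun _ _ => rfl)
    ext p
    simp only [Nat.mem_divisorsAntidiagonal, Finset.mem_filter, Finset.mem_product,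
      Finset.mem_Icc]
    constructor
    · rintro ⟨h, hn0⟩
      have ha : p.1 ≠ 0 := by rintro h0; rw [h0, zero_mul] at h; omega
      have hb : p.2 ≠ 0 := by rintro h0; rw [h0, mul_zero] at h; omega
      have ha1 : p.1 ≤ n := by rw [← h]; exact Nat.le_mul_of_pos_right _ (Nat.pos_of_ne_zero hb)
      have hb1 : p.2 ≤ n := by rw [← h]; exact Nat.le_mul_of_pos_left _ (Nat.pos_of_ne_zero ha)
      refine ⟨⟨⟨⟨?_, ?_⟩, ?_, ?_⟩, ?_, ?_⟩, h⟩ <;> omega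
    · rintro ⟨_, h⟩
      exact ⟨h, by omega⟩
  rw [h1]
  exact Finset.sum_le_sum_of_subset_of_nonneg (Finset.filter_subset _ _)
    (fun p _ _ => hf _ _)

private theorem DivSq_card_mul (a b : ℕ) :
    ((a * b).divisors.card : ℝ) ≤ (a.divisors.card : ℝ) * (b.divisors.card : ℝ) := by
  rw [Nat.divisors_mul]
  exact_mod_cast Finset.card_mul_le

private theorem DivSq_card_eq (n : ℕ) : (n.divisors.card : ℝ) = ∑ _p ∈ n.divisorsAntidiagonal, (1 : ℝ) := by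
  rw [Finset.sum_const, nsmul_eq_mul, mul_one, ← Nat.map_div_right_divisors, Finset.card_map]

private theorem DivSq_one (X : ℕ) :
    ∑ n ∈ Icc 1 X, (n.divisors.card : ℝ) / n ≤ (∑ a ∈ Icc 1 X, (1 : ℝ) / a) ^ 2 := by
  have h1 : ∑ n ∈ Icc 1 X, (n.divisors.card : ℝ) / n =
      ∑ n ∈ Icc 1 X, ∑ p ∈ n.divisorsAntidiagonal, (1 : ℝ) / p.1 * (1 / p.2) := by
    apply Finset.sum_congr rfl
    intro n _
    rw [DivSq_card_eq, Finset.sum_div]
    apply Finset.sum_congr rfl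
    intro p hp
    rw [← (Nat.mem_divisorsAntidiagonal.1 hp).1]
    push_cast
    rw [one_div_mul_one_div]
  rw [h1]
  refine (DivSq_double X (fun a b => (1 : ℝ) / a * (1 / b)) (fun a b => by positivity)).trans ?_
  rw [sq, Finset.sum_mul_sum]

/-- `d(n)² ≤ d₄(n)` (check on prime powers: `(a+1)² ≤ (a+1)(a+2)(a+3)/6 ...` by multiplicativity), and
`∑_{n ≤ X} d₄(n)/n ≤ (∑_{n ≤ X} 1/n)⁴`. Alternatively: `d(n)² ≤ ∑_{d ∣ n} ...` submultiplicativity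
`d(ab) ≤ d(a) d(b)`: `∑ d(n)²/n ≤ ∑_{a b ≤ X} d(ab)/(ab) ≤ (∑_{a ≤ X} d(a)/a)² ≤ (∑ 1/a)⁴`. -/
theorem div_sq (X : ℕ) (hX : 1 ≤ X) :
    ∑ n ∈ Icc 1 X, (n.divisors.card : ℝ) ^ 2 / n ≤ (1 + Real.log X) ^ 4 := by
  have h1 : ∑ n ∈ Icc 1 X, (n.divisors.card : ℝ) ^ 2 / n ≤
      ∑ n ∈ Icc 1 X, ∑ p ∈ n.divisorsAntidiagonal,
        (p.1.divisors.card : ℝ) / p.1 * ((p.2.divisors.card : ℝ) / p.2) := by
    apply Finset.sum_le_sum
    intro n _
    have : (n.divisors.card : ℝ) ^ 2 / n =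
        ∑ _p ∈ n.divisorsAntidiagonal, (n.divisors.card : ℝ) / n := by
      rw [Finset.sum_const, nsmul_eq_mul, ← Nat.map_div_right_divisors, Finset.card_map]
      ring
    rw [this]
    apply Finset.sum_le_sum
    intro p hp
    rw [← (Nat.mem_divisorsAntidiagonal.1 hp).1, div_mul_div_comm]
    push_cast
    gcongr
    exact DivSq_card_mul _ _
  have h2 := DivSq_double X (fun a b => (a.divisors.card : ℝ) / a * ((b.divisors.card : ℝ) / b))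
    (fun a b => by positivity)
  have h3 : ∑ a ∈ Icc 1 X, ∑ b ∈ Icc 1 X,
      ((a.divisors.card : ℝ) / a * ((b.divisors.card : ℝ) / b)) =
      (∑ a ∈ Icc 1 X, (a.divisors.card : ℝ) / a) ^ 2 := by
    rw [sq, Finset.sum_mul_sum]
  have h4 : (∑ a ∈ Icc 1 X, (1 : ℝ) / a) ≤ 1 + Real.log X := by
    have := harmonic_le_one_add_log X
    rw [harmonic_eq_sum_Icc] at this
    push_cast at this
    simpa only [one_div] using this
  have h5 := DivSq_one X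
  have h6 : (0 : ℝ) ≤ ∑ a ∈ Icc 1 X, (1 : ℝ) / a := Finset.sum_nonneg (fun _ _ => by positivity)
  have h7 : (0 : ℝ) ≤ ∑ a ∈ Icc 1 X, (a.divisors.card : ℝ) / a :=
    Finset.sum_nonneg (fun _ _ => by positivity)
  calc ∑ n ∈ Icc 1 X, (n.divisors.card : ℝ) ^ 2 / n
      ≤ (∑ a ∈ Icc 1 X, (a.divisors.card : ℝ) / a) ^ 2 := h1.trans (h2.trans h3.le)
    _ ≤ ((∑ a ∈ Icc 1 X, (1 : ℝ) / a) ^ 2) ^ 2 := by gcongr
    _ = (∑ a ∈ Icc 1 X, (1 : ℝ) / a) ^ 4 := by ring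
    _ ≤ (1 + Real.log X) ^ 4 := by gcongr

end Pool.Agent.Lib.MP_629a14_nt.Th
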