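import Mathlib

/-! Bounding a Dirichlet polynomial at a point by mean values. -/

set_option autoImplicit false

namespace Pool.Agent.Lib.MP_629a14_nt.Th

open Finset

/-- Average `‖F(γ)‖² ≤ ‖F(t)‖² + 2 ∫ ‖F‖ ‖F'‖` over `t` in the interval, and `2ab ≤ a² + b²`. -/
theorem sobolev (F F' : ℝ → ℂ) (hF : ∀ t, HasDerivAt F (F' t) t) (hF' : Continuous F') (γ : ℝ) :
    ‖F γ‖ ^ 2 ≤ ∫ t in (γ - 1 / 2)..(γ + 1 / 2), (2 * ‖F t‖ ^ 2 + ‖F' t‖ ^ 2) := by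
  have hFc : Continuous F := continuous_iff_continuousAt.2 fun t => (hF t).continuousAt
  set a : ℝ := γ - 1 / 2 with ha
  set b : ℝ := γ + 1 / 2 with hb
  have hab : a ≤ b := by rw [ha, hb]; linarith
  have hlen : b - a = 1 := by rw [ha, hb]; ring
  let g : ℝ → ℝ := fun s => 2 * inner ℝ (F s) (F' s)
  let h : ℝ → ℝ := fun s => ‖F s‖ ^ 2 + ‖F' s‖ ^ 2
  have hgc : Continuous g := by
    exact continuous_const.mul (hFc.inner hF')
  have hhc : Continuous h := (hFc.norm.pow 2).add (hF'.norm.pow 2)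
  have hg : ∀ t, HasDerivAt (fun s => ‖F s‖ ^ 2) (g t) t := fun t => (hF t).norm_sq
  have hgh : ∀ s, ‖g s‖ ≤ h s := by
    intro s
    have h1 : ‖g s‖ ≤ 2 * (‖F s‖ * ‖F' s‖) := by
      change ‖2 * inner ℝ (F s) (F' s)‖ ≤ _
      rw [norm_mul]
      have := norm_inner_le_norm (𝕜 := ℝ) (F s) (F' s)
      rw [Real.norm_ofNat]
      linarith
    refine h1.trans ?_
    change _ ≤ ‖F s‖ ^ 2 + ‖F' s‖ ^ 2
    nlinarith [sq_nonneg (‖F s‖ - ‖F' s‖)]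
  have hh0 : ∀ s, 0 ≤ h s := fun s => by
    change 0 ≤ ‖F s‖ ^ 2 + ‖F' s‖ ^ 2
    positivity
  -- pointwise
  have key : ∀ t ∈ Set.Icc a b, ‖F γ‖ ^ 2 ≤ ‖F t‖ ^ 2 + ∫ s in a..b, h s := by
    intro t ht
    have h1 : ∫ s in t..γ, g s = ‖F γ‖ ^ 2 - ‖F t‖ ^ 2 :=
      intervalIntegral.integral_eq_sub_of_hasDerivAt (fun s _ => hg s) (hgc.intervalIntegrable _ _)
    have h2 : ‖∫ s in t..γ, g s‖ ≤ |∫ s in t..γ, h s| :=
      intervalIntegral.norm_integral_le_abs_of_norm_le (Filter.Eventually.of_forall fun s => hgh s)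
        (hhc.intervalIntegrable _ _)
    have h3 : |∫ s in t..γ, h s| ≤ |∫ s in a..b, h s| := by
      refine intervalIntegral.abs_integral_mono_interval ?_ (Filter.Eventually.of_forall fun s => hh0 s)
        (hhc.intervalIntegrable _ _)
      rw [Set.uIoc_of_le hab]
      rcases le_total t γ with h4 | h4
      · rw [Set.uIoc_of_le h4]
        exact Set.Ioc_subset_Ioc ht.1 (by rw [hb]; linarith)
      · rw [Set.uIoc_of_ge h4]
        exact Set.Ioc_subset_Ioc (by rw [ha]; linarith) ht.2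
    have h4 : 0 ≤ ∫ s in a..b, h s := intervalIntegral.integral_nonneg hab fun s _ => hh0 s
    rw [abs_of_nonneg h4] at h3
    rw [h1] at h2
    have h5 := le_abs_self (‖F γ‖ ^ 2 - ‖F t‖ ^ 2)
    rw [Real.norm_eq_abs] at h2
    linarith
  have hmono : ∫ t in a..b, ‖F γ‖ ^ 2 ≤ ∫ t in a..b, (‖F t‖ ^ 2 + ∫ s in a..b, h s) := by
    refine intervalIntegral.integral_mono_on hab (continuous_const.intervalIntegrable _ _)
      (((hFc.norm.pow 2).add continuous_const).intervalIntegrable _ _) key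
  have e1 : ∫ t in a..b, ‖F γ‖ ^ 2 = ‖F γ‖ ^ 2 := by
    rw [intervalIntegral.integral_const, hlen, one_smul]
  have hFi : IntervalIntegrable (fun t => ‖F t‖ ^ 2) MeasureTheory.volume a b :=
    (hFc.norm.pow 2).intervalIntegrable _ _
  have hhi : IntervalIntegrable h MeasureTheory.volume a b := hhc.intervalIntegrable _ _
  have hki : IntervalIntegrable (fun _ : ℝ => ∫ s in a..b, h s) MeasureTheory.volume a b :=
    continuous_const.intervalIntegrable _ _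
  have e2 : ∫ t in a..b, (‖F t‖ ^ 2 + ∫ s in a..b, h s) =
      (∫ t in a..b, ‖F t‖ ^ 2) + ∫ s in a..b, h s := by
    rw [intervalIntegral.integral_add hFi hki, intervalIntegral.integral_const, hlen, one_smul]
  have e3 : (∫ t in a..b, ‖F t‖ ^ 2) + ∫ s in a..b, h s =
      ∫ t in a..b, (2 * ‖F t‖ ^ 2 + ‖F' t‖ ^ 2) := by
    rw [← intervalIntegral.integral_add hFi hhi]
    refine intervalIntegral.integral_congr fun t _ => ?_
    change ‖F t‖ ^ 2 + (‖F t‖ ^ 2 + ‖F' t‖ ^ 2) = 2 * ‖F t‖ ^ 2 + ‖F' t‖ ^ 2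
    ring
  rw [e1, e2, e3] at hmono
  exact hmono

/-- The Dirichlet polynomial with coefficients `c n (log n)^j`. -/
noncomputable def Fj (S : Finset ℕ) (c : ℕ → ℂ) (j : ℕ) (σ t : ℝ) : ℂ :=
  ∑ n ∈ S, c n * (((Real.log n) ^ j : ℝ) : ℂ) * (n : ℂ) ^ (-((σ : ℂ) + t * Complex.I))

private theorem sob_cont (S : Finset ℕ) (hS : ∀ n ∈ S, 1 ≤ n) (c : ℕ → ℂ) (j : ℕ) :
    Continuous (fun p : ℝ × ℝ => Fj S c j p.1 p.2) := by
  unfold Fj
  refine continuous_finsetSum _ fun n hn => ?_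
  have hn0 : (n : ℂ) ≠ 0 := by
    have := hS n hn
    exact_mod_cast (by omega : n ≠ 0)
  refine continuous_const.mul ?_
  have h1 : Continuous (fun z : ℂ => (n : ℂ) ^ z) := Continuous.const_cpow continuous_id (Or.inl hn0)
  exact h1.comp (by fun_prop)

private theorem sob_cpow (n : ℕ) (hn : 1 ≤ n) (z : ℂ) :
    HasDerivAt (fun w : ℂ => (n : ℂ) ^ w) ((n : ℂ) ^ z * ((Real.log n : ℝ) : ℂ)) z := by
  have hn0 : (n : ℂ) ≠ 0 := by exact_mod_cast (by omega : n ≠ 0)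
  have h := (hasDerivAt_id z).const_cpow (c := (n : ℂ)) (Or.inl hn0)
  simp only [id, mul_one] at h
  rwa [← Complex.natCast_log] at h

private theorem sob_dt1 (n : ℕ) (hn : 1 ≤ n) (z : ℂ) (σ t : ℝ) :
    HasDerivAt (fun t : ℝ => z * (n : ℂ) ^ (-((σ : ℂ) + t * Complex.I)))
      (z * ((n : ℂ) ^ (-((σ : ℂ) + t * Complex.I)) * ((Real.log n : ℝ) : ℂ) * -Complex.I)) t := by
  have h1 := sob_cpow n hn (-((σ : ℂ) + t * Complex.I))
  have h2 : HasDerivAt (fun t : ℝ => -((σ : ℂ) + (t : ℂ) * Complex.I)) (-Complex.I) t := by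
    have h3 : HasDerivAt (fun t : ℝ => (t : ℂ)) 1 t := Complex.ofRealCLM.hasDerivAt
    have h4 : HasDerivAt (fun t : ℝ => -((σ : ℂ) + (t : ℂ) * Complex.I)) (-(1 * Complex.I)) t :=
      ((h3.mul_const Complex.I).const_add (σ : ℂ)).fun_neg
    rwa [one_mul] at h4
  exact (h1.comp t h2).const_mul z

private theorem sob_ds1 (n : ℕ) (hn : 1 ≤ n) (z : ℂ) (σ t : ℝ) :
    HasDerivAt (fun σ : ℝ => z * (n : ℂ) ^ (-((σ : ℂ) + t * Complex.I)))
      (z * ((n : ℂ) ^ (-((σ : ℂ) + t * Complex.I)) * ((Real.log n : ℝ) : ℂ) * -1)) σ := by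
  have h1 := sob_cpow n hn (-((σ : ℂ) + t * Complex.I))
  have h2 : HasDerivAt (fun σ : ℝ => -((σ : ℂ) + (t : ℂ) * Complex.I)) (-1) σ := by
    have h3 : HasDerivAt (fun t : ℝ => (t : ℂ)) 1 σ := Complex.ofRealCLM.hasDerivAt
    exact (h3.add_const ((t : ℂ) * Complex.I)).fun_neg
  exact (h1.comp σ h2).const_mul z

private theorem sob_dt (S : Finset ℕ) (hS : ∀ n ∈ S, 1 ≤ n) (c : ℕ → ℂ) (j : ℕ) (σ t : ℝ) :
    HasDerivAt (fun t : ℝ => Fj S c j σ t) (-Complex.I * Fj S c (j + 1) σ t) t := by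
  have h : HasDerivAt (fun t : ℝ => ∑ n ∈ S, c n * (((Real.log n) ^ j : ℝ) : ℂ) *
      (n : ℂ) ^ (-((σ : ℂ) + t * Complex.I)))
      (∑ n ∈ S, c n * (((Real.log n) ^ j : ℝ) : ℂ) *
        ((n : ℂ) ^ (-((σ : ℂ) + t * Complex.I)) * ((Real.log n : ℝ) : ℂ) * -Complex.I)) t :=
    HasDerivAt.fun_sum (A := fun n (t : ℝ) => c n * (((Real.log n) ^ j : ℝ) : ℂ) *
      (n : ℂ) ^ (-((σ : ℂ) + t * Complex.I))) fun n hn =>
        sob_dt1 n (hS n hn) (c n * (((Real.log n) ^ j : ℝ) : ℂ)) σ t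
  have e : ∑ n ∈ S, c n * (((Real.log n) ^ j : ℝ) : ℂ) *
        ((n : ℂ) ^ (-((σ : ℂ) + t * Complex.I)) * ((Real.log n : ℝ) : ℂ) * -Complex.I) =
      -Complex.I * Fj S c (j + 1) σ t := by
    unfold Fj
    rw [Finset.mul_sum]
    refine sum_congr rfl fun n _ => ?_
    rw [pow_succ, Complex.ofReal_mul]
    ring
  rw [e] at h
  exact h

private theorem sob_ds (S : Finset ℕ) (hS : ∀ n ∈ S, 1 ≤ n) (c : ℕ → ℂ) (j : ℕ) (σ t : ℝ) :
    HasDerivAt (fun σ : ℝ => Fj S c j σ t) (-Fj S c (j + 1) σ t) σ := by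
  have h : HasDerivAt (fun σ : ℝ => ∑ n ∈ S, c n * (((Real.log n) ^ j : ℝ) : ℂ) *
      (n : ℂ) ^ (-((σ : ℂ) + t * Complex.I)))
      (∑ n ∈ S, c n * (((Real.log n) ^ j : ℝ) : ℂ) *
        ((n : ℂ) ^ (-((σ : ℂ) + t * Complex.I)) * ((Real.log n : ℝ) : ℂ) * -1)) σ :=
    HasDerivAt.fun_sum (A := fun n (σ : ℝ) => c n * (((Real.log n) ^ j : ℝ) : ℂ) *
      (n : ℂ) ^ (-((σ : ℂ) + t * Complex.I))) fun n hn =>
        sob_ds1 n (hS n hn) (c n * (((Real.log n) ^ j : ℝ) : ℂ)) σ t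
  have e : ∑ n ∈ S, c n * (((Real.log n) ^ j : ℝ) : ℂ) *
        ((n : ℂ) ^ (-((σ : ℂ) + t * Complex.I)) * ((Real.log n : ℝ) : ℂ) * -1) =
      -Fj S c (j + 1) σ t := by
    unfold Fj
    rw [← Finset.sum_neg_distrib]
    refine sum_congr rfl fun n _ => ?_
    rw [pow_succ, Complex.ofReal_mul]
    ring
  rw [e] at h
  exact h

private theorem sob_cont_t (S : Finset ℕ) (hS : ∀ n ∈ S, 1 ≤ n) (c : ℕ → ℂ) (j : ℕ) (σ : ℝ) :
    Continuous (fun t : ℝ => Fj S c j σ t) :=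
  continuous_iff_continuousAt.2 fun t => (sob_dt S hS c j σ t).continuousAt

private theorem sob_cont_s (S : Finset ℕ) (hS : ∀ n ∈ S, 1 ≤ n) (c : ℕ → ℂ) (j : ℕ) (t : ℝ) :
    Continuous (fun σ : ℝ => Fj S c j σ t) :=
  continuous_iff_continuousAt.2 fun σ => (sob_ds S hS c j σ t).continuousAt

private theorem sob_sq (S : Finset ℕ) (hS : ∀ n ∈ S, 1 ≤ n) (c : ℕ → ℂ) (j : ℕ) (σ γ : ℝ) :
    2 * ‖Fj S c j σ γ‖ ^ 2 ≤ ∫ t in (γ - 1 / 2)..(γ + 1 / 2),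
      (4 * ‖Fj S c j σ t‖ ^ 2 + 2 * ‖Fj S c (j + 1) σ t‖ ^ 2) := by
  have hc : Continuous (fun t : ℝ => -Complex.I * Fj S c (j + 1) σ t) :=
    continuous_const.mul (sob_cont_t S hS c (j + 1) σ)
  have h1 := sobolev (fun t : ℝ => Fj S c j σ t) (fun t : ℝ => -Complex.I * Fj S c (j + 1) σ t)
    (fun t => sob_dt S hS c j σ t) hc γ
  have h2 := mul_le_mul_of_nonneg_left h1 (by norm_num : (0 : ℝ) ≤ 2)
  rw [← intervalIntegral.integral_const_mul] at h2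
  have e : (fun t : ℝ => 2 * (2 * ‖Fj S c j σ t‖ ^ 2 + ‖-Complex.I * Fj S c (j + 1) σ t‖ ^ 2)) =
      fun t : ℝ => 4 * ‖Fj S c j σ t‖ ^ 2 + 2 * ‖Fj S c (j + 1) σ t‖ ^ 2 := by
    funext t
    rw [norm_mul, norm_neg, Complex.norm_I, one_mul]
    ring
  rw [e] at h2
  exact h2

/-- Cauchy-Schwarz on an interval of length at most one -/
private theorem sob_cs (f : ℝ → ℝ) (hf : Continuous f) (a b : ℝ) (hab : a ≤ b) (h1 : b - a ≤ 1) :
    (∫ s in a..b, f s) ^ 2 ≤ ∫ s in a..b, f s ^ 2 := by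
  set I : ℝ := ∫ s in a..b, f s with hI
  have hfi : IntervalIntegrable f MeasureTheory.volume a b := hf.intervalIntegrable _ _
  have hf2 : IntervalIntegrable (fun s => f s ^ 2) MeasureTheory.volume a b :=
    (hf.pow 2).intervalIntegrable _ _
  -- ∫ (f - I)^2 ≥ 0
  have h2 : 0 ≤ ∫ s in a..b, (f s - I) ^ 2 :=
    intervalIntegral.integral_nonneg hab fun s _ => sq_nonneg _
  have h3 : ∫ s in a..b, (f s - I) ^ 2 = (∫ s in a..b, f s ^ 2) - 2 * I * I + (b - a) * I ^ 2 := by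
    have e : ∀ s, (f s - I) ^ 2 = (f s ^ 2 - 2 * I * f s) + I ^ 2 := fun s => by ring
    simp only [e]
    rw [intervalIntegral.integral_add (hf2.sub (hfi.const_mul _)) (continuous_const.intervalIntegrable _ _),
      intervalIntegral.integral_sub hf2 (hfi.const_mul _), intervalIntegral.integral_const_mul,
      intervalIntegral.integral_const, smul_eq_mul, ← hI]
  rw [h3] at h2
  nlinarith [sq_nonneg I]

/-- Proof. `F₀(β+iγ) = F₀(σ+iγ) - ∫_σ^β F₁(s+iγ) ds`, so `‖F₀(β+iγ)‖² ≤ 2‖F₀(σ+iγ)‖² + 2(β-σ)∫_σ^β ‖F₁(s+iγ)‖² ds`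
(`β - σ ≤ 1`), and `sobolev` for both (`d/dt F_j(σ+it) = -i F_{j+1}(σ+it)`). -/
theorem point_bound (S : Finset ℕ) (hS : ∀ n ∈ S, 1 ≤ n) (c : ℕ → ℂ) (σ β γ : ℝ) (h1 : σ ≤ β) (h2 : β ≤ 1)
    (h3 : 0 ≤ σ) :
    ‖Fj S c 0 β γ‖ ^ 2 ≤
      (∫ t in (γ - 1 / 2)..(γ + 1 / 2), (4 * ‖Fj S c 0 σ t‖ ^ 2 + 2 * ‖Fj S c 1 σ t‖ ^ 2)) +
      ∫ s in σ..1, ∫ t in (γ - 1 / 2)..(γ + 1 / 2), (4 * ‖Fj S c 1 s t‖ ^ 2 + 2 * ‖Fj S c 2 s t‖ ^ 2) := by
  have hc1 : Continuous (fun s : ℝ => Fj S c 1 s γ) :=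
    sob_cont_s S hS c 1 γ
  have hint : ∫ s in σ..β, -Fj S c 1 s γ = Fj S c 0 β γ - Fj S c 0 σ γ :=
    intervalIntegral.integral_eq_sub_of_hasDerivAt (fun s _ => sob_ds S hS c 0 s γ)
      (hc1.neg.intervalIntegrable _ _)
  have hn : ‖Fj S c 0 β γ - Fj S c 0 σ γ‖ ≤ ∫ s in σ..β, ‖Fj S c 1 s γ‖ := by
    have h4 := intervalIntegral.norm_integral_le_integral_norm (μ := MeasureTheory.volume)
      (f := fun s : ℝ => -Fj S c 1 s γ) h1
    rw [hint] at h4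
    have e : (fun s : ℝ => ‖-Fj S c 1 s γ‖) = fun s : ℝ => ‖Fj S c 1 s γ‖ := by
      funext s
      rw [norm_neg]
    rw [e] at h4
    exact h4
  have hcs := sob_cs (fun s => ‖Fj S c 1 s γ‖) hc1.norm σ β h1 (by linarith)
  have hsq : ‖Fj S c 0 β γ - Fj S c 0 σ γ‖ ^ 2 ≤ ∫ s in σ..β, ‖Fj S c 1 s γ‖ ^ 2 :=
    (pow_le_pow_left₀ (norm_nonneg _) hn 2).trans hcs
  have htri : ‖Fj S c 0 β γ‖ ^ 2 ≤ 2 * ‖Fj S c 0 σ γ‖ ^ 2 + 2 * ‖Fj S c 0 β γ - Fj S c 0 σ γ‖ ^ 2 := by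
    have h4 : ‖Fj S c 0 β γ‖ ≤ ‖Fj S c 0 σ γ‖ + ‖Fj S c 0 β γ - Fj S c 0 σ γ‖ := by
      have := norm_add_le (Fj S c 0 σ γ) (Fj S c 0 β γ - Fj S c 0 σ γ)
      rwa [add_sub_cancel] at this
    have h5 := norm_nonneg (Fj S c 0 β γ)
    nlinarith [sq_nonneg (‖Fj S c 0 σ γ‖ - ‖Fj S c 0 β γ - Fj S c 0 σ γ‖)]
  have hext : ∫ s in σ..β, ‖Fj S c 1 s γ‖ ^ 2 ≤ ∫ s in σ..1, ‖Fj S c 1 s γ‖ ^ 2 := by
    have hi : ∀ a b : ℝ, IntervalIntegrable (fun s => ‖Fj S c 1 s γ‖ ^ 2) MeasureTheory.volume a b :=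
      fun a b => (hc1.norm.pow 2).intervalIntegrable _ _
    rw [← intervalIntegral.integral_add_adjacent_intervals (hi σ β) (hi β 1)]
    have := intervalIntegral.integral_nonneg (μ := MeasureTheory.volume) h2
      (f := fun s => ‖Fj S c 1 s γ‖ ^ 2) (fun s _ => by positivity)
    linarith
  have hA := sob_sq S hS c 0 σ γ
  have hB : 2 * ∫ s in σ..1, ‖Fj S c 1 s γ‖ ^ 2 ≤
      ∫ s in σ..1, ∫ t in (γ - 1 / 2)..(γ + 1 / 2), (4 * ‖Fj S c 1 s t‖ ^ 2 + 2 * ‖Fj S c 2 s t‖ ^ 2) := by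
    rw [← intervalIntegral.integral_const_mul]
    refine intervalIntegral.integral_mono_on (h1.trans h2)
      ((continuous_const.mul (hc1.norm.pow 2)).intervalIntegrable _ _) ?_
      (fun s _ => sob_sq S hS c 1 s γ)
    refine Continuous.intervalIntegrable ?_ _ _
    refine intervalIntegral.continuous_parametric_intervalIntegral_of_continuous' ?_ _ _
    change Continuous (fun p : ℝ × ℝ => 4 * ‖Fj S c 1 p.1 p.2‖ ^ 2 + 2 * ‖Fj S c 2 p.1 p.2‖ ^ 2)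
    exact (continuous_const.mul ((sob_cont S hS c 1).norm.pow 2)).add
      (continuous_const.mul ((sob_cont S hS c 2).norm.pow 2))
  linarith

end Pool.Agent.Lib.MP_629a14_nt.Th
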