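import Pool.Agent.Lib.MP_629a14_nt.Th.Hybrid
import Pool.Agent.Lib.MP_629a14_nt.Th.Detect
import Pool.Agent.Lib.MP_629a14_nt.Th.Sobolev
import Pool.Agent.Lib.MP_629a14_nt.Th.CountZ
import Pool.Agent.Lib.MP_629a14_nt.Th.DivSq

/-! Zero density for all primitive characters of conductor at most `P`. -/

set_option autoImplicit false

namespace Pool.Agent.Lib.MP_629a14_nt.Th

open Finset

section abs

open MeasureTheory

/-- zeros in windows -/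
private theorem dens_win (Z : Finset ℂ) (m : ℂ → ℝ) (T K : ℝ) (g : ℝ → ℝ) (hg : Continuous g)
    (hg0 : ∀ t, 0 ≤ g t) (hZ : ∀ ρ ∈ Z, |ρ.im| ≤ T)
    (hc : ∀ t : ℝ, |t| ≤ T + 1 → ∑ ρ ∈ Z.filter (fun ρ => |ρ.im - t| ≤ 1 / 2), m ρ ≤ K) (hT : 0 ≤ T) :
    ∑ ρ ∈ Z, m ρ * ∫ t in (ρ.im - 1 / 2)..(ρ.im + 1 / 2), g t ≤ K * ∫ t in (-(T + 1))..(T + 1), g t := by
  have hI : ∀ a b : ℝ, IntegrableOn g (Set.Icc a b) := fun a b => hg.integrableOn_Icc
  have h1 : ∀ ρ ∈ Z, ∫ t in (ρ.im - 1 / 2)..(ρ.im + 1 / 2), g t =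
      ∫ t in Set.Icc (-(T + 1)) (T + 1),
        (Set.Icc (ρ.im - 1 / 2) (ρ.im + 1 / 2)).indicator g t := by
    intro ρ hρ
    have h2 := abs_le.1 (hZ ρ hρ)
    rw [intervalIntegral.integral_of_le (by linarith), ← integral_Icc_eq_integral_Ioc,
      setIntegral_indicator measurableSet_Icc]
    congr 2
    symm
    apply Set.inter_eq_right.2
    apply Set.Icc_subset_Icc <;> linarith [h2.1, h2.2]
  rw [intervalIntegral.integral_of_le (by linarith : -(T + 1) ≤ T + 1), ← integral_Icc_eq_integral_Ioc,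
    ← integral_const_mul]
  calc ∑ ρ ∈ Z, m ρ * ∫ t in (ρ.im - 1 / 2)..(ρ.im + 1 / 2), g t
      = ∑ ρ ∈ Z, ∫ t in Set.Icc (-(T + 1)) (T + 1),
        m ρ * (Set.Icc (ρ.im - 1 / 2) (ρ.im + 1 / 2)).indicator g t := by
        refine sum_congr rfl fun ρ hρ => ?_
        rw [h1 ρ hρ, integral_const_mul]
    _ = ∫ t in Set.Icc (-(T + 1)) (T + 1), ∑ ρ ∈ Z,
        m ρ * (Set.Icc (ρ.im - 1 / 2) (ρ.im + 1 / 2)).indicator g t := by
        rw [integral_finsetSum]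
        intro ρ _
        exact ((hI _ _).indicator measurableSet_Icc).const_mul _
    _ ≤ ∫ t in Set.Icc (-(T + 1)) (T + 1), K * g t := by
        apply setIntegral_mono_on _ ((hI _ _).const_mul K) measurableSet_Icc
        · intro t ht
          have h3 : ∑ ρ ∈ Z, m ρ * (Set.Icc (ρ.im - 1 / 2) (ρ.im + 1 / 2)).indicator g t =
              (∑ ρ ∈ Z.filter (fun ρ => |ρ.im - t| ≤ 1 / 2), m ρ) * g t := by
            rw [sum_filter, sum_mul]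
            refine sum_congr rfl fun ρ _ => ?_
            by_cases h : |ρ.im - t| ≤ 1 / 2
            · rw [if_pos h, Set.indicator_of_mem]
              have := abs_le.1 h
              exact ⟨by linarith [this.1, this.2], by linarith [this.1, this.2]⟩
            · rw [if_neg h, Set.indicator_of_notMem, mul_zero, zero_mul]
              intro h4
              apply h
              rw [abs_le]
              exact ⟨by linarith [h4.1, h4.2], by linarith [h4.1, h4.2]⟩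
          rw [h3]
          exact mul_le_mul_of_nonneg_right (hc t (abs_le.2 ⟨by linarith [ht.1], ht.2⟩)) (hg0 t)
        · apply integrable_finsetSum
          intro ρ _
          exact ((hI _ _).indicator measurableSet_Icc).const_mul _

private theorem dens_cont (S : Finset ℕ) (hS : ∀ n ∈ S, 1 ≤ n) (c : ℕ → ℂ) (j : ℕ) :
    Continuous (fun p : ℝ × ℝ => Fj S c j p.1 p.2) := by
  unfold Fj
  refine continuous_finsetSum _ fun n hn => ?_
  have hn0 : (n : ℂ) ≠ 0 := by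
    have := hS n hn
    exact_mod_cast (by omega : n ≠ 0)
  refine continuous_const.mul ?_
  have h1 : Continuous (fun z : ℂ => (n : ℂ) ^ z) := Continuous.const_cpow continuous_id (Or.inl hn0)
  exact h1.comp (by fun_prop)

private noncomputable def dg (S : Finset ℕ) (c : ℕ → ℂ) (j : ℕ) (s t : ℝ) : ℝ :=
  4 * ‖Fj S c j s t‖ ^ 2 + 2 * ‖Fj S c (j + 1) s t‖ ^ 2

private theorem dg_cont (S : Finset ℕ) (hS : ∀ n ∈ S, 1 ≤ n) (c : ℕ → ℂ) (j : ℕ) :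
    Continuous (fun p : ℝ × ℝ => dg S c j p.1 p.2) := by
  unfold dg
  exact (continuous_const.mul ((dens_cont S hS c j).norm.pow 2)).add
    (continuous_const.mul ((dens_cont S hS c (j + 1)).norm.pow 2))

private theorem dg_nonneg (S : Finset ℕ) (c : ℕ → ℂ) (j : ℕ) (s t : ℝ) : 0 ≤ dg S c j s t := by
  unfold dg
  positivity

private theorem dg_eq (S : Finset ℕ) (c : ℕ → ℂ) (j : ℕ) (s t : ℝ) :
    4 * ‖Fj S c j s t‖ ^ 2 + 2 * ‖Fj S c (j + 1) s t‖ ^ 2 = dg S c j s t := rfl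

attribute [local irreducible] dg

private theorem dg_cont1 (S : Finset ℕ) (hS : ∀ n ∈ S, 1 ≤ n) (c : ℕ → ℂ) (j : ℕ) (s : ℝ) :
    Continuous (fun t => dg S c j s t) := by
  have h2 : Continuous (fun t : ℝ => ((s, t) : ℝ × ℝ)) := by fun_prop
  have h3 := (dg_cont S hS c j).comp h2
  exact h3

private theorem dg_cont2 (S : Finset ℕ) (hS : ∀ n ∈ S, 1 ≤ n) (c : ℕ → ℂ) (j : ℕ) (a b : ℝ) :
    Continuous (fun s => ∫ t in a..b, dg S c j s t) :=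
  intervalIntegral.continuous_parametric_intervalIntegral_of_continuous' (dg_cont S hS c j) a b

/-- counting the zeros of one function -/
private theorem dens_count (S : Finset ℕ) (hS : ∀ n ∈ S, 1 ≤ n) (c : ℕ → ℂ) (σ T K : ℝ) (hT : 0 ≤ T)
    (hσ0 : 0 ≤ σ) (hσ : σ ≤ 1) (Z : Finset ℂ) (m : ℂ → ℝ) (hm : ∀ ρ ∈ Z, 0 ≤ m ρ)
    (hZ : ∀ ρ ∈ Z, σ ≤ ρ.re ∧ ρ.re ≤ 1 ∧ |ρ.im| ≤ T)
    (hd : ∀ ρ ∈ Z, 1 / 2 ≤ ‖∑ n ∈ S, c n * (n : ℂ) ^ (-ρ)‖)
    (hc : ∀ t : ℝ, |t| ≤ T + 1 → ∑ ρ ∈ Z.filter (fun ρ => |ρ.im - t| ≤ 1 / 2), m ρ ≤ K) :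
    ∑ ρ ∈ Z, m ρ ≤ 4 * K * ((∫ t in (-(T + 1))..(T + 1), dg S c 0 σ t) +
      ∫ s in σ..1, ∫ t in (-(T + 1))..(T + 1), dg S c 1 s t) := by
  have hZ' : ∀ ρ ∈ Z, |ρ.im| ≤ T := fun ρ hρ => (hZ ρ hρ).2.2
  have hF : ∀ ρ ∈ Z, 1 / 4 ≤ (∫ t in (ρ.im - 1 / 2)..(ρ.im + 1 / 2), dg S c 0 σ t) +
      ∫ s in σ..1, ∫ t in (ρ.im - 1 / 2)..(ρ.im + 1 / 2), dg S c 1 s t := by
    intro ρ hρ
    have h1 := point_bound S hS c σ ρ.re ρ.im (hZ ρ hρ).1 (hZ ρ hρ).2.1 hσ0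
    have h2 : Fj S c 0 ρ.re ρ.im = ∑ n ∈ S, c n * (n : ℂ) ^ (-ρ) := by
      unfold Fj
      refine sum_congr rfl fun n _ => ?_
      rw [pow_zero, Complex.ofReal_one, mul_one, Complex.re_add_im]
    rw [h2] at h1
    simp only [dg_eq] at h1
    have h3 := hd ρ hρ
    have h4 : (1 / 4 : ℝ) ≤ ‖∑ n ∈ S, c n * (n : ℂ) ^ (-ρ)‖ ^ 2 := by nlinarith
    exact h4.trans h1
  have hw1 := dens_win Z m T K (fun t => dg S c 0 σ t) (dg_cont1 S hS c 0 σ)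
    (fun t => dg_nonneg S c 0 σ t) hZ' hc hT
  have hw2 : ∑ ρ ∈ Z, m ρ * ∫ s in σ..1, ∫ t in (ρ.im - 1 / 2)..(ρ.im + 1 / 2), dg S c 1 s t ≤
      K * ∫ s in σ..1, ∫ t in (-(T + 1))..(T + 1), dg S c 1 s t := by
    calc ∑ ρ ∈ Z, m ρ * ∫ s in σ..1, ∫ t in (ρ.im - 1 / 2)..(ρ.im + 1 / 2), dg S c 1 s t
        = ∑ ρ ∈ Z, ∫ s in σ..1, m ρ * ∫ t in (ρ.im - 1 / 2)..(ρ.im + 1 / 2), dg S c 1 s t := by
          refine sum_congr rfl fun ρ _ => ?_
          rw [intervalIntegral.integral_const_mul]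
      _ = ∫ s in σ..1, ∑ ρ ∈ Z, m ρ * ∫ t in (ρ.im - 1 / 2)..(ρ.im + 1 / 2), dg S c 1 s t := by
          rw [intervalIntegral.integral_finsetSum]
          intro ρ _
          exact ((dg_cont2 S hS c 1 _ _).const_mul _).intervalIntegrable _ _
      _ ≤ ∫ s in σ..1, K * ∫ t in (-(T + 1))..(T + 1), dg S c 1 s t := by
          apply intervalIntegral.integral_mono_on hσ
          · exact (continuous_finsetSum _ fun ρ _ =>
              (dg_cont2 S hS c 1 _ _).const_mul _).intervalIntegrable _ _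
          · exact ((dg_cont2 S hS c 1 _ _).const_mul _).intervalIntegrable _ _
          · intro s _
            exact dens_win Z m T K (fun t => dg S c 1 s t) (dg_cont1 S hS c 1 s)
              (fun t => dg_nonneg S c 1 s t) hZ' hc hT
      _ = _ := by rw [intervalIntegral.integral_const_mul]
  calc ∑ ρ ∈ Z, m ρ ≤ ∑ ρ ∈ Z, 4 * (m ρ * (∫ t in (ρ.im - 1 / 2)..(ρ.im + 1 / 2), dg S c 0 σ t) +
      m ρ * ∫ s in σ..1, ∫ t in (ρ.im - 1 / 2)..(ρ.im + 1 / 2), dg S c 1 s t) := by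
        refine sum_le_sum fun ρ hρ => ?_
        have h1 := mul_le_mul_of_nonneg_left (hF ρ hρ) (hm ρ hρ)
        linarith
    _ = 4 * (∑ ρ ∈ Z, m ρ * (∫ t in (ρ.im - 1 / 2)..(ρ.im + 1 / 2), dg S c 0 σ t) +
      ∑ ρ ∈ Z, m ρ * ∫ s in σ..1, ∫ t in (ρ.im - 1 / 2)..(ρ.im + 1 / 2), dg S c 1 s t) := by
        rw [← mul_sum, sum_add_distrib]
    _ ≤ 4 * (K * (∫ t in (-(T + 1))..(T + 1), dg S c 0 σ t) +
      K * ∫ s in σ..1, ∫ t in (-(T + 1))..(T + 1), dg S c 1 s t) := by linarith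
    _ = _ := by ring

/-- the hybrid large sieve for the zero detecting polynomials -/
private theorem dens_hyb (Ch : ℝ) (hCh : 1 ≤ Ch) (Q X : ℕ) (hX : 1 ≤ X) (T : ℝ)
    (hyb : ∀ a : ℕ → ℂ, ∑ x ∈ prims Q, ∫ t in (-(T + 1))..(T + 1),
      ‖∑ n ∈ Icc 1 X, a n * x.2 (n : ZMod x.1) * (n : ℂ) ^ (-(t * Complex.I))‖ ^ 2 ≤
      Ch * ∑ n ∈ Icc 1 X, ((n : ℝ) + Q ^ 2 * (T + 1)) * ‖a n‖ ^ 2)
    (z : ℕ) (hzT : (Q : ℝ) ^ 2 * (T + 1) ≤ 3 * (z + 1)) (b : ℕ → ℝ)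
    (hb : ∀ n, |b n| ≤ (n.divisors.card : ℝ)) (σ s : ℝ) (hσ : σ ≤ s) (hs : s ≤ 1) (j : ℕ) :
    ∑ x ∈ prims Q, ∫ t in (-(T + 1))..(T + 1),
      ‖Fj (Ioc z X) (fun n => (b n : ℂ) * x.2 (n : ZMod x.1)) j s t‖ ^ 2 ≤
      4 * Ch * (Real.log X) ^ (2 * j) * (1 + Real.log X) ^ 4 * (X : ℝ) ^ (2 - 2 * σ) := by
  have hXr : (1 : ℝ) ≤ X := by exact_mod_cast hX
  set a : ℕ → ℂ := fun n => if n ∈ Ioc z X then
    (b n : ℂ) * (((Real.log n) ^ j : ℝ) : ℂ) * (n : ℂ) ^ (-(s : ℂ)) else 0 with ha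
  have hsub : Ioc z X ⊆ Icc 1 X := by
    intro n hn
    rw [mem_Ioc] at hn
    rw [mem_Icc]
    omega
  have h1 : ∀ (x : CH) (t : ℝ), Fj (Ioc z X) (fun n => (b n : ℂ) * x.2 (n : ZMod x.1)) j s t =
      ∑ n ∈ Icc 1 X, a n * x.2 (n : ZMod x.1) * (n : ℂ) ^ (-(t * Complex.I)) := by
    intro x t
    rw [← sum_subset hsub (f := fun n => a n * x.2 (n : ZMod x.1) * (n : ℂ) ^ (-(t * Complex.I)))
      (fun n _ hn => by simp only [ha, if_neg hn, zero_mul])]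
    unfold Fj
    refine sum_congr rfl fun n hn => ?_
    have hn0 : (n : ℂ) ≠ 0 := by
      rw [mem_Ioc] at hn
      exact_mod_cast (by omega : n ≠ 0)
    simp only [ha, if_pos hn]
    rw [neg_add, Complex.cpow_add _ _ hn0]
    ring
  simp only [h1]
  refine (hyb a).trans ?_
  have h2 : ∀ n ∈ Icc 1 X, ((n : ℝ) + Q ^ 2 * (T + 1)) * ‖a n‖ ^ 2 ≤
      (4 * (Real.log X) ^ (2 * j) * (X : ℝ) ^ (2 - 2 * σ)) * ((n.divisors.card : ℝ) ^ 2 / n) := by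
    intro n hn
    rw [mem_Icc] at hn
    have hn0 : (0 : ℝ) < n := by exact_mod_cast hn.1
    have hn1 : (1 : ℝ) ≤ n := by exact_mod_cast hn.1
    have hnX : (n : ℝ) ≤ X := by exact_mod_cast hn.2
    by_cases h : n ∈ Ioc z X
    · have hzn : (z : ℝ) + 1 ≤ n := by
        rw [mem_Ioc] at h
        exact_mod_cast h.1
      have e1 : ‖a n‖ ^ 2 = (|b n|) ^ 2 * (Real.log n) ^ (2 * j) * ((n : ℝ) ^ (-s)) ^ 2 := by
        simp only [ha, if_pos h]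
        rw [norm_mul, norm_mul, Complex.norm_natCast_cpow_of_pos hn.1, Complex.norm_real,
          Complex.norm_real, Real.norm_eq_abs, Real.norm_eq_abs, mul_pow, mul_pow, sq_abs ((Real.log n) ^ j),
          Complex.neg_re, Complex.ofReal_re]
        ring
      rw [e1]
      have e2 : (n : ℝ) ^ (2 - 2 * s) = (n : ℝ) ^ 2 * ((n : ℝ) ^ (-s)) ^ 2 := by
        rw [← Real.rpow_natCast ((n : ℝ) ^ (-s)) 2, ← Real.rpow_mul hn0.le, ← Real.rpow_natCast (n : ℝ) 2,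
          ← Real.rpow_add hn0]
        congr 1
        push_cast
        ring
      have e3 : (n : ℝ) ^ (2 - 2 * s) ≤ (X : ℝ) ^ (2 - 2 * σ) := by
        calc (n : ℝ) ^ (2 - 2 * s) ≤ (X : ℝ) ^ (2 - 2 * s) :=
              Real.rpow_le_rpow hn0.le hnX (by linarith)
          _ ≤ (X : ℝ) ^ (2 - 2 * σ) := Real.rpow_le_rpow_of_exponent_le hXr (by linarith)
      have e4 : ((n : ℝ) + Q ^ 2 * (T + 1)) ≤ 4 * n := by linarith
      have e5 : (|b n|) ^ 2 ≤ (n.divisors.card : ℝ) ^ 2 := pow_le_pow_left₀ (abs_nonneg _) (hb n) 2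
      have e6 : (Real.log n) ^ (2 * j) ≤ (Real.log X) ^ (2 * j) :=
        pow_le_pow_left₀ (Real.log_nonneg hn1) (Real.log_le_log hn0 hnX) _
      have e7 : 0 ≤ (Real.log n) ^ (2 * j) := pow_nonneg (Real.log_nonneg hn1) _
      have e8 : (4 * (n : ℝ)) * ((n : ℝ) ^ (-s)) ^ 2 = 4 * ((n : ℝ) ^ (2 - 2 * s) / n) := by
        rw [e2]
        field_simp
      calc ((n : ℝ) + Q ^ 2 * (T + 1)) * ((|b n|) ^ 2 * (Real.log n) ^ (2 * j) * ((n : ℝ) ^ (-s)) ^ 2)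
          ≤ (4 * n) * ((|b n|) ^ 2 * (Real.log n) ^ (2 * j) * ((n : ℝ) ^ (-s)) ^ 2) :=
            mul_le_mul_of_nonneg_right e4 (by positivity)
        _ = (|b n|) ^ 2 * (Real.log n) ^ (2 * j) * ((4 * n) * ((n : ℝ) ^ (-s)) ^ 2) := by ring
        _ = (|b n|) ^ 2 * (Real.log n) ^ (2 * j) * (4 * ((n : ℝ) ^ (2 - 2 * s) / n)) := by rw [e8]
        _ ≤ (n.divisors.card : ℝ) ^ 2 * (Real.log X) ^ (2 * j) * (4 * ((X : ℝ) ^ (2 - 2 * σ) / n)) := by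
            gcongr
        _ = _ := by ring
    · have e1 : a n = 0 := by simp only [ha, if_neg h]
      rw [e1, norm_zero]
      have := Real.log_nonneg hXr
      have h0 : (0 : ℝ) ≤ (4 * (Real.log X) ^ (2 * j) * (X : ℝ) ^ (2 - 2 * σ)) *
        ((n.divisors.card : ℝ) ^ 2 / n) := by positivity
      simpa using h0
  have h3 := sum_le_sum h2
  rw [← mul_sum] at h3
  have h4 := div_sq X hX
  have hl := Real.log_nonneg hXr
  calc Ch * ∑ n ∈ Icc 1 X, ((n : ℝ) + Q ^ 2 * (T + 1)) * ‖a n‖ ^ 2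
      ≤ Ch * ((4 * (Real.log X) ^ (2 * j) * (X : ℝ) ^ (2 - 2 * σ)) *
        ∑ n ∈ Icc 1 X, ((n.divisors.card : ℝ) ^ 2 / n)) := mul_le_mul_of_nonneg_left h3 (by linarith)
    _ ≤ Ch * ((4 * (Real.log X) ^ (2 * j) * (X : ℝ) ^ (2 - 2 * σ)) * (1 + Real.log X) ^ 4) := by
        gcongr
    _ = _ := by ring

/-- the abstract density theorem -/
private theorem dens_abs (Ch : ℝ) (hCh : 1 ≤ Ch) (Q X : ℕ) (hX : 1 ≤ X) (T : ℝ) (hT : 0 ≤ T)
    (hyb : ∀ a : ℕ → ℂ, ∑ x ∈ prims Q, ∫ t in (-(T + 1))..(T + 1),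
      ‖∑ n ∈ Icc 1 X, a n * x.2 (n : ZMod x.1) * (n : ℂ) ^ (-(t * Complex.I))‖ ^ 2 ≤
      Ch * ∑ n ∈ Icc 1 X, ((n : ℝ) + Q ^ 2 * (T + 1)) * ‖a n‖ ^ 2)
    (z : ℕ) (hzT : (Q : ℝ) ^ 2 * (T + 1) ≤ 3 * (z + 1)) (b : ℕ → ℝ)
    (hb : ∀ n, |b n| ≤ (n.divisors.card : ℝ)) (σ : ℝ) (hσ0 : 0 ≤ σ) (hσ : σ ≤ 1)
    (K : ℝ) (hK : 0 ≤ K) (F : Finset CH) (hF : F ⊆ prims Q) (Z : CH → Finset ℂ) (m : CH → ℂ → ℝ)
    (hm : ∀ x ∈ F, ∀ ρ ∈ Z x, 0 ≤ m x ρ)
    (hZ : ∀ x ∈ F, ∀ ρ ∈ Z x, σ ≤ ρ.re ∧ ρ.re ≤ 1 ∧ |ρ.im| ≤ T)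
    (hd : ∀ x ∈ F, ∀ ρ ∈ Z x,
      1 / 2 ≤ ‖∑ n ∈ Ioc z X, (b n : ℂ) * x.2 (n : ZMod x.1) * (n : ℂ) ^ (-ρ)‖)
    (hc : ∀ x ∈ F, ∀ t : ℝ, |t| ≤ T + 1 →
      ∑ ρ ∈ (Z x).filter (fun ρ => |ρ.im - t| ≤ 1 / 2), m x ρ ≤ K) :
    ∑ x ∈ F, ∑ ρ ∈ Z x, m x ρ ≤ 192 * Ch * K * (1 + Real.log X) ^ 8 * (X : ℝ) ^ (2 - 2 * σ) := by
  have hXr : (1 : ℝ) ≤ X := by exact_mod_cast hX
  have hl := Real.log_nonneg hXr
  have hS : ∀ n ∈ Ioc z X, 1 ≤ n := by
    intro n hn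
    rw [mem_Ioc] at hn
    omega
  set c : CH → ℕ → ℂ := fun x n => (b n : ℂ) * x.2 (n : ZMod x.1) with hcdef
  set B : ℝ := 24 * Ch * (1 + Real.log X) ^ 8 * (X : ℝ) ^ (2 - 2 * σ) with hB
  have hB0 : 0 ≤ B := by positivity
  have hyp : ∀ s, σ ≤ s → s ≤ 1 → ∀ j, j ≤ 1 →
      ∑ x ∈ prims Q, ∫ t in (-(T + 1))..(T + 1), dg (Ioc z X) (c x) j s t ≤ B := by
    intro s hs1 hs2 j hj
    have hcn : ∀ (x : CH) (i : ℕ), Continuous fun t => ‖Fj (Ioc z X) (c x) i s t‖ ^ 2 := by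
      intro x i
      have h2 : Continuous (fun t : ℝ => ((s, t) : ℝ × ℝ)) := by fun_prop
      have h3 := ((dens_cont (Ioc z X) hS (c x) i).norm.pow 2).comp h2
      exact h3
    have e1 : ∀ x : CH, ∫ t in (-(T + 1))..(T + 1), dg (Ioc z X) (c x) j s t =
        4 * (∫ t in (-(T + 1))..(T + 1), ‖Fj (Ioc z X) (c x) j s t‖ ^ 2) +
        2 * ∫ t in (-(T + 1))..(T + 1), ‖Fj (Ioc z X) (c x) (j + 1) s t‖ ^ 2 := by
      intro x
      simp only [← dg_eq]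
      rw [intervalIntegral.integral_add, intervalIntegral.integral_const_mul,
        intervalIntegral.integral_const_mul]
      · exact ((hcn x j).const_mul 4).intervalIntegrable _ _
      · exact ((hcn x (j + 1)).const_mul 2).intervalIntegrable _ _
    simp only [e1]
    rw [sum_add_distrib, ← mul_sum, ← mul_sum]
    have k1 := dens_hyb Ch hCh Q X hX T hyb z hzT b hb σ s hs1 hs2 j
    have k2 := dens_hyb Ch hCh Q X hX T hyb z hzT b hb σ s hs1 hs2 (j + 1)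
    have k3 : ∀ i, i ≤ 2 → 4 * Ch * (Real.log X) ^ (2 * i) * (1 + Real.log X) ^ 4 * (X : ℝ) ^ (2 - 2 * σ) ≤
        4 * Ch * (1 + Real.log X) ^ 8 * (X : ℝ) ^ (2 - 2 * σ) := by
      intro i hi
      have m1 : (Real.log X) ^ (2 * i) ≤ (1 + Real.log X) ^ (2 * i) :=
        pow_le_pow_left₀ hl (by linarith) _
      have m2 : (1 + Real.log X) ^ (2 * i) ≤ (1 + Real.log X) ^ 4 :=
        pow_le_pow_right₀ (by linarith) (by omega)
      have m3 : (1 + Real.log X) ^ 8 = (1 + Real.log X) ^ 4 * (1 + Real.log X) ^ 4 := by ring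
      rw [m3]
      have m4 : (Real.log X) ^ (2 * i) * (1 + Real.log X) ^ 4 ≤
          (1 + Real.log X) ^ 4 * (1 + Real.log X) ^ 4 := by
        gcongr
        exact m1.trans m2
      have m5 := mul_le_mul_of_nonneg_left m4 (by positivity : (0 : ℝ) ≤ 4 * Ch)
      have m6 := mul_le_mul_of_nonneg_right m5 (by positivity : (0 : ℝ) ≤ (X : ℝ) ^ (2 - 2 * σ))
      linarith
    have k4 := k3 j (by omega)
    have k5 := k3 (j + 1) (by omega)
    rw [hB]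
    simp only [hcdef]
    linarith
  have hcnt : ∀ x ∈ F, ∑ ρ ∈ Z x, m x ρ ≤ 4 * K * ((∫ t in (-(T + 1))..(T + 1), dg (Ioc z X) (c x) 0 σ t) +
      ∫ s in σ..1, ∫ t in (-(T + 1))..(T + 1), dg (Ioc z X) (c x) 1 s t) := by
    intro x hx
    exact dens_count (Ioc z X) hS (c x) σ T K hT hσ0 hσ (Z x) (m x) (hm x hx) (hZ x hx) (hd x hx) (hc x hx)
  have hnn0 : ∀ (x : CH) (j : ℕ) (s : ℝ), 0 ≤ ∫ t in (-(T + 1))..(T + 1), dg (Ioc z X) (c x) j s t := by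
    intro x j s
    exact intervalIntegral.integral_nonneg (by linarith) fun t _ => dg_nonneg _ _ _ _ _
  have hnn : ∀ x : CH, 0 ≤ (∫ t in (-(T + 1))..(T + 1), dg (Ioc z X) (c x) 0 σ t) +
      ∫ s in σ..1, ∫ t in (-(T + 1))..(T + 1), dg (Ioc z X) (c x) 1 s t := by
    intro x
    exact add_nonneg (hnn0 x 0 σ) (intervalIntegral.integral_nonneg hσ fun s _ => hnn0 x 1 s)
  calc ∑ x ∈ F, ∑ ρ ∈ Z x, m x ρ
      ≤ ∑ x ∈ F, 4 * K * ((∫ t in (-(T + 1))..(T + 1), dg (Ioc z X) (c x) 0 σ t) +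
        ∫ s in σ..1, ∫ t in (-(T + 1))..(T + 1), dg (Ioc z X) (c x) 1 s t) := sum_le_sum hcnt
    _ ≤ ∑ x ∈ prims Q, 4 * K * ((∫ t in (-(T + 1))..(T + 1), dg (Ioc z X) (c x) 0 σ t) +
        ∫ s in σ..1, ∫ t in (-(T + 1))..(T + 1), dg (Ioc z X) (c x) 1 s t) :=
        sum_le_sum_of_subset_of_nonneg hF fun x _ _ => mul_nonneg (by positivity) (hnn x)
    _ = 4 * K * ((∑ x ∈ prims Q, ∫ t in (-(T + 1))..(T + 1), dg (Ioc z X) (c x) 0 σ t) +
        ∑ x ∈ prims Q, ∫ s in σ..1, ∫ t in (-(T + 1))..(T + 1), dg (Ioc z X) (c x) 1 s t) := by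
        rw [← mul_sum, sum_add_distrib]
    _ = 4 * K * ((∑ x ∈ prims Q, ∫ t in (-(T + 1))..(T + 1), dg (Ioc z X) (c x) 0 σ t) +
        ∫ s in σ..1, ∑ x ∈ prims Q, ∫ t in (-(T + 1))..(T + 1), dg (Ioc z X) (c x) 1 s t) := by
        rw [intervalIntegral.integral_finsetSum]
        intro x _
        exact (dg_cont2 (Ioc z X) hS (c x) 1 _ _).intervalIntegrable _ _
    _ ≤ 4 * K * (B + ∫ _s in σ..1, B) := by
        apply mul_le_mul_of_nonneg_left _ (by positivity)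
        apply add_le_add (hyp σ le_rfl hσ 0 (by norm_num))
        apply intervalIntegral.integral_mono_on hσ
        · exact (continuous_finsetSum _ fun x _ =>
            dg_cont2 (Ioc z X) hS (c x) 1 _ _).intervalIntegrable _ _
        · exact intervalIntegrable_const
        · intro s hs
          exact hyp s hs.1 hs.2 1 le_rfl
    _ ≤ 4 * K * (B + B) := by
        apply mul_le_mul_of_nonneg_left _ (by positivity)
        rw [intervalIntegral.integral_const, smul_eq_mul]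
        have : (1 - σ) * B ≤ 1 * B := mul_le_mul_of_nonneg_right (by linarith) hB0
        linarith
    _ = _ := by
        rw [hB]
        ring

end abs

/-- the size of the bound -/
private theorem dens_num (W σ : ℝ) (hW : 4 ≤ W) (hσ : σ ≤ 1) :
    (1 + Real.log (⌈W ^ 8⌉₊ : ℝ)) ^ 8 * (⌈W ^ 8⌉₊ : ℝ) ^ (2 - 2 * σ) ≤
      10 ^ 8 * (Real.log W) ^ 8 * W ^ (18 * (1 - σ)) := by
  have h8 : (1 : ℝ) ≤ W ^ 8 := one_le_pow₀ (by linarith)
  have h1 : (⌈W ^ 8⌉₊ : ℝ) ≤ W ^ 9 := by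
    have := (Nat.ceil_lt_add_one (by positivity : 0 ≤ W ^ 8)).le
    have h2 : W ^ 9 = W * W ^ 8 := by ring
    nlinarith
  have h1' : (1 : ℝ) ≤ (⌈W ^ 8⌉₊ : ℝ) := h8.trans (Nat.le_ceil _)
  have hl : 1 ≤ Real.log W := by
    rw [Real.le_log_iff_exp_le (by linarith)]
    have := Real.exp_one_lt_d9
    linarith
  have h3 : Real.log (⌈W ^ 8⌉₊ : ℝ) ≤ 9 * Real.log W := by
    have := Real.log_le_log (by linarith) h1
    rw [Real.log_pow] at this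
    exact_mod_cast this
  have h4 := Real.log_nonneg h1'
  have h5 : (1 + Real.log (⌈W ^ 8⌉₊ : ℝ)) ^ 8 ≤ 10 ^ 8 * (Real.log W) ^ 8 := by
    rw [← mul_pow]
    apply pow_le_pow_left₀ (by linarith)
    linarith
  have h6 : (⌈W ^ 8⌉₊ : ℝ) ^ (2 - 2 * σ) ≤ W ^ (18 * (1 - σ)) := by
    have e : W ^ (18 * (1 - σ)) = (W ^ 9) ^ (2 - 2 * σ) := by
      rw [← Real.rpow_natCast W 9, ← Real.rpow_mul (by linarith)]
      congr 1
      push_cast
      ring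
    rw [e]
    exact Real.rpow_le_rpow (by linarith) h1 (by linarith)
  exact mul_le_mul h5 h6 (by positivity) (by positivity)

/-- the bound in the range where the zeros are detected -/
private theorem dens_blk : ∃ C Cd : ℝ, 1 ≤ C ∧ 2 ≤ Cd ∧ ∀ (P : ℕ) (T σ : ℝ), 2 ≤ P → 2 ≤ T →
    Cd ≤ P * T → 15 / 16 ≤ σ → σ ≤ 1 → ∀ F : Finset CH, F ⊆ prims P → (∀ x ∈ F, x ≠ ch1) →
    ∑ x ∈ F, ∑ ρ ∈ ZF (LL x) σ T, mul (LL x) ρ ≤
      C * (Real.log (P * T)) ^ 9 * ((P : ℝ) * T) ^ (18 * (1 - σ)) := by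
  obtain ⟨Ch, hCh, hyb⟩ := hybrid
  obtain ⟨Cd, hCd, hdet⟩ := detect_chi
  obtain ⟨Cc, hCc, hcount⟩ := count_chi
  refine ⟨192 * Ch * (2 * Cc) * 10 ^ 8, Cd, ?_, hCd, ?_⟩
  · have : 1 ≤ Ch * Cc := by nlinarith
    nlinarith
  intro P T σ hP hT hPT hσ0 hσ1 F hF hF1
  have hPr : (2 : ℝ) ≤ P := by exact_mod_cast hP
  set W : ℝ := P * T with hW
  have hW4 : 4 ≤ W := by rw [hW]; nlinarith
  have hlW : 0 ≤ Real.log W := Real.log_nonneg (by linarith)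
  have h8 : (1 : ℝ) ≤ W ^ 8 := one_le_pow₀ (by linarith)
  have hX : 1 ≤ ⌈W ^ 8⌉₊ := by
    have := h8.trans (Nat.le_ceil _)
    exact_mod_cast this
  have hKP : (1 : ℝ) ≤ P * (T + 3) := by nlinarith
  have hK : Cc * Real.log (P * (T + 3)) ≤ 2 * Cc * Real.log W := by
    have h1 : (P : ℝ) * (T + 3) ≤ W ^ 2 := by
      rw [hW]
      have e1 : (P : ℝ) * (T + 3) ≤ 5 / 2 * (P * T) := by nlinarith
      have e2 : 5 / 2 * ((P : ℝ) * T) ≤ (P * T) ^ 2 := by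
        rw [← hW]
        nlinarith
      linarith
    have h2 := Real.log_le_log (by linarith) h1
    rw [Real.log_pow] at h2
    push_cast at h2
    nlinarith
  have key := dens_abs Ch hCh P ⌈W ^ 8⌉₊ hX T (by linarith)
    (fun a => by
      have := hyb P ⌈W ^ 8⌉₊ a (T + 1) (by linarith) (by omega)
      exact this)
    ⌈(P : ℝ) ^ 2 * T⌉₊
    (by
      have := Nat.le_ceil ((P : ℝ) ^ 2 * T)
      have h1 : (P : ℝ) ^ 2 ≤ (P : ℝ) ^ 2 * T := by nlinarith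
      nlinarith)
    (bz ⌈(P : ℝ) ^ 2 * T⌉₊) (abs_bz_le _) σ (by linarith) hσ1
    (Cc * Real.log (P * (T + 3))) (mul_nonneg (by linarith) (Real.log_nonneg hKP)) F hF
    (fun x => ZF (LL x) σ T) (fun x => mul (LL x))
    (by
      intro x hx ρ hρ
      unfold mul
      positivity)
    (by
      intro x hx ρ hρ
      have hne := prims_ne_one P x (hF hx) (hF1 x hx)
      obtain ⟨h1, h2, h3⟩ := (mem_prims P x).1 (hF hx)
      obtain ⟨q, χ⟩ := x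
      simp only at h1 h2 h3 hne hρ
      have : NeZero q := ⟨by omega⟩
      rw [LL_mk, mem_ZF_chi q χ hne] at hρ
      exact ⟨hρ.2.1, (re_lt_one_chi q χ hne ρ hρ.1).le, hρ.2.2⟩)
    (by
      intro x hx ρ hρ
      have hne := prims_ne_one P x (hF hx) (hF1 x hx)
      have h0 := (mem_prims P x).1 (hF hx)
      have hx' := hF hx
      have hx1 := hF1 x hx
      obtain ⟨q, χ⟩ := x
      obtain ⟨h1, h2, h3⟩ := h0
      simp only at h1 h2 h3 hne hρ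
      have : NeZero q := ⟨by omega⟩
      rw [LL_mk, mem_ZF_chi q χ hne] at hρ
      exact hdet P T hP hT hPT ⟨q, χ⟩ hx' hx1 ρ (by rw [LL_mk]; exact hρ.1)
        (hσ0.trans hρ.2.1) hρ.2.2)
    (by
      intro x hx t ht
      have hne := prims_ne_one P x (hF hx) (hF1 x hx)
      obtain ⟨h1, h2, h3⟩ := (mem_prims P x).1 (hF hx)
      obtain ⟨q, χ⟩ := x
      simp only at h1 h2 h3 hne ⊢
      have : NeZero q := ⟨by omega⟩
      rw [LL_mk]
      refine (hcount q χ hne σ T t hσ0 ht).trans ?_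
      apply mul_le_mul_of_nonneg_left _ (by linarith)
      have hq1 : (1 : ℝ) ≤ q := by exact_mod_cast h1
      have hqP : (q : ℝ) ≤ P := by exact_mod_cast h2
      apply Real.log_le_log (by positivity)
      nlinarith)
  refine key.trans ?_
  have hn := dens_num W σ hW4 hσ1
  have h0 : 0 ≤ (1 + Real.log (⌈W ^ 8⌉₊ : ℝ)) ^ 8 * (⌈W ^ 8⌉₊ : ℝ) ^ (2 - 2 * σ) := by
    positivity
  calc 192 * Ch * (Cc * Real.log (P * (T + 3))) * (1 + Real.log (⌈W ^ 8⌉₊ : ℝ)) ^ 8 *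
        (⌈W ^ 8⌉₊ : ℝ) ^ (2 - 2 * σ)
      = (192 * Ch) * (Cc * Real.log (P * (T + 3))) * ((1 + Real.log (⌈W ^ 8⌉₊ : ℝ)) ^ 8 *
        (⌈W ^ 8⌉₊ : ℝ) ^ (2 - 2 * σ)) := by ring
    _ ≤ (192 * Ch) * (2 * Cc * Real.log W) * (10 ^ 8 * (Real.log W) ^ 8 * W ^ (18 * (1 - σ))) := by
        gcongr
    _ = _ := by ring

/-- comparison of `V` and `c V` -/
private theorem dens_cmp (C c V W σ : ℝ) (hC : 0 ≤ C) (hc : 1 ≤ c) (hV : 4 ≤ V) (hW : 4 ≤ W)
    (hWV : W ≤ c * V) (hσ1 : σ ≤ 1) (hσ0 : 0 ≤ σ) (n : ℕ) :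
    C * (Real.log W) ^ n * W ^ (18 * (1 - σ)) ≤
      (C * (Real.log c + 1) ^ n * c ^ (18 : ℝ)) * (Real.log V) ^ n * V ^ (18 * (1 - σ)) := by
  have hlV : 1 ≤ Real.log V := by
    rw [Real.le_log_iff_exp_le (by linarith)]
    have := Real.exp_one_lt_d9
    linarith
  have hlc := Real.log_nonneg hc
  have h1 : Real.log W ≤ (Real.log c + 1) * Real.log V := by
    have := Real.log_le_log (by linarith) hWV
    rw [Real.log_mul (by linarith) (by linarith)] at this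
    nlinarith
  have h2 : W ^ (18 * (1 - σ)) ≤ c ^ (18 : ℝ) * V ^ (18 * (1 - σ)) := by
    calc W ^ (18 * (1 - σ)) ≤ (c * V) ^ (18 * (1 - σ)) :=
          Real.rpow_le_rpow (by linarith) hWV (by linarith)
      _ = c ^ (18 * (1 - σ)) * V ^ (18 * (1 - σ)) := Real.mul_rpow (by linarith) (by linarith)
      _ ≤ c ^ (18 : ℝ) * V ^ (18 * (1 - σ)) := by
          apply mul_le_mul_of_nonneg_right _ (by positivity)
          exact Real.rpow_le_rpow_of_exponent_le hc (by linarith)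
  have hlW : 0 ≤ Real.log W := Real.log_nonneg (by linarith)
  have h3 : (Real.log W) ^ n ≤ ((Real.log c + 1) * Real.log V) ^ n := pow_le_pow_left₀ hlW h1 n
  calc C * (Real.log W) ^ n * W ^ (18 * (1 - σ))
      ≤ C * ((Real.log c + 1) * Real.log V) ^ n * (c ^ (18 : ℝ) * V ^ (18 * (1 - σ))) := by
        gcongr
    _ = _ := by
        rw [mul_pow]
        ring

open Classical in
/-- Proof. Let `z = ⌈P²T⌉`, `X = ⌈(PT)⁸⌉`, `c_n = b_z(n) χ(n)` on `S = (z, X]`. If `PT ≤ C` (constant) the claim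
follows from `count_chi` (finitely many unit intervals, `card_prims_le`). Otherwise for every zero `ρ` in the
sum `1/4 ≤ ‖F₀(ρ)‖²` (`detect_chi`), so with `point_bound` and `count_chi` (each `t` is within `1/2` of the
ordinates of zeros of total multiplicity `≤ C log(P(T+3))`)
`(1/4) ∑_x ∑_ρ m_ρ ≤ C log(PT) [ ∑_x ∫_{-T-1}^{T+1} (4‖F₀‖²+2‖F₁‖²)(σ+it) dt
 + ∫_σ^1 ∑_x ∫_{-T-1}^{T+1} (4‖F₁‖²+2‖F₂‖²)(s+it) dt ds ]`,
and by `hybrid` each of the inner sums is at most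
`C ∑_{z < n ≤ X} (n + P²(T+1)) d(n)² (log n)⁴ n^{-2s} ≤ C (log X)⁴ ∑_{n ≤ X} (d(n)²/n) n^{2-2σ}
 ≤ C (log X)⁸ X^{2-2σ}` (`n ≥ z ≥ P²T`, `div_sq`, `s ≥ σ`). -/
theorem density : ∃ C : ℝ, 1 ≤ C ∧ ∀ (P : ℕ) (T σ : ℝ), 2 ≤ P → 2 ≤ T → 15 / 16 ≤ σ → σ ≤ 1 →
    ∑ x ∈ (prims P).filter (fun x => x ≠ ch1), ∑ ρ ∈ ZF (LL x) σ T, mul (LL x) ρ ≤
      C * ((P : ℝ) * T) ^ (C * (1 - σ)) * (Real.log (P * T)) ^ C := by
  obtain ⟨C1, Cd, hC1, hCd, hblk⟩ := dens_blk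
  set A : ℝ := C1 * (Real.log Cd + 1) ^ 9 * Cd ^ (18 : ℝ) with hA
  have hlc := Real.log_nonneg (by linarith : (1 : ℝ) ≤ Cd)
  have hA0 : 0 ≤ A := by positivity
  refine ⟨A + 18, by linarith, ?_⟩
  intro P T σ hP hT hσ0 hσ1
  have hPr : (2 : ℝ) ≤ P := by exact_mod_cast hP
  set V : ℝ := P * T with hV
  have hV4 : 4 ≤ V := by rw [hV]; nlinarith
  have hlV : 1 ≤ Real.log V := by
    rw [Real.le_log_iff_exp_le (by linarith)]
    have := Real.exp_one_lt_d9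
    linarith
  have hTt : 2 ≤ max T Cd := hT.trans (le_max_left _ _)
  have hCt : Cd ≤ max T Cd := le_max_right _ _
  have h1 : ∑ x ∈ (prims P).filter (fun x => x ≠ ch1), ∑ ρ ∈ ZF (LL x) σ T, mul (LL x) ρ ≤
      ∑ x ∈ (prims P).filter (fun x => x ≠ ch1), ∑ ρ ∈ ZF (LL x) σ (max T Cd), mul (LL x) ρ := by
    refine sum_le_sum fun x hx => ?_
    obtain ⟨hx1, hx2⟩ := mem_filter.1 hx
    have hne := prims_ne_one P x hx1 hx2
    obtain ⟨h1, h2, h3⟩ := (mem_prims P x).1 hx1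
    obtain ⟨q, χ⟩ := x
    simp only at h1 h2 h3 hne
    have : NeZero q := ⟨by omega⟩
    apply sum_le_sum_of_subset_of_nonneg
    · intro ρ hρ
      rw [LL_mk, mem_ZF_chi q χ hne] at hρ ⊢
      exact ⟨hρ.1, hρ.2.1, hρ.2.2.trans (le_max_left _ _)⟩
    · intro ρ _ _
      unfold mul
      positivity
  have h2 := hblk P (max T Cd) σ hP hTt (by nlinarith) hσ0 hσ1
    ((prims P).filter (fun x => x ≠ ch1)) (filter_subset _ _) (fun x hx => (mem_filter.1 hx).2)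
  have hWV : (P : ℝ) * max T Cd ≤ Cd * V := by
    rw [hV]
    have : max T Cd ≤ Cd * T := by
      apply max_le <;> nlinarith
    nlinarith
  have h3 := dens_cmp C1 Cd V (P * max T Cd) σ (by linarith) (by linarith) hV4 (by nlinarith) hWV hσ1
    (by linarith) 9
  refine (h1.trans (h2.trans h3)).trans ?_
  rw [← hA]
  have h4 : (Real.log V) ^ 9 ≤ (Real.log V) ^ (A + 18) := by
    rw [← Real.rpow_natCast]
    apply Real.rpow_le_rpow_of_exponent_le hlV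
    push_cast
    linarith
  have h5 : V ^ (18 * (1 - σ)) ≤ V ^ ((A + 18) * (1 - σ)) := by
    apply Real.rpow_le_rpow_of_exponent_le (by linarith)
    nlinarith
  calc A * (Real.log V) ^ 9 * V ^ (18 * (1 - σ))
      ≤ (A + 18) * (Real.log V) ^ (A + 18) * V ^ ((A + 18) * (1 - σ)) := by
        gcongr
        linarith
    _ = _ := by ring

/-- the zeros of `zt` in a dyadic range -/
private theorem dens_ztblk : ∃ C Cd : ℝ, 1 ≤ C ∧ 4 ≤ Cd ∧ ∀ (T σ : ℝ), Cd ≤ T → 15 / 16 ≤ σ → σ ≤ 1 →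
    ∑ ρ ∈ (ZF zt σ (2 * T)).filter (fun ρ => T ≤ |ρ.im|), mul zt ρ ≤
      C * (Real.log T) ^ 9 * T ^ (18 * (1 - σ)) := by
  obtain ⟨Ch, hCh, hyb⟩ := hybrid
  obtain ⟨Cd, hCd, hdet⟩ := detect_zt
  obtain ⟨Cc, hCc, hcount⟩ := count_zt
  refine ⟨192 * Ch * (2 * Cc) * 10 ^ 8, max Cd 4, ?_, le_max_right _ _, ?_⟩
  · have : 1 ≤ Ch * Cc := by nlinarith
    nlinarith
  intro T σ hT hσ0 hσ1
  have hT4 : 4 ≤ T := (le_max_right _ _).trans hT
  have hTC : Cd ≤ T := (le_max_left _ _).trans hT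
  have hlT : 0 ≤ Real.log T := Real.log_nonneg (by linarith)
  have h8 : (1 : ℝ) ≤ T ^ 8 := one_le_pow₀ (by linarith)
  have hX : 1 ≤ ⌈T ^ 8⌉₊ := by
    have := h8.trans (Nat.le_ceil _)
    exact_mod_cast this
  have hK : Cc * Real.log (2 * T + 3) ≤ 2 * Cc * Real.log T := by
    have h1 : 2 * T + 3 ≤ T ^ 2 := by nlinarith
    have h2 := Real.log_le_log (by linarith) h1
    rw [Real.log_pow] at h2
    push_cast at h2
    nlinarith
  have hch1 : ch1 ∈ prims 1 := by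
    rw [mem_prims]
    refine ⟨le_rfl, le_rfl, ?_⟩
    change (1 : DirichletCharacter ℂ 1).conductor = 1
    exact DirichletCharacter.conductor_one
  have hone : ∀ n : ℕ, ch1.2 (n : ZMod ch1.1) = 1 := by
    intro n
    change (1 : DirichletCharacter ℂ 1) (n : ZMod 1) = 1
    have : (n : ZMod 1) = 1 := Subsingleton.elim _ _
    rw [this, map_one]
  have key := dens_abs Ch hCh 1 ⌈T ^ 8⌉₊ hX (2 * T) (by linarith)
    (fun a => by
      have := hyb 1 ⌈T ^ 8⌉₊ a (2 * T + 1) (by linarith) le_rfl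
      exact this)
    ⌈T⌉₊
    (by
      have := Nat.le_ceil T
      push_cast
      nlinarith)
    (bz ⌈T⌉₊) (abs_bz_le _) σ (by linarith) hσ1
    (Cc * Real.log (2 * T + 3)) (mul_nonneg (by linarith) (Real.log_nonneg (by linarith))) {ch1}
    (by
      rw [singleton_subset_iff]
      exact hch1)
    (fun _ => (ZF zt σ (2 * T)).filter (fun ρ => T ≤ |ρ.im|)) (fun _ => mul zt)
    (by
      intro x hx ρ hρ
      unfold mul
      positivity)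
    (by
      intro x hx ρ hρ
      rw [mem_filter, mem_ZF_zt] at hρ
      exact ⟨hρ.1.2.1, (re_lt_one_zt ρ hρ.1.1).le, hρ.1.2.2⟩)
    (by
      intro x hx ρ hρ
      rw [mem_filter, mem_ZF_zt] at hρ
      rw [mem_singleton] at hx
      subst hx
      simp only [hone, mul_one]
      exact hdet T hTC ρ hρ.1.1 (hσ0.trans hρ.1.2.1) hρ.2 hρ.1.2.2)
    (by
      intro x hx t ht
      refine le_trans ?_ (hcount σ (2 * T) t hσ0 ht)
      apply sum_le_sum_of_subset_of_nonneg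
      · intro ρ hρ
        rw [mem_filter, mem_filter] at hρ
        rw [mem_filter]
        exact ⟨hρ.1.1, hρ.2⟩
      · intro ρ _ _
        unfold mul
        positivity)
  rw [sum_singleton] at key
  refine key.trans ?_
  have hn := dens_num T σ hT4 hσ1
  have h0 : 0 ≤ (1 + Real.log (⌈T ^ 8⌉₊ : ℝ)) ^ 8 * (⌈T ^ 8⌉₊ : ℝ) ^ (2 - 2 * σ) := by
    positivity
  calc 192 * Ch * (Cc * Real.log (2 * T + 3)) * (1 + Real.log (⌈T ^ 8⌉₊ : ℝ)) ^ 8 *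
        (⌈T ^ 8⌉₊ : ℝ) ^ (2 - 2 * σ)
      = (192 * Ch) * (Cc * Real.log (2 * T + 3)) * ((1 + Real.log (⌈T ^ 8⌉₊ : ℝ)) ^ 8 *
        (⌈T ^ 8⌉₊ : ℝ) ^ (2 - 2 * σ)) := by ring
    _ ≤ (192 * Ch) * (2 * Cc * Real.log T) * (10 ^ 8 * (Real.log T) ^ 8 * T ^ (18 * (1 - σ))) := by
        gcongr
    _ = _ := by ring

/-- dyadic induction -/
private theorem dens_dya (C Cd : ℝ) (hC : 1 ≤ C) (hCd : 4 ≤ Cd)
    (hblk : ∀ (T σ : ℝ), Cd ≤ T → 15 / 16 ≤ σ → σ ≤ 1 →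
      ∑ ρ ∈ (ZF zt σ (2 * T)).filter (fun ρ => T ≤ |ρ.im|), mul zt ρ ≤
        C * (Real.log T) ^ 9 * T ^ (18 * (1 - σ))) (σ W : ℝ) (hσ0 : 15 / 16 ≤ σ) (hσ1 : σ ≤ 1)
    (k : ℕ) (hk : 2 ^ k * Cd ≤ W) :
    ∑ ρ ∈ ZF zt σ (2 ^ k * Cd), mul zt ρ ≤
      ∑ ρ ∈ ZF zt (15 / 16) Cd, mul zt ρ + k * (C * (Real.log W) ^ 9 * W ^ (18 * (1 - σ))) := by
  induction k with
  | zero =>
    simp only [pow_zero, one_mul, Nat.cast_zero, zero_mul, add_zero]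
    apply sum_le_sum_of_subset_of_nonneg
    · intro ρ hρ
      rw [mem_ZF_zt] at hρ ⊢
      exact ⟨hρ.1, hσ0.trans hρ.2.1, hρ.2.2⟩
    · intro ρ _ _
      unfold mul
      positivity
  | succ k ih =>
    have hp : (1 : ℝ) ≤ 2 ^ k := one_le_pow₀ (by norm_num)
    have e : (2 : ℝ) ^ (k + 1) * Cd = 2 * (2 ^ k * Cd) := by ring
    have hT : Cd ≤ 2 ^ k * Cd := by nlinarith
    have hkW : 2 ^ k * Cd ≤ W := by
      rw [e] at hk
      nlinarith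
    have h1 := ih hkW
    have h2 := hblk (2 ^ k * Cd) σ hT hσ0 hσ1
    have h3 : C * (Real.log (2 ^ k * Cd)) ^ 9 * (2 ^ k * Cd) ^ (18 * (1 - σ)) ≤
        C * (Real.log W) ^ 9 * W ^ (18 * (1 - σ)) := by
      have hl : 0 ≤ Real.log (2 ^ k * Cd) := Real.log_nonneg (by linarith)
      have hl2 : Real.log (2 ^ k * Cd) ≤ Real.log W := Real.log_le_log (by linarith) hkW
      have hr : (2 ^ k * Cd) ^ (18 * (1 - σ)) ≤ W ^ (18 * (1 - σ)) :=
        Real.rpow_le_rpow (by linarith) hkW (by linarith)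
      have hC0 : 0 ≤ C * (Real.log W) ^ 9 :=
        mul_nonneg (by linarith) (pow_nonneg (hl.trans hl2) 9)
      exact mul_le_mul (mul_le_mul_of_nonneg_left (pow_le_pow_left₀ hl hl2 9) (by linarith)) hr
        (by positivity) hC0
    have h4 : ∑ ρ ∈ ZF zt σ (2 ^ (k + 1) * Cd), mul zt ρ ≤
        ∑ ρ ∈ ZF zt σ (2 ^ k * Cd), mul zt ρ +
        ∑ ρ ∈ (ZF zt σ (2 * (2 ^ k * Cd))).filter (fun ρ => 2 ^ k * Cd ≤ |ρ.im|), mul zt ρ := by
      rw [e, ← sum_filter_add_sum_filter_not (ZF zt σ (2 * (2 ^ k * Cd)))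
        (fun ρ => 2 ^ k * Cd ≤ |ρ.im|), add_comm]
      apply add_le_add _ le_rfl
      apply sum_le_sum_of_subset_of_nonneg
      · intro ρ hρ
        rw [mem_filter, mem_ZF_zt] at hρ
        rw [mem_ZF_zt]
        exact ⟨hρ.1.1, hρ.1.2.1, (not_le.1 hρ.2).le⟩
      · intro ρ _ _
        unfold mul
        positivity
    push_cast
    linarith

/-- Proof. The same for `zt`, with `detect_zt` on the dyadic ranges `T' ≤ |Im ρ| ≤ 2T'`, `T' = 2^j C`, (`Q = 1` in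
`hybrid`), summed over `T' ≤ T`; the zeros of bounded height are finitely many (they are counted by
`count_zt`). -/
theorem density_zt : ∃ C : ℝ, 1 ≤ C ∧ ∀ (T σ : ℝ), 2 ≤ T → 15 / 16 ≤ σ → σ ≤ 1 →
    ∑ ρ ∈ ZF zt σ T, mul zt ρ ≤ C * T ^ (C * (1 - σ)) * (Real.log T + 1) ^ C := by
  obtain ⟨C1, Cd, hC1, hCd, hblk⟩ := dens_ztblk
  set N0 : ℝ := ∑ ρ ∈ ZF zt (15 / 16) Cd, mul zt ρ with hN0
  have hN0' : 0 ≤ N0 := by
    apply sum_nonneg
    intro ρ _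
    unfold mul
    positivity
  have hlc := Real.log_nonneg (by linarith : (1 : ℝ) ≤ 2 * Cd)
  set A : ℝ := 2 * C1 * (Real.log (2 * Cd) + 1) ^ 10 * (2 * Cd) ^ (18 : ℝ) with hA
  have hA0 : 0 ≤ A := by positivity
  refine ⟨N0 + A + 18, by linarith, ?_⟩
  intro T σ hT hσ0 hσ1
  have hlT : 0 ≤ Real.log T := Real.log_nonneg (by linarith)
  -- the number of dyadic steps
  obtain ⟨k, hk1, hk2⟩ : ∃ k : ℕ, T ≤ 2 ^ k ∧ (2 : ℝ) ^ k ≤ 2 * T := by
    obtain ⟨k, hk⟩ := exists_nat_pow_near (by linarith : (1 : ℝ) ≤ T) (by norm_num : (1 : ℝ) < 2)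
    refine ⟨k + 1, hk.2.le, ?_⟩
    rw [pow_succ]
    linarith [hk.1]
  set W : ℝ := 2 * Cd * T with hW
  have hW4 : 4 ≤ W := by rw [hW]; nlinarith
  have hkW : 2 ^ k * Cd ≤ W := by
    rw [hW]
    nlinarith
  have h1 := dens_dya C1 Cd hC1 hCd hblk σ W hσ0 hσ1 k hkW
  have h2 : ∑ ρ ∈ ZF zt σ T, mul zt ρ ≤ ∑ ρ ∈ ZF zt σ (2 ^ k * Cd), mul zt ρ := by
    apply sum_le_sum_of_subset_of_nonneg
    · intro ρ hρ
      rw [mem_ZF_zt] at hρ ⊢
      refine ⟨hρ.1, hρ.2.1, hρ.2.2.trans ?_⟩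
      nlinarith
    · intro ρ _ _
      unfold mul
      positivity
  have hkl : (k : ℝ) ≤ 2 * Real.log W := by
    have e1 : (k : ℝ) * Real.log 2 ≤ Real.log W := by
      have := Real.log_le_log (by positivity) (le_trans (by nlinarith : (2 : ℝ) ^ k ≤ 2 ^ k * Cd) hkW)
      rwa [Real.log_pow] at this
    have := Real.log_two_gt_d9
    have hk0 : (0 : ℝ) ≤ k := by positivity
    nlinarith
  have hlW : 0 ≤ Real.log W := Real.log_nonneg (by linarith)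
  have h3 : (k : ℝ) * (C1 * (Real.log W) ^ 9 * W ^ (18 * (1 - σ))) ≤
      2 * C1 * (Real.log W) ^ 10 * W ^ (18 * (1 - σ)) := by
    calc (k : ℝ) * (C1 * (Real.log W) ^ 9 * W ^ (18 * (1 - σ)))
        ≤ (2 * Real.log W) * (C1 * (Real.log W) ^ 9 * W ^ (18 * (1 - σ))) := by gcongr
      _ = _ := by ring
  have hc2 : (1 : ℝ) ≤ 2 * Cd := by linarith
  have h4 : Real.log W ≤ (Real.log (2 * Cd) + 1) * (Real.log T + 1) := by
    rw [hW, Real.log_mul (by linarith) (by linarith)]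
    nlinarith
  have h5 : W ^ (18 * (1 - σ)) ≤ (2 * Cd) ^ (18 : ℝ) * T ^ (18 * (1 - σ)) := by
    calc W ^ (18 * (1 - σ)) = (2 * Cd) ^ (18 * (1 - σ)) * T ^ (18 * (1 - σ)) := by
          rw [hW, Real.mul_rpow (by linarith) (by linarith)]
      _ ≤ (2 * Cd) ^ (18 : ℝ) * T ^ (18 * (1 - σ)) := by
          apply mul_le_mul_of_nonneg_right _ (by positivity)
          exact Real.rpow_le_rpow_of_exponent_le hc2 (by linarith)
  have h6 : 2 * C1 * (Real.log W) ^ 10 * W ^ (18 * (1 - σ)) ≤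
      A * T ^ (18 * (1 - σ)) * (Real.log T + 1) ^ 10 := by
    calc 2 * C1 * (Real.log W) ^ 10 * W ^ (18 * (1 - σ))
        ≤ 2 * C1 * ((Real.log (2 * Cd) + 1) * (Real.log T + 1)) ^ 10 *
          ((2 * Cd) ^ (18 : ℝ) * T ^ (18 * (1 - σ))) := by
          gcongr
      _ = _ := by
          rw [hA, mul_pow]
          ring
  have hT1 : (1 : ℝ) ≤ T ^ ((N0 + A + 18) * (1 - σ)) :=
    Real.one_le_rpow (by linarith) (mul_nonneg (by linarith) (by linarith))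
  have hL1 : (1 : ℝ) ≤ (Real.log T + 1) ^ (N0 + A + 18) :=
    Real.one_le_rpow (by linarith) (by linarith)
  have h7 : (Real.log T + 1) ^ 10 ≤ (Real.log T + 1) ^ (N0 + A + 18) := by
    rw [← Real.rpow_natCast]
    apply Real.rpow_le_rpow_of_exponent_le (by linarith)
    push_cast
    linarith
  have h8 : T ^ (18 * (1 - σ)) ≤ T ^ ((N0 + A + 18) * (1 - σ)) := by
    apply Real.rpow_le_rpow_of_exponent_le (by linarith)
    nlinarith
  have h9 : A * T ^ (18 * (1 - σ)) * (Real.log T + 1) ^ 10 ≤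
      A * T ^ ((N0 + A + 18) * (1 - σ)) * (Real.log T + 1) ^ (N0 + A + 18) := by
    gcongr
  have h10 : N0 ≤ N0 * (T ^ ((N0 + A + 18) * (1 - σ)) * (Real.log T + 1) ^ (N0 + A + 18)) :=
    le_mul_of_one_le_right hN0' (one_le_mul_of_one_le_of_one_le hT1 hL1)
  have h11 : 0 ≤ 18 * (T ^ ((N0 + A + 18) * (1 - σ)) * (Real.log T + 1) ^ (N0 + A + 18)) := by
    positivity
  calc ∑ ρ ∈ ZF zt σ T, mul zt ρ ≤ N0 + A * T ^ ((N0 + A + 18) * (1 - σ)) *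
        (Real.log T + 1) ^ (N0 + A + 18) := by linarith
    _ ≤ N0 * (T ^ ((N0 + A + 18) * (1 - σ)) * (Real.log T + 1) ^ (N0 + A + 18)) +
        A * T ^ ((N0 + A + 18) * (1 - σ)) * (Real.log T + 1) ^ (N0 + A + 18) +
        18 * (T ^ ((N0 + A + 18) * (1 - σ)) * (Real.log T + 1) ^ (N0 + A + 18)) := by linarith
    _ = _ := by ring

end Pool.Agent.Lib.MP_629a14_nt.Th
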