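import Pool.Agent.Lib.MP_629a14_nt.Th.Fin

/-! Gauss sums. -/

set_option autoImplicit false

namespace Pool.Agent.Lib.MP_629a14_nt.Th

open Finset Pool.Agent.Lib.MP_629a14_nt

/-! ### Helper lemmas -/

private lemma gsh_sum_zmod (q : ℕ) [NeZero q] (f : ZMod q → ℂ) :
    ∑ x : ZMod q, f x = ∑ a ∈ range q, f (a : ZMod q) := by
  symm
  refine Finset.sum_nbij' (fun a => (a : ZMod q)) (fun x => x.val) ?_ ?_ ?_ ?_ ?_
  · intro a _; exact mem_univ _
  · intro x _; exact mem_range.mpr (ZMod.val_lt x)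
  · intro a ha; exact ZMod.val_cast_of_lt (mem_range.mp ha)
  · intro x _; exact ZMod.natCast_zmod_val x
  · intro a _; rfl

private lemma gsh_ee_eq (q : ℕ) [NeZero q] (j : ℤ) :
    ee ((j : ℝ) / q) = ZMod.stdAddChar (j : ZMod q) := by
  rw [ZMod.stdAddChar_coe, ee]
  congr 1
  push_cast
  ring

private lemma gsh_ee_eq' (q : ℕ) [NeZero q] (a : ℕ) (k : ℤ) :
    ee ((a : ℝ) * k / q) = ZMod.stdAddChar (((a : ZMod q)) * (k : ZMod q)) := by
  have h := gsh_ee_eq q ((a : ℤ) * k)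
  push_cast at h
  exact h

private lemma gsh_full (q : ℕ) [NeZero q] (χ : DirichletCharacter ℂ q) (g : ℕ → ℂ) :
    ∑ a ∈ (range q).filter (fun a => a.Coprime q), χ (a : ZMod q) * g a =
      ∑ a ∈ range q, χ (a : ZMod q) * g a := by
  apply Finset.sum_subset (Finset.filter_subset _ _)
  intro a ha hn
  have h1 : ¬ a.Coprime q := fun h => hn (mem_filter.mpr ⟨ha, h⟩)
  have h2 : χ (a : ZMod q) = 0 := by
    apply MulChar.map_nonunit
    rw [ZMod.isUnit_iff_coprime]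
    exact h1
  rw [h2, zero_mul]

/-- `gs` in terms of Mathlib's Gauss sums. -/
theorem gs_eq_gaussSum (q : ℕ) [NeZero q] (χ : DirichletCharacter ℂ q) (k : ℤ) :
    gs χ k = gaussSum χ (ZMod.stdAddChar.mulShift (k : ZMod q)) := by
  rw [gs, gsh_full, gaussSum, gsh_sum_zmod]
  refine Finset.sum_congr rfl (fun a _ => ?_)
  rw [gsh_ee_eq', AddChar.mulShift_apply, mul_comm ((a : ZMod q)) (k : ZMod q)]

theorem gs_one (q : ℕ) [NeZero q] (k : ℤ) : gs (1 : DirichletCharacter ℂ q) k = cq q k := by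
  rw [gs, cq]
  refine Finset.sum_congr rfl (fun a ha => ?_)
  rw [MulChar.one_apply, one_mul]
  rw [ZMod.isUnit_iff_coprime]
  exact (mem_filter.mp ha).2

private lemma gsh_norm_le (q : ℕ) [NeZero q] (χ : DirichletCharacter ℂ q) (a : ZMod q) :
    ‖χ a‖ ≤ 1 := DirichletCharacter.norm_le_one χ a

private lemma gsh_conj (q : ℕ) [NeZero q] (x : ZMod q) :
    (starRingEnd ℂ) (ZMod.stdAddChar x) = ZMod.stdAddChar (-x) := by
  rw [ZMod.stdAddChar_apply, ZMod.stdAddChar_apply, AddChar.map_neg_eq_inv, Circle.coe_inv_eq_conj]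

private lemma gsh_norm_sq (q : ℕ) [NeZero q] (χ : DirichletCharacter ℂ q) (h : χ.IsPrimitive) :
    gaussSum χ ZMod.stdAddChar * (starRingEnd ℂ) (gaussSum χ ZMod.stdAddChar) = q := by
  have h1 : (starRingEnd ℂ) (gaussSum χ ZMod.stdAddChar) =
      ∑ b : ZMod q, χ⁻¹ b * ZMod.stdAddChar (-b) := by
    rw [gaussSum, map_sum]
    refine Finset.sum_congr rfl (fun b _ => ?_)
    rw [map_mul, gsh_conj]
    congr 1
    have := MulChar.star_apply' χ b
    exact this
  rw [h1, Finset.mul_sum]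
  have h2 : ∀ b : ZMod q, gaussSum χ ZMod.stdAddChar * (χ⁻¹ b * ZMod.stdAddChar (-b)) =
      ∑ a : ZMod q, χ a * ZMod.stdAddChar ((a - 1) * b) := by
    intro b
    have h3 := gaussSum_mulShift_of_isPrimitive (e := ZMod.stdAddChar) h b
    rw [← mul_assoc, mul_comm (gaussSum χ ZMod.stdAddChar), ← h3, gaussSum, Finset.sum_mul]
    refine Finset.sum_congr rfl (fun a _ => ?_)
    rw [AddChar.mulShift_apply, mul_assoc, ← AddChar.map_add_eq_mul]
    congr 2
    ring
  rw [Finset.sum_congr rfl (fun b _ => h2 b), Finset.sum_comm]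
  have h4 : ∀ a : ZMod q, ∑ b : ZMod q, χ a * ZMod.stdAddChar ((a - 1) * b) =
      if a = 1 then (q : ℂ) else 0 := by
    intro a
    rw [← Finset.mul_sum]
    by_cases ha : a = 1
    · subst ha
      simp
    · rw [if_neg ha]
      have h5 : (ZMod.stdAddChar (N := q)).mulShift (a - 1) ≠ 1 :=
        ZMod.isPrimitive_stdAddChar q (sub_ne_zero.mpr ha)
      have h6 := AddChar.sum_eq_zero_of_ne_one h5
      simp only [AddChar.mulShift_apply] at h6
      rw [h6, mul_zero]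
  rw [Finset.sum_congr rfl (fun a _ => h4 a), Finset.sum_ite_eq' Finset.univ (1 : ZMod q)]
  simp

/-- A primitive character: `gs χ k = χ⁻¹(k) gs χ 1` and `‖gs χ 1‖ = √q`. -/
theorem norm_gs_prim (q : ℕ) [NeZero q] (χ : DirichletCharacter ℂ q) (h : χ.IsPrimitive) (k : ℤ) :
    ‖gs χ k‖ ≤ Real.sqrt q := by
  rw [gs_eq_gaussSum, gaussSum_mulShift_of_isPrimitive (e := ZMod.stdAddChar) h]
  have h1 : ‖gaussSum χ ZMod.stdAddChar‖ = Real.sqrt q := by
    have h2 := gsh_norm_sq q χ h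
    rw [Complex.mul_conj] at h2
    have h3 : Complex.normSq (gaussSum χ ZMod.stdAddChar) = (q : ℝ) := by exact_mod_cast h2
    rw [Complex.normSq_eq_norm_sq] at h3
    rw [← h3, Real.sqrt_sq (norm_nonneg _)]
  rw [norm_mul, h1]
  calc ‖χ⁻¹ (k : ZMod q)‖ * Real.sqrt q ≤ 1 * Real.sqrt q :=
        mul_le_mul_of_nonneg_right (gsh_norm_le q _ _) (Real.sqrt_nonneg _)
    _ = Real.sqrt q := one_mul _

/-- The sum over a progression of a multiple modulus. -/
private lemma gsh_A (r f : ℕ) (hr : 1 ≤ r) (hf : 1 ≤ f) (ψ : DirichletCharacter ℂ r) (k : ℤ) :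
    ∑ b ∈ range (r * f), ψ (b : ZMod r) * ee ((b : ℝ) * k / ((r * f : ℕ) : ℝ)) =
      if (f : ℤ) ∣ k then (f : ℂ) * gs ψ (k / f) else 0 := by
  have : NeZero r := ⟨by omega⟩
  have : NeZero f := ⟨by omega⟩
  have hr0 : (r : ℝ) ≠ 0 := by positivity
  have hf0 : (f : ℝ) ≠ 0 := by positivity
  have h1 : ∑ b ∈ range (r * f), ψ (b : ZMod r) * ee ((b : ℝ) * k / ((r * f : ℕ) : ℝ)) =
      ∑ b₀ ∈ range r, ∑ j ∈ range f,
        ψ ((b₀ + r * j : ℕ) : ZMod r) * ee (((b₀ + r * j : ℕ) : ℝ) * k / ((r * f : ℕ) : ℝ)) := by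
    rw [← Finset.sum_product' (range r) (range f)
      (fun b₀ j => ψ ((b₀ + r * j : ℕ) : ZMod r) *
        ee (((b₀ + r * j : ℕ) : ℝ) * k / ((r * f : ℕ) : ℝ)))]
    symm
    refine Finset.sum_nbij' (fun x => x.1 + r * x.2) (fun b => (b % r, b / r)) ?_ ?_ ?_ ?_ ?_
    · rintro ⟨b₀, j⟩ hx
      simp only [mem_product, mem_range] at hx ⊢
      calc b₀ + r * j < r + r * j := by omega
        _ = r * (j + 1) := by ring
        _ ≤ r * f := Nat.mul_le_mul_left _ (by omega)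
    · intro b hb
      simp only [mem_product, mem_range] at hb ⊢
      exact ⟨Nat.mod_lt _ (by omega), Nat.div_lt_of_lt_mul hb⟩
    · rintro ⟨b₀, j⟩ hx
      simp only [mem_product, mem_range] at hx ⊢
      have e1 : (b₀ + r * j) % r = b₀ := by
        rw [Nat.add_mul_mod_self_left, Nat.mod_eq_of_lt hx.1]
      have e2 : (b₀ + r * j) / r = j := by
        rw [Nat.add_mul_div_left _ _ (by omega), Nat.div_eq_of_lt hx.1, zero_add]
      rw [e1, e2]
    · intro b _
      exact Nat.mod_add_div b r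
    · rintro ⟨b₀, j⟩ _
      rfl
  rw [h1]
  have h2 : ∀ b₀ ∈ range r, ∑ j ∈ range f,
        ψ ((b₀ + r * j : ℕ) : ZMod r) * ee (((b₀ + r * j : ℕ) : ℝ) * k / ((r * f : ℕ) : ℝ)) =
      ψ (b₀ : ZMod r) * ee ((b₀ : ℝ) * k / ((r * f : ℕ) : ℝ)) *
        (if (f : ℤ) ∣ k then (f : ℂ) else 0) := by
    intro b₀ _
    have h3 : ∀ j ∈ range f, ψ ((b₀ + r * j : ℕ) : ZMod r) *
        ee (((b₀ + r * j : ℕ) : ℝ) * k / ((r * f : ℕ) : ℝ)) =
        ψ (b₀ : ZMod r) * ee ((b₀ : ℝ) * k / ((r * f : ℕ) : ℝ)) *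
          ZMod.stdAddChar ((k : ZMod f) * (j : ZMod f)) := by
      intro j _
      have e1 : ((b₀ + r * j : ℕ) : ZMod r) = (b₀ : ZMod r) := by
        push_cast
        simp
      have e2 : (((b₀ + r * j : ℕ) : ℝ) * k / ((r * f : ℕ) : ℝ)) =
          ((b₀ : ℝ) * k / ((r * f : ℕ) : ℝ)) + ((j : ℝ) * k / f) := by
        push_cast
        field_simp
      rw [e1, e2, ee_add, gsh_ee_eq' f j k, mul_comm (j : ZMod f), mul_assoc]
    rw [Finset.sum_congr rfl h3, ← Finset.mul_sum]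
    congr 1
    rw [← gsh_sum_zmod f (fun x => ZMod.stdAddChar ((k : ZMod f) * x))]
    by_cases hk : (f : ℤ) ∣ k
    · rw [if_pos hk]
      have : (k : ZMod f) = 0 := (ZMod.intCast_zmod_eq_zero_iff_dvd k f).mpr hk
      simp [this]
    · rw [if_neg hk]
      have h4 : (k : ZMod f) ≠ 0 := fun h => hk ((ZMod.intCast_zmod_eq_zero_iff_dvd k f).mp h)
      have h5 : (ZMod.stdAddChar (N := f)).mulShift (k : ZMod f) ≠ 1 :=
        ZMod.isPrimitive_stdAddChar f h4
      have h6 := AddChar.sum_eq_zero_of_ne_one h5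
      simp only [AddChar.mulShift_apply] at h6
      exact h6
  rw [Finset.sum_congr rfl h2]
  by_cases hk : (f : ℤ) ∣ k
  · simp only [if_pos hk]
    rw [← Finset.sum_mul, mul_comm, gs, gsh_full r ψ]
    congr 1
    refine Finset.sum_congr rfl (fun a _ => ?_)
    obtain ⟨c, rfl⟩ := hk
    have hfz : (f : ℤ) ≠ 0 := by exact_mod_cast (NeZero.ne f)
    rw [Int.mul_ediv_cancel_left _ hfz]
    congr 2
    push_cast
    field_simp
  · simp only [if_neg hk, mul_zero, Finset.sum_const_zero]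

private lemma gsh_moeb (n : ℕ) :
    ∑ d ∈ n.divisors, (ArithmeticFunction.moebius d : ℂ) = if n = 1 then 1 else 0 := by
  have h := congrArg (fun g : ArithmeticFunction ℂ => g n)
    (ArithmeticFunction.coe_moebius_mul_coe_zeta (R := ℂ))
  simp only [ArithmeticFunction.coe_mul_zeta_apply, ArithmeticFunction.one_apply,
    ArithmeticFunction.intCoe_apply] at h
  exact h

/-- The general formula for an induced character. -/
private lemma gsh_G (q r m : ℕ) [NeZero q] (hq : q = r * m) (hrq : r ∣ q)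
    (ψ : DirichletCharacter ℂ r) (k : ℤ) :
    gs (DirichletCharacter.changeLevel hrq ψ) k =
      ∑ f ∈ m.divisors, if (f : ℤ) ∣ k then
        (ArithmeticFunction.moebius (m / f) : ℂ) * ψ ((m / f : ℕ) : ZMod r) *
          ((f : ℂ) * gs ψ (k / f)) else 0 := by
  have hq0 : q ≠ 0 := NeZero.ne q
  have hr0 : r ≠ 0 := by rintro rfl; simp at hq; exact hq0 hq
  have hm0 : m ≠ 0 := by rintro rfl; simp at hq; exact hq0 hq
  have : NeZero r := ⟨hr0⟩
  -- step 1: replace the character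
  have h1 : gs (DirichletCharacter.changeLevel hrq ψ) k =
      ∑ a ∈ range q, ∑ d ∈ q.divisors.filter (fun d => d ∣ a),
        (ArithmeticFunction.moebius d : ℂ) * (ψ (a : ZMod r) * ee ((a : ℝ) * k / q)) := by
    rw [gs, Finset.sum_filter]
    refine Finset.sum_congr rfl (fun a _ => ?_)
    rw [← Finset.sum_mul]
    have h2 : q.divisors.filter (fun d => d ∣ a) = (Nat.gcd a q).divisors := by
      ext d
      simp only [mem_filter, Nat.mem_divisors, Nat.dvd_gcd_iff]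
      constructor
      · rintro ⟨⟨h, _⟩, h'⟩
        exact ⟨⟨h', h⟩, Nat.gcd_ne_zero_right hq0⟩
      · rintro ⟨⟨h, h'⟩, _⟩
        exact ⟨⟨h', hq0⟩, h⟩
    rw [h2, gsh_moeb]
    by_cases ha : a.Coprime q
    · rw [if_pos ha, if_pos ha, one_mul]
      congr 1
      have h3 := DirichletCharacter.changeLevel_eq_cast_of_dvd' ψ hrq (a := (a : ℤ))
        (Nat.isCoprime_iff_coprime.mpr ha)
      simpa using h3
    · rw [if_neg ha, if_neg ha, zero_mul]
  rw [h1]
  -- step 2: swap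
  have h2 : ∑ a ∈ range q, ∑ d ∈ q.divisors.filter (fun d => d ∣ a),
        (ArithmeticFunction.moebius d : ℂ) * (ψ (a : ZMod r) * ee ((a : ℝ) * k / q)) =
      ∑ d ∈ q.divisors, ∑ a ∈ (range q).filter (fun a => d ∣ a),
        (ArithmeticFunction.moebius d : ℂ) * (ψ (a : ZMod r) * ee ((a : ℝ) * k / q)) := by
    simp only [Finset.sum_filter]
    exact Finset.sum_comm
  rw [h2]
  -- step 3: the inner sums
  have h3 : ∀ d ∈ q.divisors, ∑ a ∈ (range q).filter (fun a => d ∣ a),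
        (ArithmeticFunction.moebius d : ℂ) * (ψ (a : ZMod r) * ee ((a : ℝ) * k / q)) =
      (ArithmeticFunction.moebius d : ℂ) * (ψ (d : ZMod r) *
        ∑ b ∈ range (q / d), ψ (b : ZMod r) * ee ((b : ℝ) * k / ((q / d : ℕ) : ℝ))) := by
    intro d hd
    obtain ⟨hdq, _⟩ := Nat.mem_divisors.mp hd
    have hd0 : 0 < d := Nat.pos_of_mem_divisors hd
    rw [← Finset.mul_sum, Finset.mul_sum (range (q / d))]
    congr 1
    refine Finset.sum_nbij' (fun a => a / d) (fun b => d * b) ?_ ?_ ?_ ?_ ?_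
    · intro a ha
      simp only [mem_filter, mem_range] at ha ⊢
      exact (Nat.div_lt_div_right (by omega) ha.2 hdq).mpr ha.1
    · intro b hb
      simp only [mem_filter, mem_range] at hb ⊢
      refine ⟨?_, dvd_mul_right _ _⟩
      calc d * b < d * (q / d) := (Nat.mul_lt_mul_left hd0).mpr hb
        _ = q := Nat.mul_div_cancel' hdq
    · intro a ha
      exact Nat.mul_div_cancel' (mem_filter.mp ha).2
    · intro b _
      exact Nat.mul_div_cancel_left _ hd0
    · intro a ha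
      obtain ⟨b, rfl⟩ := (mem_filter.mp ha).2
      obtain ⟨t, rfl⟩ := hdq
      have ht0 : t ≠ 0 := by rintro rfl; simp at hq0
      rw [Nat.mul_div_cancel_left _ hd0, Nat.mul_div_cancel_left _ hd0]
      push_cast
      rw [map_mul, mul_assoc]
      congr 3
      have : (d : ℝ) ≠ 0 := by positivity
      have : (t : ℝ) ≠ 0 := by exact_mod_cast ht0
      field_simp
  rw [Finset.sum_congr rfl h3]
  -- step 4: only the divisors of `m` count
  have h4 : ∑ d ∈ q.divisors, (ArithmeticFunction.moebius d : ℂ) * (ψ (d : ZMod r) *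
        ∑ b ∈ range (q / d), ψ (b : ZMod r) * ee ((b : ℝ) * k / ((q / d : ℕ) : ℝ))) =
      ∑ d ∈ m.divisors, (ArithmeticFunction.moebius d : ℂ) * (ψ (d : ZMod r) *
        ∑ b ∈ range (q / d), ψ (b : ZMod r) * ee ((b : ℝ) * k / ((q / d : ℕ) : ℝ))) := by
    symm
    apply Finset.sum_subset
    · exact Nat.divisors_subset_of_dvd hq0 (hq ▸ dvd_mul_left _ _)
    · intro d hd hdm
      have h5 : ¬ IsUnit (d : ZMod r) := by
        rw [ZMod.isUnit_iff_coprime]
        intro hc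
        apply hdm
        rw [Nat.mem_divisors]
        refine ⟨?_, hm0⟩
        have := (Nat.mem_divisors.mp hd).1
        rw [hq] at this
        exact hc.dvd_of_dvd_mul_left this
      rw [MulChar.map_nonunit ψ h5, zero_mul, mul_zero]
  rw [h4, ← Nat.sum_div_divisors m (fun d => (ArithmeticFunction.moebius d : ℂ) *
    (ψ (d : ZMod r) *
        ∑ b ∈ range (q / d), ψ (b : ZMod r) * ee ((b : ℝ) * k / ((q / d : ℕ) : ℝ))))]
  refine Finset.sum_congr rfl (fun f hf => ?_)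
  obtain ⟨hfm, _⟩ := Nat.mem_divisors.mp hf
  have hf0 : 0 < f := Nat.pos_of_mem_divisors hf
  obtain ⟨t, rfl⟩ := hfm
  have ht0 : 0 < t := Nat.pos_of_ne_zero (by rintro rfl; simp at hm0)
  have e1 : f * t / f = t := Nat.mul_div_cancel_left _ hf0
  have e2 : q / t = r * f := by
    rw [hq, ← mul_assoc, Nat.mul_div_cancel _ ht0]
  rw [e1, e2, gsh_A r f (by omega) hf0 ψ k]
  by_cases hk : (f : ℤ) ∣ k
  · simp only [if_pos hk]
    ring
  · simp only [if_neg hk, mul_zero]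

private lemma gsh_G' (q : ℕ) [NeZero q] (χ : DirichletCharacter ℂ q) (k : ℤ) :
    gs χ k = ∑ f ∈ (q / χ.conductor).divisors, if (f : ℤ) ∣ k then
        (ArithmeticFunction.moebius (q / χ.conductor / f) : ℂ) *
          χ.primitiveCharacter ((q / χ.conductor / f : ℕ) : ZMod χ.conductor) *
          ((f : ℂ) * gs χ.primitiveCharacter (k / f)) else 0 := by
  have h := gsh_G q χ.conductor (q / χ.conductor)
    (Nat.mul_div_cancel' χ.conductor_dvd_level).symm χ.conductor_dvd_level χ.primitiveCharacter k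
  rw [DirichletCharacter.changeLevel_primitiveCharacter] at h
  exact h

/-- Proof. Let `ψ` be the primitive character modulo `r` inducing `χ`. `1[(a,q)=1] ψ(a) =
∑_{d ∣ (a,q)} μ(d) ψ(a)` and `ψ(a) = ψ(d)ψ(b)` for `a = db`; so `gs χ 1 = ∑_{d ∣ q} μ(d) ψ(d) ∑_{b mod q/d} ψ(b) e(bd/q)`.
If `(d,r) = 1` then `r ∣ q/d`; writing `b = b₀ + r j` the inner sum vanishes unless `q/d = r`. -/
theorem gs_induced (q : ℕ) [NeZero q] (χ : DirichletCharacter ℂ q) :
    gs χ 1 = (ArithmeticFunction.moebius (q / χ.conductor) : ℂ) *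
      χ.primitiveCharacter ((q / χ.conductor : ℕ) : ZMod χ.conductor) * gs χ.primitiveCharacter 1 := by
  have hm : q / χ.conductor ≠ 0 := by
    have := Nat.div_pos (Nat.le_of_dvd (Nat.pos_of_ne_zero (NeZero.ne q)) χ.conductor_dvd_level)
      (Nat.pos_of_ne_zero (DirichletCharacter.conductor_ne_zero χ))
    omega
  rw [gsh_G']
  rw [Finset.sum_eq_single_of_mem 1 (Nat.one_mem_divisors.mpr hm)]
  · simp
  · intro f hf hf1
    rw [if_neg]
    intro h
    have h2 : f ∣ 1 := by exact_mod_cast h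
    exact hf1 (Nat.dvd_one.mp h2)

private lemma gsh_moeb_norm (n : ℕ) : ‖(ArithmeticFunction.moebius n : ℂ)‖ ≤ 1 := by
  rcases ArithmeticFunction.moebius_eq_or n with h | h | h <;> rw [h] <;> simp

theorem norm_gs_one_le (q : ℕ) [NeZero q] (χ : DirichletCharacter ℂ q) :
    ‖gs χ 1‖ ≤ Real.sqrt χ.conductor := by
  have : NeZero χ.conductor := ⟨DirichletCharacter.conductor_ne_zero χ⟩
  rw [gs_induced, norm_mul, norm_mul]
  have h1 := gsh_moeb_norm (q / χ.conductor)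
  have h2 := gsh_norm_le χ.conductor χ.primitiveCharacter ((q / χ.conductor : ℕ) : ZMod χ.conductor)
  have h3 := norm_gs_prim χ.conductor χ.primitiveCharacter χ.primitiveCharacter_isPrimitive 1
  calc _ ≤ 1 * 1 * Real.sqrt χ.conductor := by gcongr
    _ = Real.sqrt χ.conductor := by ring

theorem gs_one_ne_zero (q : ℕ) [NeZero q] (χ : DirichletCharacter ℂ q) (h : gs χ 1 ≠ 0) :
    Squarefree (q / χ.conductor) ∧ (q / χ.conductor).Coprime χ.conductor := by
  rw [gs_induced] at h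
  have h1 := left_ne_zero_of_mul h
  have h2 := left_ne_zero_of_mul h1
  have h3 := right_ne_zero_of_mul h1
  constructor
  · rw [← ArithmeticFunction.moebius_ne_zero_iff_squarefree]
    exact_mod_cast h2
  · rw [← ZMod.isUnit_iff_coprime]
    by_contra hn
    exact h3 (MulChar.map_nonunit _ hn)

/-- The bound for every `q`. -/
private lemma gsh_bound (m : ℕ) (hm : m ≠ 0) (k : ℤ) (g : ℕ → ℂ) (B : ℝ)
    (hg : ∀ f ∈ m.divisors, ‖g f‖ ≤ f * B) :
    ‖∑ f ∈ m.divisors, if (f : ℤ) ∣ k then g f else 0‖ ≤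
      B * ∑ f ∈ (Nat.gcd m k.natAbs).divisors, (f : ℝ) := by
  have h1 : (Nat.gcd m k.natAbs).divisors = m.divisors.filter (fun f : ℕ => (f : ℤ) ∣ k) := by
    ext f
    simp only [mem_filter, Nat.mem_divisors, Nat.dvd_gcd_iff, Int.natCast_dvd]
    constructor
    · rintro ⟨⟨h, h'⟩, _⟩
      exact ⟨⟨h, hm⟩, h'⟩
    · rintro ⟨⟨h, _⟩, h'⟩
      exact ⟨⟨h, h'⟩, Nat.gcd_ne_zero_left hm⟩
  rw [h1, ← Finset.sum_filter, Finset.mul_sum]
  refine (norm_sum_le _ _).trans (Finset.sum_le_sum (fun f hf => ?_))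
  rw [mul_comm B]
  exact hg f (mem_filter.mp hf).1

/-- Proof. As in `gs_induced`: `gs χ k = ∑_{d ∣ m} μ(d) ψ(d) ∑_{b mod q/d} ψ(b) e(bdk/q)` with `m = q/r` (coprime to
`r` since `q` is squarefree), and the inner sum vanishes unless `f = m/d` divides `k`, when it has absolute value
at most `f √r`. -/
theorem norm_gs_sqf (q : ℕ) [NeZero q] (χ : DirichletCharacter ℂ q) (hq : Squarefree q) (k : ℤ) :
    ‖gs χ k‖ ≤ Real.sqrt χ.conductor *
      ∑ f ∈ (Nat.gcd (q / χ.conductor) k.natAbs).divisors, (f : ℝ) := by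
  have : NeZero χ.conductor := ⟨DirichletCharacter.conductor_ne_zero χ⟩
  have hm : q / χ.conductor ≠ 0 := by
    have := Nat.div_pos (Nat.le_of_dvd (Nat.pos_of_ne_zero (NeZero.ne q)) χ.conductor_dvd_level)
      (Nat.pos_of_ne_zero (DirichletCharacter.conductor_ne_zero χ))
    omega
  rw [gsh_G']
  refine gsh_bound _ hm k _ _ (fun f _ => ?_)
  rw [norm_mul, norm_mul, norm_mul]
  have h1 := gsh_moeb_norm (q / χ.conductor / f)
  have h2 := gsh_norm_le χ.conductor χ.primitiveCharacter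
    ((q / χ.conductor / f : ℕ) : ZMod χ.conductor)
  have h3 := norm_gs_prim χ.conductor χ.primitiveCharacter χ.primitiveCharacter_isPrimitive (k / f)
  have h4 : ‖(f : ℂ)‖ = f := by simp
  rw [h4]
  calc _ ≤ 1 * 1 * ((f : ℝ) * Real.sqrt χ.conductor) := by gcongr
    _ = (f : ℝ) * Real.sqrt χ.conductor := by ring

private lemma gsh_cq (q : ℕ) (hq : 1 ≤ q) (k : ℤ) :
    cq q k = ∑ f ∈ q.divisors, if (f : ℤ) ∣ k then
        (ArithmeticFunction.moebius (q / f) : ℂ) * (f : ℂ) else 0 := by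
  have : NeZero q := ⟨by omega⟩
  have h := gsh_G q 1 q (one_mul q).symm (one_dvd q) (1 : DirichletCharacter ℂ 1) k
  rw [DirichletCharacter.changeLevel_one, gs_one] at h
  rw [h]
  refine Finset.sum_congr rfl (fun f _ => ?_)
  have h1 : ∀ j : ℤ, gs (1 : DirichletCharacter ℂ 1) j = 1 := by
    intro j
    rw [gs_one, cq]
    simp [ee_zero]
  have h2 : (1 : DirichletCharacter ℂ 1) ((q / f : ℕ) : ZMod 1) = 1 := by
    have : ((q / f : ℕ) : ZMod 1) = 1 := Subsingleton.elim _ _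
    rw [this, map_one]
  rw [h1, h2]
  simp

/-- `c_q(k) = ∑_{d ∣ (q,k)} d μ(q/d)`. -/
theorem norm_cq_le (q : ℕ) (hq : 1 ≤ q) (k : ℤ) :
    ‖cq q k‖ ≤ ∑ f ∈ (Nat.gcd q k.natAbs).divisors, (f : ℝ) := by
  rw [gsh_cq q hq k]
  have h := gsh_bound q (by omega) k
    (fun f => (ArithmeticFunction.moebius (q / f) : ℂ) * (f : ℂ)) 1 (fun f _ => by
      rw [norm_mul, mul_one]
      have h1 := gsh_moeb_norm (q / f)
      have h4 : ‖(f : ℂ)‖ = f := by simp
      rw [h4]
      calc _ ≤ 1 * (f : ℝ) := by gcongr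
        _ = f := one_mul _)
  rw [one_mul] at h
  exact h

theorem norm_gs_triv (q : ℕ) (χ : DirichletCharacter ℂ q) (k : ℤ) : ‖gs χ k‖ ≤ q.totient := by
  rw [gs]
  refine (norm_sum_le _ _).trans ?_
  have h1 : ∀ a ∈ (range q).filter (fun a => a.Coprime q),
      ‖χ (a : ZMod q) * ee ((a : ℝ) * k / q)‖ ≤ 1 := by
    intro a _
    rw [norm_mul]
    have h2 : ‖ee ((a : ℝ) * k / q)‖ = 1 := by
      rw [ee, Complex.norm_exp]
      simp
    rw [h2, mul_one]
    exact DirichletCharacter.norm_le_one χ _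
  refine (Finset.sum_le_card_nsmul _ _ 1 h1).trans ?_
  rw [nsmul_eq_mul, mul_one]
  rw [Nat.totient_eq_card_coprime]
  apply le_of_eq
  congr 2
  ext a
  simp only [mem_filter, mem_range, Nat.coprime_comm]

/-- `c_q(1) = μ(q)`. -/
theorem cq_one (q : ℕ) (hq : 1 ≤ q) : cq q 1 = (ArithmeticFunction.moebius q : ℂ) := by
  rw [gsh_cq q hq 1, Finset.sum_eq_single_of_mem 1 (Nat.one_mem_divisors.mpr (by omega))]
  · simp
  · intro f hf hf1
    rw [if_neg]
    intro h
    have h2 : f ∣ 1 := by exact_mod_cast h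
    exact hf1 (Nat.dvd_one.mp h2)

private lemma gsh_expand1 (q : ℕ) [NeZero q] (c : ZMod q) (hc : IsUnit c) :
    ZMod.stdAddChar c = ((q.totient : ℂ))⁻¹ *
      ∑ χ : DirichletCharacter ℂ q, gs χ⁻¹ 1 * χ c := by
  have hφ : (q.totient : ℂ) ≠ 0 := by
    have := Nat.totient_pos.mpr (Nat.pos_of_ne_zero (NeZero.ne q))
    exact_mod_cast this.ne'
  have h1 : ∑ χ : DirichletCharacter ℂ q, gs χ⁻¹ 1 * χ c = (q.totient : ℂ) * ZMod.stdAddChar c := by
    have h2 : ∀ χ : DirichletCharacter ℂ q, gs χ⁻¹ 1 * χ c =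
        ∑ b : ZMod q, (χ⁻¹ b * χ c) * ZMod.stdAddChar b := by
      intro χ
      rw [gs_eq_gaussSum, gaussSum, Finset.sum_mul]
      refine Finset.sum_congr rfl (fun b _ => ?_)
      rw [AddChar.mulShift_apply]
      push_cast
      rw [one_mul]
      ring
    rw [Finset.sum_congr rfl (fun χ _ => h2 χ), Finset.sum_comm]
    have h3 : ∀ b : ZMod q, ∑ χ : DirichletCharacter ℂ q, (χ⁻¹ b * χ c) * ZMod.stdAddChar b =
        if b = c then (q.totient : ℂ) * ZMod.stdAddChar c else 0 := by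
      intro b
      rw [← Finset.sum_mul]
      by_cases hb : IsUnit b
      · have h4 := DirichletCharacter.sum_char_inv_mul_char_eq ℂ hb c
        have h5 : ∀ χ : DirichletCharacter ℂ q, χ⁻¹ b = χ b⁻¹ := by
          intro χ
          rw [MulChar.inv_apply]
          congr 1
          obtain ⟨u, rfl⟩ := hb
          rw [Ring.inverse_unit, ZMod.inv_coe_unit]
        simp only [h5]
        rw [h4]
        by_cases hbc : b = c
        · rw [if_pos hbc, if_pos hbc, hbc]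
        · rw [if_neg hbc, if_neg hbc, zero_mul]
      · have hbc : b ≠ c := fun h => hb (h ▸ hc)
        rw [if_neg hbc]
        have h5 : ∀ χ : DirichletCharacter ℂ q, χ⁻¹ b = 0 := fun χ => MulChar.map_nonunit _ hb
        simp [h5]
    rw [Finset.sum_congr rfl (fun b _ => h3 b), Finset.sum_ite_eq' Finset.univ c]
    simp
  rw [h1, ← mul_assoc, inv_mul_cancel₀ hφ, one_mul]

/-- Expansion in characters: for `m` coprime to `q`, `e(am/q) = φ(q)⁻¹ ∑_χ gs(χ⁻¹,1) χ(am)`. -/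
theorem cq_expand (q : ℕ) [NeZero q] (m₁ m₂ : ℕ) (n : ℤ) (h₁ : m₁.Coprime q) (h₂ : m₂.Coprime q) :
    cq q ((m₁ : ℤ) + m₂ - n) = ((q.totient : ℂ) ^ 2)⁻¹ *
      ∑ χ₁ : DirichletCharacter ℂ q, ∑ χ₂ : DirichletCharacter ℂ q,
        gs χ₁⁻¹ 1 * gs χ₂⁻¹ 1 * gs (χ₁ * χ₂) (-n) * χ₁ (m₁ : ZMod q) * χ₂ (m₂ : ZMod q) := by
  have hu₁ : IsUnit (m₁ : ZMod q) := (ZMod.isUnit_iff_coprime _ _).mpr h₁
  have hu₂ : IsUnit (m₂ : ZMod q) := (ZMod.isUnit_iff_coprime _ _).mpr h₂
  rw [cq]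
  have h3 : ∀ a ∈ (range q).filter (fun a => a.Coprime q),
      ee ((a : ℝ) * (((m₁ : ℤ) + m₂ - n : ℤ) : ℝ) / q) =
      ((q.totient : ℂ) ^ 2)⁻¹ * ∑ χ₁ : DirichletCharacter ℂ q, ∑ χ₂ : DirichletCharacter ℂ q,
        gs χ₁⁻¹ 1 * gs χ₂⁻¹ 1 * χ₁ (m₁ : ZMod q) * χ₂ (m₂ : ZMod q) *
          ((χ₁ * χ₂) (a : ZMod q) * ee ((a : ℝ) * ((-n : ℤ) : ℝ) / q)) := by
    intro a ha
    have hua : IsUnit (a : ZMod q) := (ZMod.isUnit_iff_coprime _ _).mpr (mem_filter.mp ha).2
    have e1 : ((a : ℝ) * (((m₁ : ℤ) + m₂ - n : ℤ) : ℝ) / q) =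
        ((a : ℝ) * ((m₁ : ℤ) : ℝ) / q) + (((a : ℝ) * ((m₂ : ℤ) : ℝ) / q) +
          ((a : ℝ) * ((-n : ℤ) : ℝ) / q)) := by
      push_cast
      ring
    rw [e1, ee_add, ee_add, gsh_ee_eq' q a (m₁ : ℤ), gsh_ee_eq' q a (m₂ : ℤ)]
    have e2 : (((m₁ : ℤ) : ZMod q)) = (m₁ : ZMod q) := by push_cast; rfl
    have e3 : (((m₂ : ℤ) : ZMod q)) = (m₂ : ZMod q) := by push_cast; rfl
    rw [e2, e3, gsh_expand1 q _ (hua.mul hu₁), gsh_expand1 q _ (hua.mul hu₂)]
    rw [show ((q.totient : ℂ) ^ 2)⁻¹ = (q.totient : ℂ)⁻¹ * (q.totient : ℂ)⁻¹ by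
      rw [pow_two, mul_inv]]
    have e4 : ∀ (A B S T E : ℂ), A * S * (B * T * E) = A * B * (S * T * E) := by
      intros; ring
    rw [e4, Finset.sum_mul_sum]
    congr 1
    rw [Finset.sum_mul]
    refine Finset.sum_congr rfl (fun χ₁ _ => ?_)
    rw [Finset.sum_mul]
    refine Finset.sum_congr rfl (fun χ₂ _ => ?_)
    rw [map_mul, map_mul, MulChar.mul_apply]
    ring
  rw [Finset.sum_congr rfl h3, ← Finset.mul_sum, Finset.sum_comm]
  congr 1
  refine Finset.sum_congr rfl (fun χ₁ _ => ?_)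
  rw [Finset.sum_comm]
  refine Finset.sum_congr rfl (fun χ₂ _ => ?_)
  rw [← Finset.mul_sum]
  have h5 : ∑ a ∈ (range q).filter (fun a => a.Coprime q),
      (χ₁ * χ₂) (a : ZMod q) * ee ((a : ℝ) * ((-n : ℤ) : ℝ) / q) = gs (χ₁ * χ₂) (-n) := rfl
  rw [h5]
  ring

end Pool.Agent.Lib.MP_629a14_nt.Th
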