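import Pool.Agent.Lib.MP_629a14_nt.Th.Fin
import Pool.Agent.Lib.MP_629a14_nt.Th.Local

/-! Upper bounds for `-Re L'/L` to the right of the line `Re s = 1`. -/

set_option autoImplicit false

namespace Pool.Agent.Lib.MP_629a14_nt.Th

open Finset

private theorem lo_re_inv_nonneg (w : ℂ) (hw : 0 < w.re) : 0 ≤ (1 / w).re := by
  rw [one_div, Complex.inv_re]
  exact div_nonneg hw.le (Complex.normSq_nonneg _)

/-- The general inequality. -/
private theorem lo_gen (Z S : Finset ℂ) (m : ℂ → ℝ) (s d G : ℂ) (B : ℝ) (hSZ : S ⊆ Z)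
    (hre : ∀ ρ ∈ Z, ρ.re < s.re) (hm : ∀ ρ ∈ Z, 1 ≤ m ρ) (hG : ‖G‖ ≤ B)
    (hd : d = ∑ ρ ∈ Z, (m ρ : ℂ) / (s - ρ) + G) :
    -d.re ≤ B - ∑ ρ ∈ S, (1 / (s - ρ)).re := by
  have h1 : d.re = ∑ ρ ∈ Z, m ρ * (1 / (s - ρ)).re + G.re := by
    rw [hd, Complex.add_re, Complex.re_sum]
    congr 1
    refine Finset.sum_congr rfl fun ρ _ => ?_
    rw [show (m ρ : ℂ) / (s - ρ) = (m ρ : ℂ) * (1 / (s - ρ)) by ring, Complex.re_ofReal_mul]
  have hpos : ∀ ρ ∈ Z, 0 ≤ (1 / (s - ρ)).re := fun ρ hρ => by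
    refine lo_re_inv_nonneg _ ?_
    rw [Complex.sub_re]
    linarith [hre ρ hρ]
  have h2 : ∑ ρ ∈ S, (1 / (s - ρ)).re ≤ ∑ ρ ∈ Z, m ρ * (1 / (s - ρ)).re := by
    calc ∑ ρ ∈ S, (1 / (s - ρ)).re ≤ ∑ ρ ∈ Z, (1 / (s - ρ)).re :=
          Finset.sum_le_sum_of_subset_of_nonneg hSZ fun ρ hρ _ => hpos ρ hρ
      _ ≤ _ := Finset.sum_le_sum fun ρ hρ => by
          nlinarith [hpos ρ hρ, hm ρ hρ]
  have h3 : -G.re ≤ B := by
    have := Complex.abs_re_le_norm G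
    linarith [neg_abs_le G.re]
  linarith

private theorem lo_dist (t σ : ℝ) (h1 : 1 < σ) (h2 : σ ≤ 17 / 16) :
    ‖((σ : ℂ) + t * Complex.I) - ctr t‖ ≤ 1 / 16 := by
  have h : ((σ : ℂ) + t * Complex.I) - ctr t = ((σ - 17 / 16 : ℝ) : ℂ) := by
    unfold ctr
    push_cast
    ring
  rw [h, Complex.norm_real, Real.norm_eq_abs, abs_le]
  constructor <;> linarith

private theorem lo_re (t σ : ℝ) : ((σ : ℂ) + t * Complex.I).re = σ := by simp

/-- From `local_chi` at the centre `ctr t`: the point `σ + it` has distance `≤ 1/16` from it. All terms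
`Re m_ρ/(σ+it-ρ)` are positive, so those with `ρ ∉ S` can be dropped, and `m_ρ ≥ 1`. -/
theorem lower_chi : ∃ C : ℝ, 1 ≤ C ∧ ∀ (q : ℕ) [NeZero q] (χ : DirichletCharacter ℂ q), χ ≠ 1 →
    ∀ t σ : ℝ, 1 < σ → σ ≤ 17 / 16 → ∀ S : Finset ℂ,
      (∀ ρ ∈ S, χ.LFunction ρ = 0 ∧ ‖ρ - ctr t‖ ≤ 1 / 4) →
      -(deriv χ.LFunction (σ + t * Complex.I) / χ.LFunction (σ + t * Complex.I)).re ≤
        C * Real.log (q * (|t| + 3)) - ∑ ρ ∈ S, (1 / ((σ : ℂ) + t * Complex.I - ρ)).re := by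
  obtain ⟨C, hC, h⟩ := local_chi
  refine ⟨C, hC, ?_⟩
  intro q _ χ hχ t σ h1 h2 S hS
  obtain ⟨Z, hZ, -, hm, G, -, hG, hd⟩ := h q χ hχ t
  have hdist := lo_dist t σ h1 h2
  have hL : χ.LFunction ((σ : ℂ) + t * Complex.I) ≠ 0 := by
    intro h0
    have := re_lt_one_chi q χ hχ _ h0
    rw [lo_re] at this
    linarith
  refine lo_gen Z S (fun ρ => mul χ.LFunction ρ) _ _ _ _ ?_ ?_ hm
    (hG ((σ : ℂ) + t * Complex.I) ?_) (hd _ ?_ hL)
  · intro ρ hρ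
    exact (hZ ρ).2 ⟨(hS ρ hρ).2, (hS ρ hρ).1⟩
  · intro ρ hρ
    rw [lo_re]
    linarith [re_lt_one_chi q χ hχ ρ ((hZ ρ).1 hρ).2]
  · rw [Metric.mem_closedBall, dist_eq_norm]
    linarith
  · rw [Metric.mem_ball, dist_eq_norm]
    linarith

theorem lower_zt : ∃ C : ℝ, 1 ≤ C ∧
    ∀ t σ : ℝ, 1 < σ → σ ≤ 17 / 16 → ∀ S : Finset ℂ,
      (∀ ρ ∈ S, zt ρ = 0 ∧ ‖ρ - ctr t‖ ≤ 1 / 4) →
      -(deriv zt (σ + t * Complex.I) / zt (σ + t * Complex.I)).re ≤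
        C * Real.log (|t| + 3) - ∑ ρ ∈ S, (1 / ((σ : ℂ) + t * Complex.I - ρ)).re := by
  obtain ⟨C, hC, h⟩ := local_zt
  refine ⟨C, hC, ?_⟩
  intro t σ h1 h2 S hS
  obtain ⟨Z, hZ, -, hm, G, -, hG, hd⟩ := h t
  have hdist := lo_dist t σ h1 h2
  have hL : zt ((σ : ℂ) + t * Complex.I) ≠ 0 := by
    intro h0
    have := re_lt_one_zt _ h0
    rw [lo_re] at this
    linarith
  refine lo_gen Z S (fun ρ => mul zt ρ) _ _ _ _ ?_ ?_ hm
    (hG ((σ : ℂ) + t * Complex.I) ?_) (hd _ ?_ hL)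
  · intro ρ hρ
    exact (hZ ρ).2 ⟨(hS ρ hρ).2, (hS ρ hρ).1⟩
  · intro ρ hρ
    rw [lo_re]
    linarith [re_lt_one_zt ρ ((hZ ρ).1 hρ).2]
  · rw [Metric.mem_closedBall, dist_eq_norm]
    linarith
  · rw [Metric.mem_ball, dist_eq_norm]
    linarith

private theorem lo_zeta (s : ℂ) (hs : 1 < s.re) :
    deriv riemannZeta s / riemannZeta s = deriv zt s / zt s - 1 / (s - 1) := by
  have hs1 : s ≠ 1 := by
    rintro rfl
    simp at hs
  have hs10 : s - 1 ≠ 0 := sub_ne_zero.2 hs1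
  have hz : riemannZeta s ≠ 0 := riemannZeta_ne_zero_of_one_le_re hs.le
  have hev : zt =ᶠ[nhds s] fun z => (z - 1) * riemannZeta z := by
    filter_upwards [isOpen_ne.mem_nhds hs1] with z hz
    unfold zt
    rw [if_neg hz]
  have h1 : deriv zt s = riemannZeta s + (s - 1) * deriv riemannZeta s := by
    rw [hev.deriv_eq]
    have hd : HasDerivAt (fun z : ℂ => (z - 1) * riemannZeta z)
        (1 * riemannZeta s + (s - 1) * deriv riemannZeta s) s :=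
      ((hasDerivAt_id s).sub_const 1).mul (differentiableAt_riemannZeta hs1).hasDerivAt
    rw [hd.deriv, one_mul]
  have h2 : zt s = (s - 1) * riemannZeta s := hev.eq_of_nhds
  rw [h1, h2]
  field_simp
  ring

/-- `ζ'/ζ = zt'/zt - 1/(s-1)`. -/
theorem upper_zeta : ∃ C : ℝ, 1 ≤ C ∧
    ∀ t σ : ℝ, 1 < σ → σ ≤ 17 / 16 → ∀ S : Finset ℂ,
      (∀ ρ ∈ S, zt ρ = 0 ∧ ‖ρ - ctr t‖ ≤ 1 / 4) →
      -(deriv riemannZeta (σ + t * Complex.I) / riemannZeta (σ + t * Complex.I)).re ≤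
        (1 / (((σ : ℂ) - 1) + t * Complex.I)).re + C * Real.log (|t| + 3) -
          ∑ ρ ∈ S, (1 / ((σ : ℂ) + t * Complex.I - ρ)).re := by
  obtain ⟨C, hC, h⟩ := lower_zt
  refine ⟨C, hC, ?_⟩
  intro t σ h1 h2 S hS
  have h3 := h t σ h1 h2 S hS
  rw [lo_zeta ((σ : ℂ) + t * Complex.I) (by rw [lo_re]; exact h1), Complex.sub_re,
    show ((σ : ℂ) + t * Complex.I) - 1 = ((σ : ℂ) - 1) + t * Complex.I by ring]
  linarith

private theorem lo_factor_ne (p : ℕ) (hp : p.Prime) (s : ℂ) (hs : 1 < s.re) :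
    ‖(p : ℂ) ^ (-s)‖ < 1 / p := by
  have hp0 : 0 < p := hp.pos
  rw [Complex.norm_natCast_cpow_of_pos hp0, Complex.neg_re, Real.rpow_neg (by positivity)]
  rw [one_div]
  have hp1 : (1 : ℝ) < p := by exact_mod_cast hp.one_lt
  apply inv_strictAnti₀ (by positivity)
  calc (p : ℝ) = (p : ℝ) ^ (1 : ℝ) := by rw [Real.rpow_one]
    _ < (p : ℝ) ^ s.re := Real.rpow_lt_rpow_of_exponent_lt hp1 hs

private theorem lo_factor (p : ℕ) (hp : p.Prime) (s : ℂ) (hs : 1 < s.re) :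
    (1 - (p : ℂ) ^ (-s)) ≠ 0 ∧ DifferentiableAt ℂ (fun z : ℂ => 1 - (p : ℂ) ^ (-z)) s ∧
      ‖logDeriv (fun z : ℂ => 1 - (p : ℂ) ^ (-z)) s‖ ≤ Real.log p := by
  have hlt := lo_factor_ne p hp s hs
  have hp2 : (2 : ℝ) ≤ p := by exact_mod_cast hp.two_le
  have hp0 : (p : ℂ) ≠ 0 := by exact_mod_cast hp.ne_zero
  have hn : 1 - ‖(p : ℂ) ^ (-s)‖ ≤ ‖1 - (p : ℂ) ^ (-s)‖ := by
    have := norm_sub_norm_le (1 : ℂ) ((p : ℂ) ^ (-s))
    rwa [norm_one] at this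
  have hhalf : (1 : ℝ) / p ≤ 1 / 2 := one_div_le_one_div_of_le (by norm_num) hp2
  have hpos : 0 < ‖1 - (p : ℂ) ^ (-s)‖ := by linarith
  have hne : (1 - (p : ℂ) ^ (-s)) ≠ 0 := norm_pos_iff.1 hpos
  have hd : HasDerivAt (fun z : ℂ => 1 - (p : ℂ) ^ (-z))
      (-((p : ℂ) ^ (-s) * Complex.log p * (-1))) s := by
    have h1 : HasDerivAt (fun z : ℂ => -z) (-1) s := hasDerivAt_neg s
    have h2 := h1.const_cpow (c := (p : ℂ)) (Or.inl hp0)
    simpa using h2.const_sub 1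
  refine ⟨hne, hd.differentiableAt, ?_⟩
  rw [logDeriv_apply, hd.deriv, norm_div]
  rw [div_le_iff₀ hpos]
  have hlog : ‖Complex.log (p : ℂ)‖ = Real.log p := by
    rw [Complex.natCast_log.symm, Complex.norm_real, Real.norm_eq_abs, abs_of_nonneg]
    exact Real.log_natCast_nonneg p
  have e1 : ‖-((p : ℂ) ^ (-s) * Complex.log p * (-1))‖ = ‖(p : ℂ) ^ (-s)‖ * Real.log p := by
    rw [norm_neg, norm_mul, norm_mul, hlog, norm_neg, norm_one, mul_one]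
  rw [e1, mul_comm]
  apply mul_le_mul_of_nonneg_left _ (Real.log_natCast_nonneg p)
  linarith

private theorem lo_sum_log (q : ℕ) (hq : q ≠ 0) :
    ∑ p ∈ q.primeFactors, Real.log p ≤ Real.log q := by
  have h1 : Real.log (∏ p ∈ q.primeFactors, (p : ℝ)) = ∑ p ∈ q.primeFactors, Real.log p := by
    apply Real.log_prod
    intro p hp
    have := (Nat.prime_of_mem_primeFactors hp).ne_zero
    exact_mod_cast this
  rw [← h1]
  have h2 : (∏ p ∈ q.primeFactors, p) ≤ q :=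
    Nat.le_of_dvd (Nat.pos_of_ne_zero hq) (Nat.prod_primeFactors_dvd q)
  have h3 : (∏ p ∈ q.primeFactors, (p : ℝ)) ≤ q := by
    have h4 : ((∏ p ∈ q.primeFactors, p : ℕ) : ℝ) ≤ (q : ℝ) := Nat.cast_le.2 h2
    rwa [Nat.cast_prod] at h4
  refine Real.log_le_log ?_ h3
  apply Finset.prod_pos
  intro p hp
  exact_mod_cast (Nat.prime_of_mem_primeFactors hp).pos

private theorem lo_triv (q : ℕ) [NeZero q] (s : ℂ) (hs : 1 < s.re) :
    ‖logDeriv ((1 : DirichletCharacter ℂ q).LFunction) s - logDeriv riemannZeta s‖ ≤ Real.log q := by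
  have hs1 : s ≠ 1 := by
    rintro rfl
    simp at hs
  have hz : riemannZeta s ≠ 0 := riemannZeta_ne_zero_of_one_le_re hs.le
  have hev : ((1 : DirichletCharacter ℂ q).LFunction) =ᶠ[nhds s]
      fun z => (∏ p ∈ q.primeFactors, (1 - (p : ℂ) ^ (-z))) * riemannZeta z := by
    filter_upwards [isOpen_ne.mem_nhds hs1] with z hz
    exact DirichletCharacter.LFunctionTrivChar_eq_mul_riemannZeta hz
  have hfac : ∀ p ∈ q.primeFactors, p.Prime := fun p hp => Nat.prime_of_mem_primeFactors hp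
  have hprod : logDeriv (fun z : ℂ => ∏ p ∈ q.primeFactors, (1 - (p : ℂ) ^ (-z))) s =
      ∑ p ∈ q.primeFactors, logDeriv (fun z : ℂ => 1 - (p : ℂ) ^ (-z)) s := by
    have := logDeriv_prod (s := q.primeFactors) (f := fun (p : ℕ) (z : ℂ) => 1 - (p : ℂ) ^ (-z))
      (x := s) (fun p hp => (lo_factor p (hfac p hp) s hs).1)
      (fun p hp => (lo_factor p (hfac p hp) s hs).2.1)
    rw [← this]
  have hne : (∏ p ∈ q.primeFactors, (1 - (p : ℂ) ^ (-s))) ≠ 0 :=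
    Finset.prod_ne_zero_iff.2 fun p hp => (lo_factor p (hfac p hp) s hs).1
  have hdiff : DifferentiableAt ℂ (fun z : ℂ => ∏ p ∈ q.primeFactors, (1 - (p : ℂ) ^ (-z))) s := by
    refine DifferentiableAt.fun_finsetProd ?_
    exact fun p hp => (lo_factor p (hfac p hp) s hs).2.1
  rw [(logDeriv_congr_nhds hev).eq_of_nhds, logDeriv_mul s hne hz hdiff (differentiableAt_riemannZeta hs1), hprod,
    add_sub_cancel_right]
  calc ‖∑ p ∈ q.primeFactors, logDeriv (fun z : ℂ => 1 - (p : ℂ) ^ (-z)) s‖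
      ≤ ∑ p ∈ q.primeFactors, ‖logDeriv (fun z : ℂ => 1 - (p : ℂ) ^ (-z)) s‖ := norm_sum_le _ _
    _ ≤ ∑ p ∈ q.primeFactors, Real.log p :=
        Finset.sum_le_sum fun p hp => (lo_factor p (hfac p hp) s hs).2.2
    _ ≤ Real.log q := lo_sum_log q (NeZero.ne q)

/-- The principal character: `-L'/L(s, χ₀) = ∑_{(n,q)=1} Λ(n) n^{-s}` differs from `-ζ'/ζ(s)` by at most
`∑_{p ∣ q} log p/(p-1) ≤ log q`. -/
theorem upper_triv : ∃ C : ℝ, 1 ≤ C ∧ ∀ (q : ℕ) [NeZero q],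
    ∀ t σ : ℝ, 1 < σ → σ ≤ 17 / 16 →
      -(deriv (1 : DirichletCharacter ℂ q).LFunction (σ + t * Complex.I) /
        (1 : DirichletCharacter ℂ q).LFunction (σ + t * Complex.I)).re ≤
        (1 / (((σ : ℂ) - 1) + t * Complex.I)).re + C * Real.log (q * (|t| + 3)) := by
  obtain ⟨C, hC, h⟩ := upper_zeta
  refine ⟨C, hC, ?_⟩
  intro q _ t σ h1 h2
  have h3 := h t σ h1 h2 ∅ (by simp)
  rw [Finset.sum_empty, sub_zero] at h3
  have hre : 1 < ((σ : ℂ) + t * Complex.I).re := by rw [lo_re]; exact h1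
  have h4 := lo_triv q ((σ : ℂ) + t * Complex.I) hre
  rw [logDeriv_apply, logDeriv_apply] at h4
  have h5 := Complex.abs_re_le_norm (deriv (1 : DirichletCharacter ℂ q).LFunction (σ + t * Complex.I) /
    (1 : DirichletCharacter ℂ q).LFunction (σ + t * Complex.I) -
    deriv riemannZeta (σ + t * Complex.I) / riemannZeta (σ + t * Complex.I))
  rw [Complex.sub_re] at h5
  have h6 := (abs_le.1 (h5.trans h4)).1
  have hq : (1 : ℝ) ≤ q := by exact_mod_cast Nat.one_le_iff_ne_zero.2 (NeZero.ne q)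
  have hlq : 0 ≤ Real.log q := Real.log_nonneg hq
  have h7 : Real.log (q * (|t| + 3)) = Real.log q + Real.log (|t| + 3) := by
    rw [Real.log_mul (by positivity) (by positivity)]
  rw [h7]
  nlinarith

end Pool.Agent.Lib.MP_629a14_nt.Th
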