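import Pool.Agent.Lib.MP_629a14_nt.Th.SumZ
import Pool.Agent.Lib.MP_629a14_nt.Th.EFchi
import Pool.Agent.Lib.MP_629a14_nt.Th.EFzt
import Pool.Agent.Lib.MP_629a14_nt.Th.Window
import Pool.Agent.Lib.MP_629a14_nt.Th.WLam

/-! Primes in short windows with characters of conductor up to `P`. -/

set_option autoImplicit false

namespace Pool.Agent.Lib.MP_629a14_nt.Th

open Finset MeasureTheory

private lemma PropZ_gauss_int {b : ℝ} (hb : 0 < b) : Integrable (fun t : ℝ => Real.exp (-(b * t ^ 2))) := by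
  have := integrable_exp_neg_mul_sq hb
  simpa using this

private lemma PropZ_gauss_aux (f : ℂ → ℂ) (a : ℕ → ℂ) (P k : ℕ) (C1 C2 : ℝ) (hP : 2 ≤ P)
    (hC1 : 0 ≤ C1) (hC2 : 0 ≤ C2)
    (hEF : ∀ t : ℝ, ‖AA a k t‖ ≤
      (∑ ρ ∈ (ZF f (15 / 16) (|t| + 1)).filter (fun ρ => |ρ.im - t| ≤ 1 / 4),
        mul f ρ * ((1 / 16) / (17 / 16 - ρ.re)) ^ (k + 1)) + C1 * (|t| + 3) * (1 / 2) ^ k)
    (hAA : ∀ t : ℝ, ‖AA a k t‖ ≤ C2 * (k + 1))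
    (hmono : ∀ T T' : ℝ, T ≤ T' → ZF f (15 / 16) T ⊆ ZF f (15 / 16) T')
    (hre : ∀ (T : ℝ), ∀ ρ ∈ ZF f (15 / 16) T, ρ.re < 1) :
    ∫ t : ℝ, Real.exp (-(((P : ℝ) ^ 60)⁻¹ ^ 2 * t ^ 2 / 2)) * ‖AA a k t‖ ≤
      (∑ ρ ∈ ZF f (15 / 16) ((P : ℝ) ^ 62), mul f ρ * ((1 / 16) / (17 / 16 - ρ.re)) ^ (k + 1)) +
      C1 * (P : ℝ) ^ 129 * (1 / 2) ^ k + 4 * C2 * (k + 1) * (P : ℝ) ^ 60 * Real.exp (-((P : ℝ) ^ 2 / 4)) := by
  have hP2 : (2 : ℝ) ≤ P := by exact_mod_cast hP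
  have hP0 : (0 : ℝ) < P := by linarith
  set b : ℝ := ((P : ℝ) ^ 60)⁻¹ ^ 2 / 4 with hb
  have hb0 : 0 < b := by positivity
  have hX0 : ∀ ρ ∈ ZF f (15 / 16) ((P : ℝ) ^ 62), 0 ≤ mul f ρ * ((1 / 16) / (17 / 16 - ρ.re)) ^ (k + 1) := by
    intro ρ hρ
    have h1 := hre _ ρ hρ
    have h2 : 0 < 17 / 16 - ρ.re := by linarith
    have h3 : 0 ≤ mul f ρ := by unfold mul; positivity
    positivity
  set S := ZF f (15 / 16) ((P : ℝ) ^ 62) with hS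
  set X : ℂ → ℝ := fun ρ => mul f ρ * ((1 / 16) / (17 / 16 - ρ.re)) ^ (k + 1) with hX
  let g : ℝ → ℝ := fun t => (∑ ρ ∈ S, (Set.Icc (ρ.im - 1 / 4) (ρ.im + 1 / 4)).indicator (fun _ => X ρ) t) +
    (Set.Icc (-((P : ℝ) ^ 61)) ((P : ℝ) ^ 61)).indicator (fun _ => C1 * ((P : ℝ) ^ 61 + 3) * (1 / 2) ^ k) t +
    C2 * (k + 1) * Real.exp (-((P : ℝ) ^ 2 / 4)) * Real.exp (-(b * t ^ 2))
  have hi1 : ∀ ρ ∈ S, Integrable (fun t => (Set.Icc (ρ.im - 1 / 4) (ρ.im + 1 / 4)).indicator (fun _ => X ρ) t) := by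
    intro ρ _
    exact (integrable_indicator_iff measurableSet_Icc).2 continuous_const.integrableOn_Icc
  have hi2 : Integrable (fun t => (Set.Icc (-((P : ℝ) ^ 61)) ((P : ℝ) ^ 61)).indicator (fun _ => C1 * ((P : ℝ) ^ 61 + 3) * (1 / 2) ^ k) t) := by
    exact (integrable_indicator_iff measurableSet_Icc).2 continuous_const.integrableOn_Icc
  have hi3 : Integrable (fun t : ℝ => C2 * (k + 1) * Real.exp (-((P : ℝ) ^ 2 / 4)) * Real.exp (-(b * t ^ 2))) :=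
    (PropZ_gauss_int hb0).const_mul _
  have hi12 : Integrable (fun t => (∑ ρ ∈ S, (Set.Icc (ρ.im - 1 / 4) (ρ.im + 1 / 4)).indicator (fun _ => X ρ) t)) :=
    integrable_finsetSum _ hi1
  have hg : Integrable g := (hi12.add hi2).add hi3
  have hle : ∀ t : ℝ, Real.exp (-(((P : ℝ) ^ 60)⁻¹ ^ 2 * t ^ 2 / 2)) * ‖AA a k t‖ ≤ g t := by
    intro t
    have e1 : 0 ≤ ∑ ρ ∈ S, (Set.Icc (ρ.im - 1 / 4) (ρ.im + 1 / 4)).indicator (fun _ => X ρ) t :=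
      Finset.sum_nonneg fun ρ hρ => Set.indicator_nonneg (fun _ _ => hX0 ρ hρ) _
    have e2 : 0 ≤ (Set.Icc (-((P : ℝ) ^ 61)) ((P : ℝ) ^ 61)).indicator
        (fun _ => C1 * ((P : ℝ) ^ 61 + 3) * (1 / 2) ^ k) t :=
      Set.indicator_nonneg (fun _ _ => by positivity) _
    have e3 : 0 ≤ C2 * (k + 1) * Real.exp (-((P : ℝ) ^ 2 / 4)) * Real.exp (-(b * t ^ 2)) := by positivity
    by_cases ht : |t| ≤ (P : ℝ) ^ 61
    · have hexp : Real.exp (-(((P : ℝ) ^ 60)⁻¹ ^ 2 * t ^ 2 / 2)) ≤ 1 :=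
        Real.exp_le_one_iff.2 (neg_nonpos.2 (by positivity))
      have h1 : Real.exp (-(((P : ℝ) ^ 60)⁻¹ ^ 2 * t ^ 2 / 2)) * ‖AA a k t‖ ≤ ‖AA a k t‖ :=
        mul_le_of_le_one_left (norm_nonneg _) hexp
      have h2 := hEF t
      have h3 : (∑ ρ ∈ (ZF f (15 / 16) (|t| + 1)).filter (fun ρ => |ρ.im - t| ≤ 1 / 4),
          mul f ρ * ((1 / 16) / (17 / 16 - ρ.re)) ^ (k + 1)) ≤
          ∑ ρ ∈ S, (Set.Icc (ρ.im - 1 / 4) (ρ.im + 1 / 4)).indicator (fun _ => X ρ) t := by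
        have hsub : (ZF f (15 / 16) (|t| + 1)).filter (fun ρ => |ρ.im - t| ≤ 1 / 4) ⊆ S := by
          intro ρ hρ
          rw [Finset.mem_filter] at hρ
          refine hmono _ _ ?_ hρ.1
          have : (P : ℝ) ^ 62 = P * (P : ℝ) ^ 61 := by ring
          rw [this]
          have h61 : (1 : ℝ) ≤ (P : ℝ) ^ 61 := one_le_pow₀ (by linarith)
          nlinarith
        refine le_trans (le_of_eq ?_) (Finset.sum_le_sum_of_subset_of_nonneg hsub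
          (fun ρ hρ _ => Set.indicator_nonneg (fun _ _ => hX0 ρ hρ) _))
        refine Finset.sum_congr rfl fun ρ hρ => ?_
        rw [Finset.mem_filter] at hρ
        rw [Set.indicator_of_mem]
        rw [Set.mem_Icc]
        have := abs_le.1 hρ.2
        constructor <;> linarith [this.1, this.2]
      have h4 : C1 * (|t| + 3) * (1 / 2) ^ k ≤ (Set.Icc (-((P : ℝ) ^ 61)) ((P : ℝ) ^ 61)).indicator
          (fun _ => C1 * ((P : ℝ) ^ 61 + 3) * (1 / 2) ^ k) t := by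
        rw [Set.indicator_of_mem (Set.mem_Icc.2 (abs_le.1 ht))]
        gcongr
      simp only [g]
      linarith
    · have h1 := hAA t
      have ht' : (P : ℝ) ^ 61 ≤ |t| := le_of_lt (not_le.1 ht)
      have h2 : Real.exp (-(((P : ℝ) ^ 60)⁻¹ ^ 2 * t ^ 2 / 2)) ≤
          Real.exp (-((P : ℝ) ^ 2 / 4)) * Real.exp (-(b * t ^ 2)) := by
        rw [← Real.exp_add]
        apply Real.exp_le_exp.2
        have h3 : ((P : ℝ) ^ 61) ^ 2 ≤ t ^ 2 := by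
          rw [← sq_abs t]
          exact pow_le_pow_left₀ (by positivity) ht' 2
        have h4 : (P : ℝ) ^ 2 / 4 ≤ b * t ^ 2 := by
          rw [hb]
          have h5 : (P : ℝ) ^ 2 = ((P : ℝ) ^ 60)⁻¹ ^ 2 * ((P : ℝ) ^ 61) ^ 2 := by
            field_simp
          rw [h5]
          have h6 : 0 ≤ ((P : ℝ) ^ 60)⁻¹ ^ 2 := by positivity
          nlinarith [mul_le_mul_of_nonneg_left h3 h6]
        have h7 : ((P : ℝ) ^ 60)⁻¹ ^ 2 * t ^ 2 / 2 = 2 * (b * t ^ 2) := by rw [hb]; ring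
        rw [h7]
        linarith
      have h8 : Real.exp (-(((P : ℝ) ^ 60)⁻¹ ^ 2 * t ^ 2 / 2)) * ‖AA a k t‖ ≤
          (Real.exp (-((P : ℝ) ^ 2 / 4)) * Real.exp (-(b * t ^ 2))) * (C2 * (k + 1)) := by
        gcongr
      have h9 : (Real.exp (-((P : ℝ) ^ 2 / 4)) * Real.exp (-(b * t ^ 2))) * (C2 * (k + 1)) =
          C2 * (k + 1) * Real.exp (-((P : ℝ) ^ 2 / 4)) * Real.exp (-(b * t ^ 2)) := by ring
      simp only [g]
      linarith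
  have hint : ∫ t : ℝ, Real.exp (-(((P : ℝ) ^ 60)⁻¹ ^ 2 * t ^ 2 / 2)) * ‖AA a k t‖ ≤ ∫ t, g t :=
    integral_mono_of_nonneg (Filter.Eventually.of_forall fun t => by positivity) hg
      (Filter.Eventually.of_forall hle)
  refine hint.trans ?_
  have hI : ∫ t, g t = (∑ ρ ∈ S, (1 / 2) * X ρ) +
      2 * (P : ℝ) ^ 61 * (C1 * ((P : ℝ) ^ 61 + 3) * (1 / 2) ^ k) +
      C2 * (k + 1) * Real.exp (-((P : ℝ) ^ 2 / 4)) * Real.sqrt (Real.pi / b) := by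
    have q1 : ∫ t, g t = (∫ t, ((∑ ρ ∈ S, (Set.Icc (ρ.im - 1 / 4) (ρ.im + 1 / 4)).indicator (fun _ => X ρ) t) +
      (Set.Icc (-((P : ℝ) ^ 61)) ((P : ℝ) ^ 61)).indicator (fun _ => C1 * ((P : ℝ) ^ 61 + 3) * (1 / 2) ^ k) t)) +
      ∫ t, C2 * (k + 1) * Real.exp (-((P : ℝ) ^ 2 / 4)) * Real.exp (-(b * t ^ 2)) :=
      integral_add (hi12.add hi2) hi3
    rw [q1, integral_add hi12 hi2, integral_finsetSum _ hi1, integral_const_mul]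
    congr 1
    · congr 1
      · refine Finset.sum_congr rfl fun ρ _ => ?_
        rw [integral_indicator measurableSet_Icc, setIntegral_const, smul_eq_mul, Measure.real,
          Real.volume_Icc]
        rw [ENNReal.toReal_ofReal (by norm_num)]
        ring
      · rw [integral_indicator measurableSet_Icc, setIntegral_const, smul_eq_mul, Measure.real,
          Real.volume_Icc]
        rw [ENNReal.toReal_ofReal (by nlinarith [pow_pos hP0 61])]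
        ring
    · have : ∫ t : ℝ, Real.exp (-(b * t ^ 2)) = Real.sqrt (Real.pi / b) := by
        have := integral_gaussian b
        simpa using this
      rw [this]
  rw [hI]
  have hs1 : (∑ ρ ∈ S, (1 / 2) * X ρ) ≤ ∑ ρ ∈ S, X ρ :=
    Finset.sum_le_sum fun ρ hρ => by linarith [hX0 ρ hρ]
  have hs2 : 2 * (P : ℝ) ^ 61 * (C1 * ((P : ℝ) ^ 61 + 3) * (1 / 2) ^ k) ≤
      C1 * (P : ℝ) ^ 129 * (1 / 2) ^ k := by
    have h3 : (P : ℝ) ^ 61 + 3 ≤ (P : ℝ) ^ 63 := by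
      have h61 : (1 : ℝ) ≤ (P : ℝ) ^ 61 := one_le_pow₀ (by linarith)
      have : (P : ℝ) ^ 63 = P ^ 2 * (P : ℝ) ^ 61 := by ring
      rw [this]
      have h4 : (4 : ℝ) ≤ (P : ℝ) ^ 2 := by nlinarith
      nlinarith
    have h4 : 2 * (P : ℝ) ^ 61 * ((P : ℝ) ^ 61 + 3) ≤ (P : ℝ) ^ 129 := by
      calc 2 * (P : ℝ) ^ 61 * ((P : ℝ) ^ 61 + 3) ≤ P * (P : ℝ) ^ 61 * (P : ℝ) ^ 63 := by gcongr
        _ = (P : ℝ) ^ 125 := by ring
        _ ≤ (P : ℝ) ^ 129 := pow_le_pow_right₀ (by linarith) (by norm_num)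
    calc 2 * (P : ℝ) ^ 61 * (C1 * ((P : ℝ) ^ 61 + 3) * (1 / 2) ^ k)
        = C1 * (2 * (P : ℝ) ^ 61 * ((P : ℝ) ^ 61 + 3)) * (1 / 2) ^ k := by ring
      _ ≤ C1 * (P : ℝ) ^ 129 * (1 / 2) ^ k := by gcongr
  have hs3 : Real.sqrt (Real.pi / b) ≤ 4 * (P : ℝ) ^ 60 := by
    rw [Real.sqrt_le_left (by positivity), hb]
    have h1 := Real.pi_lt_four
    have h2 : Real.pi / (((P : ℝ) ^ 60)⁻¹ ^ 2 / 4) = 4 * Real.pi * ((P : ℝ) ^ 60) ^ 2 := by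
      field_simp
    rw [h2, mul_pow]
    have : 0 < ((P : ℝ) ^ 60) ^ 2 := by positivity
    nlinarith
  have hs4 : C2 * (k + 1) * Real.exp (-((P : ℝ) ^ 2 / 4)) * Real.sqrt (Real.pi / b) ≤
      4 * C2 * (k + 1) * (P : ℝ) ^ 60 * Real.exp (-((P : ℝ) ^ 2 / 4)) := by
    calc C2 * (k + 1) * Real.exp (-((P : ℝ) ^ 2 / 4)) * Real.sqrt (Real.pi / b)
        ≤ C2 * (k + 1) * Real.exp (-((P : ℝ) ^ 2 / 4)) * (4 * (P : ℝ) ^ 60) := by gcongr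
      _ = _ := by ring
  linarith

/-- The Gaussian integral of `‖AA‖` in terms of zeros. Proof. Split at `|t| ≤ T₀ = P^61`. For `|t| > T₀` use
`AA_le` and `∫_{|t|>T₀} exp(-θ²t²/2) dt ≤ exp(-P²/4) P^60 · 4` (`θ = P^{-60}`). For `|t| ≤ T₀` use `EF_chi` and
integrate over `t`: every `ρ` with `|Im ρ| ≤ P^62` is counted on an interval of length `1/2`. -/
theorem gauss_int_chi : ∃ C : ℝ, 1 ≤ C ∧ ∀ (P q k : ℕ) [NeZero q] (χ : DirichletCharacter ℂ q), χ ≠ 1 → 2 ≤ P →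
    q ≤ P →
    ∫ t : ℝ, Real.exp (-(((P : ℝ) ^ 60)⁻¹ ^ 2 * t ^ 2 / 2)) *
      ‖AA (fun n => (ArithmeticFunction.vonMangoldt n : ℂ) * χ (n : ZMod q)) k t‖ ≤
      (∑ ρ ∈ ZF χ.LFunction (15 / 16) ((P : ℝ) ^ 62), mul χ.LFunction ρ * ((1 / 16) / (17 / 16 - ρ.re)) ^ (k + 1)) +
      C * (P : ℝ) ^ 130 * (1 / 2) ^ k + C * (k + 1) * (P : ℝ) ^ 60 * Real.exp (-((P : ℝ) ^ 2 / 4)) := by
  obtain ⟨C1, hC1, h1⟩ := EF_chi
  obtain ⟨C2, hC2, h2⟩ := AA_le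
  refine ⟨C1 + 4 * C2, by linarith, fun P q k _ χ hχ hP hq => ?_⟩
  have hP2 : (2 : ℝ) ≤ P := by exact_mod_cast hP
  have hqP : (q : ℝ) ≤ P := by exact_mod_cast hq
  have hq0 : (0 : ℝ) ≤ q := by positivity
  have h3 := PropZ_gauss_aux χ.LFunction (fun n => (ArithmeticFunction.vonMangoldt n : ℂ) * χ (n : ZMod q))
    P k (C1 * q) C2 hP (by positivity) (by linarith) (h1 q χ hχ · k) (fun t => ?_) ?_ ?_
  · refine h3.trans ?_
    have h4 : C1 * q * (P : ℝ) ^ 129 * (1 / 2) ^ k ≤ (C1 + 4 * C2) * (P : ℝ) ^ 130 * (1 / 2) ^ k := by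
      calc C1 * q * (P : ℝ) ^ 129 * (1 / 2) ^ k ≤ (C1 + 4 * C2) * P * (P : ℝ) ^ 129 * (1 / 2) ^ k := by
            gcongr
            linarith
        _ = _ := by ring
    have h5 : 4 * C2 * (k + 1) * (P : ℝ) ^ 60 * Real.exp (-((P : ℝ) ^ 2 / 4)) ≤
        (C1 + 4 * C2) * (k + 1) * (P : ℝ) ^ 60 * Real.exp (-((P : ℝ) ^ 2 / 4)) := by
      gcongr
      linarith
    linarith
  · refine h2 _ (fun n hn => ?_) k t
    have h6 : ‖χ (n : ZMod q)‖ ≤ 1 := DirichletCharacter.norm_le_one χ _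
    have h7 : ArithmeticFunction.vonMangoldt n ≤ Real.log n := ArithmeticFunction.vonMangoldt_le_log
    have h8 : 0 ≤ ArithmeticFunction.vonMangoldt n := ArithmeticFunction.vonMangoldt_nonneg
    rw [norm_mul, Complex.norm_real, Real.norm_of_nonneg h8]
    nlinarith
  · intro T T' hT ρ hρ
    rw [mem_ZF_chi q χ hχ] at hρ ⊢
    exact ⟨hρ.1, hρ.2.1, hρ.2.2.trans hT⟩
  · intro T ρ hρ
    rw [mem_ZF_chi q χ hχ] at hρ
    exact re_lt_one_chi q χ hχ ρ hρ.1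

theorem gauss_int_zt : ∃ C : ℝ, 1 ≤ C ∧ ∀ (P k : ℕ), 2 ≤ P →
    ∫ t : ℝ, Real.exp (-(((P : ℝ) ^ 60)⁻¹ ^ 2 * t ^ 2 / 2)) *
      ‖AA (fun n => (ArithmeticFunction.vonMangoldt n : ℂ) - 1) k t‖ ≤
      (∑ ρ ∈ ZF zt (15 / 16) ((P : ℝ) ^ 62), mul zt ρ * ((1 / 16) / (17 / 16 - ρ.re)) ^ (k + 1)) +
      C * (P : ℝ) ^ 130 * (1 / 2) ^ k + C * (k + 1) * (P : ℝ) ^ 60 * Real.exp (-((P : ℝ) ^ 2 / 4)) := by
  obtain ⟨C1, hC1, h1⟩ := EF_zt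
  obtain ⟨C2, hC2, h2⟩ := AA_le
  refine ⟨C1 + 4 * C2, by linarith, fun P k hP => ?_⟩
  have hP2 : (2 : ℝ) ≤ P := by exact_mod_cast hP
  have h3 := PropZ_gauss_aux zt (fun n => (ArithmeticFunction.vonMangoldt n : ℂ) - 1)
    P k C1 C2 hP (by linarith) (by linarith) (h1 · k) (fun t => ?_) ?_ ?_
  · refine h3.trans ?_
    have h4 : C1 * (P : ℝ) ^ 129 * (1 / 2) ^ k ≤ (C1 + 4 * C2) * (P : ℝ) ^ 130 * (1 / 2) ^ k := by
      have : (P : ℝ) ^ 129 ≤ (P : ℝ) ^ 130 := pow_le_pow_right₀ (by linarith) (by norm_num)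
      gcongr
      linarith
    have h5 : 4 * C2 * (k + 1) * (P : ℝ) ^ 60 * Real.exp (-((P : ℝ) ^ 2 / 4)) ≤
        (C1 + 4 * C2) * (k + 1) * (P : ℝ) ^ 60 * Real.exp (-((P : ℝ) ^ 2 / 4)) := by
      gcongr
      linarith
    linarith
  · refine h2 _ (fun n hn => ?_) k t
    have h7 : ArithmeticFunction.vonMangoldt n ≤ Real.log n := ArithmeticFunction.vonMangoldt_le_log
    have h8 : 0 ≤ ArithmeticFunction.vonMangoldt n := ArithmeticFunction.vonMangoldt_nonneg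
    refine (norm_sub_le _ _).trans ?_
    rw [Complex.norm_real, Real.norm_of_nonneg h8, norm_one]
    linarith
  · intro T T' hT ρ hρ
    rw [mem_ZF_zt] at hρ ⊢
    exact ⟨hρ.1, hρ.2.1, hρ.2.2.trans hT⟩
  · intro T ρ hρ
    rw [mem_ZF_zt] at hρ
    exact re_lt_one_zt ρ hρ.1

private lemma PropZ_x (β L : ℝ) (k : ℕ) (hβ1 : 15 / 16 ≤ β) (hβ2 : β < 1) (hk : L / 17 ≤ k + 1) :
    ((1 / 16) / (17 / 16 - β)) ^ (k + 1) ≤ Real.exp (L * (-((1 - β) / 4))) := by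
  have h1 : 0 < 17 / 16 - β := by linarith
  have h2 : (1 / 16) / (17 / 16 - β) ≤ Real.exp (-(8 * (1 - β))) := by
    have h3 := Real.add_one_le_exp (-(8 * (1 - β)))
    refine le_trans ?_ h3
    rw [div_le_iff₀ h1]
    nlinarith
  calc ((1 / 16) / (17 / 16 - β)) ^ (k + 1) ≤ Real.exp (-(8 * (1 - β))) ^ (k + 1) :=
        pow_le_pow_left₀ (by positivity) h2 _
    _ = Real.exp (((k + 1 : ℕ) : ℝ) * (-(8 * (1 - β)))) := (Real.exp_nat_mul _ _).symm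
    _ ≤ Real.exp (L * (-((1 - β) / 4))) := by
        apply Real.exp_le_exp.2
        push_cast
        nlinarith [mul_le_mul_of_nonneg_right hk (by linarith : (0 : ℝ) ≤ 1 - β)]

private lemma PropZ_E1 (P H v y : ℝ) (Cw : ℝ) (hP : 1 ≤ P) (hH : 0 < H) (hv : 0 < v) (hCw : 0 < Cw)
    (hK1 : 4 * Cw ≤ P) (hv2 : v ≤ 2 * P ^ 20 * H) (hy : y ^ 2 ≤ P) :
    Cw * (v / H) ^ 2 * y ^ 2 * (P ^ 60)⁻¹ ≤ (P ^ 18)⁻¹ := by
  have hP0 : 0 < P := by linarith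
  have h1 : v / H ≤ 2 * P ^ 20 := by
    rw [div_le_iff₀ hH]; linarith
  have h2 : (v / H) ^ 2 ≤ (2 * P ^ 20) ^ 2 := pow_le_pow_left₀ (by positivity) h1 2
  have h3 : 0 < (P ^ 60)⁻¹ := by positivity
  calc Cw * (v / H) ^ 2 * y ^ 2 * (P ^ 60)⁻¹
      ≤ Cw * (2 * P ^ 20) ^ 2 * P * (P ^ 60)⁻¹ := by gcongr
    _ = (4 * Cw) * (P ^ 41 * (P ^ 60)⁻¹) := by ring
    _ ≤ P * (P ^ 41 * (P ^ 60)⁻¹) := by gcongr
    _ = (P ^ 18)⁻¹ := by field_simp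

private lemma PropZ_E2 (P y h : ℝ) (Cw Cg : ℝ) (hP : 1 ≤ P) (hCw : 0 < Cw) (hCg : 0 < Cg)
    (hK2 : 4 * (Cw * Cg) ≤ P) (hy0 : 0 ≤ y) (hy : y ≤ P) (hh : h ≤ 2 * (P ^ 160)⁻¹) :
    Cw * y * (Cg * P ^ 130 * h) ≤ (P ^ 18)⁻¹ := by
  have hP0 : 0 < P := by linarith
  have h0 : 0 < Cw * Cg := by positivity
  calc Cw * y * (Cg * P ^ 130 * h)
      ≤ Cw * y * (Cg * P ^ 130 * (2 * (P ^ 160)⁻¹)) := by gcongr
    _ ≤ Cw * P * (Cg * P ^ 130 * (2 * (P ^ 160)⁻¹)) := by gcongr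
    _ = (2 * (Cw * Cg)) * (P ^ 131 * (P ^ 160)⁻¹) := by ring
    _ ≤ P * (P ^ 131 * (P ^ 160)⁻¹) := by
        gcongr
        linarith
    _ = (P ^ 28)⁻¹ := by field_simp
    _ ≤ (P ^ 18)⁻¹ := by
        apply inv_anti₀ (by positivity)
        exact pow_le_pow_right₀ hP (by norm_num)

private lemma PropZ_E3 (P y h : ℝ) (Cw Cg : ℝ) (hP : 1 ≤ P) (hCw : 0 < Cw) (hCg : 0 < Cg)
    (hK2 : 4 * (Cw * Cg) ≤ P) (hy : y ^ 2 ≤ P) (hh0 : 0 < h) (hh : h ≤ (P ^ 80)⁻¹) :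
    Cw * y * (Cg * y * P ^ 60 * h) ≤ (P ^ 18)⁻¹ := by
  have hP0 : 0 < P := by linarith
  have h0 : 0 < Cw * Cg := by positivity
  calc Cw * y * (Cg * y * P ^ 60 * h) = (Cw * Cg) * (y ^ 2) * P ^ 60 * h := by ring
    _ ≤ P * P * P ^ 60 * (P ^ 80)⁻¹ := by
        gcongr
        linarith
    _ = (P ^ 18)⁻¹ := by field_simp

private lemma PropZ_E4 (P N H v w : ℝ) (Cp : ℝ) (hP : 1 ≤ P) (hCp : 0 < Cp) (hN : 0 < N) (hH : 0 < H)
    (hK3 : 4 * Cp ≤ P) (hv : v ≤ N) (hw : w ^ 2 ≤ P) (hPN : P ^ 80 ≤ N)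
    (hN2 : N ≤ 2 * P ^ 20 * H) :
    Cp * Real.sqrt v * w ^ 2 / H ≤ (P ^ 18)⁻¹ := by
  have hP0 : 0 < P := by linarith
  have h1 : Real.sqrt v ≤ Real.sqrt N := Real.sqrt_le_sqrt hv
  have h3 : P ^ 40 ≤ Real.sqrt N := by
    apply Real.le_sqrt_of_sq_le
    rw [← pow_mul]
    exact hPN
  have h4 : Real.sqrt N * Real.sqrt N = N := Real.mul_self_sqrt hN.le
  have h5 : 0 < Real.sqrt N := Real.sqrt_pos.2 hN
  rw [div_le_iff₀ hH]
  have h6 : Cp * Real.sqrt v * w ^ 2 ≤ Cp * Real.sqrt N * P := by gcongr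
  refine h6.trans ?_
  have h7 : Real.sqrt N * Real.sqrt N ≤ 2 * P ^ 20 * H := by rw [h4]; exact hN2
  have h8 : Cp * P * P ^ 18 * (2 * P ^ 20) ≤ Real.sqrt N := by
    refine le_trans ?_ h3
    calc Cp * P * P ^ 18 * (2 * P ^ 20) = (2 * Cp) * P ^ 39 := by ring
      _ ≤ P * P ^ 39 := by gcongr; linarith
      _ = P ^ 40 := by ring
  have h9 : Cp * Real.sqrt N * P * P ^ 18 ≤ H := by
    have h10 : (Cp * P * P ^ 18 * (2 * P ^ 20)) * Real.sqrt N ≤ 2 * P ^ 20 * H :=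
      (mul_le_mul_of_nonneg_right h8 h5.le).trans h7
    have h11 : 0 < 2 * P ^ 20 := by positivity
    have h12 : (2 * P ^ 20) * (Cp * Real.sqrt N * P * P ^ 18) ≤ 2 * P ^ 20 * H := by
      calc (2 * P ^ 20) * (Cp * Real.sqrt N * P * P ^ 18)
          = (Cp * P * P ^ 18 * (2 * P ^ 20)) * Real.sqrt N := by ring
        _ ≤ _ := h10
    exact le_of_mul_le_mul_left h12 h11
  rw [inv_mul_eq_div, le_div_iff₀ (by positivity)]
  exact h9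

private lemma PropZ_core (f : ℂ → ℂ) (a b : ℕ → ℂ) (N P v k : ℕ) (Cw Cg Cp I : ℝ)
    (hCw : 1 ≤ Cw) (hCg : 1 ≤ Cg) (hCp : 1 ≤ Cp) (hP : 2 ≤ P)
    (hK : 100 * (Cw * Cg * Cp) ≤ P) (hL : 40 ≤ Real.log N) (hL2 : (Real.log N) ^ 2 ≤ P)
    (hPN : (P : ℝ) ^ 4000 ≤ N) (hexp : (P : ℝ) ^ 80 ≤ Real.exp ((P : ℝ) ^ 2 / 4))
    (hv1 : N ≤ v * P ^ 5) (hv2 : v ≤ N) (hk1 : (k : ℝ) ≤ Real.log v / 16) (hk2 : Real.log v / 16 < k + 1)
    (hwin : ‖wnd a (N / P ^ 20) v‖ ≤ Cw * (k + 1) * I +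
        Cw * ((v : ℝ) / ((N / P ^ 20 : ℕ) : ℝ)) ^ 2 * (k + 1) ^ 2 * ((P : ℝ) ^ 60)⁻¹)
    (hI : I ≤ (∑ ρ ∈ ZF f (15 / 16) ((P : ℝ) ^ 62), mul f ρ * ((1 / 16) / (17 / 16 - ρ.re)) ^ (k + 1)) +
      Cg * (P : ℝ) ^ 130 * (1 / 2) ^ k + Cg * (k + 1) * (P : ℝ) ^ 60 * Real.exp (-((P : ℝ) ^ 2 / 4)))
    (hpr : ‖wnd a (N / P ^ 20) v - wnd b (N / P ^ 20) v‖ ≤
      Cp * Real.sqrt v * (Real.log v) ^ 2 / ((N / P ^ 20 : ℕ) : ℝ))
    (hre : ∀ ρ ∈ ZF f (15 / 16) ((P : ℝ) ^ 62), 15 / 16 ≤ ρ.re ∧ ρ.re < 1) :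
    ‖wnd b (N / P ^ 20) v‖ ≤
      Cw * Real.log N * (∑ ρ ∈ ZF f (15 / 16) ((P : ℝ) ^ 62), mul f ρ * (N : ℝ) ^ (-((1 - ρ.re) / 4))) +
        ((P : ℝ) ^ 10)⁻¹ := by
  have hP2 : (2 : ℝ) ≤ P := by exact_mod_cast hP
  have hP0 : (0 : ℝ) < P := by linarith
  have hP1 : (1 : ℝ) ≤ P := by linarith
  have hN0 : (0 : ℝ) < N := lt_of_lt_of_le (by positivity) hPN
  have hNn : 0 < N := by exact_mod_cast hN0
  set L := Real.log N with hLdef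
  set lp := Real.log P with hlp
  have hlp0 : 0 ≤ lp := Real.log_nonneg hP1
  have hLP : 4000 * lp ≤ L := by
    have := Real.log_le_log (by positivity) hPN
    rw [Real.log_pow] at this
    exact_mod_cast this
  set H : ℕ := N / P ^ 20 with hH
  have hPn20 : 0 < P ^ 20 := by positivity
  have hHN : P ^ 20 * H ≤ N := Nat.mul_div_le N (P ^ 20)
  have hNH : N < P ^ 20 * (H + 1) := Nat.lt_mul_div_succ N hPn20
  have hH1 : 1 ≤ H := by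
    rw [hH, Nat.one_le_div_iff hPn20]
    have : ((P ^ 20 : ℕ) : ℝ) ≤ N := by
      push_cast
      exact (pow_le_pow_right₀ hP1 (by norm_num)).trans hPN
    exact_mod_cast this
  have hH1r : (1 : ℝ) ≤ H := by exact_mod_cast hH1
  have hH0 : (0 : ℝ) < H := by linarith
  have hN2 : (N : ℝ) ≤ 2 * (P : ℝ) ^ 20 * H := by
    have h1 : (N : ℝ) < (P : ℝ) ^ 20 * (H + 1) := by exact_mod_cast hNH
    have h2 : (P : ℝ) ^ 20 * (H + 1) ≤ (P : ℝ) ^ 20 * (2 * H) := by gcongr; linarith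
    linarith
  have hv1r : (N : ℝ) ≤ v * (P : ℝ) ^ 5 := by exact_mod_cast hv1
  have hv2r : (v : ℝ) ≤ N := by exact_mod_cast hv2
  have hv0 : (0 : ℝ) < v := by
    by_contra h
    have h1 : (v : ℝ) ≤ 0 := not_lt.1 h
    have : (v : ℝ) * (P : ℝ) ^ 5 ≤ 0 := mul_nonpos_of_nonpos_of_nonneg h1 (by positivity)
    linarith
  have hlv1 : L - 5 * lp ≤ Real.log v := by
    have := Real.log_le_log hN0 hv1r
    rw [Real.log_mul hv0.ne' (by positivity), Real.log_pow] at this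
    push_cast at this
    linarith
  have hlv2 : Real.log v ≤ L := Real.log_le_log hv0 hv2r
  have hlv0 : 0 ≤ Real.log v := by linarith
  have hk3 : L / 17 ≤ k + 1 := by linarith
  have hk4 : (k : ℝ) + 1 ≤ L := by linarith
  have hk0 : (0 : ℝ) ≤ k := by positivity
  have hL1 : 1 ≤ L := by linarith
  have hLleP : L ≤ P := by
    have h1 : L * 1 ≤ L * L := mul_le_mul_of_nonneg_left hL1 (by linarith)
    have h2 : L * L = L ^ 2 := by ring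
    linarith
  have hk5 : ((k : ℝ) + 1) ^ 2 ≤ P := by
    refine le_trans ?_ hL2
    exact pow_le_pow_left₀ (by linarith) hk4 2
  -- powers of one half
  have hhalf : (1 / 2 : ℝ) ^ k ≤ 2 * ((P : ℝ) ^ 160)⁻¹ := by
    have h1 : (1 / 2 : ℝ) ^ (k + 1) ≤ ((P : ℝ) ^ 160)⁻¹ := by
      have e1 : (1 / 2 : ℝ) ^ (k + 1) = Real.exp (-(((k + 1 : ℕ) : ℝ) * Real.log 2)) := by
        rw [Real.exp_neg, Real.exp_nat_mul, Real.exp_log (by norm_num)]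
        rw [one_div, inv_pow]
      have e2 : ((P : ℝ) ^ 160)⁻¹ = Real.exp (-(((160 : ℕ) : ℝ) * lp)) := by
        rw [Real.exp_neg, Real.exp_nat_mul, Real.exp_log hP0]
      rw [e1, e2]
      apply Real.exp_le_exp.2
      apply neg_le_neg
      push_cast
      have h2 : (0.69 : ℝ) ≤ Real.log 2 := by linarith [Real.log_two_gt_d9]
      have h3 : ((k : ℝ) + 1) * 0.69 ≤ (k + 1) * Real.log 2 :=
        mul_le_mul_of_nonneg_left h2 (by linarith)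
      linarith
    rw [pow_succ] at h1
    linarith
  -- constants
  have hCw0 : 0 < Cw := by linarith
  have hCg0 : 0 < Cg := by linarith
  have hCp0 : 0 < Cp := by linarith
  have hK1 : 4 * Cw ≤ P := by
    have : Cw ≤ Cw * Cg * Cp := by
      calc Cw = Cw * 1 * 1 := by ring
        _ ≤ Cw * Cg * Cp := by gcongr
    linarith
  have hK2 : 4 * (Cw * Cg) ≤ P := by
    have : Cw * Cg ≤ Cw * Cg * Cp := by
      calc Cw * Cg = Cw * Cg * 1 := by ring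
        _ ≤ Cw * Cg * Cp := by gcongr
    have h0 : 0 < Cw * Cg := by positivity
    linarith
  have hK3 : 4 * Cp ≤ P := by
    have : Cp ≤ Cw * Cg * Cp := by
      calc Cp = 1 * 1 * Cp := by ring
        _ ≤ Cw * Cg * Cp := by gcongr
    linarith
  have hv3 : (v : ℝ) ≤ 2 * (P : ℝ) ^ 20 * H := hv2r.trans hN2
  have hE1 : Cw * ((v : ℝ) / (H : ℝ)) ^ 2 * (k + 1) ^ 2 * ((P : ℝ) ^ 60)⁻¹ ≤ ((P : ℝ) ^ 18)⁻¹ :=
    PropZ_E1 P H v (k + 1) Cw hP1 hH0 hv0 hCw0 hK1 hv3 hk5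
  have hE2 : Cw * (k + 1) * (Cg * (P : ℝ) ^ 130 * (1 / 2) ^ k) ≤ ((P : ℝ) ^ 18)⁻¹ :=
    PropZ_E2 P (k + 1) _ Cw Cg hP1 hCw0 hCg0 hK2 (by linarith) (hk4.trans hLleP) hhalf
  have hE3 : Cw * (k + 1) * (Cg * (k + 1) * (P : ℝ) ^ 60 * Real.exp (-((P : ℝ) ^ 2 / 4))) ≤
      ((P : ℝ) ^ 18)⁻¹ := by
    have h1 : Real.exp (-((P : ℝ) ^ 2 / 4)) ≤ ((P : ℝ) ^ 80)⁻¹ := by
      rw [Real.exp_neg]
      exact inv_anti₀ (pow_pos hP0 _) hexp
    exact PropZ_E3 P (k + 1) _ Cw Cg hP1 hCw0 hCg0 hK2 hk5 (Real.exp_pos _) h1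
  have hE4 : Cp * Real.sqrt v * (Real.log v) ^ 2 / (H : ℝ) ≤ ((P : ℝ) ^ 18)⁻¹ :=
    PropZ_E4 P N H v _ Cp hP1 hCp0 hN0 hH0 hK3 hv2r ((pow_le_pow_left₀ hlv0 hlv2 2).trans hL2)
      ((pow_le_pow_right₀ hP1 (by norm_num)).trans hPN) hN2
  -- main term
  have hM : Cw * (k + 1) * (∑ ρ ∈ ZF f (15 / 16) ((P : ℝ) ^ 62), mul f ρ * ((1 / 16) / (17 / 16 - ρ.re)) ^ (k + 1)) ≤
      Cw * L * (∑ ρ ∈ ZF f (15 / 16) ((P : ℝ) ^ 62), mul f ρ * (N : ℝ) ^ (-((1 - ρ.re) / 4))) := by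
    have h1 : (∑ ρ ∈ ZF f (15 / 16) ((P : ℝ) ^ 62), mul f ρ * ((1 / 16) / (17 / 16 - ρ.re)) ^ (k + 1)) ≤
        (∑ ρ ∈ ZF f (15 / 16) ((P : ℝ) ^ 62), mul f ρ * (N : ℝ) ^ (-((1 - ρ.re) / 4))) := by
      refine Finset.sum_le_sum fun ρ hρ => ?_
      obtain ⟨h2, h3⟩ := hre ρ hρ
      have h4 := PropZ_x ρ.re L k h2 h3 hk3
      rw [Real.rpow_def_of_pos hN0]
      have h5 : 0 ≤ mul f ρ := by unfold mul; positivity
      exact mul_le_mul_of_nonneg_left h4 h5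
    have h0 : 0 ≤ (∑ ρ ∈ ZF f (15 / 16) ((P : ℝ) ^ 62), mul f ρ * (N : ℝ) ^ (-((1 - ρ.re) / 4))) :=
      Finset.sum_nonneg fun ρ _ => by unfold mul; positivity
    calc Cw * (k + 1) * (∑ ρ ∈ ZF f (15 / 16) ((P : ℝ) ^ 62), mul f ρ * ((1 / 16) / (17 / 16 - ρ.re)) ^ (k + 1))
        ≤ Cw * (k + 1) * (∑ ρ ∈ ZF f (15 / 16) ((P : ℝ) ^ 62), mul f ρ * (N : ℝ) ^ (-((1 - ρ.re) / 4))) := by gcongr
      _ ≤ _ := by gcongr
  have hIle : Cw * (k + 1) * I ≤ Cw * (k + 1) *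
      ((∑ ρ ∈ ZF f (15 / 16) ((P : ℝ) ^ 62), mul f ρ * ((1 / 16) / (17 / 16 - ρ.re)) ^ (k + 1)) +
      Cg * (P : ℝ) ^ 130 * (1 / 2) ^ k + Cg * (k + 1) * (P : ℝ) ^ 60 * Real.exp (-((P : ℝ) ^ 2 / 4))) :=
    mul_le_mul_of_nonneg_left hI (by positivity)
  have h4 : 4 * ((P : ℝ) ^ 18)⁻¹ ≤ ((P : ℝ) ^ 10)⁻¹ := by
    have : ((P : ℝ) ^ 10)⁻¹ = (P : ℝ) ^ 8 * ((P : ℝ) ^ 18)⁻¹ := by field_simp
    rw [this]
    have h5 : (4 : ℝ) ≤ (P : ℝ) ^ 8 := by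
      have : (2 : ℝ) ^ 8 ≤ (P : ℝ) ^ 8 := pow_le_pow_left₀ (by norm_num) hP2 8
      linarith [show (2 : ℝ) ^ 8 = 256 by norm_num]
    gcongr
  have htri : ‖wnd b H v‖ ≤ ‖wnd a H v‖ + ‖wnd a H v - wnd b H v‖ := by
    have : wnd b H v = wnd a H v - (wnd a H v - wnd b H v) := by ring
    calc ‖wnd b H v‖ = ‖wnd a H v - (wnd a H v - wnd b H v)‖ := by rw [← this]
      _ ≤ _ := norm_sub_le _ _
  have hdist : Cw * (k + 1) *
      ((∑ ρ ∈ ZF f (15 / 16) ((P : ℝ) ^ 62), mul f ρ * ((1 / 16) / (17 / 16 - ρ.re)) ^ (k + 1)) +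
      Cg * (P : ℝ) ^ 130 * (1 / 2) ^ k + Cg * (k + 1) * (P : ℝ) ^ 60 * Real.exp (-((P : ℝ) ^ 2 / 4))) =
      Cw * (k + 1) * (∑ ρ ∈ ZF f (15 / 16) ((P : ℝ) ^ 62), mul f ρ * ((1 / 16) / (17 / 16 - ρ.re)) ^ (k + 1)) +
      Cw * (k + 1) * (Cg * (P : ℝ) ^ 130 * (1 / 2) ^ k) +
      Cw * (k + 1) * (Cg * (k + 1) * (P : ℝ) ^ 60 * Real.exp (-((P : ℝ) ^ 2 / 4))) := by ring
  linarith

private lemma PropZ_params (c K M : ℝ) : ∃ N₀ : ℕ, ∀ N P : ℕ, N₀ ≤ N →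
    Real.exp ((Real.log N) ^ (3 / 4 : ℝ)) ≤ P →
    (P : ℝ) ≤ Real.exp (c * Real.log N / Real.log (Real.log N)) →
    K ≤ P ∧ K ≤ Real.log N ∧ (Real.log N) ^ M ≤ P ∧ (P : ℝ) ^ 4000 ≤ N ∧
      (P : ℝ) ^ 80 ≤ Real.exp ((P : ℝ) ^ 2 / 4) := by
  have t1 : Filter.Tendsto (fun N : ℕ => Real.log (N : ℝ)) Filter.atTop Filter.atTop :=
    Real.tendsto_log_atTop.comp tendsto_natCast_atTop_atTop
  have t2 : Filter.Tendsto (fun N : ℕ => (Real.log (N : ℝ)) ^ (3 / 4 : ℝ)) Filter.atTop Filter.atTop :=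
    (tendsto_rpow_atTop (by norm_num)).comp t1
  have t3 : Filter.Tendsto (fun N : ℕ => Real.log (Real.log (N : ℝ))) Filter.atTop Filter.atTop :=
    Real.tendsto_log_atTop.comp t1
  -- exp (P^2/4) ≥ P^80 for large P
  have e0 : ∀ᶠ p : ℝ in Filter.atTop, p ^ 80 ≤ Real.exp (p ^ 2 / 4) := by
    have h1 := (Real.tendsto_exp_div_pow_atTop 80)
    have h2 := h1.eventually_ge_atTop 1
    filter_upwards [h2, Filter.eventually_ge_atTop (4 : ℝ)] with p hp hp4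
    rw [le_div_iff₀ (by positivity), one_mul] at hp
    refine hp.trans (Real.exp_le_exp.2 ?_)
    nlinarith
  obtain ⟨p₀, hp₀⟩ := Filter.eventually_atTop.1 e0
  -- powers
  have e1 : ∀ᶠ y : ℝ in Filter.atTop, y ^ (4 / 3 * M : ℝ) ≤ Real.exp y := by
    have h1 := tendsto_exp_div_rpow_atTop (4 / 3 * M)
    filter_upwards [h1.eventually_ge_atTop 1, Filter.eventually_gt_atTop (0 : ℝ)] with y hy hy0
    rwa [le_div_iff₀ (by positivity), one_mul] at hy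
  have e2 : ∀ᶠ y : ℝ in Filter.atTop, max K p₀ ≤ Real.exp y :=
    Real.tendsto_exp_atTop.eventually_ge_atTop _
  have hev : ∀ᶠ N : ℕ in Filter.atTop, (K ≤ Real.log N ∧ 1 ≤ Real.log N ∧ 1 ≤ Real.log (Real.log N) ∧
      4000 * c ≤ Real.log (Real.log N)) ∧
      ((Real.log (N : ℝ)) ^ (3 / 4 : ℝ)) ^ (4 / 3 * M : ℝ) ≤ Real.exp ((Real.log (N : ℝ)) ^ (3 / 4 : ℝ)) ∧
      max K p₀ ≤ Real.exp ((Real.log (N : ℝ)) ^ (3 / 4 : ℝ)) ∧ 1 ≤ N := by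
    filter_upwards [t1.eventually_ge_atTop K, t1.eventually_ge_atTop 1, t3.eventually_ge_atTop 1,
      t3.eventually_ge_atTop (4000 * c), t2.eventually e1, t2.eventually e2,
      Filter.eventually_ge_atTop 1] with N h1 h2 h3 h4 h5 h6 h7
    exact ⟨⟨h1, h2, h3, h4⟩, h5, h6, h7⟩
  obtain ⟨N₀, hN₀⟩ := Filter.eventually_atTop.1 hev
  refine ⟨N₀, fun N P hN hP1 hP2 => ?_⟩
  obtain ⟨⟨h1, h2, h3, h4⟩, h5, h6, h7⟩ := hN₀ N hN
  have hN0 : (0 : ℝ) < N := by exact_mod_cast h7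
  refine ⟨(le_max_left _ _).trans (h6.trans hP1), h1, ?_, ?_, ?_⟩
  · rw [← Real.rpow_mul (by linarith)] at h5
    have : (3 / 4 : ℝ) * (4 / 3 * M) = M := by ring
    rw [this] at h5
    exact h5.trans hP1
  · calc (P : ℝ) ^ 4000 ≤ (Real.exp (c * Real.log N / Real.log (Real.log N))) ^ 4000 :=
          pow_le_pow_left₀ (by positivity) hP2 _
      _ = Real.exp (((4000 : ℕ) : ℝ) * (c * Real.log N / Real.log (Real.log N))) :=
          (Real.exp_nat_mul _ _).symm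
      _ ≤ Real.exp (Real.log N) := by
          apply Real.exp_le_exp.2
          rw [← mul_div_assoc, div_le_iff₀ (by linarith)]
          push_cast
          have h8 : 4000 * c * Real.log N ≤ Real.log (Real.log N) * Real.log N :=
            mul_le_mul_of_nonneg_right h4 (by linarith)
          linarith
      _ = N := Real.exp_log hN0
  · exact hp₀ _ ((le_max_right _ _).trans (h6.trans hP1))

private lemma PropZ_sqrt (S : Finset ℂ) (m y z : ℂ → ℝ) (a b : ℝ) (ha : 0 ≤ a) (hb : 0 ≤ b)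
    (hm : ∀ i ∈ S, 1 ≤ m i) (hz : ∀ i ∈ S, 0 ≤ z i) (hy : ∀ i ∈ S, y i = z i ^ 2) :
    Real.sqrt (a * (∑ i ∈ S, m i * y i) + b ^ 2) ≤ Real.sqrt a * (∑ i ∈ S, m i * z i) + b := by
  have h0 : 0 ≤ ∑ i ∈ S, m i * z i :=
    Finset.sum_nonneg fun i hi => mul_nonneg (by linarith [hm i hi]) (hz i hi)
  have h1 : ∑ i ∈ S, m i * y i ≤ (∑ i ∈ S, m i * z i) ^ 2 := by
    refine le_trans ?_ (Finset.sum_sq_le_sq_sum_of_nonneg (s := S) (f := fun i => m i * z i)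
      (fun i hi => mul_nonneg (by linarith [hm i hi]) (hz i hi)))
    refine Finset.sum_le_sum fun i hi => ?_
    rw [hy i hi, mul_pow]
    have h3 := hm i hi
    have h4 : m i ≤ m i ^ 2 := by nlinarith
    exact mul_le_mul_of_nonneg_right h4 (sq_nonneg (z i))
  rw [Real.sqrt_le_left (by positivity)]
  have h2 : Real.sqrt a ^ 2 = a := Real.sq_sqrt ha
  have h3 : 0 ≤ Real.sqrt a := Real.sqrt_nonneg a
  calc a * (∑ i ∈ S, m i * y i) + b ^ 2 ≤ a * (∑ i ∈ S, m i * z i) ^ 2 + b ^ 2 := by gcongr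
    _ = (Real.sqrt a * (∑ i ∈ S, m i * z i)) ^ 2 + b ^ 2 := by rw [mul_pow, h2]
    _ ≤ (Real.sqrt a * (∑ i ∈ S, m i * z i) + b) ^ 2 := by
      nlinarith [mul_nonneg (mul_nonneg h3 h0) hb]

private lemma PropZ_rpow (N β : ℝ) (hN : 0 < N) : N ^ (-((1 - β) / 4)) = (N ^ (-((1 - β) / 8))) ^ 2 := by
  rw [← Real.rpow_natCast, ← Real.rpow_mul hN.le]
  congr 1
  push_cast
  ring

open Classical in
/-- Proof. Put `H = N / P^20`, `θ = P^{-60}`, `T = P^62` in `sumZ` (with `A + 2` in place of `A`), and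
`D x = C log N ∑_{ρ ∈ ZF (LL x) (15/16) T} m_ρ N^{-(1-Re ρ)/4} + P^{-10}` for `x ≠ ch1`, the same with `zt` for `ch1`.
For `N ≤ v P^5`, `v ≤ N` take `k = ⌊log v / 16⌋`: `k + 1 ≥ log N / 17`, so
`((1/16)/(17/16-β))^{k+1} = (1+16(1-β))^{-(k+1)} ≤ exp(-8(1-β)(k+1)) ≤ N^{-(1-β)/4}`
(`1+y ≥ e^{y/2}` on `[0,1]`). By `wnd_prime`, `window`, `gauss_int_chi`:
`‖wnd (aP χ) H v‖ ≤ D x` (the error terms: `P^130 2^{-k} ≤ P^130 N^{-1/30}`,
`(v/H)² (k+1)² θ ≤ 4 P^40 (log N)² P^{-60}`, `√v log² v / H ≤ P^21 N^{-1/2} ..`, all `≤ P^{-11}`).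
Finally `√(a+b) ≤ √a + √b`, `√(∑ m_ρ y_ρ) ≤ ∑ m_ρ √y_ρ` (`m_ρ ≥ 1`), `card_prims_le`. -/
theorem propZ (A : ℝ) : ∃ c : ℝ, 0 < c ∧ ∀ R : ℕ, ∃ N₀ : ℕ, ∀ N P : ℕ, N₀ ≤ N →
    Real.exp ((Real.log N) ^ (3 / 4 : ℝ)) ≤ P →
    (P : ℝ) ≤ Real.exp (c * Real.log N / Real.log (Real.log N)) →
    ∃ (e : CH) (D : CH → ℝ), e.1 ≠ 0 ∧ e.2 ^ 2 = 1 ∧ e.2.IsPrimitive ∧ (e = ch1 ∨ (e ∈ prims P ∧ R ≤ e.1)) ∧
      (∀ x, 0 ≤ D x) ∧
      (∀ x ∈ prims P, x ≠ ch1 → ∀ v : ℕ, N ≤ v * P ^ 5 → v ≤ N →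
        ‖wnd (fun m => (aP P m : ℂ) * x.2 (m : ZMod x.1)) (N / P ^ 20) v‖ ≤ D x) ∧
      (∀ v : ℕ, N ≤ v * P ^ 5 → v ≤ N →
        ‖wnd (fun m => (aP P m : ℂ) - 1) (N / P ^ 20) v‖ ≤ D ch1) ∧
      Real.sqrt (D ch1) ≤ (Real.log N) ^ (-A) ∧
      ∑ x ∈ (prims P).filter (fun x => x ≠ e ∧ x ≠ ch1), Real.sqrt (D x) ≤ (Real.log N) ^ (-A) := by
  obtain ⟨c, hc, hsum⟩ := sumZ (A + 2)
  obtain ⟨Cw, hCw, hwin⟩ := window
  obtain ⟨Cp, hCp, hpr⟩ := wnd_prime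
  obtain ⟨C1, hC1, hg1⟩ := gauss_int_chi
  obtain ⟨C2, hC2, hg2⟩ := gauss_int_zt
  set Cg : ℝ := C1 + C2 with hCg
  have hCg1 : 1 ≤ Cg := by linarith
  refine ⟨c, hc, fun R => ?_⟩
  obtain ⟨N₁, hN₁⟩ := hsum R
  obtain ⟨N₂, hN₂⟩ := PropZ_params c (100 * (Cw * Cg * Cp) + 100) (|A| + 2)
  refine ⟨max N₁ N₂, fun N P hN hP1 hP2 => ?_⟩
  obtain ⟨p1, p2, p3, p4, p5⟩ := hN₂ N P ((le_max_right _ _).trans hN) hP1 hP2
  have hCCC : 1 ≤ Cw * Cg * Cp := by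
    calc (1 : ℝ) = 1 * 1 * 1 := by norm_num
      _ ≤ Cw * Cg * Cp := by gcongr
  have hPr : (200 : ℝ) ≤ P := by linarith
  have hP0 : (0 : ℝ) < P := by linarith
  have hPone : (1 : ℝ) ≤ P := by linarith
  have hPn : 2 ≤ P := by
    have : (2 : ℝ) ≤ P := by linarith
    exact_mod_cast this
  have hL : 200 ≤ Real.log N := by linarith
  have hL0 : 0 < Real.log N := by linarith
  have hN0 : (0 : ℝ) < N := lt_of_lt_of_le (pow_pos hP0 _) p4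
  have hT2 : (2 : ℝ) ≤ (P : ℝ) ^ 62 := by
    have : (P : ℝ) ^ 1 ≤ (P : ℝ) ^ 62 := pow_le_pow_right₀ hPone (by norm_num)
    linarith
  obtain ⟨hz1, e, he0, he1, he2, he3, hz2⟩ := hN₁ N P ((P : ℝ) ^ 62) ((le_max_left _ _).trans hN) hP1 hP2 hT2
    (pow_le_pow_right₀ hPone (by norm_num))
  have hL2 : (Real.log N) ^ 2 ≤ P := by
    refine le_trans ?_ p3
    rw [← Real.rpow_natCast]
    apply Real.rpow_le_rpow_of_exponent_le (by linarith)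
    push_cast
    linarith [abs_nonneg A]
  -- window facts for all v
  have hwf : ∀ v : ℕ, N ≤ v * P ^ 5 → v ≤ N → 1 ≤ N / P ^ 20 ∧ 4 * (N / P ^ 20) ≤ v ∧ P + N / P ^ 20 ≤ v ∧
      32 ≤ Real.log v ∧ 2 ≤ v := by
    intro v hv1 hv2
    have hPn20 : 0 < P ^ 20 := by positivity
    have hHN : P ^ 20 * (N / P ^ 20) ≤ N := Nat.mul_div_le N (P ^ 20)
    have a1 : 1 ≤ N / P ^ 20 := by
      rw [Nat.one_le_div_iff hPn20]
      have : ((P ^ 20 : ℕ) : ℝ) ≤ N := by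
        push_cast
        exact (pow_le_pow_right₀ hPone (by norm_num)).trans p4
      exact_mod_cast this
    have a2 : P ^ 15 * (N / P ^ 20) ≤ v := by
      have h1 : P ^ 5 * (P ^ 15 * (N / P ^ 20)) ≤ P ^ 5 * v := by
        calc P ^ 5 * (P ^ 15 * (N / P ^ 20)) = P ^ 20 * (N / P ^ 20) := by ring
          _ ≤ N := hHN
          _ ≤ v * P ^ 5 := hv1
          _ = P ^ 5 * v := by ring
      exact Nat.le_of_mul_le_mul_left h1 (by positivity)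
    have a3 : 4 * (N / P ^ 20) ≤ P ^ 15 * (N / P ^ 20) := by
      apply Nat.mul_le_mul_right
      calc 4 = 2 ^ 2 := by norm_num
        _ ≤ P ^ 2 := Nat.pow_le_pow_left hPn 2
        _ ≤ P ^ 15 := Nat.pow_le_pow_right (by omega) (by norm_num)
    have a4 : (P : ℝ) ^ 100 ≤ v := by
      have h1 : (N : ℝ) ≤ v * (P : ℝ) ^ 5 := by exact_mod_cast hv1
      have h2 : (P : ℝ) ^ 100 * (P : ℝ) ^ 5 ≤ v * (P : ℝ) ^ 5 := by
        rw [← pow_add]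
        exact ((pow_le_pow_right₀ hPone (by norm_num)).trans p4).trans h1
      exact le_of_mul_le_mul_right h2 (pow_pos hP0 _)
    have a5 : (P : ℝ) ^ 2 ≤ v := (pow_le_pow_right₀ hPone (by norm_num)).trans a4
    have a6 : 2 * P ≤ v := by
      have : 2 * (P : ℝ) ≤ v := by
        have : (P : ℝ) ^ 2 = P * P := by ring
        nlinarith
      exact_mod_cast this
    refine ⟨a1, a3.trans a2, by omega, ?_, by omega⟩
    have h3 := Real.log_le_log (pow_pos hP0 100) a4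
    rw [Real.log_pow] at h3
    have h4 : (1 : ℝ) ≤ Real.log P := by
      rw [Real.le_log_iff_exp_le hP0]
      linarith [Real.exp_one_lt_three]
    push_cast at h3
    linarith
  have hkf : ∀ v : ℕ, N ≤ v * P ^ 5 → v ≤ N →
      ((⌊Real.log v / 16⌋₊ : ℕ) : ℝ) ≤ Real.log v / 16 ∧ Real.log v / 16 < (⌊Real.log v / 16⌋₊ : ℕ) + 1 := by
    intro v hv1 hv2
    have := (hwf v hv1 hv2).2.2.2.1
    exact ⟨Nat.floor_le (by positivity), Nat.lt_floor_add_one _⟩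
  have hθ0 : 0 < ((P : ℝ) ^ 60)⁻¹ := inv_pos.2 (pow_pos hP0 _)
  have hθ1 : ((P : ℝ) ^ 60)⁻¹ ≤ 1 := inv_le_one_of_one_le₀ (one_le_pow₀ hPone)
  let D : CH → ℝ := fun x =>
    if x = ch1 then Cw * Real.log N *
      (∑ ρ ∈ ZF zt (15 / 16) ((P : ℝ) ^ 62), mul zt ρ * (N : ℝ) ^ (-((1 - ρ.re) / 4))) + ((P : ℝ) ^ 10)⁻¹
    else Cw * Real.log N *
      (∑ ρ ∈ ZF (LL x) (15 / 16) ((P : ℝ) ^ 62), mul (LL x) ρ * (N : ℝ) ^ (-((1 - ρ.re) / 4))) +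
        ((P : ℝ) ^ 10)⁻¹
  have hS0 : ∀ f : ℂ → ℂ, 0 ≤ Cw * Real.log N *
      (∑ ρ ∈ ZF f (15 / 16) ((P : ℝ) ^ 62), mul f ρ * (N : ℝ) ^ (-((1 - ρ.re) / 4))) + ((P : ℝ) ^ 10)⁻¹ := by
    intro f
    have h1 : 0 ≤ (∑ ρ ∈ ZF f (15 / 16) ((P : ℝ) ^ 62), mul f ρ * (N : ℝ) ^ (-((1 - ρ.re) / 4))) :=
      Finset.sum_nonneg fun ρ _ => by unfold mul; positivity
    have h2 : 0 ≤ Cw * Real.log N := by positivity
    have h3 : 0 ≤ ((P : ℝ) ^ 10)⁻¹ := inv_nonneg.2 (pow_nonneg hP0.le _)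
    have := mul_nonneg h2 h1
    linarith
  -- square roots
  have hsq : ∀ f : ℂ → ℂ, (∀ ρ ∈ ZF f (15 / 16) ((P : ℝ) ^ 62), 1 ≤ mul f ρ) →
      Real.sqrt (Cw * Real.log N *
      (∑ ρ ∈ ZF f (15 / 16) ((P : ℝ) ^ 62), mul f ρ * (N : ℝ) ^ (-((1 - ρ.re) / 4))) + ((P : ℝ) ^ 10)⁻¹) ≤
      Cw * Real.log N * (∑ ρ ∈ ZF f (15 / 16) ((P : ℝ) ^ 62), mul f ρ * (N : ℝ) ^ (-((1 - ρ.re) / 8))) +
        ((P : ℝ) ^ 5)⁻¹ := by
    intro f hf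
    have h1 := PropZ_sqrt (ZF f (15 / 16) ((P : ℝ) ^ 62)) (mul f) (fun ρ => (N : ℝ) ^ (-((1 - ρ.re) / 4)))
      (fun ρ => (N : ℝ) ^ (-((1 - ρ.re) / 8))) (Cw * Real.log N) (((P : ℝ) ^ 5)⁻¹) (by positivity)
      (inv_nonneg.2 (pow_nonneg hP0.le _)) hf (fun _ _ => Real.rpow_nonneg hN0.le _)
      (fun ρ _ => PropZ_rpow N ρ.re hN0)
    have h2 : (((P : ℝ) ^ 5)⁻¹) ^ 2 = ((P : ℝ) ^ 10)⁻¹ := by rw [inv_pow, ← pow_mul]
    rw [h2] at h1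
    refine h1.trans ?_
    have h3 : 1 ≤ Cw * Real.log N := by nlinarith
    have h4 : Real.sqrt (Cw * Real.log N) ≤ Cw * Real.log N := by
      rw [Real.sqrt_le_left (by linarith)]
      nlinarith
    have h5 : 0 ≤ (∑ ρ ∈ ZF f (15 / 16) ((P : ℝ) ^ 62), mul f ρ * (N : ℝ) ^ (-((1 - ρ.re) / 8))) :=
      Finset.sum_nonneg fun ρ _ => by unfold mul; positivity
    have := mul_le_mul_of_nonneg_right h4 h5
    linarith
  have hA1 : Cw * Real.log N * (Real.log N) ^ (-(A + 2)) ≤ (1 / 2) * (Real.log N) ^ (-A) := by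
    have h1 : (Real.log N) ^ (-(A + 2)) = (Real.log N) ^ (-A) * (Real.log N ^ 2)⁻¹ := by
      rw [show -(A + 2) = -A + (-2) by ring, Real.rpow_add hL0, Real.rpow_neg hL0.le (2 : ℝ)]
      norm_num
    rw [h1]
    have h2 : 0 < (Real.log N) ^ (-A) := Real.rpow_pos_of_pos hL0 _
    have h3 : Cw * Real.log N * (Real.log N ^ 2)⁻¹ ≤ 1 / 2 := by
      rw [← div_eq_mul_inv, div_le_iff₀ (by positivity)]
      have h4 : 2 * Cw ≤ Real.log N := by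
        have : Cw ≤ Cw * Cg * Cp := by
          calc Cw = Cw * 1 * 1 := by ring
            _ ≤ Cw * Cg * Cp := by gcongr
        linarith
      nlinarith
    calc Cw * Real.log N * ((Real.log N) ^ (-A) * (Real.log N ^ 2)⁻¹)
        = (Cw * Real.log N * (Real.log N ^ 2)⁻¹) * (Real.log N) ^ (-A) := by ring
      _ ≤ (1 / 2) * (Real.log N) ^ (-A) := by gcongr
  have hA2 : (P : ℝ)⁻¹ ≤ (1 / 2) * (Real.log N) ^ (-A) := by
    have h1 : 2 * (Real.log N) ^ A ≤ P := by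
      refine le_trans ?_ p3
      have h2 : (Real.log N) ^ A ≤ (Real.log N) ^ |A| :=
        Real.rpow_le_rpow_of_exponent_le (by linarith) (le_abs_self A)
      have h3 : (Real.log N) ^ (|A| + 2) = (Real.log N) ^ |A| * (Real.log N) ^ 2 := by
        rw [Real.rpow_add hL0]
        norm_num
      rw [h3]
      have h4 : 0 < (Real.log N) ^ |A| := Real.rpow_pos_of_pos hL0 _
      have h6 : (2 : ℝ) ≤ (Real.log N) ^ 2 := by nlinarith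
      have h7 : (Real.log N) ^ |A| * 2 ≤ (Real.log N) ^ |A| * (Real.log N) ^ 2 :=
        mul_le_mul_of_nonneg_left h6 h4.le
      linarith
    have h5 : 0 < (Real.log N) ^ A := Real.rpow_pos_of_pos hL0 _
    rw [Real.rpow_neg hL0.le, inv_eq_one_div, div_le_iff₀ hP0]
    rw [mul_assoc, inv_mul_eq_div]
    rw [mul_div_assoc', le_div_iff₀ h5]
    linarith
  refine ⟨e, D, he0, he1, he2, he3, fun x => ?_, fun x hx hx1 v hv1 hv2 => ?_, fun v hv1 hv2 => ?_, ?_, ?_⟩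
  · simp only [D]
    split_ifs
    · exact hS0 _
    · exact hS0 _
  · -- characters
    obtain ⟨q, χ⟩ := x
    have hχ := prims_ne_one P _ hx hx1
    obtain ⟨hq1, hq2, hq3⟩ := (mem_prims P _).1 hx
    simp only at hχ hq1 hq2 hq3
    have : NeZero q := ⟨by omega⟩
    obtain ⟨w1, w2, w3, w4, w5⟩ := hwf v hv1 hv2
    obtain ⟨k1, k2⟩ := hkf v hv1 hv2
    simp only [D]
    rw [if_neg hx1, LL_mk]
    refine PropZ_core χ.LFunction (fun m => (ArithmeticFunction.vonMangoldt m : ℂ) * χ (m : ZMod q))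
      (fun m => (aP P m : ℂ) * χ (m : ZMod q)) N P v ⌊Real.log v / 16⌋₊ Cw Cg Cp _ hCw hCg1 hCp hPn
      (by linarith) (by linarith) hL2 p4 p5 hv1 hv2 k1 k2
      (hwin _ (fun n hn => ?_) v (N / P ^ 20) ⌊Real.log v / 16⌋₊ ((P : ℝ) ^ 60)⁻¹ w1 w2 w4 k1 k2 hθ0 hθ1)
      ((hg1 P q ⌊Real.log v / 16⌋₊ χ hχ hPn hq2).trans ?_)
      (hpr P (N / P ^ 20) v (fun m => χ (m : ZMod q)) w1 w3 w5 (fun m => DirichletCharacter.norm_le_one χ _))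
      (fun ρ hρ => ?_)
    · have h6 : ‖χ (n : ZMod q)‖ ≤ 1 := DirichletCharacter.norm_le_one χ _
      have h7 : ArithmeticFunction.vonMangoldt n ≤ Real.log n := ArithmeticFunction.vonMangoldt_le_log
      have h8 : 0 ≤ ArithmeticFunction.vonMangoldt n := ArithmeticFunction.vonMangoldt_nonneg
      rw [norm_mul, Complex.norm_real, Real.norm_of_nonneg h8]
      nlinarith
    · have h9 : C1 ≤ Cg := by linarith
      have h10 : 0 ≤ (1 / 2 : ℝ) ^ ⌊Real.log v / 16⌋₊ := by positivity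
      gcongr
    · rw [mem_ZF_chi q χ hχ] at hρ
      exact ⟨hρ.2.1, re_lt_one_chi q χ hχ ρ hρ.1⟩
  · obtain ⟨w1, w2, w3, w4, w5⟩ := hwf v hv1 hv2
    obtain ⟨k1, k2⟩ := hkf v hv1 hv2
    simp only [D]
    rw [if_pos trivial]
    have hpr' : ‖wnd (fun m => (ArithmeticFunction.vonMangoldt m : ℂ) - 1) (N / P ^ 20) v -
        wnd (fun m => (aP P m : ℂ) - 1) (N / P ^ 20) v‖ ≤
        Cp * Real.sqrt v * (Real.log v) ^ 2 / ((N / P ^ 20 : ℕ) : ℝ) := by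
      have h1 := hpr P (N / P ^ 20) v (fun _ => 1) w1 w3 w5 (fun _ => by simp)
      have h2 : wnd (fun m => (ArithmeticFunction.vonMangoldt m : ℂ) - 1) (N / P ^ 20) v -
        wnd (fun m => (aP P m : ℂ) - 1) (N / P ^ 20) v =
        wnd (fun m => (ArithmeticFunction.vonMangoldt m : ℂ) * 1) (N / P ^ 20) v -
        wnd (fun m => (aP P m : ℂ) * 1) (N / P ^ 20) v := by
        unfold wnd
        rw [← Finset.sum_sub_distrib, ← Finset.sum_sub_distrib]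
        exact Finset.sum_congr rfl fun m _ => by ring
      rw [h2]
      exact h1
    refine PropZ_core zt (fun m => (ArithmeticFunction.vonMangoldt m : ℂ) - 1)
      (fun m => (aP P m : ℂ) - 1) N P v ⌊Real.log v / 16⌋₊ Cw Cg Cp _ hCw hCg1 hCp hPn
      (by linarith) (by linarith) hL2 p4 p5 hv1 hv2 k1 k2
      (hwin _ (fun n hn => ?_) v (N / P ^ 20) ⌊Real.log v / 16⌋₊ ((P : ℝ) ^ 60)⁻¹ w1 w2 w4 k1 k2 hθ0 hθ1)
      ((hg2 P ⌊Real.log v / 16⌋₊ hPn).trans ?_) hpr' (fun ρ hρ => ?_)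
    · have h7 : ArithmeticFunction.vonMangoldt n ≤ Real.log n := ArithmeticFunction.vonMangoldt_le_log
      have h8 : 0 ≤ ArithmeticFunction.vonMangoldt n := ArithmeticFunction.vonMangoldt_nonneg
      refine (norm_sub_le _ _).trans ?_
      rw [Complex.norm_real, Real.norm_of_nonneg h8, norm_one]
      linarith
    · have h9 : C2 ≤ Cg := by linarith
      have h10 : 0 ≤ (1 / 2 : ℝ) ^ ⌊Real.log v / 16⌋₊ := by positivity
      gcongr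
    · rw [mem_ZF_zt] at hρ
      exact ⟨hρ.2.1, re_lt_one_zt ρ hρ.1⟩
  · simp only [D]
    rw [if_pos trivial]
    refine (hsq zt (fun ρ hρ => ?_)).trans ?_
    · rw [mem_ZF_zt] at hρ
      exact one_le_mul_zt ρ hρ.1
    · have h1 : Cw * Real.log N *
          (∑ ρ ∈ ZF zt (15 / 16) ((P : ℝ) ^ 62), mul zt ρ * (N : ℝ) ^ (-((1 - ρ.re) / 8))) ≤
          Cw * Real.log N * (Real.log N) ^ (-(A + 2)) := by gcongr
      have h2 : ((P : ℝ) ^ 5)⁻¹ ≤ (P : ℝ)⁻¹ := by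
        apply inv_anti₀ hP0
        calc (P : ℝ) = (P : ℝ) ^ 1 := (pow_one _).symm
          _ ≤ (P : ℝ) ^ 5 := pow_le_pow_right₀ hPone (by norm_num)
      linarith
  · have h1 : ∀ x ∈ (prims P).filter (fun x => x ≠ e ∧ x ≠ ch1), Real.sqrt (D x) ≤
        Cw * Real.log N * (∑ ρ ∈ ZF (LL x) (15 / 16) ((P : ℝ) ^ 62),
          mul (LL x) ρ * (N : ℝ) ^ (-((1 - ρ.re) / 8))) + ((P : ℝ) ^ 5)⁻¹ := by
      intro x hx
      rw [Finset.mem_filter] at hx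
      obtain ⟨hx, _, hx1⟩ := hx
      simp only [D]
      rw [if_neg hx1]
      refine hsq (LL x) (fun ρ hρ => ?_)
      obtain ⟨q, χ⟩ := x
      have hχ := prims_ne_one P _ hx hx1
      obtain ⟨hq1, hq2, hq3⟩ := (mem_prims P _).1 hx
      simp only at hχ hq1 hq2 hq3
      have : NeZero q := ⟨by omega⟩
      rw [LL_mk] at hρ ⊢
      rw [mem_ZF_chi q χ hχ] at hρ
      exact one_le_mul_chi q χ hχ ρ hρ.1
    refine (Finset.sum_le_sum h1).trans ?_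
    rw [Finset.sum_add_distrib, ← Finset.mul_sum, Finset.sum_const, nsmul_eq_mul]
    have hfe : (prims P).filter (fun x => x ≠ e ∧ x ≠ ch1) = (prims P).filter (fun x => x ≠ ch1 ∧ x ≠ e) := by
      ext x
      simp only [Finset.mem_filter]
      tauto
    rw [hfe]
    have h2 : Cw * Real.log N * (∑ x ∈ (prims P).filter (fun x => x ≠ ch1 ∧ x ≠ e),
        ∑ ρ ∈ ZF (LL x) (15 / 16) ((P : ℝ) ^ 62), mul (LL x) ρ * (N : ℝ) ^ (-((1 - ρ.re) / 8))) ≤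
        Cw * Real.log N * (Real.log N) ^ (-(A + 2)) := by gcongr
    have h3 : ((((prims P).filter (fun x => x ≠ ch1 ∧ x ≠ e)).card : ℕ) : ℝ) ≤ (P : ℝ) ^ 2 := by
      have : ((prims P).filter (fun x => x ≠ ch1 ∧ x ≠ e)).card ≤ P ^ 2 :=
        (Finset.card_filter_le _ _).trans (card_prims_le P)
      exact_mod_cast this
    have h4 : ((((prims P).filter (fun x => x ≠ ch1 ∧ x ≠ e)).card : ℕ) : ℝ) * ((P : ℝ) ^ 5)⁻¹ ≤ (P : ℝ)⁻¹ := by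
      calc ((((prims P).filter (fun x => x ≠ ch1 ∧ x ≠ e)).card : ℕ) : ℝ) * ((P : ℝ) ^ 5)⁻¹
          ≤ (P : ℝ) ^ 2 * ((P : ℝ) ^ 5)⁻¹ :=
            mul_le_mul_of_nonneg_right h3 (inv_nonneg.2 (pow_nonneg hP0.le _))
        _ = ((P : ℝ) ^ 3)⁻¹ := by field_simp
        _ ≤ (P : ℝ)⁻¹ := by
            apply inv_anti₀ hP0
            calc (P : ℝ) = (P : ℝ) ^ 1 := (pow_one _).symm
              _ ≤ (P : ℝ) ^ 3 := pow_le_pow_right₀ hPone (by norm_num)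
    linarith

end Pool.Agent.Lib.MP_629a14_nt.Th
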