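import Pool.Agent.Lib.MP_629a14_nt.Th.Point
import Pool.Agent.Lib.MP_629a14_nt.Th.PropZ
import Pool.Agent.Lib.MP_629a14_nt.Th.VSup
import Pool.Agent.Lib.MP_629a14_nt.Th.TT
import Pool.Agent.Lib.MP_629a14_nt.Th.Ident
import Pool.Agent.Lib.MP_629a14_nt.Th.BadMass
import Pool.Agent.Lib.MP_629a14_nt.Th.R2conv
import Pool.Agent.Lib.MP_629a14_nt.Th.Spec
import Pool.Agent.Lib.MP_629a14_nt.Th.BinW
import Pool.Agent.Lib.MP_629a14_nt.Th.BinD

/-! The main theorem and its application to integers with few binary ones. -/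

set_option autoImplicit false

namespace Pool.Agent.Lib.MP_629a14_nt.Th

open Finset Pool.Agent.Lib.MP_629a14_nt MeasureTheory Filter

/-! ### Growth -/

private theorem gr1 (a : ℝ) (ha : 0 < a) : ∀ᶠ x : ℝ in atTop, x ^ (3 / 4 : ℝ) ≤ a * x / Real.log x := by
  have h := (isLittleO_log_rpow_atTop (show (0 : ℝ) < 1 / 4 by norm_num)).bound ha
  filter_upwards [h, eventually_gt_atTop 1] with x hx h1
  have hl : 0 < Real.log x := Real.log_pos h1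
  have h0 : (0 : ℝ) < x := by linarith
  rw [le_div_iff₀ hl]
  rw [Real.norm_of_nonneg hl.le, Real.norm_of_nonneg (by positivity)] at hx
  calc x ^ (3 / 4 : ℝ) * Real.log x ≤ x ^ (3 / 4 : ℝ) * (a * x ^ (1 / 4 : ℝ)) := by gcongr
    _ = a * (x ^ (3 / 4 : ℝ) * x ^ (1 / 4 : ℝ)) := by ring
    _ = a * x := by rw [← Real.rpow_add h0]; norm_num

private theorem gr2 (B : ℝ) : ∀ᶠ x : ℝ in atTop, B * x ^ 4 ≤ Real.exp (x ^ (3 / 4 : ℝ)) := by
  have h := (Real.isLittleO_pow_exp_atTop (n := 6)).bound (show (0 : ℝ) < 1 / (|B| + 1) by positivity)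
  have ht := tendsto_rpow_atTop (show (0 : ℝ) < 3 / 4 by norm_num)
  filter_upwards [ht.eventually h, eventually_ge_atTop 1] with x hx h1
  have h0 : (0 : ℝ) < x := by linarith
  rw [Real.norm_of_nonneg (by positivity), Real.norm_of_nonneg (Real.exp_pos _).le,
    one_div_mul_eq_div, le_div_iff₀ (by positivity)] at hx
  have e1 : x ^ 4 ≤ (x ^ (3 / 4 : ℝ)) ^ 6 := by
    rw [← Real.rpow_natCast, ← Real.rpow_natCast, ← Real.rpow_mul h0.le]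
    exact Real.rpow_le_rpow_of_exponent_le h1 (by norm_num)
  calc B * x ^ 4 ≤ (|B| + 1) * x ^ 4 := by
        gcongr; linarith [le_abs_self B]
    _ ≤ (|B| + 1) * (x ^ (3 / 4 : ℝ)) ^ 6 := by gcongr
    _ = (x ^ (3 / 4 : ℝ)) ^ 6 * (|B| + 1) := by ring
    _ ≤ _ := hx

private theorem tlog : Tendsto (fun N : ℕ => Real.log N) atTop atTop :=
  Real.tendsto_log_atTop.comp tendsto_natCast_atTop_atTop

/-- The choice of `P`. -/
private theorem grP (c B : ℝ) (hc : 0 < c) : ∃ N₀ : ℕ, ∀ N : ℕ, N₀ ≤ N → ∃ P : ℕ,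
    Real.exp ((Real.log N) ^ (3 / 4 : ℝ)) ≤ P ∧ P ^ 100 ≤ N ∧
    (P : ℝ) ≤ Real.exp (c * Real.log N / Real.log (Real.log N)) ∧ 1 ≤ N ∧ 3 ≤ Real.log N ∧
    B * (Real.log N) ^ 3 * (N : ℝ) ^ ((c / 16) / Real.log (Real.log N)) ≤ Real.sqrt P := by
  have h1 := tlog.eventually (gr1 (c / 16) (by positivity))
  have h2 := tlog.eventually (gr2 (2 * |B|))
  have h3 := tlog.eventually (eventually_ge_atTop (max 3 (Real.exp (100 * c))))
  obtain ⟨N₀, hN₀⟩ := eventually_atTop.1 (h1.and (h2.and (h3.and (eventually_ge_atTop 1))))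
  refine ⟨N₀, fun N hN => ?_⟩
  obtain ⟨g1, g2, g3, g4⟩ := hN₀ N hN
  have hL3 : 3 ≤ Real.log N := le_trans (le_max_left _ _) g3
  have hLe : Real.exp (100 * c) ≤ Real.log N := le_trans (le_max_right _ _) g3
  have hL0 : 0 < Real.log N := by linarith
  have hll : 1 < Real.log (Real.log N) := by
    rw [Real.lt_log_iff_exp_lt hL0]
    exact lt_of_lt_of_le Real.exp_one_lt_three hL3
  have hll0 : 0 < Real.log (Real.log N) := by linarith
  have hllc : 100 * c ≤ Real.log (Real.log N) := (Real.le_log_iff_exp_le hL0).2 hLe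
  set L := Real.log N with hL
  set l := Real.log L with hl
  have hNpos : (0 : ℝ) < N := by exact_mod_cast (by omega : 0 < N)
  have hy1 : (1 : ℝ) ≤ L ^ (3 / 4 : ℝ) := Real.one_le_rpow (by linarith) (by norm_num)
  set y := Real.exp (c / 16 * L / l) with hy
  have hyL : Real.exp (L ^ (3 / 4 : ℝ)) ≤ y := Real.exp_le_exp.2 g1
  have hy2 : 2 ≤ y := by
    refine le_trans ?_ hyL
    have := Real.add_one_le_exp (L ^ (3 / 4 : ℝ))
    linarith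
  have hypos : 0 < y := by linarith
  have hy16 : Real.exp (c * L / l) = y ^ 16 := by
    rw [hy, ← Real.exp_nat_mul]; congr 1; push_cast; ring
  refine ⟨⌊Real.exp (c * L / l)⌋₊, ?_, ?_, Nat.floor_le (Real.exp_pos _).le, g4, hL3, ?_⟩
  · refine le_trans hyL ?_
    rw [hy16]
    have hf : y ^ 16 < ⌊y ^ 16⌋₊ + 1 := Nat.lt_floor_add_one _
    have : y + 1 ≤ y ^ 16 := by
      have h2 : y ^ 2 ≤ y ^ 16 := pow_le_pow_right₀ (by linarith) (by norm_num)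
      nlinarith
    linarith
  · have hf : ((⌊Real.exp (c * L / l)⌋₊ : ℕ) : ℝ) ≤ Real.exp (c * L / l) := Nat.floor_le (Real.exp_pos _).le
    have : ((⌊Real.exp (c * L / l)⌋₊ ^ 100 : ℕ) : ℝ) ≤ (N : ℝ) := by
      push_cast
      calc ((⌊Real.exp (c * L / l)⌋₊ : ℕ) : ℝ) ^ 100 ≤ (Real.exp (c * L / l)) ^ 100 := by gcongr
        _ = Real.exp (100 * c * L / l) := by rw [← Real.exp_nat_mul]; congr 1; push_cast; ring
        _ ≤ Real.exp L := by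
            apply Real.exp_le_exp.2
            rw [div_le_iff₀ hll0]
            nlinarith
        _ = N := Real.exp_log hNpos
    exact_mod_cast this
  · have hf : y ^ 16 < ⌊y ^ 16⌋₊ + 1 := Nat.lt_floor_add_one _
    have hNy : (N : ℝ) ^ ((c / 16) / l) = y := by
      rw [Real.rpow_def_of_pos hNpos, hy]; congr 1; rw [← hL]; ring
    rw [hNy, hy16]
    apply Real.le_sqrt_of_sq_le
    have hB : B * L ^ 3 ≤ y / 2 := by
      have : 2 * |B| * L ^ 4 ≤ y := le_trans g2 hyL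
      have h34 : L ^ 3 ≤ L ^ 4 := pow_le_pow_right₀ (by linarith) (by norm_num)
      have : B * L ^ 3 ≤ |B| * L ^ 4 := by
        calc B * L ^ 3 ≤ |B| * L ^ 3 := by gcongr; exact le_abs_self B
          _ ≤ _ := by gcongr
      linarith
    have hB' : |B * L ^ 3| ≤ y / 2 := by
      rw [abs_mul, abs_of_nonneg (show (0 : ℝ) ≤ L ^ 3 by positivity)]
      have h34 : L ^ 3 ≤ L ^ 4 := pow_le_pow_right₀ (by linarith) (by norm_num)
      have : |B| * L ^ 3 ≤ |B| * L ^ 4 := by gcongr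
      have h5 : 2 * |B| * L ^ 4 ≤ y := le_trans g2 hyL
      linarith
    have h1 : (B * L ^ 3) ^ 2 ≤ (y / 2) ^ 2 := by
      rw [← sq_abs]; gcongr
    have h2 : (B * L ^ 3 * y) ^ 2 ≤ (y / 2) ^ 2 * y ^ 2 := by
      rw [mul_pow]; gcongr
    have h3 : (y / 2) ^ 2 * y ^ 2 = y ^ 4 / 4 := by ring
    have h4 : y ^ 4 ≤ y ^ 16 := pow_le_pow_right₀ (by linarith) (by norm_num)
    have h6 : 2 ≤ y ^ 16 := by
      have := pow_le_pow_right₀ (show (1 : ℝ) ≤ y by linarith) (show 1 ≤ 16 by norm_num)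
      rw [pow_one] at this; linarith
    linarith

/-! ### The mean square -/

private theorem meansq (N P : ℕ) (w : ℕ → ℝ) (τ ε η c : ℝ) (hτ : 0 < τ) (hτ1 : τ ≤ 1) (hε : 0 < ε) (hη : 0 < η)
    (hτ2 : τ ≤ ε * η ^ 2 / 2048) (hN : 1 ≤ N) (hL : 3 ≤ Real.log N) (hc : 0 < c)
    (hw : ∀ n, 0 ≤ w n) (hw1 : ∑ n ∈ Icc 1 N, w n ≤ 1) (hP : 1 ≤ P) (hPN : P ^ 100 ≤ N)
    (hV : ∀ α : ℝ, ‖SS P N α‖ ^ 2 * |1 - Psi P (N / P ^ 20) α| ≤ (N : ℝ) ^ 2 / Real.sqrt P)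
    (hS : ∑ h ∈ range (8 * N), ‖SS P N ((h : ℝ) / (8 * N : ℕ))‖ ^ 2 *
      |1 - Psi P (N / P ^ 20) ((h : ℝ) / (8 * N : ℕ))| ≤ 128 * (N : ℝ) ^ 2 * Real.log N)
    (hll : 0 < Real.log (Real.log N))
    (hg : 72 / (τ * (ε * η ^ 2)) * (Real.log N) ^ 3 * (N : ℝ) ^ (c / Real.log (Real.log N)) ≤ Real.sqrt P)
    (hvol : volume {α : ℝ | α ∈ Set.Icc (0 : ℝ) 1 ∧ τ / (Real.log N) ^ 2 ≤ ‖WW w N α‖} ≤
      ENNReal.ofReal ((N : ℝ) ^ (-1 + c / Real.log (Real.log N)))) :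
    ∑ n ∈ Icc 1 N, w n * ‖((RR P n : ℝ) : ℂ) - RM P N (N / P ^ 20) n‖ ^ 2 ≤ ε * η ^ 2 / 2 * (N : ℝ) ^ 2 := by
  have hNpos : (0 : ℝ) < N := by exact_mod_cast (by omega : 0 < N)
  have hN1 : (1 : ℝ) ≤ N := by exact_mod_cast hN
  set L := Real.log N with hLdef
  have hL0 : 0 < L := by linarith
  have hPpow : 0 < P ^ 20 := by positivity
  have hP20 : P ^ 20 ≤ N := le_trans (Nat.pow_le_pow_right hP (by norm_num)) hPN
  have hH1 : 1 ≤ N / P ^ 20 := (Nat.one_le_div_iff hPpow).2 hP20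
  have hHN : N / P ^ 20 ≤ N := Nat.div_le_self _ _
  set V : ℕ → ℂ := fun h => SS P N ((h : ℝ) / (8 * N : ℕ)) ^ 2 *
    (1 - (Psi P (N / P ^ 20) ((h : ℝ) / (8 * N : ℕ)) : ℂ)) with hVdef
  have hVn : ∀ h : ℕ, ‖V h‖ = ‖SS P N ((h : ℝ) / (8 * N : ℕ))‖ ^ 2 *
      |1 - Psi P (N / P ^ 20) ((h : ℝ) / (8 * N : ℕ))| := by
    intro h
    rw [hVdef]
    simp only
    rw [norm_mul, norm_pow]
    congr 1
    rw [← Complex.ofReal_one, ← Complex.ofReal_sub, Complex.norm_real, Real.norm_eq_abs]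
  have hκ : 0 < τ / L ^ 2 := by positivity
  have hκ1 : τ / L ^ 2 ≤ 1 := by
    rw [div_le_one (by positivity)]; nlinarith
  have key := tt (8 * N) N (by omega) V w hw (2 * (τ / L ^ 2)) ((N : ℝ) ^ 2 / Real.sqrt P) (by positivity)
    (fun h _ => by rw [hVn]; exact hV _) hw1
  have hsp := spec_count N hN w hw hw1 (τ / L ^ 2) ((N : ℝ) ^ (-1 + c / Real.log L)) hκ hκ1 (by positivity) hvol
  have hlhs : ∑ n ∈ Icc 1 N, w n * ‖((RR P n : ℝ) : ℂ) - RM P N (N / P ^ 20) n‖ ^ 2 =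
      ∑ n ∈ Icc 1 N, w n * ‖(1 / ((8 * N : ℕ) : ℂ)) *
        ∑ h ∈ range (8 * N), V h * ee (-(n * ((h : ℝ) / (8 * N : ℕ))))‖ ^ 2 := by
    refine sum_congr rfl fun n hn => ?_
    rw [mem_Icc] at hn
    rw [ident P N (N / P ^ 20) n hH1 hHN hn.1 hn.2]
  rw [hlhs]
  refine le_trans key ?_
  have hSS : ∑ h ∈ range (8 * N), ‖V h‖ ≤ 128 * (N : ℝ) ^ 2 * L := by
    refine le_trans (le_of_eq ?_) hS
    exact sum_congr rfl fun h _ => hVn h
  have hSS0 : 0 ≤ ∑ h ∈ range (8 * N), ‖V h‖ := sum_nonneg fun _ _ => norm_nonneg _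
  set S := ∑ h ∈ range (8 * N), ‖V h‖ with hSdef
  set cnt : ℝ := (((range (8 * N)).filter (fun h : ℕ => 2 * (τ / L ^ 2) < ‖WW w N ((h : ℝ) / (8 * N : ℕ))‖)).card : ℝ)
    with hcnt
  set Y : ℝ := (N : ℝ) ^ (c / Real.log L) with hY
  have hY1 : 1 ≤ Y := Real.one_le_rpow hN1 (by positivity)
  have hNY : (N : ℝ) ^ (-1 + c / Real.log L) = Y / N := by
    rw [Real.rpow_add hNpos, Real.rpow_neg_one, hY, mul_comm, ← div_eq_mul_inv]
  have hcnt2 : cnt ≤ 9 * Y * L ^ 2 / τ := by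
    refine le_trans hsp ?_
    rw [hNY]
    have e1 : 8 * (N : ℝ) * (Y / N) / (τ / L ^ 2) = 8 * Y * L ^ 2 / τ := by
      field_simp
    rw [e1]
    have e2 : 1 ≤ Y * L ^ 2 / τ := by
      rw [le_div_iff₀ hτ]
      nlinarith [mul_le_mul hY1 (show (1 : ℝ) ≤ L ^ 2 by nlinarith) (by norm_num) (by positivity)]
    have e3 : 9 * Y * L ^ 2 / τ = 8 * Y * L ^ 2 / τ + Y * L ^ 2 / τ := by ring
    linarith
  have hcnt0 : 0 ≤ cnt := Nat.cast_nonneg _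
  have hsP : 0 < Real.sqrt P := Real.sqrt_pos.2 (by exact_mod_cast (by omega : 0 < P))
  -- first term
  have t1 : 2 * (τ / L ^ 2) * S ^ 2 ≤ 2 * (τ / L ^ 2) * (128 * (N : ℝ) ^ 2 * L) ^ 2 := by gcongr
  have t2 : (N : ℝ) ^ 2 / Real.sqrt P * S * cnt ≤
      (N : ℝ) ^ 2 / Real.sqrt P * (128 * (N : ℝ) ^ 2 * L) * (9 * Y * L ^ 2 / τ) := by gcongr
  have t3 : (1 / ((8 * N : ℕ) : ℝ) ^ 2) * (2 * (τ / L ^ 2) * (128 * (N : ℝ) ^ 2 * L) ^ 2) = 512 * τ * (N : ℝ) ^ 2 := by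
    push_cast; field_simp; ring
  have t4 : (1 / ((8 * N : ℕ) : ℝ) ^ 2) * ((N : ℝ) ^ 2 / Real.sqrt P * (128 * (N : ℝ) ^ 2 * L) * (9 * Y * L ^ 2 / τ)) =
      (18 * L ^ 3 * Y / (τ * Real.sqrt P)) * (N : ℝ) ^ 2 := by
    push_cast; field_simp; ring
  have t5 : 18 * L ^ 3 * Y / (τ * Real.sqrt P) ≤ ε * η ^ 2 / 4 := by
    rw [div_le_iff₀ (by positivity)]
    have : 72 / (τ * (ε * η ^ 2)) * L ^ 3 * Y * (τ * (ε * η ^ 2)) = 72 * L ^ 3 * Y := by field_simp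
    have h3 := mul_le_mul_of_nonneg_right hg (show 0 ≤ τ * (ε * η ^ 2) by positivity)
    rw [this] at h3
    linarith
  have t6 : 512 * τ ≤ ε * η ^ 2 / 4 := by linarith
  calc (1 / ((8 * N : ℕ) : ℝ) ^ 2) * (2 * (τ / L ^ 2) * S ^ 2 + (N : ℝ) ^ 2 / Real.sqrt P * S * cnt)
      ≤ (1 / ((8 * N : ℕ) : ℝ) ^ 2) * (2 * (τ / L ^ 2) * (128 * (N : ℝ) ^ 2 * L) ^ 2 +
        (N : ℝ) ^ 2 / Real.sqrt P * (128 * (N : ℝ) ^ 2 * L) * (9 * Y * L ^ 2 / τ)) := by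
        gcongr
    _ = 512 * τ * (N : ℝ) ^ 2 + (18 * L ^ 3 * Y / (τ * Real.sqrt P)) * (N : ℝ) ^ 2 := by
        rw [mul_add, t3, t4]
    _ ≤ ε * η ^ 2 / 4 * (N : ℝ) ^ 2 + ε * η ^ 2 / 4 * (N : ℝ) ^ 2 := by gcongr
    _ = _ := by ring

/-- Chebyshev. -/
private theorem cheb (N : ℕ) (w f : ℕ → ℝ) (hw : ∀ n, 0 ≤ w n) (B t : ℝ) (ht : 0 < t)
    (h : ∑ n ∈ Icc 1 N, w n * f n ^ 2 ≤ B * t ^ 2) :
    ∑ n ∈ (Icc 1 N).filter (fun n => t < f n), w n ≤ B := by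
  have h1 : (∑ n ∈ (Icc 1 N).filter (fun n => t < f n), w n) * t ^ 2 ≤ ∑ n ∈ Icc 1 N, w n * f n ^ 2 := by
    rw [sum_mul]
    refine le_trans (sum_le_sum (g := fun n => w n * f n ^ 2) fun n hn => ?_)
      (sum_le_sum_of_subset_of_nonneg (filter_subset _ _) fun n _ _ => mul_nonneg (hw n) (sq_nonneg _))
    rw [mem_filter] at hn
    have := hw n
    have h2 := hn.2
    gcongr
  have ht2 : 0 < t ^ 2 := by positivity
  exact le_of_mul_le_mul_right (le_trans h1 h) ht2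

/-! ### The theorem -/

open Classical in
/-- The Hardy-Littlewood asymptotics hold for almost all even members of a family with weights `w` whose Fourier
transform is at least `τ/(log N)²` only on a set of measure `N^{-1+c/log log N}`. -/
theorem main : ∃ c : ℝ, 0 < c ∧ ∀ (K δ ε : ℝ), 0 < δ → 0 < ε → ∃ τ : ℝ, 0 < τ ∧ ∃ N₀ : ℕ, ∀ N : ℕ, N₀ ≤ N →
    ∀ w : ℕ → ℝ, (∀ n, 0 ≤ w n) → ∑ n ∈ Icc 1 N, w n ≤ 1 →
    (∀ m : ℕ, Odd m → 3 ≤ m → ∑ n ∈ (Icc 1 N).filter (fun n => m ∣ n), w n ≤ K / Real.log m) →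
    volume {α : ℝ | α ∈ Set.Icc (0 : ℝ) 1 ∧ τ / (Real.log N) ^ 2 ≤ ‖WW w N α‖} ≤
      ENNReal.ofReal ((N : ℝ) ^ (-1 + c / Real.log (Real.log N))) →
    ∑ n ∈ (Icc 1 N).filter (fun n : ℕ => Even n ∧ δ * N ≤ n ∧ ε * En.HL n < |(En.r2 n : ℝ) - En.HL n|), w n ≤ ε := by
  obtain ⟨c₁, hc₁, hprop⟩ := propZ 4
  refine ⟨c₁ / 16, by positivity, fun K δ ε hδ hε => ?_⟩
  have htw := En.tw_pos
  obtain ⟨ε₁, hε₁⟩ : ∃ ε₁ : ℝ, ε₁ = min ε 1 / 16 := ⟨_, rfl⟩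
  have hε₁0 : 0 < ε₁ := by rw [hε₁]; positivity
  obtain ⟨τp, hτp, Np, hpoint⟩ := point ε₁ δ hε₁0 hδ
  obtain ⟨R₁, hR₁⟩ := bad_mass K τp (ε / 2) hτp (by positivity)
  obtain ⟨Nr, hr2⟩ := r2_conv ε δ hε hδ
  obtain ⟨Nv, hvs⟩ := vsup
  obtain ⟨Nu, hvu⟩ := vsum
  obtain ⟨Nz, hz⟩ := hprop (max R₁ 2)
  obtain ⟨η, hη⟩ : ∃ η : ℝ, η = ε₁ * (2 * En.tw * δ) := ⟨_, rfl⟩
  have hη0 : 0 < η := by rw [hη]; positivity
  obtain ⟨τ, hτ⟩ : ∃ τ : ℝ, τ = min 1 (ε * η ^ 2 / 2048) := ⟨_, rfl⟩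
  have hτ0 : 0 < τ := by rw [hτ]; positivity
  have hτ1 : τ ≤ 1 := by rw [hτ]; exact min_le_left _ _
  have hτ2 : τ ≤ ε * η ^ 2 / 2048 := by rw [hτ]; exact min_le_right _ _
  obtain ⟨Ng, hg⟩ := grP c₁ (72 / (τ * (ε * η ^ 2))) hc₁
  refine ⟨τ, hτ0, Np + Nr + Nv + Nu + Nz + Ng, fun N hN w hw hw1 hdiv hvol => ?_⟩
  obtain ⟨P, hP1, hPN, hP2, hN1, hL3, hgP⟩ := hg N (by omega)
  have hNpos : (0 : ℝ) < N := by exact_mod_cast (by omega : 0 < N)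
  have hP0 : 1 ≤ P := by
    have : (0 : ℝ) < P := lt_of_lt_of_le (Real.exp_pos _) hP1
    exact_mod_cast this
  have hll : 0 < Real.log (Real.log N) := Real.log_pos (by linarith)
  obtain ⟨e, D, he0, he2, hep, heR, hD0, hDx, hD1, hs1, hs2⟩ := hz N P (by omega) hP1 hP2
  have hms := meansq N P w τ ε η (c₁ / 16) hτ0 hτ1 hε hη0 hτ2 hN1 hL3 (by positivity) hw hw1 hP0 hPN
    (hvs N P (by omega) hP1 hPN) (hvu N P (by omega) hP1 hPN) hll hgP hvol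
  have hch := cheb N w (fun n => ‖((RR P n : ℝ) : ℂ) - RM P N (N / P ^ 20) n‖) hw (ε / 2) (η * N)
    (by positivity) (le_trans hms (le_of_eq (by ring)))
  have he1 : e = ch1 ∨ (e ∈ prims P ∧ e ≠ ch1) := by
    rcases heR with h | ⟨h1, h2⟩
    · exact Or.inl h
    · refine Or.inr ⟨h1, fun h => ?_⟩
      have : (2 : ℕ) ≤ e.1 := le_trans (le_max_right _ _) h2
      rw [h] at this
      simp [ch1] at this
  -- a good n
  have hgood : ∀ n ∈ Icc 1 N, Even n → δ * N ≤ n →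
      (e = ch1 ∨ (e.1 : ℝ) * sgm (Nat.gcd e.1 n) / (e.1.totient : ℝ) ^ 2 ≤ τp) →
      ‖((RR P n : ℝ) : ℂ) - RM P N (N / P ^ 20) n‖ ≤ η * N → |(En.r2 n : ℝ) - En.HL n| ≤ ε * En.HL n := by
    intro n hn hev hδn hsm hle
    rw [mem_Icc] at hn
    have hpt := hpoint N P (by omega) hP1 hPN e D he2 he1 hD0 hDx hD1 hs1 hs2 n hev hδn hn.2 hsm
    refine hr2 N P n (by omega) hPN hδn hn.2 ?_
    have hsing := En.sing_ge n
    have h1 : η * N ≤ ε₁ * (En.sing n * n) := by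
      rw [hη]
      calc ε₁ * (2 * En.tw * δ) * N = ε₁ * (2 * En.tw * (δ * N)) := by ring
        _ ≤ ε₁ * (En.sing n * n) := by
            have h0 : 0 ≤ En.sing n := le_trans (by positivity) hsing
            have : 2 * En.tw * (δ * N) ≤ En.sing n * n := by gcongr
            gcongr
    have h2 : |RR P n - En.sing n * n| = ‖((RR P n : ℝ) : ℂ) - ((En.sing n * n : ℝ) : ℂ)‖ := by
      rw [← Complex.ofReal_sub, Complex.norm_real, Real.norm_eq_abs]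
    rw [h2]
    calc ‖((RR P n : ℝ) : ℂ) - ((En.sing n * n : ℝ) : ℂ)‖
        ≤ ‖((RR P n : ℝ) : ℂ) - RM P N (N / P ^ 20) n‖ + ‖RM P N (N / P ^ 20) n - ((En.sing n * n : ℝ) : ℂ)‖ :=
          norm_sub_le_norm_sub_add_norm_sub _ _ _
      _ ≤ ε₁ * (En.sing n * n) + ε₁ * (En.sing n * n) := add_le_add (le_trans hle h1) hpt
      _ = (min ε 1 / 8) * (En.sing n * n) := by rw [hε₁]; ring
  rcases he1 with he1 | he1
  · refine le_trans (sum_le_sum_of_subset_of_nonneg ?_ fun n _ _ => hw n) (le_trans hch (by linarith))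
    intro n hn
    rw [mem_filter] at hn ⊢
    refine ⟨hn.1, ?_⟩
    by_contra hcon
    exact absurd (hgood n hn.1 hn.2.1 hn.2.2.1 (Or.inl he1) (not_lt.1 hcon)) (not_le.2 hn.2.2.2)
  · have heR' : R₁ ≤ e.1 := by
      rcases heR with h | ⟨h1, h2⟩
      · exact absurd h he1.2
      · exact le_trans (le_max_left _ _) h2
    have : NeZero e.1 := ⟨he0⟩
    have hbm := hR₁ N w hw hdiv e.1 heR' (not_sixteen_dvd e.1 e.2 hep he2)
    have hsub : (Icc 1 N).filter (fun n : ℕ => Even n ∧ δ * N ≤ n ∧ ε * En.HL n < |(En.r2 n : ℝ) - En.HL n|) ⊆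
        (Icc 1 N).filter (fun n => η * N < ‖((RR P n : ℝ) : ℂ) - RM P N (N / P ^ 20) n‖) ∪
        (Icc 1 N).filter (fun n => τp < (e.1 : ℝ) * sgm (Nat.gcd e.1 n) / (e.1.totient : ℝ) ^ 2) := by
      intro n hn
      rw [mem_filter] at hn
      rw [mem_union, mem_filter, mem_filter]
      by_contra hcon
      rw [not_or] at hcon
      have a1 : ¬ (η * N < ‖((RR P n : ℝ) : ℂ) - RM P N (N / P ^ 20) n‖) := fun h => hcon.1 ⟨hn.1, h⟩
      have a2 : ¬ (τp < (e.1 : ℝ) * sgm (Nat.gcd e.1 n) / (e.1.totient : ℝ) ^ 2) := fun h => hcon.2 ⟨hn.1, h⟩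
      exact absurd (hgood n hn.1 hn.2.1 hn.2.2.1 (Or.inr (not_lt.1 a2)) (not_lt.1 a1)) (not_le.2 hn.2.2.2)
    calc ∑ n ∈ (Icc 1 N).filter (fun n : ℕ => Even n ∧ δ * N ≤ n ∧ ε * En.HL n < |(En.r2 n : ℝ) - En.HL n|), w n
        ≤ ∑ n ∈ (Icc 1 N).filter (fun n => η * N < ‖((RR P n : ℝ) : ℂ) - RM P N (N / P ^ 20) n‖) ∪
            (Icc 1 N).filter (fun n => τp < (e.1 : ℝ) * sgm (Nat.gcd e.1 n) / (e.1.totient : ℝ) ^ 2), w n :=
          sum_le_sum_of_subset_of_nonneg hsub fun n _ _ => hw n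
      _ ≤ ∑ n ∈ (Icc 1 N).filter (fun n => η * N < ‖((RR P n : ℝ) : ℂ) - RM P N (N / P ^ 20) n‖), w n +
            ∑ n ∈ (Icc 1 N).filter (fun n => τp < (e.1 : ℝ) * sgm (Nat.gcd e.1 n) / (e.1.totient : ℝ) ^ 2), w n := by
          rw [← sum_union_inter]
          exact le_add_of_nonneg_right (sum_nonneg fun n _ => hw n)
      _ ≤ ε / 2 + ε / 2 := add_le_add hch hbm
      _ = ε := by ring

/-! ### Few binary ones -/

private theorem bw_sum (n j : ℕ) (Q : ℕ → Prop) [DecidablePred Q] :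
    ∑ m ∈ (Icc 1 (2 ^ (n + 2))).filter Q, bw n j m = (((BS n j).filter Q).card : ℝ) * (1 / (n.choose j : ℝ)) := by
  have h1 : ∀ m ∈ BS n j, m ∈ Icc 1 (2 ^ (n + 2)) := by
    intro m hm
    rw [BS, mem_filter, mem_Ico] at hm
    rw [mem_Icc]
    exact ⟨le_trans Nat.one_le_two_pow hm.1.1, hm.1.2.le⟩
  unfold bw
  rw [← sum_filter, sum_const, nsmul_eq_mul]
  congr 2
  congr 1
  ext m
  simp only [mem_filter]
  constructor
  · rintro ⟨⟨_, h2⟩, h3⟩; exact ⟨h3, h2⟩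
  · rintro ⟨h3, h2⟩; exact ⟨⟨h1 m h3, h2⟩, h3⟩

open Classical in
/-- Almost all even integers in `[2^(n+1), 2^(n+2))` with exactly `j + 1` binary ones, `(log n)³ ≤ j ≤ n - (log n)³`,
satisfy the Hardy-Littlewood asymptotics. -/
theorem bin_main (ε : ℝ) (hε : 0 < ε) : ∃ n₀ : ℕ, ∀ n j : ℕ, n₀ ≤ n → (Real.log n) ^ 3 ≤ j →
    (j : ℝ) + (Real.log n) ^ 3 ≤ n →
    (((BS n j).filter (fun N => ε * En.HL N < |(En.r2 N : ℝ) - En.HL N|)).card : ℝ) ≤ ε * (BS n j).card := by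
  obtain ⟨c, hc, hmain⟩ := main
  obtain ⟨K, hK1, hK⟩ := bin_div
  obtain ⟨τ, hτ, N₀, hN₀⟩ := hmain K (1 / 2) ε (by norm_num) hε
  obtain ⟨n₀, hn₀⟩ := bin_spec c hc
  refine ⟨N₀ + n₀ + ⌈2 / τ⌉₊ + 3, fun n j hn hj1 hj2 => ?_⟩
  have hn3 : (3 : ℝ) ≤ n := by exact_mod_cast (by omega : 3 ≤ n)
  have hl1 : 1 ≤ Real.log n := by
    rw [Real.le_log_iff_exp_le (by linarith)]
    linarith [Real.exp_one_lt_three]
  have hl3 : 1 ≤ (Real.log n) ^ 3 := one_le_pow₀ hl1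
  have hj : 1 ≤ j := by exact_mod_cast le_trans hl3 hj1
  have hjn : j < n := by
    have : (j : ℝ) < n := by linarith
    exact_mod_cast this
  have hC : 0 < n.choose j := Nat.choose_pos hjn.le
  have hC' : (0 : ℝ) < n.choose j := by exact_mod_cast hC
  have hNN : N₀ ≤ 2 ^ (n + 2) := by
    have : n + 2 < 2 ^ (n + 2) := Nat.lt_two_pow_self
    omega
  have hcard := BS_card n j
  have hlogN : Real.log ((2 ^ (n + 2) : ℕ) : ℝ) = (n + 2) * Real.log 2 := by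
    push_cast; rw [Real.log_pow]; push_cast; ring
  have hlogN2 : 1 / τ ≤ Real.log ((2 ^ (n + 2) : ℕ) : ℝ) := by
    rw [hlogN]
    have h1 : 2 / τ ≤ n := le_trans (Nat.le_ceil _) (by exact_mod_cast (by omega : ⌈2 / τ⌉₊ ≤ n))
    have h2 : (1 : ℝ) / 2 ≤ Real.log 2 := by linarith [Real.log_two_gt_d9]
    have h3 : 1 / τ = (2 / τ) * (1 / 2) := by ring
    rw [h3]
    have h4 : 0 ≤ 2 / τ := by positivity
    nlinarith
  have hlogpos : 0 < Real.log ((2 ^ (n + 2) : ℕ) : ℝ) := lt_of_lt_of_le (by positivity) hlogN2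
  have hres := hN₀ (2 ^ (n + 2)) hNN (bw n j) ?_ ?_ ?_ ?_
  · rw [bw_sum] at hres
    have h1 : (BS n j).filter (fun N => ε * En.HL N < |(En.r2 N : ℝ) - En.HL N|) ⊆
        (BS n j).filter (fun m : ℕ => Even m ∧ 1 / 2 * ((2 ^ (n + 2) : ℕ) : ℝ) ≤ m ∧
          ε * En.HL m < |(En.r2 m : ℝ) - En.HL m|) := by
      intro m hm
      rw [mem_filter] at hm ⊢
      refine ⟨hm.1, ?_, ?_, hm.2⟩
      · have := hm.1
        rw [BS, mem_filter] at this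
        exact this.2.1
      · have := hm.1
        rw [BS, mem_filter, mem_Ico] at this
        have h2 : ((2 ^ (n + 1) : ℕ) : ℝ) ≤ m := by exact_mod_cast this.1.1
        have h3 : 1 / 2 * ((2 ^ (n + 2) : ℕ) : ℝ) = ((2 ^ (n + 1) : ℕ) : ℝ) := by push_cast; ring
        linarith
    have h2 : (((BS n j).filter (fun N => ε * En.HL N < |(En.r2 N : ℝ) - En.HL N|)).card : ℝ) ≤
        (((BS n j).filter (fun m : ℕ => Even m ∧ 1 / 2 * ((2 ^ (n + 2) : ℕ) : ℝ) ≤ m ∧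
          ε * En.HL m < |(En.r2 m : ℝ) - En.HL m|)).card : ℝ) := by
      exact_mod_cast card_le_card h1
    rw [hcard]
    rw [mul_one_div, div_le_iff₀ hC'] at hres
    exact le_trans h2 hres
  · intro m
    unfold bw
    split_ifs <;> positivity
  · have h1 := bw_sum n j (fun _ => True)
    simp only [filter_true] at h1
    rw [h1, hcard]
    field_simp
    exact le_refl _
  · intro m hm h3
    rw [bw_sum]
    have h1 : (((BS n j).filter (fun N => m ∣ N)).card : ℝ) ≤ K / Real.log m * (n.choose j : ℝ) := by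
      refine le_trans ?_ (hK n j m hj hjn hm h3)
      rw [BS_eq]
      rw [filter_image]
      exact_mod_cast card_image_le
    rw [mul_one_div, div_le_iff₀ hC']
    exact h1
  · refine le_trans (measure_mono ?_) (hn₀ n j (by omega) hj1 hj2)
    intro α hα
    refine ⟨hα.1, le_trans ?_ hα.2⟩
    rw [show (-3 : ℝ) = -((3 : ℕ) : ℝ) by norm_num, Real.rpow_neg hlogpos.le, Real.rpow_natCast]
    rw [le_div_iff₀ (by positivity), ← one_div, one_div_mul_eq_div]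
    rw [div_le_iff₀ (by positivity)] at hlogN2
    rw [div_le_iff₀ (by positivity)]
    have : τ * Real.log ((2 ^ (n + 2) : ℕ) : ℝ) ^ 3 =
      (Real.log ((2 ^ (n + 2) : ℕ) : ℝ) * τ) * Real.log ((2 ^ (n + 2) : ℕ) : ℝ) ^ 2 := by ring
    rw [this]
    nlinarith [sq_nonneg (Real.log ((2 ^ (n + 2) : ℕ) : ℝ))]

end Pool.Agent.Lib.MP_629a14_nt.Th
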