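import Pool.Agent.Lib.MP_629a14_nt.Th.IIbd

/-! The main terms. -/

set_option autoImplicit false

namespace Pool.Agent.Lib.MP_629a14_nt.Th

open Finset Pool.Agent.Lib.MP_629a14_nt

/-- The sum of divisors, as a real number. -/
noncomputable def sgm (n : ℕ) : ℝ := ∑ f ∈ n.divisors, (f : ℝ)

/-- `∑_{m ≤ P} σ((m,n))/φ(m)²`. -/
noncomputable def KK (P n : ℕ) : ℝ := ∑ m ∈ Icc 1 P, sgm (Nat.gcd m n) / (m.totient : ℝ) ^ 2

private theorem MainS_mem (q : ℕ) [NeZero q] (e : CH) (χ : DirichletCharacter ℂ q) :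
    χ ∈ MC q e ↔ cls χ = e ∨ cls χ = ch1 := by
  unfold MC
  rw [dif_neg (NeZero.ne q)]
  simp only [mem_filter, mem_univ, true_and]

private theorem MainS_ch1 (q : ℕ) [NeZero q] : MC q ch1 = {1} := by
  ext χ
  rw [MainS_mem, or_self, mem_singleton, cls_eq_ch1_iff]

/-- The summand of `MT` for one modulus. -/
private noncomputable def MainS_T (P N H : ℕ) (e : CH) (n q : ℕ) : ℂ :=
  ((q.totient : ℂ) ^ 2)⁻¹ * ∑ χ₁ ∈ MC q e, ∑ χ₂ ∈ MC q e,
    gs χ₁⁻¹ 1 * gs χ₂⁻¹ 1 * gs (χ₁ * χ₂) (-(n : ℤ)) * II P N H χ₁ χ₂ n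

private noncomputable def MainS_A (P N H n q : ℕ) : ℂ :=
  ((ArithmeticFunction.moebius q : ℂ) ^ 2 / (q.totient : ℂ) ^ 2) * cq q (-(n : ℤ)) * I0 P N H n

private theorem MainS_pair11 (P N H n q : ℕ) [NeZero q] (hqP : q ≤ P) :
    ((q.totient : ℂ) ^ 2)⁻¹ * (gs (1 : DirichletCharacter ℂ q)⁻¹ 1 * gs (1 : DirichletCharacter ℂ q)⁻¹ 1 *
      gs ((1 : DirichletCharacter ℂ q) * 1) (-(n : ℤ)) * II P N H (1 : DirichletCharacter ℂ q) 1 n) =
      MainS_A P N H n q := by
  have hq : 1 ≤ q := NeZero.one_le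
  rw [inv_one, mul_one (1 : DirichletCharacter ℂ q), gs_one, gs_one, cq_one q hq, II_one q P N H hq hqP, MainS_A]
  ring

/-- Without exceptional character: `MC q ch1 = {1}`; `gs 1 1 = μ(q)`, `gs 1 (-n) = c_q(-n)`, `II_one`. -/
theorem MT_ch1 (P N H n : ℕ) : MT P N H ch1 n = SG P n * I0 P N H n := by
  unfold MT SG
  rw [sum_mul]
  refine sum_congr rfl fun q hq => ?_
  obtain ⟨hq1, hqP⟩ := mem_Icc.1 hq
  haveI : NeZero q := ⟨by omega⟩
  rw [MainS_ch1, sum_singleton, sum_singleton]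
  exact MainS_pair11 P N H n q hqP

private theorem MainS_sgm_mul (a b : ℕ) (h : a.Coprime b) : sgm (a * b) = sgm a * sgm b := by
  have h1 : ∀ n : ℕ, sgm n = ((ArithmeticFunction.sigma 1 n : ℕ) : ℝ) := by
    intro n
    rw [ArithmeticFunction.sigma_one_apply, sgm]
    push_cast
    rfl
  rw [h1, h1, h1, ArithmeticFunction.isMultiplicative_sigma.map_mul_of_coprime h]
  push_cast
  rfl

private theorem MainS_sgm_nonneg (a : ℕ) : 0 ≤ sgm a := sum_nonneg fun _ _ => Nat.cast_nonneg _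

private theorem MainS_one_le_sgm (a : ℕ) (h : a ≠ 0) : 1 ≤ sgm a := by
  have h1 : ((1 : ℕ) : ℝ) ≤ sgm a :=
    single_le_sum (f := fun f : ℕ => (f : ℝ)) (fun _ _ => Nat.cast_nonneg _) (Nat.one_mem_divisors.2 h)
  simpa using h1

private theorem MainS_moeb (q : ℕ) : ‖(ArithmeticFunction.moebius q : ℂ)‖ ≤ 1 := by
  have h := ArithmeticFunction.abs_moebius_le_one (n := q)
  rw [Complex.norm_intCast]
  exact_mod_cast h

private theorem MainS_sq (q : ℕ) (e : CH) (h2 : e.2 ^ 2 = 1) (χ : DirichletCharacter ℂ q) (h : cls χ = e) :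
    χ * χ = 1 := by
  have h3 : χ.primitiveCharacter ^ 2 = 1 := by
    rw [← h] at h2
    exact h2
  rw [← sq, ← χ.changeLevel_primitiveCharacter, ← map_pow, h3, map_one]

private theorem MainS_q (P N H n : ℕ) (e : CH) (he1 : e ≠ ch1) (h2 : e.2 ^ 2 = 1)
    (q : ℕ) (hq1 : 1 ≤ q) (hqP : q ≤ P) :
    ‖MainS_T P N H e n q - MainS_A P N H n q‖ ≤
      if e.1 ∣ q then 3 * I0 P N H n * ((e.1 : ℝ) * sgm (Nat.gcd e.1 n) / (e.1.totient : ℝ) ^ 2) *
        (sgm (Nat.gcd (q / e.1) n) / ((q / e.1).totient : ℝ) ^ 2) else 0 := by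
  classical
  haveI : NeZero q := ⟨by omega⟩
  have hI := I0_nonneg P N H n
  have hrhs : 0 ≤ if e.1 ∣ q then 3 * I0 P N H n * ((e.1 : ℝ) * sgm (Nat.gcd e.1 n) / (e.1.totient : ℝ) ^ 2) *
        (sgm (Nat.gcd (q / e.1) n) / ((q / e.1).totient : ℝ) ^ 2) else 0 := by
    have := MainS_sgm_nonneg (Nat.gcd e.1 n)
    have := MainS_sgm_nonneg (Nat.gcd (q / e.1) n)
    split_ifs
    · positivity
    · exact le_rfl
  by_cases hex : ∃ χ : DirichletCharacter ℂ q, cls χ = e
  · obtain ⟨χ, hχ⟩ := hex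
    have hχ1 : χ ≠ 1 := by
      intro h
      exact he1 (hχ.symm.trans ((cls_eq_ch1_iff q χ).2 h))
    have hMC : MC q e = {1, χ} := by
      ext ψ
      rw [MainS_mem, mem_insert, mem_singleton, cls_eq_ch1_iff]
      constructor
      · rintro (h | h)
        · exact Or.inr (cls_inj q ψ χ (h.trans hχ.symm))
        · exact Or.inl h
      · rintro (h | h)
        · exact Or.inr h
        · exact Or.inl (by rw [h, hχ])
    have hcond : χ.conductor = e.1 := by rw [← hχ]; rfl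
    have hdvd : e.1 ∣ q := by rw [← hcond]; exact χ.conductor_dvd_level
    rw [if_pos hdvd]
    obtain ⟨m, hm⟩ := hdvd
    have hr0 : e.1 ≠ 0 := by
      intro h
      rw [h, zero_mul] at hm
      omega
    have hm0 : m ≠ 0 := by
      intro h
      rw [h, mul_zero] at hm
      omega
    have hqr : q / e.1 = m := by
      rw [hm, Nat.mul_div_cancel_left _ (Nat.pos_of_ne_zero hr0)]
    have hsq : χ * χ = 1 := MainS_sq q e h2 χ hχ
    have hinv : χ⁻¹ = χ := by
      rw [inv_eq_iff_mul_eq_one]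
      exact hsq
    rw [hqr]
    set r := e.1 with hr
    -- notation
    set φ : ℝ := (q.totient : ℝ) with hφ
    have hφ0 : 0 < φ := by rw [hφ]; exact_mod_cast Nat.totient_pos.2 hq1
    have hrm0 : (0 : ℝ) ≤ r := Nat.cast_nonneg _
    have hsr : 1 ≤ sgm (Nat.gcd r n) :=
      MainS_one_le_sgm _ (Nat.gcd_ne_zero_left hr0)
    have hsm : 1 ≤ sgm (Nat.gcd m n) :=
      MainS_one_le_sgm _ (Nat.gcd_ne_zero_left hm0)
    have hdiff : MainS_T P N H e n q - MainS_A P N H n q =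
        ((q.totient : ℂ) ^ 2)⁻¹ * (gs (1 : DirichletCharacter ℂ q) 1 * gs χ 1 * gs χ (-(n : ℤ)) * II P N H 1 χ n +
          (gs χ 1 * gs (1 : DirichletCharacter ℂ q) 1 * gs χ (-(n : ℤ)) * II P N H χ 1 n +
          gs χ 1 * gs χ 1 * gs (1 : DirichletCharacter ℂ q) (-(n : ℤ)) * II P N H χ χ n)) := by
      rw [MainS_T, hMC, sum_pair hχ1.symm, sum_pair hχ1.symm, sum_pair hχ1.symm, ← MainS_pair11 P N H n q hqP,
        hinv, inv_one, one_mul χ, mul_one χ, hsq, mul_one (1 : DirichletCharacter ℂ q)]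
      ring
    -- coprimality and totients
    have htot : ∀ h : m.Coprime r, φ = (r.totient : ℝ) * (m.totient : ℝ) := by
      intro h
      rw [hφ, hm, Nat.totient_mul h.symm]
      push_cast
      rfl
    -- the bound for the mixed pairs
    have hsqrt : Real.sqrt r * Real.sqrt r = r := Real.mul_self_sqrt hrm0
    have hg1 : ‖gs χ 1‖ ≤ Real.sqrt r := by
      have := norm_gs_one_le q χ
      rwa [hcond] at this
    set B : ℝ := I0 P N H n * (r * sgm (Nat.gcd r n) / (r.totient : ℝ) ^ 2) *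
      (sgm (Nat.gcd m n) / (m.totient : ℝ) ^ 2) with hB
    have hB0 : 0 ≤ B := by
      have h3 := MainS_sgm_nonneg (Nat.gcd r n)
      have h4 := MainS_sgm_nonneg (Nat.gcd m n)
      positivity
    have hinvn : ‖(((q.totient : ℂ) ^ 2)⁻¹)‖ = (φ ^ 2)⁻¹ := by
      rw [norm_inv, norm_pow, Complex.norm_natCast]
    have hgcdn : Nat.gcd m (-(n : ℤ)).natAbs = Nat.gcd m n := by
      rw [Int.natAbs_neg, Int.natAbs_natCast]
    have hgcdq : Nat.gcd q (-(n : ℤ)).natAbs = Nat.gcd q n := by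
      rw [Int.natAbs_neg, Int.natAbs_natCast]
    have hmixed : ∀ X : ℂ, ‖X‖ ≤ I0 P N H n →
        ‖((q.totient : ℂ) ^ 2)⁻¹ * (gs (1 : DirichletCharacter ℂ q) 1 * gs χ 1 * gs χ (-(n : ℤ)) * X)‖ ≤ B := by
      intro X hX
      by_cases hsf : Squarefree q
      · have hcop : m.Coprime r := by
          rw [hm] at hsf
          exact (Nat.coprime_of_squarefree_mul hsf).symm
        have hg2 : ‖gs χ (-(n : ℤ))‖ ≤ Real.sqrt r * sgm (Nat.gcd m n) := by
          have := norm_gs_sqf q χ hsf (-(n : ℤ))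
          rwa [hcond, hqr, hgcdn] at this
        have hg3 : ‖gs (1 : DirichletCharacter ℂ q) 1‖ ≤ 1 := by
          rw [gs_one, cq_one q hq1]
          exact MainS_moeb q
        rw [norm_mul, hinvn, norm_mul, norm_mul, norm_mul]
        have h5 : ‖gs (1 : DirichletCharacter ℂ q) 1‖ * ‖gs χ 1‖ * ‖gs χ (-(n : ℤ))‖ * ‖X‖ ≤
            1 * Real.sqrt r * (Real.sqrt r * sgm (Nat.gcd m n)) * I0 P N H n := by
          have := MainS_sgm_nonneg (Nat.gcd m n)
          gcongr
        have h6 : 1 * Real.sqrt r * (Real.sqrt r * sgm (Nat.gcd m n)) * I0 P N H n =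
            r * sgm (Nat.gcd m n) * I0 P N H n := by
          rw [one_mul, ← mul_assoc, hsqrt]
        rw [h6] at h5
        refine (mul_le_mul_of_nonneg_left h5 (by positivity)).trans ?_
        rw [htot hcop, hB]
        have hrt : (0 : ℝ) < r.totient := by exact_mod_cast Nat.totient_pos.2 (Nat.pos_of_ne_zero hr0)
        have hmt : (0 : ℝ) < m.totient := by exact_mod_cast Nat.totient_pos.2 (Nat.pos_of_ne_zero hm0)
        have h7 : I0 P N H n * (r * sgm (Nat.gcd r n) / (r.totient : ℝ) ^ 2) *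
            (sgm (Nat.gcd m n) / (m.totient : ℝ) ^ 2) =
            ((((r.totient : ℝ) * m.totient) ^ 2)⁻¹ * (r * sgm (Nat.gcd m n) * I0 P N H n)) *
              sgm (Nat.gcd r n) := by
          field_simp
        rw [h7]
        refine le_mul_of_one_le_right ?_ hsr
        have := MainS_sgm_nonneg (Nat.gcd m n)
        positivity
      · have hz : gs (1 : DirichletCharacter ℂ q) 1 = 0 := by
          rw [gs_one, cq_one q hq1, ArithmeticFunction.moebius_eq_zero_of_not_squarefree hsf]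
          simp
        rw [hz]
        simpa using hB0
    have hlast : ‖((q.totient : ℂ) ^ 2)⁻¹ * (gs χ 1 * gs χ 1 * gs (1 : DirichletCharacter ℂ q) (-(n : ℤ)) *
        II P N H χ χ n)‖ ≤ B := by
      by_cases hz : gs χ 1 = 0
      · rw [hz]
        simpa using hB0
      · have hcop : m.Coprime r := by
          have := (gs_one_ne_zero q χ hz).2
          rwa [hcond, hqr] at this
        have hg3 : ‖gs (1 : DirichletCharacter ℂ q) (-(n : ℤ))‖ ≤ sgm (Nat.gcd r n) * sgm (Nat.gcd m n) := by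
          rw [gs_one]
          have h5 := norm_cq_le q hq1 (-(n : ℤ))
          rw [hgcdq] at h5
          have h6 : Nat.gcd q n = Nat.gcd r n * Nat.gcd m n := by
            rw [hm]
            rw [Nat.gcd_comm (r * m) n, Nat.Coprime.gcd_mul n hcop.symm, Nat.gcd_comm n r, Nat.gcd_comm n m]
          have h7 : sgm (Nat.gcd q n) = sgm (Nat.gcd r n) * sgm (Nat.gcd m n) := by
            rw [h6]
            refine MainS_sgm_mul _ _ ?_
            exact (hcop.symm.coprime_dvd_left (Nat.gcd_dvd_left r n)).coprime_dvd_right (Nat.gcd_dvd_left m n)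
          rw [← h7]
          exact h5
        rw [norm_mul, hinvn, norm_mul, norm_mul, norm_mul]
        have h5 : ‖gs χ 1‖ * ‖gs χ 1‖ * ‖gs (1 : DirichletCharacter ℂ q) (-(n : ℤ))‖ * ‖II P N H χ χ n‖ ≤
            Real.sqrt r * Real.sqrt r * (sgm (Nat.gcd r n) * sgm (Nat.gcd m n)) * I0 P N H n := by
          have := MainS_sgm_nonneg (Nat.gcd m n)
          have := MainS_sgm_nonneg (Nat.gcd r n)
          have h8 := II_le_I0 q P N H χ χ n
          gcongr
        rw [hsqrt] at h5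
        refine (mul_le_mul_of_nonneg_left h5 (by positivity)).trans ?_
        rw [htot hcop, hB]
        have hrt : (0 : ℝ) < r.totient := by exact_mod_cast Nat.totient_pos.2 (Nat.pos_of_ne_zero hr0)
        have hmt : (0 : ℝ) < m.totient := by exact_mod_cast Nat.totient_pos.2 (Nat.pos_of_ne_zero hm0)
        refine le_of_eq ?_
        field_simp
    rw [hdiff, mul_add, mul_add]
    have hc1 := hmixed (II P N H 1 χ n) (II_le_I0 q P N H 1 χ n)
    have hc2 : ‖((q.totient : ℂ) ^ 2)⁻¹ * (gs χ 1 * gs (1 : DirichletCharacter ℂ q) 1 * gs χ (-(n : ℤ)) *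
        II P N H χ 1 n)‖ ≤ B := by
      have h9 := hmixed (II P N H χ 1 n) (II_le_I0 q P N H χ 1 n)
      rwa [mul_comm (gs (1 : DirichletCharacter ℂ q) 1) (gs χ 1)] at h9
    refine (norm_add_le _ _).trans ?_
    refine (add_le_add hc1 ((norm_add_le _ _).trans (add_le_add hc2 hlast))).trans ?_
    rw [hB]
    refine le_of_eq ?_
    ring
  · have hMC : MC q e = {1} := by
      ext ψ
      rw [MainS_mem, mem_singleton, cls_eq_ch1_iff]
      constructor
      · rintro (h | h)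
        · exact absurd ⟨ψ, h⟩ hex
        · exact h
      · exact Or.inr
    have hz : MainS_T P N H e n q - MainS_A P N H n q = 0 := by
      rw [MainS_T, hMC, sum_singleton, sum_singleton, MainS_pair11 P N H n q hqP, sub_self]
    rw [hz, norm_zero]
    exact hrhs

/-- Proof. `MC q e` consists of `1` and, if `r = e.1` divides `q`, of the character `χ` induced by `e`
(`χ⁻¹ = χ`, `χ² = 1` as functions on units). The pair `(1,1)` gives `SG · I0` as in `MT_ch1`. For `(1,χ)` and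
`(χ,1)`: `|μ(q)| ‖gs χ 1‖ ‖gs χ (-n)‖ ≤ r σ((q/r, n))` (`norm_gs_one_le`, `norm_gs_sqf`; `q` squarefree). For `(χ,χ)`:
`‖gs χ 1‖² ≤ r`, zero unless `m = q/r` is coprime to `r` (`gs_one_ne_zero`), and then
`‖c_q(n)‖ ≤ σ((rm,n)) = σ((r,n)) σ((m,n))` (`norm_cq_le`). In all cases `φ(q) = φ(r) φ(m)` when `(m,r) = 1`
(which holds in the first case too since `q` is squarefree), `‖II‖ ≤ I0` (`II_le_I0`), and `σ((r,n)) ≥ 1`. -/
theorem MT_exc (P N H n : ℕ) (e : CH) (he : e ∈ prims P) (he1 : e ≠ ch1) (h2 : e.2 ^ 2 = 1) :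
    ‖MT P N H e n - SG P n * I0 P N H n‖ ≤
      3 * I0 P N H n * ((e.1 : ℝ) * sgm (Nat.gcd e.1 n) / (e.1.totient : ℝ) ^ 2) * KK P n := by
  have hI := I0_nonneg P N H n
  have hr0 : 1 ≤ e.1 := ((mem_prims P e).1 he).1
  have hsr := MainS_sgm_nonneg (Nat.gcd e.1 n)
  have h3 : MT P N H e n - SG P n * I0 P N H n =
      ∑ q ∈ Icc 1 P, (MainS_T P N H e n q - MainS_A P N H n q) := by
    rw [sum_sub_distrib]
    unfold MT SG MainS_T MainS_A
    rw [sum_mul]
  rw [h3]
  refine (norm_sum_le _ _).trans ?_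
  refine (sum_le_sum fun q hq => MainS_q P N H n e he1 h2 q (mem_Icc.1 hq).1 (mem_Icc.1 hq).2).trans ?_
  rw [← sum_filter, ← mul_sum]
  refine mul_le_mul_of_nonneg_left ?_ (by positivity)
  have hinj : Set.InjOn (fun q : ℕ => q / e.1) ((Icc 1 P).filter (fun q => e.1 ∣ q) : Finset ℕ) := by
    intro a ha b hb hab
    have ha' := (mem_filter.1 (mem_coe.1 ha)).2
    have hb' := (mem_filter.1 (mem_coe.1 hb)).2
    simp only at hab
    rw [← Nat.div_mul_cancel ha', ← Nat.div_mul_cancel hb', hab]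
  rw [← sum_image (f := fun m : ℕ => sgm (Nat.gcd m n) / (m.totient : ℝ) ^ 2) hinj, KK]
  refine sum_le_sum_of_subset_of_nonneg ?_ fun m _ _ => ?_
  · intro m hm
    obtain ⟨q, hq, rfl⟩ := mem_image.1 hm
    obtain ⟨hq1, hq2⟩ := mem_filter.1 hq
    obtain ⟨hq3, hq4⟩ := mem_Icc.1 hq1
    refine mem_Icc.2 ⟨Nat.div_pos (Nat.le_of_dvd (by omega) hq2) (by omega), (Nat.div_le_self _ _).trans hq4⟩
  · have := MainS_sgm_nonneg (Nat.gcd m n)
    positivity

end Pool.Agent.Lib.MP_629a14_nt.Th
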