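import Mathlib

/-! Vaughan's identity. -/

set_option autoImplicit false

namespace Pool.Agent.Lib.MP_629a14_nt.Th

open Finset ArithmeticFunction

private lemma moebius_sum (k : ℕ) (hk : 1 < k) : ∑ d ∈ k.divisors, (moebius d : ℝ) = 0 := by
  have h : (moebius * (zeta : ArithmeticFunction ℤ)) k = (1 : ArithmeticFunction ℤ) k := by
    rw [moebius_mul_coe_zeta]
  rw [coe_mul_zeta_apply, one_apply_ne (by omega)] at h
  exact_mod_cast h

private lemma lam (n : ℕ) : (vonMangoldt n : ℝ) =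
    ∑ d ∈ n.divisors, (moebius d : ℝ) * Real.log ((n / d : ℕ) : ℝ) := by
  rw [← moebius_mul_log_eq_vonMangoldt, mul_apply,
    ← Nat.sum_divisorsAntidiagonal (fun d m => (moebius d : ℝ) * Real.log ((m : ℕ) : ℝ))]
  rfl

private lemma zero_part (U n : ℕ) (hn : U < n) :
    ∑ d ∈ n.divisors, ∑ m ∈ (n / d).divisors.filter (fun m => m ≤ U),
      (moebius d : ℝ) * vonMangoldt m = 0 := by
  rw [Finset.sum_comm' (s' := fun m => (n / m).divisors) (t' := n.divisors.filter (fun m => m ≤ U))]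
  · refine Finset.sum_eq_zero fun m hm => ?_
    rw [Finset.mem_filter, Nat.mem_divisors] at hm
    rw [← Finset.sum_mul, moebius_sum, zero_mul]
    have hm0 : 0 < m := Nat.pos_of_dvd_of_pos hm.1.1 (by omega)
    obtain ⟨c, hc⟩ := hm.1.1
    rw [hc, Nat.mul_div_cancel_left _ hm0]
    by_contra hlt
    have : c ≤ 1 := by omega
    have : m * c ≤ m * 1 := Nat.mul_le_mul_left _ this
    omega
  · intro d m
    simp only [Nat.mem_divisors, Finset.mem_filter]
    constructor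
    · rintro ⟨⟨hd, hn0⟩, ⟨hm, hm0⟩, hmU⟩
      have h1 : d * m ∣ n := (Nat.dvd_div_iff_mul_dvd hd).1 hm
      have h2 : m ∣ n := (Dvd.intro_left d rfl).trans h1
      refine ⟨⟨(Nat.dvd_div_iff_mul_dvd h2).2 (by rwa [mul_comm] at h1), ?_⟩, ⟨h2, hn0⟩, hmU⟩
      exact (Nat.div_pos (Nat.le_of_dvd (by omega) h2) (Nat.pos_of_dvd_of_pos h2 (by omega))).ne'
    · rintro ⟨⟨hd, hm0⟩, ⟨hm, hn0⟩, hmU⟩
      have h1 : m * d ∣ n := (Nat.dvd_div_iff_mul_dvd hm).1 hd
      have h2 : d ∣ n := (Dvd.intro_left m rfl).trans h1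
      refine ⟨⟨h2, hn0⟩, ⟨(Nat.dvd_div_iff_mul_dvd h2).2 (by rwa [mul_comm] at h1), ?_⟩, hmU⟩
      exact (Nat.div_pos (Nat.le_of_dvd (by omega) h2) (Nat.pos_of_dvd_of_pos h2 (by omega))).ne'

/-- Proof. `Λ(n) = ∑_{d ∣ n} μ(d) log(n/d)`, `log = Λ * 1`. Write the sum over `d > V` as
`∑_{d ∣ n, d > V} μ(d) ∑_{m ∣ n/d} Λ(m)` and split at `m ≤ U`. Since `∑_{d m ∣ n, m ≤ U} μ(d) Λ(m)
= ∑_{m ∣ n, m ≤ U} Λ(m) ∑_{d ∣ n/m} μ(d) = 0` for `n > U` (only `m = n` would contribute), the part `d > V`,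
`m ≤ U` equals minus the part `d ≤ V`, `m ≤ U`. -/
theorem vaughan_identity (U V n : ℕ) (hn : U < n) :
    (vonMangoldt n : ℝ) =
      ∑ d ∈ n.divisors.filter (fun d => d ≤ V), (moebius d : ℝ) * Real.log ((n / d : ℕ) : ℝ) -
      ∑ d ∈ n.divisors.filter (fun d => d ≤ V), ∑ m ∈ (n / d).divisors.filter (fun m => m ≤ U),
        (moebius d : ℝ) * vonMangoldt m +
      ∑ d ∈ n.divisors.filter (fun d => V < d), ∑ m ∈ (n / d).divisors.filter (fun m => U < m),
        (moebius d : ℝ) * vonMangoldt m := by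
  have h1 := lam n
  rw [← Finset.sum_filter_add_sum_filter_not n.divisors (fun d => d ≤ V)] at h1
  have h0 := zero_part U n hn
  rw [← Finset.sum_filter_add_sum_filter_not n.divisors (fun d => d ≤ V)] at h0
  simp only [not_le] at h1 h0
  have h2 : ∑ d ∈ n.divisors.filter (fun d => V < d), (moebius d : ℝ) * Real.log ((n / d : ℕ) : ℝ) =
      ∑ d ∈ n.divisors.filter (fun d => V < d), ∑ m ∈ (n / d).divisors.filter (fun m => m ≤ U),
        (moebius d : ℝ) * vonMangoldt m +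
      ∑ d ∈ n.divisors.filter (fun d => V < d), ∑ m ∈ (n / d).divisors.filter (fun m => U < m),
        (moebius d : ℝ) * vonMangoldt m := by
    rw [← Finset.sum_add_distrib]
    refine Finset.sum_congr rfl fun d _ => ?_
    rw [← vonMangoldt_sum, Finset.mul_sum,
      ← Finset.sum_filter_add_sum_filter_not (n / d).divisors (fun m => m ≤ U)]
    simp only [not_le]
  rw [h2] at h1
  linarith

end Pool.Agent.Lib.MP_629a14_nt.Th
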