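import Pool.Agent.Lib.MP_629a14_nt.Th.VMin

/-! Type I sums. -/

set_option autoImplicit false

namespace Pool.Agent.Lib.MP_629a14_nt.Th

open Finset Pool.Agent.Lib.MP_629a14_nt

private theorem VTypeI_icc (Y : ℕ) : Icc 1 Y = Ioc 0 Y := by
  ext m
  simp only [mem_Icc, mem_Ioc]
  omega

private theorem VTypeI_norm (x : ℝ) : ‖ee x‖ = 1 := by
  unfold ee
  have h : (2 * (Real.pi : ℂ) * (x : ℂ) * Complex.I) = ((2 * Real.pi * x : ℝ) : ℂ) * Complex.I := by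
    push_cast
    ring
  rw [h, Complex.norm_exp_ofReal_mul_I]

private theorem VTypeI_dn_nonneg (x : ℝ) : 0 ≤ dn x := abs_nonneg _

private theorem VTypeI_div (X d : ℕ) : ((X / d : ℕ) : ℝ) ≤ (X : ℝ) / d := Nat.cast_div_le

private theorem VTypeI_tail (j Y : ℕ) (x : ℝ) : ‖∑ m ∈ Ioc j Y, ee (m * x)‖ ≤ Y := by
  refine (norm_sum_le _ _).trans ?_
  simp only [VTypeI_norm, sum_const, Nat.card_Ioc, nsmul_eq_mul, mul_one]
  exact_mod_cast Nat.sub_le Y j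

private theorem VTypeI_parts (Y : ℕ) (e : ℕ → ℂ) (M : ℝ)
    (hM : ∀ j, ‖∑ m ∈ Ioc j Y, e m‖ ≤ M) :
    ‖∑ m ∈ Icc 1 Y, (Real.log m : ℂ) * e m‖ ≤ Real.log Y * M := by
  have hl : ∀ m : ℕ, (Real.log m : ℝ) =
      ∑ j ∈ range m, (Real.log ((j + 1 : ℕ) : ℝ) - Real.log (j : ℕ)) := by
    intro m
    rw [Finset.sum_range_sub (fun i : ℕ => Real.log (i : ℝ)) m]
    simp
  have h1 : ∑ m ∈ Icc 1 Y, (Real.log m : ℂ) * e m =
      ∑ j ∈ range Y, ((Real.log ((j + 1 : ℕ) : ℝ) - Real.log (j : ℕ) : ℝ) : ℂ) *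
        ∑ m ∈ Ioc j Y, e m := by
    simp_rw [Finset.mul_sum]
    have h2 : ∀ m ∈ Icc 1 Y, (Real.log m : ℂ) * e m =
        ∑ j ∈ range m, ((Real.log ((j + 1 : ℕ) : ℝ) - Real.log (j : ℕ) : ℝ) : ℂ) * e m := by
      intro m _
      rw [← Finset.sum_mul]
      congr 1
      rw [hl m]
      push_cast
      rfl
    rw [Finset.sum_congr rfl h2]
    refine Finset.sum_comm' ?_
    intro m j
    simp only [mem_Icc, mem_range, mem_Ioc]
    omega
  rw [h1]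
  refine (norm_sum_le _ _).trans ?_
  rw [hl Y, Finset.sum_mul]
  refine Finset.sum_le_sum fun j _ => ?_
  rw [norm_mul]
  have hw : 0 ≤ Real.log ((j + 1 : ℕ) : ℝ) - Real.log (j : ℕ) := by
    rcases Nat.eq_zero_or_pos j with rfl | hj
    · simp
    · have hj' : (0 : ℝ) < j := by exact_mod_cast hj
      have := Real.log_le_log hj' (show (j : ℝ) ≤ ((j + 1 : ℕ) : ℝ) by push_cast; linarith)
      linarith
  rw [Complex.norm_real, Real.norm_eq_abs, abs_of_nonneg hw]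
  exact mul_le_mul_of_nonneg_left (hM j) hw

/-- `‖∑_{m ≤ X/d} e(mdα)‖ ≤ g(d)` with `g` as in `sum_min` (`geom_dn`). -/
theorem typeI_one : ∃ C : ℝ, 1 ≤ C ∧ ∀ (q X Z : ℕ) (a : ℤ) (α B : ℝ) (c : ℕ → ℂ), 1 ≤ q → 1 ≤ X →
    Z ≤ X → IsCoprime a (q : ℤ) → |α - a / q| ≤ 1 / (q : ℝ) ^ 2 → 0 ≤ B → (∀ d, ‖c d‖ ≤ B) →
    ‖∑ d ∈ Icc 1 Z, c d * ∑ m ∈ Icc 1 (X / d), ee (d * m * α)‖ ≤
      C * B * ((X : ℝ) / q + Z + q) * (1 + Real.log (q * X)) ^ 2 := by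
  obtain ⟨C, hC, h⟩ := sum_min
  refine ⟨C, hC, fun q X Z a α B c hq hX hZ ha hα hB hc => ?_⟩
  have h1 := h q X Z a α (fun d => ‖∑ m ∈ Icc 1 (X / d), ee (d * m * α)‖) hq hX hZ ha hα
    (fun d _ => ?_)
  · calc ‖∑ d ∈ Icc 1 Z, c d * ∑ m ∈ Icc 1 (X / d), ee (d * m * α)‖
        ≤ ∑ d ∈ Icc 1 Z, B * ‖∑ m ∈ Icc 1 (X / d), ee (d * m * α)‖ := by
          refine (norm_sum_le _ _).trans (Finset.sum_le_sum fun d _ => ?_)
          rw [norm_mul]
          exact mul_le_mul_of_nonneg_right (hc d) (norm_nonneg _)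
      _ = B * ∑ d ∈ Icc 1 Z, ‖∑ m ∈ Icc 1 (X / d), ee (d * m * α)‖ := by rw [Finset.mul_sum]
      _ ≤ B * (C * ((X : ℝ) / q + Z + q) * (1 + Real.log (q * X)) ^ 2) :=
          mul_le_mul_of_nonneg_left h1 hB
      _ = _ := by ring
  · have e : ∑ m ∈ Icc 1 (X / d), ee (d * m * α) = ∑ m ∈ Ioc 0 (X / d), ee (m * (d * α)) := by
      rw [VTypeI_icc]
      refine Finset.sum_congr rfl fun m _ => ?_
      congr 1
      ring
    refine ⟨norm_nonneg _, ?_, ?_⟩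
    · show ‖∑ m ∈ Icc 1 (X / d), ee (d * m * α)‖ ≤ _
      rw [e]
      exact (VTypeI_tail 0 _ _).trans (VTypeI_div X d)
    · show ‖∑ m ∈ Icc 1 (X / d), ee (d * m * α)‖ * _ ≤ _
      rw [e]
      exact (geom_dn 0 (X / d) (d * α)).trans (by norm_num)

/-- Partial summation: `∑_{m ≤ Y} log m e(mx) = log Y ∑_{m ≤ Y} e(mx) - ∑_{j < Y} (log(j+1) - log j) ∑_{m ≤ j} e(mx)`. -/
theorem typeI_log : ∃ C : ℝ, 1 ≤ C ∧ ∀ (q X Z : ℕ) (a : ℤ) (α B : ℝ) (c : ℕ → ℂ), 1 ≤ q → 1 ≤ X →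
    Z ≤ X → IsCoprime a (q : ℤ) → |α - a / q| ≤ 1 / (q : ℝ) ^ 2 → 0 ≤ B → (∀ d, ‖c d‖ ≤ B) →
    ‖∑ d ∈ Icc 1 Z, c d * ∑ m ∈ Icc 1 (X / d), (Real.log m : ℂ) * ee (d * m * α)‖ ≤
      C * B * ((X : ℝ) / q + Z + q) * (1 + Real.log (q * X)) ^ 3 := by
  obtain ⟨C, hC, h⟩ := sum_min
  refine ⟨C, hC, fun q X Z a α B c hq hX hZ ha hα hB hc => ?_⟩
  have hX1 : (1 : ℝ) ≤ X := by exact_mod_cast hX
  have hq1 : (1 : ℝ) ≤ q := by exact_mod_cast hq
  have hlX : 0 ≤ Real.log X := Real.log_nonneg hX1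
  have hL : 0 < 1 + Real.log X := by linarith
  have hLq : 1 + Real.log X ≤ 1 + Real.log (q * X) := by
    have := Real.log_le_log (by linarith : (0 : ℝ) < X) (by nlinarith : (X : ℝ) ≤ q * X)
    linarith
  have h1 := h q X Z a α
    (fun d => ‖∑ m ∈ Icc 1 (X / d), (Real.log m : ℂ) * ee (d * m * α)‖ / (1 + Real.log X))
    hq hX hZ ha hα (fun d hd => ?_)
  · have h2 : ∑ d ∈ Icc 1 Z, ‖∑ m ∈ Icc 1 (X / d), (Real.log m : ℂ) * ee (d * m * α)‖ ≤
        (1 + Real.log X) * (C * ((X : ℝ) / q + Z + q) * (1 + Real.log (q * X)) ^ 2) := by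
      rw [← Finset.sum_div, div_le_iff₀ hL] at h1
      linarith
    have h3 : 0 ≤ C * ((X : ℝ) / q + Z + q) * (1 + Real.log (q * X)) ^ 2 := by positivity
    calc ‖∑ d ∈ Icc 1 Z, c d * ∑ m ∈ Icc 1 (X / d), (Real.log m : ℂ) * ee (d * m * α)‖
        ≤ ∑ d ∈ Icc 1 Z, B * ‖∑ m ∈ Icc 1 (X / d), (Real.log m : ℂ) * ee (d * m * α)‖ := by
          refine (norm_sum_le _ _).trans (Finset.sum_le_sum fun d _ => ?_)
          rw [norm_mul]
          exact mul_le_mul_of_nonneg_right (hc d) (norm_nonneg _)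
      _ = B * ∑ d ∈ Icc 1 Z, ‖∑ m ∈ Icc 1 (X / d), (Real.log m : ℂ) * ee (d * m * α)‖ := by
          rw [Finset.mul_sum]
      _ ≤ B * ((1 + Real.log (q * X)) *
            (C * ((X : ℝ) / q + Z + q) * (1 + Real.log (q * X)) ^ 2)) :=
          mul_le_mul_of_nonneg_left (h2.trans (mul_le_mul_of_nonneg_right hLq h3)) hB
      _ = _ := by ring
  · have hd1 : 1 ≤ d := (mem_Icc.1 hd).1
    have hYX : X / d ≤ X := Nat.div_le_self X d
    have hlY : Real.log ((X / d : ℕ) : ℝ) ≤ 1 + Real.log X := by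
      rcases Nat.eq_zero_or_pos (X / d) with h0 | h0
      · rw [h0]
        simp only [Nat.cast_zero, Real.log_zero]
        linarith
      · have h4 : (0 : ℝ) < ((X / d : ℕ) : ℝ) := by exact_mod_cast h0
        have := Real.log_le_log h4 (by exact_mod_cast hYX : ((X / d : ℕ) : ℝ) ≤ X)
        linarith
    have hlY0 : 0 ≤ Real.log ((X / d : ℕ) : ℝ) := Real.log_natCast_nonneg _
    have e : ∑ m ∈ Icc 1 (X / d), (Real.log m : ℂ) * ee (d * m * α) =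
        ∑ m ∈ Icc 1 (X / d), (Real.log m : ℂ) * ee (m * (d * α)) := by
      refine Finset.sum_congr rfl fun m _ => ?_
      congr 2
      ring
    refine ⟨by positivity, ?_, ?_⟩
    · show ‖∑ m ∈ Icc 1 (X / d), (Real.log m : ℂ) * ee (d * m * α)‖ / (1 + Real.log X) ≤ _
      rw [div_le_iff₀ hL, e]
      have h5 := VTypeI_parts (X / d) (fun m => ee (m * (d * α))) ((X / d : ℕ) : ℝ)
        (fun j => VTypeI_tail j _ _)
      refine h5.trans ?_
      rw [mul_comm]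
      exact mul_le_mul (VTypeI_div X d) hlY hlY0 (by positivity)
    · show ‖∑ m ∈ Icc 1 (X / d), (Real.log m : ℂ) * ee (d * m * α)‖ / (1 + Real.log X) * _ ≤ _
      rw [div_mul_eq_mul_div, div_le_iff₀ hL, e, one_mul]
      have hdn := VTypeI_dn_nonneg (d * α)
      have h5 := VTypeI_parts (X / d) (fun m => (dn (d * α) : ℂ) * ee (m * (d * α))) (1 / 2)
        (fun j => ?_)
      · have h6 : ∑ m ∈ Icc 1 (X / d), (Real.log m : ℂ) * ((dn (d * α) : ℂ) * ee (m * (d * α))) =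
            (∑ m ∈ Icc 1 (X / d), (Real.log m : ℂ) * ee (m * (d * α))) * (dn (d * α) : ℂ) := by
          rw [Finset.sum_mul]
          refine Finset.sum_congr rfl fun m _ => ?_
          ring
        rw [h6, norm_mul, Complex.norm_real, Real.norm_eq_abs, abs_of_nonneg hdn] at h5
        refine h5.trans ?_
        linarith
      · rw [← Finset.mul_sum, norm_mul, Complex.norm_real, Real.norm_eq_abs, abs_of_nonneg hdn,
          mul_comm]
        exact geom_dn j (X / d) (d * α)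

end Pool.Agent.Lib.MP_629a14_nt.Th
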