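import Pool.Agent.Lib.MP_629a14_nt.Th.VMin

/-! Type II sums. -/

set_option autoImplicit false

namespace Pool.Agent.Lib.MP_629a14_nt.Th

open Finset Pool.Agent.Lib.MP_629a14_nt

private noncomputable def tIIg (M : ℕ) (α : ℝ) (h : ℕ) : ℝ :=
  if dn (h * α) = 0 then (M : ℝ) else min (M : ℝ) (1 / dn (h * α))

private theorem tII_dn (x : ℝ) : 0 ≤ dn x := abs_nonneg _

private theorem tIIg_nonneg (M : ℕ) (α : ℝ) (h : ℕ) : 0 ≤ tIIg M α h := by
  unfold tIIg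
  split_ifs
  · exact Nat.cast_nonneg _
  · exact le_min (Nat.cast_nonneg _) (div_nonneg zero_le_one (tII_dn _))

private theorem tIIg_le (M : ℕ) (α : ℝ) (h : ℕ) : tIIg M α h ≤ M := by
  unfold tIIg
  split_ifs
  · exact le_rfl
  · exact min_le_left _ _

private theorem tIIg_mul (M : ℕ) (α : ℝ) (h : ℕ) : tIIg M α h * dn (h * α) ≤ 1 := by
  unfold tIIg
  split_ifs with h0
  · rw [h0, mul_zero]
    exact zero_le_one
  · have h1 : 0 < dn (h * α) := lt_of_le_of_ne (tII_dn _) (Ne.symm h0)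
    calc min (M : ℝ) (1 / dn (h * α)) * dn (h * α) ≤ 1 / dn (h * α) * dn (h * α) :=
          mul_le_mul_of_nonneg_right (min_le_right _ _) h1.le
      _ = 1 := by field_simp

private theorem le_tIIg (M : ℕ) (α : ℝ) (h : ℕ) (y : ℝ) (h1 : y ≤ M) (h2 : y * dn (h * α) ≤ 1) :
    y ≤ tIIg M α h := by
  unfold tIIg
  split_ifs with h0
  · exact h1
  · have h3 : 0 < dn (h * α) := lt_of_le_of_ne (tII_dn _) (Ne.symm h0)
    exact le_min h1 ((le_div_iff₀ h3).2 h2)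

private theorem tII_ker0 (M L : ℕ) (hL : L ≤ 2 * M) (h : ℕ) (α : ℝ) :
    ‖∑ m ∈ Ioc M L, ee (m * (h * α))‖ ≤ tIIg M α h := by
  refine le_tIIg M α h _ ?_ ((geom_dn M L (h * α)).trans (by norm_num))
  refine (norm_sum_le _ _).trans ?_
  simp only [norm_ee, sum_const, Nat.card_Ioc, nsmul_eq_mul, mul_one]
  exact_mod_cast (by omega : L - M ≤ M)

private theorem tII_ker (M L : ℕ) (hL : L ≤ 2 * M) (n n' : ℕ) (α : ℝ) :
    ‖∑ m ∈ Ioc M L, ee (m * n * α) * (starRingEnd ℂ) (ee (m * n' * α))‖ ≤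
      tIIg M α ((n - n') + (n' - n)) := by
  rcases le_total n' n with h | h
  · have e : n - n' + (n' - n) = n - n' := by omega
    rw [e]
    refine le_trans (le_of_eq ?_) (tII_ker0 M L hL (n - n') α)
    congr 1
    refine sum_congr rfl fun m _ => ?_
    rw [conj_ee, ← ee_add]
    congr 1
    rw [Nat.cast_sub h]
    ring
  · have e : n - n' + (n' - n) = n' - n := by omega
    rw [e]
    refine le_trans (le_of_eq ?_) (tII_ker0 M L hL (n' - n) α)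
    rw [← Complex.norm_conj, map_sum]
    congr 1
    refine sum_congr rfl fun m _ => ?_
    rw [map_mul, Complex.conj_conj, conj_ee, ← ee_add]
    congr 1
    rw [Nat.cast_sub h]
    ring

private theorem tII_row (M Z n : ℕ) (α : ℝ) (hn : n ∈ Icc 1 Z) :
    ∑ n' ∈ Icc 1 Z, tIIg M α ((n - n') + (n' - n)) ≤ M + 2 * ∑ h ∈ Ioc 0 Z, tIIg M α h := by
  obtain ⟨h1, h2⟩ := mem_Icc.1 hn
  have hsplit : Icc 1 Z = ((Icc 1 Z).filter (fun n' => n' < n)) ∪ {n} ∪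
      ((Icc 1 Z).filter (fun n' => n < n')) := by
    ext x
    simp only [mem_union, mem_filter, mem_Icc, mem_singleton]
    omega
  have hle1 : ∑ n' ∈ (Icc 1 Z).filter (fun n' => n' < n), tIIg M α ((n - n') + (n' - n)) ≤
      ∑ h ∈ Ioc 0 Z, tIIg M α h := by
    have e1 : ∑ n' ∈ (Icc 1 Z).filter (fun n' => n' < n), tIIg M α ((n - n') + (n' - n)) =
        ∑ h ∈ ((Icc 1 Z).filter (fun n' => n' < n)).image (fun n' => n - n'), tIIg M α h := by
      rw [sum_image]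
      · refine sum_congr rfl fun x hx => ?_
        rw [mem_filter] at hx
        congr 1
        omega
      · intro x hx y hy hxy
        simp only [mem_coe, mem_filter] at hx hy
        simp only at hxy
        omega
    rw [e1]
    refine sum_le_sum_of_subset_of_nonneg ?_ fun h _ _ => tIIg_nonneg M α h
    intro x hx
    simp only [mem_image, mem_filter, mem_Icc] at hx
    obtain ⟨y, hy, rfl⟩ := hx
    rw [mem_Ioc]
    omega
  have hle2 : ∑ n' ∈ (Icc 1 Z).filter (fun n' => n < n'), tIIg M α ((n - n') + (n' - n)) ≤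
      ∑ h ∈ Ioc 0 Z, tIIg M α h := by
    have e1 : ∑ n' ∈ (Icc 1 Z).filter (fun n' => n < n'), tIIg M α ((n - n') + (n' - n)) =
        ∑ h ∈ ((Icc 1 Z).filter (fun n' => n < n')).image (fun n' => n' - n), tIIg M α h := by
      rw [sum_image]
      · refine sum_congr rfl fun x hx => ?_
        rw [mem_filter] at hx
        congr 1
        omega
      · intro x hx y hy hxy
        simp only [mem_coe, mem_filter] at hx hy
        simp only at hxy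
        omega
    rw [e1]
    refine sum_le_sum_of_subset_of_nonneg ?_ fun h _ _ => tIIg_nonneg M α h
    intro x hx
    simp only [mem_image, mem_filter, mem_Icc] at hx
    obtain ⟨y, hy, rfl⟩ := hx
    rw [mem_Ioc]
    omega
  rw [hsplit, sum_union, sum_union, sum_singleton]
  · have := tIIg_le M α (n - n + (n - n))
    linarith
  · rw [disjoint_singleton_right, mem_filter]
    omega
  · rw [disjoint_left]
    intro x hx hx'
    simp only [mem_union, mem_filter, mem_singleton] at hx hx'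
    omega

private theorem tII_quad (M X : ℕ) (hM : 1 ≤ M) (α : ℝ) (v : ℕ → ℂ) :
    ∑ m ∈ Ioc M (2 * M), ‖∑ n ∈ Icc 1 (X / m), v n * ee (m * n * α)‖ ^ 2 ≤
      (∑ n ∈ Icc 1 (X / M), ‖v n‖ ^ 2) * (M + 2 * ∑ h ∈ Ioc 0 (X / M), tIIg M α h) := by
  set Z := X / M with hZ
  set R := M + 2 * ∑ h ∈ Ioc 0 Z, tIIg M α h with hR
  -- the inner sum over a fixed range
  have hin : ∀ m ∈ Ioc M (2 * M), ∑ n ∈ Icc 1 (X / m), v n * ee (m * n * α) =
      ∑ n ∈ Icc 1 Z, if m ≤ X / n then v n * ee (m * n * α) else 0 := by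
    intro m hm
    obtain ⟨hm1, hm2⟩ := mem_Ioc.1 hm
    rw [← sum_filter]
    refine sum_congr ?_ fun _ _ => rfl
    ext n
    simp only [mem_Icc, mem_filter]
    constructor
    · rintro ⟨a1, a2⟩
      have a3 : n * m ≤ X := (Nat.le_div_iff_mul_le (by omega)).1 a2
      refine ⟨⟨a1, ?_⟩, ?_⟩
      · rw [hZ, Nat.le_div_iff_mul_le (by omega)]
        exact (Nat.mul_le_mul_left n hm1.le).trans a3
      · rw [Nat.le_div_iff_mul_le (by omega)]
        rw [mul_comm]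
        exact a3
    · rintro ⟨⟨a1, a2⟩, a3⟩
      refine ⟨a1, ?_⟩
      rw [Nat.le_div_iff_mul_le (by omega)] at a3 ⊢
      rw [mul_comm]
      exact a3
  have h1 : ∀ m ∈ Ioc M (2 * M), ((‖∑ n ∈ Icc 1 (X / m), v n * ee (m * n * α)‖ ^ 2 : ℝ) : ℂ) =
      ∑ n ∈ Icc 1 Z, ∑ n' ∈ Icc 1 Z, v n * (starRingEnd ℂ) (v n') *
        (if m ≤ X / n ∧ m ≤ X / n' then ee (m * n * α) * (starRingEnd ℂ) (ee (m * n' * α)) else 0) := by
    intro m hm
    rw [hin m hm]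
    push_cast
    rw [← Complex.mul_conj', map_sum, sum_mul_sum]
    refine sum_congr rfl fun n _ => sum_congr rfl fun n' _ => ?_
    by_cases c1 : m ≤ X / n <;> by_cases c2 : m ≤ X / n' <;> simp [c1, c2, map_mul] <;> ring
  have h2 : ((∑ m ∈ Ioc M (2 * M), ‖∑ n ∈ Icc 1 (X / m), v n * ee (m * n * α)‖ ^ 2 : ℝ) : ℂ) =
      ∑ n ∈ Icc 1 Z, ∑ n' ∈ Icc 1 Z, v n * (starRingEnd ℂ) (v n') *
        ∑ m ∈ Ioc M (min (2 * M) (min (X / n) (X / n'))),
          ee (m * n * α) * (starRingEnd ℂ) (ee (m * n' * α)) := by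
    rw [Complex.ofReal_sum, sum_congr rfl h1, sum_comm]
    refine sum_congr rfl fun n _ => ?_
    rw [sum_comm]
    refine sum_congr rfl fun n' _ => ?_
    rw [← mul_sum, ← sum_filter]
    congr 1
    refine sum_congr ?_ fun _ _ => rfl
    ext m
    simp only [mem_filter, mem_Ioc, le_min_iff]
    tauto
  have h3 : ∑ m ∈ Ioc M (2 * M), ‖∑ n ∈ Icc 1 (X / m), v n * ee (m * n * α)‖ ^ 2 ≤
      ∑ n ∈ Icc 1 Z, ∑ n' ∈ Icc 1 Z, ‖v n‖ * ‖v n'‖ * tIIg M α ((n - n') + (n' - n)) := by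
    have h4 : ∑ m ∈ Ioc M (2 * M), ‖∑ n ∈ Icc 1 (X / m), v n * ee (m * n * α)‖ ^ 2 =
        ‖((∑ m ∈ Ioc M (2 * M), ‖∑ n ∈ Icc 1 (X / m), v n * ee (m * n * α)‖ ^ 2 : ℝ) : ℂ)‖ := by
      rw [Complex.norm_real, Real.norm_eq_abs, abs_of_nonneg (sum_nonneg fun _ _ => by positivity)]
    rw [h4, h2]
    refine (norm_sum_le _ _).trans (sum_le_sum fun n _ => ?_)
    refine (norm_sum_le _ _).trans (sum_le_sum fun n' _ => ?_)
    rw [norm_mul, norm_mul, Complex.norm_conj]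
    exact mul_le_mul_of_nonneg_left (tII_ker M _ (min_le_left _ _) n n' α) (by positivity)
  refine h3.trans ?_
  have h5 : ∑ n ∈ Icc 1 Z, ∑ n' ∈ Icc 1 Z, ‖v n‖ * ‖v n'‖ * tIIg M α ((n - n') + (n' - n)) ≤
      ∑ n ∈ Icc 1 Z, ∑ n' ∈ Icc 1 Z, ((‖v n‖ ^ 2 * tIIg M α ((n - n') + (n' - n))) / 2 +
        (‖v n'‖ ^ 2 * tIIg M α ((n' - n) + (n - n'))) / 2) := by
    refine sum_le_sum fun n _ => sum_le_sum fun n' _ => ?_
    have h6 := tIIg_nonneg M α ((n - n') + (n' - n))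
    have e : n' - n + (n - n') = n - n' + (n' - n) := by omega
    rw [e]
    have h7 : ‖v n‖ * ‖v n'‖ ≤ (‖v n‖ ^ 2 + ‖v n'‖ ^ 2) / 2 := by nlinarith [sq_nonneg (‖v n‖ - ‖v n'‖)]
    have h8 := mul_le_mul_of_nonneg_right h7 h6
    linarith
  refine h5.trans ?_
  simp only [sum_add_distrib]
  have h6 : ∑ n ∈ Icc 1 Z, ∑ n' ∈ Icc 1 Z, (‖v n‖ ^ 2 * tIIg M α ((n - n') + (n' - n))) / 2 ≤
      (∑ n ∈ Icc 1 Z, ‖v n‖ ^ 2) * R / 2 := by
    rw [sum_mul, sum_div]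
    refine sum_le_sum fun n hn => ?_
    rw [← sum_div, ← mul_sum]
    have h7 := tII_row M Z n α hn
    have h8 := mul_le_mul_of_nonneg_left h7 (by positivity : 0 ≤ ‖v n‖ ^ 2)
    linarith
  have h7 : ∑ n ∈ Icc 1 Z, ∑ n' ∈ Icc 1 Z, (‖v n'‖ ^ 2 * tIIg M α ((n' - n) + (n - n'))) / 2 ≤
      (∑ n ∈ Icc 1 Z, ‖v n‖ ^ 2) * R / 2 := by
    rw [sum_comm]
    exact h6
  linarith

/-- Proof. Cauchy-Schwarz over `m`; then
`∑_{n,n'} |v_n||v_n'| ‖∑_{m ∈ (M,2M], m ≤ X/n, X/n'} e(m(n-n')α)‖ ≤ (∑ |v_n|²) (M + 2 ∑_{1 ≤ h ≤ X/M} g(h))` with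
`g(h) ≤ min(M, 1/dn(hα))` (`geom_dn`), and `sum_min_block` with `Z = X/M`, `B = M`. -/
theorem typeII : ∃ C : ℝ, 1 ≤ C ∧ ∀ (q X M : ℕ) (a : ℤ) (α : ℝ) (u v : ℕ → ℂ), 1 ≤ q → 1 ≤ M → M ≤ X →
    IsCoprime a (q : ℤ) → |α - a / q| ≤ 1 / (q : ℝ) ^ 2 →
    ‖∑ m ∈ Ioc M (2 * M), ∑ n ∈ Icc 1 (X / m), u m * v n * ee (m * n * α)‖ ^ 2 ≤
      C * (∑ m ∈ Ioc M (2 * M), ‖u m‖ ^ 2) * (∑ n ∈ Icc 1 (X / M), ‖v n‖ ^ 2) *
        ((M : ℝ) + X / q + X / M + q) * (1 + Real.log (q * X)) := by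
  obtain ⟨C, hC, hblock⟩ := sum_min_block
  refine ⟨1 + 2 * C, by linarith, fun q X M a α u v hq hM hMX hcop hα => ?_⟩
  have hq0 : (1 : ℝ) ≤ q := by exact_mod_cast hq
  have hM0 : (1 : ℝ) ≤ M := by exact_mod_cast hM
  have hX0 : (1 : ℝ) ≤ X := by exact_mod_cast hM.trans hMX
  have hU : 0 ≤ ∑ m ∈ Ioc M (2 * M), ‖u m‖ ^ 2 := sum_nonneg fun _ _ => by positivity
  have hV : 0 ≤ ∑ n ∈ Icc 1 (X / M), ‖v n‖ ^ 2 := sum_nonneg fun _ _ => by positivity
  -- Cauchy-Schwarz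
  have h1 : ‖∑ m ∈ Ioc M (2 * M), ∑ n ∈ Icc 1 (X / m), u m * v n * ee (m * n * α)‖ ^ 2 ≤
      (∑ m ∈ Ioc M (2 * M), ‖u m‖ ^ 2) *
        ∑ m ∈ Ioc M (2 * M), ‖∑ n ∈ Icc 1 (X / m), v n * ee (m * n * α)‖ ^ 2 := by
    have h2 : ‖∑ m ∈ Ioc M (2 * M), ∑ n ∈ Icc 1 (X / m), u m * v n * ee (m * n * α)‖ ≤
        ∑ m ∈ Ioc M (2 * M), ‖u m‖ * ‖∑ n ∈ Icc 1 (X / m), v n * ee (m * n * α)‖ := by
      refine (norm_sum_le _ _).trans (sum_le_sum fun m _ => le_of_eq ?_)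
      rw [← norm_mul, mul_sum]
      congr 1
      exact sum_congr rfl fun n _ => by ring
    calc ‖∑ m ∈ Ioc M (2 * M), ∑ n ∈ Icc 1 (X / m), u m * v n * ee (m * n * α)‖ ^ 2
        ≤ (∑ m ∈ Ioc M (2 * M), ‖u m‖ * ‖∑ n ∈ Icc 1 (X / m), v n * ee (m * n * α)‖) ^ 2 :=
          pow_le_pow_left₀ (norm_nonneg _) h2 2
      _ ≤ _ := sum_mul_sq_le_sq_mul_sq _ _ _
  have h2 := tII_quad M X hM α v
  have h3 := hblock q 0 (X / M) a α M (tIIg M α) hq hcop hα (Nat.cast_nonneg M)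
    (fun n _ => ⟨tIIg_nonneg M α n, tIIg_le M α n, tIIg_mul M α n⟩)
  rw [zero_add] at h3
  have hlq : 0 ≤ Real.log q := Real.log_nonneg hq0
  have hlX : 0 ≤ Real.log X := Real.log_nonneg hX0
  have hlog : Real.log (q * X) = Real.log q + Real.log X :=
    Real.log_mul (by positivity) (by positivity)
  have hZ : ((X / M : ℕ) : ℝ) ≤ X / M := Nat.cast_div_le
  have hZ0 : (0 : ℝ) ≤ ((X / M : ℕ) : ℝ) := Nat.cast_nonneg _
  set L : ℝ := 1 + Real.log (q * X) with hL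
  have hL1 : 1 ≤ L := by
    rw [hL, hlog]
    linarith
  have hLq : 1 + Real.log q ≤ L := by
    rw [hL, hlog]
    linarith
  have h4 : (((X / M : ℕ) : ℝ) / q + 1) * (M + q * (1 + Real.log q)) ≤
      ((M : ℝ) + X / q + X / M + q) * L := by
    have e : (((X / M : ℕ) : ℝ) / q + 1) * (M + q * (1 + Real.log q)) =
        ((X / M : ℕ) : ℝ) * M / q + ((X / M : ℕ) : ℝ) * (1 + Real.log q) + M + q * (1 + Real.log q) := by
      field_simp
      ring
    rw [e]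
    have e1 : ((X / M : ℕ) : ℝ) * M / q ≤ X / q * L := by
      have : ((X / M : ℕ) : ℝ) * M ≤ X := by
        calc ((X / M : ℕ) : ℝ) * M ≤ X / M * M := mul_le_mul_of_nonneg_right hZ (by linarith)
          _ = X := by field_simp
      calc ((X / M : ℕ) : ℝ) * M / q ≤ X / q := div_le_div_of_nonneg_right this (by linarith)
        _ = X / q * 1 := (mul_one _).symm
        _ ≤ X / q * L := mul_le_mul_of_nonneg_left hL1 (by positivity)
    have e2 : ((X / M : ℕ) : ℝ) * (1 + Real.log q) ≤ X / M * L :=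
      mul_le_mul hZ hLq (by linarith) (by positivity)
    have e3 : (M : ℝ) ≤ M * L := by nlinarith
    have e4 : (q : ℝ) * (1 + Real.log q) ≤ q * L := mul_le_mul_of_nonneg_left hLq (by linarith)
    nlinarith
  have h5 : (M : ℝ) + 2 * ∑ h ∈ Ioc 0 (X / M), tIIg M α h ≤
      (1 + 2 * C) * (((M : ℝ) + X / q + X / M + q) * L) := by
    have e3 : (M : ℝ) ≤ ((M : ℝ) + X / q + X / M + q) * L := by
      have e4 : (0 : ℝ) ≤ X / q + X / M + q := by positivity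
      calc (M : ℝ) ≤ ((M : ℝ) + X / q + X / M + q) * 1 := by linarith
        _ ≤ _ := mul_le_mul_of_nonneg_left hL1 (by linarith)
    have e5 := mul_le_mul_of_nonneg_left h4 (by linarith : 0 ≤ C)
    have e6 : C * ((((X / M : ℕ) : ℝ) / q + 1) * (M + q * (1 + Real.log q))) =
        C * (((X / M : ℕ) : ℝ) / q + 1) * (M + q * (1 + Real.log q)) := by ring
    rw [e6] at e5
    have e7 := h3.trans e5
    nlinarith
  calc ‖∑ m ∈ Ioc M (2 * M), ∑ n ∈ Icc 1 (X / m), u m * v n * ee (m * n * α)‖ ^ 2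
      ≤ (∑ m ∈ Ioc M (2 * M), ‖u m‖ ^ 2) *
          ((∑ n ∈ Icc 1 (X / M), ‖v n‖ ^ 2) * (M + 2 * ∑ h ∈ Ioc 0 (X / M), tIIg M α h)) :=
        h1.trans (mul_le_mul_of_nonneg_left h2 hU)
    _ ≤ (∑ m ∈ Ioc M (2 * M), ‖u m‖ ^ 2) *
          ((∑ n ∈ Icc 1 (X / M), ‖v n‖ ^ 2) * ((1 + 2 * C) * (((M : ℝ) + X / q + X / M + q) * L))) :=
        mul_le_mul_of_nonneg_left (mul_le_mul_of_nonneg_left h5 hV) hU
    _ = _ := by ring

end Pool.Agent.Lib.MP_629a14_nt.Th
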