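import Pool.Agent.Lib.MP_629a14_nt.Th.VIdent
import Pool.Agent.Lib.MP_629a14_nt.Th.VTypeI
import Pool.Agent.Lib.MP_629a14_nt.Th.VTypeII
import Pool.Agent.Lib.MP_629a14_nt.Th.DivSq

/-! Vinogradov's bound for the exponential sum over primes (Vaughan's form). -/

set_option autoImplicit false

namespace Pool.Agent.Lib.MP_629a14_nt.Th

open Finset Pool.Agent.Lib.MP_629a14_nt

private lemma vino_swapA (X : ℕ) (F : ℕ → ℕ → ℂ) :
    ∑ n ∈ Icc 1 X, ∑ d ∈ n.divisors, F d (n / d) =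
      ∑ d ∈ Icc 1 X, ∑ m ∈ Icc 1 (X / d), F d m := by
  rw [Finset.sum_sigma', Finset.sum_sigma']
  refine Finset.sum_bij' (fun p _ => ⟨p.2, p.1 / p.2⟩) (fun p _ => ⟨p.1 * p.2, p.1⟩)
    ?_ ?_ ?_ ?_ ?_
  · rintro ⟨n, d⟩ h
    simp only [mem_sigma, mem_Icc, Nat.mem_divisors] at h ⊢
    obtain ⟨⟨h1, h2⟩, h3, h4⟩ := h
    have hd : 0 < d := Nat.pos_of_dvd_of_pos h3 h1
    have hdn : d ≤ n := Nat.le_of_dvd h1 h3
    exact ⟨⟨hd, hdn.trans h2⟩, Nat.div_pos hdn hd, Nat.div_le_div_right h2⟩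
  · rintro ⟨d, m⟩ h
    simp only [mem_sigma, mem_Icc, Nat.mem_divisors] at h ⊢
    obtain ⟨⟨h1, h2⟩, h3, h4⟩ := h
    rw [Nat.le_div_iff_mul_le h1] at h4
    exact ⟨⟨Nat.mul_pos h1 h3, by rw [mul_comm]; exact h4⟩, dvd_mul_right _ _,
      (Nat.mul_pos h1 h3).ne'⟩
  · rintro ⟨n, d⟩ h
    simp only [mem_sigma, mem_Icc, Nat.mem_divisors] at h ⊢
    obtain ⟨⟨h1, h2⟩, h3, h4⟩ := h
    rw [Nat.mul_div_cancel' h3]
  · rintro ⟨d, m⟩ h
    simp only [mem_sigma, mem_Icc] at h ⊢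
    obtain ⟨⟨h1, h2⟩, h3, h4⟩ := h
    rw [Nat.mul_div_cancel_left _ h1]
  · rintro ⟨n, d⟩ h
    rfl

private lemma vino_swapB (X : ℕ) (F : ℕ → ℕ → ℂ) :
    ∑ d ∈ Icc 1 X, ∑ m ∈ Icc 1 (X / d), F d m = ∑ m ∈ Icc 1 X, ∑ d ∈ Icc 1 (X / m), F d m := by
  refine Finset.sum_comm' ?_
  intro d m
  simp only [mem_Icc]
  constructor
  · rintro ⟨⟨h1, h2⟩, h3, h4⟩
    rw [Nat.le_div_iff_mul_le h1] at h4
    refine ⟨⟨h1, ?_⟩, h3, ?_⟩
    · rw [Nat.le_div_iff_mul_le h3, mul_comm]; exact h4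
    · exact (Nat.le_mul_of_pos_right m h1).trans h4
  · rintro ⟨⟨h1, h2⟩, h3, h4⟩
    rw [Nat.le_div_iff_mul_le h3] at h2
    refine ⟨⟨h1, ?_⟩, h3, ?_⟩
    · exact (Nat.le_mul_of_pos_right d h3).trans h2
    · rw [Nat.le_div_iff_mul_le h1, mul_comm]; exact h2

private lemma vino_restrict (X V : ℕ) (hV : V ≤ X) (G : ℕ → ℂ) :
    ∑ d ∈ Icc 1 X, (if d ≤ V then G d else 0) = ∑ d ∈ Icc 1 V, G d := by
  rw [← Finset.sum_subset (Finset.Icc_subset_Icc_right hV : Icc 1 V ⊆ Icc 1 X)]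
  · refine Finset.sum_congr rfl fun d hd => ?_
    rw [mem_Icc] at hd
    rw [if_pos hd.2]
  · intro d hd hd'
    rw [mem_Icc] at hd hd'
    rw [if_neg]
    intro h
    exact hd' ⟨hd.1, h⟩

private lemma vino_T1 (X V : ℕ) (hV : V ≤ X) (α : ℝ) :
    ∑ n ∈ Icc 1 X, ((∑ d ∈ n.divisors.filter (fun d => d ≤ V),
      (ArithmeticFunction.moebius d : ℝ) * Real.log ((n / d : ℕ) : ℝ) : ℝ) : ℂ) * ee (n * α) =
    ∑ d ∈ Icc 1 V, (ArithmeticFunction.moebius d : ℂ) *
      ∑ m ∈ Icc 1 (X / d), (Real.log m : ℂ) * ee (d * m * α) := by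
  rw [← vino_restrict X V hV]
  have h := vino_swapA X (fun d m => if d ≤ V then (ArithmeticFunction.moebius d : ℂ) *
    ((Real.log m : ℂ) * ee (d * m * α)) else 0)
  have h1 : ∀ d, (∑ m ∈ Icc 1 (X / d), if d ≤ V then (ArithmeticFunction.moebius d : ℂ) *
      ((Real.log m : ℂ) * ee (d * m * α)) else 0) =
      if d ≤ V then (ArithmeticFunction.moebius d : ℂ) *
        ∑ m ∈ Icc 1 (X / d), (Real.log m : ℂ) * ee (d * m * α) else 0 := by
    intro d
    split_ifs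
    · rw [Finset.mul_sum]
    · simp
  simp only [h1] at h
  rw [← h]
  refine Finset.sum_congr rfl fun n hn => ?_
  rw [Finset.sum_filter]
  push_cast
  rw [Finset.sum_mul]
  refine Finset.sum_congr rfl fun d hd => ?_
  rw [Nat.mem_divisors] at hd
  have h2 : (d : ℝ) * ((n / d : ℕ) : ℝ) = n := by exact_mod_cast Nat.mul_div_cancel' hd.1
  rw [h2]
  split_ifs
  · push_cast; ring
  · simp

private lemma vino_swapT (X : ℕ) (h : ℕ → ℕ → ℂ) (α : ℝ) :
    ∑ n ∈ Icc 1 X, (∑ d ∈ n.divisors, ∑ m ∈ (n / d).divisors, h d m) * ee (n * α) =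
    ∑ d ∈ Icc 1 X, ∑ m ∈ Icc 1 (X / d), h d m *
      ∑ l ∈ Icc 1 (X / (d * m)), ee (((d * m : ℕ) : ℝ) * l * α) := by
  have h1 := vino_swapA X (fun d k => ∑ m ∈ k.divisors, h d m * ee (((d * k : ℕ) : ℝ) * α))
  have h2 : ∑ n ∈ Icc 1 X, (∑ d ∈ n.divisors, ∑ m ∈ (n / d).divisors, h d m) * ee (n * α) =
      ∑ n ∈ Icc 1 X, ∑ d ∈ n.divisors, ∑ m ∈ (n / d).divisors,
        h d m * ee (((d * (n / d) : ℕ) : ℝ) * α) := by
    refine Finset.sum_congr rfl fun n hn => ?_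
    rw [Finset.sum_mul]
    refine Finset.sum_congr rfl fun d hd => ?_
    rw [Nat.mem_divisors] at hd
    rw [Nat.mul_div_cancel' hd.1, Finset.sum_mul]
  rw [h2, h1]
  refine Finset.sum_congr rfl fun d hd => ?_
  have h3 := vino_swapA (X / d) (fun m l => h d m * ee (((d * (m * l) : ℕ) : ℝ) * α))
  have h4 : ∑ k ∈ Icc 1 (X / d), ∑ m ∈ k.divisors, h d m * ee (((d * k : ℕ) : ℝ) * α) =
      ∑ k ∈ Icc 1 (X / d), ∑ m ∈ k.divisors, h d m * ee (((d * (m * (k / m)) : ℕ) : ℝ) * α) := by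
    refine Finset.sum_congr rfl fun k hk => Finset.sum_congr rfl fun m hm => ?_
    rw [Nat.mem_divisors] at hm
    rw [Nat.mul_div_cancel' hm.1]
  rw [h4, h3]
  refine Finset.sum_congr rfl fun m hm => ?_
  rw [Nat.div_div_eq_div_mul, Finset.mul_sum]
  refine Finset.sum_congr rfl fun l hl => ?_
  congr 2
  push_cast
  ring

private lemma vino_T2 (X U V : ℕ) (hZ : V * U ≤ X) (α : ℝ) :
    ∑ n ∈ Icc 1 X, ((∑ d ∈ n.divisors.filter (fun d => d ≤ V),
      ∑ m ∈ (n / d).divisors.filter (fun m => m ≤ U),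
        (ArithmeticFunction.moebius d : ℝ) * ArithmeticFunction.vonMangoldt m : ℝ) : ℂ) *
          ee (n * α) =
    ∑ e ∈ Icc 1 (V * U), (∑ d ∈ e.divisors, if d ≤ V ∧ e / d ≤ U then
      (ArithmeticFunction.moebius d : ℂ) * (ArithmeticFunction.vonMangoldt (e / d) : ℂ) else 0) *
        ∑ l ∈ Icc 1 (X / e), ee (e * l * α) := by
  have h1 := vino_swapT X (fun d m => if d ≤ V ∧ m ≤ U then
      (ArithmeticFunction.moebius d : ℂ) * (ArithmeticFunction.vonMangoldt m : ℂ) else 0) α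
  have h2 := vino_swapA X (fun d m => (if d ≤ V ∧ m ≤ U then
      (ArithmeticFunction.moebius d : ℂ) * (ArithmeticFunction.vonMangoldt m : ℂ) else 0) *
      ∑ l ∈ Icc 1 (X / (d * m)), ee (((d * m : ℕ) : ℝ) * l * α))
  have h3 : ∑ n ∈ Icc 1 X, ((∑ d ∈ n.divisors.filter (fun d => d ≤ V),
      ∑ m ∈ (n / d).divisors.filter (fun m => m ≤ U),
        (ArithmeticFunction.moebius d : ℝ) * ArithmeticFunction.vonMangoldt m : ℝ) : ℂ) *
          ee (n * α) = ∑ n ∈ Icc 1 X, (∑ d ∈ n.divisors, ∑ m ∈ (n / d).divisors,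
          if d ≤ V ∧ m ≤ U then (ArithmeticFunction.moebius d : ℂ) *
            (ArithmeticFunction.vonMangoldt m : ℂ) else 0) * ee (n * α) := by
    refine Finset.sum_congr rfl fun n hn => ?_
    congr 1
    push_cast
    rw [Finset.sum_filter]
    refine Finset.sum_congr rfl fun d hd => ?_
    by_cases hd' : d ≤ V
    · simp only [hd', if_true, true_and]
      rw [Finset.sum_filter]
    · simp [hd']
  rw [h3, h1, ← h2]
  rw [← Finset.sum_subset (Finset.Icc_subset_Icc_right hZ : Icc 1 (V * U) ⊆ Icc 1 X)]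
  · refine Finset.sum_congr rfl fun e he => ?_
    rw [Finset.sum_mul]
    refine Finset.sum_congr rfl fun d hd => ?_
    rw [Nat.mem_divisors] at hd
    rw [Nat.mul_div_cancel' hd.1]
  · intro e he he'
    refine Finset.sum_eq_zero fun d hd => ?_
    rw [Nat.mem_divisors] at hd
    rw [if_neg, zero_mul]
    rintro ⟨h4, h5⟩
    rw [mem_Icc] at he he'
    apply he'
    refine ⟨he.1, ?_⟩
    rw [← Nat.mul_div_cancel' hd.1]
    exact Nat.mul_le_mul h4 h5

private noncomputable def vinoV (V k : ℕ) : ℂ :=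
  ∑ d ∈ k.divisors.filter (fun d => V < d), (ArithmeticFunction.moebius d : ℂ)

private lemma vino_T3 (X U V : ℕ) (α : ℝ) :
    ∑ n ∈ Icc 1 X, ((∑ d ∈ n.divisors.filter (fun d => V < d),
      ∑ m ∈ (n / d).divisors.filter (fun m => U < m),
        (ArithmeticFunction.moebius d : ℝ) * ArithmeticFunction.vonMangoldt m : ℝ) : ℂ) *
          ee (n * α) =
    ∑ m ∈ Ioc U X, ∑ k ∈ Icc 1 (X / m), (ArithmeticFunction.vonMangoldt m : ℂ) * vinoV V k *
      ee (m * k * α) := by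
  have h1 := vino_swapT X (fun d m => if V < d ∧ U < m then
      (ArithmeticFunction.moebius d : ℂ) * (ArithmeticFunction.vonMangoldt m : ℂ) else 0) α
  have h3 : ∑ n ∈ Icc 1 X, ((∑ d ∈ n.divisors.filter (fun d => V < d),
      ∑ m ∈ (n / d).divisors.filter (fun m => U < m),
        (ArithmeticFunction.moebius d : ℝ) * ArithmeticFunction.vonMangoldt m : ℝ) : ℂ) *
          ee (n * α) = ∑ n ∈ Icc 1 X, (∑ d ∈ n.divisors, ∑ m ∈ (n / d).divisors,
          if V < d ∧ U < m then (ArithmeticFunction.moebius d : ℂ) *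
            (ArithmeticFunction.vonMangoldt m : ℂ) else 0) * ee (n * α) := by
    refine Finset.sum_congr rfl fun n hn => ?_
    congr 1
    push_cast
    rw [Finset.sum_filter]
    refine Finset.sum_congr rfl fun d hd => ?_
    by_cases hd' : V < d
    · simp only [hd', if_true, true_and]
      rw [Finset.sum_filter]
    · simp [hd']
  rw [h3, h1, vino_swapB]
  have h4 : Ioc U X ⊆ Icc 1 X := by
    intro m hm
    rw [mem_Ioc] at hm
    rw [mem_Icc]
    exact ⟨by omega, hm.2⟩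
  rw [← Finset.sum_subset h4]
  · refine Finset.sum_congr rfl fun m hm => ?_
    rw [mem_Ioc] at hm
    have h5 := vino_swapA (X / m) (fun d l => (if V < d then
      (ArithmeticFunction.moebius d : ℂ) * (ArithmeticFunction.vonMangoldt m : ℂ) else 0) *
      ee (((m * (d * l) : ℕ) : ℝ) * α))
    have h6 : ∑ d ∈ Icc 1 (X / m), (if V < d ∧ U < m then
        (ArithmeticFunction.moebius d : ℂ) * (ArithmeticFunction.vonMangoldt m : ℂ) else 0) *
        ∑ l ∈ Icc 1 (X / (d * m)), ee (((d * m : ℕ) : ℝ) * l * α) =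
        ∑ d ∈ Icc 1 (X / m), ∑ l ∈ Icc 1 (X / m / d), (if V < d then
      (ArithmeticFunction.moebius d : ℂ) * (ArithmeticFunction.vonMangoldt m : ℂ) else 0) *
      ee (((m * (d * l) : ℕ) : ℝ) * α) := by
      refine Finset.sum_congr rfl fun d hd => ?_
      rw [Nat.div_div_eq_div_mul, mul_comm m d, Finset.mul_sum]
      refine Finset.sum_congr rfl fun l hl => ?_
      simp only [hm.1, and_true]
      congr 2
      push_cast
      ring
    rw [h6, ← h5]
    refine Finset.sum_congr rfl fun k hk => ?_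
    unfold vinoV
    rw [Finset.sum_filter, Finset.mul_sum, Finset.sum_mul]
    refine Finset.sum_congr rfl fun d hd => ?_
    rw [Nat.mem_divisors] at hd
    rw [Nat.mul_div_cancel' hd.1]
    push_cast
    split_ifs
    · ring
    · simp
  · intro m hm hm'
    refine Finset.sum_eq_zero fun d hd => ?_
    rw [if_neg, zero_mul]
    rintro ⟨h5, h6⟩
    rw [mem_Icc] at hm
    rw [mem_Ioc] at hm'
    exact hm' ⟨h6, hm.2⟩

private noncomputable def vinoT1 (V n : ℕ) : ℝ :=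
  ∑ d ∈ n.divisors.filter (fun d => d ≤ V),
    (ArithmeticFunction.moebius d : ℝ) * Real.log ((n / d : ℕ) : ℝ)

private noncomputable def vinoT2 (U V n : ℕ) : ℝ :=
  ∑ d ∈ n.divisors.filter (fun d => d ≤ V), ∑ m ∈ (n / d).divisors.filter (fun m => m ≤ U),
    (ArithmeticFunction.moebius d : ℝ) * ArithmeticFunction.vonMangoldt m

private noncomputable def vinoT3 (U V n : ℕ) : ℝ :=
  ∑ d ∈ n.divisors.filter (fun d => V < d), ∑ m ∈ (n / d).divisors.filter (fun m => U < m),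
    (ArithmeticFunction.moebius d : ℝ) * ArithmeticFunction.vonMangoldt m

private lemma vino_mu_abs (d : ℕ) : |(ArithmeticFunction.moebius d : ℝ)| ≤ 1 := by
  have h := ArithmeticFunction.abs_moebius_le_one (n := d)
  exact_mod_cast h

private lemma vino_T1_abs (V n : ℕ) (hn : 1 ≤ n) : |vinoT1 V n| ≤ n * Real.log n := by
  unfold vinoT1
  calc |∑ d ∈ n.divisors.filter (fun d => d ≤ V),
      (ArithmeticFunction.moebius d : ℝ) * Real.log ((n / d : ℕ) : ℝ)|
      ≤ ∑ d ∈ n.divisors.filter (fun d => d ≤ V),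
        |(ArithmeticFunction.moebius d : ℝ) * Real.log ((n / d : ℕ) : ℝ)| :=
        Finset.abs_sum_le_sum_abs _ _
    _ ≤ ∑ d ∈ n.divisors.filter (fun d => d ≤ V), Real.log n := by
        refine Finset.sum_le_sum fun d hd => ?_
        rw [mem_filter, Nat.mem_divisors] at hd
        have hd0 : 0 < d := Nat.pos_of_dvd_of_pos hd.1.1 hn
        have h1 : 1 ≤ n / d := Nat.div_pos (Nat.le_of_dvd hn hd.1.1) hd0
        have h2 : (1 : ℝ) ≤ ((n / d : ℕ) : ℝ) := by exact_mod_cast h1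
        have h3 : 0 ≤ Real.log ((n / d : ℕ) : ℝ) := Real.log_nonneg h2
        have h4 : Real.log ((n / d : ℕ) : ℝ) ≤ Real.log n := by
          apply Real.log_le_log (by linarith)
          exact_mod_cast Nat.div_le_self n d
        rw [abs_mul, abs_of_nonneg h3]
        calc |(ArithmeticFunction.moebius d : ℝ)| * Real.log ((n / d : ℕ) : ℝ)
            ≤ 1 * Real.log ((n / d : ℕ) : ℝ) :=
              mul_le_mul_of_nonneg_right (vino_mu_abs d) h3
          _ ≤ Real.log n := by rw [one_mul]; exact h4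
    _ = ((n.divisors.filter (fun d => d ≤ V)).card : ℝ) * Real.log n := by
        rw [Finset.sum_const, nsmul_eq_mul]
    _ ≤ n * Real.log n := by
        have h5 : 0 ≤ Real.log n := Real.log_nonneg (by exact_mod_cast hn)
        apply mul_le_mul_of_nonneg_right _ h5
        have h6 : (n.divisors.filter (fun d => d ≤ V)).card ≤ n :=
          (Finset.card_filter_le _ _).trans (Nat.card_divisors_le_self n)
        exact_mod_cast h6

private lemma vino_inner_abs (k d : ℕ) (s : Finset ℕ) (hs : s ⊆ k.divisors) :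
    |∑ m ∈ s, (ArithmeticFunction.moebius d : ℝ) * ArithmeticFunction.vonMangoldt m| ≤
      Real.log k := by
  rw [← Finset.mul_sum, abs_mul]
  have h0 : 0 ≤ ∑ m ∈ s, (ArithmeticFunction.vonMangoldt m : ℝ) :=
    Finset.sum_nonneg fun m _ => ArithmeticFunction.vonMangoldt_nonneg
  have h1 : ∑ m ∈ s, (ArithmeticFunction.vonMangoldt m : ℝ) ≤ Real.log k := by
    rw [← ArithmeticFunction.vonMangoldt_sum]
    exact Finset.sum_le_sum_of_subset_of_nonneg hs
      fun m _ _ => ArithmeticFunction.vonMangoldt_nonneg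
  rw [abs_of_nonneg h0]
  calc |(ArithmeticFunction.moebius d : ℝ)| * ∑ m ∈ s, (ArithmeticFunction.vonMangoldt m : ℝ)
      ≤ 1 * ∑ m ∈ s, (ArithmeticFunction.vonMangoldt m : ℝ) :=
        mul_le_mul_of_nonneg_right (vino_mu_abs d) h0
    _ ≤ Real.log k := by rw [one_mul]; exact h1

private lemma vino_T2_abs (U V n : ℕ) (hn : 1 ≤ n) : |vinoT2 U V n| ≤ n * Real.log n := by
  unfold vinoT2
  calc |∑ d ∈ n.divisors.filter (fun d => d ≤ V), ∑ m ∈ (n / d).divisors.filter (fun m => m ≤ U),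
        (ArithmeticFunction.moebius d : ℝ) * ArithmeticFunction.vonMangoldt m|
      ≤ ∑ d ∈ n.divisors.filter (fun d => d ≤ V),
        |∑ m ∈ (n / d).divisors.filter (fun m => m ≤ U),
        (ArithmeticFunction.moebius d : ℝ) * ArithmeticFunction.vonMangoldt m| :=
        Finset.abs_sum_le_sum_abs _ _
    _ ≤ ∑ d ∈ n.divisors.filter (fun d => d ≤ V), Real.log n := by
        refine Finset.sum_le_sum fun d hd => ?_
        rw [mem_filter, Nat.mem_divisors] at hd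
        have hd0 : 0 < d := Nat.pos_of_dvd_of_pos hd.1.1 hn
        have h1 : 1 ≤ n / d := Nat.div_pos (Nat.le_of_dvd hn hd.1.1) hd0
        have h2 : (1 : ℝ) ≤ ((n / d : ℕ) : ℝ) := by exact_mod_cast h1
        refine (vino_inner_abs (n / d) d _ (Finset.filter_subset _ _)).trans ?_
        apply Real.log_le_log (by linarith)
        exact_mod_cast Nat.div_le_self n d
    _ = ((n.divisors.filter (fun d => d ≤ V)).card : ℝ) * Real.log n := by
        rw [Finset.sum_const, nsmul_eq_mul]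
    _ ≤ n * Real.log n := by
        have h5 : 0 ≤ Real.log n := Real.log_nonneg (by exact_mod_cast hn)
        apply mul_le_mul_of_nonneg_right _ h5
        have h6 : (n.divisors.filter (fun d => d ≤ V)).card ≤ n :=
          (Finset.card_filter_le _ _).trans (Nat.card_divisors_le_self n)
        exact_mod_cast h6

private lemma vino_T3_zero (U V n : ℕ) (hU : n ≤ U) : vinoT3 U V n = 0 := by
  unfold vinoT3
  refine Finset.sum_eq_zero fun d hd => ?_
  rw [mem_filter, Nat.mem_divisors] at hd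
  refine Finset.sum_eq_zero fun m hm => ?_
  exfalso
  rw [mem_filter, Nat.mem_divisors] at hm
  have h1 : 0 < n / d := Nat.pos_of_ne_zero hm.1.2
  have h2 : m ≤ n / d := Nat.le_of_dvd h1 hm.1.1
  have h3 : n / d ≤ n := Nat.div_le_self n d
  omega

private lemma vino_small (X U V : ℕ) (hX : 2 ≤ X) (hUX : U ≤ X) (α : ℝ) :
    ‖∑ n ∈ Icc 1 X, (((ArithmeticFunction.vonMangoldt n : ℝ) -
      (vinoT1 V n - vinoT2 U V n + vinoT3 U V n) : ℝ) : ℂ) * ee (n * α)‖ ≤
      3 * ((U : ℝ) * U) * Real.log X := by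
  have hlX : 0 ≤ Real.log X := Real.log_nonneg (by exact_mod_cast (by omega : 1 ≤ X))
  calc ‖∑ n ∈ Icc 1 X, (((ArithmeticFunction.vonMangoldt n : ℝ) -
      (vinoT1 V n - vinoT2 U V n + vinoT3 U V n) : ℝ) : ℂ) * ee (n * α)‖
      ≤ ∑ n ∈ Icc 1 X, ‖(((ArithmeticFunction.vonMangoldt n : ℝ) -
      (vinoT1 V n - vinoT2 U V n + vinoT3 U V n) : ℝ) : ℂ) * ee (n * α)‖ := norm_sum_le _ _
    _ ≤ ∑ n ∈ Icc 1 X, (if n ≤ U then 3 * ((U : ℝ) * Real.log X) else 0) := by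
        refine Finset.sum_le_sum fun n hn => ?_
        rw [mem_Icc] at hn
        rw [norm_mul, norm_ee, mul_one, Complex.norm_real, Real.norm_eq_abs]
        split_ifs with h
        · have h1 := vino_T1_abs V n hn.1
          have h2 := vino_T2_abs U V n hn.1
          have h3 := vino_T3_zero U V n h
          have h4 : (ArithmeticFunction.vonMangoldt n : ℝ) ≤ Real.log n :=
            ArithmeticFunction.vonMangoldt_le_log
          have h5 : 0 ≤ (ArithmeticFunction.vonMangoldt n : ℝ) :=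
            ArithmeticFunction.vonMangoldt_nonneg
          have h6 : (n : ℝ) ≤ U := by exact_mod_cast h
          have h7 : (1 : ℝ) ≤ n := by exact_mod_cast hn.1
          have h8 : Real.log n ≤ Real.log X := by
            apply Real.log_le_log (by linarith)
            exact_mod_cast hn.2
          have h9 : 0 ≤ Real.log n := Real.log_nonneg h7
          have h10 : (n : ℝ) * Real.log n ≤ U * Real.log X :=
            mul_le_mul h6 h8 h9 (by linarith)
          have h11 : Real.log n ≤ n * Real.log n := by nlinarith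
          rw [h3, add_zero]
          rw [abs_le] at h1 h2 ⊢
          constructor <;> linarith [h1.1, h1.2, h2.1, h2.2]
        · have h1 := vaughan_identity U V n (by omega)
          unfold vinoT1 vinoT2 vinoT3
          rw [← h1, sub_self, abs_zero]
    _ = ∑ n ∈ Icc 1 U, 3 * ((U : ℝ) * Real.log X) := by
        rw [← Finset.sum_filter]
        refine Finset.sum_congr ?_ fun _ _ => rfl
        ext n
        simp only [mem_filter, mem_Icc]
        constructor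
        · rintro ⟨⟨h1, _⟩, h3⟩; exact ⟨h1, h3⟩
        · rintro ⟨h1, h2⟩; exact ⟨⟨h1, h2.trans hUX⟩, h2⟩
    _ = 3 * ((U : ℝ) * U) * Real.log X := by
        rw [Finset.sum_const, nsmul_eq_mul, Nat.card_Icc]
        simp only [Nat.add_sub_cancel]
        ring

private lemma vinoV_zero (V k : ℕ) (h : k ≤ V) : vinoV V k = 0 := by
  unfold vinoV
  refine Finset.sum_eq_zero fun d hd => ?_
  exfalso
  rw [mem_filter, Nat.mem_divisors] at hd
  have := Nat.le_of_dvd (Nat.pos_of_ne_zero hd.1.2) hd.1.1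
  omega

private lemma vinoV_norm (V k : ℕ) : ‖vinoV V k‖ ≤ k.divisors.card := by
  unfold vinoV
  calc ‖∑ d ∈ k.divisors.filter (fun d => V < d), (ArithmeticFunction.moebius d : ℂ)‖
      ≤ ∑ d ∈ k.divisors.filter (fun d => V < d), ‖(ArithmeticFunction.moebius d : ℂ)‖ :=
        norm_sum_le _ _
    _ ≤ ∑ d ∈ k.divisors.filter (fun d => V < d), (1 : ℝ) := by
        refine Finset.sum_le_sum fun d _ => ?_
        have h := vino_mu_abs d
        have e : ‖(ArithmeticFunction.moebius d : ℂ)‖ = |(ArithmeticFunction.moebius d : ℝ)| := by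
          rw [Complex.norm_intCast]
        rw [e]; exact h
    _ = ((k.divisors.filter (fun d => V < d)).card : ℝ) := by simp
    _ ≤ k.divisors.card := by exact_mod_cast Finset.card_filter_le _ _

private lemma vino_dyadic (g : ℕ → ℂ) (U J : ℕ) :
    ∑ j ∈ range J, ∑ m ∈ Ioc (2 ^ j * U) (2 * (2 ^ j * U)), g m =
      ∑ m ∈ Ioc U (2 ^ J * U), g m := by
  induction J with
  | zero => simp
  | succ J ih =>
    rw [Finset.sum_range_succ, ih, Finset.sum_Ioc_consecutive g]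
    · congr 2
      ring
    · exact Nat.le_mul_of_pos_left U (by positivity)
    · omega

private lemma vino_Su (X M : ℕ) (hX : 2 ≤ X) (hM : 1 ≤ M) (hMX : M ≤ X) :
    ∑ m ∈ Ioc M (2 * M), ‖(ArithmeticFunction.vonMangoldt m : ℂ)‖ ^ 2 ≤
      M * (1 + Real.log X) ^ 2 := by
  have hX0 : (0 : ℝ) < X := by exact_mod_cast (by omega : 0 < X)
  calc ∑ m ∈ Ioc M (2 * M), ‖(ArithmeticFunction.vonMangoldt m : ℂ)‖ ^ 2
      ≤ ∑ m ∈ Ioc M (2 * M), (1 + Real.log X) ^ 2 := by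
        refine Finset.sum_le_sum fun m hm => ?_
        rw [mem_Ioc] at hm
        rw [Complex.norm_real, Real.norm_eq_abs,
          abs_of_nonneg ArithmeticFunction.vonMangoldt_nonneg]
        have h1 : (ArithmeticFunction.vonMangoldt m : ℝ) ≤ Real.log m :=
          ArithmeticFunction.vonMangoldt_le_log
        have h2 : Real.log m ≤ Real.log (2 * X) := by
          apply Real.log_le_log
          · exact_mod_cast (by omega : 0 < m)
          · exact_mod_cast (by omega : m ≤ 2 * X)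
        have h3 : Real.log (2 * (X : ℝ)) = Real.log 2 + Real.log X :=
          Real.log_mul (by norm_num) hX0.ne'
        have h4 := Real.log_two_lt_d9
        apply pow_le_pow_left₀ ArithmeticFunction.vonMangoldt_nonneg
        linarith
    _ = M * (1 + Real.log X) ^ 2 := by
        rw [Finset.sum_const, nsmul_eq_mul, Nat.card_Ioc]
        congr 2
        omega

private lemma vino_Sv (X M V : ℕ) (hX : 2 ≤ X) (hM : 1 ≤ M) (hMX : M ≤ X) :
    ∑ n ∈ Icc 1 (X / M), ‖vinoV V n‖ ^ 2 ≤ (X : ℝ) / M * (1 + Real.log X) ^ 4 := by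
  obtain ⟨Y, hY⟩ : ∃ Y, Y = X / M := ⟨_, rfl⟩
  rw [← hY]
  have hY1 : 1 ≤ Y := by rw [hY]; exact Nat.div_pos hMX hM
  have hYX : (Y : ℝ) ≤ (X : ℝ) / M := by rw [hY]; exact Nat.cast_div_le
  have hY0 : (0 : ℝ) < Y := by exact_mod_cast hY1
  have hYX' : Y ≤ X := by rw [hY]; exact Nat.div_le_self X M
  calc ∑ n ∈ Icc 1 Y, ‖vinoV V n‖ ^ 2
      ≤ ∑ n ∈ Icc 1 Y, (Y : ℝ) * ((n.divisors.card : ℝ) ^ 2 / n) := by
        refine Finset.sum_le_sum fun n hn => ?_
        rw [mem_Icc] at hn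
        have h1 := vinoV_norm V n
        have h2 : ‖vinoV V n‖ ^ 2 ≤ (n.divisors.card : ℝ) ^ 2 :=
          pow_le_pow_left₀ (norm_nonneg _) h1 2
        have hn0 : (0 : ℝ) < n := by exact_mod_cast hn.1
        have h3 : (n : ℝ) ≤ Y := by exact_mod_cast hn.2
        have h4 : (n.divisors.card : ℝ) ^ 2 ≤ (Y : ℝ) * ((n.divisors.card : ℝ) ^ 2 / n) := by
          rw [mul_div_assoc', le_div_iff₀ hn0, mul_comm]
          exact mul_le_mul_of_nonneg_right h3 (by positivity)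
        exact h2.trans h4
    _ = (Y : ℝ) * ∑ n ∈ Icc 1 Y, ((n.divisors.card : ℝ) ^ 2 / n) := by rw [Finset.mul_sum]
    _ ≤ (Y : ℝ) * (1 + Real.log Y) ^ 4 := mul_le_mul_of_nonneg_left (div_sq Y hY1) hY0.le
    _ ≤ (X : ℝ) / M * (1 + Real.log X) ^ 4 := by
        have h5 : 0 ≤ Real.log Y := Real.log_nonneg (by exact_mod_cast hY1)
        have h6 : Real.log Y ≤ Real.log X := by
          apply Real.log_le_log hY0
          exact_mod_cast hYX'
        have h7 : (1 + Real.log Y) ^ 4 ≤ (1 + Real.log X) ^ 4 :=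
          pow_le_pow_left₀ (by linarith) (by linarith) 4
        exact mul_le_mul hYX h7 (by positivity) (by positivity)

private lemma vino_log_le (q X : ℕ) (hq : 1 ≤ q) (hX : 2 ≤ X) (hqX : q ≤ X) :
    1 + Real.log (q * X) ≤ 2 * (1 + Real.log X) := by
  have hq0 : (0 : ℝ) < q := by exact_mod_cast hq
  have hX0 : (0 : ℝ) < X := by exact_mod_cast (by omega : 0 < X)
  have h1 : Real.log ((q : ℝ) * X) = Real.log q + Real.log X := Real.log_mul hq0.ne' hX0.ne'
  have h2 : Real.log q ≤ Real.log X := by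
    apply Real.log_le_log hq0
    exact_mod_cast hqX
  linarith

private lemma vino_algD (X q M p A B : ℝ) (hX : 0 < X) (hq : 0 < q) (hp : 0 < p)
    (hA : 0 ≤ A) (hB : 0 ≤ B) (e1 : A ^ 2 = X ^ 2 / q) (e2 : B ^ 2 = X * q) (hp5 : p ^ 5 = X ^ 2)
    (hM1 : M ≤ 2 * X / p) (hM2 : X / M ≤ 2 * X / p) :
    X * (M + X / q + X / M + q) ≤ 4 * (A + p ^ 2 + B) ^ 2 := by
  have e3 : X ^ 2 / p = p ^ 4 := by
    rw [← hp5]; field_simp
  have h5 : X * (M + X / q + X / M + q) ≤ X * (2 * X / p + X / q + 2 * X / p + q) := by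
    apply mul_le_mul_of_nonneg_left _ hX.le
    linarith
  have h6 : X * (2 * X / p + X / q + 2 * X / p + q) =
      4 * (X ^ 2 / p) + X ^ 2 / q + X * q := by
    ring
  rw [h6, e3, ← e1, ← e2] at h5
  have h7 : 0 ≤ p ^ 2 := by positivity
  have h8 : 4 * p ^ 4 + A ^ 2 + B ^ 2 ≤ 4 * (A + p ^ 2 + B) ^ 2 := by
    nlinarith [mul_nonneg hA h7, mul_nonneg hB h7, mul_nonneg hA hB, sq_nonneg A,
      sq_nonneg B]
  linarith

private lemma vino_alg2 (C3 X M L T D N : ℝ) (hC : 1 ≤ C3) (hM : 0 < M) (hL1 : 1 ≤ L)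
    (hD : 0 ≤ D) (hN : 0 ≤ N) (h4 : X * T ≤ 4 * D ^ 2)
    (h10 : N ^ 2 ≤ C3 * (M * L ^ 2) * (X / M * L ^ 4) * T * (2 * L)) :
    N ≤ 3 * C3 * L ^ 4 * D := by
  have hL0 : 0 < L := by linarith
  have hC0 : 0 < C3 := by linarith
  have hMX' : M * (X / M) = X := mul_div_cancel₀ _ hM.ne'
  have h11 : C3 * (M * L ^ 2) * (X / M * L ^ 4) * T * (2 * L) =
      2 * C3 * L ^ 7 * (X * T) := by
    calc C3 * (M * L ^ 2) * (X / M * L ^ 4) * T * (2 * L)
        = 2 * C3 * L ^ 7 * ((M * (X / M)) * T) := by ring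
      _ = 2 * C3 * L ^ 7 * (X * T) := by rw [hMX']
  rw [h11] at h10
  have h12 : 2 * C3 * L ^ 7 * (X * T) ≤
      2 * C3 * L ^ 7 * (4 * D ^ 2) := mul_le_mul_of_nonneg_left h4 (by positivity)
  have h13 : 2 * C3 * L ^ 7 * (4 * D ^ 2) ≤ (3 * C3 * L ^ 4 * D) ^ 2 := by
    have k3 : L ^ 7 ≤ L ^ 8 := pow_le_pow_right₀ hL1 (by norm_num)
    have k4 : 8 * C3 ≤ 9 * C3 ^ 2 := by nlinarith
    calc 2 * C3 * L ^ 7 * (4 * D ^ 2) = (8 * C3) * L ^ 7 * D ^ 2 := by ring
      _ ≤ (9 * C3 ^ 2) * L ^ 8 * D ^ 2 := by gcongr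
      _ = (3 * C3 * L ^ 4 * D) ^ 2 := by ring
  have h14 := h10.trans (h12.trans h13)
  exact (sq_le_sq₀ hN (by positivity)).1 h14

private lemma vino_block (C3 : ℝ) (hC : 1 ≤ C3) (q X M V : ℕ) (α p : ℝ) (hq : 1 ≤ q)
    (hM : 1 ≤ M) (hMX : M ≤ X) (hX : 2 ≤ X) (hqX : q ≤ X)
    (hT : ‖∑ m ∈ Ioc M (2 * M), ∑ n ∈ Icc 1 (X / m),
        (ArithmeticFunction.vonMangoldt m : ℂ) * vinoV V n * ee (m * n * α)‖ ^ 2 ≤
      C3 * (∑ m ∈ Ioc M (2 * M), ‖(ArithmeticFunction.vonMangoldt m : ℂ)‖ ^ 2) *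
        (∑ n ∈ Icc 1 (X / M), ‖vinoV V n‖ ^ 2) *
        ((M : ℝ) + X / q + X / M + q) * (1 + Real.log (q * X)))
    (hp1 : 1 ≤ p) (hp5 : p ^ 5 = (X : ℝ) ^ 2) (hM1 : (M : ℝ) ≤ 2 * X / p)
    (hM2 : (X : ℝ) / M ≤ 2 * X / p) :
    ‖∑ m ∈ Ioc M (2 * M), ∑ n ∈ Icc 1 (X / m),
        (ArithmeticFunction.vonMangoldt m : ℂ) * vinoV V n * ee (m * n * α)‖ ≤
      3 * C3 * (1 + Real.log X) ^ 4 * ((X : ℝ) / Real.sqrt q + p ^ 2 + Real.sqrt (X * q)) := by
  have hX1 : (1 : ℝ) ≤ X := by exact_mod_cast (by omega : 1 ≤ X)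
  have hX0 : (0 : ℝ) < X := by linarith
  have hq0 : (0 : ℝ) < q := by exact_mod_cast hq
  have hM0 : (0 : ℝ) < M := by exact_mod_cast hM
  have hp0 : (0 : ℝ) < p := by linarith
  have hL1 : 1 ≤ 1 + Real.log X := by
    have := Real.log_nonneg hX1
    linarith
  have h1 := vino_Su X M hX hM hMX
  have h2 := vino_Sv X M V hX hM hMX
  have h3 := vino_log_le q X hq hX hqX
  have e1 : ((X : ℝ) / Real.sqrt q) ^ 2 = (X : ℝ) ^ 2 / q := by
    rw [div_pow, Real.sq_sqrt hq0.le]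
  have e2 : Real.sqrt (X * q) ^ 2 = X * q := Real.sq_sqrt (by positivity)
  have h4 := vino_algD (X : ℝ) q M p ((X : ℝ) / Real.sqrt q) (Real.sqrt (X * q)) hX0 hq0 hp0
    (by positivity) (by positivity) e1 e2 hp5 hM1 hM2
  have h9 : 0 ≤ (M : ℝ) + X / q + X / M + q := by positivity
  refine vino_alg2 C3 X M (1 + Real.log X) _ _ _ hC hM0 hL1 (by positivity) (norm_nonneg _) h4 ?_
  refine hT.trans ?_
  have k1 : 0 ≤ 1 + Real.log (q * X) := by
    have : 0 ≤ Real.log ((q : ℝ) * X) := Real.log_nonneg (by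
      have : (1 : ℝ) ≤ q := by exact_mod_cast hq
      nlinarith)
    linarith
  have k2 : 0 ≤ ∑ n ∈ Icc 1 (X / M), ‖vinoV V n‖ ^ 2 :=
    Finset.sum_nonneg fun _ _ => by positivity
  have k3 : 0 ≤ C3 := by linarith
  have k4 : 0 ≤ 1 + Real.log X := by linarith
  refine mul_le_mul ?_ h3 k1 (by positivity)
  refine mul_le_mul_of_nonneg_right ?_ h9
  refine mul_le_mul ?_ h2 k2 (by positivity)
  exact mul_le_mul_of_nonneg_left h1 k3

private lemma vino_J (X : ℕ) (hX : 2 ≤ X) :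
    ((Nat.log 2 X + 1 : ℕ) : ℝ) ≤ 2 * (1 + Real.log X) := by
  have h1 : (2 : ℝ) ^ (Nat.log 2 X) ≤ X := by
    exact_mod_cast Nat.pow_log_le_self 2 (by omega)
  have h2 : Real.log ((2 : ℝ) ^ (Nat.log 2 X)) ≤ Real.log X :=
    Real.log_le_log (by positivity) h1
  rw [Real.log_pow] at h2
  have h3 := Real.log_two_gt_d9
  have h4 : (0 : ℝ) ≤ (Nat.log 2 X : ℝ) := Nat.cast_nonneg _
  push_cast
  nlinarith

private lemma vino_III (C3 : ℝ) (hC : 1 ≤ C3) (q X U : ℕ) (α p : ℝ)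
    (hII : ∀ (M : ℕ) (u v : ℕ → ℂ), 1 ≤ M → M ≤ X →
      ‖∑ m ∈ Ioc M (2 * M), ∑ n ∈ Icc 1 (X / m), u m * v n * ee (m * n * α)‖ ^ 2 ≤
      C3 * (∑ m ∈ Ioc M (2 * M), ‖u m‖ ^ 2) * (∑ n ∈ Icc 1 (X / M), ‖v n‖ ^ 2) *
        ((M : ℝ) + X / q + X / M + q) * (1 + Real.log (q * X)))
    (hq : 1 ≤ q) (hX : 2 ≤ X) (hqX : q ≤ X) (hp1 : 1 ≤ p) (hp5 : p ^ 5 = (X : ℝ) ^ 2)
    (hU1 : 1 ≤ U) (hU3 : p ≤ 2 * U) :
    ‖∑ m ∈ Ioc U X, ∑ k ∈ Icc 1 (X / m),
        (ArithmeticFunction.vonMangoldt m : ℂ) * vinoV U k * ee (m * k * α)‖ ≤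
      6 * C3 * (1 + Real.log X) ^ 5 *
        ((X : ℝ) / Real.sqrt q + p ^ 2 + Real.sqrt (X * q)) := by
  obtain ⟨g, hg⟩ : ∃ g : ℕ → ℂ, g = fun m => ∑ k ∈ Icc 1 (X / m),
    (ArithmeticFunction.vonMangoldt m : ℂ) * vinoV U k * ee (m * k * α) := ⟨_, rfl⟩
  have hX1 : (1 : ℝ) ≤ X := by exact_mod_cast (by omega : 1 ≤ X)
  have hX0 : (0 : ℝ) < X := by linarith
  have hL0 : 0 ≤ Real.log X := Real.log_nonneg hX1
  have hU0 : (0 : ℝ) < U := by exact_mod_cast hU1
  have hp0 : (0 : ℝ) < p := by linarith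
  obtain ⟨J, hJ⟩ : ∃ J, J = Nat.log 2 X + 1 := ⟨_, rfl⟩
  have hXJ : X ≤ 2 ^ J * U := by
    have h1 : X < 2 ^ J := by
      rw [hJ]; exact Nat.lt_pow_succ_log_self (by norm_num) X
    calc X ≤ 2 ^ J := h1.le
      _ ≤ 2 ^ J * U := Nat.le_mul_of_pos_right _ hU1
  have h1 : ∑ m ∈ Ioc U X, g m = ∑ m ∈ Ioc U (2 ^ J * U), g m := by
    refine Finset.sum_subset (Finset.Ioc_subset_Ioc_right hXJ) ?_
    intro m hm hm'
    rw [mem_Ioc] at hm hm'
    have h2 : X < m := by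
      by_contra h
      exact hm' ⟨hm.1, by omega⟩
    rw [hg]
    simp [Nat.div_eq_of_lt h2]
  have h2 : ∀ j ∈ range J, ‖∑ m ∈ Ioc (2 ^ j * U) (2 * (2 ^ j * U)), g m‖ ≤
      3 * C3 * (1 + Real.log X) ^ 4 *
        ((X : ℝ) / Real.sqrt q + p ^ 2 + Real.sqrt (X * q)) := by
    intro j _
    obtain ⟨M, hM⟩ : ∃ M, M = 2 ^ j * U := ⟨_, rfl⟩
    rw [← hM]
    have hUM : U ≤ M := by
      rw [hM]; exact Nat.le_mul_of_pos_left U (by positivity)
    have hUM' : (U : ℝ) ≤ M := by exact_mod_cast hUM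
    have hM0 : (0 : ℝ) < M := by linarith
    have hXU : (X : ℝ) / U ≤ 2 * X / p := by
      rw [div_le_div_iff₀ hU0 hp0]
      nlinarith
    by_cases hc : M * U ≤ X
    · rw [hg]
      have hMX : M ≤ X := (Nat.le_mul_of_pos_right M hU1).trans hc
      refine vino_block C3 hC q X M U α p hq (hU1.trans hUM) hMX hX hqX
        (hII M _ _ (hU1.trans hUM) hMX) hp1 hp5 ?_ ?_
      · refine le_trans ?_ hXU
        rw [le_div_iff₀ hU0]
        exact_mod_cast hc
      · refine le_trans ?_ hXU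
        exact div_le_div_of_nonneg_left hX0.le hU0 hUM'
    · rw [Finset.sum_eq_zero]
      · rw [norm_zero]
        have hC0 : 0 ≤ C3 := by linarith
        positivity
      · intro m hm
        rw [mem_Ioc] at hm
        rw [hg]
        refine Finset.sum_eq_zero fun k hk => ?_
        rw [mem_Icc] at hk
        have h3 : 0 < m := by omega
        have h4 : k * m ≤ X := (Nat.le_div_iff_mul_le h3).1 hk.2
        have h5 : k ≤ U := by
          by_contra h
          push Not at h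
          apply hc
          calc M * U ≤ m * k := Nat.mul_le_mul hm.1.le h.le
            _ = k * m := mul_comm _ _
            _ ≤ X := h4
        rw [vinoV_zero U k h5]
        simp
  have h3 : ‖∑ m ∈ Ioc U X, g m‖ ≤ (J : ℝ) * (3 * C3 * (1 + Real.log X) ^ 4 *
        ((X : ℝ) / Real.sqrt q + p ^ 2 + Real.sqrt (X * q))) := by
    rw [h1, ← vino_dyadic]
    refine (norm_sum_le _ _).trans ?_
    refine (Finset.sum_le_sum h2).trans ?_
    rw [Finset.sum_const, nsmul_eq_mul, card_range]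
  have h4 : (J : ℝ) ≤ 2 * (1 + Real.log X) := by
    rw [hJ]; exact vino_J X hX
  rw [hg] at h3
  refine h3.trans ?_
  have hC0 : 0 ≤ C3 := by linarith
  have h5 : 0 ≤ 3 * C3 * (1 + Real.log X) ^ 4 *
        ((X : ℝ) / Real.sqrt q + p ^ 2 + Real.sqrt (X * q)) := by positivity
  refine (mul_le_mul_of_nonneg_right h4 h5).trans (le_of_eq ?_)
  ring

private noncomputable def vinoC (U V e : ℕ) : ℂ :=
  ∑ d ∈ e.divisors, if d ≤ V ∧ e / d ≤ U then
      (ArithmeticFunction.moebius d : ℂ) * (ArithmeticFunction.vonMangoldt (e / d) : ℂ) else 0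

private lemma vinoC_norm (U V e : ℕ) : ‖vinoC U V e‖ ≤ Real.log e := by
  unfold vinoC
  calc ‖∑ d ∈ e.divisors, if d ≤ V ∧ e / d ≤ U then
      (ArithmeticFunction.moebius d : ℂ) * (ArithmeticFunction.vonMangoldt (e / d) : ℂ) else 0‖
      ≤ ∑ d ∈ e.divisors, ‖if d ≤ V ∧ e / d ≤ U then
      (ArithmeticFunction.moebius d : ℂ) * (ArithmeticFunction.vonMangoldt (e / d) : ℂ)
        else (0 : ℂ)‖ := norm_sum_le _ _
    _ ≤ ∑ d ∈ e.divisors, (ArithmeticFunction.vonMangoldt (e / d) : ℝ) := by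
        refine Finset.sum_le_sum fun d _ => ?_
        have h0 : 0 ≤ (ArithmeticFunction.vonMangoldt (e / d) : ℝ) :=
          ArithmeticFunction.vonMangoldt_nonneg
        split_ifs
        · rw [norm_mul, Complex.norm_real, Real.norm_eq_abs, abs_of_nonneg h0,
            Complex.norm_intCast]
          calc |(ArithmeticFunction.moebius d : ℝ)| * (ArithmeticFunction.vonMangoldt (e / d) : ℝ)
              ≤ 1 * (ArithmeticFunction.vonMangoldt (e / d) : ℝ) :=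
                mul_le_mul_of_nonneg_right (vino_mu_abs d) h0
            _ = _ := one_mul _
        · rw [norm_zero]; exact h0
    _ = ∑ d ∈ e.divisors, (ArithmeticFunction.vonMangoldt d : ℝ) :=
        Nat.sum_div_divisors e (fun d => (ArithmeticFunction.vonMangoldt d : ℝ))
    _ = Real.log e := ArithmeticFunction.vonMangoldt_sum

private lemma vino_main (C1 C2 C3 : ℝ) (hC1 : 1 ≤ C1) (hC2 : 1 ≤ C2) (hC3 : 1 ≤ C3)
    (q X U : ℕ) (α p : ℝ)
    (hI1 : ∀ (Z : ℕ) (B : ℝ) (c : ℕ → ℂ), Z ≤ X → 0 ≤ B → (∀ d, ‖c d‖ ≤ B) →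
      ‖∑ d ∈ Icc 1 Z, c d * ∑ m ∈ Icc 1 (X / d), (Real.log m : ℂ) * ee (d * m * α)‖ ≤
      C1 * B * ((X : ℝ) / q + Z + q) * (1 + Real.log (q * X)) ^ 3)
    (hI2 : ∀ (Z : ℕ) (B : ℝ) (c : ℕ → ℂ), Z ≤ X → 0 ≤ B → (∀ d, ‖c d‖ ≤ B) →
      ‖∑ d ∈ Icc 1 Z, c d * ∑ m ∈ Icc 1 (X / d), ee (d * m * α)‖ ≤
      C2 * B * ((X : ℝ) / q + Z + q) * (1 + Real.log (q * X)) ^ 2)
    (hII : ∀ (M : ℕ) (u v : ℕ → ℂ), 1 ≤ M → M ≤ X →
      ‖∑ m ∈ Ioc M (2 * M), ∑ n ∈ Icc 1 (X / m), u m * v n * ee (m * n * α)‖ ^ 2 ≤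
      C3 * (∑ m ∈ Ioc M (2 * M), ‖u m‖ ^ 2) * (∑ n ∈ Icc 1 (X / M), ‖v n‖ ^ 2) *
        ((M : ℝ) + X / q + X / M + q) * (1 + Real.log (q * X)))
    (hq : 1 ≤ q) (hX : 2 ≤ X) (hqX : q ≤ X) (hp1 : 1 ≤ p) (hp5 : p ^ 5 = (X : ℝ) ^ 2)
    (hU1 : 1 ≤ U) (hU2 : (U : ℝ) ≤ p) (hU3 : p ≤ 2 * U) :
    ‖∑ n ∈ Icc 1 X, (ArithmeticFunction.vonMangoldt n : ℂ) * ee (n * α)‖ ≤
      (8 * C1 + 4 * C2 + 6 * C3 + 3) *
        ((X : ℝ) / Real.sqrt q + p ^ 2 + Real.sqrt (X * q)) * (1 + Real.log X) ^ 6 := by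
  have hX1 : (1 : ℝ) ≤ X := by exact_mod_cast (by omega : 1 ≤ X)
  have hX0 : (0 : ℝ) < X := by linarith
  have hq1 : (1 : ℝ) ≤ q := by exact_mod_cast hq
  have hq0 : (0 : ℝ) < q := by linarith
  have hlog : 0 ≤ Real.log X := Real.log_nonneg hX1
  have hp0 : (0 : ℝ) < p := by linarith
  have hp2X : p ^ 2 ≤ X := by
    have h1 : p ^ 4 ≤ (X : ℝ) ^ 2 := by
      rw [← hp5]; exact pow_le_pow_right₀ hp1 (by norm_num)
    have h2 : (p ^ 2) ^ 2 ≤ (X : ℝ) ^ 2 := by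
      calc (p ^ 2) ^ 2 = p ^ 4 := by ring
        _ ≤ _ := h1
    exact (sq_le_sq₀ (by positivity) hX0.le).1 h2
  have hUU : (U : ℝ) * U ≤ p ^ 2 := by nlinarith [Nat.cast_nonneg (α := ℝ) U]
  have hUUX : U * U ≤ X := by
    have : ((U * U : ℕ) : ℝ) ≤ X := by push_cast; linarith
    exact_mod_cast this
  have hUX : U ≤ X := (Nat.le_mul_of_pos_left U hU1).trans hUUX
  have hpp : p ≤ p ^ 2 := by nlinarith
  obtain ⟨L, hL⟩ : ∃ L, L = 1 + Real.log X := ⟨_, rfl⟩
  have hL1 : 1 ≤ L := by linarith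
  have hL0 : 0 < L := by linarith
  obtain ⟨D, hD⟩ : ∃ D, D = (X : ℝ) / Real.sqrt q + p ^ 2 + Real.sqrt (X * q) := ⟨_, rfl⟩
  have hsq1 : 1 ≤ Real.sqrt q := by
    rw [Real.one_le_sqrt]; exact hq1
  have hXq : (X : ℝ) / q ≤ X / Real.sqrt q := by
    apply div_le_div_of_nonneg_left hX0.le (by linarith)
    calc Real.sqrt q ≤ Real.sqrt q * Real.sqrt q := le_mul_of_one_le_right (by linarith) hsq1
      _ = q := Real.mul_self_sqrt hq0.le
  have hqs : (q : ℝ) ≤ Real.sqrt (X * q) := by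
    apply Real.le_sqrt_of_sq_le
    have : (q : ℝ) ≤ X := by exact_mod_cast hqX
    nlinarith
  have hXs0 : 0 ≤ (X : ℝ) / Real.sqrt q := by positivity
  have hD0 : 0 ≤ D := by rw [hD]; positivity
  have hl2 := vino_log_le q X hq hX hqX
  have hl0 : 0 ≤ 1 + Real.log (q * X) := by
    have : 0 ≤ Real.log ((q : ℝ) * X) := Real.log_nonneg (by nlinarith)
    linarith
  have hlogL : Real.log X ≤ L := by linarith
  -- the four parts
  have P0 := vino_small X U U hX hUX α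
  have P1 := hI1 U 1 (fun d => (ArithmeticFunction.moebius d : ℂ)) hUX zero_le_one (by
    intro d
    have h := vino_mu_abs d
    have e : ‖(ArithmeticFunction.moebius d : ℂ)‖ = |(ArithmeticFunction.moebius d : ℝ)| := by
      rw [Complex.norm_intCast]
    rw [e]; exact h)
  have P2 := hI2 (U * U) (Real.log X) (fun e => if e ≤ U * U then vinoC U U e else 0) hUUX hlog (by
    intro e
    split_ifs with h
    · refine (vinoC_norm U U e).trans ?_
      rcases Nat.eq_zero_or_pos e with h0 | h0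
      · rw [h0]; simpa using hlog
      · apply Real.log_le_log (by exact_mod_cast h0)
        exact_mod_cast h.trans hUUX
    · rw [norm_zero]; exact hlog)
  have P3 := vino_III C3 hC3 q X U α p hII hq hX hqX hp1 hp5 hU1 hU3
  rw [← vino_T3] at P3
  rw [← vino_T1 X U hUX α] at P1
  have P2' : ‖∑ n ∈ Icc 1 X, ((vinoT2 U U n : ℝ) : ℂ) * ee (n * α)‖ ≤
      C2 * Real.log X * ((X : ℝ) / q + (U * U : ℕ) + q) * (1 + Real.log (q * X)) ^ 2 := by
    unfold vinoT2
    rw [vino_T2 X U U hUUX α]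
    refine le_trans (le_of_eq ?_) P2
    congr 1
    refine Finset.sum_congr rfl fun e he => ?_
    rw [mem_Icc] at he
    rw [if_pos he.2]
    rfl
  have P1' : ‖∑ n ∈ Icc 1 X, ((vinoT1 U n : ℝ) : ℂ) * ee (n * α)‖ ≤
      C1 * 1 * ((X : ℝ) / q + U + q) * (1 + Real.log (q * X)) ^ 3 := P1
  have P3' : ‖∑ n ∈ Icc 1 X, ((vinoT3 U U n : ℝ) : ℂ) * ee (n * α)‖ ≤
      6 * C3 * (1 + Real.log X) ^ 5 *
        ((X : ℝ) / Real.sqrt q + p ^ 2 + Real.sqrt (X * q)) := P3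
  have hsplit : ∑ n ∈ Icc 1 X, (ArithmeticFunction.vonMangoldt n : ℂ) * ee (n * α) =
      ∑ n ∈ Icc 1 X, (((ArithmeticFunction.vonMangoldt n : ℝ) -
        (vinoT1 U n - vinoT2 U U n + vinoT3 U U n) : ℝ) : ℂ) * ee (n * α) +
      ∑ n ∈ Icc 1 X, ((vinoT1 U n : ℝ) : ℂ) * ee (n * α) -
      ∑ n ∈ Icc 1 X, ((vinoT2 U U n : ℝ) : ℂ) * ee (n * α) +
      ∑ n ∈ Icc 1 X, ((vinoT3 U U n : ℝ) : ℂ) * ee (n * α) := by
    rw [← Finset.sum_add_distrib, ← Finset.sum_sub_distrib, ← Finset.sum_add_distrib]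
    refine Finset.sum_congr rfl fun n _ => ?_
    push_cast
    ring
  rw [hsplit]
  have Q0 : 3 * ((U : ℝ) * U) * Real.log X ≤ 3 * D * L ^ 6 := by
    have h1 : (U : ℝ) * U ≤ D := by
      rw [hD]
      have := Real.sqrt_nonneg ((X : ℝ) * q)
      linarith
    have h2 : L ≤ L ^ 6 := le_self_pow₀ hL1 (by norm_num)
    have h3 : Real.log X ≤ L ^ 6 := hlogL.trans h2
    have h4 : 3 * ((U : ℝ) * U) ≤ 3 * D := by linarith
    exact mul_le_mul h4 h3 hlog (by positivity)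
  have Q1 : C1 * 1 * ((X : ℝ) / q + U + q) * (1 + Real.log (q * X)) ^ 3 ≤
      8 * C1 * D * L ^ 6 := by
    have h1 : (X : ℝ) / q + U + q ≤ D := by rw [hD]; linarith
    have h2 : (1 + Real.log (q * X)) ^ 3 ≤ (2 * L) ^ 3 := by
      rw [hL]; exact pow_le_pow_left₀ hl0 hl2 3
    have h3 : L ^ 3 ≤ L ^ 6 := pow_le_pow_right₀ hL1 (by norm_num)
    have hC0 : 0 ≤ C1 := by linarith
    calc C1 * 1 * ((X : ℝ) / q + U + q) * (1 + Real.log (q * X)) ^ 3
        ≤ C1 * 1 * D * (2 * L) ^ 3 := by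
          apply mul_le_mul _ h2 (by positivity) (by positivity)
          exact mul_le_mul_of_nonneg_left h1 (by positivity)
      _ = 8 * C1 * D * L ^ 3 := by ring
      _ ≤ 8 * C1 * D * L ^ 6 := mul_le_mul_of_nonneg_left h3 (by positivity)
  have Q2 : C2 * Real.log X * ((X : ℝ) / q + (U * U : ℕ) + q) * (1 + Real.log (q * X)) ^ 2 ≤
      4 * C2 * D * L ^ 6 := by
    have h1 : (X : ℝ) / q + (U * U : ℕ) + q ≤ D := by rw [hD]; push_cast; linarith
    have h2 : (1 + Real.log (q * X)) ^ 2 ≤ (2 * L) ^ 2 := by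
      rw [hL]; exact pow_le_pow_left₀ hl0 hl2 2
    have h3 : L ^ 3 ≤ L ^ 6 := pow_le_pow_right₀ hL1 (by norm_num)
    have hC0 : 0 ≤ C2 := by linarith
    calc C2 * Real.log X * ((X : ℝ) / q + (U * U : ℕ) + q) * (1 + Real.log (q * X)) ^ 2
        ≤ C2 * L * D * (2 * L) ^ 2 := by
          apply mul_le_mul _ h2 (by positivity) (by positivity)
          apply mul_le_mul _ h1 (by positivity) (by positivity)
          exact mul_le_mul_of_nonneg_left hlogL hC0
      _ = 4 * C2 * D * L ^ 3 := by ring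
      _ ≤ 4 * C2 * D * L ^ 6 := mul_le_mul_of_nonneg_left h3 (by positivity)
  have Q3 : 6 * C3 * (1 + Real.log X) ^ 5 *
        ((X : ℝ) / Real.sqrt q + p ^ 2 + Real.sqrt (X * q)) ≤ 6 * C3 * D * L ^ 6 := by
    rw [← hL, ← hD]
    have h3 : L ^ 5 ≤ L ^ 6 := pow_le_pow_right₀ hL1 (by norm_num)
    have hC0 : 0 ≤ C3 := by linarith
    calc 6 * C3 * L ^ 5 * D = 6 * C3 * D * L ^ 5 := by ring
      _ ≤ 6 * C3 * D * L ^ 6 := mul_le_mul_of_nonneg_left h3 (by positivity)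
  rw [← hD, ← hL]
  refine (norm_add_le _ _).trans ?_
  refine (add_le_add (norm_sub_le _ _) le_rfl).trans ?_
  refine (add_le_add (add_le_add (norm_add_le _ _) le_rfl) le_rfl).trans ?_
  have e : (8 * C1 + 4 * C2 + 6 * C3 + 3) * D * L ^ 6 =
    3 * D * L ^ 6 + 8 * C1 * D * L ^ 6 + 4 * C2 * D * L ^ 6 + 6 * C3 * D * L ^ 6 := by ring
  rw [e]
  exact add_le_add (add_le_add (add_le_add (P0.trans Q0) (P1'.trans Q1)) (P2'.trans Q2))
    (P3'.trans Q3)

/-- Proof. If `q > X` the claim is trivial (`ψ(X) ≤ C X`, or `≤ X (1 + log X)`). Otherwise `U = V = ⌊X^{2/5}⌋` in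
`vaughan_identity`: the terms `n ≤ U` give `≤ U (1+log U)`; type I sums with `Z = V` and a logarithm; with `Z = UV` and
coefficients `∑_{dm = e} μ(d)Λ(m)`, bounded by `log e`; the type II sum is split dyadically in `m ∈ (M, 2M]`,
`U/2 ≤ M ≤ X/V`, with `u_m = Λ(m) 1[m > U]`, `v_k = ∑_{d ∣ k, d > V} μ(d)`, `|v_k| ≤ d(k)`, so that
`∑ |u|² ≤ C M (1+log X)²`, `∑_{k ≤ X/M} |v_k|² ≤ (X/M)(1+log X)⁴` (`div_sq`) and the square of the type II sum is at most
`C X (M + X/q + X/M + q)(1+log X)^9`. -/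
theorem vino_lambda : ∃ C : ℝ, 1 ≤ C ∧ ∀ (q X : ℕ) (a : ℤ) (α : ℝ), 1 ≤ q → 2 ≤ X →
    IsCoprime a (q : ℤ) → |α - a / q| ≤ 1 / (q : ℝ) ^ 2 →
    ‖∑ n ∈ Icc 1 X, (ArithmeticFunction.vonMangoldt n : ℂ) * ee (n * α)‖ ≤
      C * ((X : ℝ) / Real.sqrt q + (X : ℝ) ^ (4 / 5 : ℝ) + Real.sqrt (X * q)) * (1 + Real.log X) ^ 6 := by
  obtain ⟨C1, hC1, hI1⟩ := typeI_log
  obtain ⟨C2, hC2, hI2⟩ := typeI_one
  obtain ⟨C3, hC3, hII⟩ := typeII
  refine ⟨8 * C1 + 4 * C2 + 6 * C3 + 3, by linarith, ?_⟩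
  intro q X a α hq hX hcop hα
  have hX1 : (1 : ℝ) ≤ X := by exact_mod_cast (by omega : 1 ≤ X)
  have hX0 : (0 : ℝ) < X := by linarith
  have hlog : 0 ≤ Real.log X := Real.log_nonneg hX1
  have hL1 : 1 ≤ 1 + Real.log X := by linarith
  by_cases hqX : q ≤ X
  · obtain ⟨p, hp⟩ : ∃ p, p = (X : ℝ) ^ (2 / 5 : ℝ) := ⟨_, rfl⟩
    have hp1 : 1 ≤ p := by rw [hp]; exact Real.one_le_rpow hX1 (by norm_num)
    have hp5 : p ^ 5 = (X : ℝ) ^ 2 := by
      rw [hp, ← Real.rpow_natCast, ← Real.rpow_natCast, ← Real.rpow_mul hX0.le]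
      norm_num
    have hp2 : p ^ 2 = (X : ℝ) ^ (4 / 5 : ℝ) := by
      rw [hp, ← Real.rpow_natCast, ← Real.rpow_mul hX0.le]
      norm_num
    rw [← hp2]
    refine vino_main C1 C2 C3 hC1 hC2 hC3 q X ⌊p⌋₊ α p ?_ ?_ ?_ hq hX hqX hp1 hp5 ?_ ?_ ?_
    · intro Z B c hZ hB hc
      exact hI1 q X Z a α B c hq (by omega) hZ hcop hα hB hc
    · intro Z B c hZ hB hc
      exact hI2 q X Z a α B c hq (by omega) hZ hcop hα hB hc
    · intro M u v hM hMX
      exact hII q X M a α u v hq hM hMX hcop hα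
    · exact Nat.le_floor (by exact_mod_cast hp1)
    · exact Nat.floor_le (by linarith)
    · have h1 := Nat.lt_floor_add_one p
      have h2 : (1 : ℝ) ≤ ⌊p⌋₊ := by
        exact_mod_cast (Nat.le_floor (by exact_mod_cast hp1) : 1 ≤ ⌊p⌋₊)
      linarith
  · push Not at hqX
    have hqX' : (X : ℝ) ≤ q := by exact_mod_cast hqX.le
    have h1 : ‖∑ n ∈ Icc 1 X, (ArithmeticFunction.vonMangoldt n : ℂ) * ee (n * α)‖ ≤
        X * Real.log X := by
      calc ‖∑ n ∈ Icc 1 X, (ArithmeticFunction.vonMangoldt n : ℂ) * ee (n * α)‖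
          ≤ ∑ n ∈ Icc 1 X, ‖(ArithmeticFunction.vonMangoldt n : ℂ) * ee (n * α)‖ :=
            norm_sum_le _ _
        _ ≤ ∑ n ∈ Icc 1 X, Real.log X := by
            refine Finset.sum_le_sum fun n hn => ?_
            rw [mem_Icc] at hn
            rw [norm_mul, norm_ee, mul_one, Complex.norm_real, Real.norm_eq_abs,
              abs_of_nonneg ArithmeticFunction.vonMangoldt_nonneg]
            refine ArithmeticFunction.vonMangoldt_le_log.trans ?_
            apply Real.log_le_log (by exact_mod_cast hn.1)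
            exact_mod_cast hn.2
        _ = X * Real.log X := by
            rw [Finset.sum_const, nsmul_eq_mul, Nat.card_Icc]
            simp
    have h2 : (X : ℝ) ≤ Real.sqrt (X * q) := by
      apply Real.le_sqrt_of_sq_le
      nlinarith
    have h3 : Real.log X ≤ (1 + Real.log X) ^ 6 :=
      (by linarith : Real.log X ≤ 1 + Real.log X).trans (le_self_pow₀ hL1 (by norm_num))
    have h4 : (X : ℝ) ≤ (8 * C1 + 4 * C2 + 6 * C3 + 3) *
        ((X : ℝ) / Real.sqrt q + (X : ℝ) ^ (4 / 5 : ℝ) + Real.sqrt (X * q)) := by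
      have k1 : 0 ≤ (X : ℝ) / Real.sqrt q := by positivity
      have k2 : 0 ≤ (X : ℝ) ^ (4 / 5 : ℝ) := by positivity
      have k3 : 1 ≤ 8 * C1 + 4 * C2 + 6 * C3 + 3 := by linarith
      calc (X : ℝ) ≤ 1 * ((X : ℝ) / Real.sqrt q + (X : ℝ) ^ (4 / 5 : ℝ) + Real.sqrt (X * q)) := by
            linarith
        _ ≤ _ := mul_le_mul_of_nonneg_right k3 (by positivity)
    refine h1.trans ?_
    exact mul_le_mul h4 h3 hlog (by positivity)

end Pool.Agent.Lib.MP_629a14_nt.Th
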