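import Pool.Agent.Lib.MP_629a14_nt.Th.Lower
import Pool.Agent.Lib.MP_629a14_nt.Th.Pos

/-! Zero-free region: complex characters. -/

set_option autoImplicit false

namespace Pool.Agent.Lib.MP_629a14_nt.Th

open Finset

/-- Proof. Let `ρ = β + iγ`, `ℓ = log(q(|γ|+3)) ≥ 1`. If `β < 13/16` there is nothing to prove. Otherwise
`‖ρ - ctr γ‖ ≤ 1/4`. With `σ = 1 + η/ℓ` (`η ≤ 1/16` small, absolute), `pos341`, `upper_triv` (with `t = 0`),
`lower_chi` for `χ` at `t = γ` with `S = {ρ}` and for `χ²` at `2γ` with `S = ∅` give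
`4/(σ-β) ≤ 3/(σ-1) + C ℓ`, i.e. `σ - β ≥ 4/((3/η + C) ℓ)`, so
`1 - β ≥ (4/(3+Cη) - 1) η/ℓ ≥ c/ℓ` if `C η ≤ 1/2`. -/
theorem zfrA : ∃ c : ℝ, 0 < c ∧ ∀ (q : ℕ) [NeZero q] (χ : DirichletCharacter ℂ q), χ ^ 2 ≠ 1 →
    ∀ ρ : ℂ, χ.LFunction ρ = 0 → ρ.re ≤ 1 - c / Real.log (q * (|ρ.im| + 3)) := by
  obtain ⟨C₁, hC₁, H₁⟩ := lower_chi
  obtain ⟨C₂, hC₂, H₂⟩ := upper_triv
  set C : ℝ := C₁ + C₂ with hC
  have hCpos : 2 ≤ C := by rw [hC]; linarith
  set η : ℝ := 1 / (18 * C) with hη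
  have hη0 : 0 < η := by rw [hη]; positivity
  have hη1 : η ≤ 1 / 16 := by
    rw [hη]
    apply one_div_le_one_div_of_le (by norm_num) (by linarith)
  have hCη : 9 * C * η = 1 / 2 := by
    rw [hη]; field_simp; norm_num
  refine ⟨η / 7, by positivity, ?_⟩
  intro q _ χ hχ2 ρ hρ
  have hχ : χ ≠ 1 := by
    rintro rfl
    exact hχ2 (one_pow 2)
  set γ : ℝ := ρ.im with hγ
  set β : ℝ := ρ.re with hβ
  set l : ℝ := Real.log (q * (|γ| + 3)) with hl
  have hq1 : (1 : ℝ) ≤ q := by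
    have : 1 ≤ q := Nat.one_le_iff_ne_zero.2 (NeZero.ne q)
    exact_mod_cast this
  have hab : 0 ≤ |γ| := abs_nonneg γ
  have h3 : (1 : ℝ) ≤ Real.log 3 := by
    rw [Real.le_log_iff_exp_le (by norm_num)]
    exact Real.exp_one_lt_d9.le.trans (by norm_num)
  have hl3 : Real.log (3 * q) ≤ l := by
    apply Real.log_le_log (by positivity)
    nlinarith
  have hl1 : 1 ≤ l := by
    refine h3.trans (le_trans ?_ hl3)
    apply Real.log_le_log (by norm_num)
    linarith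
  have hl0 : 0 < l := by linarith
  have hβ1 : β < 1 := by
    by_contra hcon
    push Not at hcon
    exact DirichletCharacter.LFunction_ne_zero_of_one_le_re χ (Or.inl hχ) hcon hρ
  by_cases hcase : β < 13 / 16
  · have : η / 7 / l ≤ η / 7 := div_le_self (by positivity) hl1
    linarith
  push Not at hcase
  set σ : ℝ := 1 + η / l with hσ
  have hσ1 : 1 < σ := by rw [hσ]; linarith [div_pos hη0 hl0]
  have hσ2 : σ ≤ 17 / 16 := by
    have : η / l ≤ η := div_le_self hη0.le hl1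
    rw [hσ]; linarith
  have hρe : ρ = (β : ℂ) + γ * Complex.I := by
    rw [hβ, hγ, Complex.re_add_im]
  have hdist : ‖ρ - ctr γ‖ ≤ 1 / 4 := by
    have : ρ - ctr γ = ((β - 17 / 16 : ℝ) : ℂ) := by
      rw [hρe, ctr]
      push_cast
      ring
    rw [this, Complex.norm_real, Real.norm_eq_abs, abs_le]
    constructor <;> linarith
  have e0 := pos341 q χ σ γ hσ1
  have e1 := H₂ q 0 σ hσ1 hσ2
  have e2 := H₁ q χ hχ γ σ hσ1 hσ2 {ρ} (by
    intro ρ' hρ'
    rw [Finset.mem_singleton] at hρ'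
    rw [hρ']
    exact ⟨hρ, hdist⟩)
  have e3 := H₁ q (χ ^ 2) hχ2 (2 * γ) σ hσ1 hσ2 ∅ (by simp)
  rw [Finset.sum_singleton] at e2
  rw [Finset.sum_empty] at e3
  simp only [Complex.ofReal_zero, zero_mul, add_zero, abs_zero, zero_add] at e1
  have e4 : (1 / ((σ : ℂ) - 1)).re = l / η := by
    have : (1 / ((σ : ℂ) - 1)) = ((1 / (σ - 1) : ℝ) : ℂ) := by push_cast; rfl
    have hne : η ≠ 0 := hη0.ne'
    have hs1 : σ - 1 = η / l := by rw [hσ]; ring
    rw [this, Complex.ofReal_re, hs1, one_div_div]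
  have e5 : (1 / ((σ : ℂ) + γ * Complex.I - ρ)).re = 1 / (σ - β) := by
    have : (1 / ((σ : ℂ) + γ * Complex.I - ρ)) = ((1 / (σ - β) : ℝ) : ℂ) := by
      rw [hρe]; push_cast; congr 1; ring
    rw [this, Complex.ofReal_re]
  have e6 : Real.log (q * (|2 * γ| + 3)) ≤ 2 * l := by
    have h2 : Real.log (q * (|2 * γ| + 3)) ≤ Real.log (3 * (q * (|γ| + 3))) := by
      apply Real.log_le_log (by positivity)
      rw [abs_mul, abs_two]
      nlinarith
    have h4 : Real.log (3 * (q * (|γ| + 3))) = Real.log 3 + l := by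
      rw [Real.log_mul (by norm_num) (by positivity)]
    have h5 : Real.log 3 ≤ l := by
      refine le_trans ?_ hl3
      apply Real.log_le_log (by norm_num)
      linarith
    linarith
  push_cast at e3
  rw [e4] at e1
  rw [e5] at e2
  have e7 : Real.log ((q : ℝ) * 3) ≤ l := by rw [mul_comm]; exact hl3
  have hsb : 0 < σ - β := by linarith
  have f1 : C₂ * Real.log ((q : ℝ) * 3) ≤ C₂ * l := mul_le_mul_of_nonneg_left e7 (by linarith)
  have f2 : C₁ * Real.log (q * (|2 * γ| + 3)) ≤ C₁ * (2 * l) :=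
    mul_le_mul_of_nonneg_left e6 (by linarith)
  have main : 4 * (1 / (σ - β)) ≤ 3 * (l / η) + 9 * C * l := by
    have : 0 ≤ C₂ * l := by positivity
    have : 0 ≤ C₁ * l := by positivity
    rw [hC]
    linarith
  have main2 : 4 ≤ (σ - β) * (3 * (l / η) + 9 * C * l) := by
    have := mul_le_mul_of_nonneg_left main hsb.le
    have h6 : (σ - β) * (4 * (1 / (σ - β))) = 4 := by field_simp
    linarith
  have h7 : (3 * (l / η) + 9 * C * l) = (7 / 2) * (l / η) := by
    have : 9 * C * l = (9 * C * η) * (l / η) := by field_simp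
    rw [this, hCη]; ring
  rw [h7] at main2
  have h8 : 8 / 7 * (η / l) ≤ σ - β := by
    have h9 : (σ - β) * (7 / 2 * (l / η)) = (σ - β) / (2 / 7 * (η / l)) := by
      field_simp
    rw [h9, le_div_iff₀ (by positivity)] at main2
    linarith
  have h10 : η / 7 / l = 1 / 7 * (η / l) := by ring
  rw [h10]
  rw [hσ] at h8
  linarith

end Pool.Agent.Lib.MP_629a14_nt.Th
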